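import Pool.Agent.P.MP_932208_ag.Ex.Inst

/-!
The absolute torsion trivialises the cocycle of the structure sheaf.
-/

namespace Pool.Agent.P.MP_932208_ag.Ax

open CategoryTheory Classical

variable {A B : SRing} {n m : ℕ}

/-- The torsion of the first complex of the flag. -/
noncomputable def absW (x : (famAbs A).X n m) : A.sat.obj m :=
  tau ((famAbs A).K (x.σ 0)).S ((famAbs A).K (x.σ 0)).dg x.sd

theorem Abs_cx (x : (famAbs A).X n m) (b : Fin (n + 1)) :
    CxN ((famAbs A).K (x.σ b)).S ((famAbs A).K (x.σ b)).dg x.sd := by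
  have h := x.cx_base b
  rwa [show (famAbs A).base (x.σ 0) = ∅ from rfl, Finset.sdiff_empty] at h

theorem Abs_mem (σ : Fin (n + 1) →o (famAbs A).Q) (b : Fin (n + 1)) {s : ℕ}
    (hs : s ∈ ((famAbs A).K (σ b)).S) : s ∈ (famAbs A).T σ :=
  Finset.mem_sdiff.2 ⟨((famAbs A).mono (σ.monotone (Fin.le_last b))).1 hs, Finset.notMem_empty _⟩

theorem Abs_tau (x : (famAbs A).X n m) (b : Fin (n + 1)) :
    tau ((famAbs A).K (x.σ b)).S ((famAbs A).K (x.σ b)).dg x.sd = absW x * x.tr 0 b := by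
  have le := (famAbs A).mono (x.σ.monotone (Fin.zero_le b))
  have e := Finset.union_sdiff_of_subset le.1
  have h := tau_union Finset.disjoint_sdiff (e.symm ▸ Abs_cx x b)
    ((Abs_cx x 0).congr (fun s hs => (le.2 s hs).1) fun _ _ _ _ => rfl) (x.cx_diff (Fin.zero_le b))
    fun s hs r hr => x.sd_pat (Abs_mem _ 0 hs) (Abs_mem _ b (Finset.mem_sdiff.1 hr).1)
      fun p => (Finset.mem_sdiff.1 hr).2 (p.1 0 hs)
  rw [e, ← tau_congr (fun s hs => (le.2 s hs).1) fun _ _ _ _ => rfl] at h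
  rw [h, absW, Fam.X.tr]
  ring

theorem Abs_inv {K K' : Type} [CommRing K] [CommRing K'] (g : K →+* K') {a : K} (h : IsUnit a) :
    g (Ring.inverse a) * g a = 1 := by
  rw [← map_mul, Ring.inverse_mul_cancel _ h, map_one]

theorem isUnit_absW (x : (famAbs A).X n m) : IsUnit (absW x) := isUnit_tau (Abs_cx x 0)

theorem absW_map {k k' : ℕ} (θ : Op k n) (θ' : Op k' m) (x : (famAbs A).X n m) :
    absW (x.map θ θ') = A.sat.map θ' (absW x * x.tr 0 (θ 0)) := by
  rw [← Abs_tau, map_tau (Abs_cx x (θ 0))]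
  exact tau_congr (fun _ _ => rfl) fun s hs r hr =>
    x.sd_map θ θ' (Abs_mem (x.σ.comp θ) 0 hs) (Abs_mem (x.σ.comp θ) 0 hr)

theorem absW_bc (φ : A ⟶ B) (u : B.U) (x : (famAbs A).X n m) :
    absW ((bcAbs φ u).X x) * B.ι₀ m u = (SRing.satMap φ).app m (absW x) := by
  have e : absW ((bcAbs φ u).X x) = tau ((famAbs A).K (x.σ 0)).S ((famAbs A).K (x.σ 0)).dg
      fun s r => (bcAbs φ u).lm m s * (SRing.satMap φ).app m (x.sd s r) *
        ↑((bcAbs φ u).lm m r)⁻¹ :=
    tau_congr (fun _ _ => rfl) fun s hs r hr => (bcAbs φ u).sd_X x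
      (Abs_mem ((bcAbs φ u).f.comp x.σ) 0 hs) (Abs_mem ((bcAbs φ u).f.comp x.σ) 0 hr)
  have l1 : ∀ s, s ≠ 0 → (bcAbs φ u).lm m s = 1 := fun s hs => by
    rw [Fam.Hom.lm, show (bcAbs φ u).l s = 1 from if_neg hs, map_one]
  have l0 : ((bcAbs φ u).lm m 0 : B.sat.obj m) * B.ι₀ m u = 1 := by
    rw [Fam.Hom.lm, show (bcAbs φ u).l 0 = u⁻¹ from rfl]
    exact (map_mul (B.ι₀ m) _ _).symm.trans (by rw [Units.inv_mul, map_one])
  have d0 : ((famAbs A).K (x.σ 0)).dg 0 = -1 := rfl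
  have e1 : ∏ s ∈ od ((famAbs A).K (x.σ 0)).S ((famAbs A).K (x.σ 0)).dg,
      ((bcAbs φ u).lm m s : B.sat.obj m) = (bcAbs φ u).lm m 0 :=
    Finset.prod_eq_single_of_mem 0
      (Finset.mem_filter.2 ⟨Finset.mem_insert_self _ _, d0.symm ▸ odd_neg_one⟩)
      fun s _ hs => by rw [l1 s hs, Units.val_one]
  have e2 : ∏ s ∈ ev ((famAbs A).K (x.σ 0)).S ((famAbs A).K (x.σ 0)).dg,
      (↑((bcAbs φ u).lm m s)⁻¹ : B.sat.obj m) = 1 := Finset.prod_eq_one fun s hs => by
    have h0 : s ≠ 0 := by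
      rintro rfl
      exact Int.not_even_iff_odd.2 odd_neg_one (d0 ▸ (Finset.mem_filter.1 hs).2)
    rw [l1 s h0, inv_one, Units.val_one]
  rw [e, tau_conj ((Abs_cx x 0).map _), e1, e2, ← map_tau (Abs_cx x 0), ← absW]
  linear_combination (SRing.satMap φ).app m (absW x) * l0

variable (A) in
/-- The map to the point. -/
@[reducible] noncomputable def absTw :
    Tw.Hom (SRing.satMap (𝟙 A)) (famAbs A).tw (Tw.pt A.sat) where
  f _ := ()
  nat _ _ _ := rfl
  μ x := Ring.inverse (absW x)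
  unit x := (isUnit_absW x).ringInverse
  compat θ θ' x := by
    have h := Ring.mul_inverse_cancel _ (isUnit_absW (x.map θ θ'))
    have h' := Abs_inv (A.sat.map θ') (isUnit_absW x)
    rw [SRing.satMap_id]
    show A.sat.map θ' (Ring.inverse (absW x) * 1) =
      A.sat.map θ' (x.tr 0 (θ 0)) * Ring.inverse (absW (x.map θ θ'))
    rw [mul_one]
    nth_rw 1 [absW_map, map_mul] at h
    linear_combination (A.sat.map θ' (x.tr 0 (θ 0)) * Ring.inverse (absW (x.map θ θ'))) * h' -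
      A.sat.map θ' (Ring.inverse (absW x)) * h

theorem absTw_bc (φ : A ⟶ B) (u : B.U) (x : (famAbs A).X n m) :
    Ring.inverse (absW ((bcAbs φ u).X x)) =
      (SRing.satMap φ).app m (Ring.inverse (absW x)) * B.ι₀ m u := by
  have h := Ring.inverse_mul_cancel _ (isUnit_absW ((bcAbs φ u).X x))
  have h' := Abs_inv ((SRing.satMap φ).app m) (isUnit_absW x)
  rw [← absW_bc φ u x] at h'
  linear_combination (SRing.satMap φ).app m (Ring.inverse (absW x)) * B.ι₀ m u * h -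
    Ring.inverse (absW ((bcAbs φ u).X x)) * h'

end Pool.Agent.P.MP_932208_ag.Ax
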