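import Pool.Agent.P.MP_932208_ag.Ex.Simp1

/-!
Extension of data given on the boundary of a simplex.
-/

namespace Pool.Agent.P.MP_932208_ag.Ax

theorem se_face_apply {n : ℕ} (i : Fin (n + 2)) (a : Fin (n + 1)) :
    (face i : Op n (n + 1)) a = i.succAbove a := rfl

theorem se_face_ne {n : ℕ} (i : Fin (n + 2)) (a : Fin (n + 1)) :
    (face i : Op n (n + 1)) a ≠ i := Fin.succAbove_ne i a

theorem se_face_cancel {k n : ℕ} (i : Fin (n + 2)) {η η' : Op k n}
    (h : (face i).comp η = (face i).comp η') : η = η' :=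
  OrderHom.ext _ _ (funext fun a => Fin.succAbove_right_injective (DFunLike.congr_fun h a))

/-- An operator that misses `i` factors through the face `i`. -/
theorem se_factor {k n : ℕ} (θ : Op k (n + 1)) (i : Fin (n + 2)) (h : ∀ a, θ a ≠ i) :
    ∃ η : Op k n, θ = (face i).comp η := by
  choose f hf using fun a => Fin.exists_succAbove_eq (h a)
  refine ⟨⟨f, fun a b hab => ?_⟩, OrderHom.ext _ _ (funext fun a => (hf a).symm)⟩
  rw [← (Fin.strictMono_succAbove i).le_iff_le, hf, hf]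
  exact θ.monotone hab

theorem se_face_face {n : ℕ} (i : Fin (n + 3)) (j : Fin (n + 2)) :
    (face (i.succAbove j) : Op (n + 1) (n + 2)).comp (face (j.predAbove i)) =
      (face i).comp (face j) :=
  OrderHom.ext _ _ (funext fun a => Fin.succAbove_succAbove_succAbove_predAbove i j a)

theorem Bdy.isEmpty (k : ℕ) : IsEmpty (Bdy k 0) :=
  ⟨fun θ => θ.2 fun b => ⟨0, Subsingleton.elim (α := Fin 1) _ _⟩⟩

theorem Bdy.se_miss {k M : ℕ} (θ : Bdy k M) : ∃ i, ∀ a, θ.1 a ≠ i := by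
  by_contra h
  push Not at h
  exact θ.2 h

/-- Every simplex of the boundary factors through a face. -/
theorem Bdy.exists_face {k M : ℕ} (θ : Bdy k (M + 1)) :
    ∃ (i : Fin (M + 2)) (η : Op k M), θ = (Bdy.face i).comp η := by
  obtain ⟨i, hi⟩ := θ.se_miss
  obtain ⟨η, hη⟩ := se_factor θ.1 i hi
  exact ⟨i, η, Subtype.ext hη⟩

/-- Compatible faces define a natural family on the boundary (for any simplicial set, given by
`obj` and `map`). -/
theorem Bdy.of_faces {obj : ℕ → Type} (map : ∀ {k n : ℕ}, Op k n → obj n → obj k)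
    (map_id : ∀ n (x : obj n), map OrderHom.id x = x)
    (map_comp : ∀ {l k n : ℕ} (θ : Op k n) (η : Op l k) (x : obj n),
      map η (map θ x) = map (θ.comp η) x) {M : ℕ} (y : Fin (M + 2) → obj M)
    (hy : ∀ {M' : ℕ} (i j : Fin (M + 2)) (η η' : Op M' M), M' + 1 = M → i ≠ j →
      Function.Injective η → Function.Injective η' →
      (Pool.Agent.P.MP_932208_ag.Ax.face i).comp η = (Pool.Agent.P.MP_932208_ag.Ax.face j).comp η' →
      map η (y i) = map η' (y j)) :
    ∃ x : ∀ k, Bdy k (M + 1) → obj k, (∀ i, x M (Bdy.face i) = y i) ∧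
      ∀ {l k : ℕ} (θ : Bdy k (M + 1)) (η : Op l k), map η (x k θ) = x l (θ.comp η) := by
  have wd : ∀ {k : ℕ} (i j : Fin (M + 2)) (η η' : Op k M),
      (Pool.Agent.P.MP_932208_ag.Ax.face i).comp η = (Pool.Agent.P.MP_932208_ag.Ax.face j).comp η' →
      map η (y i) = map η' (y j) := by
    intro k i j η η' h
    by_cases hij : j = i
    · subst hij
      rw [se_face_cancel j h]
    obtain ⟨j', rfl⟩ := Fin.exists_succAbove_eq hij
    have hm : ∀ a, η a ≠ j' := fun a ha => by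
      have h1 : i.succAbove (η a) = (i.succAbove j').succAbove (η' a) := DFunLike.congr_fun h a
      rw [ha] at h1
      exact Fin.succAbove_ne _ _ h1.symm
    cases M with
    | zero => exact absurd (Subsingleton.elim (α := Fin 1) _ _) (hm 0)
    | succ M =>
      obtain ⟨ζ, rfl⟩ := se_factor η j' hm
      have h2 : η' = (Pool.Agent.P.MP_932208_ag.Ax.face (j'.predAbove i)).comp ζ := by
        refine se_face_cancel (i.succAbove j') ?_
        rw [← h, ← OrderHom.comp_assoc, ← OrderHom.comp_assoc, se_face_face]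
      rw [h2, ← map_comp, ← map_comp, hy i (i.succAbove j') _ _ rfl (Ne.symm hij)
        Fin.succAbove_right_injective Fin.succAbove_right_injective (se_face_face i j').symm]
  choose I H hH using fun k (θ : Bdy k (M + 1)) => θ.exists_face
  refine ⟨fun k θ => map (H k θ) (y (I k θ)), fun i => ?_, fun {l k} θ η => ?_⟩
  · exact (wd _ i _ OrderHom.id (congrArg Subtype.val (hH M (Bdy.face i))).symm).trans
      (map_id _ _)
  · rw [map_comp]
    refine wd _ _ _ _ ?_
    have h1 := congrArg Subtype.val (hH k θ)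
    have h2 := congrArg Subtype.val (hH l (θ.comp η))
    exact (congrArg (fun t : Op k (M + 1) => t.comp η) h1).symm.trans h2

/-- An injective operator of codimension one is a face. -/
theorem exists_eq_face {n : ℕ} (η : Op n (n + 1)) (h : Function.Injective η) :
    ∃ i, η = face i := by
  have hs : ¬ Function.Surjective η := fun hs => by
    have := Fintype.card_le_of_surjective _ hs
    simp at this
  obtain ⟨i, hi⟩ := Bdy.se_miss ⟨η, hs⟩
  obtain ⟨ζ, rfl⟩ := se_factor η i hi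
  have h1 : StrictMono ζ :=
    ζ.monotone.strictMono_of_injective (Function.Injective.of_comp (f := face i) h)
  exact ⟨i, OrderHom.ext _ _ (funext fun a => congrArg i.succAbove h1.apply_eq)⟩

namespace SAb

/-- `w` vanishes on all simplices that miss a vertex `≥ i`. -/
def SeK (E : SAb) (i : ℕ) {n : ℕ} (w : E.obj n) : Prop :=
  ∀ (k : ℕ) (θ : Op k n) (j : Fin (n + 1)), i ≤ j.val → (∀ a, θ a ≠ j) → E.map θ w = 0

variable {E : SAb}

theorem SeK.mono {i i' n : ℕ} {w : E.obj n} (h : E.SeK i w) (hi : i ≤ i') : E.SeK i' w :=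
  fun k θ j hj => h k θ j (hi.trans hj)

theorem SeK.sub {i n : ℕ} {v w : E.obj n} (hv : E.SeK i v) (hw : E.SeK i w) :
    E.SeK i (v - w) := fun k θ j hj hm => by
  rw [map_sub, hv k θ j hj hm, hw k θ j hj hm, sub_zero]

theorem seK_top {i n : ℕ} (h : n + 1 ≤ i) (w : E.obj n) : E.SeK i w :=
  fun _ _ j hj => absurd (j.2.trans_le (h.trans hj)) (lt_irrefl _)

theorem seK_dim0 (i : ℕ) (w : E.obj 0) : E.SeK i w :=
  fun _ _ _ _ hm => absurd (Subsingleton.elim (α := Fin 1) _ _) (hm 0)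

theorem SeK.face_eq {i n : ℕ} {w : E.obj (n + 1)} (h : E.SeK i w) (j : Fin (n + 2))
    (hj : i ≤ j.val) : E.map (face j) w = 0 := h n (face j) j hj (se_face_ne j)

theorem SeK.step {n : ℕ} (i : Fin (n + 2)) {w : E.obj (n + 1)} (h : E.SeK (i.val + 1) w)
    (h0 : E.map (face i) w = 0) : E.SeK i.val w := fun k θ j hj hm => by
  rcases hj.eq_or_lt with h1 | h1
  · obtain rfl : i = j := Fin.ext h1
    obtain ⟨η, rfl⟩ := se_factor θ i hm
    rw [← E.map_comp, h0, map_zero]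
  · exact h k θ j h1 hm

theorem se_miss_face {k n : ℕ} (i : Fin (n + 2)) {η : Op k n} {j : Fin (n + 1)}
    (hj : i.val ≤ j.val) (hm : ∀ a, η a ≠ j) (a : Fin (k + 1)) :
    (face i).comp η a ≠ j.succ := fun h => by
  have h1 : i.succAbove j = j.succ := Fin.succAbove_of_le_castSucc i j hj
  exact hm a (Fin.succAbove_right_injective (h.trans h1.symm))

theorem SeK.face {n : ℕ} (i : Fin (n + 2)) {w : E.obj (n + 1)} (h : E.SeK (i.val + 1) w) :
    E.SeK i.val (E.map (face i) w) := fun k η j hj hm => by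
  rw [E.map_comp]
  exact h k _ j.succ (Nat.succ_le_succ hj) (se_miss_face i hj hm)

theorem SeK.sph {n : ℕ} {w : E.obj n} (h : E.SeK 0 w) : E.Sph w := by
  cases n with
  | zero => trivial
  | succ n => exact fun i => h.face_eq i (Nat.zero_le _)

theorem seK_of_moore {n : ℕ} {w : E.obj (n + 1)} (h : E.Moore w) : E.SeK 1 w :=
  fun k θ j hj hm => by
  obtain ⟨η, rfl⟩ := se_factor θ j hm
  obtain ⟨j, rfl⟩ := Fin.eq_succ_of_ne_zero (i := j) fun h0 => by simp [h0] at hj
  rw [← E.map_comp, h j, map_zero]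

theorem se_degen_face {n : ℕ} (i : Fin (n + 1)) :
    (degen i : Op (n + 1) n).comp (face i.succ) = OrderHom.id := by
  refine OrderHom.ext _ _ (funext fun a => ?_)
  change i.predAbove (i.succ.succAbove a) = a
  rcases le_or_gt a i with h | h
  · rw [Fin.succAbove_succ_of_le _ _ h, Fin.predAbove_castSucc_of_le _ _ h]
  · rw [Fin.succAbove_succ_of_lt _ _ h, Fin.predAbove_succ_of_le _ _ h.le]

/-- One face can be prescribed while the higher faces vanish. -/
theorem se_lift {Q : E.Sub} (h : Q.Ac) {n : ℕ} (i : Fin (n + 2)) {w : E.obj n}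
    (hw : w ∈ Q.S n) (hK : E.SeK i.val w) :
    ∃ v ∈ Q.S (n + 1), E.map (face i) v = w ∧ E.SeK (i.val + 1) v := by
  rcases Fin.eq_zero_or_eq_succ i with rfl | ⟨i, rfl⟩
  · obtain ⟨z, hz, h1, h2⟩ := h n w hw hK.sph
    exact ⟨z, hz, h2, seK_of_moore h1⟩
  · refine ⟨E.map (degen i) w, Q.map _ hw, by rw [E.map_comp, se_degen_face, E.map_id],
      fun k θ j hj hm => ?_⟩
    rw [Fin.val_succ] at hj hK
    obtain ⟨j, rfl⟩ := Fin.eq_succ_of_ne_zero (i := j) fun h0 => by simp [h0] at hj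
    rw [Fin.val_succ] at hj
    rw [E.map_comp]
    refine hK k _ j (by omega) fun a ha => hm a ?_
    have ha' : i.predAbove (θ a) = j := ha
    rcases lt_or_ge i.castSucc (θ a) with h1 | h1
    · rw [Fin.predAbove_of_castSucc_lt _ _ h1] at ha'
      rw [← ha', Fin.succ_pred]
    · rw [Fin.predAbove_of_le_castSucc _ _ h1] at ha'
      have h2 : (θ a).val = j.val := congrArg Fin.val ha'
      have h3 : (θ a).val ≤ i.val := h1
      omega

/-- Filling a boundary face by face. -/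
theorem se_fill {n : ℕ} (T : AddSubgroup (E.obj (n + 1))) (x : ∀ k, Bdy k (n + 1) → E.obj k)
    (nat : ∀ {l k : ℕ} (θ : Bdy k (n + 1)) (η : Op l k), E.map η (x k θ) = x l (θ.comp η))
    (lift : ∀ (i : Fin (n + 2)), ∀ z ∈ T, E.SeK i.val (x n (Bdy.face i) - E.map (face i) z) →
      ∃ v ∈ T, E.map (face i) v = x n (Bdy.face i) - E.map (face i) z ∧ E.SeK (i.val + 1) v) :
    ∃ z ∈ T, ∀ k (θ : Bdy k (n + 1)), E.map θ.1 z = x k θ := by
  have key : ∀ r, r ≤ n + 2 → ∃ z ∈ T, ∀ k (θ : Bdy k (n + 1)) (j : Fin (n + 2)), r ≤ j.val →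
      (∀ a, θ.1 a ≠ j) → E.map θ.1 z = x k θ := by
    intro r hr
    induction hr using Nat.decreasingInduction with
    | self => exact ⟨0, T.zero_mem, fun _ _ j hj => absurd (j.2.trans_le hj) (lt_irrefl _)⟩
    | of_succ r hr ih =>
      obtain ⟨z, hz, hA⟩ := ih
      obtain ⟨v, hv, h1, h2⟩ := lift ⟨r, hr⟩ z hz fun k η j hj hm => by
        rw [map_sub, nat, E.map_comp, sub_eq_zero]
        exact (hA k ((Bdy.face ⟨r, hr⟩).comp η) j.succ (Nat.succ_le_succ hj)
          (se_miss_face _ hj hm)).symm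
      refine ⟨z + v, T.add_mem hz hv, fun k θ j hj hm => ?_⟩
      rcases hj.eq_or_lt with h3 | h3
      · obtain rfl : (⟨r, hr⟩ : Fin (n + 2)) = j := Fin.ext h3
        obtain ⟨η, hη⟩ := se_factor θ.1 _ hm
        obtain rfl : θ = (Bdy.face ⟨r, hr⟩).comp η := Subtype.ext hη
        rw [hη, ← E.map_comp, map_add, h1, add_sub_cancel, nat]
      · rw [map_add, hA k θ j h3 hm, h2 k θ.1 j h3 hm, add_zero]
  obtain ⟨z, hz, hA⟩ := key 0 (Nat.zero_le _)
  refine ⟨z, hz, fun k θ => ?_⟩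
  obtain ⟨j, hj⟩ := θ.se_miss
  exact hA k θ j (Nat.zero_le _) hj

/-- Boundary data in an acyclic simplicial subgroup extend. -/
theorem Sub.Ac.extend {E : SAb} {Q : E.Sub} (h : Q.Ac) {M : ℕ} (x : ∀ k, Bdy k M → E.obj k)
    (hx : ∀ k θ, x k θ ∈ Q.S k)
    (nat : ∀ {l k : ℕ} (θ : Bdy k M) (η : Op l k), E.map η (x k θ) = x l (θ.comp η)) :
    ∃ z ∈ Q.S M, ∀ k (θ : Bdy k M), E.map θ.1 z = x k θ := by
  cases M with
  | zero => exact ⟨0, (Q.S 0).zero_mem, fun k θ => (Bdy.isEmpty k).elim θ⟩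
  | succ n =>
    exact se_fill (Q.S (n + 1)) x nat fun i z hz hK =>
      se_lift h i ((Q.S n).sub_mem (hx _ _) (Q.map _ hz)) hK

theorem se_exact {E : SAb} (P : ℕ → E.Sub) {M : ℕ}
    (D : ∀ k, Op k M → E.obj k →+ E.obj k)
    (Dn : ∀ {l k : ℕ} (θ : Op k M) (η : Op l k) (x : E.obj k),
      E.map η (D k θ x) = D l (θ.comp η) (E.map η x))
    (DP : ∀ q k θ x, x ∈ (P (q + 1)).S k → D k θ x ∈ (P q).S k)
    (DD : ∀ q k θ x, x ∈ (P (q + 1)).S k → D k θ (D k θ x) = 0)
    (ex : ∀ q k θ x, x ∈ (P q).S k → D k θ x = 0 → ∃ y ∈ (P (q + 1)).S k, D k θ y = x)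
    (ac : ∀ q, (P (q + 1)).Ac) (n : ℕ) : ∀ (θ : Op n M) (i q : ℕ), ∀ w ∈ (P q).S n,
      E.SeK i w → D n θ w = 0 → ∃ v ∈ (P (q + 1)).S n, E.SeK i v ∧ D n θ v = w := by
  induction n with
  | zero =>
    intro θ i q w hw _ h0
    obtain ⟨v, hv, h⟩ := ex q 0 θ w hw h0
    exact ⟨v, hv, seK_dim0 i v, h⟩
  | succ n ih =>
    intro θ i q w hw hK h0
    have top : ∀ i, n + 2 ≤ i → ∃ v ∈ (P (q + 1)).S (n + 1), E.SeK i v ∧ D _ θ v = w :=
      fun i hi => by
        obtain ⟨v, hv, h⟩ := ex q _ θ w hw h0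
        exact ⟨v, hv, seK_top hi v, h⟩
    rcases le_total (n + 2) i with hi | hi
    · exact top i hi
    induction hi using Nat.decreasingInduction with
    | self => exact top _ le_rfl
    | of_succ r hr ih2 =>
      obtain ⟨v, hv, hvK, hvw⟩ := ih2 (hK.mono r.le_succ)
      obtain ⟨u, hu, huK, huv⟩ := ih (θ.comp (face ⟨r, hr⟩)) r (q + 1)
        (E.map (face ⟨r, hr⟩) v) ((P (q + 1)).map _ hv) (SeK.face ⟨r, hr⟩ hvK)
        (by rw [← Dn, hvw, hK.face_eq ⟨r, hr⟩ le_rfl])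
      obtain ⟨t, ht, h1, h2⟩ := se_lift (ac (q + 1)) ⟨r, hr⟩ hu huK
      refine ⟨v - D _ θ t, ((P (q + 1)).S _).sub_mem hv (DP _ _ _ _ ht),
        SeK.step ⟨r, hr⟩ (hvK.sub fun k η j hj hm => ?_) ?_, ?_⟩
      · rw [Dn, h2 k η j hj hm, map_zero]
      · rw [map_sub, Dn, h1, huv, sub_self]
      · rw [map_sub, hvw, DD _ _ _ _ ht, sub_zero]

/-- Cycles extend.  `D` is a differential over `Δ^M` on the graded object `P`, exact over every
simplex of `Δ^M`; the pieces of positive degree are acyclic in the simplicial direction. -/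
theorem cyc_extend {E : SAb} (P : ℕ → E.Sub) {M : ℕ}
    (D : ∀ k, Op k M → E.obj k →+ E.obj k)
    (Dn : ∀ {l k : ℕ} (θ : Op k M) (η : Op l k) (x : E.obj k),
      E.map η (D k θ x) = D l (θ.comp η) (E.map η x))
    (DP : ∀ q k θ x, x ∈ (P (q + 1)).S k → D k θ x ∈ (P q).S k)
    (DD : ∀ q k θ x, x ∈ (P (q + 1)).S k → D k θ (D k θ x) = 0)
    (ex : ∀ q k θ x, x ∈ (P q).S k → D k θ x = 0 → ∃ y ∈ (P (q + 1)).S k, D k θ y = x)
    (ac : ∀ q, (P (q + 1)).Ac) (x : ∀ k, Bdy k M → E.obj k) (hx : ∀ k θ, x k θ ∈ (P 0).S k)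
    (cx : ∀ k θ, D k θ.1 (x k θ) = 0)
    (nat : ∀ {l k : ℕ} (θ : Bdy k M) (η : Op l k), E.map η (x k θ) = x l (θ.comp η)) :
    ∃ z ∈ (P 0).S M, D M OrderHom.id z = 0 ∧ ∀ k (θ : Bdy k M), E.map θ.1 z = x k θ := by
  cases M with
  | zero => exact ⟨0, ((P 0).S 0).zero_mem, map_zero _, fun k θ => (Bdy.isEmpty k).elim θ⟩
  | succ n =>
    obtain ⟨z, hz, h⟩ := se_fill ((P 0).S (n + 1) ⊓ (D _ OrderHom.id).ker) x nat
      fun i z hz hK => by
        have hz2 : D _ OrderHom.id z = 0 := hz.2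
        have h1 : D n (face i) (E.map (face i) z) = 0 := by
          have h2 := Dn OrderHom.id (face i) z
          rw [hz2, map_zero, OrderHom.id_comp] at h2
          exact h2.symm
        obtain ⟨u, hu, huK, huw⟩ := se_exact P D Dn DP DD ex ac n (face i) i.val 0 _
          (((P 0).S n).sub_mem (hx _ _) ((P 0).map _ hz.1)) hK
          (by rw [map_sub, h1, sub_zero]; exact cx n (Bdy.face i))
        obtain ⟨t, ht, h3, h4⟩ := se_lift (ac 0) i hu huK
        refine ⟨D _ OrderHom.id t, ⟨DP _ _ _ _ ht, DD _ _ _ _ ht⟩, ?_, fun k η j hj hm => ?_⟩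
        · rw [Dn, h3, OrderHom.id_comp, huw]
        · rw [Dn, h4 k η j hj hm, map_zero]
    exact ⟨z, hz.1, hz.2, h⟩

end SAb

end Pool.Agent.P.MP_932208_ag.Ax
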