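import Pool.Agent.P.MP_932208_ag.Ex.DR
import Pool.Agent.P.MP_932208_ag.Ex.SimpE

/-!
The dg rings `N A` and `N (A^{Δ^m})`; extension of chains of positive degree.
-/

namespace Pool.Agent.P.MP_932208_ag.Ax

namespace N
variable {A B : SRing}

/-- The component of degree zero. -/
def ev : N A →+* A.obj 0 where
  toFun x := x.1 0
  map_one' := rfl
  map_mul' _ _ := rfl
  map_zero' := rfl
  map_add' _ _ := rfl

theorem hg_add {k : ℤ} {x y : N A} (hx : Hg k x) (hy : Hg k y) : Hg k (x + y) :=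
  fun n hn => by
    change x.1 n + y.1 n = 0
    rw [hx n hn, hy n hn, add_zero]
theorem hg_neg {k : ℤ} {x : N A} (hx : Hg k x) : Hg k (-x) := fun n hn => by
  change -x.1 n = 0
  rw [hx n hn, neg_zero]
theorem hg_mul {p q : ℤ} {x y : N A} (hx : Hg p x) (hy : Hg q y) : Hg (p + q) (x * y) :=
  hx.mul hy
theorem hg_bd {k : ℤ} {x : N A} (hx : Hg k x) : Hg (k - 1) (bd x) := fun n hn => by
  change A.map _ (x.1 (n + 1)) = 0
  rw [hx (n + 1) (by omega), map_zero]
theorem hg_sg {k : ℤ} {x : N A} (hx : Hg k x) : Hg k (sg x) := fun n hn => by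
  change (-1) ^ n * x.1 n = 0
  rw [hx n hn, mul_zero]
theorem eq_zero_of_neg {k : ℤ} {x : N A} (hk : k < 0) (hx : Hg k x) : x = 0 :=
  ext' fun n => hx n (by omega)
theorem inc_ev {x : N A} (hx : Hg 0 x) : inc (ev x) = x := ext' fun n => by
  cases n with
  | zero => rfl
  | succ n => exact (hx (n + 1) (by omega)).symm
theorem ev_pos {k : ℤ} {x : N A} (hk : k ≠ 0) (hx : Hg k x) : ev x = 0 :=
  hx 0 (by omega)
theorem sg_even {k : ℤ} {x : N A} (hk : Even k) (hx : Hg k x) : sg x = x :=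
  ext' fun n => by
    change (-1) ^ n * x.1 n = x.1 n
    by_cases hn : (n : ℤ) = k
    · rw [← hn, Int.even_coe_nat] at hk
      rw [hk.neg_one_pow, one_mul]
    · rw [hx n hn, mul_zero]
theorem sg_odd {k : ℤ} {x : N A} (hk : Odd k) (hx : Hg k x) : sg x = -x :=
  ext' fun n => by
    change (-1) ^ n * x.1 n = -x.1 n
    by_cases hn : (n : ℤ) = k
    · rw [← hn, Int.odd_coe_nat] at hk
      rw [hk.neg_one_pow, neg_one_mul]
    · rw [hx n hn, mul_zero, neg_zero]
theorem sg_sg (x : N A) : sg (sg x) = x := Subtype.ext (Ch.sgn_sgn x.1)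
theorem ev_sg (x : N A) : ev (sg x) = ev x := by
  change (-1) ^ 0 * x.1 0 = x.1 0
  rw [pow_zero, one_mul]
theorem bd_sg (x : N A) : bd (sg x) = -sg (bd x) := ext' fun n => by
  change A.map _ ((-1) ^ (n + 1) * x.1 (n + 1)) = -((-1) ^ n * A.map _ (x.1 (n + 1)))
  rw [map_mul, map_pow, map_neg, map_one, pow_succ]
  ring

end N

/-- The Moore dg ring. -/
def dgN (A : SRing) : DR (N A) (A.obj 0) where
  d := N.bd
  e := N.sg
  Hg := N.Hg
  inc := N.inc
  ev := N.ev
  hg_zero := N.hg_zero _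
  hg_add := N.hg_add
  hg_neg := N.hg_neg
  hg_mul := N.hg_mul
  hg_d := N.hg_bd
  hg_e := N.hg_sg
  eq_zero := N.eq_zero_of_neg
  hg_inc := N.hg_inc
  inc_ev := N.inc_ev
  ev_inc _ := rfl
  ev_pos := N.ev_pos
  e_even := N.sg_even
  e_odd := N.sg_odd
  e_e := N.sg_sg
  ev_e := N.ev_sg
  d_e := N.bd_sg
  d_mul := N.bd_mul
  d_d := N.bd_bd
  inc_comm := N.inc_comm

/-- The inverse of `lev`. -/
def SRing.unlev (A : SRing) (m : ℕ) : (A.cot m).obj 0 →+* A.obj m where
  toFun x := x.1 m OrderHom.id (vert m 0)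
  map_one' := rfl
  map_mul' _ _ := rfl
  map_zero' := rfl
  map_add' _ _ := rfl

theorem SRing.unlev_lev (A : SRing) (m : ℕ) (a : A.obj m) : A.unlev m (A.lev m a) = a :=
  A.map_id m a

theorem SRing.lev_unlev (A : SRing) (m : ℕ) (x : (A.cot m).obj 0) :
    A.lev m (A.unlev m x) = x := by
  refine Subtype.ext (funext fun r => funext fun α => funext fun γ => ?_)
  change A.map α (x.1 m OrderHom.id (vert m 0)) = x.1 r α γ
  rw [x.2 α]
  have e : (vert m 0 : Op m 0).comp α = γ := by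
    ext a
    simp
  rw [e]
  rfl

theorem SRing.incC_ev (A : SRing) (m : ℕ) {x : N (A.cot m)} (hx : N.Hg 0 x) :
    A.incC m (A.unlev m (N.ev x)) = x := by
  change N.inc (A.lev m (A.unlev m (N.ev x))) = x
  rw [A.lev_unlev, N.inc_ev hx]

theorem SRing.evC_pos (A : SRing) (m : ℕ) {k : ℤ} {x : N (A.cot m)} (hk : k ≠ 0)
    (hx : N.Hg k x) : A.unlev m (N.ev x) = 0 := by rw [N.ev_pos hk hx, map_zero]

/-- The dg ring `N (A^{Δ^m})`, with degree zero part `A_m`. -/
def dgC (A : SRing) (m : ℕ) : DR (N (A.cot m)) (A.obj m) where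
  d := N.bd
  e := N.sg
  Hg := N.Hg
  inc := A.incC m
  ev := (A.unlev m).comp N.ev
  hg_zero := N.hg_zero _
  hg_add := N.hg_add
  hg_neg := N.hg_neg
  hg_mul := N.hg_mul
  hg_d := N.hg_bd
  hg_e := N.hg_sg
  eq_zero := N.eq_zero_of_neg
  hg_inc a := N.hg_inc (A.lev m a)
  inc_ev := A.incC_ev m
  ev_inc := A.unlev_lev m
  ev_pos := A.evC_pos m
  e_even := N.sg_even
  e_odd := N.sg_odd
  e_e := N.sg_sg
  ev_e x := congrArg (A.unlev m) (N.ev_sg x)
  d_e := N.bd_sg
  d_mul := N.bd_mul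
  d_d := N.bd_bd
  inc_comm a := N.inc_comm (A.lev m a)

namespace SRing
variable {A B C : SRing}

theorem vtx_nat (A : SRing) (m : ℕ) {k n : ℕ} (θ : Op k n) (x : (A.cot m).obj n) :
    ((A.cot m).map θ x).1 k (vert k 0) OrderHom.id = A.map θ (x.1 n (vert n 0) OrderHom.id) :=
  (x.2 θ (vert n 0) OrderHom.id).symm

/-- Evaluation at the vertex `0` of `Δ^m`. -/
def vtx (A : SRing) (m : ℕ) : (A.cot m).Hom A where
  app k :=
    { toFun := fun x => x.1 k (vert k 0) OrderHom.id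
      map_one' := rfl
      map_mul' := fun _ _ => rfl
      map_zero' := rfl
      map_add' := fun _ _ => rfl }
  nat := A.vtx_nat m

/-- Restriction along `θ : Δ^k → Δ^m`. -/
abbrev rs (A : SRing) {k m : ℕ} (θ : Op k m) : N (A.cot m) →+* N (A.cot k) :=
  N.map (cotHom (Hom.id A) θ)

/-- The map `N (A^{Δ^m}) → N (B^{Δ^m})`. -/
abbrev Hom.nc (f : A.Hom B) (m : ℕ) : N (A.cot m) →+* N (B.cot m) :=
  N.map (cotHom f OrderHom.id)

theorem vtx_const (A : SRing) (m : ℕ) : (A.vtx m).comp (A.const m) = Hom.id A :=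
  Hom.ext' fun n x => A.map_id n x

theorem vtx_cotHom (f : A.Hom B) (m : ℕ) :
    (B.vtx m).comp (cotHom f OrderHom.id) = f.comp (A.vtx m) :=
  Hom.ext' fun _ _ => rfl

theorem cotHom_cotHom (g : B.Hom C) (f : A.Hom B) {l k m : ℕ} (η : Op l k) (θ : Op k m) :
    (cotHom g η).comp (cotHom f θ) = cotHom (g.comp f) (θ.comp η) :=
  Hom.ext' fun _ _ => rfl

theorem cotHom_const (f : A.Hom B) {k m : ℕ} (θ : Op k m) :
    (cotHom f θ).comp (A.const m) = (B.const k).comp f :=
  Hom.ext' fun _ x =>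
    Subtype.ext (funext fun _ => funext fun _ => funext fun γ => f.nat γ x)

theorem rs_rs (A : SRing) {l k m : ℕ} (η : Op l k) (θ : Op k m) (x : N (A.cot m)) :
    A.rs η (A.rs θ x) = A.rs (θ.comp η) x := rfl

theorem rs_id (A : SRing) (m : ℕ) (x : N (A.cot m)) : A.rs OrderHom.id x = x := rfl

theorem nc_rs (f : A.Hom B) {k m : ℕ} (θ : Op k m) (x : N (A.cot m)) :
    f.nc k (A.rs θ x) = B.rs θ (f.nc m x) := rfl

theorem isHom_map (f : A.Hom B) : (dgN A).IsHom (dgN B) (N.map f) (f.app 0) where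
  d := N.map_bd f
  e := N.map_sg f
  hg h := N.Hg.map f h
  inc := N.map_inc f
  ev _ := rfl

theorem isHom_cot (f : A.Hom B) {k m : ℕ} (θ : Op k m) :
    (dgC A m).IsHom (dgC B k) (N.map (cotHom f θ)) ((B.map θ).comp (f.app m)) where
  d := N.map_bd _
  e := N.map_sg _
  hg h := N.Hg.map _ h
  inc a := by
    change N.map _ (N.inc _) = N.inc _
    rw [N.map_inc]
    congr 1
    refine Subtype.ext (funext fun r => funext fun α => funext fun γ => ?_)
    change f.app r (A.map (θ.comp α) a) = B.map α (B.map θ (f.app m a))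
    rw [SRing.map_comp, SRing.Hom.nat]
  ev x := by
    change B.map θ (f.app m ((x.1 0).1 m OrderHom.id (vert m 0))) =
      f.app k ((x.1 0).1 k (θ.comp OrderHom.id) (OrderHom.id.comp (vert k 0)))
    rw [← f.nat, (x.1 0).2 θ]
    rfl

theorem isHom_rs (A : SRing) {k m : ℕ} (θ : Op k m) :
    (dgC A m).IsHom (dgC A k) (A.rs θ) (A.map θ) := isHom_cot (Hom.id A) θ

theorem isHom_nc (f : A.Hom B) (m : ℕ) :
    (dgC A m).IsHom (dgC B m) (f.nc m) (f.app m) := by
  have h := isHom_cot f (OrderHom.id : Op m m)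
  have e : (B.map (OrderHom.id : Op m m)).comp (f.app m) = f.app m :=
    RingHom.ext fun a => B.map_id m _
  rwa [e] at h

theorem isHom_const (A : SRing) (m : ℕ) :
    (dgN A).IsHom (dgC A m) (N.map (A.const m)) (A.map (vert m 0)) where
  d := N.map_bd _
  e := N.map_sg _
  hg h := N.Hg.map _ h
  inc a := by
    change N.map _ (N.inc _) = N.inc _
    rw [N.map_inc]
    congr 1
    refine Subtype.ext (funext fun r => funext fun α => funext fun γ => ?_)
    change A.map γ a = A.map α (A.map (vert m 0) a)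
    rw [SRing.map_comp]
    congr 2
    ext b
    simp
  ev _ := rfl

theorem isHom_vtx (A : SRing) (m : ℕ) :
    (dgC A m).IsHom (dgN A) (N.map (A.vtx m)) (A.map (vert 0 0)) where
  d := N.map_bd _
  e := N.map_sg _
  hg h := N.Hg.map _ h
  inc a := by
    change N.map _ (N.inc _) = N.inc _
    rw [N.map_inc]
    rfl
  ev x := by
    change A.map (vert 0 0) ((x.1 0).1 m OrderHom.id (vert m 0)) =
      (x.1 0).1 0 (vert 0 0) OrderHom.id
    rw [(x.1 0).2 (vert 0 0)]
    have e : (vert m 0 : Op m 0).comp (vert 0 0 : Op 0 m) = OrderHom.id := by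
      ext a
      simp
    rw [e]
    rfl

/-- The simplicial abelian group `m ↦ N (A^{Δ^m})`. -/
@[reducible] def cotN (A : SRing) : SAb where
  obj m := N (A.cot m)
  map θ := (A.rs θ).toAddMonoidHom
  map_id := A.rs_id
  map_comp θ η := A.rs_rs η θ

/-- Vectors of homogeneous chains, with prescribed zeros `z` and with the entries `κ` in the
kernel of `f`. -/
def piSub (f : A.Hom B) {ι : Type} (dg : ι → ℤ) (z κ : ι → Prop) : (SAb.pi ι A.cotN).Sub where
  S k :=
    { carrier := {x | ∀ i, N.Hg (dg i) (x i) ∧ (z i → x i = 0) ∧ (κ i → f.nc k (x i) = 0)}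
      add_mem' := fun {x y} hx hy i => ⟨N.hg_add (hx i).1 (hy i).1,
        fun h => by rw [Pi.add_apply, (hx i).2.1 h, (hy i).2.1 h, add_zero],
        fun h => by rw [Pi.add_apply, map_add, (hx i).2.2 h, (hy i).2.2 h, add_zero]⟩
      zero_mem' := fun i => ⟨N.hg_zero _ _, fun _ => rfl, fun _ => map_zero _⟩
      neg_mem' := fun {x} hx i => ⟨N.hg_neg (hx i).1,
        fun h => by rw [Pi.neg_apply, (hx i).2.1 h, neg_zero],
        fun h => by rw [Pi.neg_apply, map_neg, (hx i).2.2 h, neg_zero]⟩ }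
  map θ x hx i := ⟨(hx i).1.map _,
    fun h => (congrArg (A.rs θ) ((hx i).2.1 h)).trans (map_zero _),
    fun h => (nc_rs f θ (x i)).trans ((congrArg (B.rs θ) ((hx i).2.2 h)).trans (map_zero _))⟩

theorem mem_piSub (f : A.Hom B) {ι : Type} (dg : ι → ℤ) (z κ : ι → Prop) (k : ℕ)
    (x : ι → N (A.cot k)) : x ∈ (piSub f dg z κ).S k ↔
      ∀ i, N.Hg (dg i) (x i) ∧ (z i → x i = 0) ∧ (κ i → f.nc k (x i) = 0) := Iff.rfl

theorem c1_cut_mono {r q : ℕ} (c : Op r 1) (γ : Op r q) :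
    Monotone (fun a => if c a = 1 then γ a else 0) := by
  intro a b hab
  dsimp only
  split_ifs with h1 h2 h2
  · exact γ.monotone hab
  · have h3 := c.monotone hab
    rw [h1] at h3
    exact absurd (le_antisymm (Fin.le_last _) h3) h2
  · exact Fin.zero_le _
  · exact le_rfl

/-- The simplex `γ` cut by `c`. -/
def c1Cut {r q : ℕ} (c : Op r 1) (γ : Op r q) : Op r q :=
  ⟨fun a => if c a = 1 then γ a else 0, c1_cut_mono c γ⟩

theorem c1_cut_based {r q q' : ℕ} (c : Op r 1) (γ : Op r q') (θ : Op q' q) (h : θ 0 = 0) :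
    θ.comp (c1Cut c γ) = c1Cut c (θ.comp γ) := by
  ext a
  change ((θ (if c a = 1 then γ a else 0) : Fin (q + 1)) : ℕ) =
    ((if c a = 1 then θ (γ a) else 0 : Fin (q + 1)) : ℕ)
  split_ifs
  · rfl
  · rw [h]

theorem c1_cut_mem (A : SRing) {k q : ℕ} (χ : Op k 1) (x : A.cotS k q) :
    (fun r (α : Op r k) (γ : Op r q) => x.1 r α (c1Cut (χ.comp α) γ)) ∈ A.cotS k q :=
  fun η α _ => x.2 η α _

/-- The contraction on the level of based maps. -/
def c1Hom (A : SRing) {k : ℕ} (χ : Op k 1) : BHom (A.cot k) (A.cot k) where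
  app q :=
    { toFun := fun x => ⟨_, c1_cut_mem A χ x⟩
      map_one' := rfl
      map_mul' := fun _ _ => rfl
      map_zero' := rfl
      map_add' := fun _ _ => rfl }
  nat θ h x := by
    refine Subtype.ext (funext fun r => funext fun α => funext fun γ => ?_)
    change x.1 r α (θ.comp (c1Cut (χ.comp α) γ)) = x.1 r α (c1Cut (χ.comp α) (θ.comp γ))
    rw [c1_cut_based _ _ _ h]

/-- The contraction on Moore chains. -/
def c1H (A : SRing) {k : ℕ} (χ : Op k 1) : N (A.cot k) →+ N (A.cot k) :=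
  AddMonoidHom.mk' (fun x => ⟨(c1Hom A χ).ch x.1, Ch.Mo.map _ x.2.1, x.2.2.map _⟩) (fun _ _ => rfl)

theorem c1H_hg (A : SRing) {k : ℕ} (χ : Op k 1) {d : ℤ} {x : N (A.cot k)} (h : N.Hg d x) :
    N.Hg d (c1H A χ x) := fun n hn => by
  change (c1Hom A χ).app n (x.1 n) = 0
  rw [h n hn, map_zero]

theorem c1H_rs (A : SRing) {l k : ℕ} (θ : Op l k) (χ : Op k 1) (x : N (A.cot k)) :
    A.rs θ (c1H A χ x) = c1H A (χ.comp θ) (A.rs θ x) := rfl

theorem c1H_nc (f : A.Hom B) {k : ℕ} (χ : Op k 1) (x : N (A.cot k)) :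
    f.nc k (c1H A χ x) = c1H B χ (f.nc k x) := rfl

theorem c1H_one (A : SRing) {k : ℕ} (x : N (A.cot k)) : c1H A (vert k 1) x = x := by
  refine N.ext' fun n => Subtype.ext (funext fun r => funext fun α => funext fun γ => ?_)
  change (x.1 n).1 r α (c1Cut ((vert k 1).comp α) γ) = (x.1 n).1 r α γ
  congr 1

theorem c1H_zero (A : SRing) {k : ℕ} (x : N (A.cot k)) (h : x.1 0 = 0) :
    c1H A (vert k 0) x = 0 := by
  refine N.ext' fun n => ?_
  cases n with
  | zero =>
    change (c1Hom A (vert k 0)).app 0 (x.1 0) = 0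
    rw [h, map_zero]
  | succ n =>
    refine Subtype.ext (funext fun r => funext fun α => funext fun γ => ?_)
    change (x.1 (n + 1)).1 r α (c1Cut ((vert k 0).comp α) γ) = 0
    have h1 := Ch.mo_iff.1 x.2.1 n 0
    have h2 : (x.1 (n + 1)).1 r α ((face (Fin.succ 0)).comp (vert r 0)) = 0 :=
      congrFun (congrFun (congrFun (congrArg Subtype.val h1) r) α) (vert r 0)
    rw [← h2]
    congr 1

/-- Chains of nonzero degree form an acyclic simplicial abelian group. -/
theorem piSub_ac (f : A.Hom B) {ι : Type} (dg : ι → ℤ) (z κ : ι → Prop)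
    (h : ∀ i, dg i = 0 → z i) : (piSub f dg z κ).Ac := by
  refine SAb.Sub.ac_of_homotopy _
    (fun n χ => AddMonoidHom.mk' (fun x i => c1H A χ (x i))
      (fun x y => funext fun i => map_add (c1H A χ) (x i) (y i))) ?_ ?_ ?_ ?_
  · intro n i χ x
    rfl
  · intro n χ x hx i
    refine ⟨c1H_hg A χ (hx i).1, fun hz => ?_, fun hk => ?_⟩
    · exact (congrArg (c1H A χ) ((hx i).2.1 hz)).trans (map_zero _)
    · exact (c1H_nc f χ (x i)).trans ((congrArg (c1H B χ) ((hx i).2.2 hk)).trans (map_zero _))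
  · intro n x hx
    funext i
    refine c1H_zero A (x i) ?_
    by_cases hd : dg i = 0
    · rw [(hx i).2.1 (h i hd)]
      rfl
    · exact (hx i).1 0 (fun e => hd e.symm)
  · intro n x _
    funext i
    exact c1H_one A (x i)

/-- Families of chains of nonzero degree over the boundary extend. -/
theorem chain_extend (f : A.Hom B) {ι : Type} (dg : ι → ℤ) (z κ : ι → Prop)
    (h : ∀ i, dg i = 0 → z i) {M : ℕ} (x : ∀ k, Bdy k M → ι → N (A.cot k))
    (hx : ∀ k θ i, N.Hg (dg i) (x k θ i) ∧ (z i → x k θ i = 0) ∧ (κ i → f.nc k (x k θ i) = 0))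
    (nat : ∀ {l k : ℕ} (θ : Bdy k M) (η : Op l k) (i : ι),
      A.rs η (x k θ i) = x l (θ.comp η) i) :
    ∃ y : ι → N (A.cot M), (∀ i, N.Hg (dg i) (y i) ∧ (z i → y i = 0) ∧ (κ i → f.nc M (y i) = 0)) ∧
      ∀ k (θ : Bdy k M) i, A.rs θ.1 (y i) = x k θ i := by
  obtain ⟨y, hy, hy'⟩ := (piSub_ac f dg z κ h).extend x hx
    (fun θ η => funext fun i => nat θ η i)
  exact ⟨y, hy, fun k θ i => congrFun (hy' k θ) i⟩

/-- The ideal of chains that vanish on the boundary of `Δ^M`. -/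
def bdI (A : SRing) (M : ℕ) : TwoSidedIdeal (N (A.cot M)) :=
  ⨅ k, ⨅ θ : Bdy k M, TwoSidedIdeal.ker (A.rs θ.1)

theorem mem_bdI (A : SRing) (M : ℕ) (x : N (A.cot M)) :
    x ∈ A.bdI M ↔ ∀ k (θ : Bdy k M), A.rs θ.1 x = 0 := by
  simp only [bdI, TwoSidedIdeal.mem_iInf, TwoSidedIdeal.mem_ker]

theorem di_bdI (A : SRing) (M : ℕ) : (dgC A M).DI (A.bdI M) := by
  constructor
  · intro x hx
    rw [mem_bdI] at hx ⊢
    intro k θ
    change A.rs θ.1 (N.bd x) = 0
    rw [N.map_bd, hx k θ, map_zero]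
  · intro x hx
    rw [mem_bdI] at hx ⊢
    intro k θ
    change A.rs θ.1 (N.sg x) = 0
    rw [N.map_sg, hx k θ, map_zero]

end SRing

end Pool.Agent.P.MP_932208_ag.Ax
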