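import Pool.Agent.P.MP_932208_ag.Ex.Five
import Pool.Agent.P.MP_932208_ag.Ex.CotL1

/-!
Finite cell modules with cells labelled by natural numbers; maps from cell modules.
-/

namespace Pool.Agent.P.MP_932208_ag.Ax

open CategoryTheory

variable {A B R : SRing}

/-- A finite cell module over `N A`: cells `s ∈ S` of degree `dg s`, boundary
`d s = ∑ r, δ s r • r`. -/
@[ext] structure Cel (A : SRing) where
  S : Finset ℕ
  dg : ℕ → ℤ
  δ : ℕ → ℕ → N A
  hg : ∀ s r, N.Hg (dg s - 1 - dg r) (δ s r)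
  supp : ∀ s r, s ∉ S ∨ r ∉ S → δ s r = 0
  mc : ∀ s r, N.bd (δ s r) + ∑ t ∈ S, N.sg (δ s t) * δ t r = 0

theorem Cel_hg_sum {ι : Type} {k : ℤ} {S : Finset ι} {f : ι → N A} (h : ∀ i ∈ S, N.Hg k (f i)) :
    N.Hg k (∑ i ∈ S, f i) := (N.deg A k).sum_mem h

theorem Cel_hg_congr {k l : ℤ} {x : N A} (h : N.Hg k x) (e : k = l) : N.Hg l x := e ▸ h

theorem Cel_bd_one : N.bd (1 : N A) = 0 := by simpa using N.bd_inc (A := A) 1

theorem Cel_hg_one : N.Hg 0 (1 : N A) := by simpa using N.hg_inc (A := A) 1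

theorem Cel_shift_cycle (M : DG A) (k : ℤ) (x : M.V) :
    M.shift.Cycle k (M.toShift x) ↔ M.Cycle (k + 1) x :=
  and_congr Iff.rfl (neg_eq_zero (a := M.d x))

theorem Cel_shift_bdry (M : DG A) (k : ℤ) (x : M.V) :
    M.shift.Bdry k (M.toShift x) ↔ M.Bdry (k + 1) x := by
  constructor
  · rintro ⟨y, hy, e⟩
    refine ⟨-M.toShift.symm y, neg_mem (s := M.gr (k + 1 + 1)) hy, ?_⟩
    rw [map_neg]
    exact e
  · rintro ⟨y, hy, e⟩
    refine ⟨M.toShift (-y), neg_mem (s := M.gr (k + 1 + 1)) hy, ?_⟩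
    rw [DG.toShift_d, map_neg M.d, neg_neg, e]

theorem Cel_qi_shift {φ : A ⟶ B} {M : DG A} {M' : DG B} {g : DG.Hom φ M M'} (h : g.QI) :
    g.shift.QI := by
  rw [DG.Hom.qi_iff'] at h ⊢
  refine fun k => ⟨fun y hy => ?_, fun x hx hb => ?_⟩
  · obtain ⟨x, hx, hb⟩ := (h (k + 1)).1 _ ((Cel_shift_cycle M' k (M'.toShift.symm y)).1 hy)
    exact ⟨M.toShift x, (Cel_shift_cycle M k x).2 hx, (Cel_shift_bdry M' k _).2 hb⟩
  · exact (Cel_shift_bdry M k (M.toShift.symm x)).2 ((h (k + 1)).2 _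
      ((Cel_shift_cycle M k (M.toShift.symm x)).1 hx) ((Cel_shift_bdry M' k _).1 hb))

namespace Cel
variable (C : Cel A)

theorem lt_of_ne {s r : ℕ} (h : C.δ s r ≠ 0) : s ∈ C.S ∧ r ∈ C.S ∧ C.dg r < C.dg s := by
  refine ⟨by_contra fun hs => h (C.supp s r (Or.inl hs)),
    by_contra fun hr => h (C.supp s r (Or.inr hr)), by_contra fun e => h ?_⟩
  exact N.eq_zero_of_neg (by omega) (C.hg s r)

/-- Coefficient vectors supported on the cells. -/
def V : Submodule (N A) (ℕ → N A) where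
  carrier := {x | ∀ s, s ∉ C.S → x s = 0}
  add_mem' {x y} hx hy s hs := by rw [Pi.add_apply, hx s hs, hy s hs, add_zero]
  zero_mem' _ _ := rfl
  smul_mem' a x hx s hs := by rw [Pi.smul_apply, hx s hs, smul_zero]

/-- The vectors of degree `k`. -/
def gr (k : ℤ) : AddSubgroup C.V where
  carrier := {x | ∀ s, N.Hg (k - C.dg s) (x.1 s)}
  add_mem' hx hy s := (hx s).add (hy s)
  zero_mem' _ := N.hg_zero _ _
  neg_mem' hx s := (hx s).neg

theorem Cel_sum_apply {ι : Type} (S : Finset ι) (f : ι → C.V) (r : ℕ) :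
    (∑ i ∈ S, f i).1 r = ∑ i ∈ S, (f i).1 r := by
  rw [Submodule.coe_sum, Finset.sum_apply]

theorem Cel_smul_apply (a : N A) (x : C.V) (r : ℕ) : (a • x).1 r = a * x.1 r := rfl

/-- The component of degree `k` of a vector. -/
noncomputable def Cel_pr (k : ℤ) : C.V →+ C.V :=
  AddMonoidHom.mk' (fun x => ⟨fun s => (DG.unit A).proj (k - C.dg s) (x.1 s), fun s hs =>
    (congrArg ((DG.unit A).proj (k - C.dg s)) (x.2 s hs)).trans (map_zero _)⟩)
    fun _ _ => Subtype.ext (funext fun s => map_add ((DG.unit A).proj (k - C.dg s)) _ _)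

theorem Cel_internal : Internal C.gr := by
  refine internal_of_proj _ C.Cel_pr (fun k x s => (DG.unit A).proj_mem _ _)
    (fun k x hx => Subtype.ext (funext fun s => (DG.unit A).proj_of_mem (hx s)))
    (fun k l x hx e => Subtype.ext (funext fun s => (DG.unit A).proj_of_ne (hx s) (by omega)))
    fun x => ?_
  choose T hT hT' using fun s => (DG.unit A).exists_sum_proj (x.1 s)
  refine ⟨C.S.biUnion fun s => (T s).image (· + C.dg s), Subtype.ext (funext fun s => ?_)⟩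
  rw [Cel_sum_apply]
  change ∑ k ∈ _, (DG.unit A).proj (k - C.dg s) (x.1 s) = x.1 s
  by_cases hs : s ∈ C.S
  · rw [← Finset.sum_subset (Finset.subset_biUnion_of_mem (fun s => (T s).image (· + C.dg s)) hs)
      (fun k _ hk => hT s _ fun h => hk (Finset.mem_image.2 ⟨_, h, sub_add_cancel _ _⟩)),
      Finset.sum_image fun a _ b _ h => add_right_cancel h]
    simp only [add_sub_cancel_right]
    exact hT' s
  · rw [x.2 s hs]
    exact Finset.sum_eq_zero fun k _ => map_zero _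

theorem d_mem_V (x : C.V) :
    (fun r => N.bd (x.1 r) + ∑ s ∈ C.S, N.sg (x.1 s) * C.δ s r) ∈ C.V := fun r hr => by
  change N.bd (x.1 r) + _ = 0
  rw [x.2 r hr, map_zero, zero_add]
  exact Finset.sum_eq_zero fun s _ => by rw [C.supp s r (Or.inr hr), mul_zero]

/-- The differential. -/
noncomputable def D : C.V →+ C.V :=
  AddMonoidHom.mk' (fun x => ⟨_, C.d_mem_V x⟩) fun x y => Subtype.ext (funext fun r => by
    change N.bd (x.1 r + y.1 r) + ∑ s ∈ C.S, N.sg (x.1 s + y.1 s) * C.δ s r =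
      N.bd (x.1 r) + ∑ s ∈ C.S, N.sg (x.1 s) * C.δ s r +
        (N.bd (y.1 r) + ∑ s ∈ C.S, N.sg (y.1 s) * C.δ s r)
    simp only [map_add, add_mul, Finset.sum_add_distrib]
    abel)

/-- The dg module of a cell complex. -/
@[reducible] noncomputable def dm : DG A where
  V := C.V
  gr := C.gr
  internal := C.Cel_internal
  d := C.D
  smul_mem := fun ha hx s => Cel_hg_congr (N.Hg.mul ha (hx s)) (by ring)
  d_mem := fun hx r => (Cel_hg_congr (N.hg_bd (hx r)) (by ring)).add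
    (Cel_hg_sum fun s _ => Cel_hg_congr ((hx s).sg.mul (C.hg s r)) (by ring))
  d_d := fun x => Subtype.ext (funext fun r => by
    change N.bd (N.bd (x.1 r) + ∑ s ∈ C.S, N.sg (x.1 s) * C.δ s r) +
      ∑ t ∈ C.S, N.sg (N.bd (x.1 t) + ∑ s ∈ C.S, N.sg (x.1 s) * C.δ s t) * C.δ t r = 0
    have h : ∑ s ∈ C.S, x.1 s * (N.bd (C.δ s r) + ∑ t ∈ C.S, N.sg (C.δ s t) * C.δ t r) = 0 :=
      Finset.sum_eq_zero fun s _ => by rw [C.mc, mul_zero]
    simp only [mul_add, Finset.mul_sum, Finset.sum_add_distrib] at h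
    rw [Finset.sum_comm] at h
    simp only [map_add, map_sum, map_mul, N.bd_bd, N.bd_mul, N.bd_sg, N.sg_sg, add_mul,
      Finset.sum_mul, Finset.sum_add_distrib, neg_mul, Finset.sum_neg_distrib, mul_assoc]
    refine Eq.trans ?_ h
    abel)
  d_smul := fun a x => Subtype.ext (funext fun r => by
    change N.bd (a * x.1 r) + ∑ s ∈ C.S, N.sg (a * x.1 s) * C.δ s r =
      N.bd a * x.1 r + N.sg a * (N.bd (x.1 r) + ∑ s ∈ C.S, N.sg (x.1 s) * C.δ s r)
    simp only [N.bd_mul, map_mul, mul_add, Finset.mul_sum, mul_assoc, add_assoc])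

theorem D_apply (x : C.V) (r : ℕ) :
    (C.D x).1 r = N.bd (x.1 r) + ∑ s ∈ C.S, N.sg (x.1 s) * C.δ s r := rfl

theorem mem_gr {k : ℤ} {x : C.V} : x ∈ C.gr k ↔ ∀ s, N.Hg (k - C.dg s) (x.1 s) := Iff.rfl

/-- The basis vector of a cell (zero if `s` is not a cell). -/
def e (s : ℕ) : C.V := ⟨fun r => if s ∈ C.S ∧ r = s then 1 else 0, fun r hr =>
  if_neg fun h : s ∈ C.S ∧ r = s => hr (h.2 ▸ h.1)⟩

theorem e_apply (s r : ℕ) : (C.e s).1 r = if s ∈ C.S ∧ r = s then 1 else 0 := rfl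

theorem e_gr (s : ℕ) : C.e s ∈ C.gr (C.dg s) := fun r => by
  rw [e_apply]
  split_ifs with h
  · exact Cel_hg_congr Cel_hg_one (by rw [h.2, sub_self])
  · exact N.hg_zero _ _

theorem sum_e (x : C.V) : ∑ s ∈ C.S, x.1 s • C.e s = x := Subtype.ext (funext fun r => by
  rw [Cel_sum_apply]
  simp only [Cel_smul_apply, e_apply, mul_ite, mul_one, mul_zero]
  by_cases hr : r ∈ C.S
  · rw [Finset.sum_eq_single_of_mem r hr fun s _ h => if_neg fun e => h e.2.symm,
      if_pos ⟨hr, rfl⟩]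
  · rw [x.2 r hr]
    exact Finset.sum_eq_zero fun s hs => if_neg fun e : s ∈ C.S ∧ r = s => hr (e.2 ▸ hs))

theorem Cel_D_e (s r : ℕ) : (C.D (C.e s)).1 r = C.δ s r := by
  rw [D_apply]
  have h : N.bd ((C.e s).1 r) = 0 := by
    rw [e_apply]
    split_ifs
    · exact Cel_bd_one
    · exact map_zero _
  rw [h, zero_add]
  by_cases hs : s ∈ C.S
  · rw [Finset.sum_eq_single_of_mem s hs fun t _ e => by
      rw [e_apply, if_neg fun p => e p.2, map_zero, zero_mul], e_apply, if_pos ⟨hs, rfl⟩, map_one,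
      one_mul]
  · rw [C.supp s r (Or.inl hs)]
    exact Finset.sum_eq_zero fun t _ => by
      rw [e_apply, if_neg fun p => hs p.1, map_zero, zero_mul]

theorem D_e (s : ℕ) : C.D (C.e s) = ∑ r ∈ C.S, C.δ s r • C.e r := by
  rw [← C.sum_e (C.D (C.e s))]
  exact Finset.sum_congr rfl fun r _ => by rw [C.Cel_D_e]

theorem D_e_apply (s r : ℕ) : (C.D (C.e s)).1 r = C.δ s r := C.Cel_D_e s r

/-- Base change. -/
@[reducible] noncomputable def map (φ : A ⟶ B) : Cel B where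
  S := C.S
  dg := C.dg
  δ s r := N.map φ (C.δ s r)
  hg s r := (C.hg s r).map φ
  supp s r h := by rw [C.supp s r h, map_zero]
  mc := fun s r => by
    simpa only [map_add, map_sum, map_mul, N.map_bd, N.map_sg, map_zero] using
      congrArg (N.map φ) (C.mc s r)

/-- The base change map. -/
noncomputable def bc (φ : A ⟶ B) : DG.Hom φ C.dm (C.map φ).dm where
  toFun := AddMonoidHom.mk' (fun x => ⟨fun s => N.map φ (x.1 s), fun s hs =>
    (congrArg (N.map φ) (x.2 s hs)).trans (map_zero _)⟩) fun x y => Subtype.ext (funext fun s => map_add (N.map φ) _ _)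
  map_smul := fun a x => Subtype.ext (funext fun s => map_mul (N.map φ) a (x.1 s))
  map_gr := fun hx s => (hx s).map φ
  map_d := fun x => Subtype.ext (funext fun r => by
    change N.map φ (N.bd (x.1 r) + ∑ s ∈ C.S, N.sg (x.1 s) * C.δ s r) =
      N.bd (N.map φ (x.1 r)) + ∑ s ∈ C.S, N.sg (N.map φ (x.1 s)) * N.map φ (C.δ s r)
    simp only [map_add, map_sum, map_mul, N.map_bd, N.map_sg])

theorem bc_apply (φ : A ⟶ B) (x : C.V) (s : ℕ) :
    ((C.bc φ).toFun x).1 s = N.map φ (x.1 s) := rfl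

theorem bc_e (φ : A ⟶ B) (s : ℕ) : (C.bc φ).toFun (C.e s) = (C.map φ).e s :=
  Subtype.ext (funext fun r => by
    rw [bc_apply, e_apply, e_apply, apply_ite (N.map φ), map_one, map_zero])

/-- Subcomplexes. -/
instance : Preorder (Cel A) where
  le C C' := C.S ⊆ C'.S ∧ ∀ s ∈ C.S, C.dg s = C'.dg s ∧ ∀ r, C.δ s r = C'.δ s r
  le_refl C := ⟨Finset.Subset.refl _, fun _ _ => ⟨rfl, fun _ => rfl⟩⟩
  le_trans _ _ _ h h' := ⟨h.1.trans h'.1, fun s hs =>
    ⟨(h.2 s hs).1.trans (h'.2 s (h.1 hs)).1,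
      fun r => ((h.2 s hs).2 r).trans ((h'.2 s (h.1 hs)).2 r)⟩⟩

theorem le_iff {C C' : Cel A} :
    C ≤ C' ↔ C.S ⊆ C'.S ∧ ∀ s ∈ C.S, C.dg s = C'.dg s ∧ ∀ r, C.δ s r = C'.δ s r := Iff.rfl

theorem map_mono {C C' : Cel A} (h : C ≤ C') (φ : A ⟶ B) : C.map φ ≤ C'.map φ :=
  ⟨h.1, fun s hs => ⟨(h.2 s hs).1, fun r => congrArg (N.map φ) ((h.2 s hs).2 r)⟩⟩

/-- The inclusion of a subcomplex. -/
def incl {C C' : Cel A} (h : C ≤ C') : DG.Hom (𝟙 A) C.dm C'.dm where
  toFun := AddMonoidHom.mk' (fun x => ⟨x.1, fun s hs => x.2 s fun p => hs (h.1 p)⟩) fun _ _ => rfl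
  map_smul _ _ := rfl
  map_gr := fun {k x} hx s => by
    change N.Hg (k - C'.dg s) (x.1 s)
    by_cases hs : s ∈ C.S
    · rw [← (h.2 s hs).1]
      exact hx s
    · rw [x.2 s hs]
      exact N.hg_zero _ _
  map_d := fun x => Subtype.ext (funext fun r => by
    change N.bd (x.1 r) + ∑ s ∈ C.S, N.sg (x.1 s) * C.δ s r =
      N.bd (x.1 r) + ∑ s ∈ C'.S, N.sg (x.1 s) * C'.δ s r
    rw [← Finset.sum_subset h.1 fun s _ hs => by rw [x.2 s hs, map_zero, zero_mul]]
    exact congrArg _ (Finset.sum_congr rfl fun s hs => by rw [(h.2 s hs).2]))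

theorem incl_apply {C C' : Cel A} (h : C ≤ C') (x : C.V) : ((incl h).toFun x).1 = x.1 := rfl

theorem incl_e {C C' : Cel A} (h : C ≤ C') {s : ℕ} (hs : s ∈ C.S) :
    (incl h).toFun (C.e s) = C'.e s := Subtype.ext (funext fun r => by
  rw [incl_apply, e_apply, e_apply]
  simp only [hs, h.1 hs])

/-- The cells in `P` span a subcomplex. -/
def Closed (P : ℕ → Prop) : Prop := ∀ s r, P s → ¬ P r → C.δ s r = 0

theorem closed_of_le {C C' : Cel A} (h : C ≤ C') : C'.Closed (· ∈ C.S) := fun s r hs hr =>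
  ((h.2 s hs).2 r).symm.trans (C.supp s r (Or.inr hr))

/-- The quotient by the subcomplex spanned by `P`. -/
@[reducible] noncomputable def diff (P : Finset ℕ) (h : C.Closed (· ∈ P)) : Cel A where
  S := C.S \ P
  dg := C.dg
  δ s r := if s ∉ P ∧ r ∉ P then C.δ s r else 0
  hg := fun s r => by
    split_ifs
    · exact C.hg s r
    · exact N.hg_zero _ _
  supp := fun s r e => by
    split_ifs with p
    · refine C.supp s r (e.imp (fun e hs => e ?_) fun e hs => e ?_)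
      · exact Finset.mem_sdiff.2 ⟨hs, p.1⟩
      · exact Finset.mem_sdiff.2 ⟨hs, p.2⟩
    · rfl
  mc := fun s r => by
    by_cases hs : s ∈ P
    · simp [hs]
    by_cases hr : r ∈ P
    · simp [hr]
    rw [if_pos ⟨hs, hr⟩, ← C.mc s r, ← Finset.sum_subset (Finset.sdiff_subset (s := C.S) (t := P))
      fun t ht ht' => by
        rw [h t r (by_contra fun e => ht' (Finset.mem_sdiff.2 ⟨ht, e⟩)) hr, mul_zero]]
    refine congrArg _ (Finset.sum_congr rfl fun t ht => ?_)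
    rw [if_pos ⟨hs, (Finset.mem_sdiff.1 ht).2⟩, if_pos ⟨(Finset.mem_sdiff.1 ht).2, hr⟩]

/-- The projection to the quotient. -/
noncomputable def proj (P : Finset ℕ) (h : C.Closed (· ∈ P)) :
    DG.Hom (𝟙 A) C.dm (C.diff P h).dm where
  toFun := AddMonoidHom.mk' (fun x => ⟨fun s => if s ∈ P then 0 else x.1 s, fun s hs => by
    dsimp only
    split_ifs with p
    · rfl
    · exact x.2 s fun e => hs (Finset.mem_sdiff.2 ⟨e, p⟩)⟩)
    fun x y => Subtype.ext (funext fun s => by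
      change (if s ∈ P then 0 else x.1 s + y.1 s) =
        (if s ∈ P then 0 else x.1 s) + if s ∈ P then 0 else y.1 s
      split_ifs
      · rw [add_zero]
      · rfl)
  map_smul := fun a x => Subtype.ext (funext fun s => by
    change (if s ∈ P then 0 else a * x.1 s) = a * if s ∈ P then 0 else x.1 s
    split_ifs
    · rw [mul_zero]
    · rfl)
  map_gr := fun {k x} hx s => by
    change N.Hg (k - C.dg s) (if s ∈ P then 0 else x.1 s)
    split_ifs
    · exact N.hg_zero _ _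
    · exact hx s
  map_d := fun x => Subtype.ext (funext fun r => by
    change (if r ∈ P then 0 else N.bd (x.1 r) + ∑ s ∈ C.S, N.sg (x.1 s) * C.δ s r) =
      N.bd (if r ∈ P then 0 else x.1 r) + ∑ s ∈ C.S \ P, N.sg (if s ∈ P then 0 else x.1 s) *
        if s ∉ P ∧ r ∉ P then C.δ s r else 0
    by_cases hr : r ∈ P
    · simp [hr]
    rw [if_neg hr, if_neg hr, ← Finset.sum_subset (Finset.sdiff_subset (s := C.S) (t := P))
      fun t ht ht' => by
        rw [h t r (by_contra fun e => ht' (Finset.mem_sdiff.2 ⟨ht, e⟩)) hr, mul_zero]]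
    refine congrArg _ (Finset.sum_congr rfl fun t ht => ?_)
    rw [if_neg (Finset.mem_sdiff.1 ht).2, if_pos ⟨(Finset.mem_sdiff.1 ht).2, hr⟩])

theorem proj_apply (P : Finset ℕ) (h : C.Closed (· ∈ P)) (x : C.V) (s : ℕ) :
    ((C.proj P h).toFun x).1 s = if s ∈ P then 0 else x.1 s := rfl

theorem ses {C C' : Cel A} (h : C ≤ C') :
    DG.ShortExact (incl h) (C'.proj C.S (closed_of_le h)) := by
  refine ⟨fun x y e => Subtype.ext (congrArg (fun z : C'.V => z.1) e), fun y => ⟨fun e => ?_, ?_⟩,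
    fun z => ⟨⟨z.1, fun s hs => z.2 s fun p => hs (Finset.mem_sdiff.1 p).1⟩,
      Subtype.ext (funext fun s => ?_)⟩⟩
  · refine ⟨⟨y.1, fun s hs => ?_⟩, rfl⟩
    exact (if_neg hs).symm.trans (congrArg (fun z : (C'.diff C.S (closed_of_le h)).V => z.1 s) e)
  · rintro ⟨x, rfl⟩
    refine Subtype.ext (funext fun s => ?_)
    change (if s ∈ C.S then 0 else x.1 s) = 0
    split_ifs with p
    · rfl
    · exact x.2 s p
  · change (if s ∈ C.S then 0 else z.1 s) = z.1 s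
    split_ifs with p
    · exact (z.2 s fun e => (Finset.mem_sdiff.1 e).2 p).symm
    · rfl

theorem diff_map (P : Finset ℕ) (h : C.Closed (· ∈ P)) (φ : A ⟶ B)
    (h' : (C.map φ).Closed (· ∈ P)) : (C.map φ).diff P h' = (C.diff P h).map φ :=
  Cel.ext rfl rfl (funext fun s => funext fun r => by
    change (if s ∉ P ∧ r ∉ P then N.map φ (C.δ s r) else 0) =
      N.map φ (if s ∉ P ∧ r ∉ P then C.δ s r else 0)
    rw [apply_ite (N.map φ), map_zero])

theorem diff_mono {C C' : Cel A} {P P' : Finset ℕ} (h : C.Closed (· ∈ P)) (h' : C'.Closed (· ∈ P'))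
    (e : C ≤ C') (e' : ∀ s ∈ C.S, s ∈ P ↔ s ∈ P') : C.diff P h ≤ C'.diff P' h' := by
  refine ⟨fun s hs => ?_, fun s hs => ?_⟩
  · obtain ⟨h1, h2⟩ := Finset.mem_sdiff.1 hs
    exact Finset.mem_sdiff.2 ⟨e.1 h1, fun p => h2 ((e' s h1).2 p)⟩
  · obtain ⟨h1, h2⟩ := Finset.mem_sdiff.1 hs
    refine ⟨(e.2 s h1).1, fun r => ?_⟩
    change (if s ∉ P ∧ r ∉ P then C.δ s r else 0) = if s ∉ P' ∧ r ∉ P' then C'.δ s r else 0
    rw [← (e.2 s h1).2 r]
    by_cases hr : r ∈ C.S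
    · simp only [e' s h1, e' r hr]
    · simp only [C.supp s r (Or.inr hr), ite_self]

/-- The empty complex. -/
@[reducible] def empty (A : SRing) : Cel A where
  S := ∅
  dg _ := 0
  δ _ _ := 0
  hg _ _ := N.hg_zero _ _
  supp _ _ _ := rfl
  mc _ _ := by simp

theorem acyc_of_empty (h : C.S = ∅) : C.dm.Acyc := fun _ x _ =>
  ⟨0, zero_mem _, (map_zero _).trans (Subtype.ext (funext fun s =>
    (x.2 s (h ▸ Finset.notMem_empty s)).symm))⟩

end Cel

/-- A map from a finite cell module to `M`, given on the cells. -/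
@[ext] structure PD (M : DG A) where
  C : Cel A
  p : ℕ → M.V
  gr : ∀ s ∈ C.S, p s ∈ M.gr (C.dg s)
  d_p : ∀ s ∈ C.S, M.d (p s) = ∑ r ∈ C.S, C.δ s r • p r

namespace PD
variable {M M₁ M₂ M₃ : DG A} {M' : DG B} {M'' : DG R}

/-- The map of dg modules. -/
noncomputable def hom (P : PD M) : DG.Hom (𝟙 A) P.C.dm M where
  toFun := AddMonoidHom.mk' (fun x => ∑ s ∈ P.C.S, x.1 s • P.p s) fun x y => by
    rw [← Finset.sum_add_distrib]
    exact Finset.sum_congr rfl fun s _ => add_smul _ _ _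
  map_smul := fun a x => by
    change ∑ s ∈ P.C.S, (a * x.1 s) • P.p s = a • ∑ s ∈ P.C.S, x.1 s • P.p s
    simp only [Finset.smul_sum, mul_smul]
  map_gr := fun {k x} hx => (M.gr k).sum_mem fun s hs => by
    simpa only [sub_add_cancel] using M.smul_mem (hx s) (P.gr s hs)
  map_d := fun x => by
    change ∑ r ∈ P.C.S, (N.bd (x.1 r) + ∑ s ∈ P.C.S, N.sg (x.1 s) * P.C.δ s r) • P.p r =
      M.d (∑ s ∈ P.C.S, x.1 s • P.p s)
    simp only [add_smul, Finset.sum_smul, Finset.sum_add_distrib, map_sum, M.d_smul, mul_smul]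
    rw [Finset.sum_comm]
    exact congrArg _ (Finset.sum_congr rfl fun s hs => by rw [P.d_p s hs, Finset.smul_sum])

theorem hom_apply (P : PD M) (x : P.C.V) : P.hom.toFun x = ∑ s ∈ P.C.S, x.1 s • P.p s := rfl

theorem hom_e (P : PD M) {s : ℕ} (hs : s ∈ P.C.S) : P.hom.toFun (P.C.e s) = P.p s := by
  rw [hom_apply, Finset.sum_eq_single_of_mem s hs fun r _ h => by
    rw [Cel.e_apply, if_neg fun e => h e.2, zero_smul], Cel.e_apply, if_pos ⟨hs, rfl⟩, one_smul]

/-- `P` is a presentation. -/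
def QI (P : PD M) : Prop := P.hom.QI

/-- Base change along a semilinear map. -/
@[reducible] noncomputable def map (P : PD M) {φ : A ⟶ B} (g : DG.Hom φ M M') : PD M' where
  C := P.C.map φ
  p s := g.toFun (P.p s)
  gr s hs := g.map_gr (P.gr s hs)
  d_p := fun s hs => by
    rw [← g.map_d, P.d_p s hs, map_sum]
    exact Finset.sum_congr rfl fun r _ => g.map_smul _ _

theorem map_hom (P : PD M) {φ : A ⟶ B} (g : DG.Hom φ M M') :
    (P.C.bc φ).Sq (P.map g).hom P.hom g := fun x => by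
  rw [hom_apply, hom_apply, map_sum]
  exact Finset.sum_congr rfl fun r _ => (g.map_smul _ _).symm

theorem map_map (P : PD M) {φ : A ⟶ B} {χ : B ⟶ R} {ρ : A ⟶ R} (g : DG.Hom φ M M')
    (g' : DG.Hom χ M' M'') (h : DG.Hom ρ M M'') (e : φ ≫ χ = ρ) (e' : h.Tri g g') :
    (P.map g).map g' = P.map h :=
  PD.ext (Cel.ext rfl rfl (funext fun s => funext fun r =>
    (N.map_map φ χ _).trans (congrArg (fun ψ => N.map ψ (P.C.δ s r)) e)))
    (funext fun _ => (e' _).symm)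

theorem map_id (P : PD M) {φ : A ⟶ A} (g : DG.Hom φ M M) (e : φ = 𝟙 A) (e' : g.IsId) :
    P.map g = P := by
  subst e
  exact PD.ext (Cel.ext rfl rfl rfl) (funext fun s => e' _)

/-- Composition with a linear map: the cells do not change. -/
theorem qi_map_iff (P : PD M₁) {g : DG.Hom (𝟙 A) M₁ M₂} (hg : g.QI) : (P.map g).QI ↔ P.QI := by
  have hb : (P.C.bc (𝟙 A)).QI := DG.Hom.qiso_of_bijective _ Function.bijective_id
  have e₁ : (P.hom.comp g (Category.id_comp _)).Tri P.hom g := fun _ => rfl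
  have e₂ : (P.hom.comp g (Category.id_comp _)).Tri (P.C.bc (𝟙 A)) (P.map g).hom :=
    fun x => (P.map_hom g x).symm
  exact ⟨fun h => DG.Hom.QI.tri_left e₁ (DG.Hom.QI.tri e₂ hb h) hg,
    fun h => DG.Hom.QI.tri_right e₂ (DG.Hom.QI.tri e₁ h hg) hb⟩

/-- Subcomplexes over `M`. -/
instance : Preorder (PD M) where
  le P P' := P.C ≤ P'.C ∧ ∀ s ∈ P.C.S, P.p s = P'.p s
  le_refl _ := ⟨le_rfl, fun _ _ => rfl⟩
  le_trans _ _ _ h h' := ⟨h.1.trans h'.1, fun s hs => (h.2 s hs).trans (h'.2 s (h.1.1 hs))⟩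

theorem le_iff {P P' : PD M} : P ≤ P' ↔ P.C ≤ P'.C ∧ ∀ s ∈ P.C.S, P.p s = P'.p s := Iff.rfl

theorem map_mono {P P' : PD M} (h : P ≤ P') {φ : A ⟶ B} (g : DG.Hom φ M M') :
    P.map g ≤ P'.map g :=
  ⟨Cel.map_mono h.1 φ, fun s hs => congrArg g.toFun (h.2 s hs)⟩

theorem hom_incl {P P' : PD M} (h : P ≤ P') : P.hom.Tri (Cel.incl h.1) P'.hom := fun x => by
  change ∑ s ∈ P.C.S, x.1 s • P.p s = ∑ s ∈ P'.C.S, x.1 s • P'.p s
  rw [← Finset.sum_subset h.1.1 fun s _ hs => by rw [x.2 s hs, zero_smul]]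
  exact Finset.sum_congr rfl fun s hs => by rw [h.2 s hs]

/-- The identity of a cell module. -/
@[reducible] noncomputable def taut (C : Cel A) : PD C.dm where
  C := C
  p := C.e
  gr s _ := C.e_gr s
  d_p s _ := C.D_e s

theorem taut_hom (C : Cel A) : (taut C).hom.IsId := C.sum_e

/-- The empty complex. -/
@[reducible] def empty (M : DG A) : PD M :=
  ⟨Cel.empty A, fun _ => 0, fun _ h => absurd h (Finset.notMem_empty _),
    fun _ h => absurd h (Finset.notMem_empty _)⟩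

theorem qi_empty (h : M.Acyc) : (empty M).QI :=
  DG.Hom.qi_of_acyc _ (Cel.acyc_of_empty _ rfl) h

/-- One cell `0` of degree zero that is sent to the cycle `x`. -/
@[reducible] def one {x : M.V} (hx : M.Cycle 0 x) : PD M where
  C := ⟨{0}, fun _ => 0, fun _ _ => 0, fun _ _ => N.hg_zero _ _, fun _ _ _ => rfl,
    fun _ _ => by simp⟩
  p _ := x
  gr _ _ := hx.1
  d_p _ _ := by simpa using hx.2

theorem qi_one_iff {x : M.V} (hx : M.Cycle 0 x) : (one hx).QI ↔ (M.toSpan x hx).QI := by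
  have hc : (one hx).C.dm.Cycle 0 ((one hx).C.e 0) :=
    ⟨(one hx).C.e_gr 0, Subtype.ext (funext fun r => (one hx).C.D_e_apply 0 r)⟩
  have h0 : 0 ∈ (one hx).C.S := Finset.mem_singleton_self 0
  have hb : ((one hx).C.dm.toSpan _ hc).QI := by
    refine DG.Hom.qiso_of_bijective _ ⟨fun a b e => ?_, fun y => ⟨y.1 0, ?_⟩⟩
    · have h1 : a * ((one hx).C.e 0).1 0 = b * ((one hx).C.e 0).1 0 :=
        congrArg (fun z : (one hx).C.V => z.1 0) e
      rwa [Cel.e_apply, if_pos ⟨h0, rfl⟩, mul_one, mul_one] at h1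
    · exact (Finset.sum_singleton (fun s => y.1 s • (one hx).C.e s) 0).symm.trans
        ((one hx).C.sum_e y)
  have e : (M.toSpan x hx).Tri ((one hx).C.dm.toSpan _ hc) (one hx).hom := fun a => by
    rw [DG.toSpan_apply, DG.toSpan_apply, (one hx).hom.map_smul, (one hx).hom_e h0]
    rfl
  exact ⟨fun h => DG.Hom.QI.tri e hb h, fun h => DG.Hom.QI.tri_right e h hb⟩

/-- The shift by `-1`. -/
@[reducible] noncomputable def shift (P : PD M) : PD M.shift where
  C := ⟨P.C.S, fun s => P.C.dg s - 1, fun s r => -N.sg (P.C.δ s r),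
    fun s r => Cel_hg_congr (P.C.hg s r).sg.neg (by ring),
    fun s r h => by rw [P.C.supp s r h, map_zero, neg_zero],
    fun s r => by
      simpa only [map_add, map_sum, map_mul, map_neg, map_zero, N.bd_sg, N.sg_sg, neg_neg,
        neg_mul_neg] using congrArg N.sg (P.C.mc s r)⟩
  p s := M.toShift (P.p s)
  gr := fun s hs => by
    rw [DG.toShift_gr, sub_add_cancel]
    exact P.gr s hs
  d_p := fun s hs => by
    rw [DG.toShift_d, P.d_p s hs, ← Finset.sum_neg_distrib, map_sum]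
    refine Finset.sum_congr rfl fun r _ => ?_
    rw [DG.toShift_smul, map_neg N.sg, N.sg_sg, neg_smul]

/-- The cell module of the shift is the shift of the cell module. -/
noncomputable def Cel_sh (P : PD M) : DG.Hom (𝟙 A) P.shift.C.dm P.C.dm.shift where
  toFun := AddMonoidHom.mk' (fun y => P.C.dm.toShift ⟨fun s => N.sg (y.1 s), fun s hs =>
    (congrArg N.sg (y.2 s hs)).trans (map_zero _)⟩) fun x y =>
      congrArg P.C.dm.toShift (Subtype.ext (funext fun s => map_add N.sg (x.1 s) (y.1 s)))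
  map_smul a x :=
    congrArg P.C.dm.toShift (Subtype.ext (funext fun s => map_mul N.sg a (x.1 s)))
  map_gr hx s := Cel_hg_congr (hx s).sg (by ring)
  map_d x := congrArg P.C.dm.toShift (Subtype.ext (funext fun r => by
    change N.sg (N.bd (x.1 r) + ∑ s ∈ P.C.S, N.sg (x.1 s) * -N.sg (P.C.δ s r)) =
      -(N.bd (N.sg (x.1 r)) + ∑ s ∈ P.C.S, N.sg (N.sg (x.1 s)) * P.C.δ s r)
    simp only [map_add, map_sum, map_mul, map_neg, N.sg_sg, N.bd_sg, mul_neg,
      Finset.sum_neg_distrib, neg_add, neg_neg]))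

theorem qi_shift {P : PD M} (h : P.QI) : P.shift.QI := by
  refine DG.Hom.QI.tri (f := P.Cel_sh) (g := P.hom.shift) (fun y => ?_)
    (DG.Hom.qiso_of_bijective _ ⟨fun a b e => Subtype.ext (funext fun s => ?_), fun z => ?_⟩)
    (Cel_qi_shift h)
  · rfl
  · have h1 : N.sg (a.1 s) = N.sg (b.1 s) := congrArg (fun z : P.C.V => z.1 s) e
    rw [← N.sg_sg (a.1 s), h1, N.sg_sg]
  · obtain ⟨z, rfl⟩ := P.C.dm.toShift.surjective z
    exact ⟨⟨fun s => N.sg (z.1 s), fun s hs => (congrArg N.sg (z.2 s hs)).trans (map_zero _)⟩,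
      congrArg P.C.dm.toShift (Subtype.ext (funext fun s => N.sg_sg _))⟩

theorem shift_map (P : PD M) {φ : A ⟶ B} (g : DG.Hom φ M M') :
    P.shift.map g.shift = (P.map g).shift :=
  PD.ext (Cel.ext rfl rfl (funext fun s => funext fun r => by
    change N.map φ (-N.sg (P.C.δ s r)) = -N.sg (N.map φ (P.C.δ s r))
    rw [map_neg, N.map_sg])) rfl

end PD

/-- Presentations of `M` by finite cell modules. -/
abbrev Pre (M : DG A) : Type := {P : PD M // P.QI}

/-- A map of cell modules `C₁ ⊆ C₂` over `i : M₁ → M₂`. -/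
@[ext] structure MPD {M₁ M₂ : DG A} (i : DG.Hom (𝟙 A) M₁ M₂) where
  P₁ : PD M₁
  P₂ : PD M₂
  le : P₁.C ≤ P₂.C
  comm : ∀ s ∈ P₁.C.S, i.toFun (P₁.p s) = P₂.p s

namespace MPD
variable {M₁ M₂ M₃ : DG A} {i : DG.Hom (𝟙 A) M₁ M₂} {π : DG.Hom (𝟙 A) M₂ M₃}

instance : Preorder (MPD i) where
  le q q' := q.P₁ ≤ q'.P₁ ∧ q.P₂ ≤ q'.P₂ ∧ ∀ s ∈ q.P₂.C.S, s ∈ q'.P₁.C.S → s ∈ q.P₁.C.S
  le_refl _ := ⟨le_rfl, le_rfl, fun _ _ h => h⟩
  le_trans _ _ _ h h' := ⟨h.1.trans h'.1, h.2.1.trans h'.2.1,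
    fun s hs p => h.2.2 s hs (h'.2.2 s (h.2.1.1.1 hs) p)⟩

theorem le_iff {q q' : MPD i} : q ≤ q' ↔
    q.P₁ ≤ q'.P₁ ∧ q.P₂ ≤ q'.P₂ ∧ ∀ s ∈ q.P₂.C.S, s ∈ q'.P₁.C.S → s ∈ q.P₁.C.S := Iff.rfl

theorem hom_sq (q : MPD i) : (Cel.incl q.le).Sq q.P₂.hom q.P₁.hom i := fun x => by
  change ∑ s ∈ q.P₂.C.S, x.1 s • q.P₂.p s = i.toFun (∑ s ∈ q.P₁.C.S, x.1 s • q.P₁.p s)
  rw [← Finset.sum_subset q.le.1 fun s _ hs => by rw [x.2 s hs, zero_smul], map_sum]
  exact Finset.sum_congr rfl fun s hs => by rw [i.map_smul, q.comm s hs, N.map_id]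

theorem Cel_sum (q : MPD i) (h : DG.ShortExact i π) (a : ℕ → N A) :
    π.toFun (∑ r ∈ q.P₂.C.S, a r • q.P₂.p r) =
      ∑ r ∈ q.P₂.C.S \ q.P₁.C.S, a r • π.toFun (q.P₂.p r) := by
  rw [map_sum, Finset.sum_subset (Finset.sdiff_subset (s := q.P₂.C.S) (t := q.P₁.C.S))
    fun t ht ht' => by
      rw [← q.comm t (by_contra fun e => ht' (Finset.mem_sdiff.2 ⟨ht, e⟩)),
        h.2.1.apply_apply_eq_zero, smul_zero]]
  exact Finset.sum_congr rfl fun r _ => π.map_smul _ _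

/-- The quotient. -/
@[reducible] noncomputable def quo (q : MPD i) (h : DG.ShortExact i π) : PD M₃ where
  C := q.P₂.C.diff q.P₁.C.S (Cel.closed_of_le q.le)
  p s := π.toFun (q.P₂.p s)
  gr := fun s hs => π.map_gr (q.P₂.gr s (Finset.mem_sdiff.1 hs).1)
  d_p := fun s hs => by
    obtain ⟨h1, h2⟩ := Finset.mem_sdiff.1 hs
    rw [← π.map_d, q.P₂.d_p s h1, q.Cel_sum h]
    refine Finset.sum_congr rfl fun r hr => ?_
    change _ = (if s ∉ q.P₁.C.S ∧ r ∉ q.P₁.C.S then q.P₂.C.δ s r else 0) • _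
    rw [if_pos ⟨h2, (Finset.mem_sdiff.1 hr).2⟩]

theorem quo_sq (q : MPD i) (h : DG.ShortExact i π) :
    (q.P₂.C.proj q.P₁.C.S (Cel.closed_of_le q.le)).Sq (q.quo h).hom q.P₂.hom π := fun x => by
  rw [PD.hom_apply, PD.hom_apply, q.Cel_sum h]
  refine Finset.sum_congr rfl fun r hr => ?_
  rw [Cel.proj_apply, if_neg (Finset.mem_sdiff.1 hr).2]

theorem qi_quo (q : MPD i) (h : DG.ShortExact i π) (h₁ : q.P₁.QI) (h₂ : q.P₂.QI) :
    (q.quo h).QI :=
  (Cel.ses q.le).qi_right h q.hom_sq (q.quo_sq h) h₁ h₂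

theorem quo_mono {q q' : MPD i} (e : q ≤ q') (h : DG.ShortExact i π) : q.quo h ≤ q'.quo h :=
  ⟨Cel.diff_mono (Cel.closed_of_le q.le) (Cel.closed_of_le q'.le) e.2.1.1 fun s hs => ⟨fun p => e.1.1.1 p, e.2.2 s hs⟩,
    fun s hs => congrArg π.toFun (e.2.1.2 s (Finset.mem_sdiff.1 hs).1)⟩

variable {φ : A ⟶ B} {P₁ P₂ P₃ : DG B} {i' : DG.Hom (𝟙 B) P₁ P₂} {π' : DG.Hom (𝟙 B) P₂ P₃}

/-- Base change. -/
@[reducible] noncomputable def map (q : MPD i) (a : DG.Hom φ M₁ P₁) (b : DG.Hom φ M₂ P₂)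
    (s : i.Sq b a i') : MPD i' where
  P₁ := q.P₁.map a
  P₂ := q.P₂.map b
  le := Cel.map_mono q.le φ
  comm t ht := (s _).symm.trans (congrArg b.toFun (q.comm t ht))

theorem map_mono {q q' : MPD i} (e : q ≤ q') (a : DG.Hom φ M₁ P₁) (b : DG.Hom φ M₂ P₂)
    (s : i.Sq b a i') : q.map a b s ≤ q'.map a b s :=
  ⟨PD.map_mono e.1 a, PD.map_mono e.2.1 b, e.2.2⟩

theorem quo_map (q : MPD i) (a : DG.Hom φ M₁ P₁) (b : DG.Hom φ M₂ P₂) (s : i.Sq b a i')
    (c : DG.Hom φ M₃ P₃) (s' : π.Sq c b π') (h : DG.ShortExact i π) (h' : DG.ShortExact i' π') :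
    (q.map a b s).quo h' = (q.quo h).map c :=
  PD.ext (q.P₂.C.diff_map q.P₁.C.S (Cel.closed_of_le q.le) φ (Cel.closed_of_le (q.map a b s).le))
    (funext fun _ => (s' _).symm)

end MPD

/-- Presentations of a map. -/
abbrev SPre {M₁ M₂ : DG A} (i : DG.Hom (𝟙 A) M₁ M₂) : Type := {q : MPD i // q.P₁.QI ∧ q.P₂.QI}

end Pool.Agent.P.MP_932208_ag.Ax
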