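import Pool.Agent.P.MP_932208_ag.Ex.SAb

/-!
The cotensor `A^{Δ^m}` of a simplicial commutative ring with a standard simplex.
-/

namespace Pool.Agent.P.MP_932208_ag.Ax

namespace SRing
variable (A : SRing)

/-- Naturality of a family indexed by the simplices `(α, γ)` of `Δ^m × Δ^k`. -/
def IsNat {m k : ℕ} (x : ∀ r, Op r m → Op r k → A.obj r) : Prop :=
  ∀ {r r' : ℕ} (θ : Op r' r) (α : Op r m) (γ : Op r k),
    A.map θ (x r α γ) = x r' (α.comp θ) (γ.comp θ)

variable {A} in
theorem IsNat.mul {m k : ℕ} {x y : ∀ r, Op r m → Op r k → A.obj r} (hx : A.IsNat x)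
    (hy : A.IsNat y) : A.IsNat (x * y) := fun θ α γ => by
  simp only [Pi.mul_apply, map_mul, hx θ, hy θ]
variable {A} in
theorem IsNat.add {m k : ℕ} {x y : ∀ r, Op r m → Op r k → A.obj r} (hx : A.IsNat x)
    (hy : A.IsNat y) : A.IsNat (x + y) := fun θ α γ => by
  simp only [Pi.add_apply, map_add, hx θ, hy θ]
variable {A} in
theorem IsNat.neg {m k : ℕ} {x : ∀ r, Op r m → Op r k → A.obj r} (hx : A.IsNat x) :
    A.IsNat (-x) := fun θ α γ => by
  simp only [Pi.neg_apply, map_neg, hx θ]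
theorem isNat_one (m k : ℕ) : A.IsNat (1 : ∀ r, Op r m → Op r k → A.obj r) :=
  fun θ _ _ => map_one (A.map θ)
theorem isNat_zero (m k : ℕ) : A.IsNat (0 : ∀ r, Op r m → Op r k → A.obj r) :=
  fun θ _ _ => map_zero (A.map θ)

/-- Simplicial maps `Δ^m × Δ^k → A`, a ring under pointwise operations. -/
def cotS (m k : ℕ) : Subring (∀ r, Op r m → Op r k → A.obj r) where
  carrier := {x | A.IsNat x}
  mul_mem' := IsNat.mul
  one_mem' := A.isNat_one m k
  add_mem' := IsNat.add
  zero_mem' := A.isNat_zero m k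
  neg_mem' := IsNat.neg

variable {A} in
theorem cot_mem {B : SRing} (f : A.Hom B) {m m' k k' : ℕ} (φ : Op m' m) (θ : Op k' k)
    (x : A.cotS m k) :
    (fun r (α : Op r m') (γ : Op r k') => f.app r (x.1 r (φ.comp α) (θ.comp γ))) ∈ B.cotS m' k' :=
  fun η α γ => by rw [← f.nat, x.2 η]; rfl

variable {A} in
/-- Restriction of maps `Δ^m × Δ^k → A` along `φ × θ`, followed by `f : A → B`. -/
def cotMap {B : SRing} (f : A.Hom B) {m m' k k' : ℕ} (φ : Op m' m) (θ : Op k' k) :
    A.cotS m k →+* B.cotS m' k' :=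
  RingHom.codRestrict
    (RingHom.pi fun r => RingHom.pi fun α => RingHom.pi fun γ =>
      (f.app r).comp ((Pi.evalRingHom _ (θ.comp γ)).comp ((Pi.evalRingHom _ (φ.comp α)).comp
        ((Pi.evalRingHom _ r).comp (A.cotS m k).subtype))))
    (B.cotS m' k') (cot_mem f φ θ)

/-- The cotensor `A^{Δ^m}`: its `k`-simplices are the simplicial maps `Δ^m × Δ^k → A`. -/
@[reducible] def cot (m : ℕ) : SRing where
  obj k := A.cotS m k
  map θ := cotMap (Hom.id A) OrderHom.id θ
  map_id _ _ := rfl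
  map_comp _ _ _ := rfl

variable {A} in
/-- The map `A^{Δ^m} → B^{Δ^{m'}}` induced by `f : A → B` and `φ : [m'] → [m]`. -/
def cotHom {B : SRing} (f : A.Hom B) {m m' : ℕ} (φ : Op m' m) : (A.cot m).Hom (B.cot m') where
  app _ := cotMap f φ OrderHom.id
  nat _ _ := rfl

theorem const_mem (m k : ℕ) (a : A.obj k) :
    (fun r (_ : Op r m) (γ : Op r k) => A.map γ a) ∈ A.cotS m k :=
  fun η _ γ => A.map_comp γ η a

theorem const_nat (m : ℕ) {k n : ℕ} (θ : Op k n) (a : A.obj n) :
    (⟨_, A.const_mem m k (A.map θ a)⟩ : A.cotS m k) =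
      cotMap (Hom.id A) OrderHom.id θ ⟨_, A.const_mem m n a⟩ :=
  Subtype.ext (funext fun _ => funext fun _ => funext fun γ => A.map_comp θ γ a)

/-- The constant maps: `A → A^{Δ^m}`. -/
def const (m : ℕ) : A.Hom (A.cot m) where
  app k := RingHom.codRestrict
    (RingHom.pi fun r => RingHom.pi fun _ : Op r m => RingHom.pi fun γ : Op r k => A.map γ)
    (A.cotS m k) (A.const_mem m k)
  nat := A.const_nat m

theorem lev_mem (m : ℕ) (a : A.obj m) :
    (fun r (α : Op r m) (_ : Op r 0) => A.map α a) ∈ A.cotS m 0 :=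
  fun η α _ => A.map_comp α η a

/-- The identification of `A_m` with the vertices of `A^{Δ^m}` (Yoneda). -/
def lev (m : ℕ) : A.obj m →+* (A.cot m).obj 0 :=
  RingHom.codRestrict
    (RingHom.pi fun r => RingHom.pi fun α : Op r m => RingHom.pi fun _ : Op r 0 => A.map α)
    (A.cotS m 0) (A.lev_mem m)

/-- `A_m` as the degree zero part of `N (A^{Δ^m})`. -/
def incC (m : ℕ) : A.obj m →+* N (A.cot m) := N.inc.comp (A.lev m)

end SRing

end Pool.Agent.P.MP_932208_ag.Ax
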