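import Pool.Agent.P.MP_932208_ag.Ex.CotL1

/-!
Saturation, generators and the exactness of the Koszul kernel over simplices.
-/

namespace Pool.Agent.P.MP_932208_ag.Ax

namespace SRing
variable {A B : SRing} {f : A.Hom B}

theorem c2_op0 {n : ℕ} (θ η : Op 0 n) (h : θ 0 = η 0) : θ = η := by
  ext i; rw [Fin.fin_one_eq_zero i, h]

theorem c2_op00 (θ : Op 0 0) : θ = OrderHom.id := c2_op0 _ _ (Fin.fin_one_eq_zero _)

theorem c2_map00 (A : SRing) (θ : Op 0 0) (a : A.obj 0) : A.map θ a = a := by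
  rw [c2_op00 θ, A.map_id]

/-- The underlying map of simplicial abelian groups. -/
def c2_ab (f : A.Hom B) : A.ab.Hom B.ab where
  app n := (f.app n).toAddMonoidHom
  nat := f.nat

theorem c2_moore_zero (A : SRing) (n : ℕ) : A.ab.Moore (0 : A.obj n) := by
  cases n with
  | zero => trivial
  | succ n => exact fun i => map_zero _

/-- The chain with a single component. -/
def c2_single (k : ℕ) (a : A.obj k) (ha : A.ab.Moore a) : N A :=
  ⟨(Pi.single k a : ∀ n, A.obj n), fun n => by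
    change A.ab.Moore ((Pi.single k a : ∀ n, A.obj n) (n + 1))
    by_cases h : n + 1 = k
    · subst h
      rwa [Pi.single_eq_same]
    · rw [Pi.single_eq_of_ne h]
      exact c2_moore_zero A _,
    k + 1, fun n hn => Pi.single_eq_of_ne (M := fun n => A.obj n) (by omega) a⟩

theorem c2_single_same (k : ℕ) (a : A.obj k) (ha : A.ab.Moore a) :
    (c2_single k a ha).1 k = a := Pi.single_eq_same (M := fun n => A.obj n) k a

theorem c2_single_hg (k : ℕ) (a : A.obj k) (ha : A.ab.Moore a) :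
    N.Hg k (c2_single k a ha) := fun n hn =>
  Pi.single_eq_of_ne (M := fun n => A.obj n) (fun h => hn (by rw [h])) a

theorem c2_hg_ext {k : ℕ} {x y : N A} (hx : N.Hg k x) (hy : N.Hg k y) (h : x.1 k = y.1 k) :
    x = y := N.ext' fun n => by
  by_cases e : n = k
  · subst e; exact h
  · have : (n : ℤ) ≠ k := fun h => e (by exact_mod_cast h)
    rw [hx n this, hy n this]

theorem c2_hg_succ {k : ℕ} {x : N A} (h : N.Hg ((k + 1 : ℕ) : ℤ) x) : N.Hg ((k : ℤ) + 1) x := h

theorem c2_hg_bd {k : ℕ} {x : N A} (h : N.Hg ((k : ℤ) + 1) x) : N.Hg k (N.bd x) := by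
  simpa using N.hg_bd h

theorem c2_hg_mul_inc {k : ℤ} {x : N A} (h : N.Hg k x) (t : A.obj 0) : N.Hg k (x * N.inc t) := by
  simpa using N.hg_mul h (N.hg_inc t)

theorem c2_mul_inc (x : N A) (t : A.obj 0) (n : ℕ) :
    (x * N.inc t).1 n = x.1 n * A.map (vert n 0) t :=
  (Ch.sh_deg0_right n A t x.1).trans (mul_comm _ _)

theorem c2_sph {x : N A} (h : N.bd x = 0) (n : ℕ) : A.ab.Sph (x.1 n) := by
  cases n with
  | zero => trivial
  | succ n =>
    intro i
    rcases Fin.eq_zero_or_eq_succ i with rfl | ⟨i, rfl⟩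
    · exact congrArg (fun z : N A => z.1 n) h
    · exact x.2.1 n i

theorem c2_bd_single {n : ℕ} {a : A.obj n} (h : A.ab.Sph a) :
    N.bd (c2_single n a h.moore) = 0 := by
  cases n with
  | zero => exact N.eq_zero_of_neg (by norm_num) (N.hg_bd (c2_single_hg 0 a _))
  | succ n =>
    refine c2_hg_ext (c2_hg_bd (c2_hg_succ (c2_single_hg _ a _))) (N.hg_zero _ _) ?_
    change A.map (face 0) ((c2_single (n + 1) a h.moore).1 (n + 1)) = 0
    rw [c2_single_same]
    exact h 0

theorem c2_J_iff (a : A.obj 0) : a ∈ (dgN A).J ↔ A.ab.Bd a := by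
  constructor
  · rintro ⟨x, -, rfl⟩
    exact ⟨x.1 1, x.2.1 0, rfl⟩
  · rintro ⟨z, hz, rfl⟩
    refine ⟨c2_single 1 z hz, c2_single_hg 1 z hz, ?_⟩
    change A.map (face 0) ((c2_single 1 z hz).1 1) = _
    rw [c2_single_same]; rfl

theorem c2_JC_iff {m : ℕ} (a : A.obj m) : a ∈ (dgC A m).J ↔ (A.cot m).ab.Bd (A.lev m a) := by
  rw [← c2_J_iff]
  constructor
  · rintro ⟨x, hx, rfl⟩
    exact ⟨x, hx, (A.lev_unlev m _).symm⟩
  · rintro ⟨x, hx, e⟩
    refine ⟨x, hx, ?_⟩
    change A.unlev m (N.ev (N.bd x)) = a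
    have e' : N.ev (N.bd x) = A.lev m a := e
    rw [e', A.unlev_lev]

theorem c2_cut_mono {r m : ℕ} (χ : Op r 1) (α : Op r m) :
    Monotone (fun a => if χ a = 1 then α a else 0) := by
  intro a b hab
  dsimp only
  split_ifs with h1 h2
  · exact α.monotone hab
  · have h3 := χ.monotone hab
    rw [h1] at h3
    exact absurd (le_antisymm (Fin.le_last _) h3) h2
  · exact Fin.zero_le _
  · exact le_rfl

/-- `α` where `χ = 1` and `0` elsewhere. -/
def c2_cut {r m : ℕ} (χ : Op r 1) (α : Op r m) : Op r m := ⟨_, c2_cut_mono χ α⟩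

theorem c2_H_mem (A : SRing) {m n : ℕ} (χ : Op n 1) (x : A.cotS m n) :
    (fun r (α : Op r m) (γ : Op r n) => x.1 r (c2_cut (χ.comp γ) α) γ) ∈ A.cotS m n :=
  fun θ _ _ => x.2 θ _ _

/-- Additive endomorphisms of the `n`-simplices. -/
abbrev c2_End (C : SRing) (n : ℕ) : Type := C.obj n →+ C.obj n

/-- Constructor for additive endomorphisms. -/
def c2_mk (C : SRing) {n : ℕ} (g : C.obj n → C.obj n) (h : ∀ x y, g (x + y) = g x + g y) :
    c2_End C n := AddMonoidHom.mk' g h

/-- The contraction of `Δ^m` onto the vertex `0`. -/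
def c2_H (A : SRing) (m n : ℕ) (χ : Op n 1) :
    c2_End (A.cot m) n :=
  c2_mk (A.cot m) (fun x => ⟨_, A.c2_H_mem χ x⟩) (fun _ _ => Subtype.ext rfl)

theorem c2_H_apply (A : SRing) (m n : ℕ) (χ : Op n 1) (x : A.cotS m n) (r : ℕ) (α : Op r m)
    (γ : Op r n) : (A.c2_H m n χ x).1 r α γ = x.1 r (c2_cut (χ.comp γ) α) γ := rfl

theorem c2_H_nat (A : SRing) (m : ℕ) {k n : ℕ} (θ : Op k n) (χ : Op n 1) (x : A.cotS m n) :
    (A.cot m).map θ (A.c2_H m n χ x) = A.c2_H m k (χ.comp θ) ((A.cot m).map θ x) :=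
  Subtype.ext (funext fun _ => funext fun _ => funext fun _ => rfl)

theorem c2_H_one (A : SRing) (m n : ℕ) (x : (A.cot m).obj n) :
    A.c2_H m n (vert n 1) x = x :=
  Subtype.ext (funext fun r => funext fun α => funext fun γ => by
    have : c2_cut ((vert n (1 : Fin 2)).comp γ) α = α := by ext a; simp [c2_cut, vert]
    rw [c2_H_apply, this])

theorem c2_H_zero (A : SRing) (m n : ℕ) (x : (A.cot m).obj n) :
    A.c2_H m n (vert n 0) x = (A.const m).app n ((A.vtx m).app n x) :=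
  Subtype.ext (funext fun r => funext fun α => funext fun γ => by
    have : c2_cut ((vert n (0 : Fin 2)).comp γ) α = (vert n 0).comp γ := by
      ext a; simp [c2_cut, vert]
    rw [c2_H_apply, this]
    exact (x.2 γ (vert n 0) OrderHom.id).symm)

theorem c2_vtx_const (A : SRing) (m n : ℕ) (y : A.obj n) :
    (A.vtx m).app n ((A.const m).app n y) = y := A.map_id n y

theorem c2_vtx_we (A : SRing) (m : ℕ) : (c2_ab (A.vtx m)).WE := by
  refine SAb.Hom.we_of_section _ (fun n => ((A.const m).app n).toAddMonoidHom)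
    (fun n i y => ((A.const m).nat _ y).symm) (A.c2_vtx_const m) fun n x hx => ?_
  have h := SAb.prism (X := (A.cot m).ab) (Y := (A.cot m).ab) (A.c2_H m)
    (fun _ _ χ x => A.c2_H_nat m _ χ x) hx
  rw [c2_H_one, c2_H_zero] at h
  have h' := h.neg
  rwa [neg_sub] at h'

theorem Sat.dgC (h : A.Sat) (m : ℕ) : (dgC A m).Sat := by
  intro a ha
  have h1 : A.ab.Bd (A.map (vert 0 0) a) := ((c2_JC_iff a).1 ha).map (c2_ab (A.vtx m))
  refine h m _ ⟨1, ?_⟩
  rwa [map_add, map_one, mul_one, add_sub_cancel_left]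

theorem vertex_surjective (A : SRing) (m : ℕ) :
    Function.Surjective (A.map (vert 0 0 : Op 0 m)) := fun a =>
  ⟨A.map (vert m 0) a, by rw [A.map_comp, c2_map00]⟩

/-- The vertex map is injective on `π_0`. -/
theorem mem_J_of_vertex (A : SRing) (m : ℕ) (a : A.obj m)
    (h : A.map (vert 0 0 : Op 0 m) a ∈ (dgN A).J) : a ∈ (dgC A m).J :=
  (c2_JC_iff a).2 ((A.c2_vtx_we m 0).2 (A.lev m a) trivial ((c2_J_iff _).1 h))

end SRing

end Pool.Agent.P.MP_932208_ag.Ax
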