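import Pool.Agent.P.MP_932208_ag.Ex.CylD

/-!
The preorders of presentations are contractible.
-/

namespace Pool.Agent.P.MP_932208_ag.Ax

open CategoryTheory

variable {A B : SRing} {M M₁ M₂ : DG A} {M' : DG B}

theorem CylC_mem_rel {C : Cel A} {b s : ℕ} : s ∈ (C.relabel b).S ↔ b ≤ s ∧ s - b ∈ C.S := by
  change s ∈ C.S.image (· + b) ↔ _
  rw [Finset.mem_image]
  constructor
  · rintro ⟨t, ht, rfl⟩
    exact ⟨Nat.le_add_left _ _, by rwa [Nat.add_sub_cancel]⟩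
  · rintro ⟨h1, h2⟩
    exact ⟨s - b, h2, Nat.sub_add_cancel h1⟩

theorem CylC_mem {P D : PD M} {b : ℕ} {f : ℕ → D.C.V} {H : ℕ → M.V} (h : PD.CylOk P D b f H)
    {s : ℕ} : s ∈ h.cel.S ↔ s ∈ P.C.S ∨ s ∈ D.C.S ∨ (b ≤ s ∧ s - b ∈ P.C.S) := by
  change s ∈ P.C.S ∪ D.C.S ∪ (P.C.relabel b).S ↔ _
  rw [Finset.mem_union, Finset.mem_union, CylC_mem_rel, or_assoc]

theorem CylC_p_top {P D : PD M} {b : ℕ} {f : ℕ → D.C.V} {H : ℕ → M.V} (h : PD.CylOk P D b f H)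
    {s : ℕ} (hs : b ≤ s) : h.cyl.p s = H (s - b) := if_pos hs

theorem CylC_cyl_le {P P' D : PD M} {b : ℕ} {f f' : ℕ → D.C.V} {H H' : ℕ → M.V}
    (h : PD.CylOk P D b f H) (h' : PD.CylOk P' D b f' H') (e : P ≤ P')
    (ef : ∀ s ∈ P.C.S, f s = f' s ∧ H s = H' s) : h.cyl ≤ h'.cyl := by
  refine ⟨h.cel_le h' e.1 le_rfl fun s hs => congrArg Subtype.val (ef s hs).1, fun s hs => ?_⟩
  rcases (CylC_mem h).1 hs with a | a | a
  · exact (h.left_le.2 s a).symm.trans ((e.2 s a).trans (h'.left_le.2 s (e.1.1 a)))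
  · exact (h.right_le.2 s a).symm.trans (h'.right_le.2 s a)
  · rw [CylC_p_top h a.1, CylC_p_top h' a.1, (ef _ a.2).2]

/-- The cylinder of a pair. -/
noncomputable def CylC_mpd {i : DG.Hom (𝟙 A) M₁ M₂} {q D : MPD i} {b : ℕ} {f₁ : ℕ → D.P₁.C.V}
    {H₁ : ℕ → M₁.V} {f₂ : ℕ → D.P₂.C.V} {H₂ : ℕ → M₂.V} (h₁ : PD.CylOk q.P₁ D.P₁ b f₁ H₁)
    (h₂ : PD.CylOk q.P₂ D.P₂ b f₂ H₂)
    (e : ∀ s ∈ q.P₁.C.S, (Cel.incl D.le).toFun (f₁ s) = f₂ s ∧ i.toFun (H₁ s) = H₂ s) : MPD i where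
  P₁ := h₁.cyl
  P₂ := h₂.cyl
  le := h₁.cel_le h₂ q.le D.le fun s hs => congrArg Subtype.val (e s hs).1
  comm s hs := by
    rcases (CylC_mem h₁).1 hs with a | a | a
    · rw [← h₁.left_le.2 s a, q.comm s a, h₂.left_le.2 s (q.le.1 a)]
    · rw [← h₁.right_le.2 s a, D.comm s a, h₂.right_le.2 s (D.le.1 a)]
    · rw [CylC_p_top h₁ a.1, CylC_p_top h₂ a.1, (e _ a.2).2]

/-- Relabelling of a pair. -/
noncomputable def CylC_rel {i : DG.Hom (𝟙 A) M₁ M₂} (q : SPre i) (b : ℕ) : SPre i :=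
  ⟨⟨q.1.P₁.relabel b, q.1.P₂.relabel b, Cel.relabel_mono q.1.le b,
    fun _ hs => q.1.comm _ (CylC_mem_rel.1 hs).2⟩, PD.qi_relabel q.2.1 b, PD.qi_relabel q.2.2 b⟩

theorem CylC_bound (S : Finset ℕ) (a : ℕ) : ∃ b, a ≤ b ∧ ∀ s ∈ S, s < b := by
  obtain ⟨b, hb⟩ := S.bddAbove
  exact ⟨max a (b + 1), le_max_left _ _, fun s hs =>
    lt_max_of_lt_right (Nat.lt_succ_of_le (hb hs))⟩
theorem SPre.con' (i : DG.Hom (𝟙 A) M₁ M₂) (Φ : Set (SPre i)) (hΦ : Φ.Finite) (D₀ : SPre i) :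
    ∃ (D : SPre i) (F : SPre i → SPre i), MonotoneOn F Φ ∧
      ∀ q ∈ Φ, q ≤ F q ∧ D ≤ F q ∧ (0 ∉ q.1.P₂.C.S → 0 ∉ (F q).1.P₂.C.S) := by
  classical
  obtain ⟨b₀, hb₀, h₀⟩ := CylC_bound (hΦ.toFinset.biUnion fun q => q.1.P₂.C.S) 1
  have l₀ : ∀ q ∈ Φ, ∀ s ∈ q.1.P₂.C.S, s < b₀ := fun q hq s hs =>
    h₀ s (Finset.mem_biUnion.2 ⟨q, hΦ.mem_toFinset.2 hq, hs⟩)
  obtain ⟨D, hD⟩ : ∃ D : SPre i, ∀ s ∈ D.1.P₂.C.S, b₀ ≤ s :=
    ⟨CylC_rel D₀ b₀, fun s hs => (CylC_mem_rel.1 hs).1⟩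
  obtain ⟨b, hb, l₁⟩ := CylC_bound D.1.P₂.C.S b₀
  obtain ⟨f₁, H₁, f₂, H₂, k₁, k₂, k₃, k₄⟩ := exists_lift₂ D.2.1 D.2.2 D.1.hom_sq
  have dj : ∀ q ∈ Φ, ∀ s ∈ q.1.P₂.C.S, s ∉ D.1.P₂.C.S := fun q hq s hs hs' =>
    absurd (l₀ q hq s hs) (not_lt.2 (hD s hs'))
  have o₁ : ∀ q ∈ Φ, PD.CylOk q.1.P₁ D.1.P₁ b (f₁ q.1) (H₁ q.1) := fun q hq =>
    ⟨k₁ q.1, Finset.disjoint_left.2 fun s hs hs' => dj q hq s (q.1.le.1 hs) (D.1.le.1 hs'),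
      fun s hs => (l₀ q hq s (q.1.le.1 hs)).trans_le hb, fun s hs => l₁ s (D.1.le.1 hs)⟩
  have o₂ : ∀ q ∈ Φ, PD.CylOk q.1.P₂ D.1.P₂ b (f₂ q.1) (H₂ q.1) := fun q hq =>
    ⟨k₂ q.1, Finset.disjoint_left.2 (dj q hq), fun s hs => (l₀ q hq s hs).trans_le hb, l₁⟩
  let G : ∀ q ∈ Φ, SPre i := fun q hq =>
    ⟨CylC_mpd (o₁ q hq) (o₂ q hq) (k₃ q.1), (o₁ q hq).qi D.2.1, (o₂ q hq).qi D.2.2⟩
  refine ⟨D, fun q => if hq : q ∈ Φ then G q hq else q, fun q hq q' hq' e => ?_, fun q hq => ?_⟩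
  · simp only [dif_pos hq, dif_pos hq']
    have e' : q.1 ≤ q'.1 := e
    refine ⟨CylC_cyl_le (o₁ q hq) (o₁ q' hq') e'.1 (k₄ _ _ e').1,
      CylC_cyl_le (o₂ q hq) (o₂ q' hq') e'.2.1 (k₄ _ _ e').2, fun s hs hs' => ?_⟩
    refine (CylC_mem (o₁ q hq)).2 ?_
    rcases (CylC_mem (o₁ q' hq')).1 hs' with a | a | a
    · rcases (CylC_mem (o₂ q hq)).1 hs with c | c | c
      · exact Or.inl (e'.2.2 s c a)
      · exact absurd c (dj q' hq' s (q'.1.le.1 a))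
      · exact absurd ((o₁ q' hq').ltP s a) (not_lt.2 c.1)
    · exact Or.inr (Or.inl a)
    · rcases (CylC_mem (o₂ q hq)).1 hs with c | c | c
      · exact absurd ((o₂ q hq).ltP s c) (not_lt.2 a.1)
      · exact absurd (l₁ s c) (not_lt.2 a.1)
      · exact Or.inr (Or.inr ⟨a.1, e'.2.2 _ c.2 a.2⟩)
  · simp only [dif_pos hq]
    refine ⟨⟨(o₁ q hq).left_le, (o₂ q hq).left_le, fun s hs hs' => ?_⟩,
      ⟨(o₁ q hq).right_le, (o₂ q hq).right_le, fun s hs hs' => ?_⟩, fun h hs => ?_⟩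
    · rcases (CylC_mem (o₁ q hq)).1 hs' with a | a | a
      · exact a
      · exact absurd (D.1.le.1 a) (dj q hq s hs)
      · exact absurd ((o₂ q hq).ltP s hs) (not_lt.2 a.1)
    · rcases (CylC_mem (o₁ q hq)).1 hs' with a | a | a
      · exact absurd hs (dj q hq s (q.1.le.1 a))
      · exact a
      · exact absurd (l₁ s hs) (not_lt.2 a.1)
    · rcases (CylC_mem (o₂ q hq)).1 hs with a | a | a
      · exact h a
      · have := hD 0 a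
        omega
      · have := a.1
        omega

theorem SPre.con (i : DG.Hom (𝟙 A) M₁ M₂) : LocCon (SPre i) := fun Φ hΦ ⟨q, _⟩ => by
  obtain ⟨D, F, h1, h2⟩ := SPre.con' i Φ hΦ q
  exact ⟨D, F, h1, fun q hq => ⟨(h2 q hq).1, (h2 q hq).2.1⟩⟩

/-- A presentation of `M` as a presentation of `0 → M`. -/
def CylC_emb (P : Pre M) : SPre (DG.Hom.zero (𝟙 A) (DG.zero A) M) :=
  ⟨⟨PD.empty _, P.1, ⟨Finset.empty_subset _, fun _ h => absurd h (Finset.notMem_empty _)⟩,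
    fun _ h => absurd h (Finset.notMem_empty _)⟩, PD.qi_empty (DG.acyc_zero A), P.2⟩

theorem CylC_pre (M : DG A) (Φ : Set (Pre M)) (hΦ : Φ.Finite) (D₀ : Pre M) :
    ∃ (D : Pre M) (F : Pre M → Pre M), MonotoneOn F Φ ∧
      ∀ q ∈ Φ, q ≤ F q ∧ D ≤ F q ∧ (0 ∉ q.1.C.S → 0 ∉ (F q).1.C.S) := by
  obtain ⟨D, F, h1, h2⟩ := SPre.con' _ _ (hΦ.image CylC_emb) (CylC_emb D₀)
  refine ⟨⟨D.1.P₂, D.2.2⟩, fun q => ⟨(F (CylC_emb q)).1.P₂, (F (CylC_emb q)).2.2⟩,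
    fun q hq q' hq' e => ?_, fun q hq => ?_⟩
  · have e' : CylC_emb q ≤ CylC_emb q' := ⟨le_rfl, e, fun _ _ h => h⟩
    exact (h1 ⟨q, hq, rfl⟩ ⟨q', hq', rfl⟩ e').2.1
  · obtain ⟨a1, a2, a3⟩ := h2 _ ⟨q, hq, rfl⟩
    exact ⟨a1.2.1, a2.2.1, a3⟩
theorem Pre.con (M : DG A) : LocCon (Pre M) := fun Φ hΦ ⟨q, _⟩ => by
  obtain ⟨D, F, h1, h2⟩ := CylC_pre M Φ hΦ q
  exact ⟨D, F, h1, fun q hq => ⟨(h2 q hq).1, (h2 q hq).2.1⟩⟩

/-- Presentations that do not use the label `0`. -/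
abbrev Pre0 (M : DG A) : Type := {P : PD M // P.QI ∧ 0 ∉ P.C.S}

theorem Pre0.con (M : DG A) : LocCon (Pre0 M) := fun Φ hΦ ⟨q₀, hq₀⟩ => by
  classical
  let ι : Pre0 M → Pre M := fun q => ⟨q.1, q.2.1⟩
  obtain ⟨D, F, h1, h2⟩ := CylC_pre M _ (hΦ.image ι) (ι q₀)
  have h3 : ∀ q ∈ Φ, 0 ∉ (F (ι q)).1.C.S := fun q hq => (h2 _ ⟨q, hq, rfl⟩).2.2 q.2.2
  refine ⟨⟨D.1, D.2, fun h => h3 q₀ hq₀ ((h2 _ ⟨q₀, hq₀, rfl⟩).2.1.1.1 h)⟩,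
    fun q => if hq : q ∈ Φ then ⟨(F (ι q)).1, (F (ι q)).2, h3 q hq⟩ else q,
    fun q hq q' hq' e => ?_, fun q hq => ?_⟩
  · simp only [dif_pos hq, dif_pos hq']
    exact h1 ⟨q, hq, rfl⟩ ⟨q', hq', rfl⟩ e
  · simp only [dif_pos hq]
    exact ⟨(h2 _ ⟨q, hq, rfl⟩).1, (h2 _ ⟨q, hq, rfl⟩).2.1⟩

theorem Pre0.nonempty (h : Nonempty (Pre M)) : Nonempty (Pre0 M) := by
  obtain ⟨P⟩ := h
  refine ⟨⟨P.1.relabel 1, PD.qi_relabel P.2 1, fun h => ?_⟩⟩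
  have := (CylC_mem_rel.1 h).1
  omega

theorem CylC_ext (P : PD M) (D₀ : Pre M) : ∃ P' : PD M, P'.QI ∧ P ≤ P' := by
  obtain ⟨b₀, -, h₀⟩ := CylC_bound P.C.S 0
  obtain ⟨b, hb, h₁⟩ := CylC_bound (D₀.1.relabel b₀).C.S b₀
  have hD := PD.qi_relabel D₀.2 b₀
  obtain ⟨f, H, h⟩ := exists_lift hD P
  have o : PD.CylOk P (D₀.1.relabel b₀) b f H :=
    ⟨h, Finset.disjoint_left.2 fun s hs hs' =>
      absurd (h₀ s hs) (not_lt.2 (CylC_mem_rel.1 hs').1), fun s hs => (h₀ s hs).trans_le hb, h₁⟩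
  exact ⟨o.cyl, o.qi hD, o.left_le⟩
theorem SPre.nonempty (i : DG.Hom (𝟙 A) M₁ M₂) (h₁ : Nonempty (Pre M₁)) (h₂ : Nonempty (Pre M₂)) :
    Nonempty (SPre i) := by
  obtain ⟨P₁⟩ := h₁
  obtain ⟨P₂⟩ := h₂
  obtain ⟨P, hP, e⟩ := CylC_ext (P₁.1.map i) P₂
  exact ⟨⟨⟨P₁.1, P, ⟨e.1.1, e.1.2⟩, e.2⟩, P₁.2, hP⟩⟩

/-- Presentations of the source are carried to presentations of the target. -/
def DG.Hom.Good {φ : A ⟶ B} (g : DG.Hom φ M M') : Prop := ∀ P : PD M, P.QI → (P.map g).QI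

theorem DG.Hom.good_of_one {φ : A ⟶ B} {g : DG.Hom φ M M'} {P : PD M} (h : P.QI)
    (h' : (P.map g).QI) : g.Good := by
  intro P' hP'
  obtain ⟨D, F, -, h2⟩ := Pre.con M {⟨P, h⟩, ⟨P', hP'⟩} (Set.toFinite _) (Set.insert_nonempty _ _)
  obtain ⟨a1, a2⟩ := h2 ⟨P, h⟩ (Or.inl rfl)
  obtain ⟨c1, c2⟩ := h2 ⟨P', hP'⟩ (Or.inr rfl)
  exact (PD.qi_map_iff_of_le c1 hP' (F _).2 g).2 ((PD.qi_map_iff_of_le c2 D.2 (F _).2 g).1
    ((PD.qi_map_iff_of_le a2 D.2 (F _).2 g).2 ((PD.qi_map_iff_of_le a1 h (F _).2 g).1 h')))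

section good
variable {φ : A ⟶ B} {a b c : Arr φ}

/-- The arrow has presentations. -/
def CylC_Q (a : Arr φ) : Prop := Nonempty (Pre a.src) ∧ a.map.Good

theorem CylC_mk (P : PD a.src) (h : P.QI) (h' : (P.map a.map).QI) : CylC_Q a :=
  ⟨⟨⟨P, h⟩⟩, DG.Hom.good_of_one h h'⟩

theorem CylC_sq (g : a.Hom b) (P : PD a.src) :
    (P.map g.s).map b.map = (P.map a.map).map g.t :=
  (P.map_map g.s b.map (a.map.comp g.t (Category.comp_id φ)) (Category.id_comp φ) g.comm).trans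
    (P.map_map a.map g.t (a.map.comp g.t (Category.comp_id φ)) (Category.comp_id φ)
      fun _ => rfl).symm

theorem CylC_forward (g : a.Hom b) (hs : g.s.QI) (ht : g.t.QI) (h : CylC_Q a) : CylC_Q b := by
  obtain ⟨⟨P⟩, h⟩ := h
  refine CylC_mk (P.1.map g.s) ((P.1.qi_map_iff hs).2 P.2) ?_
  rw [CylC_sq]
  exact (PD.qi_map_iff _ ht).2 (h P.1 P.2)

theorem CylC_backward (g : a.Hom b) (hs : g.s.QI) (ht : g.t.QI) (h : CylC_Q b) : CylC_Q a := by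
  obtain ⟨⟨P⟩, h⟩ := h
  obtain ⟨f, H, l⟩ := exists_lift hs P.1
  have h1 : l.pd.QI := (l.qi_iff hs).2 P.2
  refine CylC_mk l.pd h1 ((PD.qi_map_iff _ ht).1 ?_)
  rw [← CylC_sq]
  exact h _ ((l.pd.qi_map_iff hs).2 h1)

theorem CylC_right {i : a.Hom b} {p : b.Hom c} (e : Arr.ShortExact i p) (ha : CylC_Q a)
    (hb : CylC_Q b) : CylC_Q c := by
  obtain ⟨q⟩ := SPre.nonempty i.s ha.1 hb.1
  refine CylC_mk (q.1.quo e.1) (q.1.qi_quo e.1 q.2.1 q.2.2) ?_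
  rw [← q.1.quo_map a.map b.map (fun x => (i.comm x).symm) c.map (fun x => (p.comm x).symm) e.1 e.2]
  exact MPD.qi_quo _ e.2 (ha.2 _ q.2.1) (hb.2 _ q.2.2)

theorem CylC_shift (h : CylC_Q a) : CylC_Q a.shift := by
  obtain ⟨⟨P⟩, h⟩ := h
  refine CylC_mk (a := a.shift) P.1.shift (PD.qi_shift P.2) ?_
  have e := P.1.shift_map a.map
  exact e ▸ PD.qi_shift (h P.1 P.2)

theorem CylC_middle {i : a.Hom b} {p : b.Hom c} (e : Arr.ShortExact i p) (ha : CylC_Q a)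
    (hc : CylC_Q c) : CylC_Q b := by
  obtain ⟨a', j, q, g, e', hs, ht⟩ := Arr.rotate e
  exact CylC_right e' (CylC_shift hc) (CylC_forward g hs ht ha)

theorem CylC_left {i : a.Hom b} {p : b.Hom c} (e : Arr.ShortExact i p) (hb : CylC_Q b)
    (hc : CylC_Q c) : CylC_Q a := by
  obtain ⟨a', j, q, g, e', hs, ht⟩ := Arr.rotate e
  exact CylC_backward g hs ht (CylC_middle e' (CylC_shift hc) hb)

theorem CylC_span {x : N A} (hx : (DG.unit A).Cycle 0 x) (e : x = 1) : (PD.one hx).QI := by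
  subst e
  refine (PD.qi_one_iff hx).2 (DG.Hom.qiso_of_bijective _ ?_)
  have : ∀ r, ((DG.unit A).toSpan 1 hx).toFun r = r := fun r => mul_one r
  exact ⟨fun x y h => (this x).symm.trans (h.trans (this y)), fun y => ⟨y, this y⟩⟩

theorem CylC_unit (φ : A ⟶ B) : CylC_Q (Arr.unit φ) := by
  have hx := DG.cycle_inc (A := A) 1
  refine CylC_mk (a := Arr.unit φ) (PD.one hx) (CylC_span hx (map_one _)) ?_
  have e : (PD.one hx).map (DG.unitHom φ) = PD.one ((DG.unitHom φ).cycle hx) :=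
    PD.ext (Cel.ext rfl rfl (funext fun _ => funext fun _ => map_zero _)) rfl
  refine e ▸ CylC_span _ ?_
  change N.map φ (N.inc 1) = 1
  rw [map_one, map_one]

end good

/-- Cellular arrows have presentations. -/
theorem Arr.Cellular.good {φ : A ⟶ B} {l : ℤ} {a : Arr φ} (h : Arr.Cellular 1 l a) :
    Nonempty (Pre a.src) ∧ a.map.Good := by
  change CylC_Q a
  induction h with
  | unit => exact CylC_unit φ
  | forward g hg _ ih => exact CylC_forward g hg.1 (by have h2 := hg.2; rwa [map_one] at h2) ih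
  | backward g hg _ ih => exact CylC_backward g hg.1 (by have h2 := hg.2; rwa [map_one] at h2) ih
  | middle i p e _ _ ha hc => exact CylC_middle e ha hc
  | left i p e _ _ hb hc => exact CylC_left e hb hc
  | right i p e _ _ hb ha => exact CylC_right e ha hb

end Pool.Agent.P.MP_932208_ag.Ax
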