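import Pool.Agent.P.MP_932208_ag.Ex.Lift

/-!
Relabelling of cells and mapping cylinders.
-/

namespace Pool.Agent.P.MP_932208_ag.Ax

open CategoryTheory

variable {A : SRing} {M : DG A}

theorem CylD_mem {S : Finset ℕ} {b s : ℕ} : s ∈ S.image (· + b) ↔ b ≤ s ∧ s - b ∈ S := by
  rw [Finset.mem_image]
  constructor
  · rintro ⟨t, ht, rfl⟩
    exact ⟨Nat.le_add_left _ _, by rwa [Nat.add_sub_cancel]⟩
  · rintro ⟨h1, h2⟩
    exact ⟨s - b, h2, Nat.sub_add_cancel h1⟩

theorem CylD_sum_image {W : Type} [AddCommMonoid W] (S : Finset ℕ) (b : ℕ) (F : ℕ → W) :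
    ∑ t ∈ S.image (· + b), F t = ∑ t ∈ S, F (t + b) :=
  Finset.sum_image fun _ _ _ _ e => Nat.add_right_cancel e

theorem CylD_split (b s : ℕ) : s < b ∨ ∃ t, s = t + b :=
  (lt_or_ge s b).imp id fun h => ⟨s - b, (Nat.sub_add_cancel h).symm⟩

theorem CylD_hg_one : N.Hg 0 (1 : N A) := by
  simpa using N.hg_inc (1 : A.obj 0)

theorem CylD_bd_one : N.bd (1 : N A) = 0 := by
  simpa using N.bd_inc (1 : A.obj 0)

theorem CylD_hg_cast {k l : ℤ} {x : N A} (h : N.Hg k x) (e : k = l) : N.Hg l x := e ▸ h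

/-- Add `b` to all labels. -/
@[reducible] noncomputable def Cel.relabel (C : Cel A) (b : ℕ) : Cel A where
  S := C.S.image (· + b)
  dg s := C.dg (s - b)
  δ s r := if b ≤ s ∧ b ≤ r then C.δ (s - b) (r - b) else 0
  hg s r := by
    split_ifs
    · exact C.hg _ _
    · exact N.hg_zero _ _
  supp s r h := by
    split_ifs with h'
    · exact C.supp _ _ (h.imp (fun p q => p (CylD_mem.2 ⟨h'.1, q⟩))
        fun p q => p (CylD_mem.2 ⟨h'.2, q⟩))
    · rfl
  mc s r := by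
    rw [CylD_sum_image]
    by_cases hs : b ≤ s
    · by_cases hr : b ≤ r
      · simpa [hs, hr] using C.mc (s - b) (r - b)
      · simp [hr]
    · simp [hs]

theorem Cel.relabel_mono {C C' : Cel A} (h : C ≤ C') (b : ℕ) : C.relabel b ≤ C'.relabel b := by
  refine ⟨Finset.image_subset_image h.1, fun s hs => ?_⟩
  have h1 := h.2 _ (CylD_mem.1 hs).2
  refine ⟨h1.1, fun r => ?_⟩
  change (if _ then _ else _) = (if _ then _ else _)
  rw [h1.2]

/-- The comparison with the relabelled complex. -/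
noncomputable def CylD_unlabel (C : Cel A) (b : ℕ) : DG.Hom (𝟙 A) (C.relabel b).dm C.dm where
  toFun := AddMonoidHom.mk' (fun x => ⟨fun s => x.1 (s + b), fun s hs => x.2 _ fun p =>
    hs (by simpa using (CylD_mem.1 p).2)⟩) fun _ _ => rfl
  map_smul _ _ := rfl
  map_gr {k x} hx s := by simpa using hx (s + b)
  map_d x := Subtype.ext (funext fun r => by
    change ((C.relabel b).D x).1 (r + b) = (C.D _).1 r
    rw [Cel.D_apply, Cel.D_apply, CylD_sum_image]
    simp)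

theorem CylD_unlabel_bij (C : Cel A) (b : ℕ) : Function.Bijective (CylD_unlabel C b).toFun := by
  constructor
  · intro x y e
    refine Subtype.ext (funext fun s => ?_)
    rcases CylD_split b s with hs | ⟨t, rfl⟩
    · have : s ∉ (C.relabel b).S := fun p => absurd (CylD_mem.1 p).1 (not_le.2 hs)
      rw [x.2 s this, y.2 s this]
    · exact congrFun (congrArg Subtype.val e) t
  · intro y
    refine ⟨⟨fun s => if b ≤ s then y.1 (s - b) else 0, fun s hs => ?_⟩,
      Subtype.ext (funext fun s => ?_)⟩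
    · dsimp only
      split_ifs with h
      · exact y.2 _ fun p => hs (CylD_mem.2 ⟨h, p⟩)
      · rfl
    · change (if b ≤ s + b then y.1 (s + b - b) else 0) = y.1 s
      rw [if_pos (Nat.le_add_left _ _), Nat.add_sub_cancel]

namespace PD

/-- Add `b` to all labels. -/
@[reducible] noncomputable def relabel (P : PD M) (b : ℕ) : PD M where
  C := P.C.relabel b
  p s := P.p (s - b)
  gr s hs := P.gr _ (CylD_mem.1 hs).2
  d_p s hs := by
    obtain ⟨h1, h2⟩ := CylD_mem.1 hs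
    rw [CylD_sum_image, P.d_p _ h2]
    simp [h1]

theorem qi_relabel {P : PD M} (h : P.QI) (b : ℕ) : (P.relabel b).QI := by
  refine DG.Hom.QI.tri (f := CylD_unlabel P.C b) (g := P.hom) (fun x => ?_)
    (DG.Hom.qiso_of_bijective _ (CylD_unlabel_bij P.C b)) h
  rw [hom_apply, hom_apply, CylD_sum_image]
  refine Finset.sum_congr rfl fun s _ => ?_
  change x.1 (s + b) • P.p (s + b - b) = x.1 (s + b) • P.p s
  rw [Nat.add_sub_cancel]

/-- The data of a mapping cylinder. -/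
structure CylOk (P D : PD M) (b : ℕ) (f : ℕ → D.C.V) (H : ℕ → M.V) : Prop where
  lift : IsLift D.hom P f H
  disj : Disjoint P.C.S D.C.S
  ltP : ∀ s ∈ P.C.S, s < b
  ltD : ∀ s ∈ D.C.S, s < b

variable {P D : PD M} {b : ℕ} {f : ℕ → D.C.V} {H : ℕ → M.V}

/-- The cells of the cylinder. -/
def CylD_S (P D : PD M) (b : ℕ) : Finset ℕ := P.C.S ∪ D.C.S ∪ P.C.S.image (· + b)

/-- The degrees of the cells of the cylinder. -/
def CylD_dg (P D : PD M) (b : ℕ) (s : ℕ) : ℤ :=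
  if b ≤ s then P.C.dg (s - b) + 1 else if s ∈ P.C.S then P.C.dg s else D.C.dg s

/-- The boundary matrix of the cylinder. -/
noncomputable def CylD_δ (P D : PD M) (b : ℕ) (f : ℕ → D.C.V) (s r : ℕ) : N A :=
  if b ≤ s then
      (if s - b ∈ P.C.S then (if b ≤ r then -N.sg (P.C.δ (s - b) (r - b))
        else (f (s - b)).1 r - if r = s - b then 1 else 0) else 0)
    else P.C.δ s r + D.C.δ s r

/-- A family on the cells of the cylinder. -/
def CylD_fam {W : Type} (P : PD M) (b : ℕ) (u v w : ℕ → W) (s : ℕ) : W :=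
  if b ≤ s then w (s - b) else if s ∈ P.C.S then u s else v s

theorem CylD_cases {s : ℕ} (hs : s ∈ CylD_S P D b) :
    s ∈ P.C.S ∨ s ∈ D.C.S ∨ ∃ t ∈ P.C.S, s = t + b := by
  rcases Finset.mem_union.1 hs with h | h
  · exact (Finset.mem_union.1 h).imp id Or.inl
  · obtain ⟨t, ht, e⟩ := Finset.mem_image.1 h
    exact Or.inr (Or.inr ⟨t, ht, e.symm⟩)

theorem CylD_memP {s : ℕ} (hs : s ∈ P.C.S) : s ∈ CylD_S P D b :=
  Finset.mem_union_left _ (Finset.mem_union_left _ hs)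

theorem CylD_memD {s : ℕ} (hs : s ∈ D.C.S) : s ∈ CylD_S P D b :=
  Finset.mem_union_left _ (Finset.mem_union_right _ hs)

theorem CylD_memN {s : ℕ} (hs : s ∈ P.C.S) : s + b ∈ CylD_S P D b :=
  Finset.mem_union_right _ (Finset.mem_image_of_mem _ hs)

theorem CylD_fam_new {W : Type} (u v w : ℕ → W) (s : ℕ) : CylD_fam P b u v w (s + b) = w s := by
  rw [CylD_fam, if_pos (Nat.le_add_left _ _), Nat.add_sub_cancel]

theorem CylD_dg_new (s : ℕ) : CylD_dg P D b (s + b) = P.C.dg s + 1 := by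
  rw [CylD_dg, if_pos (Nat.le_add_left _ _), Nat.add_sub_cancel]

theorem CylD_δ_old {s : ℕ} (hs : s < b) (r : ℕ) : CylD_δ P D b f s r = P.C.δ s r + D.C.δ s r := by
  rw [CylD_δ, if_neg (not_le.2 hs)]

theorem CylD_δ_nn {s : ℕ} (hs : s ∈ P.C.S) (r : ℕ) :
    CylD_δ P D b f (s + b) (r + b) = -N.sg (P.C.δ s r) := by
  rw [CylD_δ, if_pos (Nat.le_add_left _ _), Nat.add_sub_cancel, if_pos hs,
    if_pos (Nat.le_add_left _ _), Nat.add_sub_cancel]

theorem CylD_δ_no {s : ℕ} (hs : s ∈ P.C.S) {r : ℕ} (hr : r < b) :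
    CylD_δ P D b f (s + b) r = (f s).1 r - if r = s then 1 else 0 := by
  rw [CylD_δ, if_pos (Nat.le_add_left _ _), Nat.add_sub_cancel, if_pos hs, if_neg (not_le.2 hr)]

theorem CylD_δ_z {s : ℕ} (hs : s ∉ P.C.S) (r : ℕ) : CylD_δ P D b f (s + b) r = 0 := by
  rw [CylD_δ, if_pos (Nat.le_add_left _ _), Nat.add_sub_cancel, if_neg hs]

namespace CylOk
variable (h : CylOk P D b f H)
include h

theorem CylD_nD {s : ℕ} (hs : s ∈ P.C.S) : s ∉ D.C.S := Finset.disjoint_left.1 h.disj hs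

theorem CylD_nP {s : ℕ} (hs : s ∈ D.C.S) : s ∉ P.C.S := Finset.disjoint_right.1 h.disj hs

theorem CylD_nP' (s : ℕ) : s + b ∉ P.C.S := fun p => absurd (h.ltP _ p) (by omega)

theorem CylD_nD' (s : ℕ) : s + b ∉ D.C.S := fun p => absurd (h.ltD _ p) (by omega)

theorem CylD_fam_P {W : Type} (u v w : ℕ → W) {s : ℕ} (hs : s ∈ P.C.S) :
    CylD_fam P b u v w s = u s := by
  rw [CylD_fam, if_neg (not_le.2 (h.ltP s hs)), if_pos hs]

theorem CylD_fam_D {W : Type} (u v w : ℕ → W) {s : ℕ} (hs : s ∈ D.C.S) :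
    CylD_fam P b u v w s = v s := by
  rw [CylD_fam, if_neg (not_le.2 (h.ltD s hs)), if_neg (h.CylD_nP hs)]

theorem CylD_dg_P {s : ℕ} (hs : s ∈ P.C.S) : CylD_dg P D b s = P.C.dg s := by
  rw [CylD_dg, if_neg (not_le.2 (h.ltP s hs)), if_pos hs]

theorem CylD_dg_D {s : ℕ} (hs : s ∈ D.C.S) : CylD_dg P D b s = D.C.dg s := by
  rw [CylD_dg, if_neg (not_le.2 (h.ltD s hs)), if_neg (h.CylD_nP hs)]

theorem CylD_δ_P {s : ℕ} (hs : s ∈ P.C.S) (r : ℕ) : CylD_δ P D b f s r = P.C.δ s r := by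
  rw [CylD_δ_old (h.ltP s hs), D.C.supp s r (Or.inl (h.CylD_nD hs)), add_zero]

theorem CylD_δ_D {s : ℕ} (hs : s ∈ D.C.S) (r : ℕ) : CylD_δ P D b f s r = D.C.δ s r := by
  rw [CylD_δ_old (h.ltD s hs), P.C.supp s r (Or.inl (h.CylD_nP hs)), zero_add]

theorem CylD_sum {W : Type} [AddCommMonoid W] (F : ℕ → W) :
    ∑ t ∈ CylD_S P D b, F t = ∑ t ∈ P.C.S, F t + ∑ t ∈ D.C.S, F t + ∑ t ∈ P.C.S, F (t + b) := by
  rw [CylD_S, Finset.sum_union, Finset.sum_union h.disj, CylD_sum_image]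
  refine Finset.disjoint_left.2 fun s hs p => ?_
  obtain ⟨t, -, rfl⟩ := Finset.mem_image.1 p
  exact (Finset.mem_union.1 hs).elim (h.CylD_nP' t) (h.CylD_nD' t)

section row
variable {W : Type} [AddCommGroup W] [Module (N A) W] (σ : N A →+* N A) (g : ℕ → W)

theorem CylD_row_old {s : ℕ} (hs : s < b) : ∑ t ∈ CylD_S P D b, σ (CylD_δ P D b f s t) • g t =
    ∑ t ∈ P.C.S, σ (P.C.δ s t) • g t + ∑ t ∈ D.C.S, σ (D.C.δ s t) • g t := by
  rw [h.CylD_sum, Finset.sum_eq_zero (s := P.C.S) (f := fun t => σ _ • g (t + b)), add_zero]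
  · congr 1
    · exact Finset.sum_congr rfl fun t ht => by
        rw [CylD_δ_old hs, D.C.supp s t (Or.inr (h.CylD_nD ht)), add_zero]
    · exact Finset.sum_congr rfl fun t ht => by
        rw [CylD_δ_old hs, P.C.supp s t (Or.inr (h.CylD_nP ht)), zero_add]
  · intro t _
    rw [CylD_δ_old hs, P.C.supp s _ (Or.inr (h.CylD_nP' t)), D.C.supp s _ (Or.inr (h.CylD_nD' t)),
      add_zero, map_zero, zero_smul]

theorem CylD_row_P {s : ℕ} (hs : s ∈ P.C.S) :
    ∑ t ∈ CylD_S P D b, σ (CylD_δ P D b f s t) • g t = ∑ t ∈ P.C.S, σ (P.C.δ s t) • g t := by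
  rw [h.CylD_row_old σ g (h.ltP s hs), Finset.sum_eq_zero (s := D.C.S), add_zero]
  intro t _
  rw [D.C.supp s t (Or.inl (h.CylD_nD hs)), map_zero, zero_smul]

theorem CylD_row_D {s : ℕ} (hs : s ∈ D.C.S) :
    ∑ t ∈ CylD_S P D b, σ (CylD_δ P D b f s t) • g t = ∑ t ∈ D.C.S, σ (D.C.δ s t) • g t := by
  rw [h.CylD_row_old σ g (h.ltD s hs), Finset.sum_eq_zero (s := P.C.S), zero_add]
  intro t _
  rw [P.C.supp s t (Or.inl (h.CylD_nP hs)), map_zero, zero_smul]

theorem CylD_row_new {s : ℕ} (hs : s ∈ P.C.S) :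
    ∑ t ∈ CylD_S P D b, σ (CylD_δ P D b f (s + b) t) • g t =
      -g s + ∑ t ∈ D.C.S, σ ((f s).1 t) • g t -
        ∑ t ∈ P.C.S, σ (N.sg (P.C.δ s t)) • g (t + b) := by
  rw [h.CylD_sum, sub_eq_add_neg, ← Finset.sum_neg_distrib]
  congr 1
  · congr 1
    · rw [Finset.sum_eq_single_of_mem s hs]
      · rw [CylD_δ_no hs (h.ltP s hs), (f s).2 s (h.CylD_nD hs), if_pos rfl, zero_sub, map_neg,
          map_one, neg_smul, one_smul]
      · intro t ht e
        rw [CylD_δ_no hs (h.ltP t ht), (f s).2 t (h.CylD_nD ht), if_neg e, sub_zero, map_zero,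
          zero_smul]
    · refine Finset.sum_congr rfl fun t ht => ?_
      rw [CylD_δ_no hs (h.ltD t ht), if_neg (fun e : t = s => h.CylD_nP ht (e ▸ hs)), sub_zero]
  · refine Finset.sum_congr rfl fun t _ => ?_
    rw [CylD_δ_nn hs, map_neg, neg_smul]

end row

theorem CylD_hg (s r : ℕ) :
    N.Hg (CylD_dg P D b s - 1 - CylD_dg P D b r) (CylD_δ P D b f s r) := by
  rcases CylD_split b s with hs | ⟨s, rfl⟩
  · rw [CylD_δ_old hs]
    refine N.Hg.add ?_ ?_
    · by_cases e : P.C.δ s r = 0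
      · rw [e]
        exact N.hg_zero _ _
      · rw [h.CylD_dg_P (P.C.lt_of_ne e).1, h.CylD_dg_P (P.C.lt_of_ne e).2.1]
        exact P.C.hg s r
    · by_cases e : D.C.δ s r = 0
      · rw [e]
        exact N.hg_zero _ _
      · rw [h.CylD_dg_D (D.C.lt_of_ne e).1, h.CylD_dg_D (D.C.lt_of_ne e).2.1]
        exact D.C.hg s r
  · by_cases hs : s ∈ P.C.S
    · rcases CylD_split b r with hr | ⟨r, rfl⟩
      · rw [CylD_δ_no hs hr, CylD_dg_new, sub_eq_add_neg ((f s).1 r)]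
        refine N.Hg.add ?_ (N.Hg.neg ?_)
        · by_cases e : r ∈ D.C.S
          · rw [h.CylD_dg_D e]
            exact CylD_hg_cast (h.lift.f_gr s hs r) (by ring)
          · rw [(f s).2 r e]
            exact N.hg_zero _ _
        · split_ifs with e
          · rw [e, h.CylD_dg_P hs]
            exact CylD_hg_cast CylD_hg_one (by ring)
          · exact N.hg_zero _ _
      · rw [CylD_δ_nn hs, CylD_dg_new, CylD_dg_new]
        exact CylD_hg_cast (P.C.hg s r).sg.neg (by ring)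
    · rw [CylD_δ_z hs]
      exact N.hg_zero _ _

omit h in
theorem CylD_supp (s r : ℕ) (e : s ∉ CylD_S P D b ∨ r ∉ CylD_S P D b) :
    CylD_δ P D b f s r = 0 := by
  rcases CylD_split b s with hs | ⟨s, rfl⟩
  · rw [CylD_δ_old hs, P.C.supp s r (e.imp (mt CylD_memP) (mt CylD_memP)),
      D.C.supp s r (e.imp (mt CylD_memD) (mt CylD_memD)), add_zero]
  · by_cases hs : s ∈ P.C.S
    · have hr := e.resolve_left (not_not.2 (CylD_memN hs))
      rcases CylD_split b r with hr' | ⟨r, rfl⟩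
      · rw [CylD_δ_no hs hr', (f s).2 r (mt CylD_memD hr),
          if_neg (fun p : r = s => hr (CylD_memP (p ▸ hs))), sub_zero]
      · rw [CylD_δ_nn hs, P.C.supp s r (Or.inr (mt CylD_memN hr)), map_zero, neg_zero]
    · exact CylD_δ_z hs r

theorem CylD_mc (s r : ℕ) : N.bd (CylD_δ P D b f s r) +
    ∑ t ∈ CylD_S P D b, N.sg (CylD_δ P D b f s t) * CylD_δ P D b f t r = 0 := by
  have eP : ∀ u : ℕ → N A, ∑ t ∈ P.C.S, u t • CylD_δ P D b f t r = ∑ t ∈ P.C.S, u t * P.C.δ t r :=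
    fun u => Finset.sum_congr rfl fun t ht => by rw [h.CylD_δ_P ht, smul_eq_mul]
  have eD : ∀ u : ℕ → N A, ∑ t ∈ D.C.S, u t • CylD_δ P D b f t r = ∑ t ∈ D.C.S, u t * D.C.δ t r :=
    fun u => Finset.sum_congr rfl fun t ht => by rw [h.CylD_δ_D ht, smul_eq_mul]
  rcases CylD_split b s with hs | ⟨s, rfl⟩
  · have e := h.CylD_row_old N.sg (fun t => CylD_δ P D b f t r) hs
    rw [eP, eD] at e
    simp only [smul_eq_mul] at e
    rw [e, CylD_δ_old hs, map_add, add_add_add_comm, P.C.mc, D.C.mc, add_zero]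
  · by_cases hs : s ∈ P.C.S
    · have e := h.CylD_row_new N.sg (fun t => CylD_δ P D b f t r) hs
      rw [eD, h.CylD_δ_P hs] at e
      simp only [smul_eq_mul, N.sg_sg] at e
      rw [e]
      rcases CylD_split b r with hr | ⟨r, rfl⟩
      · have e1 : N.bd ((f s).1 r) + ∑ t ∈ D.C.S, N.sg ((f s).1 t) * D.C.δ t r =
            ∑ t ∈ P.C.S, P.C.δ s t * (f t).1 r := by
          have e2 := congrFun (congrArg Subtype.val (h.lift.f_d s hs)) r
          rw [← Cel.D_apply]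
          refine e2.trans ?_
          rw [AddSubmonoidClass.coe_finsetSum, Finset.sum_apply]
          rfl
        have e2 : ∑ t ∈ P.C.S, P.C.δ s t * CylD_δ P D b f (t + b) r =
            ∑ t ∈ P.C.S, P.C.δ s t * (f t).1 r - P.C.δ s r := by
          rw [Finset.sum_congr rfl fun t ht => by rw [CylD_δ_no ht hr, mul_sub],
            Finset.sum_sub_distrib]
          congr 1
          simp only [mul_ite, mul_one, mul_zero, Finset.sum_ite_eq]
          split_ifs with p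
          · rfl
          · exact (P.C.supp s r (Or.inr p)).symm
        have e3 : N.bd (CylD_δ P D b f (s + b) r) = N.bd ((f s).1 r) := by
          rw [CylD_δ_no hs hr, map_sub]
          split_ifs
          · rw [CylD_bd_one, sub_zero]
          · rw [map_zero, sub_zero]
        rw [e2, e3, ← e1]
        abel
      · have e1 := congrArg N.sg (P.C.mc s r)
        rw [map_add, map_sum, map_zero] at e1
        simp only [map_mul, N.sg_sg] at e1
        have e2 : ∑ t ∈ P.C.S, P.C.δ s t * CylD_δ P D b f (t + b) (r + b) =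
            -∑ t ∈ P.C.S, P.C.δ s t * N.sg (P.C.δ t r) := by
          rw [← Finset.sum_neg_distrib]
          exact Finset.sum_congr rfl fun t ht => by rw [CylD_δ_nn ht, mul_neg]
        rw [e2, CylD_δ_nn hs, map_neg, N.bd_sg, P.C.supp s _ (Or.inr (h.CylD_nP' r)),
          Finset.sum_eq_zero (s := D.C.S) fun t _ => by
            rw [D.C.supp t _ (Or.inr (h.CylD_nD' r)), mul_zero], ← e1]
        abel
    · simp only [CylD_δ_z hs, map_zero, zero_mul, Finset.sum_const_zero, add_zero]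

theorem CylD_gr (s : ℕ) (hs : s ∈ CylD_S P D b) :
    CylD_fam P b P.p D.p H s ∈ M.gr (CylD_dg P D b s) := by
  replace hs := CylD_cases hs
  rcases hs with hs | hs | ⟨s, hs, rfl⟩
  · rw [h.CylD_fam_P _ _ _ hs, h.CylD_dg_P hs]
    exact P.gr s hs
  · rw [h.CylD_fam_D _ _ _ hs, h.CylD_dg_D hs]
    exact D.gr s hs
  · rw [CylD_fam_new, CylD_dg_new]
    exact h.lift.H_gr s hs

theorem CylD_d_p (s : ℕ) (hs : s ∈ CylD_S P D b) : M.d (CylD_fam P b P.p D.p H s) =
    ∑ r ∈ CylD_S P D b, CylD_δ P D b f s r • CylD_fam P b P.p D.p H r := by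
  replace hs := CylD_cases hs
  rcases hs with hs | hs | ⟨s, hs, rfl⟩
  · refine Eq.trans ?_ (h.CylD_row_P (RingHom.id _) _ hs).symm
    rw [h.CylD_fam_P _ _ _ hs, P.d_p s hs]
    exact Finset.sum_congr rfl fun t ht => by rw [h.CylD_fam_P _ _ _ ht, RingHom.id_apply]
  · refine Eq.trans ?_ (h.CylD_row_D (RingHom.id _) _ hs).symm
    rw [h.CylD_fam_D _ _ _ hs, D.d_p s hs]
    exact Finset.sum_congr rfl fun t ht => by rw [h.CylD_fam_D _ _ _ ht, RingHom.id_apply]
  · refine Eq.trans ?_ (h.CylD_row_new (RingHom.id _) _ hs).symm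
    have e := h.lift.H_d s hs
    rw [hom_apply] at e
    rw [h.CylD_fam_P _ _ _ hs, Finset.sum_congr (s₁ := D.C.S) rfl fun t ht => by
      rw [h.CylD_fam_D _ _ _ ht]]
    simp only [CylD_fam_new, RingHom.id_apply]
    rw [neg_add_eq_sub, e, add_sub_cancel_right]

end CylOk

/-- The cells of the mapping cylinder: those of `P`, those of `D` and a cell `s + b` with boundary
`f s - s - ∑ sg (δ s r) • (r + b)` for every cell `s` of `P`. -/
@[reducible] noncomputable def CylOk.cel (h : CylOk P D b f H) : Cel A where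
  S := P.C.S ∪ D.C.S ∪ P.C.S.image (· + b)
  dg s := if b ≤ s then P.C.dg (s - b) + 1 else if s ∈ P.C.S then P.C.dg s else D.C.dg s
  δ s r := if b ≤ s then
      (if s - b ∈ P.C.S then (if b ≤ r then -N.sg (P.C.δ (s - b) (r - b))
        else (f (s - b)).1 r - if r = s - b then 1 else 0) else 0)
    else P.C.δ s r + D.C.δ s r
  hg := h.CylD_hg
  supp := CylOk.CylD_supp
  mc := h.CylD_mc

/-- The mapping cylinder. -/
@[reducible] noncomputable def CylOk.cyl (h : CylOk P D b f H) : PD M where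
  C := h.cel
  p s := if b ≤ s then H (s - b) else if s ∈ P.C.S then P.p s else D.p s
  gr := h.CylD_gr
  d_p := h.CylD_d_p

theorem CylOk.left_le (h : CylOk P D b f H) : P ≤ h.cyl :=
  ⟨⟨fun _ hs => CylD_memP hs, fun _ hs => ⟨(h.CylD_dg_P hs).symm, fun r => (h.CylD_δ_P hs r).symm⟩⟩,
    fun _ hs => (h.CylD_fam_P P.p D.p H hs).symm⟩

theorem CylOk.right_le (h : CylOk P D b f H) : D ≤ h.cyl :=
  ⟨⟨fun _ hs => CylD_memD hs, fun _ hs => ⟨(h.CylD_dg_D hs).symm, fun r => (h.CylD_δ_D hs r).symm⟩⟩,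
    fun _ hs => (h.CylD_fam_D P.p D.p H hs).symm⟩

theorem CylOk.CylD_Hd (h : CylOk P D b f H) (s : ℕ) (hs : s ∈ CylD_S P D b) (ρ : ℕ → D.C.V)
    (ρP : ∀ t ∈ P.C.S, ρ t = f t) (ρD : ∀ t ∈ D.C.S, ρ t = D.C.e t) (ρN : ∀ t, ρ (t + b) = 0)
    (K : ℕ → h.cel.V) (KP : ∀ t ∈ P.C.S, K t = h.cel.e (t + b)) (KD : ∀ t ∈ D.C.S, K t = 0)
    (KN : ∀ t, K (t + b) = 0) :
    ((Cel.incl h.right_le.1).toFun (ρ s) : h.cel.V) - h.cel.e s =
      h.cel.D (K s) + ∑ r ∈ CylD_S P D b, N.sg (CylD_δ P D b f s r) • K r := by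
  replace hs := CylD_cases hs
  rcases hs with hs | hs | ⟨s, hs, rfl⟩
  · have e1 : (Cel.incl h.right_le.1).toFun (f s) = ∑ t ∈ D.C.S, (f s).1 t • h.cel.e t := by
      conv_lhs => rw [← D.C.sum_e (f s)]
      rw [map_sum]
      exact Finset.sum_congr rfl fun t ht => by
        rw [(Cel.incl h.right_le.1).map_smul, Cel.incl_e _ ht, N.map_id]
    have e2 : h.cel.D (h.cel.e (s + b)) = _ :=
      (h.cel.D_e (s + b)).trans (h.CylD_row_new (RingHom.id _) h.cel.e hs)
    have e3 : ∑ t ∈ P.C.S, N.sg (P.C.δ s t) • K t =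
        ∑ t ∈ P.C.S, N.sg (P.C.δ s t) • h.cel.e (t + b) :=
      Finset.sum_congr rfl fun t ht => by rw [KP t ht]
    rw [h.CylD_row_P N.sg K hs, ρP s hs, KP s hs, e1, e2, e3]
    simp only [RingHom.id_apply]
    abel
  · rw [h.CylD_row_D N.sg K hs, ρD s hs, KD s hs, Cel.incl_e _ hs, map_zero,
      Finset.sum_eq_zero fun t ht => by rw [KD t ht, smul_zero], sub_self, add_zero]
  · rw [h.CylD_row_new N.sg K hs, KP s hs,
      Finset.sum_eq_zero (s := D.C.S) fun t ht => by rw [KD t ht, smul_zero]]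
    simp only [ρN, KN, smul_zero, Finset.sum_const_zero, map_zero]
    abel

/-- The cylinder retracts onto `D`. -/
theorem CylOk.CylD_retr (h : CylOk P D b f H) : IsLift (Cel.incl h.right_le.1) (taut h.cel)
    (CylD_fam P b f D.C.e fun _ => 0)
    (CylD_fam P b (fun s => h.cel.e (s + b)) (fun _ => 0) fun _ => 0) where
  f_gr s hs := by
    change _ ∈ D.C.gr (CylD_dg P D b s)
    replace hs := CylD_cases hs
    rcases hs with hs | hs | ⟨s, hs, rfl⟩
    · rw [h.CylD_fam_P _ _ _ hs, h.CylD_dg_P hs]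
      exact h.lift.f_gr s hs
    · rw [h.CylD_fam_D _ _ _ hs, h.CylD_dg_D hs]
      exact D.C.e_gr s
    · rw [CylD_fam_new]
      exact zero_mem _
  f_d s hs := by
    replace hs := CylD_cases hs
    rcases hs with hs | hs | ⟨s, hs, rfl⟩
    · refine Eq.trans ?_ (h.CylD_row_P (RingHom.id _) _ hs).symm
      rw [h.CylD_fam_P _ _ _ hs, h.lift.f_d s hs]
      exact Finset.sum_congr rfl fun t ht => by rw [h.CylD_fam_P _ _ _ ht, RingHom.id_apply]
    · refine Eq.trans ?_ (h.CylD_row_D (RingHom.id _) _ hs).symm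
      rw [h.CylD_fam_D _ _ _ hs]
      refine (D.C.D_e s).trans ?_
      exact Finset.sum_congr rfl fun t ht => by rw [h.CylD_fam_D _ _ _ ht, RingHom.id_apply]
    · refine Eq.trans ?_ (h.CylD_row_new (RingHom.id _) _ hs).symm
      rw [h.CylD_fam_P _ _ _ hs, Finset.sum_congr (s₁ := D.C.S) rfl fun t ht => by
        rw [h.CylD_fam_D _ _ _ ht]]
      simp only [CylD_fam_new, RingHom.id_apply, smul_zero, Finset.sum_const_zero, map_zero]
      rw [D.C.sum_e, neg_add_cancel, sub_zero]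
  H_gr s hs := by
    change _ ∈ h.cel.gr (CylD_dg P D b s + 1)
    replace hs := CylD_cases hs
    rcases hs with hs | hs | ⟨s, hs, rfl⟩
    · rw [h.CylD_fam_P _ _ _ hs, h.CylD_dg_P hs, ← CylD_dg_new (D := D) (b := b)]
      exact h.cel.e_gr (s + b)
    · rw [h.CylD_fam_D _ _ _ hs]
      exact zero_mem _
    · rw [CylD_fam_new]
      exact zero_mem _
  H_d s hs := by
    have hs' : s ∈ CylD_S P D b := hs
    exact h.CylD_Hd s hs' _ (fun t ht => h.CylD_fam_P _ _ _ ht) (fun t ht => h.CylD_fam_D _ _ _ ht)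
      (fun t => CylD_fam_new _ _ _ t) _ (fun t ht => h.CylD_fam_P _ _ _ ht)
      (fun t ht => h.CylD_fam_D _ _ _ ht) fun t => CylD_fam_new _ _ _ t

theorem CylOk.qi (h : CylOk P D b f H) (hD : D.QI) : h.cyl.QI := by
  refine DG.Hom.QI.tri_right (hom_incl h.right_le) hD (DG.Hom.qi_iff'.2 fun k => ⟨?_, ?_⟩)
  · intro y hy
    have e := h.CylD_retr.bdry hy
    rw [taut_hom] at e
    exact ⟨_, h.CylD_retr.pd.hom.cycle hy, e⟩
  · intro x hx e
    refine (DG.Hom.qi_iff'.1 hD k).2 x hx ?_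
    rw [hom_incl h.right_le]
    exact h.cyl.hom.bdry e

/-- Inclusions of cylinders. -/
theorem CylOk.cel_le {M' : DG A} {P' D' : PD M'} {f' : ℕ → D'.C.V} {H' : ℕ → M'.V}
    (h : CylOk P D b f H) (h' : CylOk P' D' b f' H') (eP : P.C ≤ P'.C) (eD : D.C ≤ D'.C)
    (ef : ∀ s ∈ P.C.S, (f s).1 = (f' s).1) : h.cel ≤ h'.cel := by
  refine ⟨Finset.union_subset_union (Finset.union_subset_union eP.1 eD.1)
    (Finset.image_subset_image eP.1), fun s hs => ?_⟩
  change CylD_dg P D b s = CylD_dg P' D' b s ∧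
    ∀ r, CylD_δ P D b f s r = CylD_δ P' D' b f' s r
  replace hs := CylD_cases hs
  rcases hs with hs | hs | ⟨s, hs, rfl⟩
  · rw [h.CylD_dg_P hs, h'.CylD_dg_P (eP.1 hs)]
    exact ⟨(eP.2 s hs).1, fun r => by
      rw [h.CylD_δ_P hs, h'.CylD_δ_P (eP.1 hs), (eP.2 s hs).2]⟩
  · rw [h.CylD_dg_D hs, h'.CylD_dg_D (eD.1 hs)]
    exact ⟨(eD.2 s hs).1, fun r => by
      rw [h.CylD_δ_D hs, h'.CylD_δ_D (eD.1 hs), (eD.2 s hs).2]⟩
  · rw [CylD_dg_new, CylD_dg_new, (eP.2 s hs).1]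
    refine ⟨rfl, fun r => ?_⟩
    rcases CylD_split b r with hr | ⟨r, rfl⟩
    · rw [CylD_δ_no hs hr, CylD_δ_no (eP.1 hs) hr, ef s hs]
    · rw [CylD_δ_nn hs, CylD_δ_nn (eP.1 hs), (eP.2 s hs).2]

end PD

end Pool.Agent.P.MP_932208_ag.Ax
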