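import Pool.Agent.P.MP_932208_ag.Ex.TorsD

/-!
Abstract connective dg rings `R` with central degree zero part `K`; twisted matrices over them.
Matrices act on row vectors.
-/

namespace Pool.Agent.P.MP_932208_ag.Ax

open Classical

/-- A connective dg ring structure on `R` whose degree zero part is the commutative ring `K`. -/
structure DR (R : Type) [Ring R] (K : Type) [CommRing K] where
  d : R →+ R
  e : R →+* R
  Hg : ℤ → R → Prop
  inc : K →+* R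
  ev : R →+* K
  hg_zero : ∀ k, Hg k 0
  hg_add : ∀ {k x y}, Hg k x → Hg k y → Hg k (x + y)
  hg_neg : ∀ {k x}, Hg k x → Hg k (-x)
  hg_mul : ∀ {p q x y}, Hg p x → Hg q y → Hg (p + q) (x * y)
  hg_d : ∀ {k x}, Hg k x → Hg (k - 1) (d x)
  hg_e : ∀ {k x}, Hg k x → Hg k (e x)
  eq_zero : ∀ {k x}, k < 0 → Hg k x → x = 0
  hg_inc : ∀ a, Hg 0 (inc a)
  inc_ev : ∀ {x}, Hg 0 x → inc (ev x) = x
  ev_inc : ∀ a, ev (inc a) = a
  ev_pos : ∀ {k x}, k ≠ 0 → Hg k x → ev x = 0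
  e_even : ∀ {k x}, Even k → Hg k x → e x = x
  e_odd : ∀ {k x}, Odd k → Hg k x → e x = -x
  e_e : ∀ x, e (e x) = x
  ev_e : ∀ x, ev (e x) = ev x
  d_e : ∀ x, d (e x) = -e (d x)
  d_mul : ∀ x y, d (x * y) = d x * y + e x * d y
  d_d : ∀ x, d (d x) = 0
  inc_comm : ∀ a x, inc a * x = x * inc a

namespace DR

variable {R : Type} [Ring R] {K : Type} [CommRing K] (Γ : DR R K)
variable {U W : Type}

theorem hg_sub {k x y} (hx : Γ.Hg k x) (hy : Γ.Hg k y) : Γ.Hg k (x - y) := by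
  rw [sub_eq_add_neg]; exact Γ.hg_add hx (Γ.hg_neg hy)

theorem hg_sum {ι : Type*} {k} (s : Finset ι) {x : ι → R} (h : ∀ i ∈ s, Γ.Hg k (x i)) :
    Γ.Hg k (∑ i ∈ s, x i) :=
  Finset.sum_induction _ (Γ.Hg k) (fun _ _ => Γ.hg_add) (Γ.hg_zero k) h

theorem hg_one : Γ.Hg 0 1 := by simpa using Γ.hg_inc 1

theorem hg_cast {k k' x} (h : Γ.Hg k x) (e : k = k') : Γ.Hg k' x := e ▸ h

theorem d_inc (a : K) : Γ.d (Γ.inc a) = 0 := Γ.eq_zero (by norm_num) (Γ.hg_d (Γ.hg_inc a))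

theorem e_inc (a : K) : Γ.e (Γ.inc a) = Γ.inc a := Γ.e_even (by simp) (Γ.hg_inc a)

theorem d_one : Γ.d 1 = 0 := by simpa using Γ.d_inc 1

/-- The differential of the element `∑ x s • s` of the semi-free module given by `δ`. -/
noncomputable def dv [Fintype U] (δ : Matrix U U R) (x : U → R) : U → R :=
  fun r => Γ.d (x r) + ∑ s, Γ.e (x s) * δ s r

/-- The differential applied to all rows of `φ`. -/
noncomputable def dM [Fintype U] (δ : Matrix U U R) (φ : Matrix W U R) : Matrix W U R :=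
  φ.map Γ.d + φ.map Γ.e * δ

theorem dM_apply [Fintype U] (δ : Matrix U U R) (φ : Matrix W U R) (w : W) :
    Γ.dM δ φ w = Γ.dv δ (φ w) := rfl

/-- The differential in the basis `φ`, if `φ` is a strictification. -/
noncomputable def sd [Fintype U] (δ φ : Matrix U U R) : Matrix U U K := (Γ.dM δ φ).map Γ.ev

/-- The defect of `φ` to be a strictification. -/
noncomputable def res [Fintype U] (δ φ : Matrix U U R) : Matrix U U R :=
  Γ.dM δ φ - (Γ.sd δ φ).map Γ.inc * φ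

/-- Homogeneous vector of degree `q`. -/
def Hv (dg : U → ℤ) (q : ℤ) (x : U → R) : Prop := ∀ s, Γ.Hg (q - dg s) (x s)

/-- Homogeneous matrix of degree `k`. -/
def HM (dW : W → ℤ) (dU : U → ℤ) (k : ℤ) (φ : Matrix W U R) : Prop :=
  ∀ w, Γ.Hv dU (dW w + k) (φ w)

/-- Acyclic semi-free module. -/
def Acyc [Fintype U] (dg : U → ℤ) (δ : Matrix U U R) : Prop :=
  ∀ q x, Γ.Hv dg q x → Γ.dv δ x = 0 → ∃ y, Γ.Hv dg (q + 1) y ∧ Γ.dv δ y = x

/-- The ideal of boundaries in degree zero; `K / J = π_0`. -/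
def J : Ideal K where
  carrier := {a | ∃ x, Γ.Hg 1 x ∧ Γ.ev (Γ.d x) = a}
  add_mem' := by
    rintro _ _ ⟨x, hx, rfl⟩ ⟨y, hy, rfl⟩
    exact ⟨x + y, Γ.hg_add hx hy, by simp⟩
  zero_mem' := ⟨0, Γ.hg_zero 1, by simp⟩
  smul_mem' := by
    rintro a _ ⟨x, hx, rfl⟩
    refine ⟨Γ.inc a * x, Γ.hg_cast (Γ.hg_mul (Γ.hg_inc a) hx) (by norm_num), ?_⟩
    rw [Γ.d_mul, Γ.d_inc, Γ.e_inc]; simp [Γ.ev_inc]

/-- `J` lies in the Jacobson radical. -/
def Sat : Prop := ∀ a ∈ Γ.J, IsUnit (1 + a)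

/-- A two-sided ideal stable under the differential and the sign. -/
def DI (I : TwoSidedIdeal R) : Prop := (∀ x ∈ I, Γ.d x ∈ I) ∧ ∀ x ∈ I, Γ.e x ∈ I

/-- A map of dg rings. -/
structure IsHom {R' : Type} [Ring R'] {K' : Type} [CommRing K'] (Γ' : DR R' K')
    (g : R →+* R') (g₀ : K →+* K') : Prop where
  d : ∀ x, g (Γ.d x) = Γ'.d (g x)
  e : ∀ x, g (Γ.e x) = Γ'.e (g x)
  hg : ∀ {k x}, Γ.Hg k x → Γ'.Hg k (g x)
  inc : ∀ a, g (Γ.inc a) = Γ'.inc (g₀ a)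
  ev : ∀ x, g₀ (Γ.ev x) = Γ'.ev (g x)

end DR

/-- The block `π × π` of the complex `δ₀` is contractible modulo the ideal `J`. -/
def Ex0 {U K : Type} [Fintype U] [CommRing K] (J : Ideal K) (dg : U → ℤ) (δ₀ : Matrix U U K)
    (π : U → Prop) : Prop :=
  ∃ h : Matrix U U K, (∀ s r, h s r ≠ 0 → π s ∧ π r ∧ dg r = dg s + 1) ∧
    ∀ s r, π s → π r → (δ₀ * h + h * δ₀ - 1) s r ∈ J

end Pool.Agent.P.MP_932208_ag.Ax
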