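import Pool.Agent.P.MP_932208_ag.Ex.Simp2

/-!
A map of bisimplicial abelian groups that is an equivalence on the second page is a weak
equivalence on the diagonal.
-/

namespace Pool.Agent.P.MP_932208_ag.Ax

/-- The spherical simplices form a subgroup. -/
def SAb.sph (X : SAb) (n : ℕ) : AddSubgroup (X.obj n) where
  carrier := {x | X.Sph x}
  add_mem' := fun {x y} hx hy => by
    have h := SAb.Sph.sub hx (SAb.Sph.sub (X.bd_zero n).sph hy)
    rwa [zero_sub, sub_neg_eq_add] at h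
  zero_mem' := (X.bd_zero n).sph
  neg_mem' := fun {x} hx => by
    have h := SAb.Sph.sub (X.bd_zero n).sph hx
    rwa [zero_sub] at h

theorem SAb.mem_sph {X : SAb} {n : ℕ} {x : X.obj n} : x ∈ X.sph n ↔ X.Sph x := Iff.rfl

theorem E2_plus_face {n : ℕ} (i : Fin (n + 2)) : BAb.s2_plus (face i) = face i.succ := by
  refine OrderHom.ext _ _ (funext fun a => ?_)
  induction a using Fin.cases with
  | zero => exact (Fin.succ_succAbove_zero i).symm
  | succ a => exact (Fin.succ_succAbove_succ i a).symm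

theorem E2_face_one : (face (Fin.succ 0) : Op 0 1) = vert 0 0 := by
  refine OrderHom.ext _ _ (funext fun a => ?_)
  fin_cases a
  rfl

namespace SAb
variable {X Y Z : SAb}

/-- The boundaries form a subgroup. -/
def E2_bd (X : SAb) (n : ℕ) : AddSubgroup (X.obj n) where
  carrier := {x | X.Bd x}
  add_mem' := Bd.add
  zero_mem' := X.bd_zero n
  neg_mem' := Bd.neg

/-- The map on spherical simplices. -/
def E2_sphMap (f : X.Hom Y) (n : ℕ) : X.sph n →+ Y.sph n :=
  AddMonoidHom.mk' (fun x => ⟨f.app n x.1, Sph.map f x.2⟩)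
    fun x y => Subtype.ext (map_add (f.app n) x.1 y.1)

theorem E2_sph_of_inj (f : X.Hom Y) (inj : ∀ n, Function.Injective (f.app n)) {n : ℕ}
    {x : X.obj n} (h : Y.Sph (f.app n x)) : X.Sph x := by
  cases n with
  | zero => trivial
  | succ m => exact fun i => inj m (by rw [f.nat, h i, map_zero])

theorem E2_moore_of_inj (f : X.Hom Y) (inj : ∀ n, Function.Injective (f.app n)) {n : ℕ}
    {x : X.obj n} (h : Y.Moore (f.app n x)) : X.Moore x := by
  cases n with
  | zero => trivial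
  | succ m => exact fun i => inj m (by rw [f.nat, h i, map_zero])

/-- An injection is a weak equivalence if and only if its cokernel is acyclic. -/
theorem E2_we_iff (f : X.Hom Y) (p : Y.Hom Z) (inj : ∀ n, Function.Injective (f.app n))
    (sj : ∀ n, Function.Surjective (p.app n))
    (ex : ∀ n y, p.app n y = 0 ↔ ∃ x, f.app n x = y) : f.WE ↔ Z.Acyc := by
  have pf : ∀ n x, p.app n (f.app n x) = 0 := fun n x => (ex n _).2 ⟨x, rfl⟩
  constructor
  · intro h n z hz
    obtain ⟨y, hy, rfl⟩ := p.moore_lift sj hz.moore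
    have key : ∀ y' : Y.obj n, Y.Sph y' → Z.Bd (p.app n y') := fun y' hy' => by
      obtain ⟨x, -, hx⟩ := (h n).1 y' hy'
      have h1 := (hx.map p).neg
      rwa [map_sub, pf, zero_sub, neg_neg] at h1
    cases n with
    | zero => exact key y trivial
    | succ m =>
      obtain ⟨k, hk⟩ := (ex m (Y.map (face 0) y)).1 (by rw [p.nat, hz 0])
      have hb : Y.Bd (f.app m k) := ⟨y, hy, hk.symm⟩
      obtain ⟨k', hk', h0⟩ := (h m).2 k (E2_sph_of_inj f inj hb.sph) hb
      have h1 := key (y - f.app _ k')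
        (s1_sph_of (hy.sub (hk'.map f)) (by rw [map_sub, ← f.nat, h0, hk, sub_self]))
      rwa [map_sub, pf, sub_zero] at h1
  · intro h n
    refine ⟨fun y hy => ?_, fun k hk hb => ?_⟩
    · obtain ⟨z, hz, h0⟩ := h n _ (hy.map p)
      obtain ⟨x, hx, rfl⟩ := p.moore_lift sj hz
      have hb : Y.Bd (Y.map (face 0) x) := ⟨x, hx, rfl⟩
      obtain ⟨k, hk⟩ := (ex n (y - Y.map (face 0) x)).1 (by rw [map_sub, p.nat, h0, sub_self])
      refine ⟨k, E2_sph_of_inj f inj (hk ▸ hy.sub hb.sph), ?_⟩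
      rw [hk, sub_sub_cancel_left]
      exact hb.neg
    · obtain ⟨x, hx, h0⟩ := hb
      obtain ⟨z, hz, h1⟩ := h (n + 1) _ (s1_sph_of (hx.map p) (by rw [← p.nat, h0, pf]))
      obtain ⟨x', hx', rfl⟩ := p.moore_lift sj hz
      have hb : Y.Sph (Y.map (face 0) x') := Bd.sph ⟨x', hx', rfl⟩
      obtain ⟨k', hk'⟩ := (ex (n + 1) (x - Y.map (face 0) x')).1
        (by rw [map_sub, p.nat, h1, sub_self])
      refine ⟨k', E2_moore_of_inj f inj (hk' ▸ hx.sub hb.moore), inj n ?_⟩
      rw [f.nat, hk', map_sub, hb 0, sub_zero, h0]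

/-- The cokernel. -/
@[reducible] def E2_coker (f : X.Hom Y) : SAb where
  obj n := Y.obj n ⧸ (f.app n).range
  map θ := QuotientAddGroup.map _ _ (Y.map θ) (by
    rintro _ ⟨x, rfl⟩
    exact ⟨X.map θ x, f.nat θ x⟩)
  map_id n x := QuotientAddGroup.induction_on x fun y => congrArg _ (Y.map_id n y)
  map_comp θ η x := QuotientAddGroup.induction_on x fun y => congrArg _ (Y.map_comp θ η y)

/-- The projection to the cokernel. -/
def E2_mk (f : X.Hom Y) : Y.Hom (E2_coker f) where
  app _ := QuotientAddGroup.mk' _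
  nat _ _ := rfl

theorem E2_coker_acyc (f : X.Hom Y) (inj : ∀ n, Function.Injective (f.app n)) (h : f.WE) :
    (E2_coker f).Acyc :=
  (E2_we_iff f (E2_mk f) inj (fun _ => QuotientAddGroup.mk'_surjective _)
    fun _ y => QuotientAddGroup.eq_zero_iff y).1 h

/-- All vertices of a simplex are congruent. -/
theorem E2_vtx (Y : SAb) {m : ℕ} (x : Y.obj m) (a : Fin (m + 1)) :
    Y.Bd (Y.map (vert 0 a) x - Y.map (vert 0 0) x) := by
  let e : Op 1 m :=
    ⟨Fin.cases 0 fun _ => a, fun s t hst => by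
      induction s using Fin.cases with
      | zero => exact Fin.zero_le _
      | succ s =>
        induction t using Fin.cases with
        | zero => exact absurd hst (not_le.2 (Fin.succ_pos s))
        | succ t => exact le_rfl⟩
  refine s1_double (n := 0) trivial trivial 0 (Y.map e x) (fun i hi => ?_) (fun i hi => ?_)
    fun i h1 h2 => ?_
  · obtain rfl : i = 0 := Fin.ext hi
    rw [Y.map_comp]
    congr 2
  · obtain rfl : i = Fin.succ 0 := Fin.ext hi
    rw [Y.map_comp, E2_face_one]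
    congr 2
  · have := i.2
    simp only [Fin.val_zero] at h1 h2
    omega

/-- The diagram chase of the induction step. -/
theorem E2_chase {P C : SAb} (d : P.Hom X) (p : X.Hom C)
    (sj : ∀ n, Function.Surjective (p.app n)) (ex : ∀ n x, p.app n x = 0 → ∃ y, d.app n y = x)
    (dp : ∀ n y, p.app n (d.app n y) = 0) (hC : C.Acyc) (hP : P.Acyc) (r : ℕ)
    (hK : ∀ k, k + 1 = r → ∀ y : d.ker.ab.obj k, d.ker.ab.Sph y → d.ker.ab.Bd y)
    (x : X.obj r) (hx : X.Sph x) : X.Bd x := by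
  obtain ⟨c, hc, h0⟩ := hC r _ (hx.map p)
  obtain ⟨w, hw, rfl⟩ := p.moore_lift sj hc
  have hb : X.Bd (X.map (face 0) w) := ⟨w, hw, rfl⟩
  have h1 : p.app r (x - X.map (face 0) w) = 0 := by rw [map_sub, p.nat, h0, sub_self]
  have h2 := hx.sub hb.sph
  suffices h : X.Bd (x - X.map (face 0) w) by
    have h3 := h.add hb
    rwa [sub_add_cancel] at h3
  generalize x - X.map (face 0) w = x' at h1 h2
  let d' : P.Hom p.ker.ab :=
    ⟨fun n => AddMonoidHom.mk' (fun y => ⟨d.app n y, dp n y⟩)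
      fun y y' => Subtype.ext (map_add (d.app n) y y'), fun θ y => Subtype.ext (d.nat θ y)⟩
  have hm : p.ker.ab.Moore (n := r) ⟨x', h1⟩ := by
    cases r with
    | zero => trivial
    | succ r => exact fun i => Subtype.ext (h2 i.succ)
  obtain ⟨y, hy, hy'⟩ := d'.moore_lift
    (fun n x => (ex n x.1 x.2).imp fun y hy => Subtype.ext hy) hm
  obtain rfl : d.app r y = x' := congrArg Subtype.val hy'
  cases r with
  | zero => exact (hP 0 y trivial).map d
  | succ r =>
    have hw : P.map (face 0) y ∈ d.ker.S r := (d.nat (face 0) y).trans (h2 0)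
    have hs : P.Sph (P.map (face 0) y) := Bd.sph ⟨y, hy, rfl⟩
    have hs' : d.ker.ab.Sph (n := r) ⟨_, hw⟩ := by
      cases r with
      | zero => trivial
      | succ r => exact fun i => Subtype.ext (hs i)
    obtain ⟨z, hz, hz0⟩ := hK r rfl _ hs'
    have h3 : P.Sph (n := r + 1) (y - z.1) := fun i => by
      rw [map_sub, sub_eq_zero]
      induction i using Fin.cases with
      | zero => exact (congrArg Subtype.val hz0).symm
      | succ i => exact (hy i).trans (congrArg Subtype.val (hz i)).symm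
    have h4 := (hP _ _ h3).map d
    have h5 : d.app (r + 1) z.1 = 0 := z.2
    rwa [map_sub, h5, sub_zero] at h4

end SAb

namespace BAb

/-- An operator in the first direction as a map of rows. -/
def hor (X : BAb) {k n : ℕ} (θ : Op k n) : (X.row n).Hom (X.row k) where
  app _ := X.map θ OrderHom.id
  nat η x := (X.map_comp OrderHom.id θ η OrderHom.id x).trans
    (X.map_comp θ OrderHom.id OrderHom.id η x).symm

/-- The simplicial abelian group `n ↦ π_q (row n)` is acyclic, in terms of representatives. -/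
def E2Ac (X : BAb) (q : ℕ) : Prop :=
  (∀ x : X.obj 0 q, (X.row 0).Sph x → ∃ y : X.obj 1 q, (X.row 1).Sph y ∧
    (X.row 0).Bd ((X.hor (face 1)).app q y) ∧ (X.row 0).Bd ((X.hor (face 0)).app q y - x)) ∧
  ∀ n (x : X.obj (n + 1) q), (X.row (n + 1)).Sph x →
    (∀ i, (X.row n).Bd ((X.hor (face i)).app q x)) →
    ∃ y : X.obj (n + 2) q, (X.row (n + 2)).Sph y ∧
      (∀ i : Fin (n + 2), (X.row (n + 1)).Bd ((X.hor (face i.succ)).app q y)) ∧
      (X.row (n + 1)).Bd ((X.hor (face 0)).app q y - x)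

/-- `W` is the simplicial abelian group of the `q`-th homotopy groups of the rows. -/
structure E2_Pres (X : BAb) (q : ℕ) (W : SAb) (κ : ∀ n, (X.row n).sph q →+ W.obj n) : Prop where
  surj : ∀ n, Function.Surjective (κ n)
  ker : ∀ n x, κ n x = 0 ↔ (X.row n).Bd x.1
  nat : ∀ {k n : ℕ} (θ : Op k n) (x : (X.row n).sph q),
    κ k (SAb.E2_sphMap (X.hor θ) q x) = W.map θ (κ n x)

theorem E2_Pres.iff {X : BAb} {q : ℕ} {W : SAb} {κ : ∀ n, (X.row n).sph q →+ W.obj n}
    (h : E2_Pres X q W κ) : X.E2Ac q ↔ W.Acyc := by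
  have a1 : ∀ {k n : ℕ} (θ : Op k n) (y : (X.row n).sph q),
      (X.row k).Bd ((X.hor θ).app q y.1) ↔ W.map θ (κ n y) = 0 := fun θ y => by
    rw [← h.nat, h.ker]
    rfl
  have a2 : ∀ {k n : ℕ} (θ : Op k n) (y : (X.row n).sph q) (x : (X.row k).sph q),
      (X.row k).Bd ((X.hor θ).app q y.1 - x.1) ↔ W.map θ (κ n y) = κ k x := fun θ y x => by
    rw [← h.nat, ← sub_eq_zero, ← map_sub, h.ker]
    rfl
  constructor
  · intro hE n w hw
    obtain ⟨x, rfl⟩ := h.surj n w
    cases n with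
    | zero =>
      obtain ⟨y, hy, h1, h0⟩ := hE.1 x.1 x.2
      refine ⟨κ 1 ⟨y, hy⟩, fun i => ?_, (a2 _ ⟨y, hy⟩ x).1 h0⟩
      obtain rfl : i = 0 := Subsingleton.elim (α := Fin 1) _ _
      exact (a1 _ ⟨y, hy⟩).1 h1
    | succ n =>
      obtain ⟨y, hy, h1, h0⟩ := hE.2 n x.1 x.2 fun i => (a1 _ x).2 (hw i)
      exact ⟨κ _ ⟨y, hy⟩, fun i => (a1 _ ⟨y, hy⟩).1 (h1 i), (a2 _ ⟨y, hy⟩ x).1 h0⟩
  · intro hW
    refine ⟨fun x hx => ?_, fun n x hx hf => ?_⟩
    · obtain ⟨w, hw, h0⟩ := hW 0 (κ 0 ⟨x, hx⟩) trivial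
      obtain ⟨y, rfl⟩ := h.surj 1 w
      exact ⟨y.1, y.2, (a1 _ y).2 (hw 0), (a2 _ y ⟨x, hx⟩).2 h0⟩
    · obtain ⟨w, hw, h0⟩ := hW (n + 1) (κ _ ⟨x, hx⟩) fun i => (a1 _ ⟨x, hx⟩).1 (hf i)
      obtain ⟨y, rfl⟩ := h.surj _ w
      exact ⟨y.1, y.2, fun i => (a1 _ y).2 (hw i), (a2 _ y ⟨x, hx⟩).2 h0⟩

/-- The homotopy groups of the rows. -/
@[reducible] def E2_pi (X : BAb) (q : ℕ) : SAb where
  obj n := (X.row n).sph q ⧸ ((X.row n).E2_bd q).addSubgroupOf ((X.row n).sph q)
  map θ := QuotientAddGroup.map _ _ (SAb.E2_sphMap (X.hor θ) q)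
    fun _ hx => SAb.Bd.map (X.hor θ) hx
  map_id n x := QuotientAddGroup.induction_on x fun y =>
    congrArg _ (Subtype.ext (X.map_id n q y.1))
  map_comp θ η x := QuotientAddGroup.induction_on x fun y =>
    congrArg _ (Subtype.ext (X.map_comp θ η OrderHom.id OrderHom.id y.1))

theorem E2_pres_pi (X : BAb) (q : ℕ) :
    E2_Pres X q (X.E2_pi q) fun _ => QuotientAddGroup.mk' _ :=
  ⟨fun _ => QuotientAddGroup.mk'_surjective _, fun _ x => QuotientAddGroup.eq_zero_iff x,
    fun _ _ => rfl⟩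

/-- The class of the first vertex. -/
def E2_p (X : BAb) : X.diag.Hom (X.E2_pi 0) where
  app n := (QuotientAddGroup.mk' _).comp (AddMonoidHom.mk'
    (fun x => (⟨X.map OrderHom.id (vert 0 0) x, trivial⟩ : (X.row n).sph 0))
    fun x y => Subtype.ext (map_add _ x y))
  nat {k n} θ x := by
    refine QuotientAddGroup.eq_iff_sub_mem.2 ?_
    have h := ((X.row n).E2_vtx x (θ 0)).map (X.hor θ)
    rw [map_sub] at h
    have e : (X.hor θ).app 0 ((X.row n).map (vert 0 (θ 0)) x) =
        X.map OrderHom.id (vert 0 0) (X.map θ θ x) :=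
      (X.map_comp OrderHom.id θ (vert 0 (θ 0)) OrderHom.id x).trans
        (X.map_comp θ OrderHom.id θ (vert 0 0) x).symm
    rw [e] at h
    exact h

theorem E2_p_eq_zero (X : BAb) (n : ℕ) (x : X.obj n n) :
    X.E2_p.app n x = 0 ↔ (X.row n).Bd ((X.row n).map (vert 0 0) x) :=
  QuotientAddGroup.eq_zero_iff _

theorem E2_p_surj (X : BAb) (n : ℕ) : Function.Surjective (X.E2_p.app n) := by
  intro c
  induction c using QuotientAddGroup.induction_on with
  | H x =>
    refine ⟨(X.row n).map (vert n 0) x.1, congrArg _ (Subtype.ext ?_)⟩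
    refine ((X.row n).map_comp (vert n 0) (vert 0 0) x.1).trans ?_
    rw [show (vert n (0 : Fin 1)).comp (vert 0 0) = OrderHom.id from
      OrderHom.ext _ _ (funext fun a => Subsingleton.elim (α := Fin 1) _ _)]
    exact (X.row n).map_id 0 x.1

/-- The decalage in the second index. -/
@[reducible] def E2_dec (X : BAb) : BAb where
  obj n m := X.obj n (m + 1)
  map θ θ' := X.map θ (s2_plus θ')
  map_id n m x := by rw [s2_plus_id, X.map_id]
  map_comp θ η θ' η' x := by rw [X.map_comp, s2_plus_comp]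

/-- The vertices of the rows. -/
@[reducible] def E2_c0 (X : BAb) : BAb where
  obj n _ := X.obj n 0
  map θ _ := X.map θ OrderHom.id
  map_id n _ x := X.map_id n 0 x
  map_comp θ η _ _ x := X.map_comp θ η OrderHom.id OrderHom.id x

/-- The first vertex. -/
def E2_v0 (X : BAb) : X.E2_dec.Hom X.E2_c0 where
  app _ _ := X.map OrderHom.id (vert 0 0)
  nat θ θ' x := (X.map_comp θ OrderHom.id (s2_plus θ') (vert 0 0) x).trans
    (X.map_comp OrderHom.id θ (vert 0 0) OrderHom.id x).symm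

/-- The end point of a path. -/
def E2_d (X : BAb) : X.E2_v0.s2_ker.Hom X where
  app n m := (X.map OrderHom.id (face 0)).comp (X.E2_v0.app n m).ker.subtype
  nat θ θ' x := (X.map_comp θ OrderHom.id (s2_plus θ') (face 0) x.1).trans
    (X.map_comp OrderHom.id θ (face 0) θ' x.1).symm

theorem E2_path_moore (X : BAb) {n q : ℕ} (y : X.E2_v0.s2_ker.obj n q)
    (hy : (X.E2_v0.s2_ker.row n).Sph y) : (X.row n).Moore (n := q + 1) y.1 := by
  intro i
  cases q with
  | zero =>
    obtain rfl : i = 0 := Subsingleton.elim (α := Fin 1) _ _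
    rw [E2_face_one]
    exact y.2
  | succ q =>
    rw [← E2_plus_face]
    exact congrArg Subtype.val (hy i)

theorem E2_path_acyc (X : BAb) (n : ℕ) : (X.E2_v0.s2_ker.row n).Acyc := by
  intro q y hy
  have hm := X.E2_path_moore y hy
  refine ⟨⟨(X.row n).map (degen 0) y.1, ?_⟩, fun i => Subtype.ext ?_, Subtype.ext ?_⟩
  · exact ((X.row n).map_comp (degen 0) (vert 0 0) y.1).trans y.2
  · change (X.row n).map (s2_plus (face i.succ)) ((X.row n).map (degen 0) y.1) = 0
    rw [E2_plus_face, SAb.map_comp]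
    refine SAb.s1_miss (hm i) _ fun a ha => ?_
    have ha' : ((degen 0 (face i.succ.succ a) : Fin (q + 2)) : ℕ) = i.succ := congrArg Fin.val ha
    rw [s1_degen_val, s1_face_val] at ha'
    simp only [Fin.val_succ, Fin.val_zero] at ha'
    split_ifs at ha' <;> omega
  · change (X.row n).map (s2_plus (face 0)) ((X.row n).map (degen 0) y.1) = y.1
    rw [E2_plus_face]
    exact SAb.s1_ds_id _ _ _ (Or.inr rfl)

theorem E2_dp (X : BAb) (n : ℕ) (y : X.E2_v0.s2_ker.obj n n) :
    X.E2_p.app n (X.E2_d.diag.app n y) = 0 := by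
  rw [E2_p_eq_zero]
  have h := (X.row n).E2_vtx y.1 (Fin.succ 0)
  have h0 : (X.row n).map (vert 0 0) y.1 = 0 := y.2
  rw [h0, sub_zero] at h
  exact ((X.row n).map_comp (face 0) (vert 0 0) y.1).symm ▸ h

theorem E2_ex (X : BAb) (n : ℕ) (x : X.obj n n) (h : X.E2_p.app n x = 0) :
    ∃ y, X.E2_d.diag.app n y = x := by
  obtain ⟨z, hz, h0⟩ := (X.E2_p_eq_zero n x).1 h
  refine ⟨⟨(X.row n).map (degen 0) x - (X.row n).map (vert (n + 1) 0)
    ((X.row n).map (vert 0 0) x) + (X.row n).map (s1_step (n + 1) 1) z, ?_⟩, ?_⟩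
  · change (X.row n).map (vert 0 0) _ = 0
    have h1 := hz 0
    rw [E2_face_one] at h1
    rw [map_add, map_sub, SAb.map_comp, SAb.map_comp, SAb.map_comp, SAb.map_comp]
    exact (congrArg₂ (· + ·) (sub_self _) h1).trans (add_zero 0)
  · change (X.row n).map (face 0) (_ + _) = x
    rw [map_add, map_sub, SAb.s1_ds_id _ _ _ (Or.inl rfl), ← h0, SAb.map_comp, SAb.map_comp,
      SAb.map_comp, s1_step_face 0 0 0 (Or.inl ⟨rfl, rfl⟩), s1_step_zero]
    exact sub_add_cancel _ _

theorem E2_loop_sph (X : BAb) {n q : ℕ} (y : X.E2_d.s2_ker.obj n q)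
    (hy : (X.E2_d.s2_ker.row n).Sph y) : (X.row n).Sph (n := q + 1) y.1.1 := by
  refine SAb.s1_sph_of (X.E2_path_moore y.1 ?_) y.2
  cases q with
  | zero => trivial
  | succ q => exact fun i => congrArg Subtype.val (hy i)

/-- Spherical loops are spherical simplices of the next level. -/
def E2_e (X : BAb) (n q : ℕ) : (X.E2_d.s2_ker.row n).sph q →+ (X.row n).sph (q + 1) :=
  AddMonoidHom.mk' (fun y => ⟨y.1.1.1, X.E2_loop_sph y.1 y.2⟩) fun _ _ => rfl

theorem E2_e_surj (X : BAb) (n q : ℕ) : Function.Surjective (X.E2_e n q) := by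
  rintro ⟨x, hx⟩
  refine ⟨⟨⟨⟨x, SAb.s1_sph_miss (X := X.row n) (SAb.mem_sph.1 hx) (vert 0 0) (Fin.last _) fun _ =>
    (Fin.last_pos).ne⟩, hx 0⟩, ?_⟩, rfl⟩
  cases q with
  | zero => trivial
  | succ q =>
    refine fun i => Subtype.ext (Subtype.ext ?_)
    change (X.row n).map (s2_plus (face i)) x = 0
    rw [E2_plus_face]
    exact hx i.succ

theorem E2_e_bd (X : BAb) (n q : ℕ) (y : (X.E2_d.s2_ker.row n).sph q) :
    (X.row n).Bd (X.E2_e n q y).1 ↔ (X.E2_d.s2_ker.row n).Bd y.1 := by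
  have hy : (X.row n).Sph (n := q + 1) y.1.1.1 := (X.E2_e n q y).2
  constructor
  · rintro ⟨z, hz, h0⟩
    refine ⟨⟨⟨(X.row n).map (degen 0) y.1.1.1 - z, ?_⟩, ?_⟩,
      fun i => Subtype.ext (Subtype.ext ?_), Subtype.ext (Subtype.ext ?_)⟩
    · change (X.row n).map (vert 0 0) _ = 0
      rw [map_sub, SAb.s1_miss (hz 0) (vert 0 0) fun _ => (Fin.succ_ne_zero _).symm, sub_zero]
      exact ((X.row n).map_comp (degen 0) (vert 0 0) _).trans y.1.1.2
    · change (X.row n).map (face 0) (_ - _) = 0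
      rw [map_sub, SAb.s1_ds_id _ _ _ (Or.inl rfl), h0]
      exact sub_self _
    · change (X.row n).map (s2_plus (face i.succ)) (_ - _) = 0
      rw [E2_plus_face, map_sub, hz, sub_zero]
      exact SAb.s1_ds_zero hy _ _ (by simp) (by simp)
    · change (X.row n).map (s2_plus (face 0)) (_ - _) = y.1.1.1
      rw [E2_plus_face, map_sub, hz, sub_zero]
      exact SAb.s1_ds_id _ _ _ (Or.inr rfl)
  · rintro ⟨z, hz, h0⟩
    refine SAb.s1_single hy 1 z.1.1 (by omega) (fun i hi => ?_) fun i hi => ?_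
    · obtain rfl : i = Fin.succ 0 := Fin.ext hi
      rw [← E2_plus_face]
      exact congrArg (fun w => w.1.1) h0
    · induction i using Fin.cases with
      | zero => exact z.2
      | succ i =>
        induction i using Fin.cases with
        | zero => exact absurd rfl hi
        | succ i =>
          rw [← E2_plus_face]
          exact congrArg (fun w => w.1.1) (hz i)

theorem E2_loop (X : BAb) (q : ℕ) (h : X.E2Ac (q + 1)) : X.E2_d.s2_ker.E2Ac q := by
  refine (E2_Pres.iff (W := X.E2_pi (q + 1))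
    (κ := fun n => (QuotientAddGroup.mk' _).comp (X.E2_e n q)) ⟨fun n => ?_, fun n y => ?_,
      fun θ y => ?_⟩).2 ((X.E2_pres_pi (q + 1)).iff.1 h)
  · exact (QuotientAddGroup.mk'_surjective _).comp (X.E2_e_surj n q)
  · exact (QuotientAddGroup.eq_zero_iff _).trans (X.E2_e_bd n q y)
  · refine congrArg (QuotientAddGroup.mk' _) (Subtype.ext ?_)
    change X.map θ (s2_plus OrderHom.id) y.1.1.1 = X.map θ OrderHom.id y.1.1.1
    rw [s2_plus_id]

theorem E2_main (r : ℕ) : ∀ X : BAb, (∀ q, X.E2Ac q) →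
    ∀ x : X.diag.obj r, X.diag.Sph x → X.diag.Bd x := by
  induction r using Nat.strong_induction_on with
  | _ r ih =>
    intro X h
    exact SAb.E2_chase X.E2_d.diag X.E2_p X.E2_p_surj X.E2_ex X.E2_dp
      ((X.E2_pres_pi 0).iff.1 (h 0)) (diag_acyc_of_row _ X.E2_path_acyc) r
      fun k hk => ih k (by omega) X.E2_d.s2_ker fun q => X.E2_loop q (h (q + 1))

theorem diag_acyc_of_e2 (X : BAb) (h : ∀ q, X.E2Ac q) : X.diag.Acyc := fun r => E2_main r X h

/-- The cokernel. -/
@[reducible] def E2_cok {K L : BAb} (i : K.Hom L) : BAb where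
  obj n m := L.obj n m ⧸ (i.app n m).range
  map θ θ' := QuotientAddGroup.map _ _ (L.map θ θ') (by
    rintro _ ⟨x, rfl⟩
    exact ⟨K.map θ θ' x, i.nat θ θ' x⟩)
  map_id n m x := QuotientAddGroup.induction_on x fun y => congrArg _ (L.map_id n m y)
  map_comp θ η θ' η' x := QuotientAddGroup.induction_on x fun y =>
    congrArg _ (L.map_comp θ η θ' η' y)

/-- The projection to the cokernel. -/
def E2_pr {K L : BAb} (i : K.Hom L) : L.Hom (E2_cok i) where
  app _ _ := QuotientAddGroup.mk' _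
  nat _ _ _ := rfl

/-- The splitting of the rows of the cokernel. -/
def E2_sec {K L : BAb} (i : K.Hom L) (r : ∀ n, (L.row n).Hom (K.row n))
    (hr : ∀ n m x, (r n).app m (i.app n m x) = x) (n : ℕ) :
    ((E2_cok i).row n).Hom (L.row n) where
  app m := QuotientAddGroup.lift _ (AddMonoidHom.id _ - (i.app n m).comp ((r n).app m)) (by
    rintro _ ⟨x, rfl⟩
    change i.app n m x - i.app n m ((r n).app m (i.app n m x)) = 0
    rw [hr, sub_self])
  nat {k m} θ x := QuotientAddGroup.induction_on x fun y => by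
    change (L.row n).map θ y - i.app n k ((r n).app k ((L.row n).map θ y)) =
      (L.row n).map θ (y - i.app n m ((r n).app m y))
    rw [map_sub, (r n).nat]
    exact congrArg _ ((i.row n).nat θ _)

theorem E2_pr_sec {K L : BAb} (i : K.Hom L) (r : ∀ n, (L.row n).Hom (K.row n))
    (hr : ∀ n m x, (r n).app m (i.app n m x) = x) (n m : ℕ) (z : (E2_cok i).obj n m) :
    (E2_pr i).app n m ((E2_sec i r hr n).app m z) = z :=
  QuotientAddGroup.induction_on z fun y => QuotientAddGroup.eq_iff_sub_mem.2 (by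
    change y - i.app n m ((r n).app m y) - y ∈ _
    rw [sub_sub_cancel_left]
    exact neg_mem ⟨_, rfl⟩)

/-- `W q` is the simplicial abelian group `n ↦ π_q (L.row n)` (through `κ`), and the image of
`j q` is the image of `π_q (K.row n)`. -/
theorem Hom.diag_we_of_e2 {K L : BAb} (i : K.Hom L) (r : ∀ n, (L.row n).Hom (K.row n))
    (hr : ∀ n m x, (r n).app m (i.app n m x) = x) (V W : ℕ → SAb) (j : ∀ q, (V q).Hom (W q))
    (inj : ∀ q n, Function.Injective ((j q).app n)) (we : ∀ q, (j q).WE)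
    (κ : ∀ q n, (L.row n).sph q →+ (W q).obj n) (surj : ∀ q n, Function.Surjective (κ q n))
    (ker : ∀ q n x, κ q n x = 0 ↔ (L.row n).Bd x.1)
    (nat : ∀ q {k n : ℕ} (θ : Op k n) (x : (L.row n).sph q),
      κ q k ⟨(L.hor θ).app q x.1, SAb.Sph.map (L.hor θ) x.2⟩ = (W q).map θ (κ q n x))
    (rng : ∀ q n w, (∃ v, (j q).app n v = w) ↔
      ∃ (y : K.obj n q) (h : (K.row n).Sph y), κ q n ⟨i.app n q y, h.map (i.row n)⟩ = w) :
    i.diag.WE := by
  have ii : ∀ n m, Function.Injective (i.app n m) := fun n m =>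
    Function.LeftInverse.injective (hr n m)
  have p0 : ∀ n m y, (E2_pr i).app n m y = 0 ↔ ∃ x, i.app n m x = y := fun n m y =>
    QuotientAddGroup.eq_zero_iff y
  refine (SAb.E2_we_iff i.diag (E2_pr i).diag (fun n => ii n n)
    (fun _ => QuotientAddGroup.mk'_surjective _) fun n => p0 n n).2
    (diag_acyc_of_e2 _ fun q => ?_)
  have key : ∀ n (u : (L.row n).sph q), (E2_pr i).app n q u.1 = 0 →
      (SAb.E2_mk (j q)).app n (κ q n u) = 0 := by
    rintro n ⟨u, hu⟩ h
    obtain ⟨y, rfl⟩ := (p0 n q u).1 h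
    exact (QuotientAddGroup.eq_zero_iff _).2
      ((rng q n _).2 ⟨y, SAb.E2_sph_of_inj (i.row n) (ii n) hu, rfl⟩)
  refine (E2_Pres.iff (W := SAb.E2_coker (j q)) (κ := fun n =>
    (((SAb.E2_mk (j q)).app n).comp (κ q n)).comp (SAb.E2_sphMap (E2_sec i r hr n) q))
    ⟨fun n w => ?_, fun n z => ⟨fun h => ?_, fun h => ?_⟩, fun {k n} θ z => ?_⟩).2
    (SAb.E2_coker_acyc (j q) (inj q) (we q))
  · obtain ⟨w, rfl⟩ := QuotientAddGroup.mk'_surjective _ w
    obtain ⟨x, rfl⟩ := surj q n w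
    refine ⟨SAb.E2_sphMap ((E2_pr i).row n) q x, ?_⟩
    refine sub_eq_zero.1 (((map_sub ((SAb.E2_mk (j q)).app n) _ _).symm.trans
      (congrArg _ (map_sub (κ q n) _ _).symm)).trans (key n _ ?_))
    exact (map_sub ((E2_pr i).app n q) _ _).trans (sub_eq_zero.2 (E2_pr_sec i r hr n q _))
  · obtain ⟨y, hy, e⟩ := (rng q n _).1 ((QuotientAddGroup.eq_zero_iff _).1 h)
    have h1 := ((ker q n _).1 ((map_sub (κ q n) _ _).trans (sub_eq_zero.2 e.symm))).map
      ((E2_pr i).row n)
    have h2 : ((E2_pr i).row n).app q ((E2_sec i r hr n).app q z.1 - i.app n q y) = z.1 :=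
      (map_sub ((E2_pr i).app n q) _ _).trans (by
        rw [E2_pr_sec, (p0 n q _).2 ⟨y, rfl⟩, sub_zero])
    exact h2 ▸ h1
  · have h1 : κ q n (SAb.E2_sphMap (E2_sec i r hr n) q z) = 0 :=
      (ker q n _).2 (h.map (E2_sec i r hr n))
    rw [AddMonoidHom.comp_apply, AddMonoidHom.comp_apply, h1, map_zero]
  · have h1 := (SAb.E2_mk (j q)).nat θ (κ q n (SAb.E2_sphMap (E2_sec i r hr n) q z))
    refine Eq.trans ?_ h1
    rw [← nat]
    refine sub_eq_zero.1 (((map_sub ((SAb.E2_mk (j q)).app k) _ _).symm.trans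
      (congrArg _ (map_sub (κ q k) _ _).symm)).trans (key k _ ?_))
    refine (map_sub ((E2_pr i).app k q) _ _).trans (sub_eq_zero.2 ?_)
    refine (E2_pr_sec i r hr k q _).trans ?_
    refine Eq.trans ?_ ((E2_pr i).nat θ OrderHom.id _).symm
    exact congrArg _ (E2_pr_sec i r hr n q _).symm

end BAb

end Pool.Agent.P.MP_932208_ag.Ax
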