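import Pool.Agent.P.MP_932208_ag.Ex.Inst

/-!
The torsion is multiplicative in short exact sequences.
-/

namespace Pool.Agent.P.MP_932208_ag.Ax

open CategoryTheory Classical

variable {A : SRing} {M₁ M₂ M₃ : DG A} {i : DG.Hom (𝟙 A) M₁ M₂} {π : DG.Hom (𝟙 A) M₂ M₃}

/-- The sign that compares the generator of `det C₂` with those of `det C₁` and `det (C₂ / C₁)`. -/
def sesSign (dg : ℕ → ℤ) (S₁ S₂ : Finset ℕ) : ℤˣ :=
  eps dg S₁ (S₂ \ S₁) * (-1) ^ ((ev S₁ dg).card * (S₂ \ S₁).card)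

theorem Ses_sign (dg : ℕ → ℤ) {U W T₁ T₃ : Finset ℕ} (hUW : Disjoint U W) (hU1 : Disjoint U T₁)
    (hW3 : Disjoint W T₃) (h13 : Disjoint T₁ T₃) (h1W : Disjoint T₁ W)
    (c₁ : (od T₁ dg).card = (ev T₁ dg).card) (c₃ : (od T₃ dg).card = (ev T₃ dg).card) :
    eps dg U W * (-1) ^ ((ev U dg).card * W.card) * (eps dg U T₁ * eps dg W T₃) =
      eps dg (U ∪ W) (T₁ ∪ T₃) * eps dg T₁ T₃ *
        (eps dg (U ∪ T₁) (W ∪ T₃) * (-1) ^ ((ev (U ∪ T₁) dg).card * (W ∪ T₃).card)) := by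
  have e1 : (ev (U ∪ T₁) dg).card = (ev U dg).card + (ev T₁ dg).card := by
    rw [ev_union]
    exact Finset.card_union_of_disjoint (Finset.disjoint_filter_filter hU1)
  have e2 : (W ∪ T₃).card = W.card + 2 * (ev T₃ dg).card := by
    rw [Finset.card_union_of_disjoint hW3, ← card_od_add_ev (S := T₃) (dg := dg), c₃, two_mul]
  have e3 : eps dg T₁ W * eps dg W T₁ = (-1) ^ ((ev T₁ dg).card * W.card) := by
    rw [eps_swap h1W, c₁, ← mul_add, card_od_add_ev]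
  have e4 : ((-1 : ℤˣ)) ^ (((ev U dg).card + (ev T₁ dg).card) * (W.card + 2 * (ev T₃ dg).card)) =
      (-1) ^ ((ev U dg).card * W.card) * (-1) ^ ((ev T₁ dg).card * W.card) := by
    rw [mul_add, pow_add, mul_left_comm _ 2, pow_mul _ 2, neg_one_sq, one_pow, mul_one, add_mul,
      pow_add]
  rw [e1, e2, e4, ← e3, eps_union_left hUW, eps_union_left hU1, eps_union_right h13,
    eps_union_right h13, eps_union_right hW3, eps_union_right hW3]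
  have s1 := Int.units_mul_self (eps dg U T₃)
  have s2 := Int.units_mul_self (eps dg T₁ T₃)
  have s3 := Int.units_mul_self (eps dg T₁ W)
  have s4 := Int.units_mul_self (eps dg W T₁)
  generalize ((-1 : ℤˣ)) ^ ((ev U dg).card * W.card) = z
  generalize eps dg U T₃ = a at *
  generalize eps dg T₁ T₃ = b at *
  generalize eps dg T₁ W = c at *
  generalize eps dg W T₁ = d at *
  calc eps dg U W * z * (eps dg U T₁ * eps dg W T₃)
      = eps dg U W * z * (eps dg U T₁ * eps dg W T₃) * ((a * a) * (b * b) * (c * c) * (d * d)) := by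
        rw [s1, s2, s3, s4, mul_one, mul_one, mul_one, mul_one]
    _ = _ := by ac_rfl

/-- The identity for abstract sets of cells. -/
theorem Ses_abs {K : Type} [CommRing K] {S S' U U' : Finset ℕ} {dg dg₀ dg₁ : ℕ → ℤ}
    {d d₁ d₃ : ℕ → ℕ → K} (hUS : U ⊆ S) (hUS' : U' ⊆ S') (hU : U ⊆ U') (hS : S ⊆ S')
    (hm : ∀ s ∈ S, s ∈ U' → s ∈ U) (e₀ : ∀ s ∈ S, dg₀ s = dg s) (e₁ : ∀ s ∈ U', dg₁ s = dg s)
    (c : CxN (S' \ S) dg d) (c₁ : CxN (U' \ U) dg₁ d₁) (c₃ : CxN ((S' \ U') \ (S \ U)) dg d₃)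
    (f₁ : ∀ s ∈ U' \ U, ∀ r ∈ U' \ U, d₁ s r = d s r)
    (f₃ : ∀ s ∈ (S' \ U') \ (S \ U), ∀ r ∈ (S' \ U') \ (S \ U), d₃ s r = d s r)
    (tri : ∀ s ∈ U' \ U, ∀ r ∈ (S' \ U') \ (S \ U), d s r = 0) :
    sgK K (sesSign dg₀ U S) * ((sgK K (eps dg₁ U (U' \ U)) * tau (U' \ U) dg₁ d₁) *
        (sgK K (eps dg (S \ U) ((S' \ U') \ (S \ U))) * tau ((S' \ U') \ (S \ U)) dg d₃)) =
      sgK K (eps dg S (S' \ S)) * tau (S' \ S) dg d * sgK K (sesSign dg U' S') := by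
  rcases subsingleton_or_nontrivial K with hK | hK
  · exact Subsingleton.elim _ _
  have g₁ : ∀ s ∈ U' \ U, dg₁ s = dg s := fun s hs => e₁ s (Finset.mem_sdiff.1 hs).1
  have c₁' := c₁.congr g₁ f₁
  have c₃' := c₃.congr (fun _ _ => rfl) f₃
  have a₁ : sesSign dg₀ U S = sesSign dg U S := by
    unfold sesSign
    rw [eps_congr (fun s hs => e₀ s (hUS hs)) (fun s hs => e₀ s (Finset.mem_sdiff.1 hs).1),
      ev_congr fun s hs => e₀ s (hUS hs)]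
  rw [a₁, eps_congr (fun s hs => e₁ s (hU hs)) g₁, tau_congr g₁ f₁, tau_congr (fun _ _ => rfl) f₃]
  have b₁ : S' \ S = (U' \ U) ∪ ((S' \ U') \ (S \ U)) := by
    ext s
    have := @hUS s
    have := @hUS' s
    have := @hU s
    have := hm s
    simp only [Finset.mem_union, Finset.mem_sdiff]
    tauto
  have b₂ : S' \ U' = (S \ U) ∪ ((S' \ U') \ (S \ U)) := by
    refine (Finset.union_sdiff_of_subset fun s hs => ?_).symm
    rw [Finset.mem_sdiff] at hs ⊢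
    exact ⟨hS hs.1, fun p => hs.2 (hm s hs.1 p)⟩
  have b₃ : S = U ∪ (S \ U) := (Finset.union_sdiff_of_subset hUS).symm
  have b₄ : U' = U ∪ (U' \ U) := (Finset.union_sdiff_of_subset hU).symm
  have h13 : Disjoint (U' \ U) ((S' \ U') \ (S \ U)) := Finset.disjoint_left.2 fun s hs hs' =>
    (Finset.mem_sdiff.1 (Finset.mem_sdiff.1 hs').1).2 (Finset.mem_sdiff.1 hs).1
  have h1W : Disjoint (U' \ U) (S \ U) := Finset.disjoint_left.2 fun s hs hs' =>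
    (Finset.mem_sdiff.1 hs).2 (hm s (Finset.mem_sdiff.1 hs').1 (Finset.mem_sdiff.1 hs).1)
  have key := Ses_sign dg (Finset.disjoint_sdiff (s := U) (t := S))
    (Finset.disjoint_sdiff (s := U) (t := U'))
    (Finset.disjoint_sdiff (s := S \ U) (t := S' \ U')) h13 h1W c₁'.card_eq c₃'.card_eq
  rw [← b₁, ← b₂, ← b₃, ← b₄] at key
  have ht := tau_union h13 (b₁ ▸ c) c₁' c₃' tri
  rw [← b₁] at ht
  have key' := congrArg (sgK K) key
  rw [ht]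
  unfold sesSign
  simp only [sgK_mul] at key' ⊢
  linear_combination (tau (U' \ U) dg d * tau ((S' \ U') \ (S \ U)) dg d) * key'

theorem Ses_sd {F' : Fam A} {F : Fam A} (h : Fam.Hom (𝟙 A) F F') (hl : ∀ s, h.l s = 1) {n m : ℕ}
    (x : F.X n m) {s r : ℕ} (hs : s ∈ F'.T (h.f.comp x.σ)) (hr : r ∈ F'.T (h.f.comp x.σ)) :
    (h.X x).sd s r = x.sd s r := by
  have h1 : ∀ s, h.lm m s = 1 := fun s => by rw [Fam.Hom.lm, hl, map_one]
  rw [h.sd_X x hs hr, h1, h1, SRing.satMap_id, inv_one, Units.val_one, one_mul, mul_one]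
  rfl

theorem ses_tr (h : DG.ShortExact i π) {n m : ℕ} (x : (famSes i).X n m) (a : Fin (n + 1)) :
    sgK _ (sesSign (x.σ 0).1.P₂.C.dg (x.σ 0).1.P₁.C.S (x.σ 0).1.P₂.C.S) *
        (((sesSub i).X x).tr 0 a * ((sesQuo h).X x).tr 0 a) =
      (SRing.satMap (𝟙 A)).app m (x.tr 0 a) *
        sgK _ (sesSign (x.σ a).1.P₂.C.dg (x.σ a).1.P₁.C.S (x.σ a).1.P₂.C.S) := by
  have l0 : x.σ 0 ≤ x.σ a := x.σ.monotone (Fin.zero_le a)
  have l1 : x.σ a ≤ x.σ (Fin.last n) := x.σ.monotone (Fin.le_last a)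
  have m1 : ∀ s ∈ (x.σ a).1.P₁.C.S \ (x.σ 0).1.P₁.C.S,
      s ∈ (famPre M₁).T ((sesSub i).f.comp x.σ) := fun s hs =>
    Finset.mem_sdiff.2 ⟨l1.1.1.1 (Finset.mem_sdiff.1 hs).1, (Finset.mem_sdiff.1 hs).2⟩
  have m3 : ∀ s ∈ ((x.σ a).1.P₂.C.S \ (x.σ a).1.P₁.C.S) \ ((x.σ 0).1.P₂.C.S \ (x.σ 0).1.P₁.C.S),
      s ∈ (famPre M₃).T ((sesQuo h).f.comp x.σ) := fun s hs => by
    obtain ⟨h1, h2⟩ := Finset.mem_sdiff.1 hs
    obtain ⟨h3, h4⟩ := Finset.mem_sdiff.1 h1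
    exact Finset.mem_sdiff.2 ⟨Finset.mem_sdiff.2 ⟨l1.2.1.1.1 h3, fun p => h4 (l1.2.2 s h3 p)⟩, h2⟩
  have e : (SRing.satMap (𝟙 A)).app m (x.tr 0 a) = x.tr 0 a := by
    rw [SRing.satMap_id]
    rfl
  rw [e]
  refine Ses_abs (x.σ 0).1.le.1 (x.σ a).1.le.1 l0.1.1.1 l0.2.1.1.1 l0.2.2
    (fun s hs => (l0.2.1.1.2 s hs).1) (fun s hs => ((x.σ a).1.le.2 s hs).1)
    (x.cx_diff (Fin.zero_le a)) (((sesSub i).X x).cx_diff (Fin.zero_le a))
    (((sesQuo h).X x).cx_diff (Fin.zero_le a))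
    (fun s hs r hr => Ses_sd (sesSub i) (fun _ => rfl) x (m1 s hs) (m1 r hr))
    (fun s hs r hr => Ses_sd (sesQuo h) (fun _ => rfl) x (m3 s hs) (m3 r hr))
    fun s hs r hr => ?_
  obtain ⟨h1, h2⟩ := Finset.mem_sdiff.1 hs
  obtain ⟨h3, h4⟩ := Finset.mem_sdiff.1 hr
  obtain ⟨h5, h6⟩ := Finset.mem_sdiff.1 h3
  refine x.sd_pat (Finset.mem_sdiff.2 ⟨l1.2.1.1.1 ((x.σ a).1.le.1 h1),
    fun p => h2 (l0.2.2 s p h1)⟩) (Finset.mem_sdiff.2 ⟨l1.2.1.1.1 h5,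
    fun p => h4 (Finset.mem_sdiff.2 ⟨p, fun p' => h6 (l0.1.1.1 p')⟩)⟩) fun p => ?_
  exact h6 (l1.2.2 r h5 (p.2 (l1.1.1.1 h1)))

/-- Subcomplex and quotient. -/
@[reducible] noncomputable def sesTw (h : DG.ShortExact i π) :
    Tw.Hom (SRing.satMap (𝟙 A)) (famSes i).tw ((famPre M₁).tw.prod (famPre M₃).tw) where
  f x := ((sesSub i).X x, (sesQuo h).X x)
  nat θ θ' x := Prod.ext ((sesSub i).X_map θ θ' x) ((sesQuo h).X_map θ θ' x)
  μ x := sgK _ (sesSign (x.σ 0).1.P₂.C.dg (x.σ 0).1.P₁.C.S (x.σ 0).1.P₂.C.S)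
  unit _ := isUnit_sgK _
  compat θ θ' x := (congrArg (A.sat.map θ') (ses_tr h x (θ 0))).trans
    ((map_mul _ _ _).trans (congrArg _ (map_sgK _ _)))

end Pool.Agent.P.MP_932208_ag.Ax
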