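import Pool.Agent.P.MP_932208_ag.Ex.TwD
import Pool.Agent.P.MP_932208_ag.Ex.Ses
import Pool.Agent.P.MP_932208_ag.Ex.Abs

/-!
Construction of the determinant of diagrams of finite cell modules.
-/

namespace Pool.Agent.P.MP_932208_ag.Ax

open CategoryTheory Classical

variable {J J' : Type} [SmallCategory J] [SmallCategory J'] {A B : J ⥤ SRing}

/-- Every chart has a presentation and the transition maps preserve presentations. -/
def Mod.Cell (M : Mod A) : Prop :=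
  (∀ j, Nonempty (Pre (M.obj j))) ∧ ∀ (i j : J) (ψ : i ⟶ j), (M.map ψ).Good

theorem PD.map_sq {R₀ R₁ R₂ R₃ : SRing} {α : R₀ ⟶ R₁} {β : R₁ ⟶ R₃} {γ : R₀ ⟶ R₂} {δ : R₂ ⟶ R₃}
    {M₀ : DG R₀} {M₁ : DG R₁} {M₂ : DG R₂} {M₃ : DG R₃} (P : PD M₀) {a : DG.Hom α M₀ M₁}
    {b : DG.Hom β M₁ M₃} {c : DG.Hom γ M₀ M₂} {d : DG.Hom δ M₂ M₃} (e : α ≫ β = γ ≫ δ)
    (s : a.Sq b c d) : (P.map a).map b = (P.map c).map d :=
  (P.map_map a b (a.comp b rfl) rfl fun _ => rfl).trans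
    (P.map_map c d (a.comp b rfl) e.symm s).symm

theorem Mod.cell_iff {P P' : Mod A} (g : Mod.Hom (𝟙 A) P P') (hg : ∀ j, (g.app j).QIsoAway 1) :
    P.Cell ↔ P'.Cell := by
  have e : ∀ {i j : J} (ψ : i ⟶ j) (q : PD (P.obj i)),
      (q.map (P.map ψ)).map (g.app j) = (q.map (g.app i)).map (P'.map ψ) := fun ψ q =>
    q.map_sq ((𝟙 A : A ⟶ A).naturality ψ) (g.nat ψ)
  have k : ∀ (j : J) (q : PD (P.obj j)), (q.map (g.app j)).QI ↔ q.QI := fun j q =>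
    q.qi_map_iff (g := g.app j) (hg j)
  refine ⟨fun h => ⟨fun j => (h.1 j).elim fun q => ⟨⟨_, (k j _).2 q.2⟩⟩, fun i j ψ => ?_⟩,
    fun h => ?_⟩
  · obtain ⟨q⟩ := h.1 i
    exact DG.Hom.good_of_one ((k i _).2 q.2) (e ψ q.1 ▸ (k j _).2 (h.2 _ _ ψ _ q.2))
  · have n : ∀ j, Nonempty (Pre (P.obj j)) := fun j => by
      obtain ⟨q⟩ := h.1 j
      obtain ⟨f, H, l⟩ := exists_lift (u := g.app j) (hg j) q.1
      exact ⟨⟨l.pd, (l.qi_iff (hg j)).2 q.2⟩⟩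
    refine ⟨n, fun i j ψ q hq => (k j _).1 ?_⟩
    rw [e]
    exact h.2 _ _ ψ _ ((k i _).2 hq)

theorem one_el {R R' : SRing} (χ : R ⟶ R') :
    (1 : R'.U) = 1 * Units.map (χ.app 0).toMonoidHom 1 := by simp

theorem one_μ {R R' : SRing} (χ : R ⟶ R') (n : ℕ) : (1 : R'.obj n) = χ.app n 1 * 1 := by simp

theorem one_μ' {R₁ R₂ R' : SRing} (χ : R₁ ⟶ R') (χ' : R₂ ⟶ R') (n : ℕ) :
    χ.app n 1 * 1 = χ'.app n 1 * 1 := by simp

/-- The cocycles of presentations. -/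
@[reducible] noncomputable def preD (M : Mod A) (h : M.Cell) : TwD A where
  obj j := (famPre (M.obj j)).tw
  map ψ := (bcPre (M.map ψ) (h.2 _ _ ψ)).tw (plain_bcPre _ _)
  pt j := (h.1 j).some
  f_id j _ x := Fam.Hom.X_id (bcPre (M.map (𝟙 j)) (h.2 _ _ _)) (A.map_id j)
    (fun q => Subtype.ext (q.1.map_id _ (A.map_id j) (M.map_id j))) (fun _ => rfl) x
  μ_id _ _ _ := rfl
  f_comp ψ χ _ x := Fam.Hom.X_tri _ _ _ (A.map_comp ψ χ)
    (fun q => Subtype.ext (q.1.map_map _ _ _ (A.map_comp ψ χ).symm (M.map_comp ψ χ)).symm)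
    (fun _ _ _ => one_el _) x
  μ_comp _ _ _ _ := one_μ _ _

/-- Base change of presentations. -/
@[reducible] noncomputable def preH {η : A ⟶ B} {M : Mod A} {M' : Mod B} (g : Mod.Hom η M M')
    (h : M.Cell) (h' : M'.Cell) (hg : ∀ j, (g.app j).Good) : TwD.Hom η (preD M h) (preD M' h') where
  app j := (bcPre (g.app j) (hg j)).tw (plain_bcPre _ _)
  f_nat ψ _ x := Fam.Hom.X_sq (bcPre (M.map ψ) (h.2 _ _ ψ)) (bcPre _ (hg _)) (bcPre _ (hg _))
    (bcPre (M'.map ψ) (h'.2 _ _ ψ)) (η.naturality ψ)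
    (fun q => Subtype.ext (q.1.map_sq (η.naturality ψ) (g.nat ψ)))
    (fun _ _ _ => (one_el _).symm.trans (one_el _)) x
  μ_nat _ _ _ := one_μ' _ _ _

section ses
variable {M₁ M₂ M₃ : Mod A} (i : Mod.Hom (𝟙 A) M₁ M₂) (h₁ : M₁.Cell) (h₂ : M₂.Cell)

/-- The cocycles of presentations of a map. -/
@[reducible] noncomputable def sesD : TwD A where
  obj j := (famSes (i.app j)).tw
  map {a b} ψ := (bcSes (i := i.app a) (i' := i.app b) (h₁.2 _ _ ψ) (h₂.2 _ _ ψ)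
    fun x => (i.nat ψ x).symm).tw (plain_bcSes _ _ _)
  pt j := (SPre.nonempty (i.app j) (h₁.1 j) (h₂.1 j)).some
  f_id j _ x := Fam.Hom.X_id (bcSes (i := i.app j) (i' := i.app j) (h₁.2 _ _ (𝟙 j)) (h₂.2 _ _ (𝟙 j))
    fun x => (i.nat (𝟙 j) x).symm) (A.map_id j)
    (fun q => Subtype.ext (MPD.ext (q.1.P₁.map_id _ (A.map_id j) (M₁.map_id j))
      (q.1.P₂.map_id _ (A.map_id j) (M₂.map_id j)))) (fun _ => rfl) x
  μ_id _ _ _ := rfl
  f_comp ψ χ _ x := Fam.Hom.X_tri _ _ _ (A.map_comp ψ χ)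
    (fun q => Subtype.ext (MPD.ext
      (q.1.P₁.map_map _ _ _ (A.map_comp ψ χ).symm (M₁.map_comp ψ χ)).symm
      (q.1.P₂.map_map _ _ _ (A.map_comp ψ χ).symm (M₂.map_comp ψ χ)).symm))
    (fun _ _ _ => one_el _) x
  μ_comp _ _ _ _ := one_μ _ _

theorem id_sq {a b : J} (ψ : a ⟶ b) : A.map ψ ≫ 𝟙 (A.obj b) = 𝟙 (A.obj a) ≫ A.map ψ := by simp

/-- Forget the marking. -/
@[reducible] noncomputable def sesMidH : TwD.Hom (𝟙 A) (sesD i h₁ h₂) (preD M₂ h₂) where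
  app j := (sesMid (i.app j)).tw (plain_sesMid _)
  f_nat ψ _ x := Fam.Hom.X_sq _ (sesMid _) (sesMid _) _ (id_sq ψ) (fun _ => rfl)
    (fun _ _ _ => (one_el _).symm.trans (one_el _)) x
  μ_nat _ _ _ := one_μ' _ _ _

/-- Subcomplex and quotient. -/
@[reducible] noncomputable def sesProdH (p : Mod.Hom (𝟙 A) M₂ M₃) (h₃ : M₃.Cell)
    (h : ∀ j, DG.ShortExact (i.app j) (p.app j)) :
    TwD.Hom (𝟙 A) (sesD i h₁ h₂) ((preD M₁ h₁).prod (preD M₃ h₃)) where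
  app j := sesTw (h j)
  f_nat {a b} ψ _ x := Prod.ext
    (Fam.Hom.X_sq _ (sesSub _) (sesSub _) _ (id_sq ψ) (fun _ => rfl)
      (fun _ _ _ => (one_el _).symm.trans (one_el _)) x)
    (Fam.Hom.X_sq _ (sesQuo (h b)) (sesQuo (h a)) _ (id_sq ψ)
      (fun q => Subtype.ext (q.1.quo_map _ _ (fun x => (i.nat ψ x).symm) _ (fun x => (p.nat ψ x).symm) (h a) (h b)))
      (fun _ _ _ => (one_el _).symm.trans (one_el _)) x)
  μ_nat ψ n x := by
    change (SRing.satMap _).app n 1 * sgK _ _ = (SRing.satMap _).app n (sgK _ _) * (1 * 1)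
    rw [map_one, one_mul, map_sgK, mul_one, mul_one]
    rfl

end ses

section abs
variable (γ : Cocycle A)

/-- The cocycles of the fibres of presentations of the structure sheaf. -/
@[reducible] noncomputable def absD : TwD A where
  obj j := (famAbs (A.obj j)).tw
  map ψ := (bcAbs (A.map ψ) (γ.c ψ)).tw (plain_bcAbs _ _)
  pt j := (Pre0.nonempty (Arr.Cellular.good (φ := 𝟙 (A.obj j)) .unit).1).some
  f_id j _ x := Fam.Hom.X_id (bcAbs (A.map (𝟙 j)) (γ.c (𝟙 j))) (A.map_id j)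
    (fun q => Subtype.ext (q.1.map_id _ (A.map_id j) (((Mod.unit A).twist γ).map_id j)))
    (fun s => by
      change (if s = 0 then (γ.c (𝟙 j))⁻¹ else 1) = 1
      rw [γ.c_id, inv_one, ite_self]) x
  μ_id _ _ _ := rfl
  f_comp {a b c} ψ χ _ x := Fam.Hom.X_tri _ _ _ (A.map_comp ψ χ)
    (fun q => Subtype.ext (q.1.map_map _ _ _ (A.map_comp ψ χ).symm
      (((Mod.unit A).twist γ).map_comp ψ χ)).symm)
    (fun _ s _ => by
      change (if s = 0 then (γ.c (ψ ≫ χ))⁻¹ else 1) = (if s = 0 then (γ.c χ)⁻¹ else 1) *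
        Units.map ((A.map χ).app 0).toMonoidHom (if s = 0 then (γ.c ψ)⁻¹ else 1)
      split_ifs
      · rw [γ.c_comp, mul_inv, map_inv]
      · exact one_el _) x
  μ_comp _ _ _ _ := one_μ _ _

theorem cell_twist : ((Mod.unit A).twist γ).Cell :=
  ⟨fun j => (Arr.Cellular.good (φ := 𝟙 (A.obj j)) .unit).1, fun _ _ ψ => good_scale _ (γ.c ψ)⟩

/-- Forget the extra cell. -/
@[reducible] noncomputable def absPreH : TwD.Hom (𝟙 A) (absD γ) (preD _ (cell_twist γ)) where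
  app j := (absPre (A.obj j)).tw (plain_absPre _)
  f_nat {a b} ψ _ x := Fam.Hom.X_sq _ (absPre _) (absPre _) _ (id_sq ψ) (fun _ => rfl)
    (fun q s hs => by
      change 1 * Units.map _ (if s = 0 then (γ.c ψ)⁻¹ else 1) = 1 * Units.map _ 1
      rw [if_neg fun e : s = 0 => q.2.2 (e ▸ hs), map_one, map_one]) x
  μ_nat _ _ _ := one_μ' _ _ _

/-- The absolute torsion. -/
@[reducible] noncomputable def absPtH : TwD.Hom (𝟙 A) (absD γ) (TwD.point γ) where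
  app j := absTw (A.obj j)
  f_nat _ _ _ := rfl
  μ_nat ψ n x := by
    change (SRing.satMap _).app n 1 * _ = _
    rw [map_one, one_mul]
    exact absTw_bc _ _ x

end abs

/-- The determinant line bundle. -/
noncomputable def cdet (M : Mod A) : Mod A :=
  if h : M.Cell then (preD M h).mod else Mod.unit A

theorem cdet_eq {M : Mod A} (h : M.Cell) : cdet M = (preD M h).mod := dif_pos h

theorem cdet_isLine {M : Mod A} (h : M.Cell) : (cdet M).IsLine := by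
  rw [cdet_eq h]; exact TwD.isLine _

theorem cdet_invariant {M M' : Mod A} (h : M.Cell) (e : M.Equiv M') : (cdet M).Equiv (cdet M') := by
  refine Mod.Equiv.map cdet Mod.cell_iff (fun g hg p p' => ?_) e h
  rw [cdet_eq p, cdet_eq p']
  exact (preH g p p' fun j q hq => (q.qi_map_iff (g := g.app j) (hg j)).2 hq).equiv

theorem cdet_restrict (u : J' ⥤ J) {M : Mod A} (h : M.Cell) :
    (cdet (M.restrict u)).Equiv ((cdet M).restrict u) := by
  rw [cdet_eq h, cdet_eq (M := M.restrict u) ⟨fun j => h.1 _, fun _ _ ψ => h.2 _ _ (u.map ψ)⟩]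
  exact Mod.Equiv.refl _

theorem cdet_baseChange {η : A ⟶ B} {M : Mod A} {M' : Mod B} (g : Mod.Hom η M M') (h : M.Cell)
    (h' : M'.Cell) (hg : ∀ j, (g.app j).Good) :
    ∃ k : Mod.Hom η (cdet M) (cdet M'), ∀ j, (k.app j).LineBaseChange := by
  rw [cdet_eq h, cdet_eq h']
  exact ⟨(preH g h h' hg).mod, (preH g h h' hg).line⟩

theorem cdet_mul {M₁ M₂ M₃ : Mod A} (i : Mod.Hom (𝟙 A) M₁ M₂) (p : Mod.Hom (𝟙 A) M₂ M₃)
    (h₁ : M₁.Cell) (h₂ : M₂.Cell) (h₃ : M₃.Cell) (h : ∀ j, DG.ShortExact (i.app j) (p.app j)) :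
    Mod.IsTensor (cdet M₁) (cdet M₃) (cdet M₂) := by
  rw [cdet_eq h₁, cdet_eq h₂, cdet_eq h₃]
  obtain ⟨L, L', P, m, e, e', e'', hm⟩ := (preD M₁ h₁).isTensor (preD M₃ h₃)
  exact ⟨L, L', P, m, e, e', e''.trans ((sesProdH i h₁ h₂ p h₃ h).equiv.symm.trans
    (sesMidH i h₁ h₂).equiv), hm⟩

theorem cdet_rankOne (γ : Cocycle A) :
    (cdet ((Mod.unit A).twist γ)).Equiv ((Mod.unit A).twist γ) := by
  rw [cdet_eq (cell_twist γ)]
  exact (absPreH γ).equiv.symm.trans ((absPtH γ).equiv.trans (TwD.equiv_point γ).symm)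

theorem cdet_rankZero {M : Mod A} (h : ∀ j, (M.obj j).Acyc) : (cdet M).Equiv (Mod.unit A) := by
  have c : M.Cell := ⟨fun j => ⟨⟨_, PD.qi_empty (h j)⟩⟩, fun i j ψ => good_of_acyc (h i) (h j) _⟩
  rw [cdet_eq c]
  exact ((preD M c).equiv_of_vertex (Cocycle.one A) (fun j => emptyX (h j))
    (fun ψ => bcPre_emptyX _ _ _ _) fun ψ => (map_one _).symm).symm.trans (Mod.equiv_twist_one _)

end Pool.Agent.P.MP_932208_ag.Ax
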