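import Pool.Agent.P.MP_932208_ag.Ex.GLocM
import Pool.Agent.P.MP_932208_ag.Ex.CylC

/-!
Presentations exist Zariski locally and are preserved by local base changes.
-/

namespace Pool.Agent.P.MP_932208_ag.Ax

open CategoryTheory SRing

variable {A B : SRing} {φ : A ⟶ B} {M M₁ M₂ : DG A} {M' : DG B}

theorem GGood_mk {g : DG.Hom φ M M'} {K : Type} [CommRing K] {T : Submonoid K}
    {σ : K →+* A.obj 0} (h₁ : ∀ y, ∃ s ∈ T, ∃ x, g.toFun x = N.inc (φ.app 0 (σ s)) • y)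
    (h₂ : ∀ x, g.toFun x = 0 → ∃ s ∈ T, N.inc (σ s) • x = 0) : g.LocC T σ := ⟨h₁, h₂⟩

theorem GGood_el {g : DG.Hom φ M M'} {K : Type} [CommRing K] {T : Submonoid K}
    {σ : K →+* A.obj 0} (h : g.LocC T σ) :
    (∀ y, ∃ s ∈ T, ∃ x, g.toFun x = N.inc (φ.app 0 (σ s)) • y) ∧
      ∀ x, g.toFun x = 0 → ∃ s ∈ T, N.inc (σ s) • x = 0 := ⟨h.surj, h.inj⟩

/-- Base change of a cell module along a localisation is a localisation. -/
theorem Cel.locIso_bc (C : Cel A) {K : Type} [CommRing K] {T : Submonoid K} {σ : K →+* A.obj 0}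
    (h : (DG.unitHom φ).LocC T σ) : (C.bc φ).LocC T σ := by
  classical
  refine GGood_mk (fun y => ?_) fun x hx => ?_
  · choose t ht x hx using fun s => (GGood_el h).1 (y.1 s)
    refine ⟨∏ s ∈ C.S, t s, T.prod_mem fun s _ => ht s,
      ⟨fun s => if s ∈ C.S then N.inc (σ (∏ r ∈ C.S.erase s, t r)) * x s else 0,
        fun s hs => if_neg hs⟩, Subtype.ext (funext fun s => ?_)⟩
    change N.map φ (if s ∈ C.S then N.inc (σ (∏ r ∈ C.S.erase s, t r)) * x s else 0) =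
      N.inc (φ.app 0 (σ (∏ s ∈ C.S, t s))) * y.1 s
    split_ifs with hs
    · have e : N.map φ (x s) = N.inc (φ.app 0 (σ (t s))) * y.1 s := hx s
      rw [map_mul, N.map_inc, e, ← mul_assoc, ← map_mul, ← map_mul, ← map_mul,
        Finset.prod_erase_mul _ _ hs]
    · rw [map_zero, y.2 s hs, mul_zero]
  · choose t ht e using fun s => (GGood_el h).2 (x.1 s)
      (congrArg (fun z : (C.map φ).V => z.1 s) hx)
    refine ⟨∏ s ∈ C.S, t s, T.prod_mem fun s _ => ht s, Subtype.ext (funext fun s => ?_)⟩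
    change N.inc (σ (∏ s ∈ C.S, t s)) * x.1 s = 0
    by_cases hs : s ∈ C.S
    · have e' : N.inc (σ (t s)) * x.1 s = 0 := e s
      rw [← Finset.prod_erase_mul _ _ hs, map_mul, map_mul, mul_assoc, e', mul_zero]
    · rw [x.2 s hs, mul_zero]

theorem GGood_sq (P : PD M) {g : DG.Hom φ M M'} {K : Type} [CommRing K] {T : Submonoid K}
    {σ : K →+* A.obj 0} (h : (DG.unitHom φ).LocC T σ) (hg : g.LocH T σ) :
    P.hom.LocH T σ ↔ (P.map g).hom.LocH T ((φ.app 0).comp σ) := by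
  have hb := (P.C.locIso_bc h).locH
  have e₁ : (P.hom.comp g (Category.id_comp _)).Tri P.hom g := fun _ => rfl
  have e₂ : (P.hom.comp g (Category.id_comp _)).Tri (P.C.bc φ) (P.map g).hom :=
    fun x => (P.map_hom g x).symm
  have e : σ = (SRing.Hom.app (𝟙 A) 0).comp σ := RingHom.ext fun _ => rfl
  exact ⟨fun p => DG.Hom.LocH.tri_right e₂ (Category.comp_id _) rfl
      (DG.Hom.LocH.tri e₁ (Category.id_comp _) e p hg) hb,
    fun p => DG.Hom.LocH.tri_left e₁ (Category.id_comp _) e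
      (DG.Hom.LocH.tri e₂ (Category.comp_id _) rfl hb p) hg⟩

theorem GGood_locL {g : DG.Hom (𝟙 A) M₁ M₂} (h : g.QI) (S : Set (A.obj 0)) : (g.locL S).QI :=
  DG.Hom.QIsoAway.locL h (by rw [map_one]; exact isUnit_one)

namespace DG

/-- The vertices `f` such that `M[1/f]` has a presentation. -/
def Adm (M : DG A) : Set (A.obj 0) := {f | Nonempty (Pre (M.locS {f}))}

/-- All localisations of `g` preserve presentations. -/
def Hom.LGood (g : Hom φ M M') : Prop := ∀ S S' (h : Dv φ S S'), (g.locS h).Good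

theorem lgood_id (M : DG A) : (Hom.id M).LGood := by
  intro S S' h P hP
  refine ((GGood_sq P (locC_locMapS h) (locC_locS M h).locH).1 (Hom.QI.locH hP)).qi fun s hs => ?_
  rw [RingHom.comp_apply, locMapS_app]
  exact isUnit_toLocS hs

theorem Hom.QI.lgood {g : Hom (𝟙 A) M₁ M₂} (h : g.QI) : g.LGood := by
  intro S S' hd P hP
  rw [← P.map_map (g.locL S) ((Hom.id M₂).locS hd) (g.locS hd) (Category.id_comp _)
    (Hom.locS_tri g (Hom.id M₂) g (Category.id_comp _) (fun _ => rfl) (Dv.refl S) hd hd)]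
  exact lgood_id M₂ S S' hd _ ((P.qi_map_iff (GGood_locL h S)).2 hP)

theorem Hom.lgood_of_covers {g : Hom φ M M'}
    (h : A.Covers {f | ∃ l, Arr.Cellular f l ⟨M, M', g⟩}) : g.LGood := by
  intro S S' hd P hP
  refine Hom.LocH.qi (T := Submonoid.closure S') (σ := (B.toLocS S').app 0)
    (Hom.LocH.of_covers (B.toLocS S') (h.map φ fun f hf => Set.mem_image_of_mem _ hf) ?_)
    fun s hs => isUnit_toLocS hs
  rintro _ ⟨u, ⟨l, p⟩, rfl⟩
  have a : Dv (𝟙 A) S (insert u S) := Dv.of_subset (Set.subset_insert _ _)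
  have b : Dv (𝟙 B) S' (insert (φ.app 0 u) S') := Dv.of_subset (Set.subset_insert _ _)
  have c : Dv φ S (insert (φ.app 0 u) S') := hd.comp b (Category.comp_id _)
  have d : Dv φ (insert u S) (insert (φ.app 0 u) S') := by
    rintro s (rfl | hs)
    · exact isUnit_toLocS (Submonoid.subset_closure (Set.mem_insert _ _))
    · exact c s hs
  have q : ((P.map ((Hom.id M).locS a)).map (g.locS d)).QI :=
    (p.locS (Set.mem_insert _ _) d).good.2 _ (lgood_id M _ _ a P hP)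
  rw [P.map_map _ _ (g.locS c) (locMapS_comp a d c (Category.id_comp _))
    (Hom.locS_tri (Hom.id M) g g (Category.id_comp _) (fun _ => rfl) a d c),
    ← P.map_map (g.locS hd) ((Hom.id M').locS b) (g.locS c)
      (locMapS_comp hd b c (Category.comp_id _))
      (Hom.locS_tri g (Hom.id M') g (Category.comp_id _) (fun _ => rfl) hd b c)] at q
  refine ((GGood_sq _ (locC_locMapS b) (locC_locS M' b).locH).2 (Hom.QI.locH q)).mono
    (Submonoid.closure_le.2 ?_)
  rintro s (rfl | hs)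
  · exact Submonoid.mem_sup_right (Submonoid.mem_powers _)
  · exact Submonoid.mem_sup_left (Submonoid.subset_closure hs)

theorem Hom.covers_adm {g : Hom φ M M'} (h : A.Covers {f | ∃ l, Arr.Cellular f l ⟨M, M', g⟩}) :
    A.Covers M.Adm :=
  h.mono fun f ⟨_, p⟩ => (p.locS (S := {f}) (S' := {φ.app 0 f}) rfl
    (Dv.of_mapsTo (Set.mapsTo_singleton.2 rfl))).good.1

theorem Hom.LGood.pre {g : Hom φ M M'} (hg : g.LGood) {S : Set (A.obj 0)} {S' : Set (B.obj 0)}
    (h : Dv φ S S') (p : Nonempty (Pre (M.locS S))) : Nonempty (Pre (M'.locS S')) :=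
  p.elim fun q => ⟨⟨_, hg S S' h _ q.2⟩⟩

theorem Hom.LGood.adm {g : Hom φ M M'} (hg : g.LGood) {f : A.obj 0} (hf : f ∈ M.Adm) :
    φ.app 0 f ∈ M'.Adm := hg.pre (Dv.of_mapsTo (Set.mapsTo_singleton.2 rfl)) hf

theorem Adm.pre {f : A.obj 0} (hf : f ∈ M.Adm) {S : Set (A.obj 0)} (h : f ∈ S) :
    Nonempty (Pre (M.locS S)) := (lgood_id M).pre (Dv.of_subset (Set.singleton_subset_iff.2 h)) hf

theorem Adm.mul {f : A.obj 0} (hf : f ∈ M.Adm) (a : A.obj 0) : f * a ∈ M.Adm :=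
  (lgood_id M).pre (dv_mul f a) hf

theorem Hom.QI.adm_eq {g : Hom (𝟙 A) M₁ M₂} (h : g.QI) : M₁.Adm = M₂.Adm := by
  ext f
  refine ⟨fun hf => h.lgood.adm hf, fun ⟨q⟩ => ?_⟩
  obtain ⟨_, _, l⟩ := exists_lift (GGood_locL h {f}) q.1
  exact ⟨⟨l.pd, (l.qi_iff (GGood_locL h {f})).2 q.2⟩⟩

/-- In a square with quasi-isomorphisms `a`, `b` on the sides. -/
theorem Hom.lgood_iff {M₁' M₂' : DG B} {a : Hom (𝟙 A) M₁ M₂} {b : Hom (𝟙 B) M₁' M₂'}
    {g₁ : Hom φ M₁ M₁'} {g₂ : Hom φ M₂ M₂'} (s : g₁.Sq b a g₂) (ha : a.QI) (hb : b.QI) :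
    g₁.LGood ↔ g₂.LGood := by
  have e : ∀ S S' (h : Dv φ S S') (q : PD (M₁.locS S)),
      (q.map (g₁.locS h)).map (b.locL S') = (q.map (a.locL S)).map (g₂.locS h) := fun S S' h q =>
    (q.map_map _ _ ((g₁.locS h).comp (b.locL S') (Category.comp_id _)) (Category.comp_id _)
      fun _ => rfl).trans (q.map_map _ _ _ (Category.id_comp _)
        (Hom.locS_sq (by simp) s h (Dv.refl S') (Dv.refl S) h)).symm
  refine ⟨fun k S S' h q hq => ?_, fun k S S' h q hq => ?_⟩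
  · obtain ⟨_, _, l⟩ := exists_lift (GGood_locL ha S) q
    have h1 := (l.qi_iff (GGood_locL ha S)).2 hq
    refine Hom.good_of_one ((l.pd.qi_map_iff (GGood_locL ha S)).2 h1) ?_ q hq
    rw [← e]
    exact (PD.qi_map_iff _ (GGood_locL hb S')).2 (k S S' h _ h1)
  · refine (PD.qi_map_iff _ (GGood_locL hb S')).1 ?_
    rw [e]
    exact k S S' h _ ((q.qi_map_iff (GGood_locL ha S)).2 hq)

theorem covers_inter {U V : Set (A.obj 0)} (hU : A.Covers U) (hV : A.Covers V)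
    (mU : ∀ f ∈ U, ∀ a, f * a ∈ U) (mV : ∀ f ∈ V, ∀ a, f * a ∈ V) : A.Covers (U ∩ V) := by
  by_contra hc
  obtain ⟨m, hm, hI⟩ := Ideal.exists_le_maximal _ (mt SRing.covers_iff.2 hc)
  have hb : ∀ b ∈ A.bdry, b ∈ m := fun b hb => hI (Ideal.subset_span (Or.inr hb))
  obtain ⟨f, hf, hf'⟩ := hU.exists_notMem hm.ne_top hb
  obtain ⟨g, hg, hg'⟩ := hV.exists_notMem hm.ne_top hb
  have : f * g ∈ m := hI (Ideal.subset_span (Or.inl ⟨mU f hf g, mul_comm g f ▸ mV g hg f⟩))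
  exact (hm.isPrime.mem_or_mem this).elim hf' hg'

end DG

end Pool.Agent.P.MP_932208_ag.Ax
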