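import Pool.Agent.P.MP_932208_ag.Ex.GMod
import Pool.Agent.P.MP_932208_ag.Ex.GGood
import Pool.Agent.P.MP_932208_ag.Ex.Exist

/-!
The determinant of perfect complexes exists.
-/

namespace Pool.Agent.P.MP_932208_ag.Ax

open CategoryTheory SRing Classical

section chart
variable {R R' R'' : SRing} {φ : R ⟶ R'} {M : DG R} {M' : DG R'} {M'' : DG R''}

/-- The map of determinants on one chart. -/
noncomputable abbrev cM (g : DG.Hom φ M M') (hg : g.Good) :
    DG.Hom φ (famPre M).tw.D (famPre M').tw.D := ((bcPre g hg).tw (plain_bcPre _ _)).D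

theorem cM_tri {χ : R' ⟶ R''} {ρ : R ⟶ R''} {g : DG.Hom φ M M'} {g' : DG.Hom χ M' M''}
    {g'' : DG.Hom ρ M M''} (hg : g.Good) (hg' : g'.Good) (hg'' : g''.Good) (e : φ ≫ χ = ρ)
    (e' : g''.Tri g g') : (cM g'' hg'').Tri (cM g hg) (cM g' hg') :=
  Tw.Hom.dg_tri ((bcPre g hg).tw (plain_bcPre _ _)) ((bcPre g' hg').tw (plain_bcPre _ _))
    ((bcPre g'' hg'').tw (plain_bcPre _ _)) (by rw [← e, satMap_comp])
    (fun _ x => Fam.Hom.X_tri (bcPre g hg) (bcPre g' hg') (bcPre g'' hg'') e.symm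
      (fun q => Subtype.ext (q.1.map_map g g' g'' e e').symm) (fun _ _ _ => one_el _) x)
    fun _ _ => one_μ _ _

theorem cM_sq {R₃ : SRing} {β : R' ⟶ R₃} {γ : R ⟶ R''} {δ : R'' ⟶ R₃} {W : DG R₃}
    {a : DG.Hom φ M M'} {b : DG.Hom β M' W} {c : DG.Hom γ M M''} {d : DG.Hom δ M'' W}
    (ha : a.Good) (hb : b.Good) (hc : c.Good) (hd : d.Good) (e : φ ≫ β = γ ≫ δ)
    (s : a.Sq b c d) : (cM a ha).Sq (cM b hb) (cM c hc) (cM d hd) := fun x =>
  have k : (a.comp b rfl).Good := fun P hP => by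
    rw [← P.map_map a b (a.comp b rfl) rfl fun _ => rfl]
    exact hb _ (ha _ hP)
  (cM_tri ha hb k rfl (fun _ => rfl) x).symm.trans (cM_tri hc hd k e.symm s x)

theorem cM_line (g : DG.Hom φ M M') (hg : g.Good) (h : Nonempty (Pre M)) :
    (cM g hg).LineBaseChange := ((bcPre g hg).tw (plain_bcPre _ _)).line h.some

end chart

variable {J J' : Type} [SmallCategory J] [SmallCategory J'] {A : J ⥤ SRing} {B : J' ⥤ SRing}

/-- The labels of `U` are admissible for `M` and the transition maps are local base changes. -/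
def Sites.Fits (U : Sites A) (M : Mod A) : Prop :=
  (∀ j x, (U.obj j).lab x ∈ (M.obj j).Adm) ∧ ∀ (i j : J) (ψ : i ⟶ j), (M.map ψ).LGood

theorem Sites.Fits.cell {U : Sites A} {M : Mod A} (h : U.Fits M) : (U.loc M).Cell :=
  ⟨fun a => a.S.2.elim fun x hx => DG.Adm.pre (h.1 a.j x) ⟨x, hx, rfl⟩,
    fun _ _ f => h.2 _ _ f.1 _ _ _⟩

/-- The determinant on the refined charts. -/
noncomputable abbrev Sites.Fits.det {U : Sites A} {M : Mod A} (h : U.Fits M) : Mod U.ring :=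
  (preD _ h.cell).mod

theorem Sites.Fits.isLine {U : Sites A} {M : Mod A} (h : U.Fits M) : h.det.IsLine :=
  (preD _ h.cell).isLine

section hom
variable {U : Sites A} {U' : Sites B} {M : Mod A} {M' : Mod B} (h : U.Fits M) (h' : U'.Fits M')
  {u : J' ⥤ J} {η : u ⋙ A ⟶ B} (a : ∀ j, Site.Hom (η.app j) (U.obj (u.obj j)) (U'.obj j))
  (g : Mod.Hom η (M.restrict u) M') (hg : ∀ j, (g.app j).LGood)

/-- Base change of determinants as a map of presheaves. -/
@[reducible] noncomputable def detPsh (j : J') : Psh.Hom (η.app j) (a j).w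
    (Sites.psh h.det (u.obj j)) (Sites.psh h'.det j) where
  g e := (cM ((g.app j).locS ((a j).dv e)) (hg j _ _ _)).resMap (toLocS_nat _ _).symm
  g_r p e e' := cM_tri (h.cell.2 _ _ (U.inc p)) (hg j _ _ ((a j).dv e)) (hg j _ _ ((a j).dv e'))
    (locMapS_comp _ _ _ ((congrArg (· ≫ _) (A.map_id _)).trans (Category.id_comp _)))
    (DG.Hom.locS_tri _ _ _ ((congrArg (· ≫ _) (A.map_id _)).trans (Category.id_comp _))
      (fun x => congrArg (g.app j).toFun (M.map_id _ x).symm) _ _ _)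
  r_g e p e' := cM_tri (hg j _ _ ((a j).dv e)) (h'.cell.2 _ _ (U'.inc p)) (hg j _ _ ((a j).dv e'))
    (locMapS_comp _ _ _ ((congrArg (_ ≫ ·) (B.map_id _)).trans (Category.comp_id _)))
    (DG.Hom.locS_tri _ _ _ ((congrArg (_ ≫ ·) (B.map_id _)).trans (Category.comp_id _))
      (fun x => (M'.map_id _ _).symm) _ _ _)

variable (ha : ∀ {i j : J'} (ψ : i ⟶ j) x,
  (a j).w ((U.map (u.map ψ)).w x) = (U'.map ψ).w ((a i).w x))

/-- Base change of glued determinants. -/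
@[reducible] noncomputable def detHom :
    Mod.Hom η ((Sites.glue h.det).restrict u) (Sites.glue h'.det) where
  app j := (detPsh h h' a g hg j).Γ (a j)
  nat {i j} ψ := Psh.Hom.Γ_sq (U.map (u.map ψ)) (a j) (a i) (U'.map ψ)
    (Sites.pshMap h.det (u.map ψ)) (detPsh h h' a g hg j) (detPsh h h' a g hg i)
    (Sites.pshMap h'.det ψ) (ha ψ) fun _ _ _ _ pa pb pc pd =>
      cM_sq (h.cell.2 _ _ (U.arr (u.map ψ) pa)) (hg j _ _ ((a j).dv pb)) (hg i _ _ ((a i).dv pc))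
        (h'.cell.2 _ _ (U'.arr ψ pd))
        ((locMapS_comp _ _ (((U.map (u.map ψ)).dv pa).comp ((a j).dv pb) rfl) rfl).trans
          (locMapS_comp _ _ _ (η.naturality ψ).symm).symm)
        (DG.Hom.locS_sq (η.naturality ψ) (g.nat ψ) _ _ _ _)

omit ha in
theorem line_detPsh (j : J') : ((detPsh h h' a g hg j).Γ (a j)).LineBaseChange := by
  refine Psh.Hom.line_Γ (Sites.qc_of_line h.isLine _) (Sites.qc_of_line h'.isLine _) (a j)
    (detPsh h h' a g hg j) fun x => ?_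
  have d : Dv (η.app j) ((U.obj (u.obj j)).lbl (.one x)) ((U'.obj j).lbl (.one ((a j).w x))) :=
    (a j).dv fun _ p => congrArg (a j).w p
  have k := cM_line ((g.app j).locS d) (hg j _ _ d) (h.cell.1 ⟨u.obj j, .one x⟩)
  exact (a j).lineAway x k (toLocS_nat _ _).symm

theorem line_detHom (j : J') : ((detHom h h' a g hg ha).app j).LineBaseChange :=
  line_detPsh h h' a g hg j

end hom

/-- The cover given by a family of sets of vertices. -/
@[reducible] def Sites.of (V : ∀ j, Set ((A.obj j).obj 0)) (c : ∀ j, (A.obj j).Covers (V j))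
    (m : ∀ {i j : J} (ψ : i ⟶ j), ∀ f ∈ V i, (A.map ψ).app 0 f ∈ V j) : Sites A where
  obj j := ⟨V j, Subtype.val, by rw [Subtype.range_coe]; exact c j⟩
  map ψ := ⟨fun f => ⟨_, m ψ f.1 f.2⟩, fun _ => rfl⟩
  w_id j x := Subtype.ext (congrArg (fun f => SRing.Hom.app f 0 x.1) (A.map_id j))
  w_comp ψ χ x := Subtype.ext (congrArg (fun f => SRing.Hom.app f 0 x.1) (A.map_comp ψ χ))

/-- Presentations exist locally and are preserved by the transition maps. -/
def Mod.LCell (M : Mod A) : Prop :=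
  (∀ j, (A.obj j).Covers (M.obj j).Adm) ∧ ∀ (i j : J) (ψ : i ⟶ j), (M.map ψ).LGood

theorem Mod.Perfect.lcell {M : Mod A} (h : M.Perfect) : M.LCell :=
  ⟨fun j => DG.Hom.covers_adm (h _ _ (𝟙 j)), fun _ _ ψ => DG.Hom.lgood_of_covers (h _ _ ψ)⟩

theorem Mod.lcell_iff {P P' : Mod A} (g : Mod.Hom (𝟙 A) P P') (hg : ∀ j, (g.app j).QIsoAway 1) :
    P.LCell ↔ P'.LCell :=
  and_congr (forall_congr' fun j => by rw [DG.Hom.QI.adm_eq (g := g.app j) (hg j)])
    (forall₃_congr fun i j ψ => DG.Hom.lgood_iff (a := g.app i) (b := g.app j) (g.nat ψ) (hg i)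
      (hg j))

/-- The cover by all admissible open sets. -/
@[reducible] def Mod.LCell.sites {M : Mod A} (h : M.LCell) : Sites A :=
  Sites.of (fun j => (M.obj j).Adm) h.1 fun ψ _ hf => (h.2 _ _ ψ).adm hf

theorem Mod.LCell.fits {M : Mod A} (h : M.LCell) : h.sites.Fits M := ⟨fun _ x => x.2, h.2⟩

/-- The determinant. -/
noncomputable def ldet (M : Mod A) : Mod A :=
  if h : M.LCell then Sites.glue h.fits.det else Mod.unit A

theorem ldet_eq {M : Mod A} (h : M.LCell) : ldet M = Sites.glue h.fits.det := dif_pos h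

theorem ldet_hom {M : Mod A} {M' : Mod B} (h : M.LCell) (h' : M'.LCell) {u : J' ⥤ J}
    {η : u ⋙ A ⟶ B} (g : Mod.Hom η (M.restrict u) M') (hg : ∀ j, (g.app j).LGood) :
    ∃ k : Mod.Hom η ((ldet M).restrict u) (ldet M'), ∀ j, (k.app j).LineBaseChange := by
  rw [ldet_eq h, ldet_eq h']
  exact ⟨_, line_detHom h.fits h'.fits (fun j => ⟨fun f => ⟨_, (hg j).adm f.2⟩, fun _ => rfl⟩) g hg
    fun ψ x => Subtype.ext (congrArg (fun f => SRing.Hom.app f 0 x.1) (η.naturality ψ))⟩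

theorem ldet_hom' {B : J ⥤ SRing} {M : Mod A} {M' : Mod B} (h : M.LCell) (h' : M'.LCell)
    {η : A ⟶ B} (g : Mod.Hom η M M') (hg : ∀ j, (g.app j).LGood) :
    ∃ k : Mod.Hom η (ldet M) (ldet M'), ∀ j, (k.app j).LineBaseChange := by
  obtain ⟨k, hk⟩ := ldet_hom h h' (u := 𝟭 J) (η := η) ⟨g.app, g.nat⟩ hg
  generalize ldet M = X at k hk ⊢
  exact ⟨⟨k.app, k.nat⟩, hk⟩

/-- The identity. -/
@[reducible] def Mod.Hom.id (M : Mod A) : Mod.Hom (𝟙 A) M M :=
  ⟨fun j => DG.Hom.id (M.obj j), fun _ _ => rfl⟩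

theorem Sites.Fits.equiv_ldet {U : Sites A} {M : Mod A} (h : U.Fits M) (h' : M.LCell) :
    (Sites.glue (cdet (U.loc M))).Equiv (ldet M) := by
  rw [ldet_eq h', cdet_eq h.cell]
  have : ∃ k : Mod.Hom (𝟙 A) ((Sites.glue h.det).restrict (𝟭 J)) (Sites.glue h'.fits.det),
      ∀ j, (k.app j).LineBaseChange := ⟨_, line_detHom (u := 𝟭 J) (η := 𝟙 A) h h'.fits
    (fun j => ⟨fun x => ⟨_, h.1 j x⟩, fun _ => rfl⟩) (Mod.Hom.id M) (fun _ => DG.lgood_id _)
    fun ψ x => Subtype.ext ((U.map ψ).lab x)⟩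
  obtain ⟨k, hk⟩ := this
  generalize Sites.glue h.det = X at k hk ⊢
  exact Mod.Equiv.of_hom ⟨k.app, k.nat⟩ fun j => (hk j).qi

theorem Sites.Fits.qc {U : Sites A} {M : Mod A} (h : U.Fits M) : Sites.QC (cdet (U.loc M)) :=
  Sites.qc_of_line (cdet_isLine h.cell)

theorem ldet_mul {M₁ M₂ M₃ : Mod A} (i : Mod.Hom (𝟙 A) M₁ M₂) (p : Mod.Hom (𝟙 A) M₂ M₃)
    (h₁ : M₁.LCell) (h₂ : M₂.LCell) (h₃ : M₃.LCell)
    (h : ∀ j, DG.ShortExact (i.app j) (p.app j)) :
    Mod.IsTensor (ldet M₁) (ldet M₃) (ldet M₂) := by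
  let U : Sites A := Sites.of (fun j => ((M₁.obj j).Adm ∩ (M₂.obj j).Adm) ∩ (M₃.obj j).Adm)
    (fun j => DG.covers_inter (DG.covers_inter (h₁.1 j) (h₂.1 j) (fun _ => DG.Adm.mul)
      fun _ => DG.Adm.mul) (h₃.1 j) (fun _ q a => ⟨DG.Adm.mul q.1 a, DG.Adm.mul q.2 a⟩)
      fun _ => DG.Adm.mul)
    fun ψ _ q => ⟨⟨(h₁.2 _ _ ψ).adm q.1.1, (h₂.2 _ _ ψ).adm q.1.2⟩, (h₃.2 _ _ ψ).adm q.2⟩
  have f₁ : U.Fits M₁ := ⟨fun _ x => x.2.1.1, h₁.2⟩
  have f₂ : U.Fits M₂ := ⟨fun _ x => x.2.1.2, h₂.2⟩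
  have f₃ : U.Fits M₃ := ⟨fun _ x => x.2.2, h₃.2⟩
  obtain ⟨L, L', P, m, e, e', e'', o⟩ := Sites.isTensor_glue f₁.qc f₃.qc f₂.qc
    (cdet_mul (U.locHom i) (U.locHom p) f₁.cell f₂.cell f₃.cell fun a => (h a.j).locL _)
  exact ⟨L, L', P, m, e.trans (f₁.equiv_ldet h₁), e'.trans (f₃.equiv_ldet h₃),
    e''.trans (f₂.equiv_ldet h₂), o⟩

theorem perfect_twist (γ : Cocycle A) : ((Mod.unit A).twist γ).Perfect :=
  (Mod.isLine_twist γ).perfect

theorem ldet_rankOne (γ : Cocycle A) :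
    (ldet ((Mod.unit A).twist γ)).Equiv ((Mod.unit A).twist γ) := by
  have h := (perfect_twist γ).lcell
  have e := (cdet_invariant h.fits.cell (Sites.equiv_loc_twist γ).symm).trans (cdet_rankOne _)
  exact (h.fits.equiv_ldet h).symm.trans ((Sites.equiv_glue e h.fits.qc).trans
    (Sites.equiv_glue_twist γ).symm)

theorem ldet_rankZero {M : Mod A} (hM : ∀ j, (M.obj j).Acyc) : (ldet M).Equiv (Mod.unit A) := by
  have h : M.LCell := ⟨fun j => SRing.covers_of_one ⟨⟨_, PD.qi_empty ((hM j).locS _)⟩⟩,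
    fun i j _ _ _ _ => good_of_acyc ((hM i).locS _) ((hM j).locS _) _⟩
  have e := cdet_rankZero (M := h.sites.loc M) fun a => (hM a.j).locS _
  exact (h.fits.equiv_ldet h).symm.trans ((Sites.equiv_glue e h.fits.qc).trans
    (Sites.equiv_glue_of_loc (M := Mod.unit A) (Sites.qc_of_line (Mod.isLine_unit _))
      ⟨fun a => DG.unitHom (h.sites.ι.app a), fun f x =>
        congrArg (fun k => N.map k x) (h.sites.ι.naturality f)⟩
      fun a => (h.sites.obj a.j).locH le_rfl).symm)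

/-- The determinant of perfect complexes. -/
noncomputable def theDeterminant : Determinant where
  det := ldet
  isLine h := by
    rw [ldet_eq h.lcell]; exact Sites.isLine_glue h.lcell.fits.isLine
  invariant h e := Mod.Equiv.map ldet Mod.lcell_iff (fun g hg p p' =>
    let ⟨k, hk⟩ := ldet_hom' p p' g fun j => DG.Hom.QI.lgood (hg j)
    Mod.Equiv.of_hom k fun j => (hk j).qi) e h.lcell
  restrict u _ h :=
    let ⟨k, hk⟩ := ldet_hom h.lcell (h.restrict u).lcell (η := 𝟙 _) (Mod.Hom.id _)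
      fun _ => DG.lgood_id _
    (Mod.Equiv.of_hom k fun j => (hk j).qi).symm
  baseChange g h h' hg :=
    let ⟨k, hk⟩ := ldet_hom' h.lcell h'.lcell g fun j => DG.Hom.lgood_of_covers (hg j)
    ⟨_, _, k, .refl _, .refl _, hk⟩
  multiplicative i p h₁ h₂ h₃ h := ldet_mul i p h₁.lcell h₂.lcell h₃.lcell h
  rankOne := ldet_rankOne
  rankZero := ldet_rankZero

end Pool.Agent.P.MP_932208_ag.Ax
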