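import Pool.Agent.P.MP_932208_ag.Ex.Five
import Pool.Agent.P.MP_932208_ag.Ex.CotL2

/-!
Saturation: invert, in every degree, the simplices whose class in `π_0` is a unit.
-/

namespace Pool.Agent.P.MP_932208_ag.Ax

open CategoryTheory

namespace SRing
variable {A B C : SRing}

/-- The boundaries form an ideal in every degree. -/
theorem Sat_bd_mul {n : ℕ} {x : A.obj n} (hx : A.ab.Bd x) (u : A.obj n) : A.ab.Bd (u * x) := by
  obtain ⟨z, hz, rfl⟩ := hx
  refine ⟨A.map (degen 0) u * z, fun i => ?_, ?_⟩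
  · have h : A.map (face i.succ) z = 0 := hz i
    change A.map (face i.succ) (A.map (degen 0) u * z) = 0
    rw [map_mul, h, mul_zero]
  · change A.map (face 0) (A.map (degen 0) u * z) = u * A.map (face 0) z
    rw [map_mul, A.map_comp, degen_face_zero, A.map_id]

/-- The spherical simplices form an ideal in every degree. -/
theorem Sat_sph_mul {n : ℕ} {x : A.obj n} (hx : A.ab.Sph x) (u : A.obj n) : A.ab.Sph (u * x) := by
  cases n with
  | zero => trivial
  | succ m =>
    intro i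
    have h : A.map (face i) x = 0 := hx i
    change A.map (face i) (u * x) = 0
    rw [map_mul, h, mul_zero]

theorem Sat_cut_comp {l r m : ℕ} (χ : Op r 1) (α : Op r m) (η : Op l r) :
    (c2_cut χ α).comp η = c2_cut (χ.comp η) (α.comp η) := rfl

theorem Sat_cut_one {r m : ℕ} (α : Op r m) : c2_cut (vert r 1) α = α := by
  ext a; simp [c2_cut, vert]

theorem Sat_cut_zero {r m : ℕ} (α : Op r m) : c2_cut (vert r 0) α = vert r 0 := by
  ext a; simp [c2_cut, vert]

/-- On homotopy groups a simplex acts through its zeroth vertex. -/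
theorem Sat_key {k m : ℕ} {x : A.obj k} (hx : A.ab.Sph x) (u : A.obj m) (α : Op k m) :
    A.ab.Bd (A.map α u * x - A.map (vert k 0) u * x) := by
  have hstep : ∀ j : ℕ, j ≤ k → A.ab.Bd (A.map (c2_cut (s1_step k j) α) u * x -
      A.map (c2_cut (s1_step k (j + 1)) α) u * x) := by
    intro j hj
    have hj' : j < k + 1 := by omega
    have hf : ∀ i : Fin (k + 2), A.map (face i)
        (A.map (c2_cut (s1_step (k + 1) (j + 1)) (α.comp (degen ⟨j, hj'⟩))) u *
          A.map (degen ⟨j, hj'⟩) x) =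
        A.map (c2_cut ((s1_step (k + 1) (j + 1)).comp (face i))
          (α.comp ((degen ⟨j, hj'⟩).comp (face i)))) u *
          A.ab.map (face i) (A.ab.map (degen ⟨j, hj'⟩) x) := fun i => by
      rw [map_mul, A.map_comp, Sat_cut_comp]; rfl
    refine SAb.s1_double (X := A.ab) (Sat_sph_mul hx _) (Sat_sph_mul hx _) ⟨j, hj'⟩
      (A.map (c2_cut (s1_step (k + 1) (j + 1)) (α.comp (degen ⟨j, hj'⟩))) u *
          A.map (degen ⟨j, hj'⟩) x) (fun i hi => ?_) (fun i hi => ?_) (fun i hi hi' => ?_)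
    · refine (hf i).trans ?_
      rw [SAb.s1_ds_id (X := A.ab) x _ i (Or.inl hi), s1_step_face j j i (Or.inl ⟨hi, rfl⟩),
        s1_degen_face_id _ i (Or.inl hi), OrderHom.comp_id]
    · refine (hf i).trans ?_
      rw [SAb.s1_ds_id (X := A.ab) x _ i (Or.inr hi), s1_step_face j (j + 1) i (Or.inr ⟨hi, rfl⟩),
        s1_degen_face_id _ i (Or.inr hi), OrderHom.comp_id]
    · refine (hf i).trans ?_
      rw [SAb.s1_ds_zero (X := A.ab) hx _ i hi hi']
      exact mul_zero _
  have htel : ∀ j : ℕ, j ≤ k + 1 → A.ab.Bd (A.map (c2_cut (s1_step k 0) α) u * x -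
      A.map (c2_cut (s1_step k j) α) u * x) := by
    intro j
    induction j with
    | zero => intro _; rw [sub_self]; exact A.ab.bd_zero k
    | succ j ih =>
      intro hj
      have h := (ih (by omega)).add (hstep j (by omega))
      rwa [sub_add_sub_cancel] at h
  have h := htel (k + 1) le_rfl
  rwa [s1_step_zero, s1_step_last, Sat_cut_one, Sat_cut_zero] at h

/-- Two vertices of a simplex have the same class in `π_0`. -/
theorem Sat_vertex {m : ℕ} (u : A.obj m) (α : Op 0 m) :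
    A.ab.Bd (A.map α u - A.map (vert 0 0) u) := by
  have h := Sat_key (A := A) (k := 0) (x := 1) trivial u α
  rwa [mul_one, mul_one] at h

/-- A vertex that is a boundary acts as zero on homotopy groups. -/
theorem Sat_bd_act {k : ℕ} {x : A.obj k} (hx : A.ab.Sph x) {a : A.obj 0} (ha : A.ab.Bd a) :
    A.ab.Bd (A.map (vert k 0) a * x) := by
  obtain ⟨p, hp, rfl⟩ := ha
  have h1 : A.map (face (Fin.succ 0)) p = 0 := hp 0
  have h := Sat_key hx p ((face 0).comp (vert k 0))
  have e : (vert k 0 : Op k 1) = (face (Fin.succ 0)).comp (vert k 0) := by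
    ext a
    change ((0 : Fin 2) : ℕ) = ((face (Fin.succ 0) : Op 0 1) 0 : Fin 2)
    rw [face_succ_zero]
  rw [e, ← A.map_comp, ← A.map_comp, h1, map_zero, zero_mul, sub_zero] at h
  exact h

/-- A simplex whose class in `π_0` is a unit acts invertibly on homotopy groups. -/
theorem Sat_act {k : ℕ} {u : A.obj k} {b : A.obj 0}
    (hb : A.ab.Bd (A.map (vert 0 0) u * b - 1)) {x : A.obj k} (hx : A.ab.Sph x) :
    A.ab.Bd (A.map (vert k 0) b * u * x - x) := by
  have h1 := Sat_bd_mul (Sat_key hx u OrderHom.id) (A.map (vert k 0) b)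
  have h2 := Sat_bd_act hx hb
  have e : (vert 0 0 : Op 0 k).comp (vert k 0) = vert k 0 := rfl
  rw [map_sub, map_mul, map_one, A.map_comp, e] at h2
  rw [A.map_id] at h1
  have h3 := h1.add h2
  have e2 : A.map (vert k 0) b * (u * x - A.map (vert k 0) u * x) +
      (A.map (vert k 0) u * A.map (vert k 0) b - 1) * x = A.map (vert k 0) b * u * x - x := by
    ring
  exact e2 ▸ h3

/-- The simplices whose class in `π_0` is a unit. -/
def W (A : SRing) (n : ℕ) : Submonoid (A.obj n) where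
  carrier := {a | ∃ b : A.obj 0, A.ab.Bd (A.map (vert 0 0) a * b - 1)}
  mul_mem' := by
    rintro a a' ⟨b, hb⟩ ⟨b', hb'⟩
    refine ⟨b * b', ?_⟩
    have h := (Sat_bd_mul hb (A.map (vert 0 0) a' * b')).add hb'
    have e : A.map (vert 0 0) a' * b' * (A.map (vert 0 0) a * b - 1) +
        (A.map (vert 0 0) a' * b' - 1) = A.map (vert 0 0) (a * a') * (b * b') - 1 := by
      rw [map_mul]; ring
    exact e ▸ h
  one_mem' := ⟨1, by rw [map_one, mul_one, sub_self]; exact A.ab.bd_zero 0⟩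

theorem Sat_W_map {k n : ℕ} (θ : Op k n) : A.W n ≤ (A.W k).comap (A.map θ) := by
  rintro u ⟨b, hb⟩
  refine ⟨b, ?_⟩
  have h := (Sat_bd_mul (Sat_vertex u (θ.comp (vert 0 0))) b).add hb
  have e : b * (A.map (θ.comp (vert 0 0)) u - A.map (vert 0 0) u) +
      (A.map (vert 0 0) u * b - 1) = A.map (vert 0 0) (A.map θ u) * b - 1 := by
    rw [A.map_comp]; ring
  exact e ▸ h

theorem Sat_W_hom (φ : A ⟶ B) (n : ℕ) : A.W n ≤ (B.W n).comap (φ.app n) := by
  rintro u ⟨b, hb⟩
  refine ⟨φ.app 0 b, ?_⟩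
  have h : B.ab.Bd (φ.app 0 (A.map (vert 0 0) u * b - 1)) := hb.map (Hom.ab φ)
  rwa [map_sub, map_mul, map_one, φ.nat] at h

theorem Sat_cancel {k : ℕ} {u x : A.obj k} (hu : u ∈ A.W k) (hx : A.ab.Sph x)
    (h : A.ab.Bd (u * x)) : A.ab.Bd x := by
  obtain ⟨b, hb⟩ := hu
  have h1 := (Sat_bd_mul h (A.map (vert k 0) b)).sub (Sat_act hb hx)
  have e : A.map (vert k 0) b * (u * x) - (A.map (vert k 0) b * u * x - x) = x := by ring
  exact e ▸ h1

/-- The saturation `n ↦ W_n⁻¹ A_n`. -/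
noncomputable def sat (A : SRing) : SRing where
  obj n := Localization (A.W n)
  map {k _} θ := IsLocalization.map (Localization (A.W k)) (A.map θ) (Sat_W_map θ)
  map_id n := fun x => by
    refine DFunLike.congr_fun (f := IsLocalization.map (Localization (A.W n))
      (A.map (OrderHom.id : Op n n)) (Sat_W_map _)) (g := RingHom.id _)
      (IsLocalization.ringHom_ext (A.W n) (RingHom.ext fun a => ?_)) x
    rw [RingHom.comp_apply, IsLocalization.map_eq, A.map_id]; rfl
  map_comp {l k n} θ η := fun x => by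
    refine DFunLike.congr_fun (f := (IsLocalization.map (Localization (A.W l))
      (A.map η) (Sat_W_map η)).comp (IsLocalization.map (Localization (A.W k))
      (A.map θ) (Sat_W_map θ))) (g := IsLocalization.map (Localization (A.W l))
      (A.map (θ.comp η)) (Sat_W_map _))
      (IsLocalization.ringHom_ext (A.W n) (RingHom.ext fun a => ?_)) x
    simp only [RingHom.comp_apply, IsLocalization.map_eq]
    rw [A.map_comp]

/-- The localisation map. -/
noncomputable def toSat (A : SRing) : A ⟶ A.sat where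
  app n := algebraMap (A.obj n) (Localization (A.W n))
  nat {k n} θ x := (IsLocalization.map_eq (S := Localization (A.W n))
    (Q := Localization (A.W k)) (Sat_W_map θ) x).symm

theorem Sat_ext {n : ℕ} {R : Type} [CommRing R] {f g : A.sat.obj n →+* R}
    (h : ∀ a, f (A.toSat.app n a) = g (A.toSat.app n a)) (x : A.sat.obj n) : f x = g x :=
  DFunLike.congr_fun (IsLocalization.ringHom_ext (S := Localization (A.W n)) (A.W n)
    (RingHom.ext h)) x

/-- The components of `satMap`. -/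
noncomputable def Sat_app (φ : A ⟶ B) (n : ℕ) : A.sat.obj n →+* B.sat.obj n :=
  IsLocalization.map (S := Localization (A.W n)) (Localization (B.W n)) (φ.app n) (Sat_W_hom φ n)

theorem Sat_app_eq (φ : A ⟶ B) (n : ℕ) (a : A.obj n) :
    Sat_app φ n (A.toSat.app n a) = B.toSat.app n (φ.app n a) :=
  IsLocalization.map_eq (S := Localization (A.W n)) (Q := Localization (B.W n))
    (Sat_W_hom φ n) a

/-- Functoriality. -/
noncomputable def satMap (φ : A ⟶ B) : A.sat ⟶ B.sat where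
  app := Sat_app φ
  nat {k n} θ := Sat_ext (f := (Sat_app φ k).comp (A.sat.map θ))
    (g := (B.sat.map θ).comp (Sat_app φ n)) fun a => by
      rw [RingHom.comp_apply, RingHom.comp_apply, ← A.toSat.nat, Sat_app_eq, Sat_app_eq, φ.nat,
        B.toSat.nat]

theorem satMap_id (A : SRing) : satMap (𝟙 A) = 𝟙 A.sat :=
  SRing.hom_ext fun n => Sat_ext (f := Sat_app (𝟙 A) n) (g := RingHom.id _)
    fun a => Sat_app_eq (𝟙 A) n a

theorem satMap_comp (φ : A ⟶ B) (χ : B ⟶ C) : satMap (φ ≫ χ) = satMap φ ≫ satMap χ :=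
  SRing.hom_ext fun n => Sat_ext (f := Sat_app (φ ≫ χ) n)
    (g := (Sat_app χ n).comp (Sat_app φ n)) fun a => by
      rw [RingHom.comp_apply, Sat_app_eq, Sat_app_eq, Sat_app_eq]; rfl

theorem toSat_nat (φ : A ⟶ B) : φ ≫ B.toSat = A.toSat ≫ satMap φ :=
  SRing.hom_ext fun n a => (Sat_app_eq φ n a).symm

theorem Sat_surj {n : ℕ} (y : A.sat.obj n) :
    ∃ x : A.obj n, ∃ w ∈ A.W n, y * A.toSat.app n w = A.toSat.app n x := by
  obtain ⟨⟨x, w⟩, h⟩ := IsLocalization.surj (S := Localization (A.W n)) (A.W n) y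
  exact ⟨x, w.1, w.2, h⟩

theorem Sat_ker {n : ℕ} {x : A.obj n} (h : A.toSat.app n x = 0) : ∃ t ∈ A.W n, t * x = 0 := by
  obtain ⟨t, ht⟩ := (IsLocalization.map_eq_zero_iff (A.W n) (Localization (A.W n)) x).1 h
  exact ⟨t.1, t.2, ht⟩

theorem Sat_unit {n : ℕ} {w : A.obj n} (h : w ∈ A.W n) : IsUnit (A.toSat.app n w) :=
  IsLocalization.map_units (Localization (A.W n)) (⟨w, h⟩ : A.W n)

theorem Sat_section {n : ℕ} (i : Fin (n + 2)) :
    ∃ σ : Op (n + 1) n, σ.comp (face i) = OrderHom.id := by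
  have hi := i.2
  by_cases h : (i : ℕ) ≤ n
  · exact ⟨_, s1_degen_face_id ⟨i, by omega⟩ i (Or.inl rfl)⟩
  · exact ⟨_, s1_degen_face_id ⟨n, by omega⟩ i (Or.inr (by change (i : ℕ) = n + 1; omega))⟩

/-- Clearing denominators, keeping the vanishing faces. -/
theorem Sat_clear {n : ℕ} (y : A.sat.obj (n + 1)) :
    ∃ x : A.obj (n + 1), ∃ w ∈ A.W (n + 1), y * A.toSat.app (n + 1) w = A.toSat.app (n + 1) x ∧
      ∀ i : Fin (n + 2), A.sat.map (face i) y = 0 → A.map (face i) x = 0 := by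
  obtain ⟨x, w, hw, h⟩ := Sat_surj y
  have key : ∀ i : Fin (n + 2), ∃ t ∈ A.W (n + 1),
      A.sat.map (face i) y = 0 → A.map (face i) (t * x) = 0 := by
    intro i
    by_cases hy : A.sat.map (face i) y = 0
    · have h0 : A.toSat.app n (A.map (face i) x) = 0 := by
        rw [A.toSat.nat, ← h, map_mul, hy, zero_mul]
      obtain ⟨t, ht, htx⟩ := Sat_ker h0
      obtain ⟨σ, hσ⟩ := Sat_section i
      refine ⟨A.map σ t, Sat_W_map σ ht, fun _ => ?_⟩
      rw [map_mul, A.map_comp, hσ, A.map_id, htx]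
    · exact ⟨1, one_mem _, fun h => absurd h hy⟩
  choose t ht htx using key
  refine ⟨(∏ i, t i) * x, (∏ i, t i) * w, mul_mem (prod_mem fun i _ => ht i) hw, ?_, fun i hi => ?_⟩
  · rw [map_mul, map_mul, ← h]; ring
  · rw [← Finset.prod_erase_mul _ _ (Finset.mem_univ i), mul_assoc, map_mul, htx i hi, mul_zero]

/-- The localisation map is injective on homotopy groups. -/
theorem Sat_inj {n : ℕ} {x : A.obj n} (hx : A.ab.Sph x) (h : A.sat.ab.Bd (A.toSat.app n x)) :
    A.ab.Bd x := by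
  obtain ⟨z, hz, hzx⟩ := h
  have hzx' : A.sat.map (face 0) z = A.toSat.app n x := hzx
  obtain ⟨z', w, hw, e, hf⟩ := Sat_clear z
  have hb : A.ab.Bd (A.map (face 0) z') := ⟨z', fun i => hf i.succ (hz i), rfl⟩
  have h0 : A.toSat.app n (A.map (face 0) w * x - A.map (face 0) z') = 0 := by
    rw [map_sub, map_mul, A.toSat.nat, A.toSat.nat, ← e, map_mul, hzx', mul_comm, sub_self]
  obtain ⟨t, ht, htx⟩ := Sat_ker h0
  refine Sat_cancel (mul_mem ht (Sat_W_map (face 0) hw)) hx ?_
  have e2 : t * A.map (face 0) z' = t * A.map (face 0) w * x := by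
    rw [mul_sub, sub_eq_zero] at htx
    rw [← htx, mul_assoc]
  exact e2 ▸ Sat_bd_mul hb t

/-- The localisation map is surjective on homotopy groups. -/
theorem Sat_onto {n : ℕ} {y : A.sat.obj n} (hy : A.sat.ab.Sph y) :
    ∃ x : A.obj n, A.ab.Sph x ∧ A.sat.ab.Bd (A.toSat.app n x - y) := by
  have key : ∃ x : A.obj n, ∃ w ∈ A.W n, y * A.toSat.app n w = A.toSat.app n x ∧ A.ab.Sph x := by
    cases n with
    | zero =>
      obtain ⟨x, w, hw, h⟩ := Sat_surj y
      exact ⟨x, w, hw, h, trivial⟩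
    | succ m =>
      obtain ⟨x, w, hw, h, hf⟩ := Sat_clear y
      exact ⟨x, w, hw, h, fun i => hf i (hy i)⟩
  obtain ⟨x, w, ⟨b, hb⟩, h, hx⟩ := key
  refine ⟨A.map (vert n 0) b * x, Sat_sph_mul hx _, ?_⟩
  have hb' : A.sat.ab.Bd (A.toSat.app 0 (A.map (vert 0 0) w * b - 1)) := hb.map (Hom.ab A.toSat)
  rw [map_sub, map_mul, map_one, A.toSat.nat] at hb'
  have h1 := Sat_act hb' hy
  rw [map_mul, A.toSat.nat, ← h, mul_comm y, ← mul_assoc]
  exact h1

theorem sat_sat (A : SRing) : A.sat.Sat := by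
  rintro n a ⟨b, hb⟩
  obtain ⟨x, u, hu, ha⟩ := Sat_surj a
  obtain ⟨y, v, hv, hy⟩ := Sat_surj b
  have h1 : A.sat.ab.Bd (A.toSat.app 0 (A.map (vert 0 0) x * y - A.map (vert 0 0) u * v)) := by
    have h := Sat_bd_mul hb (A.sat.map (vert 0 0) (A.toSat.app n u) * A.toSat.app 0 v)
    have e : A.sat.map (vert 0 0) (A.toSat.app n u) * A.toSat.app 0 v *
        (A.sat.map (vert 0 0) a * b - 1) =
        A.toSat.app 0 (A.map (vert 0 0) x * y - A.map (vert 0 0) u * v) := by
      rw [map_sub, map_mul, map_mul, A.toSat.nat, A.toSat.nat, ← ha, ← hy, map_mul]; ring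
    exact e ▸ h
  have h2 := Sat_inj (n := 0) trivial h1
  obtain ⟨c, hc⟩ := mul_mem (show A.map (vert 0 0) u ∈ A.W 0 from Sat_W_map (vert 0 0) hu) hv
  rw [c2_map00] at hc
  have hx : x ∈ A.W n := by
    refine ⟨y * c, ?_⟩
    have h := (Sat_bd_mul h2 c).add hc
    have e : c * (A.map (vert 0 0) x * y - A.map (vert 0 0) u * v) +
        (A.map (vert 0 0) u * v * c - 1) = A.map (vert 0 0) x * (y * c) - 1 := by ring
    exact e ▸ h
  have h3 := Sat_unit hx
  rw [← ha] at h3
  exact isUnit_of_mul_isUnit_left h3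

/-- A weak equivalence induces a quasi-isomorphism of normalised chains. -/
theorem Sat_qi (f : A ⟶ B) (h : (Hom.ab f).WE) : (DG.unitHom f).QI := by
  rw [DG.Hom.qi_iff']
  intro k
  by_cases hk : k < 0
  · refine ⟨fun y hy => ⟨0, ⟨zero_mem _, map_zero _⟩, 0, zero_mem _, ?_⟩,
      fun x hx _ => ⟨0, zero_mem _, ?_⟩⟩
    · rw [N.eq_zero_of_neg hk hy.1, map_zero, map_zero, sub_zero]
    · rw [N.eq_zero_of_neg hk hx.1, map_zero]
  obtain ⟨n, rfl⟩ := Int.eq_ofNat_of_zero_le (not_lt.1 hk)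
  refine ⟨fun y hy => ?_, fun x hx hb => ?_⟩
  · obtain ⟨x, hx, z, hz, e⟩ := (h n).1 (y.1 n) (c2_sph hy.2 n)
    refine ⟨c2_single n x hx.moore, ⟨c2_single_hg _ _ _, c2_bd_single hx⟩,
      c2_single (n + 1) z hz, c2_hg_succ (c2_single_hg _ _ _), ?_⟩
    have hg : N.Hg n (N.map f (c2_single n x hx.moore) - y) :=
      sub_mem (S := AddSubgroup (N B)) (H := N.deg B n) ((c2_single_hg n x hx.moore).map f) hy.1
    refine c2_hg_ext (c2_hg_bd (c2_hg_succ (c2_single_hg _ _ _))) hg ?_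
    change B.map (face 0) ((c2_single (n + 1) z hz).1 (n + 1)) =
      f.app n ((c2_single n x hx.moore).1 n) - y.1 n
    rw [c2_single_same, c2_single_same]
    exact e
  · obtain ⟨y, -, e⟩ := hb
    have hb' : B.ab.Bd (f.app n (x.1 n)) :=
      ⟨y.1 (n + 1), y.2.1 n, congrArg (fun z : N B => z.1 n) e⟩
    obtain ⟨z, hz, e'⟩ := (h n).2 (x.1 n) (c2_sph hx.2 n) hb'
    refine ⟨c2_single (n + 1) z hz, c2_hg_succ (c2_single_hg _ _ _), ?_⟩
    refine c2_hg_ext (c2_hg_bd (c2_hg_succ (c2_single_hg _ _ _))) hx.1 ?_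
    change A.map (face 0) ((c2_single (n + 1) z hz).1 (n + 1)) = x.1 n
    rw [c2_single_same]
    exact e'

theorem qi_toSat (A : SRing) : (DG.unitHom A.toSat).QI :=
  Sat_qi A.toSat fun _ => ⟨fun _ hy => Sat_onto hy, fun _ hx hb => Sat_inj hx hb⟩

attribute [irreducible] sat toSat satMap

end SRing

end Pool.Agent.P.MP_932208_ag.Ax
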