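import Pool.Agent.P.MP_932208_ag.Ex.Simp1

/-!
Chains of the nerve of a contractible preorder with coefficients in a local system.
-/

namespace Pool.Agent.P.MP_932208_ag.Ax

/-- The constant simplicial abelian group. -/
@[reducible] def SAb.const (V : Type) [AddCommGroup V] : SAb where
  obj _ := V
  map _ := AddMonoidHom.id V
  map_id _ _ := rfl
  map_comp _ _ _ := rfl

/-- A local system on a preorder, with fibre `V`. -/
structure LocSys (Q : Type) [Preorder Q] (V : Type) [AddCommGroup V] where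
  c : ∀ {a b : Q}, a ≤ b → V →+ V
  c_refl : ∀ a x, c (le_refl a) x = x
  c_trans : ∀ {a b e : Q} (h : a ≤ b) (h' : b ≤ e) x, c h' (c h x) = c (h.trans h') x
  bij : ∀ {a b : Q} (h : a ≤ b), Function.Bijective (c h)

namespace LocSys
variable {Q : Type} [Preorder Q] {V : Type} [AddCommGroup V] (ℓ : LocSys Q V)

/-- The operators `x [σ] ↦ c x [σ θ]`. -/
noncomputable def nmap {k n : ℕ} (θ : Op k n) :
    ((Fin (n + 1) →o Q) →₀ V) →+ ((Fin (k + 1) →o Q) →₀ V) :=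
  Finsupp.liftAddHom fun σ => (Finsupp.singleAddHom (σ.comp θ)).comp
    (ℓ.c (σ.monotone (Fin.zero_le (θ 0))))

theorem nmap_single {k n : ℕ} (θ : Op k n) (σ : Fin (n + 1) →o Q) (x : V) :
    ℓ.nmap θ (Finsupp.single σ x) =
      Finsupp.single (σ.comp θ) (ℓ.c (σ.monotone (Fin.zero_le (θ 0))) x) := by
  simp [nmap]

theorem Nrv_congr {a b a' b' : Q} (h : a ≤ b) (h' : a' ≤ b') (ea : a = a') (eb : b = b') (x : V) :
    ℓ.c h x = ℓ.c h' x := by
  subst ea eb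
  rfl

theorem Nrv_id (n : ℕ) (x : (Fin (n + 1) →o Q) →₀ V) : ℓ.nmap OrderHom.id x = x := by
  induction x using Finsupp.induction_linear with
  | zero => exact map_zero _
  | add x y hx hy => rw [map_add, hx, hy]
  | single σ x =>
    rw [nmap_single]
    exact congrArg (Finsupp.single σ) (ℓ.c_refl _ x)

theorem Nrv_comp {l k n : ℕ} (θ : Op k n) (η : Op l k) (x : (Fin (n + 1) →o Q) →₀ V) :
    ℓ.nmap η (ℓ.nmap θ x) = ℓ.nmap (θ.comp η) x := by
  induction x using Finsupp.induction_linear with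
  | zero => rw [map_zero, map_zero, map_zero]
  | add x y hx hy => rw [map_add, map_add, map_add, hx, hy]
  | single σ x =>
    rw [nmap_single, nmap_single, nmap_single]
    exact congrArg (Finsupp.single _) (ℓ.c_trans _ _ x)

/-- The twisted chains of the nerve. -/
@[reducible] noncomputable def nrv : SAb where
  obj n := (Fin (n + 1) →o Q) →₀ V
  map := ℓ.nmap
  map_id := ℓ.Nrv_id
  map_comp := ℓ.Nrv_comp

/-- The inclusion of a vertex. -/
noncomputable def vtx (v : Q) : (SAb.const V).Hom ℓ.nrv where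
  app n := Finsupp.singleAddHom (OrderHom.const (Fin (n + 1)) v)
  nat {k n} θ x := ((ℓ.nmap_single θ (OrderHom.const (Fin (n + 1)) v) x).trans
    (congrArg (Finsupp.single (OrderHom.const (Fin (k + 1)) v)) (ℓ.c_refl v x))).symm

theorem vtx_app (v : Q) (n : ℕ) (x : V) :
    (ℓ.vtx v).app n x = Finsupp.single (OrderHom.const (Fin (n + 1)) v) x := rfl

section
variable {P : Type} [Preorder P] (ℓ' : LocSys P V)

/-- The map of chains induced by a monotone map and a map of local systems. -/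
noncomputable def Nrv_push (G : P →o Q) (k : P → V →+ V) (n : ℕ) :
    ((Fin (n + 1) →o P) →₀ V) →+ ((Fin (n + 1) →o Q) →₀ V) :=
  Finsupp.liftAddHom fun σ => (Finsupp.singleAddHom (G.comp σ)).comp (k (σ 0))

theorem Nrv_push_single (G : P →o Q) (k : P → V →+ V) {n : ℕ} (σ : Fin (n + 1) →o P) (x : V) :
    Nrv_push G k n (Finsupp.single σ x) = Finsupp.single (G.comp σ) (k (σ 0) x) := by
  simp [Nrv_push]

/-- The simplices of the prism between two comparable monotone maps. -/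
def Nrv_mix {G₀ G₁ : P →o Q} (hG : ∀ p, G₀ p ≤ G₁ p) {n : ℕ} (χ : Op n 1)
    (σ : Fin (n + 1) →o P) : Fin (n + 1) →o Q :=
  ⟨fun a => if χ a = 0 then G₀ (σ a) else G₁ (σ a), fun a b hab => by
    have h1 := σ.monotone hab
    by_cases hb : χ b = 0
    · have ha : χ a = 0 := le_antisymm (hb ▸ χ.monotone hab) (Fin.zero_le _)
      simp only [if_pos ha, if_pos hb]
      exact G₀.monotone h1
    · by_cases ha : χ a = 0
      · simp only [if_pos ha, if_neg hb]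
        exact (hG _).trans (G₁.monotone h1)
      · simp only [if_neg ha, if_neg hb]
        exact G₁.monotone h1⟩

theorem Nrv_le_mix {G₀ G₁ : P →o Q} (hG : ∀ p, G₀ p ≤ G₁ p) {n : ℕ} (χ : Op n 1)
    (σ : Fin (n + 1) →o P) (a : Fin (n + 1)) : G₀ (σ a) ≤ Nrv_mix hG χ σ a := by
  change _ ≤ if χ a = 0 then G₀ (σ a) else G₁ (σ a)
  split_ifs
  · exact le_rfl
  · exact hG _

/-- The prism operator on chains. -/
noncomputable def Nrv_H {G₀ G₁ : P →o Q} (hG : ∀ p, G₀ p ≤ G₁ p) (k : P → V →+ V) (n : ℕ)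
    (χ : Op n 1) : ((Fin (n + 1) →o P) →₀ V) →+ ((Fin (n + 1) →o Q) →₀ V) :=
  Finsupp.liftAddHom fun σ => (Finsupp.singleAddHom (Nrv_mix hG χ σ)).comp
    ((ℓ.c (Nrv_le_mix hG χ σ 0)).comp (k (σ 0)))

theorem Nrv_H_single {G₀ G₁ : P →o Q} (hG : ∀ p, G₀ p ≤ G₁ p) (k : P → V →+ V) {n : ℕ}
    (χ : Op n 1) (σ : Fin (n + 1) →o P) (x : V) :
    ℓ.Nrv_H hG k n χ (Finsupp.single σ x) =
      Finsupp.single (Nrv_mix hG χ σ) (ℓ.c (Nrv_le_mix hG χ σ 0) (k (σ 0) x)) := by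
  simp [Nrv_H]

theorem Nrv_prism {G₀ G₁ : P →o Q} (hG : ∀ p, G₀ p ≤ G₁ p) (k : P → V →+ V)
    (hk : ∀ a b (h : a ≤ b) x, k b (ℓ'.c h x) = ℓ.c (G₀.monotone h) (k a x)) {n : ℕ}
    {x : ℓ'.nrv.obj n} (hx : ℓ'.nrv.Sph x) :
    ℓ.nrv.Bd (Nrv_push G₀ k n x - Nrv_push G₁ (fun p => (ℓ.c (hG p)).comp (k p)) n x) := by
  have h := SAb.prism (X := ℓ'.nrv) (Y := ℓ.nrv) (ℓ.Nrv_H hG k) (fun n i χ x => by
    change ℓ.nmap (face i) (ℓ.Nrv_H hG k (n + 1) χ x) =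
      ℓ.Nrv_H hG k n (χ.comp (face i)) (ℓ'.nmap (face i) x)
    induction x using Finsupp.induction_linear with
    | zero => rw [map_zero, map_zero, map_zero, map_zero]
    | add x y hx hy => rw [map_add, map_add, map_add, map_add, hx, hy]
    | single σ x =>
      rw [nmap_single, Nrv_H_single, Nrv_H_single, nmap_single]
      refine congrArg (Finsupp.single _) ?_
      refine (ℓ.c_trans _ _ _).trans (Eq.symm ?_)
      exact (congrArg _ (hk _ _ _ x)).trans (ℓ.c_trans _ _ _)) hx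
  have e0 : ℓ.Nrv_H hG k n (vert n 0) = Nrv_push G₀ k n := by
    refine Finsupp.addHom_ext fun σ x => ?_
    have e : Nrv_mix hG (vert n 0) σ = G₀.comp σ :=
      OrderHom.ext _ _ (funext fun _ => rfl)
    rw [Nrv_H_single, Nrv_push_single, ℓ.Nrv_congr _ (le_refl (G₀ (σ 0))) rfl
      (congrArg (fun τ : Fin (n + 1) →o Q => τ 0) e), ℓ.c_refl, e]
  have e1 : ℓ.Nrv_H hG k n (vert n 1) = Nrv_push G₁ (fun p => (ℓ.c (hG p)).comp (k p)) n := by
    refine Finsupp.addHom_ext fun σ x => ?_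
    have e : Nrv_mix hG (vert n 1) σ = G₁.comp σ :=
      OrderHom.ext _ _ (funext fun _ => rfl)
    rw [Nrv_H_single, Nrv_push_single,
      ℓ.Nrv_congr _ (hG (σ 0)) rfl (congrArg (fun τ : Fin (n + 1) →o Q => τ 0) e), e]
    rfl
  rwa [e0, e1] at h

/-- The augmentation given by a trivialisation. -/
noncomputable def Nrv_aug (t : P → V →+ V) (ht : ∀ a b (h : a ≤ b) x, t b (ℓ'.c h x) = t a x) :
    ℓ'.nrv.Hom (SAb.const V) where
  app _ := Finsupp.liftAddHom fun σ => t (σ 0)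
  nat θ x := by
    change Finsupp.liftAddHom _ (ℓ'.nmap θ x) = Finsupp.liftAddHom _ x
    induction x using Finsupp.induction_linear with
    | zero => rw [map_zero, map_zero, map_zero]
    | add x y hx hy => rw [map_add, map_add, map_add, hx, hy]
    | single σ x =>
      rw [nmap_single, Finsupp.liftAddHom_apply_single, Finsupp.liftAddHom_apply_single]
      exact ht _ _ _ x

theorem Nrv_aug_single (t : P → V →+ V) (ht : ∀ a b (h : a ≤ b) x, t b (ℓ'.c h x) = t a x)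
    {n : ℕ} (σ : Fin (n + 1) →o P) (x : V) :
    (ℓ'.Nrv_aug t ht).app n (Finsupp.single σ x) = t (σ 0) x :=
  Finsupp.liftAddHom_apply_single _ σ x

end

/-- The restriction to a subset. -/
def Nrv_res (Φ : Set Q) : LocSys Φ V where
  c {a b} h := ℓ.c (show a.1 ≤ b.1 from h)
  c_refl a x := ℓ.c_refl a.1 x
  c_trans _ _ x := ℓ.c_trans _ _ x
  bij _ := ℓ.bij _

/-- The inclusion of a subset. -/
def Nrv_val (Φ : Set Q) : Φ →o Q := ⟨Subtype.val, fun _ _ h => h⟩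

/-- The inclusion of the chains of a subset. -/
noncomputable def Nrv_inc (Φ : Set Q) : (ℓ.Nrv_res Φ).nrv.Hom ℓ.nrv where
  app := Nrv_push (Nrv_val Φ) fun _ => AddMonoidHom.id V
  nat θ x := by
    change Nrv_push _ _ _ ((ℓ.Nrv_res Φ).nmap θ x) = ℓ.nmap θ (Nrv_push _ _ _ x)
    induction x using Finsupp.induction_linear with
    | zero => rw [map_zero, map_zero, map_zero, map_zero]
    | add x y hx hy => rw [map_add, map_add, map_add, map_add, hx, hy]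
    | single σ x =>
      rw [nmap_single, Nrv_push_single, Nrv_push_single, nmap_single]
      rfl

theorem Nrv_inc_eq (Φ : Set Q) (n : ℕ) (x : (Fin (n + 1) →o Φ) →₀ V) :
    (ℓ.Nrv_inc Φ).app n x = Finsupp.mapDomain (fun σ => (Nrv_val Φ).comp σ) x := by
  change Nrv_push _ _ _ x = _
  induction x using Finsupp.induction_linear with
  | zero => rw [map_zero, Finsupp.mapDomain_zero]
  | add x y hx hy => rw [map_add, Finsupp.mapDomain_add, hx, hy]
  | single σ x =>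
    rw [Nrv_push_single, Finsupp.mapDomain_single]
    rfl

theorem Nrv_val_inj (Φ : Set Q) (n : ℕ) :
    Function.Injective fun σ : Fin (n + 1) →o Φ => (Nrv_val Φ).comp σ := fun _ _ h =>
  OrderHom.ext _ _ (funext fun a => Subtype.ext (congrArg (fun τ : Fin (n + 1) →o Q => τ a) h))

theorem Nrv_inc_inj (Φ : Set Q) (n : ℕ) : Function.Injective ((ℓ.Nrv_inc Φ).app n) := by
  intro x y h
  rw [Nrv_inc_eq, Nrv_inc_eq] at h
  exact Finsupp.mapDomain_injective (Nrv_val_inj Φ n) h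

theorem Nrv_lift (v : Q) {n : ℕ} (y : (Fin (n + 1) →o Q) →₀ V) :
    ∃ Φ : Set Q, Φ.Finite ∧ v ∈ Φ ∧ ∃ x, (ℓ.Nrv_inc Φ).app n x = y := by
  refine ⟨insert v (⋃ σ ∈ y.support, Set.range σ), Set.Finite.insert v
    (y.support.finite_toSet.biUnion fun σ _ => Set.finite_range σ), Set.mem_insert _ _,
    Finsupp.comapDomain _ y (Nrv_val_inj _ n).injOn, ?_⟩
  rw [Nrv_inc_eq]
  refine Finsupp.mapDomain_comapDomain _ (Nrv_val_inj _ n) y fun σ hσ => ?_
  exact ⟨⟨fun a => ⟨σ a, Or.inr (Set.mem_biUnion hσ ⟨a, rfl⟩)⟩, fun a b hab => σ.monotone hab⟩,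
    rfl⟩

theorem Nrv_key (h : LocCon Q) {Φ : Set Q} (hΦ : Φ.Finite) {v : Q} (hv : v ∈ Φ) :
    ∃ (D : Q) (ε : (ℓ.Nrv_res Φ).nrv.Hom (SAb.const V)),
      (∀ n, Function.Bijective fun w : V => ε.app n (((ℓ.Nrv_res Φ).vtx ⟨v, hv⟩).app n w)) ∧
      ∀ n x, (ℓ.Nrv_res Φ).nrv.Sph x →
        ℓ.nrv.Bd ((ℓ.Nrv_inc Φ).app n x - (ℓ.vtx D).app n (ε.app n x)) := by
  obtain ⟨D, F, hF, hq⟩ := h Φ hΦ ⟨v, hv⟩
  let G : Φ →o Q := ⟨fun q => F q.1, fun a b hab => hF a.2 b.2 hab⟩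
  have h1 : ∀ p, Nrv_val Φ p ≤ G p := fun p => (hq p.1 p.2).1
  have h2 : ∀ p, OrderHom.const Φ D p ≤ G p := fun p => (hq p.1 p.2).2
  let t : Φ → V →+ V := fun p =>
    (AddEquiv.ofBijective (ℓ.c (h2 p)) (ℓ.bij _)).symm.toAddMonoidHom.comp (ℓ.c (h1 p))
  have t1 : ∀ p x, ℓ.c (h2 p) (t p x) = ℓ.c (h1 p) x := fun p x =>
    (AddEquiv.ofBijective (ℓ.c (h2 p)) (ℓ.bij _)).apply_symm_apply _
  have ht : ∀ a b (hab : a ≤ b) x, t b ((ℓ.Nrv_res Φ).c hab x) = t a x := by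
    intro a b hab x
    refine (ℓ.bij (h2 b)).1 ?_
    have e1 := congrArg (ℓ.c (G.monotone hab)) (t1 a x)
    rw [ℓ.c_trans, ℓ.c_trans] at e1
    exact (t1 b _).trans ((ℓ.c_trans _ _ x).trans e1.symm)
  refine ⟨D, (ℓ.Nrv_res Φ).Nrv_aug t ht, fun n => ?_, fun n x hx => ?_⟩
  · have e : (fun w : V => ((ℓ.Nrv_res Φ).Nrv_aug t ht).app n
        (((ℓ.Nrv_res Φ).vtx ⟨v, hv⟩).app n w)) = t ⟨v, hv⟩ :=
      funext fun w => Nrv_aug_single _ t ht (OrderHom.const (Fin (n + 1)) ⟨v, hv⟩) w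
    rw [e]
    exact (AddEquiv.ofBijective (ℓ.c (h2 _)) (ℓ.bij _)).symm.bijective.comp (ℓ.bij (h1 _))
  · have b1 := ℓ.Nrv_prism (ℓ.Nrv_res Φ) h1 (fun _ => AddMonoidHom.id V) (fun _ _ _ _ => rfl) hx
    have b2 := ℓ.Nrv_prism (ℓ.Nrv_res Φ) h2 t
      (fun a b hab x => (ht a b hab x).trans (ℓ.c_refl D _).symm) hx
    have e1 : (fun p => (ℓ.c (h2 p)).comp (t p)) =
        fun p => (ℓ.c (h1 p)).comp (AddMonoidHom.id V) :=
      funext fun p => AddMonoidHom.ext (t1 p)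
    have e2 : Nrv_push (OrderHom.const Φ D) t n =
        ((ℓ.vtx D).app n).comp (((ℓ.Nrv_res Φ).Nrv_aug t ht).app n) := by
      refine Finsupp.addHom_ext fun σ x => ?_
      exact (Nrv_push_single _ t σ x).trans
        (congrArg ((ℓ.vtx D).app n) (Nrv_aug_single _ t ht σ x)).symm
    rw [e1, e2] at b2
    have b3 := b1.sub b2
    rwa [sub_sub_sub_cancel_right] at b3

theorem Nrv_inc_vtx {Φ : Set Q} {v : Q} (hv : v ∈ Φ) (n : ℕ) (w : V) :
    (ℓ.Nrv_inc Φ).app n (((ℓ.Nrv_res Φ).vtx ⟨v, hv⟩).app n w) = (ℓ.vtx v).app n w :=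
  Nrv_push_single (Nrv_val Φ) (fun _ => AddMonoidHom.id V)
    (OrderHom.const (Fin (n + 1)) ⟨v, hv⟩) w

theorem we_vtx (h : LocCon Q) (v : Q) : (ℓ.vtx v).WE := by
  intro n
  refine ⟨fun y hy => ?_, fun w _ hb => ?_⟩
  · obtain ⟨Φ, hΦ, hv, x, rfl⟩ := ℓ.Nrv_lift v y
    obtain ⟨D, ε, hε, hB⟩ := ℓ.Nrv_key h hΦ hv
    have hx : (ℓ.Nrv_res Φ).nrv.Sph x := by
      cases n with
      | zero => trivial
      | succ m =>
        exact fun i => ℓ.Nrv_inc_inj Φ m (by rw [(ℓ.Nrv_inc Φ).nat, hy i, map_zero])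
    obtain ⟨w, hw⟩ := (hε n).2 (ε.app n x)
    have hw' : (SAb.const V).Sph (n := n) w := by
      cases n with
      | zero => trivial
      | succ m =>
        intro i
        refine (hε (m + 1)).1 (hw.trans ((hx.map ε i).trans ?_))
        simp only [map_zero]
    refine ⟨w, hw', ?_⟩
    have b := (hB n _ (hw'.map ((ℓ.Nrv_res Φ).vtx ⟨v, hv⟩))).sub (hB n x hx)
    beta_reduce at hw
    rwa [hw, sub_sub_sub_cancel_right, Nrv_inc_vtx] at b
  · obtain ⟨z, hz, hzw⟩ := hb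
    obtain ⟨Φ, hΦ, hv, x, rfl⟩ := ℓ.Nrv_lift v z
    obtain ⟨D, ε, hε, -⟩ := ℓ.Nrv_key h hΦ hv
    have b : (ℓ.Nrv_res Φ).nrv.Bd (((ℓ.Nrv_res Φ).vtx ⟨v, hv⟩).app n w) :=
      ⟨x, fun i => ℓ.Nrv_inc_inj Φ n (by rw [(ℓ.Nrv_inc Φ).nat, hz i, map_zero]),
        ℓ.Nrv_inc_inj Φ n (by rw [(ℓ.Nrv_inc Φ).nat, hzw, Nrv_inc_vtx])⟩
    obtain ⟨u, hu, hu'⟩ := b.map ε
    have h0 : w = 0 := (hε n).1 (hu'.symm.trans ((hu 0).trans (by simp only [map_zero])))
    rw [h0]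
    exact (SAb.const V).bd_zero n

end LocSys

theorem LocCon.prod {Q Q' : Type} [Preorder Q] [Preorder Q'] (h : LocCon Q) (h' : LocCon Q') :
    LocCon (Q × Q') := by
  intro Φ hΦ hne
  obtain ⟨D, F, hF, hq⟩ := h (Prod.fst '' Φ) (hΦ.image _) (hne.image _)
  obtain ⟨D', F', hF', hq'⟩ := h' (Prod.snd '' Φ) (hΦ.image _) (hne.image _)
  refine ⟨(D, D'), Prod.map F F', fun a ha b hb hab => ⟨hF ⟨a, ha, rfl⟩ ⟨b, hb, rfl⟩ hab.1,
    hF' ⟨a, ha, rfl⟩ ⟨b, hb, rfl⟩ hab.2⟩, fun q hq0 => ?_⟩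
  exact ⟨⟨(hq _ ⟨q, hq0, rfl⟩).1, (hq' _ ⟨q, hq0, rfl⟩).1⟩,
    (hq _ ⟨q, hq0, rfl⟩).2, (hq' _ ⟨q, hq0, rfl⟩).2⟩

theorem locCon_unit : LocCon Unit := fun _ _ _ =>
  ⟨(), id, fun _ _ _ _ h => h, fun _ _ => ⟨le_rfl, le_rfl⟩⟩

end Pool.Agent.P.MP_932208_ag.Ax
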