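import Pool.Agent.P.MP_932208_ag.Ex.SPair
import Pool.Agent.P.MP_932208_ag.Ex.Nrv
import Pool.Agent.P.MP_932208_ag.Ex.SimpE

/-!
Line bundles on an affine chart that are glued by a cocycle on a contractible bisimplicial set.
-/

namespace Pool.Agent.P.MP_932208_ag.Ax

open CategoryTheory

variable {A B R : SRing}

/-- A bisimplicial set `X` over the nerve of a contractible preorder `Q`, with contractible
fibres in the second direction, and a cocycle of units on it. -/
structure Tw (A : SRing) where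
  Q : Type
  [pre : Preorder Q]
  con : LocCon Q
  X : ℕ → ℕ → Type
  map : ∀ {k n k' m : ℕ}, Op k n → Op k' m → X n m → X k k'
  map_id : ∀ n m (x : X n m), map OrderHom.id OrderHom.id x = x
  map_comp : ∀ {n₀ n₁ n₂ m₀ m₁ m₂ : ℕ} (θ : Op n₁ n₀) (η : Op n₂ n₁) (θ' : Op m₁ m₀)
    (η' : Op m₂ m₁) (x : X n₀ m₀), map η η' (map θ θ' x) = map (θ.comp η) (θ'.comp η') x
  π : ∀ {n m : ℕ}, X n m → (Fin (n + 1) →o Q)
  π_map : ∀ {k n k' m : ℕ} (θ : Op k n) (θ' : Op k' m) (x : X n m),
    π (map θ θ' x) = (π x).comp θ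
  ext : ∀ (n M : ℕ) (σ : Fin (n + 1) →o Q) (x : ∀ k, Bdy k M → X n k), (∀ k θ, π (x k θ) = σ) →
    (∀ {l k : ℕ} (θ : Bdy k M) (η : Op l k), map OrderHom.id η (x k θ) = x l (θ.comp η)) →
    ∃ z : X n M, π z = σ ∧ ∀ k (θ : Bdy k M), map OrderHom.id θ.1 z = x k θ
  c : ∀ {n m : ℕ}, X n m → Fin (n + 1) → A.obj m
  c_zero : ∀ {n m : ℕ} (x : X n m), c x 0 = 1
  c_map : ∀ {k n k' m : ℕ} (θ : Op k n) (θ' : Op k' m) (x : X n m) (a : Fin (k + 1)),
    A.map θ' (c x (θ a)) = A.map θ' (c x (θ 0)) * c (map θ θ' x) a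
  c_unit : ∀ {n m : ℕ} (x : X n m) (a : Fin (n + 1)), IsUnit (c x a)

attribute [instance] Tw.pre

namespace Tw
variable (T : Tw A) {T' : Tw B} {T'' : Tw R}

theorem exists_vertex (q : T.Q) : ∃ v : T.X 0 0, T.π v 0 = q := by
  obtain ⟨z, hz, -⟩ := T.ext 0 0 (OrderHom.const _ q) (fun k θ => (Bdy.isEmpty k).elim θ)
    (fun k θ => (Bdy.isEmpty k).elim θ) (fun θ _ => (Bdy.isEmpty _).elim θ)
  exact ⟨z, by rw [hz]; rfl⟩

/-- The operators `a [x] ↦ θ'(a · c x (θ 0)) [θ x]`. -/
noncomputable def tmap {k n k' m : ℕ} (θ : Op k n) (θ' : Op k' m) :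
    (T.X n m →₀ A.obj m) →+ (T.X k k' →₀ A.obj k') :=
  Finsupp.liftAddHom fun x => (Finsupp.singleAddHom (T.map θ θ' x)).comp
    ((A.map θ').toAddMonoidHom.comp (AddMonoidHom.mulRight (T.c x (θ 0))))

theorem tmap_single {k n k' m : ℕ} (θ : Op k n) (θ' : Op k' m) (x : T.X n m) (a : A.obj m) :
    T.tmap θ θ' (Finsupp.single x a) =
      Finsupp.single (T.map θ θ' x) (A.map θ' (a * T.c x (θ 0))) := by
  simp [tmap]

theorem tmap_smul {k n k' m : ℕ} (θ : Op k n) (θ' : Op k' m) (a : A.obj m)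
    (x : T.X n m →₀ A.obj m) : T.tmap θ θ' (a • x) = A.map θ' a • T.tmap θ θ' x := by
  induction x using Finsupp.induction_linear with
  | zero => simp
  | add x y hx hy => rw [smul_add, map_add, map_add, hx, hy, smul_add]
  | single x b =>
    rw [Finsupp.smul_single, tmap_single, tmap_single, Finsupp.smul_single, smul_eq_mul,
      smul_eq_mul, mul_assoc, map_mul]

theorem tmap_id (n m : ℕ) (x : T.X n m →₀ A.obj m) : T.tmap OrderHom.id OrderHom.id x = x := by
  induction x using Finsupp.induction_linear with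
  | zero => simp
  | add x y hx hy => rw [map_add, hx, hy]
  | single x b => simp [tmap_single, T.map_id, A.map_id, T.c_zero]

theorem tmap_comp {n₀ n₁ n₂ m₀ m₁ m₂ : ℕ} (θ : Op n₁ n₀) (η : Op n₂ n₁) (θ' : Op m₁ m₀)
    (η' : Op m₂ m₁) (x : T.X n₀ m₀ →₀ A.obj m₀) :
    T.tmap η η' (T.tmap θ θ' x) = T.tmap (θ.comp η) (θ'.comp η') x := by
  induction x using Finsupp.induction_linear with
  | zero => simp
  | add x y hx hy => simp only [map_add, hx, hy]
  | single x b =>
    rw [tmap_single, tmap_single, tmap_single, T.map_comp, ← A.map_comp θ' η',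
      OrderHom.comp_coe, Function.comp_apply, map_mul (A.map θ') b (T.c x (θ (η 0))),
      T.c_map θ θ' x (η 0), map_mul (A.map θ') b, mul_assoc]

/-- The diagonal of the twisted bisimplicial module. -/
@[reducible] noncomputable def sm : SMod A where
  obj n := T.X n n →₀ A.obj n
  map θ := T.tmap θ θ
  map_smul θ := T.tmap_smul θ θ
  map_id n := T.tmap_id n n
  map_comp θ η := T.tmap_comp θ η θ η

/-- The glued dg module. -/
noncomputable def dg : DG A := T.sm.nc

/-- The generator given by a vertex. -/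
noncomputable def gen (v : T.X 0 0) : T.dg.V := T.sm.vtx (Finsupp.single v 1)

theorem cycle_gen (v : T.X 0 0) : T.dg.Cycle 0 (T.gen v) := T.sm.cycle_vtx _

/-- A map of bisimplicial sets that is compatible with the cocycles up to the coboundary of `μ`. -/
structure Hom (ρ : A ⟶ B) (T : Tw A) (T' : Tw B) where
  f : ∀ {n m : ℕ}, T.X n m → T'.X n m
  nat : ∀ {k n k' m : ℕ} (θ : Op k n) (θ' : Op k' m) (x : T.X n m),
    f (T.map θ θ' x) = T'.map θ θ' (f x)
  μ : ∀ {n m : ℕ}, T.X n m → B.obj m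
  unit : ∀ {n m : ℕ} (x : T.X n m), IsUnit (μ x)
  compat : ∀ {k n k' m : ℕ} (θ : Op k n) (θ' : Op k' m) (x : T.X n m),
    B.map θ' (μ x * T'.c (f x) (θ 0)) = B.map θ' (ρ.app m (T.c x (θ 0))) * μ (T.map θ θ' x)

namespace Hom
variable {T} {ρ : A ⟶ B} (h : Hom ρ T T')

/-- The map `a [x] ↦ ρ a · μ x [f x]`. -/
noncomputable def lin (n : ℕ) : (T.X n n →₀ A.obj n) →+ (T'.X n n →₀ B.obj n) :=
  Finsupp.liftAddHom fun x => (Finsupp.singleAddHom (h.f x)).comp
    ((AddMonoidHom.mulRight (h.μ x)).comp (ρ.app n).toAddMonoidHom)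

theorem lin_single (n : ℕ) (x : T.X n n) (a : A.obj n) :
    h.lin n (Finsupp.single x a) = Finsupp.single (h.f x) (ρ.app n a * h.μ x) := by
  simp [lin]

/-- The map of simplicial modules. -/
noncomputable def sm : SMod.Hom ρ T.sm T'.sm where
  app := h.lin
  map_smul n a x := by
    induction x using Finsupp.induction_linear with
    | zero => simp
    | add x y hx hy => rw [smul_add, map_add, map_add, hx, hy, smul_add]
    | single x b =>
      rw [Finsupp.smul_single, lin_single, lin_single, Finsupp.smul_single, smul_eq_mul,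
        smul_eq_mul, map_mul, mul_assoc]
  nat θ x := by
    induction x using Finsupp.induction_linear with
    | zero => simp
    | add x y hx hy => simp only [map_add, hx, hy]
    | single x b =>
      rw [tmap_single, lin_single, lin_single, tmap_single, h.nat, ρ.nat θ, mul_assoc,
        map_mul (B.map θ) (ρ.app _ b), h.compat, map_mul, map_mul, mul_assoc]

/-- The map of glued modules. -/
noncomputable def dg : DG.Hom ρ T.dg T'.dg := h.sm.nc

theorem dg_gen (v : T.X 0 0) : h.dg.toFun (T.gen v) = N.inc (h.μ v) • T'.gen (h.f v) := by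
  refine (h.sm.nc_vtx _).trans (Eq.trans (congrArg _ ?_) (T'.sm.vtx_smul _ _))
  refine (h.lin_single 0 v 1).trans ?_
  rw [Finsupp.smul_single, map_one, one_mul, smul_eq_mul, mul_one]

theorem Tw_val (x : T.dg.V) (n : ℕ) : T'.sm.val (h.dg.toFun x) n = h.lin n (T.sm.val x n) :=
  h.sm.val_nc x n

theorem dg_id {ρ : A ⟶ A} (h : Hom ρ T T) (e : ρ = 𝟙 A) (ef : ∀ n (x : T.X n n), h.f x = x)
    (eμ : ∀ n (x : T.X n n), h.μ x = 1) : h.dg.IsId := by
  subst e
  refine fun x => T.sm.val_injective (funext fun n => (h.Tw_val x n).trans ?_)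
  induction T.sm.val x n using Finsupp.induction_linear with
  | zero => simp
  | add x y hx hy => rw [map_add, hx, hy]
  | single x b => rw [lin_single, ef, eμ, mul_one, SRing.id_app]

theorem dg_tri {χ : B ⟶ R} {ω : A ⟶ R} (h' : Hom χ T' T'') (g : Hom ω T T'') (e : ω = ρ ≫ χ)
    (ef : ∀ n (x : T.X n n), g.f x = h'.f (h.f x))
    (eμ : ∀ n (x : T.X n n), g.μ x = χ.app n (h.μ x) * h'.μ (h.f x)) : g.dg.Tri h.dg h'.dg := by
  subst e
  refine fun x => T''.sm.val_injective (funext fun n => ?_)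
  rw [Tw_val, Tw_val, Tw_val]
  induction T.sm.val x n using Finsupp.induction_linear with
  | zero => simp
  | add x y hx hy => simp only [map_add, hx, hy]
  | single x b => rw [lin_single, lin_single, lin_single, ef, eμ, SRing.comp_app, map_mul, mul_assoc]

theorem dg_sq {B' : SRing} {T₁ : Tw B'} {χ : B ⟶ R} {ρ' : A ⟶ B'} {χ' : B' ⟶ R}
    (h' : Hom χ T' T'') (g : Hom ρ' T T₁) (g' : Hom χ' T₁ T'') (e : ρ ≫ χ = ρ' ≫ χ')
    (ef : ∀ n (x : T.X n n), h'.f (h.f x) = g'.f (g.f x))
    (eμ : ∀ n (x : T.X n n), χ.app n (h.μ x) * h'.μ (h.f x) = χ'.app n (g.μ x) * g'.μ (g.f x)) :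
    h.dg.Sq h'.dg g.dg g'.dg := by
  refine fun x => T''.sm.val_injective (funext fun n => ?_)
  rw [Tw_val, Tw_val, Tw_val, Tw_val]
  induction T.sm.val x n using Finsupp.induction_linear with
  | zero => simp
  | add x y hx hy => simp only [map_add, hx, hy]
  | single x b =>
    rw [lin_single, lin_single, lin_single, lin_single, ef, map_mul, map_mul, mul_assoc, mul_assoc,
      eμ, ← SRing.comp_app ρ χ, e, SRing.comp_app]

end Hom

/-- The product. -/
@[reducible] noncomputable def prod (T T₁ : Tw A) : Tw A where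
  Q := T.Q × T₁.Q
  con := T.con.prod T₁.con
  X n m := T.X n m × T₁.X n m
  map θ θ' x := (T.map θ θ' x.1, T₁.map θ θ' x.2)
  map_id n m x := Prod.ext (T.map_id n m x.1) (T₁.map_id n m x.2)
  map_comp θ η θ' η' x := Prod.ext (T.map_comp θ η θ' η' x.1) (T₁.map_comp θ η θ' η' x.2)
  π x := (T.π x.1).prod (T₁.π x.2)
  π_map θ θ' x := by
    rw [T.π_map, T₁.π_map]
    rfl
  ext n M σ x h h' := by
    obtain ⟨z, hz, hz'⟩ := T.ext n M (OrderHom.fst.comp σ) (fun k θ => (x k θ).1)
      (fun k θ => congrArg OrderHom.fst.comp (h k θ)) fun θ η => congrArg Prod.fst (h' θ η)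
    obtain ⟨w, hw, hw'⟩ := T₁.ext n M (OrderHom.snd.comp σ) (fun k θ => (x k θ).2)
      (fun k θ => congrArg OrderHom.snd.comp (h k θ)) fun θ η => congrArg Prod.snd (h' θ η)
    refine ⟨(z, w), ?_, fun k θ => Prod.ext (hz' k θ) (hw' k θ)⟩
    rw [hz, hw]
    rfl
  c x a := T.c x.1 a * T₁.c x.2 a
  c_zero x := by rw [T.c_zero, T₁.c_zero, mul_one]
  c_map θ θ' x a := by
    rw [map_mul, map_mul, T.c_map θ θ' x.1 a, T₁.c_map θ θ' x.2 a, mul_mul_mul_comm]
  c_unit x a := (T.c_unit x.1 a).mul (T₁.c_unit x.2 a)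

/-- The product of two maps. -/
@[reducible] noncomputable def Hom.prod {ρ : A ⟶ B} {T T₁ : Tw A} {T' T₁' : Tw B}
    (h : Hom ρ T T') (h₁ : Hom ρ T₁ T₁') : Hom ρ (T.prod T₁) (T'.prod T₁') where
  f x := (h.f x.1, h₁.f x.2)
  nat θ θ' x := Prod.ext (h.nat θ θ' x.1) (h₁.nat θ θ' x.2)
  μ x := h.μ x.1 * h₁.μ x.2
  unit x := (h.unit x.1).mul (h₁.unit x.2)
  compat θ θ' x := by
    rw [mul_mul_mul_comm, map_mul, h.compat, h₁.compat, map_mul, map_mul, mul_mul_mul_comm]

/-- The bilinear map `a [x], b [y] ↦ a b [(x, y)]`. -/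
noncomputable def Tw_mu {X Y S : Type} [CommRing S] : (X →₀ S) →+ (Y →₀ S) →+ (X × Y →₀ S) :=
  Finsupp.liftAddHom fun x => (Finsupp.liftAddHom fun y =>
    ((AddMonoidHom.mul (R := S)).compr₂ (Finsupp.singleAddHom (x, y))).flip).flip

theorem Tw_mu_single {X Y S : Type} [CommRing S] (x : X) (y : Y) (a b : S) :
    Tw_mu (Finsupp.single x a) (Finsupp.single y b) = Finsupp.single (x, y) (a * b) := by
  simp [Tw_mu]

theorem Tw_ind {X Y S S' : Type} [CommRing S] [CommRing S'] {V : Type} [AddCommGroup V]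
    {f g : (X →₀ S) → (Y →₀ S') → V} (f1 : ∀ x x' y, f (x + x') y = f x y + f x' y)
    (f2 : ∀ x y y', f x (y + y') = f x y + f x y') (g1 : ∀ x x' y, g (x + x') y = g x y + g x' y)
    (g2 : ∀ x y y', g x (y + y') = g x y + g x y')
    (h : ∀ x y a b, f (Finsupp.single x a) (Finsupp.single y b) =
      g (Finsupp.single x a) (Finsupp.single y b)) (x : X →₀ S) (y : Y →₀ S') : f x y = g x y := by
  induction x using Finsupp.induction_linear with
  | zero =>
    have e1 := f1 0 0 y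
    have e2 := g1 0 0 y
    rw [add_zero, left_eq_add] at e1 e2
    rw [e1, e2]
  | add x x' hx hx' => rw [f1, g1, hx, hx']
  | single x a =>
    induction y using Finsupp.induction_linear with
    | zero =>
      have e1 := f2 (Finsupp.single x a) 0 0
      have e2 := g2 (Finsupp.single x a) 0 0
      rw [add_zero, left_eq_add] at e1 e2
      rw [e1, e2]
    | add y y' hy hy' => rw [f2, g2, hy, hy']
    | single y b => exact h x y a b

/-- The pairing `a [x], b [y] ↦ a b [(x, y)]`. -/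
noncomputable def spair (T T₁ : Tw A) : SMod.Pairing T.sm T₁.sm (T.prod T₁).sm where
  μ _ := Tw_mu
  smul_left n a := Tw_ind (by simp) (by simp) (by simp) (by simp) fun x y b c => by
    rw [Finsupp.smul_single, Tw_mu_single, Tw_mu_single, Finsupp.smul_single, smul_eq_mul,
      smul_eq_mul, mul_assoc]
  smul_right n a := Tw_ind (by simp) (by simp) (by simp) (by simp) fun x y b c => by
    rw [Finsupp.smul_single, Tw_mu_single, Tw_mu_single, Finsupp.smul_single, smul_eq_mul,
      smul_eq_mul, mul_left_comm]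
  nat θ := Tw_ind (by simp) (by simp) (by simp) (by simp) fun x y b c => by
    rw [tmap_single, tmap_single, Tw_mu_single, Tw_mu_single]
    refine Eq.trans ?_ ((T.prod T₁).tmap_single θ θ (x, y) (b * c)).symm
    rw [← map_mul, mul_mul_mul_comm]

theorem spair_single (T T₁ : Tw A) (n : ℕ) (x : T.X n n) (y : T₁.X n n) (a b : A.obj n) :
    (T.spair T₁).μ n (Finsupp.single x a) (Finsupp.single y b) =
      Finsupp.single (x, y) (a * b) := Tw_mu_single x y a b

attribute [irreducible] spair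

/-- The pairing of glued modules. -/
noncomputable def pair (T T₁ : Tw A) : DG.Pairing T.dg T₁.dg (T.prod T₁).dg := (T.spair T₁).nc

theorem pair_gen (T T₁ : Tw A) (v : T.X 0 0) (w : T₁.X 0 0) :
    (T.pair T₁).μ (T.gen v) (T₁.gen w) = (T.prod T₁).gen (v, w) :=
  ((T.spair T₁).nc_vtx _ _).trans
    (congrArg _ ((T.spair_single T₁ 0 v w 1 1).trans (congrArg _ (mul_one 1))))

theorem pair_compat {ρ : A ⟶ B} {T T₁ : Tw A} {T' T₁' : Tw B} (h : Hom ρ T T')
    (h₁ : Hom ρ T₁ T₁') : (T.pair T₁).Compat (T'.pair T₁') h.dg h₁.dg (h.prod h₁).dg := by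
  refine (T.spair T₁).nc_compat (T'.spair T₁') h.sm h₁.sm (h.prod h₁).sm fun n => ?_
  refine Tw_ind (by simp) (by simp) (by simp) (by simp) fun x y a b => ?_
  change (h.prod h₁).lin n _ = (T'.spair T₁').μ n (h.lin n _) (h₁.lin n _)
  rw [spair_single, h.lin_single, h₁.lin_single, spair_single]
  refine ((h.prod h₁).lin_single n (x, y) (a * b)).trans ?_
  rw [map_mul, mul_mul_mul_comm]

/-- The point. -/
@[reducible] def pt (A : SRing) : Tw A where
  Q := Unit
  con := locCon_unit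
  X _ _ := Unit
  map _ _ _ := ()
  map_id _ _ _ := rfl
  map_comp _ _ _ _ _ := rfl
  π _ := OrderHom.const _ ()
  π_map _ _ _ := rfl
  ext _ _ _ _ _ _ := ⟨(), rfl, fun _ _ => rfl⟩
  c _ _ := 1
  c_zero _ := rfl
  c_map _ _ _ _ := (mul_one _).symm
  c_unit _ _ := isUnit_one

/-- Multiplication by a unit. -/
@[reducible] def ptHom (ρ : A ⟶ B) (u : B.U) : Hom ρ (pt A) (pt B) where
  f _ := ()
  nat _ _ _ := rfl
  μ {_ m} _ := B.map (vert m 0) (u : B.obj 0)
  unit _ := u.isUnit.map _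
  compat θ θ' _ := by
    rw [mul_one, map_one, map_one, one_mul]
    exact B.map_comp _ θ' _

end Tw

end Pool.Agent.P.MP_932208_ag.Ax
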