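import Pool.Agent.P.MP_932208_ag.Ex.Lift
import Pool.Agent.P.MP_932208_ag.Ex.Sat
import Pool.Agent.P.MP_932208_ag.Ex.Tw

/-!
A family of cell complexes with acyclic quotients defines a cocycle (the torsion) on the
bisimplicial set of strictified flags.
-/

namespace Pool.Agent.P.MP_932208_ag.Ax

open CategoryTheory Classical

variable {A B R : SRing}

/-- A contractible family of cell complexes `K q` with subcomplexes `mk q`.  The subcomplex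
`base q` is everything (relative case) or nothing (absolute case). -/
structure Fam (A : SRing) where
  Q : Type
  [pre : Preorder Q]
  con : LocCon Q
  K : Q → Cel A
  mono : Monotone K
  mrk : Q → Finset ℕ
  mrk_le : ∀ {q q'}, q ≤ q' → ∀ s ∈ (K q).S, s ∈ mrk q ↔ s ∈ mrk q'
  mrk_cl : ∀ q, (K q).Closed (· ∈ mrk q)
  base : Q → Finset ℕ
  base_eq : (∀ q, base q = (K q).S) ∨ ∀ q, base q = ∅
  ac : ∀ {q q'}, q ≤ q' → (K q').Ac ((K q').S \ (K q).S)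
  ac_base : ∀ {q q'}, q ≤ q' → (K q').Ac ((K q').S \ base q)
  ac_mrk : ∀ {q q'}, q ≤ q' → (K q').Ac (((K q').S \ base q) ∩ mrk q')

attribute [instance] Fam.pre

/-- The map `N A → N ((A^sat)^{Δ^m})`. -/
noncomputable def SRing.ι (A : SRing) (m : ℕ) : N A →+* N (A.sat.cot m) :=
  N.map (A.toSat ≫ A.sat.const m)

/-- The map `A_0 → A^sat_m`. -/
noncomputable def SRing.ι₀ (A : SRing) (m : ℕ) : A.obj 0 →+* A.sat.obj m :=
  (A.sat.map (vert m 0)).comp (A.toSat.app 0)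

theorem SRing.isHom_ι (A : SRing) (m : ℕ) : (dgN A).IsHom (dgC A.sat m) (A.ι m) (A.ι₀ m) :=
  ⟨N.map_bd _, N.map_sg _, fun h => N.Hg.map _ h,
    fun a => (congrArg (N.map (A.sat.const m)) ((SRing.isHom_map A.toSat).inc a)).trans
      ((A.sat.isHom_const m).inc (A.toSat.app 0 a)),
    fun x => (A.sat.isHom_const m).ev (N.map A.toSat x)⟩

theorem SRing.cot_ι (φ : A ⟶ B) {k m : ℕ} (θ : Op k m) (x : N A) :
    N.map (SRing.cotHom (SRing.satMap φ) θ) (A.ι m x) = B.ι k (N.map φ x) := by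
  have e : (A.toSat ≫ A.sat.const m) ≫ SRing.cotHom (SRing.satMap φ) θ =
      φ ≫ B.toSat ≫ B.sat.const k := by
    rw [← Category.assoc φ, SRing.toSat_nat, Category.assoc, Category.assoc]
    exact congrArg (A.toSat ≫ ·) (SRing.cotHom_const (SRing.satMap φ) θ)
  exact congrArg (fun f => N.map f x) e

theorem SRing.rs_ι (A : SRing) {k m : ℕ} (θ : Op k m) (x : N A) :
    A.sat.rs θ (A.ι m x) = A.ι k x :=
  congrArg (fun f => N.map f (N.map A.toSat x)) (SRing.cotHom_const (SRing.Hom.id A.sat) θ)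

theorem SRing.map_ι₀ (A : SRing) {k m : ℕ} (θ : Op k m) (a : A.obj 0) :
    A.sat.map θ (A.ι₀ m a) = A.ι₀ k a := A.sat.map_comp _ _ _

theorem SRing.satMap_ι₀ (φ : A ⟶ B) (m : ℕ) (a : A.obj 0) :
    (SRing.satMap φ).app m (A.ι₀ m a) = B.ι₀ m (φ.app 0 a) :=
  ((SRing.satMap φ).nat (vert m 0) (A.toSat.app 0 a)).trans
    (congrArg (fun f : A ⟶ B.sat => B.sat.map (vert m 0) (f.app 0 a)) (SRing.toSat_nat φ).symm)

namespace Fam
variable (F : Fam A) {n m : ℕ}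

/-- The top complex of a flag. -/
abbrev top (σ : Fin (n + 1) →o F.Q) : Cel A := F.K (σ (Fin.last n))

/-- The cells that are strictified. -/
def T (σ : Fin (n + 1) →o F.Q) : Finset ℕ := (F.top σ).S \ F.base (σ 0)

/-- The preorder on cells given by the flag and the marking. -/
def pat (σ : Fin (n + 1) →o F.Q) (s r : ℕ) : Prop :=
  (∀ a, s ∈ (F.K (σ a)).S → r ∈ (F.K (σ a)).S) ∧
    (s ∈ F.mrk (σ (Fin.last n)) → r ∈ F.mrk (σ (Fin.last n)))

/-- The differential over `Δ^m`. -/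
noncomputable def δ (σ : Fin (n + 1) →o F.Q) (m : ℕ) (s r : ℕ) : N (A.sat.cot m) :=
  A.ι m ((F.top σ).δ s r)

theorem Fam_le (σ : Fin (n + 1) →o F.Q) {a b : Fin (n + 1)} (h : a ≤ b) :
    F.K (σ a) ≤ F.K (σ b) := F.mono (σ.monotone h)

theorem Fam_le_top (σ : Fin (n + 1) →o F.Q) (a : Fin (n + 1)) : F.K (σ a) ≤ F.top σ :=
  F.Fam_le σ (Fin.le_last a)

theorem Fam_base_sub (q : F.Q) : F.base q ⊆ (F.K q).S := by
  rcases F.base_eq with h | h <;> rw [h q]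
  exact Finset.empty_subset _

theorem Fam_base_mono {q q' : F.Q} (e : q ≤ q') : F.base q ⊆ F.base q' := by
  rcases F.base_eq with h | h <;> rw [h q, h q']
  exact (F.mono e).1

theorem Fam_base_pat (σ : Fin (n + 1) →o F.Q) (a : Fin (n + 1)) {s r : ℕ}
    (hs : s ∈ F.base (σ a)) (p : F.pat σ s r) : r ∈ F.base (σ a) := by
  rcases F.base_eq with h | h <;> rw [h] at hs ⊢
  · exact p.1 a hs
  · exact absurd hs (Finset.notMem_empty _)

theorem Fam_zero (σ : Fin (n + 1) →o F.Q) {s r : ℕ} (h : ¬ F.pat σ s r) :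
    (F.top σ).δ s r = 0 := by
  by_contra k
  refine h ⟨fun a hs => ?_, fun hs => ?_⟩
  · by_contra hr
    exact k (Cel.closed_of_le (F.Fam_le_top σ a) s r hs hr)
  · by_contra hr
    exact k (F.mrk_cl _ s r hs hr)

theorem isTw (σ : Fin (n + 1) →o F.Q) (m : ℕ) :
    (dgC A.sat m).IsTw (F.T σ) (F.top σ).dg (F.δ σ m) (F.pat σ) := by
  refine ⟨fun s _ r _ => (A.isHom_ι m).hg ((F.top σ).hg s r), fun s _ r hr => ?_,
    fun s _ r _ h => ?_, fun s => ⟨fun _ h => h, fun h => h⟩,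
    fun s r t h h' => ⟨fun a k => h'.1 a (h.1 a k), fun k => h'.2 (h.2 k)⟩⟩
  · have h := congrArg (A.ι m) ((F.top σ).mc s r)
    rw [map_add, map_sum, map_zero, ← Finset.sum_subset (s₁ := F.T σ) Finset.sdiff_subset] at h
    · refine Eq.trans ?_ h
      congr 1
      · exact ((A.isHom_ι m).d _).symm
      · refine Finset.sum_congr rfl fun t _ => ?_
        rw [map_mul]
        exact congrArg (· * _) ((A.isHom_ι m).e _).symm
    · intro t ht ht'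
      have h1 : t ∈ F.base (σ 0) := by
        by_contra k
        exact ht' (Finset.mem_sdiff.2 ⟨ht, k⟩)
      rw [F.Fam_zero σ (s := t) (r := r) fun k =>
        (Finset.mem_sdiff.1 hr).2 (F.Fam_base_pat σ 0 h1 k), mul_zero, map_zero]
  · rw [δ, F.Fam_zero σ h, map_zero]

/-- A flag with a strictification over `Δ^m`. -/
@[ext] structure X (n m : ℕ) where
  σ : Fin (n + 1) →o F.Q
  φ : ℕ → ℕ → N (A.sat.cot m)
  str : (dgC A.sat m).IsStr (F.T σ) (F.top σ).dg (F.δ σ m) (F.pat σ) φ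

theorem Fam_cvx (σ : Fin (n + 1) →o F.Q) (a b : Fin (n + 1)) :
    DR.Cvx (F.T σ) ((F.K (σ b)).S \ F.base (σ a)) (F.pat σ) := by
  refine ⟨(· ∈ (F.K (σ b)).S), (· ∈ F.base (σ a)), fun s _ r _ h p => p.1 b h,
    fun s _ r _ h p => F.Fam_base_pat σ a h p, fun s => ?_⟩
  rw [T, Finset.mem_sdiff, Finset.mem_sdiff]
  exact ⟨fun h => ⟨⟨(F.Fam_le_top σ b).1 h.1,
    fun k => h.2 (F.Fam_base_mono (σ.monotone (Fin.zero_le a)) k)⟩, h⟩, fun h => h.2⟩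

theorem cvx_T (σ : Fin (n + 1) →o F.Q) {k : ℕ} (θ : Op k n) :
    DR.Cvx (F.T σ) (F.T (σ.comp θ)) (F.pat σ) :=
  F.Fam_cvx σ (θ 0) (θ (Fin.last k))

theorem cvx_diff (σ : Fin (n + 1) →o F.Q) (a b : Fin (n + 1)) :
    DR.Cvx (F.T σ) ((F.K (σ b)).S \ (F.K (σ a)).S) (F.pat σ) := by
  refine ⟨(· ∈ (F.K (σ b)).S), (· ∈ (F.K (σ a)).S), fun s _ r _ h p => p.1 b h,
    fun s _ r _ h p => p.1 a h, fun s => ?_⟩
  rw [T, Finset.mem_sdiff, Finset.mem_sdiff]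
  exact ⟨fun h => ⟨⟨(F.Fam_le_top σ b).1 h.1,
    fun k => h.2 ((F.Fam_le σ (Fin.zero_le a)).1 (F.Fam_base_sub _ k))⟩, h⟩, fun h => h.2⟩

theorem cvx_base (σ : Fin (n + 1) →o F.Q) (b : Fin (n + 1)) :
    DR.Cvx (F.T σ) ((F.K (σ b)).S \ F.base (σ 0)) (F.pat σ) :=
  F.Fam_cvx σ 0 b

theorem Fam_eδ (σ : Fin (n + 1) →o F.Q) {k k' : ℕ} (θ : Op k n) (θ' : Op k' m) :
    ∀ s ∈ F.T (σ.comp θ), ∀ r ∈ F.T (σ.comp θ), F.δ (σ.comp θ) k' s r =
      (dgC A.sat k').inc ((1 : (A.sat.obj k')ˣ) : A.sat.obj k') * A.sat.rs θ' (F.δ σ m s r) *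
        (dgC A.sat k').inc ((1 : (A.sat.obj k')ˣ)⁻¹ : (A.sat.obj k')ˣ) := by
  intro s hs r _
  rw [inv_one, Units.val_one, map_one, one_mul, mul_one, δ, δ, A.rs_ι]
  exact congrArg (A.ι k')
    (((F.Fam_le_top σ (θ (Fin.last k))).2 s (Finset.mem_sdiff.1 hs).1).2 r)

theorem Fam_eP (σ : Fin (n + 1) →o F.Q) {k : ℕ} (θ : Op k n) :
    ∀ s ∈ F.T (σ.comp θ), ∀ r ∈ F.T (σ.comp θ), F.pat σ s r → F.pat (σ.comp θ) s r := by
  intro s hs r hr p
  have e := F.mrk_le (σ.monotone (Fin.le_last (θ (Fin.last k))))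
  exact ⟨fun a => p.1 (θ a), fun h =>
    (e r (Finset.mem_sdiff.1 hr).1).2 (p.2 ((e s (Finset.mem_sdiff.1 hs).1).1 h))⟩

theorem Fam_ac (σ : Fin (n + 1) →o F.Q) (m : ℕ) (b : Fin (n + 1)) {T T' : Finset ℕ}
    (hT : T ⊆ (F.K (σ b)).S) (ac : (F.K (σ b)).Ac T) (e : ∀ r, r ∈ T' ↔ r ∈ T) :
    AcN (dgC A.sat m).J T' (F.top σ).dg fun s r => (dgC A.sat m).ev (F.δ σ m s r) := by
  obtain rfl : T' = T := Finset.ext e
  refine (AcN.map (ac.mono (F.Fam_le_top σ b) hT) (A.ι₀ m) ?_).congr (fun _ _ => rfl)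
    fun s _ r _ => (A.isHom_ι m).ev _
  rintro _ ⟨x, hx, rfl⟩
  exact ⟨A.ι m x, (A.isHom_ι m).hg hx, by rw [← (A.isHom_ι m).d, ← (A.isHom_ι m).ev]⟩

variable {F}

/-- The simplicial operators. -/
noncomputable def X.map {k k' : ℕ} (θ : Op k n) (θ' : Op k' m) (x : F.X n m) : F.X k k' where
  σ := x.σ.comp θ
  φ := DR.trp (dgC A.sat k') (F.T (x.σ.comp θ)) (fun _ => 1) (A.sat.rs θ') x.φ
  str := x.str.trp (F.isTw x.σ m) (A.sat.isHom_rs θ') (F.cvx_T x.σ θ) (fun _ => 1)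
    (fun s hs => ((F.Fam_le_top x.σ (θ (Fin.last k))).2 s (Finset.mem_sdiff.1 hs).1).1)
    (F.Fam_eδ x.σ θ θ') (F.Fam_eP x.σ θ)

/-- The strict differential. -/
noncomputable def X.sd (x : F.X n m) : ℕ → ℕ → A.sat.obj m :=
  (dgC A.sat m).sdN (F.T x.σ) (F.δ x.σ m) x.φ

theorem X.sd_map {k k' : ℕ} (θ : Op k n) (θ' : Op k' m) (x : F.X n m) {s r : ℕ}
    (hs : s ∈ F.T (x.σ.comp θ)) (hr : r ∈ F.T (x.σ.comp θ)) :
    (x.map θ θ').sd s r = A.sat.map θ' (x.sd s r) := by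
  have h := x.str.sd_trp (F.isTw x.σ m) (A.sat.isHom_rs θ') (F.cvx_T x.σ θ) (fun _ => 1)
    (F.Fam_eδ x.σ θ θ') hs hr
  rw [inv_one, Units.val_one, one_mul, mul_one] at h
  exact h

theorem X.sd_pat (x : F.X n m) {s r : ℕ} (hs : s ∈ F.T x.σ) (hr : r ∈ F.T x.σ)
    (h : ¬ F.pat x.σ s r) : x.sd s r = 0 := x.str.sd_pat (F.isTw _ _) hs hr h

theorem X.cx (x : F.X n m) (b : Fin (n + 1)) {T : Finset ℕ} (hT : T ⊆ (F.K (x.σ b)).S)
    (cv : DR.Cvx (F.T x.σ) T (F.pat x.σ)) (ac : (F.K (x.σ b)).Ac T) :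
    CxN T (F.K (x.σ b)).dg x.sd :=
  (x.str.cx (A.sat_sat.dgC m) (F.isTw x.σ m) cv (F.Fam_ac x.σ m b hT ac fun _ => Iff.rfl)).congr
    (fun s hs => ((F.Fam_le_top x.σ b).2 s (hT hs)).1.symm) fun _ _ _ _ => rfl

theorem X.cx_diff (x : F.X n m) {a b : Fin (n + 1)} (h : a ≤ b) :
    CxN ((F.K (x.σ b)).S \ (F.K (x.σ a)).S) (F.K (x.σ b)).dg x.sd :=
  x.cx b Finset.sdiff_subset (F.cvx_diff _ _ _) (F.ac (x.σ.monotone h))

theorem X.cx_base (x : F.X n m) (b : Fin (n + 1)) :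
    CxN ((F.K (x.σ b)).S \ F.base (x.σ 0)) (F.K (x.σ b)).dg x.sd :=
  x.cx b Finset.sdiff_subset (F.cvx_base _ _) (F.ac_base (x.σ.monotone (Fin.zero_le b)))

/-- The transition unit from the vertex `a` to the vertex `b`. -/
noncomputable def X.tr (x : F.X n m) (a b : Fin (n + 1)) : A.sat.obj m :=
  sgK _ (eps (F.K (x.σ b)).dg (F.K (x.σ a)).S ((F.K (x.σ b)).S \ (F.K (x.σ a)).S)) *
    tau ((F.K (x.σ b)).S \ (F.K (x.σ a)).S) (F.K (x.σ b)).dg x.sd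

theorem X.tr_self (x : F.X n m) (a : Fin (n + 1)) : x.tr a a = 1 := by
  rw [X.tr, Finset.sdiff_self, eps_empty_right, tau_empty, sgK_one, mul_one]

theorem X.tr_trans (x : F.X n m) {a b c : Fin (n + 1)} (h : a ≤ b) (h' : b ≤ c) :
    x.tr a c = x.tr a b * x.tr b c := by
  have hab := F.Fam_le x.σ h
  have hbc := F.Fam_le x.σ h'
  have e₁ : (F.K (x.σ c)).S \ (F.K (x.σ a)).S =
      (F.K (x.σ b)).S \ (F.K (x.σ a)).S ∪ (F.K (x.σ c)).S \ (F.K (x.σ b)).S := by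
    rw [Finset.union_comm, Finset.sdiff_union_sdiff_cancel hbc.1 hab.1]
  have e₂ : (F.K (x.σ b)).S = (F.K (x.σ a)).S ∪ (F.K (x.σ b)).S \ (F.K (x.σ a)).S :=
    (Finset.union_sdiff_of_subset hab.1).symm
  have hd : Disjoint ((F.K (x.σ b)).S \ (F.K (x.σ a)).S) ((F.K (x.σ c)).S \ (F.K (x.σ b)).S) :=
    Finset.disjoint_left.2 fun s h1 h2 => (Finset.mem_sdiff.1 h2).2 (Finset.mem_sdiff.1 h1).1
  have hg : ∀ s ∈ (F.K (x.σ b)).S \ (F.K (x.σ a)).S, (F.K (x.σ b)).dg s = (F.K (x.σ c)).dg s :=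
    fun s hs => (hbc.2 s (Finset.mem_sdiff.1 hs).1).1
  have c₃ := x.cx_diff (h.trans h')
  rw [e₁] at c₃
  have t := tau_union hd c₃ ((x.cx_diff h).congr hg fun _ _ _ _ => rfl) (x.cx_diff h')
    fun s hs r hr => x.sd_pat ((F.cvx_diff _ a b).subset hs) ((F.cvx_diff _ b c).subset hr)
      fun p => (Finset.mem_sdiff.1 hr).2 (p.1 b (Finset.mem_sdiff.1 hs).1)
  have s₁ : eps (F.K (x.σ c)).dg (F.K (x.σ b)).S ((F.K (x.σ c)).S \ (F.K (x.σ b)).S) =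
      eps (F.K (x.σ c)).dg (F.K (x.σ a)).S ((F.K (x.σ c)).S \ (F.K (x.σ b)).S) *
        eps (F.K (x.σ c)).dg ((F.K (x.σ b)).S \ (F.K (x.σ a)).S)
          ((F.K (x.σ c)).S \ (F.K (x.σ b)).S) := by
    rw [← eps_union_left Finset.disjoint_sdiff, ← e₂]
  unfold X.tr
  rw [e₁, t, eps_union_right hd, s₁, eps_congr (fun s hs => (hbc.2 s (hab.1 hs)).1) hg,
    tau_congr hg fun _ _ _ _ => rfl, sgK_mul, sgK_mul]
  ring

theorem X.tr_map {k k' : ℕ} (θ : Op k n) (θ' : Op k' m) (x : F.X n m) {a b : Fin (k + 1)}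
    (h : a ≤ b) : (x.map θ θ').tr a b = A.sat.map θ' (x.tr (θ a) (θ b)) := by
  unfold X.tr
  rw [map_mul, map_sgK, map_tau (x.cx_diff (θ.monotone h))]
  exact congrArg (_ * ·) (tau_congr (fun _ _ => rfl) fun s hs r hr => X.sd_map θ θ' x
    ((F.cvx_diff (x.σ.comp θ) a b).subset hs) ((F.cvx_diff (x.σ.comp θ) a b).subset hr))

theorem X.isUnit_tr (x : F.X n m) {a b : Fin (n + 1)} (h : a ≤ b) : IsUnit (x.tr a b) :=
  (isUnit_sgK _).mul (isUnit_tau (x.cx_diff h))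

theorem X.map_id (x : F.X n m) : x.map OrderHom.id OrderHom.id = x :=
  X.ext rfl (x.str.trp_id (fun _ => rfl) fun _ => rfl)

theorem X.map_comp {n₀ n₁ n₂ m₀ m₁ m₂ : ℕ} (θ : Op n₁ n₀) (η : Op n₂ n₁) (θ' : Op m₁ m₀)
    (η' : Op m₂ m₁) (x : F.X n₀ m₀) :
    (x.map θ θ').map η η' = x.map (θ.comp η) (θ'.comp η') :=
  X.ext rfl (DR.trp_trp (F.cvx_T (x.σ.comp θ) η).subset _ _ _ _ (A.sat.isHom_rs η') _
    (fun y => (A.sat.rs_rs η' θ' y).symm) (fun _ _ => by rw [map_one, mul_one]) x.φ)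

theorem X.Fam_map_φ (x : F.X n m) {k : ℕ} (η : Op k m) (s r : ℕ) :
    (x.map OrderHom.id η).φ s r = A.sat.rs η (x.φ s r) := by
  change DR.trp (dgC A.sat k) (F.T x.σ) (fun _ => 1) (A.sat.rs η) x.φ s r = _
  rw [DR.trp]
  split_ifs with h
  · rw [inv_one, Units.val_one, map_one, one_mul, mul_one]
  · rw [x.str.out s r (not_and_or.1 h), map_zero]

theorem X.extend (n M : ℕ) (σ : Fin (n + 1) →o F.Q) (x : ∀ k, Bdy k M → F.X n k)
    (hx : ∀ k θ, (x k θ).σ = σ)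
    (nat : ∀ {l k : ℕ} (θ : Bdy k M) (η : Op l k), (x k θ).map OrderHom.id η = x l (θ.comp η)) :
    ∃ z : F.X n M, z.σ = σ ∧ ∀ k (θ : Bdy k M), z.map OrderHom.id θ.1 = x k θ := by
  have main := str_extend A.sat_sat (F.isTw σ M) (fun w hw => ?_)
    (fun k θ => (x k θ).φ) (fun k θ => ?_)
    fun θ η s r => ((x _ θ).Fam_map_φ η s r).symm.trans (by rw [nat θ η])
  · obtain ⟨φ, h1, h2⟩ := main
    exact ⟨⟨σ, φ, h1⟩, rfl, fun k θ => X.ext (hx k θ).symm (funext fun s => funext fun r =>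
      (X.Fam_map_φ ⟨σ, φ, h1⟩ θ.1 s r).trans (h2 k θ s r))⟩
  · obtain ⟨a, ha, hm⟩ := (Finset.univ.filter fun a => w ∈ (F.K (σ a)).S).exists_min_image id
      ⟨Fin.last n, Finset.mem_filter.2 ⟨Finset.mem_univ _, (Finset.mem_sdiff.1 hw).1⟩⟩
    have ha' := (Finset.mem_filter.1 ha).2
    have key : ∀ r, (∀ b, w ∈ (F.K (σ b)).S → r ∈ (F.K (σ b)).S) ↔ r ∈ (F.K (σ a)).S := fun r =>
      ⟨fun k => k a ha', fun k b hb =>
        (F.Fam_le σ (hm b (Finset.mem_filter.2 ⟨Finset.mem_univ _, hb⟩))).1 k⟩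
    have top := (F.Fam_le_top σ a).1
    by_cases hk : w ∈ F.mrk (σ (Fin.last n))
    · refine F.Fam_ac σ M a (Finset.inter_subset_left.trans Finset.sdiff_subset)
        (F.ac_mrk (σ.monotone (Fin.zero_le a))) fun r => ?_
      have e := F.mrk_le (σ.monotone (Fin.le_last a)) r
      rw [Finset.mem_filter, pat, key, T, Finset.mem_inter, Finset.mem_sdiff, Finset.mem_sdiff]
      exact ⟨fun k => ⟨⟨k.2.1, k.1.2⟩, (e k.2.1).2 (k.2.2 hk)⟩,
        fun k => ⟨⟨top k.1.1, k.1.2⟩, k.1.1, fun _ => (e k.1.1).1 k.2⟩⟩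
    · refine F.Fam_ac σ M a Finset.sdiff_subset (F.ac_base (σ.monotone (Fin.zero_le a)))
        fun r => ?_
      rw [Finset.mem_filter, pat, key, T, Finset.mem_sdiff, Finset.mem_sdiff]
      exact ⟨fun k => ⟨k.2.1, k.1.2⟩, fun k => ⟨⟨top k.1, k.2⟩, k.1, fun j => absurd j hk⟩⟩
  · have h := (x k θ).str
    rw [hx k θ] at h
    have e : (fun s r => A.sat.rs θ.1 (F.δ σ M s r)) = F.δ σ k :=
      funext fun s => funext fun r => A.rs_ι θ.1 _
    rw [e]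
    exact h

variable (F) in
/-- The torsion cocycle on the strictified flags. -/
@[reducible] noncomputable def tw : Tw A.sat where
  Q := F.Q
  con := F.con
  X := F.X
  map := X.map
  map_id _ _ := X.map_id
  map_comp := X.map_comp
  π := X.σ
  π_map _ _ _ := rfl
  ext := X.extend
  c x a := x.tr 0 a
  c_zero x := x.tr_self 0
  c_map θ θ' x a := by
    rw [X.tr_map θ θ' x (Fin.zero_le a), ← map_mul,
      ← x.tr_trans (Fin.zero_le _) (θ.monotone (Fin.zero_le a))]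
  c_unit x a := x.isUnit_tr (Fin.zero_le a)

end Fam

end Pool.Agent.P.MP_932208_ag.Ax
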