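import Pool.Agent.P.MP_932208_ag.Ex.Fam

/-!
Maps of families: base change, passage to subquotients, rescaling.
-/

namespace Pool.Agent.P.MP_932208_ag.Ax

open CategoryTheory Classical

variable {A B R : SRing}

namespace Fam

/-- `K' (f q)` is a subquotient of the base change of `K q`, with the basis rescaled by `l`. -/
structure Hom (φ : A ⟶ B) (F : Fam A) (F' : Fam B) where
  f : F.Q →o F'.Q
  l : ℕ → B.U
  sub : ∀ q, (F'.K (f q)).S ⊆ (F.K q).S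
  dg : ∀ q, ∀ s ∈ (F'.K (f q)).S, (F'.K (f q)).dg s = (F.K q).dg s
  δ : ∀ q, ∀ s ∈ (F'.K (f q)).S, ∀ r ∈ (F'.K (f q)).S, (F'.K (f q)).δ s r =
    N.inc (l s : B.obj 0) * N.map φ ((F.K q).δ s r) * N.inc (((l r)⁻¹ : B.U) : B.obj 0)
  cvx : ∀ {n : ℕ} (σ : Fin (n + 1) →o F.Q), DR.Cvx (F.T σ) (F'.T (f.comp σ)) (F.pat σ)
  pat : ∀ {n : ℕ} (σ : Fin (n + 1) →o F.Q), ∀ s ∈ F'.T (f.comp σ), ∀ r ∈ F'.T (f.comp σ),
    F.pat σ s r → F'.pat (f.comp σ) s r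

namespace Hom
variable {φ : A ⟶ B} {F : Fam A} {F' : Fam B} {F'' : Fam R} (h : Hom φ F F') {n m : ℕ}

/-- The rescaling over `Δ^m`. -/
noncomputable def lm (m : ℕ) (s : ℕ) : (B.sat.obj m)ˣ := Units.map (B.ι₀ m).toMonoidHom (h.l s)

theorem FamH_δ (σ : Fin (n + 1) →o F.Q) (m : ℕ) : ∀ s ∈ F'.T (h.f.comp σ),
    ∀ r ∈ F'.T (h.f.comp σ), F'.δ (h.f.comp σ) m s r = (dgC B.sat m).inc (h.lm m s) *
      N.map (SRing.cotHom (SRing.satMap φ) OrderHom.id) (F.δ σ m s r) *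
        (dgC B.sat m).inc ↑(h.lm m r)⁻¹ := by
  intro s hs r hr
  have e := congrArg (B.ι m)
    (h.δ (σ (Fin.last n)) s (Finset.sdiff_subset hs) r (Finset.sdiff_subset hr))
  rw [map_mul, map_mul, ← SRing.cot_ι φ (OrderHom.id : Op m m)] at e
  exact e.trans (congrArg₂ (· * ·) (congrArg (· * _) ((B.isHom_ι m).inc _)) ((B.isHom_ι m).inc _))

/-- The map of strictified flags. -/
noncomputable def X (x : F.X n m) : F'.X n m where
  σ := h.f.comp x.σ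
  φ := DR.trp (dgC B.sat m) (F'.T (h.f.comp x.σ)) (h.lm m)
    (N.map (SRing.cotHom (SRing.satMap φ) OrderHom.id)) x.φ
  str := x.str.trp (F.isTw _ _) (SRing.isHom_nc _ m) (h.cvx x.σ) (h.lm m)
    (fun s hs => h.dg _ s (Finset.sdiff_subset hs)) (h.FamH_δ x.σ m) (h.pat x.σ)

theorem X_σ (x : F.X n m) : (h.X x).σ = h.f.comp x.σ := rfl

theorem X_map {k k' : ℕ} (θ : Op k n) (θ' : Op k' m) (x : F.X n m) :
    h.X (x.map θ θ') = (h.X x).map θ θ' := by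
  refine Fam.X.ext rfl ?_
  refine (DR.trp_trp (h.cvx (x.σ.comp θ)).subset _ _ (h.lm k') _ (SRing.isHom_nc _ k')
    (N.map (SRing.cotHom (SRing.satMap φ) θ')) (fun _ => rfl)
    (fun s _ => by rw [map_one, mul_one]) x.φ).trans ?_
  refine (DR.trp_trp (F'.cvx_T (h.f.comp x.σ) θ).subset _ _ (h.lm k') _ (B.sat.isHom_rs θ')
    (N.map (SRing.cotHom (SRing.satMap φ) θ')) (fun _ => rfl) (fun s _ => ?_) x.φ).symm
  rw [one_mul]
  exact Units.ext (B.map_ι₀ θ' _).symm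

theorem sd_X (x : F.X n m) {s r : ℕ} (hs : s ∈ F'.T (h.f.comp x.σ))
    (hr : r ∈ F'.T (h.f.comp x.σ)) :
    (h.X x).sd s r = h.lm m s * (SRing.satMap φ).app m (x.sd s r) * ↑(h.lm m r)⁻¹ :=
  x.str.sd_trp (F.isTw _ _) (SRing.isHom_nc _ m) (h.cvx x.σ) (h.lm m) (h.FamH_δ x.σ m) hs hr

theorem X_id {φ : A ⟶ A} (h : Hom φ F F) (e : φ = 𝟙 A) (ef : ∀ q, h.f q = q)
    (el : ∀ s, h.l s = 1) (x : F.X n m) : h.X x = x := by
  have eσ : h.f.comp x.σ = x.σ := OrderHom.ext _ _ (funext fun _ => ef _)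
  refine Fam.X.ext eσ ?_
  change DR.trp _ (F.T (h.f.comp x.σ)) _ _ _ = _
  rw [eσ]
  refine x.str.trp_id (fun y => ?_) fun s => ?_
  · rw [e, SRing.satMap_id]
    rfl
  · rw [lm, el, map_one]

theorem FamH_two {χ : B ⟶ R} (h' : Hom χ F' F'') (x : F.X n m) (l : ℕ → R.U)
    (el : ∀ s ∈ F''.T (h'.f.comp (h.f.comp x.σ)),
      l s = h'.l s * Units.map (χ.app 0).toMonoidHom (h.l s)) :
    (h'.X (h.X x)).φ = DR.trp (dgC R.sat m) (F''.T (h'.f.comp (h.f.comp x.σ)))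
      (fun s => Units.map (R.ι₀ m).toMonoidHom (l s))
      (N.map (SRing.cotHom (SRing.satMap (φ ≫ χ)) OrderHom.id)) x.φ := by
  refine DR.trp_trp (h'.cvx (h.f.comp x.σ)).subset _ _ _ _ (SRing.isHom_nc _ m) _ (fun y => ?_)
    (fun s hs => ?_) x.φ
  · rw [SRing.satMap_comp]
    rfl
  · rw [el s hs, map_mul]
    exact congrArg (_ * ·) (Units.ext (SRing.satMap_ι₀ χ m _).symm)

theorem X_tri {χ : B ⟶ R} {ω : A ⟶ R} (h' : Hom χ F' F'') (g : Hom ω F F'') (e : ω = φ ≫ χ)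
    (ef : ∀ q, g.f q = h'.f (h.f q))
    (el : ∀ q, ∀ s ∈ (F''.K (g.f q)).S, g.l s = h'.l s * Units.map (χ.app 0).toMonoidHom (h.l s))
    (x : F.X n m) :
    g.X x = h'.X (h.X x) := by
  have eσ : g.f.comp x.σ = h'.f.comp (h.f.comp x.σ) := OrderHom.ext _ _ (funext fun _ => ef _)
  refine Fam.X.ext eσ ?_
  rw [h.FamH_two h' x g.l fun s hs => el _ s (by rw [ef]; exact Finset.sdiff_subset hs), ← eσ, ← e]
  rfl

theorem X_sq {B' : SRing} {F₁ : Fam B'} {χ : B ⟶ R} {φ' : A ⟶ B'} {χ' : B' ⟶ R}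
    (h' : Hom χ F' F'') (g : Hom φ' F F₁) (g' : Hom χ' F₁ F'') (e : φ ≫ χ = φ' ≫ χ')
    (ef : ∀ q, h'.f (h.f q) = g'.f (g.f q))
    (el : ∀ q, ∀ s ∈ (F''.K (h'.f (h.f q))).S, h'.l s * Units.map (χ.app 0).toMonoidHom (h.l s) =
      g'.l s * Units.map (χ'.app 0).toMonoidHom (g.l s)) (x : F.X n m) :
    h'.X (h.X x) = g'.X (g.X x) := by
  have eσ : h'.f.comp (h.f.comp x.σ) = g'.f.comp (g.f.comp x.σ) :=
    OrderHom.ext _ _ (funext fun _ => ef _)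
  refine Fam.X.ext eσ ?_
  rw [h.FamH_two h' x _ fun s _ => rfl,
    g.FamH_two g' x (fun s => h'.l s * Units.map (χ.app 0).toMonoidHom (h.l s))
      fun s hs => el _ s (by rw [ef]; exact Finset.sdiff_subset hs), eσ, e]

/-- The new cells, their scaling and their signs do not change. -/
def Plain : Prop := ∀ q q', q ≤ q' →
  (F'.K (h.f q')).S \ (F'.K (h.f q)).S = (F.K q').S \ (F.K q).S ∧
  (∀ s ∈ (F.K q').S \ (F.K q).S, h.l s = 1) ∧
  eps (F'.K (h.f q')).dg (F'.K (h.f q)).S ((F.K q').S \ (F.K q).S) =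
    eps (F.K q').dg (F.K q).S ((F.K q').S \ (F.K q).S)

theorem Plain.tr_X {h : Hom φ F F'} (p : h.Plain) (x : F.X n m) {a b : Fin (n + 1)} (e : a ≤ b) :
    (h.X x).tr a b = (SRing.satMap φ).app m (x.tr a b) := by
  obtain ⟨p1, p2, p3⟩ := p _ _ (x.σ.monotone e)
  have hT := (F'.cvx_diff (h.f.comp x.σ) a b).subset
  change (F'.K (h.f (x.σ b))).S \ (F'.K (h.f (x.σ a))).S ⊆ _ at hT
  have hS : (F'.K (h.f (x.σ b))).S \ (F'.K (h.f (x.σ a))).S ⊆ _ := Finset.sdiff_subset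
  change sgK _ (eps (F'.K (h.f (x.σ b))).dg (F'.K (h.f (x.σ a))).S
    ((F'.K (h.f (x.σ b))).S \ (F'.K (h.f (x.σ a))).S)) *
    tau ((F'.K (h.f (x.σ b))).S \ (F'.K (h.f (x.σ a))).S) (F'.K (h.f (x.σ b))).dg (h.X x).sd = _
  rw [p1] at hT hS ⊢
  rw [p3, Fam.X.tr, map_mul, map_sgK, map_tau (x.cx_diff e)]
  refine congrArg _ (tau_congr (fun s hs => h.dg _ s (hS hs)) fun s hs r hr => ?_)
  rw [h.sd_X x (hT hs) (hT hr), lm, lm, p2 s hs, p2 r hr, map_one, inv_one, Units.val_one, one_mul,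
    mul_one]

/-- The induced map of cocycles. -/
@[reducible] noncomputable def tw (p : h.Plain) : Tw.Hom (SRing.satMap φ) F.tw F'.tw where
  f := h.X
  nat := h.X_map
  μ _ := 1
  unit _ := isUnit_one
  compat θ θ' x := by
    rw [one_mul, mul_one]
    exact congrArg _ (p.tr_X x (Fin.zero_le _))

end Hom

end Fam

end Pool.Agent.P.MP_932208_ag.Ax
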