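import Pool.Agent.P.MP_932208_ag.Ax.ModL

/-!
Quasi-isomorphisms and short exact sequences; shift and fibre of dg modules.
-/

namespace Pool.Agent.P.MP_932208_ag.Ax

open CategoryTheory

namespace DG
variable {A B C : SRing}

/-- All cycles are boundaries. -/
def Acyc (M : DG A) : Prop := ∀ k x, M.Cycle k x → M.Bdry k x

/-- A quasi-isomorphism. -/
abbrev Hom.QI {φ : A ⟶ B} {M : DG A} {M' : DG B} (g : Hom φ M M') : Prop := g.QIsoAway 1

section helpers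
variable {M : DG A} {k : ℤ} {x y : M.V}

theorem Five_bdry_zero (M : DG A) (k : ℤ) : M.Bdry k 0 := ⟨0, zero_mem _, map_zero _⟩

theorem Five_bdry_add (hx : M.Bdry k x) (hy : M.Bdry k y) : M.Bdry k (x + y) :=
  (M.Bd k).add_mem hx hy

theorem Five_bdry_sub (hx : M.Bdry k x) (hy : M.Bdry k y) : M.Bdry k (x - y) :=
  (M.Bd k).sub_mem hx hy

theorem Five_d_mem (hx : x ∈ M.gr k) : M.d x ∈ M.gr (k - 1) :=
  M.d_mem (by rwa [sub_add_cancel])

theorem Five_prod_internal (M M' : DG A) : Internal fun k => (M.gr k).prod (M'.gr k) := by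
  refine internal_of_proj _ (fun k => (M.proj k).prodMap (M'.proj k))
    (fun k x => ⟨M.proj_mem k x.1, M'.proj_mem k x.2⟩)
    (fun k x hx => Prod.ext (M.proj_of_mem hx.1) (M'.proj_of_mem hx.2))
    (fun k l x hx e => Prod.ext (M.proj_of_ne hx.1 e) (M'.proj_of_ne hx.2 e)) fun x => ?_
  obtain ⟨S, h₁, h₂⟩ := M.exists_sum_proj x.1
  obtain ⟨T, h₃, h₄⟩ := M'.exists_sum_proj x.2
  refine ⟨S ∪ T, Prod.ext ?_ ?_⟩
  · rw [Prod.fst_sum, ← h₂]
    exact (Finset.sum_subset Finset.subset_union_left fun k _ hk => h₁ k hk).symm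
  · rw [Prod.snd_sum, ← h₄]
    exact (Finset.sum_subset Finset.subset_union_right fun k _ hk => h₃ k hk).symm

end helpers

section two
variable {φ : A ⟶ B} {χ : B ⟶ C} {ρ : A ⟶ C} {M : DG A} {M' : DG B} {M'' : DG C}
  {f : Hom φ M M'} {g : Hom χ M' M''} {h : Hom ρ M M''}

theorem Hom.qi_iff' : f.QI ↔ ∀ k, (∀ y, M'.Cycle k y → ∃ x, M.Cycle k x ∧ M'.Bdry k (f.toFun x - y)) ∧
    ∀ x, M.Cycle k x → M'.Bdry k (f.toFun x) → M.Bdry k x := by
  unfold Hom.QI Hom.QIsoAway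
  simp only [map_one, one_pow, one_smul, exists_const]

theorem Five_comp (e : h.Tri f g) (k : ℤ) : (h.H k : M.H k → M''.H k) = g.H k ∘ f.H k :=
  funext fun ξ => (H_comp f.cmap g.cmap h.cmap (fun x => (e x).symm) k ξ).symm

theorem Hom.QI.tri (e : h.Tri f g) (hf : f.QI) (hg : g.QI) : h.QI := by
  refine h.qiso_iff.2 fun k => ?_
  rw [Five_comp e]
  exact (g.qiso_iff.1 hg k).comp (f.qiso_iff.1 hf k)

theorem Hom.QI.tri_left (e : h.Tri f g) (hh : h.QI) (hg : g.QI) : f.QI := by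
  refine f.qiso_iff.2 fun k => ?_
  have := h.qiso_iff.1 hh k
  rw [Five_comp e] at this
  exact (Function.Bijective.of_comp_iff' (g.qiso_iff.1 hg k) _).1 this

theorem Hom.QI.tri_right (e : h.Tri f g) (hh : h.QI) (hf : f.QI) : g.QI := by
  refine g.qiso_iff.2 fun k => ?_
  have := h.qiso_iff.1 hh k
  rw [Five_comp e] at this
  exact (Function.Bijective.of_comp_iff _ (f.qiso_iff.1 hf k)).1 this

theorem Hom.QI.congr {φ' : A ⟶ B} {f' : Hom φ' M M'} (hf : f.QI)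
    (e : ∀ x, f.toFun x = f'.toFun x) : f'.QI := by
  have := Hom.qi_iff'.1 hf
  refine Hom.qi_iff'.2 ?_
  simpa only [e] using this

/-- Maps that agree on homology. -/
theorem Hom.QI.congr_bdry {φ' : A ⟶ B} {f' : Hom φ' M M'} (hf : f.QI)
    (e : ∀ k x, M.Cycle k x → M'.Bdry k (f.toFun x - f'.toFun x)) : f'.QI := by
  refine Hom.qi_iff'.2 fun k => ⟨fun y hy => ?_, fun x hx hb => ?_⟩
  · obtain ⟨x, hx, hb⟩ := (Hom.qi_iff'.1 hf k).1 y hy
    refine ⟨x, hx, ?_⟩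
    have := Five_bdry_sub hb (e k x hx)
    rwa [sub_sub_sub_cancel_left] at this
  · refine (Hom.qi_iff'.1 hf k).2 x hx ?_
    have := Five_bdry_add (e k x hx) hb
    rwa [sub_add_cancel] at this

theorem Hom.qi_of_acyc (f : Hom φ M M') (h : M.Acyc) (h' : M'.Acyc) : f.QI := by
  refine Hom.qi_iff'.2 fun k => ⟨fun y hy => ⟨0, ⟨zero_mem _, map_zero _⟩, ?_⟩,
    fun x hx _ => h k x hx⟩
  rw [map_zero]
  exact Five_bdry_sub (Five_bdry_zero M' k) (h' k y hy)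

theorem Hom.QI.acyc_iff (hf : f.QI) : M.Acyc ↔ M'.Acyc := by
  refine ⟨fun h k y hy => ?_, fun h k x hx => (Hom.qi_iff'.1 hf k).2 x hx (h k _ (f.cycle hx))⟩
  obtain ⟨x, hx, hb⟩ := (Hom.qi_iff'.1 hf k).1 y hy
  have := Five_bdry_sub (f.bdry (h k x hx)) hb
  rwa [sub_sub_cancel] at this

theorem acyc_zero (A : SRing) : (zero A).Acyc :=
  fun _ _ _ => ⟨0, zero_mem _, Subsingleton.elim _ _⟩

/-- The lifting step: a cycle `z` with a null-homotopy `y` of its image. -/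
theorem Hom.QI.lift (hf : f.QI) {k : ℤ} {z : M.V} {y : M'.V} (hz : M.Cycle (k - 1) z)
    (hy : y ∈ M'.gr k) (e : M'.d y = f.toFun z) :
    ∃ x ∈ M.gr k, ∃ w ∈ M'.gr (k + 1), M.d x = z ∧ f.toFun x - y = M'.d w := by
  obtain ⟨x₀, hx₀, e₀⟩ := (Hom.qi_iff'.1 hf (k - 1)).2 z hz ⟨y, by rwa [sub_add_cancel], e⟩
  rw [sub_add_cancel] at hx₀
  obtain ⟨c, hc, w, hw, e₁⟩ := (Hom.qi_iff'.1 hf k).1 (f.toFun x₀ - y)
    ⟨sub_mem (f.map_gr hx₀) hy, by rw [map_sub, ← f.map_d, e₀, e, sub_self]⟩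
  refine ⟨x₀ - c, sub_mem hx₀ hc.1, -w, neg_mem hw, by rw [map_sub, e₀, hc.2, sub_zero], ?_⟩
  rw [map_neg, e₁, map_sub]
  abel

theorem Hom.QI.scale (hf : f.QI) {c : B.obj 0} (hc : IsUnit c) : (f.scale c).QI := by
  refine (f.scale c).qiso_iff.2 fun k => ?_
  have e : ((f.scale c).H k : M.H k → M'.H k) = (fun ξ => c • ξ) ∘ f.H k :=
    funext fun ξ => f.scale_H c k ξ
  rw [e]
  exact hc.smul_bijective.comp (f.qiso_iff.1 hf k)

end two

section ses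
variable {M₁ M₂ M₃ : DG A} {i : Hom (𝟙 A) M₁ M₂} {p : Hom (𝟙 A) M₂ M₃}

theorem ShortExact.lift_gr (h : ShortExact i p) {k : ℤ} {z : M₃.V} (hz : z ∈ M₃.gr k) :
    ∃ y ∈ M₂.gr k, p.toFun y = z := by
  obtain ⟨y, rfl⟩ := h.2.2 z
  exact ⟨M₂.proj k y, M₂.proj_mem k y, by rw [p.map_proj, M₃.proj_of_mem hz]⟩

theorem ShortExact.gr_of_inj (h : ShortExact i p) {k : ℤ} {x : M₁.V}
    (hx : i.toFun x ∈ M₂.gr k) : x ∈ M₁.gr k := by
  have e : M₁.proj k x = x := h.1 (by rw [i.map_proj, M₂.proj_of_mem hx])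
  rw [← e]
  exact M₁.proj_mem k x

theorem ShortExact.Five_pi (h : ShortExact i p) (x : M₁.V) : p.toFun (i.toFun x) = 0 :=
  h.2.1.apply_apply_eq_zero x

theorem ShortExact.Five_ker (h : ShortExact i p) {k : ℤ} {y : M₂.V} (hy : y ∈ M₂.gr k)
    (e : p.toFun y = 0) : ∃ x ∈ M₁.gr k, i.toFun x = y := by
  obtain ⟨x, rfl⟩ := (h.2.1 y).1 e
  exact ⟨x, h.gr_of_inj hy, rfl⟩

/-- The connecting cycle. -/
theorem ShortExact.Five_conn (h : ShortExact i p) {k : ℤ} {z : M₃.V} (hz : M₃.Cycle k z) :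
    ∃ y ∈ M₂.gr k, ∃ x, M₁.Cycle (k - 1) x ∧ p.toFun y = z ∧ M₂.d y = i.toFun x := by
  obtain ⟨y, hy, rfl⟩ := h.lift_gr hz.1
  obtain ⟨x, hx, e⟩ := h.Five_ker (Five_d_mem hy) (by rw [p.map_d, hz.2])
  exact ⟨y, hy, x, ⟨hx, h.1 (by rw [i.map_d, e, M₂.d_d, map_zero])⟩, rfl, e.symm⟩

theorem ShortExact.qi_left_iff (h : ShortExact i p) : i.QI ↔ M₃.Acyc := by
  refine ⟨fun hi k z hz => ?_, fun h₃ => Hom.qi_iff'.2 fun k => ⟨fun y hy => ?_, ?_⟩⟩
  · obtain ⟨y, hy, x, hx, rfl, e⟩ := h.Five_conn hz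
    obtain ⟨s, -, w, hw, -, e₂⟩ := hi.lift hx hy e
    refine ⟨-p.toFun w, neg_mem (p.map_gr hw), ?_⟩
    rw [map_neg, ← p.map_d, ← e₂, map_sub, h.Five_pi, zero_sub, neg_neg]
  · obtain ⟨w, hw, e⟩ := h₃ k _ (p.cycle hy)
    obtain ⟨v, hv, rfl⟩ := h.lift_gr hw
    obtain ⟨x, hx, e₁⟩ := h.Five_ker (sub_mem hy.1 (M₂.d_mem hv))
      (by rw [map_sub, p.map_d, e, sub_self])
    refine ⟨x, ⟨hx, h.1 ?_⟩, -v, neg_mem hv, ?_⟩
    · rw [i.map_d, e₁, map_sub, hy.2, M₂.d_d, sub_self, map_zero]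
    · rw [e₁, map_neg]; abel
  · rintro x hx ⟨y, hy, e⟩
    obtain ⟨w, hw, e₀⟩ := h₃ (k + 1) (p.toFun y)
      ⟨p.map_gr hy, by rw [← p.map_d, e, h.Five_pi]⟩
    obtain ⟨v, hv, rfl⟩ := h.lift_gr hw
    obtain ⟨s, hs, e₁⟩ := h.Five_ker (sub_mem hy (M₂.d_mem hv))
      (by rw [map_sub, p.map_d, e₀, sub_self])
    exact ⟨s, hs, h.1 (by rw [i.map_d, e₁, map_sub, M₂.d_d, sub_zero, e])⟩

variable {φ : A ⟶ B} {P₁ P₂ P₃ : DG B} {i' : Hom (𝟙 B) P₁ P₂} {p' : Hom (𝟙 B) P₂ P₃}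
  {a : Hom φ M₁ P₁} {b : Hom φ M₂ P₂} {c : Hom φ M₃ P₃}

/-- The five lemma, for the quotients. -/
theorem ShortExact.qi_right (h : ShortExact i p) (h' : ShortExact i' p') (s₁ : i.Sq b a i')
    (s₂ : p.Sq c b p') (ha : a.QI) (hb : b.QI) : c.QI := by
  refine Hom.qi_iff'.2 fun k => ⟨fun z' hz' => ?_, ?_⟩
  · obtain ⟨y', hy', x', hx', rfl, e⟩ := h'.Five_conn hz'
    obtain ⟨x, hx, u, hu, e₁⟩ := (Hom.qi_iff'.1 ha (k - 1)).1 x' hx'
    rw [sub_add_cancel] at hu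
    obtain ⟨y, hy, w, hw, e₂, e₃⟩ := hb.lift (i.cycle hx) (add_mem hy' (i'.map_gr hu))
      (by rw [map_add, e, ← i'.map_d, e₁, map_sub, s₁]; abel)
    refine ⟨p.toFun y, ⟨p.map_gr hy, by rw [← p.map_d, e₂, h.Five_pi]⟩,
      p'.toFun w, p'.map_gr hw, ?_⟩
    rw [← p'.map_d, ← e₃, map_sub, map_add, h'.Five_pi, add_zero, s₂]
  · rintro z hz ⟨w', hw', e₀⟩
    obtain ⟨y, hy, x, hx, rfl, e⟩ := h.Five_conn hz
    obtain ⟨v', hv', rfl⟩ := h'.lift_gr hw'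
    obtain ⟨t', ht', e₁⟩ := h'.Five_ker (sub_mem (b.map_gr hy) (P₂.d_mem hv'))
      (by rw [map_sub, p'.map_d, e₀, s₂, sub_self])
    obtain ⟨s, hs, u, hu, e₂, e₃⟩ := ha.lift hx ht'
      (h'.1 (by rw [i'.map_d, e₁, map_sub, P₂.d_d, sub_zero, ← b.map_d, e, s₁]))
    obtain ⟨r, hr, e₄⟩ := (Hom.qi_iff'.1 hb k).2 (y - i.toFun s)
      ⟨sub_mem hy (i.map_gr hs), by rw [map_sub, e, ← i.map_d, e₂, sub_self]⟩
      ⟨v' - i'.toFun u, sub_mem hv' (i'.map_gr hu), by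
        rw [map_sub, map_sub, ← i'.map_d, ← e₃, map_sub, e₁, s₁]; abel⟩
    exact ⟨p.toFun r, p.map_gr hr, by rw [← p.map_d, e₄, map_sub, h.Five_pi, sub_zero]⟩

end ses

theorem shift_internal (M : DG A) : Internal fun k => M.gr (k + 1) := by
  refine internal_of_proj _ (fun k => M.proj (k + 1)) (fun k x => M.proj_mem _ x)
    (fun k x hx => M.proj_of_mem hx) (fun k l x hx e => M.proj_of_ne hx (by omega)) fun x => ?_
  obtain ⟨S, -, hS⟩ := M.exists_sum_proj x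
  refine ⟨S.map (Equiv.subRight (1 : ℤ)).toEmbedding, ?_⟩
  rw [Finset.sum_map]
  simpa using hS

theorem shift_smul_mem (M : DG A) :
    @SMulGraded _ _ _ _ (Module.compHom M.V N.sg) (N.deg A) fun k => M.gr (k + 1) := by
  intro n k a x ha hx
  change N.sg a • x ∈ M.gr (n + k + 1)
  rw [add_assoc]
  exact M.smul_mem (N.Hg.sg ha) hx

theorem shift_d_smul (M : DG A) :
    @Leibniz _ _ _ _ (Module.compHom M.V (N.sg (A := A))) N.bd N.sg (-M.d) := by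
  intro a x
  change -M.d (N.sg a • x) = N.sg (N.bd a) • x + N.sg (N.sg a) • (-M.d x)
  rw [M.d_smul, Gen_bd_sg, neg_smul, smul_neg]
  abel

/-- The shift `M[-1]`. -/
def shift (M : DG A) : DG A where
  V := M.V
  mod := Module.compHom M.V N.sg
  gr k := M.gr (k + 1)
  internal := M.shift_internal
  d := -M.d
  smul_mem := @shift_smul_mem A M
  d_mem h := neg_mem (M.d_mem h)
  d_d x := by simp [M.d_d]
  d_smul := M.shift_d_smul

/-- An element of `M` as an element of `M[-1]`. -/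
def toShift (M : DG A) : M.V ≃+ M.shift.V := AddEquiv.refl _

theorem toShift_smul (M : DG A) (a : N A) (x : M.V) :
    a • M.toShift x = M.toShift (N.sg a • x) := rfl

theorem toShift_d (M : DG A) (x : M.V) : M.shift.d (M.toShift x) = M.toShift (-M.d x) := rfl

theorem toShift_gr (M : DG A) (k : ℤ) (x : M.V) :
    M.toShift x ∈ M.shift.gr k ↔ x ∈ M.gr (k + 1) := Iff.rfl

/-- The shift of a map. -/
def Hom.shift {φ : A ⟶ B} {M : DG A} {M' : DG B} (g : Hom φ M M') : Hom φ M.shift M'.shift where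
  toFun := g.toFun
  map_smul a x := by
    change g.toFun (N.sg a • M.toShift.symm x) = N.sg (N.map φ a) • g.toFun (M.toShift.symm x)
    rw [g.map_smul, N.map_sg]
  map_gr h := g.map_gr h
  map_d x := by
    change g.toFun (-M.d (M.toShift.symm x)) = -M'.d (g.toFun (M.toShift.symm x))
    rw [map_neg, g.map_d]

theorem Hom.shift_apply {φ : A ⟶ B} {M : DG A} {M' : DG B} (g : Hom φ M M') (x : M.V) :
    g.shift.toFun (M.toShift x) = M'.toShift (g.toFun x) := rfl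

/-- The fibre of `p`. -/
def fib {M₂ M₃ : DG A} (p : Hom (𝟙 A) M₂ M₃) : DG A where
  V := M₂.V × M₃.shift.V
  gr k := (M₂.gr k).prod (M₃.shift.gr k)
  internal := Five_prod_internal M₂ M₃.shift
  d := (M₂.d.comp (AddMonoidHom.fst _ _)).prod
    ((M₃.toShift.toAddMonoidHom.comp p.toFun).coprod M₃.shift.d)
  smul_mem ha hx := ⟨M₂.smul_mem ha hx.1, M₃.shift.smul_mem ha hx.2⟩
  d_mem hx := ⟨M₂.d_mem hx.1,
    add_mem ((M₃.toShift_gr _ _).2 (p.map_gr hx.1)) (M₃.shift.d_mem hx.2)⟩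
  d_d x := by
    refine Prod.ext (M₂.d_d x.1) ?_
    change M₃.toShift (p.toFun (M₂.d x.1)) +
      M₃.shift.d (M₃.toShift (p.toFun x.1) + M₃.shift.d x.2) = 0
    rw [map_add, M₃.shift.d_d, add_zero, M₃.toShift_d, p.map_d, map_neg, add_neg_cancel]
  d_smul a x := by
    refine Prod.ext (M₂.d_smul a x.1) ?_
    change M₃.toShift (p.toFun (a • x.1)) + M₃.shift.d (a • x.2) =
      N.bd a • x.2 + N.sg a • (M₃.toShift (p.toFun x.1) + M₃.shift.d x.2)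
    rw [M₃.shift.d_smul, smul_add, M₃.toShift_smul, Gen_sg_sg, p.map_smul, N.map_id]
    abel

section fib
variable {M₁ M₂ M₃ : DG A} (p : Hom (𝟙 A) M₂ M₃)

/-- `M₃[-1] → fib p`. -/
def fibInr : Hom (𝟙 A) M₃.shift (fib p) where
  toFun := AddMonoidHom.inr _ _
  map_smul a x := Prod.ext (smul_zero a).symm rfl
  map_gr h := ⟨zero_mem _, h⟩
  map_d x := by
    refine Prod.ext (map_zero M₂.d).symm ?_
    change M₃.shift.d x = M₃.toShift (p.toFun 0) + M₃.shift.d x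
    rw [map_zero, map_zero, zero_add]

/-- `fib p → M₂`. -/
def fibFst : Hom (𝟙 A) (fib p) M₂ where
  toFun := AddMonoidHom.fst _ _
  map_smul _ _ := rfl
  map_gr h := h.1
  map_d _ := rfl

theorem fib_ses : ShortExact (fibInr p) (fibFst p) := by
  refine ⟨fun x y e => congrArg Prod.snd e, fun x => ⟨fun e => ⟨x.2, Prod.ext e.symm rfl⟩, ?_⟩,
    fun y => ⟨(y, 0), rfl⟩⟩
  rintro ⟨y, rfl⟩
  rfl

variable {p} in
/-- `M₁ → fib p`. -/
def fibLift {i : Hom (𝟙 A) M₁ M₂} (h : ShortExact i p) : Hom (𝟙 A) M₁ (fib p) where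
  toFun := (AddMonoidHom.inl _ _).comp i.toFun
  map_smul a x := Prod.ext (i.map_smul a x) (smul_zero a).symm
  map_gr hx := ⟨i.map_gr hx, zero_mem _⟩
  map_d x := by
    refine Prod.ext (i.map_d x) ?_
    change 0 = M₃.toShift (p.toFun (i.toFun x)) + M₃.shift.d 0
    rw [h.Five_pi, map_zero, map_zero, add_zero]

variable {p} in
theorem qi_fibLift {i : Hom (𝟙 A) M₁ M₂} (h : ShortExact i p) : (fibLift h).QI := by
  refine Hom.qi_iff'.2 fun k => ⟨?_, ?_⟩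
  · rintro ⟨y, z⟩ ⟨⟨hy, hz⟩, e⟩
    obtain ⟨z, rfl⟩ := M₃.toShift.surjective z
    have e₁ : M₂.d y = 0 := congrArg Prod.fst e
    have e₂ : M₃.toShift (p.toFun y) + M₃.shift.d (M₃.toShift z) = 0 := congrArg Prod.snd e
    rw [M₃.toShift_d, ← map_add, map_eq_zero_iff _ M₃.toShift.injective] at e₂
    obtain ⟨v, hv, rfl⟩ := h.lift_gr ((M₃.toShift_gr k z).1 hz)
    obtain ⟨x, hx, e₃⟩ := h.Five_ker (sub_mem hy (M₂.d_mem hv))
      (by rw [map_sub, p.map_d, sub_eq_add_neg, e₂])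
    refine ⟨x, ⟨hx, h.1 ?_⟩, (-v, 0), ⟨(M₂.gr _).neg_mem hv, zero_mem _⟩, Prod.ext ?_ ?_⟩
    · rw [i.map_d, e₃, map_sub, e₁, M₂.d_d, sub_self, map_zero]
    · change M₂.d (-v) = i.toFun x - y
      rw [e₃, map_neg]; abel
    · change M₃.toShift (p.toFun (-v)) + M₃.shift.d 0 = 0 - M₃.toShift (p.toFun v)
      rw [map_zero, add_zero, map_neg, map_neg, zero_sub]
  · rintro x hx ⟨⟨y, z⟩, ⟨hy, hz⟩, e⟩
    obtain ⟨z, rfl⟩ := M₃.toShift.surjective z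
    have e₁ : M₂.d y = i.toFun x := congrArg Prod.fst e
    have e₂ : M₃.toShift (p.toFun y) + M₃.shift.d (M₃.toShift z) = 0 := congrArg Prod.snd e
    rw [M₃.toShift_d, ← map_add, map_eq_zero_iff _ M₃.toShift.injective] at e₂
    obtain ⟨v, hv, rfl⟩ := h.lift_gr ((M₃.toShift_gr (k + 1) z).1 hz)
    obtain ⟨s, hs, e₃⟩ := h.Five_ker (sub_mem hy (M₂.d_mem hv))
      (by rw [map_sub, p.map_d, sub_eq_add_neg, e₂])
    exact ⟨s, hs, h.1 (by rw [i.map_d, e₃, map_sub, M₂.d_d, sub_zero, e₁])⟩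

/-- Functoriality of the fibre. -/
def fibMap {φ : A ⟶ B} {P₂ P₃ : DG B} (p' : Hom (𝟙 B) P₂ P₃) (b : Hom φ M₂ P₂) (c : Hom φ M₃ P₃)
    (s : p.Sq c b p') : Hom φ (fib p) (fib p') where
  toFun := b.toFun.prodMap c.shift.toFun
  map_smul a x := Prod.ext (b.map_smul a x.1) (c.shift.map_smul a x.2)
  map_gr hx := ⟨b.map_gr hx.1, c.shift.map_gr hx.2⟩
  map_d x := by
    refine Prod.ext (b.map_d x.1) ?_
    change c.shift.toFun (M₃.toShift (p.toFun x.1) + M₃.shift.d x.2) =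
      P₃.toShift (p'.toFun (b.toFun x.1)) + P₃.shift.d (c.shift.toFun x.2)
    rw [map_add, c.shift.map_d, c.shift_apply, s]

end fib

end DG

namespace Arr
variable {A B : SRing} {φ : A ⟶ B}

/-- The shift of a module over an arrow. -/
@[reducible] def shift (a : Arr φ) : Arr φ := ⟨a.src.shift, a.tgt.shift, a.map.shift⟩

/-- Rotation of a short exact sequence `a → b → c` into `c[-1] → a' → b` with `a ≃ a'`. -/
theorem rotate {a b c : Arr φ} {i : a.Hom b} {p : b.Hom c} (h : ShortExact i p) :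
    ∃ (a' : Arr φ) (j : c.shift.Hom a') (q : a'.Hom b) (e : a.Hom a'),
      ShortExact j q ∧ e.s.QI ∧ e.t.QI :=
  ⟨⟨DG.fib p.s, DG.fib p.t, DG.fibMap p.s p.t b.map c.map fun x => (p.comm x).symm⟩,
    ⟨DG.fibInr _, DG.fibInr _, fun x => Prod.ext (map_zero b.map.toFun).symm rfl⟩,
    ⟨DG.fibFst _, DG.fibFst _, fun _ => rfl⟩,
    ⟨DG.fibLift h.1, DG.fibLift h.2, fun x =>
      Prod.ext (i.comm x) (map_zero c.map.shift.toFun).symm⟩,
    ⟨DG.fib_ses _, DG.fib_ses _⟩, DG.qi_fibLift h.1, DG.qi_fibLift h.2⟩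

end Arr

end Pool.Agent.P.MP_932208_ag.Ax
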