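import Pool.Agent.P.MP_932208_ag.Ex.SPair
import Pool.Agent.P.MP_932208_ag.Ax.TotR

/-!
The cup product on total complexes; pairings on homology of degree zero.
-/

namespace Pool.Agent.P.MP_932208_ag.Ax

open CategoryTheory

namespace DG.Pairing
variable {A B : SRing} {L L' P : DG A} (m : Pairing L L' P)

theorem cycle {x : L.V} {y : L'.V} (hx : L.Cycle 0 x) (hy : L'.Cycle 0 y) :
    P.Cycle 0 (m.μ x y) :=
  ⟨by simpa using m.μ_gr hx.1 hy.1, by
    rw [m.leibniz y hx.1, hx.2, hy.2, map_zero, map_zero, smul_zero, add_zero]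
    rfl⟩

theorem GCup_bdry_left {x : L.V} {y : L'.V} (hx : L.Bdry 0 x) (hy : L'.Cycle 0 y) :
    P.Bdry 0 (m.μ x y) := by
  obtain ⟨x', h1, rfl⟩ := hx
  refine ⟨m.μ x' y, by simpa using m.μ_gr h1 hy.1, ?_⟩
  rw [m.leibniz y h1, hy.2, map_zero, smul_zero, add_zero]

theorem GCup_bdry_right {x : L.V} {y : L'.V} (hx : L.Cycle 0 x) (hy : L'.Bdry 0 y) :
    P.Bdry 0 (m.μ x y) := by
  obtain ⟨y', h1, rfl⟩ := hy
  refine ⟨m.μ x y', by simpa using m.μ_gr hx.1 h1, ?_⟩
  rw [m.leibniz y' hx.1, hx.2, map_zero, AddMonoidHom.zero_apply, zero_add, Int.negOnePow_zero,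
    one_smul]

/-- The pairing of a cycle with a class. -/
noncomputable def GCup_H1 (x : L.Z 0) : L'.H 0 →+ P.H 0 :=
  QuotientAddGroup.lift ((L'.Bd 0).comap (L'.Z 0).subtype).toAddSubgroup
    (AddMonoidHom.mk' (fun y => P.cls (m.μ x.1 y.1) (m.cycle x.2 y.2)) fun y y' =>
      cls_congr _ _ (map_add (m.μ x.1) y.1 y'.1))
    fun y hy => (cls_eq_zero (m.cycle x.2 y.2)).2 (m.GCup_bdry_right x.2 hy)

/-- The pairing on `H_0`. -/
noncomputable def H0 (m : Pairing L L' P) : L.H 0 →+ L'.H 0 →+ P.H 0 :=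
  QuotientAddGroup.lift ((L.Bd 0).comap (L.Z 0).subtype).toAddSubgroup
    (AddMonoidHom.mk' (fun x => m.GCup_H1 x) fun x x' => AddMonoidHom.ext fun η => by
      obtain ⟨y, hy, rfl⟩ := cls_surj η
      exact cls_congr _ _ (DFunLike.congr_fun (map_add m.μ x.1 x'.1) y))
    fun x hx => AddMonoidHom.ext fun η => by
      obtain ⟨y, hy, rfl⟩ := cls_surj η
      exact (cls_eq_zero (m.cycle x.2 hy)).2 (m.GCup_bdry_left hx hy)

theorem H0_cls {x : L.V} {y : L'.V} (hx : L.Cycle 0 x) (hy : L'.Cycle 0 y) :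
    m.H0 (L.cls x hx) (L'.cls y hy) = P.cls _ (m.cycle hx hy) := rfl

attribute [irreducible] H0

theorem H0_smul_left (a : A.obj 0) (ξ : L.H 0) (η : L'.H 0) :
    m.H0 (a • ξ) η = a • m.H0 ξ η := by
  obtain ⟨x, hx, rfl⟩ := cls_surj ξ
  obtain ⟨y, hy, rfl⟩ := cls_surj η
  rw [cls_smul, H0_cls, H0_cls, cls_smul]
  exact cls_congr _ _ (m.smul_left _ x y)

theorem H0_smul_right (a : A.obj 0) (ξ : L.H 0) (η : L'.H 0) :
    m.H0 ξ (a • η) = a • m.H0 ξ η := by
  obtain ⟨x, hx, rfl⟩ := cls_surj ξ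
  obtain ⟨y, hy, rfl⟩ := cls_surj η
  rw [cls_smul, H0_cls, H0_cls, cls_smul]
  refine cls_congr _ _ ?_
  rw [m.smul_right y (N.hg_inc a) hx.1, mul_zero, Int.negOnePow_zero, one_smul]

theorem Compat.H0 {φ : A ⟶ B} {Q Q' W : DG B} {m : Pairing L L' P} {m' : Pairing Q Q' W}
    {f : Hom φ L Q} {f' : Hom φ L' Q'} {g : Hom φ P W} (h : m.Compat m' f f' g) (ξ : L.H 0)
    (η : L'.H 0) : g.H 0 (m.H0 ξ η) = m'.H0 (f.H 0 ξ) (f'.H 0 η) := by
  obtain ⟨x, hx, rfl⟩ := cls_surj ξ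
  obtain ⟨y, hy, rfl⟩ := cls_surj η
  rw [H0_cls, Hom.H_cls, Hom.H_cls, Hom.H_cls, H0_cls]
  exact cls_congr _ _ (h x y)

theorem ontoH0_iff : m.OntoH0 ↔
    ∀ ζ : P.H 0, ζ ∈ AddSubgroup.closure {w | ∃ ξ η, w = m.H0 ξ η} := by
  constructor
  · intro h ζ
    obtain ⟨z, hz, rfl⟩ := cls_surj ζ
    obtain ⟨w, hw, hb⟩ := h z hz
    have key : ∃ hc : P.Cycle 0 w,
        P.cls w hc ∈ AddSubgroup.closure {w | ∃ ξ η, w = m.H0 ξ η} := by
      clear hb
      induction hw using AddSubgroup.closure_induction with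
      | mem w hw =>
        obtain ⟨x, y, hx, hy, rfl⟩ := hw
        exact ⟨m.cycle hx hy, AddSubgroup.subset_closure ⟨_, _, (m.H0_cls hx hy).symm⟩⟩
      | zero => exact ⟨(P.Z 0).zero_mem, zero_mem _⟩
      | add w w' _ _ h1 h2 =>
        obtain ⟨c1, h1⟩ := h1
        obtain ⟨c2, h2⟩ := h2
        exact ⟨(P.Z 0).add_mem c1 c2, add_mem h1 h2⟩
      | neg w _ h1 =>
        obtain ⟨c1, h1⟩ := h1
        exact ⟨(P.Z 0).neg_mem c1, neg_mem h1⟩
    obtain ⟨hc, h1⟩ := key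
    rwa [(cls_eq_iff hz hc).2 hb]
  · intro h z hz
    have key : ∀ ζ ∈ AddSubgroup.closure {w | ∃ ξ η, w = m.H0 ξ η},
        ∃ w ∈ AddSubgroup.closure m.products, ∃ hc : P.Cycle 0 w, P.cls w hc = ζ := by
      intro ζ hζ
      induction hζ using AddSubgroup.closure_induction with
      | mem w hw =>
        obtain ⟨ξ, η, rfl⟩ := hw
        obtain ⟨x, hx, rfl⟩ := cls_surj ξ
        obtain ⟨y, hy, rfl⟩ := cls_surj η
        exact ⟨_, AddSubgroup.subset_closure ⟨x, y, hx, hy, rfl⟩, m.cycle hx hy,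
          (m.H0_cls hx hy).symm⟩
      | zero => exact ⟨0, zero_mem _, (P.Z 0).zero_mem, rfl⟩
      | add w w' _ _ h1 h2 =>
        obtain ⟨x, h1, c1, rfl⟩ := h1
        obtain ⟨y, h2, c2, rfl⟩ := h2
        exact ⟨x + y, add_mem h1 h2, (P.Z 0).add_mem c1 c2, rfl⟩
      | neg w _ h1 =>
        obtain ⟨x, h1, c1, rfl⟩ := h1
        exact ⟨-x, neg_mem h1, (P.Z 0).neg_mem c1, rfl⟩
    obtain ⟨w, hw, hc, e⟩ := key _ (h (P.cls z hz))
    exact ⟨w, hw, (cls_eq_iff hz hc).1 e.symm⟩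

end DG.Pairing

/-- The sign `(-1)^a` as an integer. -/
def GCup_s (a : ℤ) : ℤ := a.negOnePow

theorem GCup_s_add (a b : ℤ) : GCup_s a * GCup_s b = GCup_s (a + b) := by
  rw [GCup_s, GCup_s, GCup_s, Int.negOnePow_add, Units.val_mul]

theorem GCup_s_nat (p : ℕ) : (-1 : ℤ) ^ p = GCup_s p := (Int.coe_negOnePow_natCast p).symm

theorem GCup_s_congr {a b : ℤ} (c : ℤ) (h : a - b = c + c) : GCup_s a = GCup_s b := by
  rw [GCup_s, GCup_s, (Int.negOnePow_eq_iff a b).2 ⟨c, h⟩]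

theorem GCup_s_zero : GCup_s 0 = 1 := rfl

theorem GCup_s_smul {V : Type} [AddCommGroup V] (a : ℤ) (x : V) :
    a.negOnePow • x = GCup_s a • x := rfl

theorem GCup_sg_pow {A : SRing} {j : ℤ} {a : N A} (ha : a ∈ N.deg A j) (p : ℕ) :
    ((N.sg : N A →+* N A) ^ p) a = GCup_s (p * j) • a := by
  induction p with
  | zero => simp [GCup_s_zero]
  | succ p ih =>
    rw [TotD_pow_succ, ih, map_zsmul, SPair_sg_hg ha, GCup_s_smul, smul_smul, GCup_s_add]
    congr 2
    push_cast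
    ring

/-- Multiplication by `(-1)^(q * k)` in degree `k`. -/
noncomputable def DG.GCup_tw {A : SRing} (M : DG A) (q : ℤ) : M.V →+ M.V :=
  (DirectSum.toAddMonoid fun k => GCup_s (q * k) • (M.gr k).subtype).comp
    (AddEquiv.ofBijective _ M.internal).symm.toAddMonoidHom

theorem DG.GCup_tw_of_mem {A : SRing} (M : DG A) (q : ℤ) {k : ℤ} {x : M.V} (h : x ∈ M.gr k) :
    M.GCup_tw q x = GCup_s (q * k) • x := by
  change DirectSum.toAddMonoid _ ((AddEquiv.ofBijective _ M.internal).symm x) = _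
  rw [M.symm_of_mem h, DirectSum.toAddMonoid_of]
  rfl

theorem DG.GCup_tw_zero {A : SRing} (M : DG A) (x : M.V) : M.GCup_tw 0 x = x := by
  induction x using M.induction with
  | h0 => exact map_zero _
  | hk k x h => rw [M.GCup_tw_of_mem 0 h, zero_mul, GCup_s_zero, one_smul]
  | hadd x y hx hy => rw [map_add, hx, hy]

theorem DG.Hom.GCup_tw {A B : SRing} {φ : A ⟶ B} {M : DG A} {M' : DG B} (g : DG.Hom φ M M')
    (q : ℤ) (x : M.V) : g.toFun (M.GCup_tw q x) = M'.GCup_tw q (g.toFun x) := by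
  induction x using M.induction with
  | h0 => simp only [map_zero]
  | hk k x h => rw [M.GCup_tw_of_mem q h, M'.GCup_tw_of_mem q (g.map_gr h), map_zsmul]
  | hadd x y hx hy => simp only [map_add, hx, hy]

/-- The front face. -/
def GCup_fr (p n : ℕ) : SimplexCategory.mk p ⟶ SimplexCategory.mk n :=
  SimplexCategory.mkHom ⟨fun a => ⟨min a n, by omega⟩, fun a b h => by
    have h' : (a : ℕ) ≤ b := h
    show min (a : ℕ) n ≤ min (b : ℕ) n
    omega⟩

/-- The back face. -/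
def GCup_bk (q n : ℕ) : SimplexCategory.mk q ⟶ SimplexCategory.mk n :=
  SimplexCategory.mkHom ⟨fun a => ⟨n - (q - a), by omega⟩, fun a b h => by
    have h' : (a : ℕ) ≤ b := h
    show n - (q - (a : ℕ)) ≤ n - (q - (b : ℕ))
    omega⟩

/-- The cofaces, indexed by natural numbers. -/
def GCup_del (n i : ℕ) : SimplexCategory.mk n ⟶ SimplexCategory.mk (n + 1) :=
  SimplexCategory.mkHom ⟨fun a => ⟨if (a : ℕ) < i then a else a + 1, by
      have := a.2
      split_ifs <;> omega⟩, fun a b h => by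
    have h' : (a : ℕ) ≤ b := h
    show (if (a : ℕ) < i then (a : ℕ) else a + 1) ≤ if (b : ℕ) < i then (b : ℕ) else b + 1
    split_ifs <;> omega⟩

theorem GCup_ext {a b : ℕ} {f g : SimplexCategory.mk a ⟶ SimplexCategory.mk b}
    (h : ∀ i : Fin (a + 1), (f.toOrderHom i : ℕ) = g.toOrderHom i) : f = g :=
  SimplexCategory.Hom.ext _ _ (OrderHom.ext _ _ (funext fun i => Fin.ext (h i)))

theorem GCup_delta (n : ℕ) (i : Fin (n + 2)) : SimplexCategory.δ i = GCup_del n i := by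
  refine GCup_ext fun a => ?_
  show (i.succAbove a : ℕ) = if (a : ℕ) < i then (a : ℕ) else a + 1
  rw [Fin.succAbove]
  by_cases h : (a : ℕ) < i
  · rw [if_pos h, if_pos (show a.castSucc < i from h)]
    rfl
  · rw [if_neg h, if_neg (show ¬ a.castSucc < i from h)]
    rfl

theorem GCup_fr_zero : GCup_fr 0 0 = 𝟙 _ := GCup_ext fun a => by
  show min (a : ℕ) 0 = a
  omega

theorem GCup_bk_zero : GCup_bk 0 0 = 𝟙 _ := GCup_ext fun a => by
  show 0 - (0 - (a : ℕ)) = a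
  omega

theorem GCup_fr_del (p q i : ℕ) (h : i ≤ p) :
    GCup_fr p (p + q) ≫ GCup_del (p + q) i = GCup_del p i ≫ GCup_fr (p + 1) (p + q + 1) :=
  GCup_ext fun a => by
    have := a.2
    show (if min (a : ℕ) (p + q) < i then min (a : ℕ) (p + q) else min (a : ℕ) (p + q) + 1) =
      min (if (a : ℕ) < i then (a : ℕ) else a + 1) (p + q + 1)
    split_ifs <;> omega

theorem GCup_bk_del (p q i : ℕ) (h : i ≤ p) :
    GCup_bk q (p + q) ≫ GCup_del (p + q) i = GCup_bk q (p + q + 1) :=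
  GCup_ext fun a => by
    have := a.2
    show (if p + q - (q - (a : ℕ)) < i then p + q - (q - (a : ℕ)) else p + q - (q - (a : ℕ)) + 1) =
      p + q + 1 - (q - (a : ℕ))
    split_ifs <;> omega

theorem GCup_fr_del' (p q j : ℕ) :
    GCup_fr p (p + q) ≫ GCup_del (p + q) (p + 1 + j) = GCup_fr p (p + q + 1) :=
  GCup_ext fun a => by
    have := a.2
    show (if min (a : ℕ) (p + q) < p + 1 + j then min (a : ℕ) (p + q)
      else min (a : ℕ) (p + q) + 1) = min (a : ℕ) (p + q + 1)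
    split_ifs <;> omega

theorem GCup_bk_del' (p q j : ℕ) :
    GCup_bk q (p + q) ≫ GCup_del (p + q) (p + 1 + j) =
      GCup_del q (j + 1) ≫ GCup_bk (q + 1) (p + q + 1) :=
  GCup_ext fun a => by
    have := a.2
    show (if p + q - (q - (a : ℕ)) < p + 1 + j then p + q - (q - (a : ℕ))
      else p + q - (q - (a : ℕ)) + 1) =
      p + q + 1 - (q + 1 - if (a : ℕ) < j + 1 then (a : ℕ) else a + 1)
    split_ifs <;> omega

theorem GCup_del_fr (p q : ℕ) :
    GCup_del p (p + 1) ≫ GCup_fr (p + 1) (p + q + 1) = GCup_fr p (p + q + 1) :=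
  GCup_ext fun a => by
    have := a.2
    show min (if (a : ℕ) < p + 1 then (a : ℕ) else a + 1) (p + q + 1) = min (a : ℕ) (p + q + 1)
    rw [if_pos this]

theorem GCup_del_bk (p q : ℕ) :
    GCup_del q 0 ≫ GCup_bk (q + 1) (p + q + 1) = GCup_bk q (p + q + 1) :=
  GCup_ext fun a => by
    have := a.2
    show p + q + 1 - (q + 1 - if (a : ℕ) < 0 then (a : ℕ) else a + 1) = p + q + 1 - (q - (a : ℕ))
    rw [if_neg (Nat.not_lt_zero _)]
    omega

namespace Mod
variable {A A' : SRing} {R R' : SimplexCategory ⥤ SRing}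

/-- The map of total complexes induced by a map of cosimplicial modules. -/
def Hom.tot {η : R ⟶ R'} {M : Mod R} {M' : Mod R'} (g : Hom η M M') (u : Aug A R) (u' : Aug A' R')
    (ψ : A ⟶ A') (e : ∀ s, u.ι s ≫ η.app s = ψ ≫ u'.ι s) : DG.Hom ψ (totΔ u M) (totΔ u' M') :=
  totMap u u' ψ (fun p => e (.mk p)) (fun p => g.app (.mk p)) g.map_cob

variable {L L' P : Mod R}

theorem GCup_cob (M : Mod R) (p : ℕ) (x : (M.obj (.mk p)).V) : M.cob p x =
    ∑ i ∈ Finset.range (p + 2), (-1 : ℤ) ^ i • (M.map (GCup_del p i)).toFun x := by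
  rw [cob_apply, Finset.sum_range]
  exact Finset.sum_congr rfl fun i _ => by rw [GCup_delta]

theorem GCup_totSmul (u : Aug A R) (M : Mod R) {j : ℤ} {a : N A} (ha : a ∈ N.deg A j)
    (z : ∀ p : ℕ, (M.obj (.mk p)).V) (p : ℕ) :
    totSmul u M a z p = GCup_s (p * j) • N.map (u.ι (.mk p)) a • z p := by
  rw [totSmul, GCup_sg_pow ha, map_zsmul, smul_assoc]

/-- The cosimplicial part of the total differential. -/
def GCup_prev (M : Mod R) (z : ∀ p : ℕ, (M.obj (.mk p)).V) : ∀ p : ℕ, (M.obj (.mk p)).V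
  | 0 => 0
  | p + 1 => M.cob p (z p)

theorem GCup_totD (M : Mod R) (z : ∀ p : ℕ, (M.obj (.mk p)).V) (p : ℕ) :
    M.totD z p = GCup_s p • (M.obj (.mk p)).d (z p) + M.GCup_prev z p := by
  cases p with
  | zero => exact ((add_zero _).trans (one_smul ℤ _)).symm
  | succ p => rw [← GCup_s_nat]; rfl

section cup
variable (m : Pairing L L' P)

/-- The cup product of components. -/
def Pairing.GCup_cup (p q n : ℕ) : (L.obj (.mk p)).V →+ (L'.obj (.mk q)).V →+ (P.obj (.mk n)).V :=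
  ((m.μ (.mk n)).comp (L.map (GCup_fr p n)).toFun).compl₂ (L'.map (GCup_bk q n)).toFun

theorem Pairing.GCup_cup_apply (p q n : ℕ) (x y) : m.GCup_cup p q n x y =
    m.μ (.mk n) ((L.map (GCup_fr p n)).toFun x) ((L'.map (GCup_bk q n)).toFun y) := rfl

theorem Pairing.GCup_cup_gr (p q n : ℕ) {k l : ℤ} {x y} (hx : x ∈ (L.obj (.mk p)).gr k)
    (hy : y ∈ (L'.obj (.mk q)).gr l) : m.GCup_cup p q n x y ∈ (P.obj (.mk n)).gr (k + l) :=
  m.μ_gr _ ((L.map _).map_gr hx) ((L'.map _).map_gr hy)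

theorem Pairing.GCup_cup_d (p q n : ℕ) {k : ℤ} {x} (y) (hx : x ∈ (L.obj (.mk p)).gr k) :
    (P.obj (.mk n)).d (m.GCup_cup p q n x y) = m.GCup_cup p q n ((L.obj (.mk p)).d x) y +
      GCup_s k • m.GCup_cup p q n x ((L'.obj (.mk q)).d y) := by
  simp only [Pairing.GCup_cup_apply]
  rw [m.leibniz _ _ ((L.map _).map_gr hx), DG.Hom.map_d, DG.Hom.map_d, GCup_s_smul]

theorem Pairing.GCup_cup_smul_left (u : Aug A R) (p q n : ℕ) (a : N A) (x y) :
    m.GCup_cup p q n (N.map (u.ι (.mk p)) a • x) y =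
      N.map (u.ι (.mk n)) a • m.GCup_cup p q n x y := by
  simp only [Pairing.GCup_cup_apply]
  rw [DG.Hom.map_smul, N.map_map, u.comm, m.smul_left]

theorem Pairing.GCup_cup_smul_right (u : Aug A R) (p q n : ℕ) {j k : ℤ} {a : N A} {x} (y)
    (ha : a ∈ N.deg A j) (hx : x ∈ (L.obj (.mk p)).gr k) :
    m.GCup_cup p q n x (N.map (u.ι (.mk q)) a • y) =
      GCup_s (j * k) • N.map (u.ι (.mk n)) a • m.GCup_cup p q n x y := by
  simp only [Pairing.GCup_cup_apply]
  rw [DG.Hom.map_smul, N.map_map, u.comm,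
    m.smul_right _ _ (N.Hg.map _ ha) ((L.map _).map_gr hx), GCup_s_smul]

theorem Pairing.GCup_cup_cob (p q : ℕ) (x y) :
    P.cob (p + q) (m.GCup_cup p q (p + q) x y) =
      m.GCup_cup (p + 1) q (p + q + 1) (L.cob p x) y +
        (-1 : ℤ) ^ p • m.GCup_cup p (q + 1) (p + q + 1) x (L'.cob q y) := by
  have hL : ∀ {a b c : SimplexCategory} (θ : a ⟶ b) (θ' : b ⟶ c) (x : (L.obj a).V),
      (L.map θ').toFun ((L.map θ).toFun x) = (L.map (θ ≫ θ')).toFun x :=
    fun θ θ' x => (L.map_comp θ θ' x).symm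
  have hL' : ∀ {a b c : SimplexCategory} (θ : a ⟶ b) (θ' : b ⟶ c) (x : (L'.obj a).V),
      (L'.map θ').toFun ((L'.map θ).toFun x) = (L'.map (θ ≫ θ')).toFun x :=
    fun θ θ' x => (L'.map_comp θ θ' x).symm
  rw [GCup_cob, GCup_cob, GCup_cob, show p + q + 2 = (p + 1) + (q + 1) by ring,
    Finset.sum_range_add, Finset.sum_range_succ _ (p + 1), Finset.sum_range_succ' _ (q + 1)]
  simp only [Pairing.GCup_cup_apply, m.nat', map_add, map_sum, map_zsmul, AddMonoidHom.add_apply,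
    AddMonoidHom.finsetSum_apply, AddMonoidHom.zsmul_apply, hL, hL', smul_add, Finset.smul_sum,
    smul_smul]
  rw [Finset.sum_congr (s₁ := Finset.range (p + 1)) rfl fun i hi => by
      rw [GCup_fr_del p q i (Nat.lt_succ_iff.1 (Finset.mem_range.1 hi)),
        GCup_bk_del p q i (Nat.lt_succ_iff.1 (Finset.mem_range.1 hi))],
    Finset.sum_congr (s₁ := Finset.range (q + 1)) rfl fun j _ => by
      rw [GCup_fr_del', GCup_bk_del'],
    GCup_del_fr, GCup_del_bk]
  have e1 : ∀ j : ℕ, (-1 : ℤ) ^ (p + 1 + j) = (-1) ^ p * (-1) ^ (j + 1) := fun j => by ring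
  simp only [e1, pow_succ (-1 : ℤ) p, pow_zero, mul_one, mul_neg, neg_smul]
  abel

/-- The cup product of families. -/
noncomputable def Pairing.GCup_fun (z : ∀ p : ℕ, (L.obj (.mk p)).V)
    (w : ∀ p : ℕ, (L'.obj (.mk p)).V) (n : ℕ) : (P.obj (.mk n)).V :=
  ∑ c ∈ Finset.HasAntidiagonal.antidiagonal n,
    m.GCup_cup c.1 c.2 n ((L.obj (.mk c.1)).GCup_tw c.2 (z c.1)) (w c.2)

theorem Pairing.GCup_fun_of_gr {k : ℤ} {z : ∀ p : ℕ, (L.obj (.mk p)).V}
    (hz : ∀ p : ℕ, z p ∈ (L.obj (.mk p)).gr (k + p)) (w : ∀ p : ℕ, (L'.obj (.mk p)).V) (n : ℕ) :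
    m.GCup_fun z w n = ∑ c ∈ Finset.HasAntidiagonal.antidiagonal n,
      GCup_s (c.2 * (k + c.1)) • m.GCup_cup c.1 c.2 n (z c.1) (w c.2) :=
  Finset.sum_congr rfl fun c _ => by
    rw [DG.GCup_tw_of_mem _ _ (hz c.1), map_zsmul, AddMonoidHom.zsmul_apply]

theorem Pairing.GCup_fun_add_left (z z' : ∀ p : ℕ, (L.obj (.mk p)).V)
    (w : ∀ p : ℕ, (L'.obj (.mk p)).V) :
    m.GCup_fun (z + z') w = m.GCup_fun z w + m.GCup_fun z' w := by
  funext n
  simp only [Pairing.GCup_fun, Pi.add_apply, map_add, AddMonoidHom.add_apply,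
    Finset.sum_add_distrib]

theorem Pairing.GCup_fun_add_right (z : ∀ p : ℕ, (L.obj (.mk p)).V)
    (w w' : ∀ p : ℕ, (L'.obj (.mk p)).V) :
    m.GCup_fun z (w + w') = m.GCup_fun z w + m.GCup_fun z w' := by
  funext n
  simp only [Pairing.GCup_fun, Pi.add_apply, map_add, Finset.sum_add_distrib]

theorem Pairing.GCup_fun_gr {k l : ℤ} {z : ∀ p : ℕ, (L.obj (.mk p)).V}
    {w : ∀ p : ℕ, (L'.obj (.mk p)).V} (hz : ∀ p : ℕ, z p ∈ (L.obj (.mk p)).gr (k + p))
    (hw : ∀ p : ℕ, w p ∈ (L'.obj (.mk p)).gr (l + p)) (n : ℕ) :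
    m.GCup_fun z w n ∈ (P.obj (.mk n)).gr (k + l + n) := by
  rw [m.GCup_fun_of_gr hz]
  refine sum_mem fun c hc => zsmul_mem ?_ _
  have e : k + l + n = k + c.1 + (l + c.2) := by
    rw [← Finset.HasAntidiagonal.mem_antidiagonal.1 hc]
    push_cast
    ring
  rw [e]
  exact m.GCup_cup_gr _ _ _ (hz c.1) (hw c.2)

theorem Pairing.GCup_fun_mem {z w} (hz : z ∈ L.totV) (hw : w ∈ L'.totV) :
    m.GCup_fun z w ∈ P.totV := by
  refine L.TotD_induction (P := fun z => m.GCup_fun z w ∈ P.totV) ?_ ?_ ?_ hz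
  · have e : m.GCup_fun 0 w = 0 := funext fun n => by simp [Pairing.GCup_fun]
    rw [e]
    exact zero_mem _
  · intro k z hz
    refine L'.TotD_induction (P := fun w => m.GCup_fun z w ∈ P.totV) ?_ ?_ ?_ hw
    · have e : m.GCup_fun z 0 = 0 := funext fun n => by simp [Pairing.GCup_fun]
      rw [e]
      exact zero_mem _
    · intro l w hw
      exact P.mem_totV_of_gr (m.GCup_fun_gr hz hw)
    · intro w w' h1 h2
      rw [m.GCup_fun_add_right]
      exact add_mem h1 h2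
  · intro z z' h1 h2
    rw [m.GCup_fun_add_left]
    exact add_mem h1 h2

theorem Pairing.GCup_fun_smul_left (u : Aug A R) {j k : ℤ} {a : N A} (ha : a ∈ N.deg A j)
    {z : ∀ p : ℕ, (L.obj (.mk p)).V} (hz : ∀ p : ℕ, z p ∈ (L.obj (.mk p)).gr (k + p))
    (w : ∀ p : ℕ, (L'.obj (.mk p)).V) :
    m.GCup_fun (totSmul u L a z) w = totSmul u P a (m.GCup_fun z w) := by
  funext n
  rw [m.GCup_fun_of_gr (TotD_smul_gr u L ha hz), GCup_totSmul u P ha, m.GCup_fun_of_gr hz,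
    Finset.smul_sum, Finset.smul_sum]
  refine Finset.sum_congr rfl fun c hc => ?_
  rw [GCup_totSmul u L ha, map_zsmul, AddMonoidHom.zsmul_apply, m.GCup_cup_smul_left,
    smul_comm (N.map _ a), smul_smul, smul_smul, GCup_s_add, GCup_s_add]
  congr 2
  rw [← Finset.HasAntidiagonal.mem_antidiagonal.1 hc]
  push_cast
  ring

theorem Pairing.GCup_fun_smul_right (u : Aug A R) {j k : ℤ} {a : N A} (ha : a ∈ N.deg A j)
    {z : ∀ p : ℕ, (L.obj (.mk p)).V} (hz : ∀ p : ℕ, z p ∈ (L.obj (.mk p)).gr (k + p))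
    (w : ∀ p : ℕ, (L'.obj (.mk p)).V) (n : ℕ) :
    m.GCup_fun z (totSmul u L' a w) n = GCup_s (j * k) • totSmul u P a (m.GCup_fun z w) n := by
  rw [m.GCup_fun_of_gr hz, GCup_totSmul u P ha, m.GCup_fun_of_gr hz,
    Finset.smul_sum, Finset.smul_sum, Finset.smul_sum]
  refine Finset.sum_congr rfl fun c hc => ?_
  rw [GCup_totSmul u L' ha, map_zsmul, m.GCup_cup_smul_right u _ _ _ _ ha (hz c.1),
    smul_comm (N.map _ a) (GCup_s _)]
  simp only [smul_smul (GCup_s _), GCup_s_add]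
  congr 2
  rw [← Finset.HasAntidiagonal.mem_antidiagonal.1 hc]
  push_cast
  ring

theorem Pairing.GCup_fun_prev {k : ℤ} {z : ∀ p : ℕ, (L.obj (.mk p)).V}
    (hz : ∀ p : ℕ, z p ∈ (L.obj (.mk p)).gr (k + p)) (w : ∀ p : ℕ, (L'.obj (.mk p)).V) (n : ℕ) :
    P.GCup_prev (m.GCup_fun z w) n =
      ∑ c ∈ Finset.HasAntidiagonal.antidiagonal n,
        GCup_s (c.2 * (k - 1 + c.1)) • m.GCup_cup c.1 c.2 n (L.GCup_prev z c.1) (w c.2) +
      ∑ c ∈ Finset.HasAntidiagonal.antidiagonal n, GCup_s k • GCup_s (c.2 * (k + c.1)) •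
        m.GCup_cup c.1 c.2 n (z c.1) (L'.GCup_prev w c.2) := by
  cases n with
  | zero => simp [GCup_prev]
  | succ n =>
    rw [Finset.Nat.sum_antidiagonal_succ, Finset.Nat.sum_antidiagonal_succ']
    simp only [GCup_prev, map_zero, AddMonoidHom.zero_apply, smul_zero, zero_add]
    rw [m.GCup_fun_of_gr hz, map_sum, ← Finset.sum_add_distrib]
    refine Finset.sum_congr rfl ?_
    rintro ⟨p, q⟩ hc
    obtain rfl : p + q = n := Finset.HasAntidiagonal.mem_antidiagonal.1 hc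
    rw [map_zsmul, m.GCup_cup_cob, smul_add, GCup_s_nat, smul_smul, smul_smul, GCup_s_add,
      GCup_s_add]
    congr 2
    · congr 1
      push_cast
      ring
    · exact GCup_s_congr (-k) (by push_cast; ring)

theorem Pairing.GCup_fun_d {k : ℤ} {z : ∀ p : ℕ, (L.obj (.mk p)).V}
    (hz : ∀ p : ℕ, z p ∈ (L.obj (.mk p)).gr (k + p)) (w : ∀ p : ℕ, (L'.obj (.mk p)).V) (n : ℕ) :
    P.totD (m.GCup_fun z w) n =
      m.GCup_fun (L.totD z) w n + GCup_s k • m.GCup_fun z (L'.totD w) n := by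
  have hz' := L.TotD_gr (k := k - 1) (z := z) (by simpa using hz)
  rw [GCup_totD, m.GCup_fun_prev hz, m.GCup_fun_of_gr hz', m.GCup_fun_of_gr hz,
    m.GCup_fun_of_gr hz, map_sum, Finset.smul_sum, Finset.smul_sum, ← Finset.sum_add_distrib,
    ← Finset.sum_add_distrib, ← Finset.sum_add_distrib]
  refine Finset.sum_congr rfl ?_
  rintro ⟨p, q⟩ hc
  obtain rfl : p + q = n := Finset.HasAntidiagonal.mem_antidiagonal.1 hc
  have e1 : GCup_s ((p + q : ℕ) + q * (k + p)) = GCup_s (q * (k - 1 + p) + p) :=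
    GCup_s_congr q (by push_cast; ring)
  have e2 : GCup_s ((p + q : ℕ) + (q * (k + p) + (k + p))) = GCup_s (k + (q * (k + p) + q)) :=
    GCup_s_congr p (by push_cast; ring)
  simp only [GCup_totD, map_add, map_zsmul, AddMonoidHom.add_apply, AddMonoidHom.zsmul_apply,
    m.GCup_cup_d _ _ _ _ (hz p), smul_add, smul_smul, GCup_s_add, e1, e2]
  abel

/-- The cup product on the total complexes. -/
noncomputable def Pairing.GCup_mu : Biadd L.totV L'.totV P.totV :=
  AddMonoidHom.mk' (fun z => AddMonoidHom.mk'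
      (fun w => ⟨m.GCup_fun z.1 w.1, m.GCup_fun_mem z.2 w.2⟩)
      fun w w' => Subtype.ext (m.GCup_fun_add_right z.1 w.1 w'.1))
    fun z z' => AddMonoidHom.ext fun w => Subtype.ext (m.GCup_fun_add_left z.1 z'.1 w.1)

end cup

/-- The cup product `(z w)_n = ∑_{p + q = n} (-1)^(q * deg z_p) μ (front z_p) (back w_q)`. -/
noncomputable def Pairing.tot (m : Pairing L L' P) (u : Aug A R) :
    DG.Pairing (totΔ u L) (totΔ u L') (totΔ u P) where
  μ := m.GCup_mu
  μ_gr hz hw := m.GCup_fun_gr hz hw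
  smul_left a z w := by
    have key : ∀ μ : Biadd (totΔ u L).V (totΔ u L').V (totΔ u P).V,
        (∀ {j k : ℤ} {a : N A} {z}, a ∈ N.deg A j → z ∈ (totΔ u L).gr k →
          μ (a • z) w = a • μ z w) → μ (a • z) w = a • μ z w := by
      intro μ h
      induction z using (totΔ u L).induction with
      | h0 => simp
      | hk k z hz =>
        refine (DG.unit A).induction (P := fun a : N A => μ (a • z) w = a • μ z w) ?_ ?_ ?_ a
        · simp
        · exact fun j a ha => h ha hz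
        · intro a b h1 h2
          rw [add_smul, add_smul, map_add, AddMonoidHom.add_apply, h1, h2]
      | hadd z z' h1 h2 =>
        rw [smul_add, map_add, map_add, AddMonoidHom.add_apply, AddMonoidHom.add_apply, h1, h2,
          smul_add]
    exact key m.GCup_mu fun ha hz => Subtype.ext (m.GCup_fun_smul_left u ha hz w.1)
  smul_right w ha hz := Subtype.ext (funext fun n => m.GCup_fun_smul_right u ha hz w.1 n)
  leibniz w hz := Subtype.ext (funext fun n => m.GCup_fun_d hz w.1 n)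

theorem Pairing.tot_zero (m : Pairing L L' P) (u : Aug A R) (z : (totΔ u L).V)
    (w : (totΔ u L').V) : (totPr u P).toFun ((m.tot u).μ z w) =
      (m.app (.mk 0)).μ ((totPr u L).toFun z) ((totPr u L').toFun w) := by
  change m.GCup_fun z.1 w.1 0 = m.μ (.mk 0) (z.1 0) (w.1 0)
  rw [Pairing.GCup_fun, Finset.Nat.antidiagonal_zero, Finset.sum_singleton, Pairing.GCup_cup_apply,
    GCup_fr_zero, GCup_bk_zero, L.map_id, L'.map_id]
  exact congrArg (fun x => m.μ (.mk 0) x (w.1 0)) (DG.GCup_tw_zero _ _)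

theorem Pairing.tot_compat {η : R ⟶ R'} {Q Q' W : Mod R'} (m : Pairing L L' P)
    (m' : Pairing Q Q' W) (f : Hom η L Q) (f' : Hom η L' Q') (g : Hom η P W)
    (h : ∀ s, (m.app s).Compat (m'.app s) (f.app s) (f'.app s) (g.app s)) (u : Aug A R)
    (u' : Aug A' R') (ψ : A ⟶ A') (e : ∀ s, u.ι s ≫ η.app s = ψ ≫ u'.ι s) :
    (m.tot u).Compat (m'.tot u') (f.tot u u' ψ e) (f'.tot u u' ψ e) (g.tot u u' ψ e) := by
  intro z w
  refine Subtype.ext (funext fun n => ?_)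
  change (g.app (.mk n)).toFun (m.GCup_fun z.1 w.1 n) =
    m'.GCup_fun (fun p => (f.app (.mk p)).toFun (z.1 p)) (fun p => (f'.app (.mk p)).toFun (w.1 p)) n
  rw [Pairing.GCup_fun, Pairing.GCup_fun, map_sum]
  refine Finset.sum_congr rfl fun c _ => ?_
  rw [Pairing.GCup_cup_apply, Pairing.GCup_cup_apply, ← DG.Hom.GCup_tw, ← f.nat, ← f'.nat]
  exact h _ _ _

attribute [irreducible] Pairing.tot

end Mod

end Pool.Agent.P.MP_932208_ag.Ax
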