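import Pool.Agent.P.MP_932208_ag.Ex.GPsh
import Pool.Agent.P.MP_932208_ag.Ex.GCup

/-!
The Cech complex of a presheaf for a finite cover.
-/

namespace Pool.Agent.P.MP_932208_ag.Ax

open CategoryTheory

variable {R R' R'' : SRing}

namespace DG
variable {I : Type} [Finite I]

theorem GCech_internal (M : I → DG R) :
    Internal fun k => AddSubgroup.pi Set.univ fun i => (M i).gr k := by
  refine internal_of_proj _
    (fun k => AddMonoidHom.pi fun i => ((M i).proj k).comp (Pi.evalAddMonoidHom _ i))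
    (fun k x i _ => (M i).proj_mem k _) (fun k x h => funext fun i => (M i).proj_of_mem (h i trivial))
    (fun k l x h e => funext fun i => (M i).proj_of_ne (h i trivial) e) fun x => ?_
  have := Fintype.ofFinite I
  choose S h₁ h₂ using fun i => (M i).exists_sum_proj (x i)
  refine ⟨Finset.univ.biUnion S, funext fun i => ?_⟩
  rw [Finset.sum_apply]
  exact (Finset.sum_subset (Finset.subset_biUnion_of_mem S (Finset.mem_univ i))
    fun k _ hk => h₁ i k hk).symm.trans (h₂ i)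

/-- A finite product. -/
@[reducible] noncomputable def pi (M : I → DG R) : DG R where
  V := ∀ i, (M i).V
  gr k := AddSubgroup.pi Set.univ fun i => (M i).gr k
  internal := GCech_internal M
  d := AddMonoidHom.pi fun i => (M i).d.comp (Pi.evalAddMonoidHom _ i)
  smul_mem ha hx i _ := (M i).smul_mem ha (hx i trivial)
  d_mem hx i _ := (M i).d_mem (hx i trivial)
  d_d x := funext fun i => (M i).d_d (x i)
  d_smul a x := funext fun i => (M i).d_smul a (x i)

/-- The projections. -/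
def ev (M : I → DG R) (i : I) : Hom (𝟙 R) (pi M) (M i) where
  toFun := Pi.evalAddMonoidHom _ i
  map_smul _ _ := rfl
  map_gr h := h i trivial
  map_d _ := rfl

/-- A map between products: the component `i'` comes from the component `β i'`. -/
def piMap {I' : Type} [Finite I'] {φ : R ⟶ R'} {M : I → DG R} {M' : I' → DG R'} (β : I' → I)
    (g : ∀ i', Hom φ (M (β i')) (M' i')) : Hom φ (pi M) (pi M') where
  toFun := AddMonoidHom.pi fun i' => (g i').toFun.comp (Pi.evalAddMonoidHom _ (β i'))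
  map_smul a x := funext fun i' => (g i').map_smul a (x (β i'))
  map_gr h i' _ := (g i').map_gr (h _ trivial)
  map_d x := funext fun i' => (g i').map_d (x (β i'))

/-- A map to a product. -/
def piLift {M : DG R} {M' : I → DG R} (g : ∀ i, Hom (𝟙 R) M (M' i)) : Hom (𝟙 R) M (pi M') where
  toFun := AddMonoidHom.pi fun i => (g i).toFun
  map_smul a x := funext fun i => (g i).map_smul a x
  map_gr h i _ := (g i).map_gr h
  map_d x := funext fun i => (g i).map_d x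

/-- The product of pairings. -/
noncomputable def piPair {L L' P : I → DG R} (m : ∀ i, Pairing (L i) (L' i) (P i)) :
    Pairing (pi L) (pi L') (pi P) where
  μ := AddMonoidHom.mk' (fun x => AddMonoidHom.mk' (fun y i => (m i).μ (x i) (y i))
    fun y y' => funext fun i => map_add _ (y i) (y' i)) fun x x' =>
      AddMonoidHom.ext fun y => funext fun i =>
        DFunLike.congr_fun (map_add (m i).μ (x i) (x' i)) (y i)
  μ_gr hx hy i _ := (m i).μ_gr (hx i trivial) (hy i trivial)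
  smul_left a x y := funext fun i => (m i).smul_left a (x i) (y i)
  smul_right y ha hx := funext fun i => (m i).smul_right (y i) ha (hx i trivial)
  leibniz y hx := funext fun i => (m i).leibniz (y i) (hx i trivial)

theorem H_pi_ext {M : I → DG R} {k : ℤ} {ξ η : (pi M).H k}
    (h : ∀ i, (ev M i).H k ξ = (ev M i).H k η) : ξ = η := by
  obtain ⟨x, hx, rfl⟩ := cls_surj ξ
  obtain ⟨y, hy, rfl⟩ := cls_surj η
  choose w hw e using fun i => (cls_eq_iff ((ev M i).cycle hx) ((ev M i).cycle hy)).1 (h i)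
  exact (cls_eq_iff hx hy).2 ⟨w, fun i _ => hw i, funext e⟩

theorem exists_H_pi {M : I → DG R} {k : ℤ} (ξ : ∀ i, (M i).H k) :
    ∃ η : (pi M).H k, ∀ i, (ev M i).H k η = ξ i := by
  choose x hx e using fun i => cls_surj (ξ i)
  exact ⟨(pi M).cls x ⟨fun i _ => (hx i).1, funext fun i => (hx i).2⟩, e⟩

end DG

/-- The constant cosimplicial ring. -/
abbrev cst (R : SRing) : SimplexCategory ⥤ SRing := (Functor.const SimplexCategory).obj R

/-- Its augmentation. -/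
def Aug.cst (R : SRing) : Aug R (cst R) := ⟨fun _ => 𝟙 R, fun _ => Category.id_comp _⟩

variable {U : Site R} {U' : Site R'} {U'' : Site R''}

/-- A refinement of covers over the map `w` of labels. -/
structure Cv.Hom (w : U.X → U'.X) (c : Cv U) (c' : Cv U') where
  β : c'.I → c.I
  sub : ∀ i, Set.MapsTo w (c.S (β i)).1 (c'.S i).1

theorem Cv.Hom.un {w : U.X → U'.X} {c : Cv U} {c' : Cv U'} (b : Cv.Hom w c c') {n : ℕ}
    (τ : Fin (n + 1) → c'.I) : Set.MapsTo w (c.un (b.β ∘ τ)).1 (c'.un τ).1 := fun _ hx =>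
  let ⟨a, ha⟩ := Set.mem_iUnion.1 hx
  Set.mem_iUnion.2 ⟨a, b.sub _ ha⟩

namespace Psh

/-- The Cech object. -/
@[reducible] noncomputable def cech (P : Psh U) (c : Cv U) : Mod (cst R) where
  obj s := DG.pi fun τ : Fin (s.len + 1) → c.I => P.Q (c.un τ)
  map θ := DG.piMap (fun τ => τ ∘ θ.toOrderHom) fun τ => P.r (c.un_mono τ θ.toOrderHom)
  map_id _ x := funext fun τ => P.r_id _ (x τ)
  map_comp _ _ _ := funext fun _ => P.r_comp _ _ _

/-- The Cech complex. -/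
noncomputable def ctot (P : Psh U) (c : Cv U) : DG R := Mod.totΔ (Aug.cst R) (P.cech c)

/-- The components of a Cech cochain. -/
def val {P : Psh U} {c : Cv U} (z : (P.ctot c).V) (p : ℕ) (τ : Fin (p + 1) → c.I) :
    (P.Q (c.un τ)).V := z.1 p τ

theorem ctot_ext {P : Psh U} {c : Cv U} {z z' : (P.ctot c).V}
    (h : ∀ p τ, val z p τ = val z' p τ) : z = z' :=
  Subtype.ext (funext fun p => funext (h p))

/-- The component of a Cech cochain at the member `i`. -/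
noncomputable def cmp (P : Psh U) (c : Cv U) (i : c.I) :
    DG.Hom (𝟙 R) (P.ctot c) (P.Q (c.un₀ i)) where
  toFun := (DG.ev _ fun _ : Fin 1 => i).toFun.comp (Mod.totPr (Aug.cst R) (P.cech c)).toFun
  map_smul _ _ := rfl
  map_gr h := (Mod.totPr (Aug.cst R) (P.cech c)).map_gr h _ trivial
  map_d _ := rfl

theorem cmp_apply (P : Psh U) (c : Cv U) (i : c.I) (z : (P.ctot c).V) :
    (P.cmp c i).toFun z = val z 0 fun _ => i := rfl

variable {φ : R ⟶ R'} {w : U.X → U'.X} {P P₁ P₂ : Psh U} {P' P₁' P₂' : Psh U'} {c : Cv U}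
  {c' : Cv U'}

/-- The map of Cech objects. -/
@[reducible] noncomputable def Hom.cech (h : Hom φ w P P') (b : Cv.Hom w c c') :
    Mod.Hom ((Functor.const SimplexCategory).map φ) (P.cech c) (P'.cech c') where
  app _ := DG.piMap (fun τ => b.β ∘ τ) fun τ => h.g (b.un τ)
  nat θ _ := funext fun τ =>
    (h.g_r _ _ ((b.un (τ ∘ θ.toOrderHom)).mono_right (c'.un_mono τ θ.toOrderHom)) _).symm.trans
      (h.r_g _ (c'.un_mono τ θ.toOrderHom) _ _)

theorem cst_e (φ : R ⟶ R') (s : SimplexCategory) :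
    (Aug.cst R).ι s ≫ ((Functor.const SimplexCategory).map φ).app s = φ ≫ (Aug.cst R').ι s :=
  (Category.id_comp φ).trans (Category.comp_id φ).symm

/-- The map of Cech complexes. -/
noncomputable def Hom.ctot (h : Hom φ w P P') (b : Cv.Hom w c c') :
    DG.Hom φ (P.ctot c) (P'.ctot c') := (h.cech b).tot _ _ φ (cst_e φ)

theorem Hom.val_ctot (h : Hom φ w P P') (b : Cv.Hom w c c') (z : (P.ctot c).V) (p : ℕ)
    (τ : Fin (p + 1) → c'.I) :
    val ((h.ctot b).toFun z) p τ = (h.g (b.un τ)).toFun (val z p (b.β ∘ τ)) := rfl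

theorem Aug.GCech_cob {M : DG R} (a : Aug M P) (c : Cv U) (x : M.V) :
    (P.cech c).cob 0 ((DG.piLift fun τ => a.a (c.un τ)).toFun x) = 0 := by
  have e : ∀ i : Fin 2, ((P.cech c).map (SimplexCategory.δ i)).toFun
      ((DG.piLift fun τ => a.a (c.un τ)).toFun x) = (DG.piLift fun τ => a.a (c.un τ)).toFun x :=
    fun i => funext fun τ => (a.a_r _ x).symm
  rw [Mod.cob_apply, Fin.sum_univ_two, e, e]
  simp

/-- The augmentation. -/
noncomputable def Aug.ctot {M : DG R} (a : Aug M P) (c : Cv U) : DG.Hom (𝟙 R) M (P.ctot c) :=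
  Mod.totAug (Ax.Aug.cst R) (M := P.cech c) (DG.piLift fun τ => a.a (c.un τ)) (a.GCech_cob c)

theorem Aug.val_zero {M : DG R} (a : Aug M P) (c : Cv U) (x : M.V) (τ : Fin 1 → c.I) :
    val ((a.ctot c).toFun x) 0 τ = (a.a _).toFun x := rfl

theorem Aug.val_succ {M : DG R} (a : Aug M P) (c : Cv U) (x : M.V) (p : ℕ)
    (τ : Fin (p + 2) → c.I) : val ((a.ctot c).toFun x) (p + 1) τ = 0 := rfl

theorem Aug.ctot_nat {M : DG R} {M' : DG R'} (a : Aug M P) (a' : Aug M' P') (g : DG.Hom φ M M')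
    (h : Hom φ w P P') (b : Cv.Hom w c c')
    (e : ∀ (S : Nes U.X) (S' : Nes U'.X) (e : Set.MapsTo w S.1 S'.1),
      g.Sq (a'.a S') (a.a S) (h.g e)) :
    g.Sq (a'.ctot c') (a.ctot c) (h.ctot b) := fun x => ctot_ext fun p τ => by
  cases p with
  | zero => exact e _ _ (b.un τ) x
  | succ p => exact (map_zero (h.g (b.un τ)).toFun).symm

/-- The pairing of Cech objects. -/
@[reducible] noncomputable def Pairing.cech (m : Pairing P P₁ P₂) (c : Cv U) :
    Mod.Pairing (P.cech c) (P₁.cech c) (P₂.cech c) where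
  app _ := DG.piPair fun τ => m.m (c.un τ)
  nat _ _ _ := funext fun _ => m.m_r _ _ _

/-- The cup product. -/
noncomputable def Pairing.ctot (m : Pairing P P₁ P₂) (c : Cv U) :
    DG.Pairing (P.ctot c) (P₁.ctot c) (P₂.ctot c) := (m.cech c).tot _

theorem Pairing.ctot_compat (m : Pairing P P₁ P₂) (m' : Pairing P' P₁' P₂') (h : Hom φ w P P')
    (h₁ : Hom φ w P₁ P₁') (h₂ : Hom φ w P₂ P₂') (b : Cv.Hom w c c')
    (e : ∀ (S : Nes U.X) (S' : Nes U'.X) (e : Set.MapsTo w S.1 S'.1),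
      (m.m S).Compat (m'.m S') (h.g e) (h₁.g e) (h₂.g e)) :
    (m.ctot c).Compat (m'.ctot c') (h.ctot b) (h₁.ctot b) (h₂.ctot b) :=
  (m.cech c).tot_compat (m'.cech c') (h.cech b) (h₁.cech b) (h₂.cech b)
    (fun _ _ _ => funext fun τ => e _ _ (b.un τ) _ _) _ _ φ (cst_e φ)

theorem Pairing.cmp_compat (m : Pairing P P₁ P₂) (c : Cv U) (i : c.I) :
    (m.ctot c).Compat (m.m _) (P.cmp c i) (P₁.cmp c i) (P₂.cmp c i) := fun z w =>
  congrFun ((m.cech c).tot_zero _ z w) fun _ => i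

/-- The component of a class of the Cech object. -/
noncomputable def GCech_ev (P : Psh U) (c : Cv U) {p : ℕ} (τ : Fin (p + 1) → c.I) (k : ℤ) :
    ((P.cech c).obj (.mk p)).H k →+ (P.Q (c.un τ)).H k :=
  (DG.ev (fun τ : Fin (p + 1) → c.I => P.Q (c.un τ)) τ).H k

theorem GCech_ev_δ {p : ℕ} (τ : Fin (p + 2) → c.I) (a : Fin (p + 2)) {k : ℤ}
    (ξ : ((P.cech c).obj (.mk p)).H k) :
    P.GCech_ev c τ k (((P.cech c).map (SimplexCategory.δ a)).H k ξ) =
      (P.r (c.un_mono τ a.succAbove)).H k (P.GCech_ev c (τ ∘ a.succAbove) k ξ) := by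
  obtain ⟨x, hx, rfl⟩ := DG.cls_surj ξ
  rfl

theorem GCech_ev_cob {p : ℕ} (τ : Fin (p + 2) → c.I) {k : ℤ} (ξ : ((P.cech c).obj (.mk p)).H k) :
    P.GCech_ev c τ k (((P.cech c).cobC p).H k ξ) = ∑ a : Fin (p + 2), (-1 : ℤ) ^ (a : ℕ) •
      (P.r (c.un_mono τ a.succAbove)).H k (P.GCech_ev c (τ ∘ a.succAbove) k ξ) := by
  rw [Mod.cobC_H, map_sum]
  exact Finset.sum_congr rfl fun a _ => by rw [map_zsmul, GCech_ev_δ]

theorem QC.ex (hP : P.QC) (c : Cv U) : (P.cech c).Ex := fun k p ξ h => by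
  obtain ⟨ζ, hζ⟩ := hP.cocycle c (fun τ => P.GCech_ev c τ k ξ) fun τ => by
    rw [← GCech_ev_cob, h, map_zero]
  obtain ⟨η, hη⟩ := DG.exists_H_pi (M := fun τ : Fin (p + 1) → c.I => P.Q (c.un τ)) ζ
  have hη' : ∀ τ, P.GCech_ev c τ k η = ζ τ := hη
  refine ⟨η, DG.H_pi_ext fun τ => (GCech_ev_cob τ η).trans ?_⟩
  simp only [hη']
  exact hζ τ

theorem GCech_const (σ : Fin 1 → c.I) : ∃ i, σ = fun _ => i :=
  ⟨σ 0, funext fun a => congrArg σ (Subsingleton.elim a 0)⟩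

theorem GCech_inv {k : ℤ} (ξ : ((P.cech c).obj (.mk 0)).H k) :
    ξ ∈ (P.cech c).Inv k ↔ P.Fit c fun i => P.GCech_ev c (fun _ : Fin 1 => i) k ξ := by
  constructor
  · intro H i j T h h'
    have e : ∀ (σ σ' : Fin 1 → c.I) (_ : σ = σ') (h : c.un σ ≤ T) (h' : c.un σ' ≤ T),
        (P.r h).H k (P.GCech_ev c σ k ξ) = (P.r h').H k (P.GCech_ev c σ' k ξ) := by
      rintro σ _ rfl _ _
      rfl
    have l : c.un ![i, j] ≤ T := Set.iUnion_subset fun a => by
      fin_cases a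
      exacts [(c.le_un (fun _ : Fin 1 => i) 0).trans h, (c.le_un (fun _ : Fin 1 => j) 0).trans h']
    have q := congrArg ((P.r l).H k) ((GCech_ev_δ ![i, j] 0 ξ).symm.trans
      ((congrArg (P.GCech_ev c ![i, j] k) H).trans (GCech_ev_δ ![i, j] 1 ξ)))
    rw [r_H, r_H] at q
    have e0 : ![i, j] ∘ (0 : Fin 2).succAbove = fun _ : Fin 1 => j :=
      funext fun a => by fin_cases a; rfl
    have e1 : ![i, j] ∘ (1 : Fin 2).succAbove = fun _ : Fin 1 => i :=
      funext fun a => by fin_cases a; rfl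
    exact (e _ _ e1 _ h).symm.trans (q.symm.trans (e _ _ e0 _ h'))
  · intro H
    have e : ∀ (σ σ' : Fin 1 → c.I) T (h : c.un σ ≤ T) (h' : c.un σ' ≤ T),
        (P.r h).H k (P.GCech_ev c σ k ξ) = (P.r h').H k (P.GCech_ev c σ' k ξ) := fun σ σ' => by
      obtain ⟨i, rfl⟩ := GCech_const σ
      obtain ⟨j, rfl⟩ := GCech_const σ'
      exact H i j
    exact DG.H_pi_ext fun τ => (GCech_ev_δ τ 0 ξ).trans ((e _ _ _ _ _).trans (GCech_ev_δ τ 1 ξ).symm)

theorem GCech_cmp (i : c.I) {k : ℤ} (ξ : (P.ctot c).H k) : (P.cmp c i).H k ξ =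
    P.GCech_ev c (fun _ : Fin 1 => i) k ((Mod.totPr (Ax.Aug.cst R) (P.cech c)).H k ξ) := by
  obtain ⟨x, hx, rfl⟩ := DG.cls_surj ξ
  rfl

theorem GCech_r_id (S : Nes U.X) {k : ℤ} (ξ : (P.Q S).H k) : (P.r (le_refl S)).H k ξ = ξ :=
  DG.H_id _ (P.r_id S) k ξ

theorem fit_cmp (P : Psh U) (c : Cv U) {k : ℤ} (ξ : (P.ctot c).H k) :
    P.Fit c fun i => (P.cmp c i).H k ξ := by
  simp only [GCech_cmp]
  refine (GCech_inv _).1 ?_
  obtain ⟨z, hz, rfl⟩ := DG.cls_surj ξ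
  have e1 : (-1 : ℤ) ^ 1 • ((P.cech c).obj (.mk (0 + 1))).d (z.1 (0 + 1)) +
      (P.cech c).cob 0 (z.1 0) = 0 := congrFun (congrArg Subtype.val hz.2) 1
  rw [pow_one, neg_one_smul, neg_add_eq_zero] at e1
  exact (Mod.mem_inv_iff _ _ _).2 ((DG.cls_eq_zero (((P.cech c).cobC 0).cycle
    ((Mod.totPr (Ax.Aug.cst R) (P.cech c)).cycle hz))).2
      ⟨z.1 1, Mod.totR_gr (hz.1 1) (by simp), e1⟩)

theorem QC.cmp_ext (hP : P.QC) {k : ℤ} {ξ η : (P.ctot c).H k}
    (h : ∀ i, (P.cmp c i).H k ξ = (P.cmp c i).H k η) : ξ = η := by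
  refine ((hP.ex c).totPr_bijOn (Ax.Aug.cst R) k).injOn trivial trivial (DG.H_pi_ext fun σ => ?_)
  obtain ⟨i, rfl⟩ := GCech_const σ
  exact (GCech_cmp i ξ).symm.trans ((h i).trans (GCech_cmp i η))

theorem QC.exists_cmp (hP : P.QC) {k : ℤ} {ξ : ∀ i, (P.Q (c.un₀ i)).H k} (h : P.Fit c ξ) :
    ∃ η : (P.ctot c).H k, ∀ i, (P.cmp c i).H k η = ξ i := by
  obtain ⟨ζ, hζ⟩ := DG.exists_H_pi (M := fun σ : Fin 1 → c.I => P.Q (c.un σ)) fun σ =>
    (P.r (c.un_mono σ fun _ : Fin 1 => 0)).H k (ξ (σ 0))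
  have e : ∀ i, P.GCech_ev c (fun _ : Fin 1 => i) k ζ = ξ i := fun i =>
    (hζ _).trans (GCech_r_id _ _)
  obtain ⟨η, -, hη⟩ := ((hP.ex c).totPr_bijOn (Ax.Aug.cst R) k).surjOn
    ((GCech_inv ζ).2 (by simpa only [e] using h))
  exact ⟨η, fun i => (GCech_cmp i η).trans ((congrArg _ hη).trans (e i))⟩

/-- `η` is the restriction of the class `ξ` to the open set `S`. -/
def CRes (P : Psh U) (c : Cv U) {k : ℤ} (ξ : (P.ctot c).H k) {S : Nes U.X} (η : (P.Q S).H k) :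
    Prop := P.Res c (fun i => (P.cmp c i).H k ξ) η

theorem Hom.GCech_cmp (h : Hom φ w P P') (b : Cv.Hom w c c') (i : c'.I) {k : ℤ}
    (ξ : (P.ctot c).H k) : (P'.cmp c' i).H k ((h.ctot b).H k ξ) =
      (h.g (S := c.un₀ (b.β i)) (b.un fun _ : Fin 1 => i)).H k ((P.cmp c (b.β i)).H k ξ) := by
  obtain ⟨x, hx, rfl⟩ := DG.cls_surj ξ
  rfl

theorem Hom.GCech_sq (h : Hom φ w P P') {S T : Nes U.X} {S' T' : Nes U'.X} (l : S ≤ T)
    (l' : S' ≤ T') (e : Set.MapsTo w S.1 S'.1) (e' : Set.MapsTo w T.1 T'.1) {k : ℤ}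
    (η : (P.Q S).H k) : (P'.r l').H k ((h.g e).H k η) = (h.g e').H k ((P.r l).H k η) :=
  DG.H_comm (h.g e).cmap (P'.r l').cmap (P.r l).cmap (h.g e').cmap
    (fun x => (h.r_g e l' (e.mono_right l') x).symm.trans (h.g_r l e' _ x)) k η

theorem CRes.ctot (h : Hom φ w P P') (b : Cv.Hom w c c') {k : ℤ}
    {ξ : (P.ctot c).H k} {S : Nes U.X} {η : (P.Q S).H k} (p : P.CRes c ξ η) {S' : Nes U'.X}
    (e : Set.MapsTo w S.1 S'.1) : P'.CRes c' ((h.ctot b).H k ξ) ((h.g e).H k η) := fun i T l l' => by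
  have e' : Set.MapsTo w (S.un (c.un₀ (b.β i))).1 T.1 := fun x hx =>
    hx.elim (fun hx => l (e hx)) fun hx => l' (b.un (fun _ : Fin 1 => i) hx)
  refine (h.GCech_sq (S.le_un_left _) l e e' η).trans (Eq.trans ?_ (congrArg _
    (h.GCech_cmp b i ξ)).symm)
  rw [h.GCech_sq (S.le_un_right _) l' _ e', p (b.β i) _ (S.le_un_left _) (S.le_un_right _)]

theorem QC.GCech_res_ext (hP : P.QC) {k : ℤ} {ξ : ∀ i, (P.Q (c.un₀ i)).H k} {S : Nes U.X}
    {η η' : (P.Q S).H k} (h : P.Res c ξ η) (h' : P.Res c ξ η') : η = η' :=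
  hP.sep c fun i => (h i _ _ (S.le_un_right _)).trans (h' i _ _ (S.le_un_right _)).symm

theorem QC.qi_ctot (hP : P.QC) {c c' : Cv U} (b : Cv.Hom id c c') : (P.self.ctot b).QI := by
  refine (DG.Hom.qiso_iff _).2 fun k => ⟨fun ξ η e => hP.cmp_ext fun i => ?_, fun ζ => ?_⟩
  · have q : ∀ ξ : (P.ctot c).H k, P.CRes c' ((P.self.ctot b).H k ξ) ((P.cmp c i).H k ξ) :=
      fun ξ => GCech_r_id _ ((P.cmp c i).H k ξ) ▸
        CRes.ctot P.self b (S' := c.un₀ i) (P.fit_cmp c ξ i) fun _ hx => hx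
    exact hP.GCech_res_ext (q ξ) (e ▸ q η)
  · choose η hη using fun i => hP.glue c' (P.fit_cmp c' ζ) (c.un₀ i)
    have r : ∀ i T (l : c.un₀ i ≤ T), P.CRes c' ζ ((P.r l).H k (η i)) := fun i T l j W m m' =>
      (r_H l m k _).trans (hη i j W _ m')
    obtain ⟨ξ, hξ⟩ := hP.exists_cmp (ξ := η) fun i j T l l' => hP.GCech_res_ext (r i T l) (r j T l')
    refine ⟨ξ, hP.cmp_ext fun i => (P.self.GCech_cmp b i ξ).trans ?_⟩
    rw [hξ]
    exact (hη _ i _ _ le_rfl).trans (GCech_r_id _ _)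

end Psh

end Pool.Agent.P.MP_932208_ag.Ax
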