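import Pool.Agent.P.MP_932208_ag.Ex.Five

/-!
Direct limits of dg modules.
-/

namespace Pool.Agent.P.MP_932208_ag.Ax

open CategoryTheory

variable {R R' : SRing}

/-- A directed system of dg modules. -/
structure DSys (R : SRing) (I : Type) [Preorder I] where
  obj : I → DG R
  map : ∀ {i j : I}, i ≤ j → DG.Hom (𝟙 R) (obj i) (obj j)
  map_id : ∀ i, (map (le_refl i)).IsId
  map_comp : ∀ {i j k : I} (h : i ≤ j) (h' : j ≤ k), (map (h.trans h')).Tri (map h) (map h')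

namespace DSys
variable {I : Type} [Preorder I] [IsDirectedOrder I] [Nonempty I]

section aux
variable (D : DSys R I)

/-- The transition maps as linear maps. -/
def GLim_lin (i j : I) (h : i ≤ j) : (D.obj i).V →ₗ[N R] (D.obj j).V where
  toFun := (D.map h).toFun
  map_add' := map_add _
  map_smul' a x := (D.map h).map_smul a x

instance GLim_dir : DirectedSystem (fun i => (D.obj i).V) (D.GLim_lin · · ·) where
  map_self i x := D.map_id i x
  map_map _ _ _ h h' x := (D.map_comp h h' x).symm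

/-- The underlying module of the limit. -/
def GLim_V : Type :=
  @Module.DirectLimit (N R) _ I _ (fun i => (D.obj i).V) _ _ D.GLim_lin (Classical.decEq I)

noncomputable instance : AddCommGroup D.GLim_V :=
  @Module.DirectLimit.addCommGroup (N R) _ I _ (Classical.decEq I) (fun i => (D.obj i).V) _ _
    D.GLim_lin

noncomputable instance : Module (N R) D.GLim_V :=
  @Module.DirectLimit.module (N R) _ I _ (fun i => (D.obj i).V) _ _ D.GLim_lin (Classical.decEq I)

/-- The structure maps, as linear maps. -/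
noncomputable def GLim_ofL (i : I) : (D.obj i).V →ₗ[N R] D.GLim_V :=
  @Module.DirectLimit.of (N R) _ I _ (fun i => (D.obj i).V) _ _ D.GLim_lin (Classical.decEq I) i

/-- The structure maps, as additive maps. -/
noncomputable def GLim_of (i : I) : (D.obj i).V →+ D.GLim_V := (D.GLim_ofL i).toAddMonoidHom

omit [IsDirectedOrder I] [Nonempty I] in
theorem GLim_of_smul (i : I) (a : N R) (x : (D.obj i).V) :
    D.GLim_of i (a • x) = a • D.GLim_of i x := (D.GLim_ofL i).map_smul a x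

omit [IsDirectedOrder I] [Nonempty I] in
theorem GLim_of_map {i j : I} (h : i ≤ j) (x : (D.obj i).V) :
    D.GLim_of j ((D.map h).toFun x) = D.GLim_of i x :=
  @Module.DirectLimit.of_f (N R) _ I _ (fun i => (D.obj i).V) _ _ D.GLim_lin (Classical.decEq I)
    i j h x

theorem GLim_exists (y : D.GLim_V) : ∃ i x, D.GLim_of i x = y :=
  @Module.DirectLimit.exists_of (N R) _ I _ (fun i => (D.obj i).V) _ _ D.GLim_lin
    (Classical.decEq I) _ _ y

omit [Nonempty I] in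
theorem GLim_zero {i : I} {x : (D.obj i).V} (h : D.GLim_of i x = 0) :
    ∃ (j : I) (e : i ≤ j), (D.map e).toFun x = 0 :=
  @Module.DirectLimit.of.zero_exact (N R) _ I _ (fun i => (D.obj i).V) _ _ D.GLim_lin
    (Classical.decEq I) _ _ i x h

theorem GLim_exists₂ (y z : D.GLim_V) : ∃ i x x', D.GLim_of i x = y ∧ D.GLim_of i x' = z := by
  obtain ⟨i, x, rfl⟩ := D.GLim_exists y
  obtain ⟨j, x', rfl⟩ := D.GLim_exists z
  obtain ⟨k, hi, hj⟩ := exists_ge_ge i j
  exact ⟨k, _, _, D.GLim_of_map hi x, D.GLim_of_map hj x'⟩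

omit [Nonempty I] in
theorem GLim_eq {P : Type} [AddCommGroup P] (g : ∀ i, (D.obj i).V →+ P)
    (hg : ∀ i j (h : i ≤ j) x, g j ((D.map h).toFun x) = g i x) {i j : I} {x : (D.obj i).V}
    {y : (D.obj j).V} (e : D.GLim_of i x = D.GLim_of j y) : g i x = g j y := by
  obtain ⟨k, hi, hj⟩ := exists_ge_ge i j
  have h1 : D.GLim_of k ((D.map hi).toFun x - (D.map hj).toFun y) = 0 := by
    rw [map_sub, D.GLim_of_map, D.GLim_of_map, e, sub_self]
  obtain ⟨l, hl, h2⟩ := D.GLim_zero h1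
  have h3 := hg k l hl ((D.map hi).toFun x - (D.map hj).toFun y)
  rw [h2, map_zero, map_sub, hg, hg] at h3
  exact sub_eq_zero.1 h3.symm

/-- The function on the limit defined by a compatible family. -/
noncomputable def GLim_fun {P : Type} [AddCommGroup P] (g : ∀ i, (D.obj i).V →+ P)
    (y : D.GLim_V) : P :=
  g (D.GLim_exists y).choose (D.GLim_exists y).choose_spec.choose

theorem GLim_fun_of {P : Type} [AddCommGroup P] (g : ∀ i, (D.obj i).V →+ P)
    (hg : ∀ i j (h : i ≤ j) x, g j ((D.map h).toFun x) = g i x) (i : I) (x : (D.obj i).V) :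
    D.GLim_fun g (D.GLim_of i x) = g i x :=
  D.GLim_eq g hg (D.GLim_exists (D.GLim_of i x)).choose_spec.choose_spec

/-- The additive map on the limit defined by a compatible family. -/
noncomputable def GLim_lift {P : Type} [AddCommGroup P] (g : ∀ i, (D.obj i).V →+ P)
    (hg : ∀ i j (h : i ≤ j) x, g j ((D.map h).toFun x) = g i x) : D.GLim_V →+ P :=
  AddMonoidHom.mk' (D.GLim_fun g) fun y z => by
    obtain ⟨i, x, x', rfl, rfl⟩ := D.GLim_exists₂ y z
    rw [← map_add, D.GLim_fun_of g hg, D.GLim_fun_of g hg, D.GLim_fun_of g hg, map_add]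

theorem GLim_lift_of {P : Type} [AddCommGroup P] (g : ∀ i, (D.obj i).V →+ P)
    (hg : ∀ i j (h : i ≤ j) x, g j ((D.map h).toFun x) = g i x) (i : I) (x : (D.obj i).V) :
    D.GLim_lift g hg (D.GLim_of i x) = g i x :=
  D.GLim_fun_of g hg i x

/-- The grading of the limit. -/
def GLim_gr (k : ℤ) : AddSubgroup D.GLim_V where
  carrier := {y | ∃ i, ∃ x ∈ (D.obj i).gr k, D.GLim_of i x = y}
  zero_mem' := ⟨Classical.arbitrary I, 0, zero_mem _, map_zero _⟩
  add_mem' := by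
    rintro _ _ ⟨i, x, hx, rfl⟩ ⟨j, y, hy, rfl⟩
    obtain ⟨l, hi, hj⟩ := exists_ge_ge i j
    refine ⟨l, _, add_mem ((D.map hi).map_gr hx) ((D.map hj).map_gr hy), ?_⟩
    rw [map_add, D.GLim_of_map, D.GLim_of_map]
  neg_mem' := by
    rintro _ ⟨i, x, hx, rfl⟩
    exact ⟨i, -x, neg_mem hx, map_neg _ _⟩

/-- The homogeneous components. -/
noncomputable def GLim_proj (k : ℤ) : D.GLim_V →+ D.GLim_V :=
  D.GLim_lift (fun i => (D.GLim_of i).comp ((D.obj i).proj k)) fun i j h x => by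
    rw [AddMonoidHom.comp_apply, AddMonoidHom.comp_apply, ← (D.map h).map_proj, D.GLim_of_map]

theorem GLim_proj_of (k : ℤ) (i : I) (x : (D.obj i).V) :
    D.GLim_proj k (D.GLim_of i x) = D.GLim_of i ((D.obj i).proj k x) :=
  D.GLim_lift_of _ _ i x

theorem GLim_internal : Internal D.GLim_gr := by
  refine internal_of_proj _ D.GLim_proj (fun k y => ?_) (fun k y hy => ?_)
    (fun k l y hy e => ?_) fun y => ?_
  · obtain ⟨i, x, rfl⟩ := D.GLim_exists y
    exact ⟨i, _, (D.obj i).proj_mem k x, (D.GLim_proj_of k i x).symm⟩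
  · obtain ⟨i, x, hx, rfl⟩ := hy
    rw [D.GLim_proj_of, (D.obj i).proj_of_mem hx]
  · obtain ⟨i, x, hx, rfl⟩ := hy
    rw [D.GLim_proj_of, (D.obj i).proj_of_ne hx e, map_zero]
  · obtain ⟨i, x, rfl⟩ := D.GLim_exists y
    obtain ⟨S, -, hS⟩ := (D.obj i).exists_sum_proj x
    refine ⟨S, ?_⟩
    simp only [D.GLim_proj_of]
    rw [← map_sum, hS]

/-- The differential of the limit. -/
noncomputable def GLim_d : D.GLim_V →+ D.GLim_V :=
  D.GLim_lift (fun i => (D.GLim_of i).comp (D.obj i).d) fun i j h x => by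
    rw [AddMonoidHom.comp_apply, AddMonoidHom.comp_apply, ← (D.map h).map_d, D.GLim_of_map]

theorem GLim_d_of (i : I) (x : (D.obj i).V) :
    D.GLim_d (D.GLim_of i x) = D.GLim_of i ((D.obj i).d x) :=
  D.GLim_lift_of _ _ i x

theorem GLim_smul_mem : SMulGraded (N.deg R) D.GLim_gr := by
  rintro n k a _ ha ⟨i, x, hx, rfl⟩
  exact ⟨i, _, (D.obj i).smul_mem ha hx, D.GLim_of_smul i a x⟩

theorem GLim_d_mem : Lowers D.GLim_gr D.GLim_d := by
  rintro k _ ⟨i, x, hx, rfl⟩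
  exact ⟨i, _, (D.obj i).d_mem hx, (D.GLim_d_of i x).symm⟩

theorem GLim_d_d : SqZero D.GLim_d := fun y => by
  obtain ⟨i, x, rfl⟩ := D.GLim_exists y
  rw [D.GLim_d_of, D.GLim_d_of, (D.obj i).d_d, map_zero]

theorem GLim_d_smul : Leibniz (N.bd (A := R)) N.sg D.GLim_d := fun a y => by
  obtain ⟨i, x, rfl⟩ := D.GLim_exists y
  rw [← D.GLim_of_smul, D.GLim_d_of, D.GLim_d_of, (D.obj i).d_smul, map_add, D.GLim_of_smul,
    D.GLim_of_smul]

end aux

/-- The direct limit. -/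
noncomputable def lim (D : DSys R I) : DG R where
  V := D.GLim_V
  gr := D.GLim_gr
  internal := D.GLim_internal
  d := D.GLim_d
  smul_mem := @GLim_smul_mem R I _ _ _ D
  d_mem := @GLim_d_mem R I _ _ _ D
  d_d := D.GLim_d_d
  d_smul := D.GLim_d_smul

/-- The structure maps. -/
noncomputable def of (D : DSys R I) (i : I) : DG.Hom (𝟙 R) (D.obj i) D.lim where
  toFun := D.GLim_of i
  map_smul a x := D.GLim_of_smul i a x
  map_gr hx := ⟨i, _, hx, rfl⟩
  map_d x := (D.GLim_d_of i x).symm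

variable (D : DSys R I)

theorem of_map {i j : I} (h : i ≤ j) : (D.of i).Tri (D.map h) (D.of j) :=
  fun x => (D.GLim_of_map h x).symm

theorem exists_of (y : D.lim.V) : ∃ i x, (D.of i).toFun x = y := D.GLim_exists y

theorem of_eq_zero {i : I} {x : (D.obj i).V} (h : (D.of i).toFun x = 0) :
    ∃ (j : I) (e : i ≤ j), (D.map e).toFun x = 0 := D.GLim_zero h

theorem GLim_exists_gr {k : ℤ} {y : D.lim.V} (h : y ∈ D.lim.gr k) :
    ∃ i, ∃ x ∈ (D.obj i).gr k, (D.of i).toFun x = y := h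

/-- The additive universal property. -/
noncomputable def GLim_desc {P : Type} [AddCommGroup P] (g : ∀ i, (D.obj i).V →+ P)
    (hg : ∀ i j (h : i ≤ j) x, g j ((D.map h).toFun x) = g i x) : D.lim.V →+ P :=
  D.GLim_lift g hg

theorem GLim_desc_of {P : Type} [AddCommGroup P] (g : ∀ i, (D.obj i).V →+ P)
    (hg : ∀ i j (h : i ≤ j) x, g j ((D.map h).toFun x) = g i x) (i : I) (x : (D.obj i).V) :
    D.GLim_desc g hg ((D.of i).toFun x) = g i x :=
  D.GLim_lift_of g hg i x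

/-- The universal property. -/
noncomputable def lift {φ : R ⟶ R'} {W : DG R'} (g : ∀ i, DG.Hom φ (D.obj i) W)
    (hg : ∀ i j (h : i ≤ j), (g i).Tri (D.map h) (g j)) : DG.Hom φ D.lim W where
  toFun := D.GLim_desc (fun i => (g i).toFun) fun i j h x => (hg i j h x).symm
  map_smul a y := by
    obtain ⟨i, x, rfl⟩ := D.exists_of y
    have h := (D.of i).map_smul a x
    rw [N.map_id] at h
    rw [← h, D.GLim_desc_of, D.GLim_desc_of, (g i).map_smul]
  map_gr hy := by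
    obtain ⟨i, x, hx, rfl⟩ := D.GLim_exists_gr hy
    rw [D.GLim_desc_of]
    exact (g i).map_gr hx
  map_d y := by
    obtain ⟨i, x, rfl⟩ := D.exists_of y
    rw [← (D.of i).map_d, D.GLim_desc_of, D.GLim_desc_of, (g i).map_d]

theorem lift_of {φ : R ⟶ R'} {W : DG R'} (g : ∀ i, DG.Hom φ (D.obj i) W)
    (hg : ∀ i j (h : i ≤ j), (g i).Tri (D.map h) (g j)) (i : I) (x : (D.obj i).V) :
    (D.lift g hg).toFun ((D.of i).toFun x) = (g i).toFun x :=
  D.GLim_desc_of (fun i => (g i).toFun) (fun i j h x => (hg i j h x).symm) i x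

variable {D} {D₁ D₂ : DSys R I}

theorem GLim_both (y : D.lim.V) (y₁ : D₁.lim.V) :
    ∃ i x x₁, (D.of i).toFun x = y ∧ (D₁.of i).toFun x₁ = y₁ := by
  obtain ⟨i, x, rfl⟩ := D.exists_of y
  obtain ⟨j, x₁, rfl⟩ := D₁.exists_of y₁
  obtain ⟨k, hi, hj⟩ := exists_ge_ge i j
  exact ⟨k, _, _, (D.of_map hi x).symm, (D₁.of_map hj x₁).symm⟩

theorem GLim_both_gr {k : ℤ} {y : D.lim.V} (hy : y ∈ D.lim.gr k) (y₁ : D₁.lim.V) :
    ∃ i, ∃ x ∈ (D.obj i).gr k, ∃ x₁, (D.of i).toFun x = y ∧ (D₁.of i).toFun x₁ = y₁ := by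
  obtain ⟨i, x, hx, rfl⟩ := D.GLim_exists_gr hy
  obtain ⟨j, x₁, rfl⟩ := D₁.exists_of y₁
  obtain ⟨l, hi, hj⟩ := exists_ge_ge i j
  exact ⟨l, _, (D.map hi).map_gr hx, _, (D.of_map hi x).symm, (D₁.of_map hj x₁).symm⟩

theorem GLim_both_gr₂ {k l : ℤ} {y : D.lim.V} (hy : y ∈ D.lim.gr k) {y₁ : D₁.lim.V}
    (hy₁ : y₁ ∈ D₁.lim.gr l) : ∃ i, ∃ x ∈ (D.obj i).gr k, ∃ x₁ ∈ (D₁.obj i).gr l,
      (D.of i).toFun x = y ∧ (D₁.of i).toFun x₁ = y₁ := by
  obtain ⟨i, x, hx, rfl⟩ := D.GLim_exists_gr hy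
  obtain ⟨j, x₁, hx₁, rfl⟩ := D₁.GLim_exists_gr hy₁
  obtain ⟨n, hi, hj⟩ := exists_ge_ge i j
  exact ⟨n, _, (D.map hi).map_gr hx, _, (D₁.map hj).map_gr hx₁, (D.of_map hi x).symm,
    (D₁.of_map hj x₁).symm⟩

section pairing
variable (m : ∀ i, DG.Pairing (D.obj i) (D₁.obj i) (D₂.obj i))
  (hm : ∀ i j (h : i ≤ j), (m i).Compat (m j) (D.map h) (D₁.map h) (D₂.map h))

/-- The product of two representatives, computed at a later index. -/
noncomputable def GLim_pv {i j k : I} (hi : i ≤ k) (hj : j ≤ k) :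
    (D.obj i).V →+ (D₁.obj j).V →+ D₂.lim.V :=
  (((m k).μ.compr₂ (D₂.of k).toFun).compl₂ (D₁.map hj).toFun).comp (D.map hi).toFun

theorem GLim_pv_apply {i j k : I} (hi : i ≤ k) (hj : j ≤ k) (x : (D.obj i).V)
    (y : (D₁.obj j).V) : GLim_pv m hi hj x y =
      (D₂.of k).toFun ((m k).μ.ap ((D.map hi).toFun x) ((D₁.map hj).toFun y)) := rfl

include hm in
theorem GLim_pv_indep {i j k l : I} (hi : i ≤ k) (hj : j ≤ k) (hi' : i ≤ l) (hj' : j ≤ l)
    (x : (D.obj i).V) (y : (D₁.obj j).V) : GLim_pv m hi hj x y = GLim_pv m hi' hj' x y := by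
  obtain ⟨n, hk, hl⟩ := exists_ge_ge k l
  rw [GLim_pv_apply, GLim_pv_apply, D₂.of_map hk, D₂.of_map hl, hm _ _ hk, hm _ _ hl,
    ← D.map_comp hi hk, ← D.map_comp hi' hl, ← D₁.map_comp hj hk, ← D₁.map_comp hj' hl]

/-- The product of two representatives. -/
noncomputable def GLim_pw (i j : I) : (D.obj i).V →+ (D₁.obj j).V →+ D₂.lim.V :=
  GLim_pv m (exists_ge_ge i j).choose_spec.1 (exists_ge_ge i j).choose_spec.2

include hm in
theorem GLim_pw_eq {i j k : I} (hi : i ≤ k) (hj : j ≤ k) (x : (D.obj i).V) (y : (D₁.obj j).V) :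
    GLim_pw m i j x y =
      (D₂.of k).toFun ((m k).μ.ap ((D.map hi).toFun x) ((D₁.map hj).toFun y)) :=
  GLim_pv_indep m hm _ _ hi hj x y

include hm in
theorem GLim_pw_right (i j j' : I) (h : j ≤ j') (y : (D₁.obj j).V) :
    (GLim_pw m i j').flip ((D₁.map h).toFun y) = (GLim_pw m i j).flip y := by
  ext x
  obtain ⟨k, hi, hj⟩ := exists_ge_ge i j'
  rw [AddMonoidHom.flip_apply, AddMonoidHom.flip_apply, GLim_pw_eq m hm hi hj,
    GLim_pw_eq m hm hi (h.trans hj), D₁.map_comp h hj]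

/-- The product of a representative with an element of the limit. -/
noncomputable def GLim_pl (i : I) : (D.obj i).V →+ D₁.lim.V →+ D₂.lim.V :=
  (D₁.GLim_desc (fun j => (GLim_pw m i j).flip) (GLim_pw_right m hm i)).flip

theorem GLim_pl_of (i j : I) (x : (D.obj i).V) (y : (D₁.obj j).V) :
    GLim_pl m hm i x ((D₁.of j).toFun y) = GLim_pw m i j x y := by
  rw [GLim_pl, AddMonoidHom.flip_apply, D₁.GLim_desc_of, AddMonoidHom.flip_apply]

theorem GLim_pl_left (i i' : I) (h : i ≤ i') (x : (D.obj i).V) :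
    GLim_pl m hm i' ((D.map h).toFun x) = GLim_pl m hm i x := by
  ext z
  obtain ⟨j, y, rfl⟩ := D₁.exists_of z
  obtain ⟨k, hi, hj⟩ := exists_ge_ge i' j
  rw [GLim_pl_of, GLim_pl_of, GLim_pw_eq m hm hi hj, GLim_pw_eq m hm (h.trans hi) hj,
    D.map_comp h hi]

/-- The product on the limits. -/
noncomputable def GLim_mu : Biadd D.lim.V D₁.lim.V D₂.lim.V :=
  D.GLim_desc (GLim_pl m hm) (GLim_pl_left m hm)

theorem GLim_mu_of (i : I) (x : (D.obj i).V) (y : (D₁.obj i).V) :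
    GLim_mu m hm ((D.of i).toFun x) ((D₁.of i).toFun y) = (D₂.of i).toFun ((m i).μ x y) := by
  rw [GLim_mu, D.GLim_desc_of, GLim_pl_of, GLim_pw_eq m hm le_rfl le_rfl, D.map_id, D₁.map_id]

end pairing

theorem GLim_of_smul' (D : DSys R I) (i : I) (a : N R) (x : (D.obj i).V) :
    (D.of i).toFun (a • x) = a • (D.of i).toFun x := (D.of i).map_smul a x

theorem GLim_of_units (D : DSys R I) (i : I) (u : ℤˣ) (x : (D.obj i).V) :
    (D.of i).toFun (u • x) = u • (D.of i).toFun x := by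
  rw [Units.smul_def, Units.smul_def, map_zsmul]

/-- The limit of compatible pairings. -/
noncomputable def pair (m : ∀ i, DG.Pairing (D.obj i) (D₁.obj i) (D₂.obj i))
    (hm : ∀ i j (h : i ≤ j), (m i).Compat (m j) (D.map h) (D₁.map h) (D₂.map h)) :
    DG.Pairing D.lim D₁.lim D₂.lim where
  μ := GLim_mu m hm
  μ_gr hx hy := by
    obtain ⟨i, x, hx', y, hy', rfl, rfl⟩ := GLim_both_gr₂ hx hy
    rw [GLim_mu_of]
    exact (D₂.of i).map_gr ((m i).μ_gr hx' hy')
  smul_left a x y := by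
    obtain ⟨i, x, y, rfl, rfl⟩ := GLim_both x y
    rw [← GLim_of_smul', GLim_mu_of, GLim_mu_of, (m i).smul_left, GLim_of_smul']
  smul_right y ha hx := by
    obtain ⟨i, x, hx', y, rfl, rfl⟩ := GLim_both_gr hx y
    rw [← GLim_of_smul', GLim_mu_of, GLim_mu_of, (m i).smul_right y ha hx', GLim_of_units,
      GLim_of_smul']
  leibniz y hx := by
    obtain ⟨i, x, hx', y, rfl, rfl⟩ := GLim_both_gr hx y
    rw [← (D.of i).map_d, ← (D₁.of i).map_d, GLim_mu_of, GLim_mu_of, GLim_mu_of,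
      ← (D₂.of i).map_d, (m i).leibniz y hx', map_add, GLim_of_units]

theorem pair_of (m : ∀ i, DG.Pairing (D.obj i) (D₁.obj i) (D₂.obj i))
    (hm : ∀ i j (h : i ≤ j), (m i).Compat (m j) (D.map h) (D₁.map h) (D₂.map h)) (i : I) :
    (m i).Compat (pair m hm) (D.of i) (D₁.of i) (D₂.of i) :=
  fun x y => (GLim_mu_of m hm i x y).symm

attribute [irreducible] lim of lift pair

theorem exists_of₂ (y : D.lim.V) (y₁ : D₁.lim.V) :
    ∃ i x x₁, (D.of i).toFun x = y ∧ (D₁.of i).toFun x₁ = y₁ := GLim_both y y₁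

theorem qi_of (h : ∀ i j (e : i ≤ j), (D.map e).QI) (i : I) : (D.of i).QI := by
  have key : ∀ i k x, (D.obj i).Cycle k x → D.lim.Bdry k ((D.of i).toFun x) →
      (D.obj i).Bdry k x := by
    rintro i k x hx ⟨z, hz, e⟩
    obtain ⟨j, w, hw, rfl⟩ := D.GLim_exists_gr hz
    obtain ⟨l, hi, hj⟩ := exists_ge_ge i j
    have h1 : (D.of l).toFun ((D.map hi).toFun x - (D.obj l).d ((D.map hj).toFun w)) = 0 := by
      rw [map_sub, (D.of l).map_d, ← D.of_map hi, ← D.of_map hj, e, sub_self]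
    obtain ⟨n, hn, h2⟩ := D.of_eq_zero h1
    refine ((DG.Hom.qi_iff'.1 (h i n (hi.trans hn))) k).2 x hx ?_
    refine ⟨(D.map hn).toFun ((D.map hj).toFun w), (D.map hn).map_gr ((D.map hj).map_gr hw), ?_⟩
    rw [map_sub, sub_eq_zero] at h2
    rw [D.map_comp hi hn, h2, (D.map hn).map_d]
  refine DG.Hom.qi_iff'.2 fun k => ⟨fun y hy => ?_, key i k⟩
  obtain ⟨j, w, hw, rfl⟩ := D.GLim_exists_gr hy.1
  have h1 : (D.of j).toFun ((D.obj j).d w) = 0 := by rw [(D.of j).map_d]; exact hy.2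
  obtain ⟨l, hl, h2⟩ := D.of_eq_zero h1
  obtain ⟨n, hi, hn⟩ := exists_ge_ge i l
  have h3 : (D.obj n).Cycle k ((D.map hn).toFun ((D.map hl).toFun w)) :=
    (D.map hn).cycle ⟨(D.map hl).map_gr hw, by rw [← (D.map hl).map_d, h2]⟩
  obtain ⟨x, hx, hb⟩ := ((DG.Hom.qi_iff'.1 (h i n hi)) k).1 _ h3
  refine ⟨x, hx, ?_⟩
  have h4 := (D.of n).bdry hb
  rwa [map_sub, ← D.of_map hi, ← D.of_map hn, ← D.of_map hl] at h4

end DSys

end Pool.Agent.P.MP_932208_ag.Ax
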