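import Pool.Agent.P.MP_932208_ag.Ex.GCech
import Pool.Agent.P.MP_932208_ag.Ex.GLim

/-!
Derived global sections: the direct limit of the Cech complexes over all finite families of
finite labelled covers.
-/

namespace Pool.Agent.P.MP_932208_ag.Ax

open CategoryTheory

variable {R R' R'' R₃ : SRing}

namespace Site

/-- A finite labelled cover. -/
structure Cov (U : Site R) where
  n : ℕ
  x : Fin n → U.X
  cov : R.Covers (Set.range (U.lab ∘ x))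

/-- Finite nonempty families of covers. -/
abbrev Fm (U : Site R) : Type := {Φ : Set U.Cov // Φ.Finite ∧ Φ.Nonempty}

instance (U : Site R) : IsDirectedOrder U.Fm := ⟨fun a b => ⟨⟨a.1 ∪ b.1, a.2.1.union b.2.1, a.2.2.inl⟩,
  Set.subset_union_left (s := a.1), Set.subset_union_right (t := b.1)⟩⟩

instance (U : Site R) : Nonempty U.Fm := by
  classical
  obtain ⟨T, hT, h1⟩ := Submodule.mem_span_finite_of_mem_span ((Ideal.eq_top_iff_one _).1 U.cov)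
  let T' := T.filter fun a => a ∈ Set.range U.lab
  have h2 : ∀ i : Fin T'.card, ∃ x, U.lab x = (T'.equivFin.symm i).1 := fun i =>
    (Finset.mem_filter.1 (T'.equivFin.symm i).2).2
  choose x hx using h2
  refine ⟨⟨{⟨T'.card, x, (Ideal.eq_top_iff_one _).2 (Ideal.span_mono (fun a ha => ?_) h1)⟩},
    Set.finite_singleton _, Set.singleton_nonempty _⟩⟩
  rcases hT ha with h | h
  · refine Or.inl ⟨T'.equivFin ⟨a, Finset.mem_filter.2 ⟨ha, h⟩⟩, ?_⟩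
    rw [Function.comp_apply, hx, Equiv.symm_apply_apply]
  · exact Or.inr h

/-- The common refinement of a family of covers. -/
@[reducible] def cv (U : Site R) (Φ : U.Fm) : Cv U where
  I := ∀ c : Φ.1, Fin c.1.n
  fin := by have := Φ.2.1.to_subtype; infer_instance
  S t := ⟨Set.range fun c : Φ.1 => c.1.x (t c), Φ.2.2.elim fun c hc => ⟨_, ⟨c, hc⟩, rfl⟩⟩
  cov := fun a hb h => by
    by_contra h1
    obtain ⟨m, hm, ham⟩ := Ideal.exists_le_maximal a ((Ideal.ne_top_iff_one a).2 h1)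
    have h2 : ∀ c : Φ.1, ∃ i, U.lab (c.1.x i) ∉ m := fun c => by
      obtain ⟨_, ⟨i, rfl⟩, hf⟩ := c.1.cov.exists_notMem hm.ne_top fun b h => ham (hb b h)
      exact ⟨i, hf⟩
    choose t ht using h2
    obtain ⟨s, hs, hsa⟩ := h t
    have := hm.isPrime
    refine (Submonoid.closure_le (S := m.primeCompl)).2 ?_ hs (ham hsa)
    rintro _ ⟨_, ⟨c, rfl⟩, rfl⟩
    exact ht c

/-- A map of labels over a ring map. -/
structure Hom (φ : R ⟶ R') (U : Site R) (U' : Site R') where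
  w : U.X → U'.X
  lab : ∀ x, U'.lab (w x) = φ.app 0 (U.lab x)

/-- The identity. -/
@[reducible] def Hom.id (U : Site R) : Hom (𝟙 R) U U := ⟨_root_.id, fun _ => rfl⟩

variable {φ : R ⟶ R'} {U : Site R} {U' : Site R'} (a : Hom φ U U')

/-- The image of a cover. -/
@[reducible] def Hom.cov (c : U.Cov) : U'.Cov :=
  ⟨c.n, a.w ∘ c.x, c.cov.map φ fun _ ⟨i, e⟩ => ⟨i, e ▸ a.lab _⟩⟩

/-- The image of a family of covers. -/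
def Hom.fm (Φ : U.Fm) : U'.Fm := ⟨a.cov '' Φ.1, Φ.2.1.image _, Φ.2.2.image _⟩

/-- The refinement map. -/
def Hom.cv {Φ : U.Fm} {Φ' : U'.Fm} (e : Set.MapsTo a.cov Φ.1 Φ'.1) :
    Cv.Hom a.w (U.cv Φ) (U'.cv Φ') where
  β t c := t ⟨a.cov c.1, e c.2⟩
  sub _ _ := fun ⟨c, p⟩ => ⟨⟨a.cov c.1, e c.2⟩, congrArg a.w p⟩

theorem Hom.cl {S : Nes U.X} {S' : Nes U'.X} (e : Set.MapsTo a.w S.1 S'.1) {s : R.obj 0}
    (h : s ∈ U.cl S) : φ.app 0 s ∈ U'.cl S' := by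
  refine (Submonoid.closure_le (S := (U'.cl S').comap (φ.app 0))).2 ?_ h
  rintro _ ⟨x, hx, rfl⟩
  exact Submonoid.subset_closure ⟨_, e hx, a.lab x⟩

end Site

namespace Psh
variable {U : Site R} {U' : Site R'} {U'' : Site R''} {U₃ : Site R₃}

/-- The directed system of Cech complexes. -/
@[reducible] noncomputable def sys (P : Psh U) : DSys R U.Fm where
  obj Φ := P.ctot (U.cv Φ)
  map h := P.self.ctot ((Site.Hom.id U).cv h)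
  map_id _ _ := ctot_ext fun _ _ => P.r_id _ _
  map_comp _ _ _ := ctot_ext fun _ _ => P.r_comp _ _ _

/-- Derived global sections. -/
noncomputable def Γ (P : Psh U) : DG R := P.sys.lim

/-- The structure maps. -/
noncomputable def of (P : Psh U) (Φ : U.Fm) : DG.Hom (𝟙 R) (P.ctot (U.cv Φ)) P.Γ := P.sys.of Φ

variable {φ : R ⟶ R'} {P P₁ P₂ : Psh U} {P' P₁' P₂' : Psh U'} {P'' : Psh U''} {P₃ : Psh U₃}

theorem GGam_of (a : Site.Hom φ U U') (h : Hom φ a.w P P') {Φ : U.Fm} {Φ' Ψ' : U'.Fm}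
    (e : Set.MapsTo a.cov Φ.1 Φ'.1) (p : Φ' ≤ Ψ') (e' : Set.MapsTo a.cov Φ.1 Ψ'.1)
    (x : (P.ctot (U.cv Φ)).V) : (P'.of Φ').toFun ((h.ctot (a.cv e)).toFun x) =
      (P'.of Ψ').toFun ((h.ctot (a.cv e')).toFun x) :=
  (P'.sys.of_map p _).trans
    (congrArg (P'.of Ψ').toFun (ctot_ext fun _ _ => (h.r_g _ _ _ _).symm))

/-- Functoriality. -/
noncomputable def Hom.Γ (a : Site.Hom φ U U') (h : Hom φ a.w P P') : DG.Hom φ P.Γ P'.Γ :=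
  P.sys.lift (fun Φ => (h.ctot (a.cv (Φ' := a.fm Φ) (Set.mapsTo_image _ _))).comp (P'.of _)
    (Category.comp_id φ)) fun _ j e x =>
      (GGam_of a h (Ψ' := a.fm j) _ (Set.image_mono e) ((Set.mapsTo_image _ _).mono_left e) x).trans
        (congrArg (P'.of _).toFun (ctot_ext fun _ _ => h.g_r _ _ _ _))

theorem Hom.Γ_of (a : Site.Hom φ U U') (h : Hom φ a.w P P') {Φ : U.Fm} {Φ' : U'.Fm}
    (e : Set.MapsTo a.cov Φ.1 Φ'.1) : (P.of Φ).Sq (h.Γ a) (h.ctot (a.cv e)) (P'.of Φ') := fun x =>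
  (P.sys.lift_of _ _ Φ x).trans (GGam_of a h (Φ' := a.fm Φ) _ e.image_subset e x)

theorem Hom.Γ_id {φ : R ⟶ R} (a : Site.Hom φ U U) (h : Hom φ a.w P P) (e : ∀ x, a.w x = x)
    (e' : ∀ (S : Nes U.X) (p : Set.MapsTo a.w S.1 S.1), (h.g p).IsId) : (h.Γ a).IsId := by
  obtain ⟨w, lab⟩ := a
  obtain rfl : w = id := funext e
  intro y
  obtain ⟨Φ, x, rfl⟩ := P.sys.exists_of y
  exact (h.Γ_of ⟨id, lab⟩ (Φ' := Φ) (fun _ hc => hc) x).trans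
    (congrArg (P.of Φ).toFun (ctot_ext fun _ _ => e' _ _ _))

theorem Hom.Γ_tri {χ : R' ⟶ R''} {ρ : R ⟶ R''} (a : Site.Hom φ U U') (a' : Site.Hom χ U' U'')
    (a'' : Site.Hom ρ U U'') (h : Hom φ a.w P P') (h' : Hom χ a'.w P' P'')
    (h'' : Hom ρ a''.w P P'') (e : ∀ x, a''.w x = a'.w (a.w x))
    (e' : ∀ (S : Nes U.X) (S' : Nes U'.X) (S'' : Nes U''.X) (p : Set.MapsTo a.w S.1 S'.1)
      (p' : Set.MapsTo a'.w S'.1 S''.1)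
      (p'' : Set.MapsTo a''.w S.1 S''.1), (h''.g p'').Tri (h.g p) (h'.g p')) :
    (h''.Γ a'').Tri (h.Γ a) (h'.Γ a') := by
  obtain ⟨w, lab⟩ := a''
  obtain rfl : w = a'.w ∘ a.w := funext e
  intro y
  obtain ⟨Φ, x, rfl⟩ := P.sys.exists_of y
  refine (h''.Γ_of ⟨a'.w ∘ a.w, lab⟩ (Φ' := a'.fm (a.fm Φ))
    (fun c hc => ⟨_, ⟨c, hc, rfl⟩, rfl⟩) x).trans (Eq.trans (congrArg (P''.of _).toFun ?_)
      ((congrArg _ (h.Γ_of a (Φ' := a.fm Φ) (Set.mapsTo_image _ _) x)).trans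
        (h'.Γ_of a' (Φ' := a'.fm (a.fm Φ)) (Set.mapsTo_image _ _) _)).symm)
  exact ctot_ext fun _ _ => e' _ _ _ _ _ _ _

theorem Hom.Γ_sq {β : R' ⟶ R₃} {γ : R ⟶ R''} {δ : R'' ⟶ R₃} (a : Site.Hom φ U U')
    (b : Site.Hom β U' U₃) (c : Site.Hom γ U U'') (d : Site.Hom δ U'' U₃) (ha : Hom φ a.w P P')
    (hb : Hom β b.w P' P₃) (hc : Hom γ c.w P P'') (hd : Hom δ d.w P'' P₃)
    (e : ∀ x, b.w (a.w x) = d.w (c.w x))
    (e' : ∀ (S : Nes U.X) (S' : Nes U'.X) (S'' : Nes U''.X) (S₃ : Nes U₃.X)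
      (pa : Set.MapsTo a.w S.1 S'.1) (pb : Set.MapsTo b.w S'.1 S₃.1)
      (pc : Set.MapsTo c.w S.1 S''.1) (pd : Set.MapsTo d.w S''.1 S₃.1),
      (ha.g pa).Sq (hb.g pb) (hc.g pc) (hd.g pd)) :
    (ha.Γ a).Sq (hb.Γ b) (hc.Γ c) (hd.Γ d) := by
  intro y
  obtain ⟨Φ, x, rfl⟩ := P.sys.exists_of y
  have k0 : ∀ z : U.Cov, b.w ∘ a.w ∘ z.x = d.w ∘ c.w ∘ z.x := fun z => funext fun i => e _
  have k1 : ∀ (n : ℕ) (f g : Fin n → U₃.X) (_ : f = g) hf hg,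
      (⟨n, f, hf⟩ : U₃.Cov) = ⟨n, g, hg⟩ := by
    rintro n f _ rfl _ _
    rfl
  have ed : Set.MapsTo d.cov (c.fm Φ).1 (b.fm (a.fm Φ)).1 := by
    rintro _ ⟨z, hz, rfl⟩
    exact ⟨_, ⟨z, hz, rfl⟩, k1 _ _ _ (k0 z) _ _⟩
  have ea : Set.MapsTo a.cov Φ.1 (a.fm Φ).1 := Set.mapsTo_image _ _
  have eb : Set.MapsTo b.cov (a.fm Φ).1 (b.fm (a.fm Φ)).1 := Set.mapsTo_image _ _
  have ec : Set.MapsTo c.cov Φ.1 (c.fm Φ).1 := Set.mapsTo_image _ _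
  refine ((congrArg _ (ha.Γ_of a ea x)).trans (hb.Γ_of b eb _)).trans
    (Eq.trans (congrArg (P₃.of _).toFun (ctot_ext fun p τ => ?_))
      ((congrArg _ (hc.Γ_of c ec x)).trans (hd.Γ_of d ed _)).symm)
  have k2 : ∀ (t : (U₃.cv (b.fm (a.fm Φ))).I) (n : ℕ) (f g : Fin n → U₃.X) (_ : f = g) hf hg h1 h2,
      (t ⟨⟨n, f, hf⟩, h1⟩ : Fin n) = t ⟨⟨n, g, hg⟩, h2⟩ := by
    rintro t n f _ rfl _ _ _ _
    rfl
  have k3 : (a.cv ea).β ∘ (b.cv eb).β ∘ τ = (c.cv ec).β ∘ (d.cv ed).β ∘ τ :=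
    funext fun i => funext fun z => k2 (τ i) _ _ _ (k0 z.1) _ _ _ _
  have k4 : ∀ (σ : Fin (p + 1) → (U.cv Φ).I) (_ : (a.cv ea).β ∘ (b.cv eb).β ∘ τ = σ) q,
      (hb.g ((b.cv eb).un τ)).toFun ((ha.g ((a.cv ea).un _)).toFun (val x p _)) =
        (hd.g ((d.cv ed).un τ)).toFun ((hc.g q).toFun (val x p σ)) := by
    rintro _ rfl q
    exact e' _ _ _ _ _ _ _ _ _
  exact k4 _ k3 _

/-- The augmentation. -/
noncomputable def Aug.Γ {M : DG R} (a : Aug M P) : DG.Hom (𝟙 R) M P.Γ :=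
  (a.ctot _).comp (P.of (Classical.arbitrary _)) (Category.comp_id _)

theorem Aug.Γ_of {M : DG R} (a : Aug M P) (Φ : U.Fm) : a.Γ.Tri (a.ctot _) (P.of Φ) := fun x => by
  obtain ⟨Ψ, h1, h2⟩ := exists_ge_ge (Classical.arbitrary U.Fm) Φ
  have key : ∀ {Φ : U.Fm} (h : Φ ≤ Ψ), (P.of Φ).toFun ((a.ctot _).toFun x) =
      (P.of Ψ).toFun ((a.ctot _).toFun x) := fun h =>
    (P.sys.of_map h _).trans (congrArg (P.of Ψ).toFun (a.ctot_nat a (DG.Hom.id M) P.self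
      ((Site.Hom.id U).cv h) (fun _ _ e => a.a_r e) x).symm)
  exact (key h1).trans (key h2).symm

theorem Aug.Γ_nat {M : DG R} {M' : DG R'} (a : Aug M P) (a' : Aug M' P') (g : DG.Hom φ M M')
    (b : Site.Hom φ U U') (h : Hom φ b.w P P')
    (e : ∀ (S : Nes U.X) (S' : Nes U'.X) (e : Set.MapsTo b.w S.1 S'.1),
      g.Sq (a'.a S') (a.a S) (h.g e)) :
    g.Sq a'.Γ a.Γ (h.Γ b) := fun x => by
  obtain ⟨Φ⟩ : Nonempty U.Fm := inferInstance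
  have eb : Set.MapsTo b.cov Φ.1 (b.fm Φ).1 := Set.mapsTo_image _ _
  rw [a.Γ_of Φ x, h.Γ_of b eb, a'.Γ_of (b.fm Φ), a.ctot_nat a' g h (b.cv eb) e x]

/-- The pairing on global sections. -/
noncomputable def Pairing.Γ (m : Pairing P P₁ P₂) : DG.Pairing P.Γ P₁.Γ P₂.Γ :=
  DSys.pair (D := P.sys) (D₁ := P₁.sys) (D₂ := P₂.sys) (fun Φ => m.ctot (U.cv Φ))
    fun _ _ _ => m.ctot_compat m P.self P₁.self P₂.self _ fun _ _ e => m.m_r e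

theorem Pairing.Γ_of (m : Pairing P P₁ P₂) (Φ : U.Fm) :
    (m.ctot (U.cv Φ)).Compat m.Γ (P.of Φ) (P₁.of Φ) (P₂.of Φ) :=
  DSys.pair_of (D := P.sys) (D₁ := P₁.sys) (D₂ := P₂.sys) (fun Φ => m.ctot (U.cv Φ)) _ Φ

theorem Pairing.Γ_compat (m : Pairing P P₁ P₂) (m' : Pairing P' P₁' P₂') (a : Site.Hom φ U U')
    (h : Hom φ a.w P P') (h₁ : Hom φ a.w P₁ P₁') (h₂ : Hom φ a.w P₂ P₂')
    (e : ∀ (S : Nes U.X) (S' : Nes U'.X) (e : Set.MapsTo a.w S.1 S'.1),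
      (m.m S).Compat (m'.m S') (h.g e) (h₁.g e) (h₂.g e)) :
    m.Γ.Compat m'.Γ (h.Γ a) (h₁.Γ a) (h₂.Γ a) := fun x y => by
  obtain ⟨Φ, x, y, rfl, rfl⟩ := DSys.exists_of₂ (D := P.sys) (D₁ := P₁.sys) x y
  have ea : Set.MapsTo a.cov Φ.1 (a.fm Φ).1 := Set.mapsTo_image _ _
  refine (congrArg _ (m.Γ_of Φ x y).symm).trans ((h₂.Γ_of a ea _).trans
    ((congrArg _ (m.ctot_compat m' h h₁ h₂ (a.cv ea) e x y)).trans ((m'.Γ_of _ _ _).trans ?_)))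
  rw [← h.Γ_of a ea x, ← h₁.Γ_of a ea y]
  rfl

theorem QC.qi_of (hP : P.QC) (Φ : U.Fm) : (P.of Φ).QI :=
  DSys.qi_of (D := P.sys) (fun _ _ _ => hP.qi_ctot _) Φ

theorem GGam_tri {χ : R' ⟶ R''} {ρ : R ⟶ R''} {M : DG R} {M' : DG R'} {M'' : DG R''}
    {h : DG.Hom ρ M M''} {f : DG.Hom φ M M'} {g : DG.Hom χ M' M''} (e : h.Tri f g) (k : ℤ)
    (ξ : M.H k) : h.H k ξ = g.H k (f.H k ξ) :=
  (DG.H_comp f.cmap g.cmap h.cmap (fun x => (e x).symm) k ξ).symm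

theorem GGam_smul {M M' : DG R} (g : DG.Hom (𝟙 R) M M') {k : ℤ} (a : R.obj 0) (ξ : M.H k) :
    g.H k (a • ξ) = a • g.H k ξ := g.H_smul a ξ

theorem GGam_act {M M' : DG R} (g : DG.Hom (𝟙 R) M M') (k : ℤ) (ε : M.H 0)
    (a : (DG.unit R).H k) : g.H k (M.act k ε a) = M'.act k (g.H 0 ε) a :=
  (DFunLike.congr_fun (DG.Gen_act_map g k ε) a).symm

theorem GGam_surj (hP : P.QC) (Φ : U.Fm) {k : ℤ} (ξ : P.Γ.H k) : ∃ ζ, (P.of Φ).H k ζ = ξ :=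
  ((DG.Hom.qiso_iff _).1 (hP.qi_of Φ) k).2 ξ

theorem GGam_uniq (hP : P.QC) {c : Cv U} {k : ℤ} {ξ : (P.ctot c).H k} {S : Nes U.X}
    {η η' : (P.Q S).H k} (h : P.CRes c ξ η) (h' : P.CRes c ξ η') : η = η' :=
  hP.sep c fun i => (h i _ _ (S.le_un_right _)).trans (h' i _ _ (S.le_un_right _)).symm

theorem GGam_up {Φ Ψ : U.Fm} (e : Φ ≤ Ψ) {k : ℤ} {ξ : (P.ctot (U.cv Φ)).H k} {S : Nes U.X}
    {η : (P.Q S).H k} (h : P.CRes (U.cv Φ) ξ η) : P.CRes (U.cv Ψ) ((P.sys.map e).H k ξ) η := by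
  have h1 := CRes.ctot P.self ((Site.Hom.id U).cv e) h (S' := S) fun _ p => p
  have h2 : (P.r (le_refl S)).H k η = η := DG.H_id (P.r (le_refl S)).cmap (P.r_id S) k η
  rw [← h2]
  exact h1

theorem GGam_ex (hP : P.QC) (S : Nes U.X) {k : ℤ} (ξ : P.Γ.H k) : ∃ η : (P.Q S).H k,
    ∀ (Φ : U.Fm) (ζ : (P.ctot (U.cv Φ)).H k), (P.of Φ).H k ζ = ξ → P.CRes (U.cv Φ) ζ η := by
  obtain ⟨Φ₀⟩ : Nonempty U.Fm := inferInstance
  obtain ⟨ζ₀, rfl⟩ := GGam_surj hP Φ₀ ξ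
  obtain ⟨η₀, h₀⟩ := hP.glue _ (P.fit_cmp _ ζ₀) S
  refine ⟨η₀, fun Φ ζ e => ?_⟩
  obtain ⟨η, h⟩ := hP.glue _ (P.fit_cmp _ ζ) S
  obtain ⟨Ψ, h1, h2⟩ := exists_ge_ge Φ₀ Φ
  have h3 : (P.sys.map h2).H k ζ = (P.sys.map h1).H k ζ₀ :=
    ((DG.Hom.qiso_iff _).1 (hP.qi_of Ψ) k).1 ((GGam_tri (P.sys.of_map h2) k ζ).symm.trans
      (e.trans (GGam_tri (P.sys.of_map h1) k ζ₀)))
  have h4 := GGam_up h2 h
  rw [h3] at h4
  rw [GGam_uniq hP (GGam_up h1 h₀) h4]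
  exact h

/-- The restriction of a global class to an open set. -/
noncomputable def QC.ρ (hP : P.QC) (S : Nes U.X) (k : ℤ) : P.Γ.H k →+ (P.Q S).H k :=
  AddMonoidHom.mk' (fun ξ => (GGam_ex hP S ξ).choose) fun ξ ξ' => by
    obtain ⟨Φ⟩ : Nonempty U.Fm := inferInstance
    obtain ⟨ζ, rfl⟩ := GGam_surj hP Φ ξ
    obtain ⟨ζ', rfl⟩ := GGam_surj hP Φ ξ'
    refine GGam_uniq hP ((GGam_ex hP S _).choose_spec Φ (ζ + ζ') (map_add _ _ _)) ?_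
    intro i T h h'
    beta_reduce
    rw [map_add, map_add, map_add, (GGam_ex hP S _).choose_spec Φ ζ rfl i T h h',
      (GGam_ex hP S _).choose_spec Φ ζ' rfl i T h h']

theorem QC.ρ_iff (hP : P.QC) {S : Nes U.X} {k : ℤ} (Φ : U.Fm) (ξ : (P.ctot (U.cv Φ)).H k)
    (η : (P.Q S).H k) : hP.ρ S k ((P.of Φ).H k ξ) = η ↔ P.CRes (U.cv Φ) ξ η :=
  ⟨fun e => e ▸ (GGam_ex hP S _).choose_spec Φ ξ rfl,
    GGam_uniq hP ((GGam_ex hP S _).choose_spec Φ ξ rfl)⟩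

attribute [irreducible] QC.ρ

theorem QC.ρ_smul (hP : P.QC) (S : Nes U.X) (k : ℤ) (a : R.obj 0) (ξ : P.Γ.H k) :
    hP.ρ S k (a • ξ) = a • hP.ρ S k ξ := by
  obtain ⟨Φ⟩ : Nonempty U.Fm := inferInstance
  obtain ⟨ζ, rfl⟩ := GGam_surj hP Φ ξ
  rw [← GGam_smul, hP.ρ_iff]
  intro i T h h'
  beta_reduce
  rw [GGam_smul, GGam_smul, GGam_smul, (hP.ρ_iff Φ ζ _).1 rfl i T h h']

theorem QC.ρ_act (hP : P.QC) (S : Nes U.X) (k : ℤ) (ε : P.Γ.H 0) (a : (DG.unit R).H k) :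
    hP.ρ S k (P.Γ.act k ε a) = (P.Q S).act k (hP.ρ S 0 ε) a := by
  obtain ⟨Φ⟩ : Nonempty U.Fm := inferInstance
  obtain ⟨ζ, rfl⟩ := GGam_surj hP Φ ε
  rw [← GGam_act, hP.ρ_iff]
  intro i T h h'
  beta_reduce
  rw [GGam_act, GGam_act, GGam_act, (hP.ρ_iff Φ ζ _).1 rfl i T h h']

theorem QC.ρ_locIso (hP : P.QC) (S : Nes U.X) (k : ℤ) :
    LocIso (U.cl S) (RingHom.id _) (RingHom.id _) (hP.ρ S k) := by
  obtain ⟨Φ⟩ : Nonempty U.Fm := inferInstance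
  refine ⟨fun η => ?_, fun ξ h => ?_⟩
  · obtain ⟨s, hs, ξ, h1, h2⟩ := hP.res_surj (U.cv Φ) η
    obtain ⟨ζ, hζ⟩ := hP.exists_cmp h1
    refine ⟨s, hs, _, (hP.ρ_iff Φ ζ _).2 fun i T h h' => ?_⟩
    beta_reduce
    rw [hζ]
    exact h2 i T h h'
  · obtain ⟨ζ, rfl⟩ := GGam_surj hP Φ ξ
    obtain ⟨s, hs, h1⟩ := hP.res_inj (U.cv Φ) ((hP.ρ_iff Φ ζ _).1 h)
    have h2 : s • ζ = 0 := hP.cmp_ext fun i => by rw [GGam_smul, h1, map_zero]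
    exact ⟨s, hs, by rw [RingHom.id_apply, ← GGam_smul, h2, map_zero]⟩

theorem QC.ρ_Γ (hP : P.QC) (hP' : P'.QC) (a : Site.Hom φ U U') (h : Hom φ a.w P P')
    {S : Nes U.X} {S' : Nes U'.X} (e : Set.MapsTo a.w S.1 S'.1) (k : ℤ) (ξ : P.Γ.H k) :
    hP'.ρ S' k ((h.Γ a).H k ξ) = (h.g e).H k (hP.ρ S k ξ) := by
  obtain ⟨Φ⟩ : Nonempty U.Fm := inferInstance
  obtain ⟨ζ, rfl⟩ := GGam_surj hP Φ ξ
  have ea : Set.MapsTo a.cov Φ.1 (a.fm Φ).1 := Set.mapsTo_image _ _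
  have h1 : (h.Γ a).H k ((P.of Φ).H k ζ) = (P'.of (a.fm Φ)).H k ((h.ctot (a.cv ea)).H k ζ) :=
    DG.H_comm (P.of Φ).cmap (h.Γ a).cmap (h.ctot (a.cv ea)).cmap (P'.of _).cmap
      (h.Γ_of a ea) k ζ
  rw [h1, hP'.ρ_iff]
  exact CRes.ctot h _ ((hP.ρ_iff Φ ζ _).1 rfl) e

theorem QC.ρ_aug (hP : P.QC) {M : DG R} (a : Aug M P) (S : Nes U.X) (k : ℤ) (ξ : M.H k) :
    hP.ρ S k (a.Γ.H k ξ) = (a.a S).H k ξ := by
  obtain ⟨Φ⟩ : Nonempty U.Fm := inferInstance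
  rw [GGam_tri (a.Γ_of Φ), hP.ρ_iff]
  intro i T h h'
  have h1 : (a.a _).Tri (a.ctot (U.cv Φ)) (P.cmp (U.cv Φ) i) := fun _ => rfl
  beta_reduce
  rw [← GGam_tri h1, ← GGam_tri (a.a_r h), ← GGam_tri (a.a_r h')]

theorem QC.ρ_pair (hP : P.QC) (h₁ : P₁.QC) (h₂ : P₂.QC) (m : Pairing P P₁ P₂) (S : Nes U.X)
    (ξ : P.Γ.H 0) (η : P₁.Γ.H 0) :
    h₂.ρ S 0 (m.Γ.H0 ξ η) = (m.m S).H0 (hP.ρ S 0 ξ) (h₁.ρ S 0 η) := by
  obtain ⟨Φ⟩ : Nonempty U.Fm := inferInstance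
  obtain ⟨ζ, rfl⟩ := GGam_surj hP Φ ξ
  obtain ⟨ζ', rfl⟩ := GGam_surj h₁ Φ η
  rw [← (m.Γ_of Φ).H0, h₂.ρ_iff]
  intro i T h h'
  beta_reduce
  rw [(m.cmp_compat _ i).H0, (m.m_r h).H0, (m.m_r h').H0, (hP.ρ_iff Φ ζ _).1 rfl i T h h',
    (h₁.ρ_iff Φ ζ' _).1 rfl i T h h']

end Psh

end Pool.Agent.P.MP_932208_ag.Ax
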