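import Pool.Agent.P.MP_932208_ag.Ex.GGam

/-!
Local criteria for maps of derived global sections.
-/

namespace Pool.Agent.P.MP_932208_ag.Ax

open CategoryTheory

variable {R R' R'' E E' : SRing}

/-- A local isomorphism for `S` is one for `T` if every member of `S` divides a member of `T`. -/
theorem GLoc_dvd {K R₁ R₂ X Y : Type} [CommRing K] [CommRing R₁] [CommRing R₂] [AddCommGroup X]
    [AddCommGroup Y] [Module R₁ X] [Module R₂ Y] {S T : Submonoid K} {σ₁ : K →+* R₁}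
    {σ₂ : K →+* R₂} {g : X →+ Y} (l : Lin σ₁ σ₂ g) (h : LocIso S σ₁ σ₂ g)
    (e : ∀ s ∈ S, ∃ t ∈ T, s ∣ t) : LocIso T σ₁ σ₂ g := by
  refine ⟨fun y => ?_, fun x hx => ?_⟩
  · obtain ⟨s, hs, x, p⟩ := h.surj y
    obtain ⟨_, ht, c, rfl⟩ := e s hs
    exact ⟨_, ht, σ₁ c • x, by rw [l, p, mul_comm, map_mul, mul_smul]⟩
  · obtain ⟨s, hs, p⟩ := h.inj x hx
    obtain ⟨_, ht, c, rfl⟩ := e s hs
    exact ⟨_, ht, by rw [mul_comm, map_mul, mul_smul, p, smul_zero]⟩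

theorem GLoc_pow_dvd {K : Type} [CommRing K] {u f : K} (h : u ∣ f) :
    ∀ s ∈ Submonoid.powers u, ∃ t ∈ Submonoid.powers f, s ∣ t := by
  rintro _ ⟨n, rfl⟩
  exact ⟨f ^ n, ⟨n, rfl⟩, pow_dvd_pow_of_dvd h n⟩

/-- An ideal that contains the boundaries and a power of every member of a cover. -/
theorem GLoc_one_mem {U : Set (R.obj 0)} (hU : R.Covers U) (I : Ideal (R.obj 0))
    (hB : ∀ b ∈ R.bdry, b ∈ I) (h : ∀ u ∈ U, ∃ s ∈ Submonoid.powers u, s ∈ I) : (1 : R.obj 0) ∈ I := by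
  obtain ⟨s, hs, p⟩ := exists_mem_of_cover I ⊥ hU hB fun u hu =>
    let ⟨s, hs, p⟩ := h u hu; ⟨s, Submonoid.mem_sup_right hs, p⟩
  rwa [Submonoid.mem_bot.1 hs] at p

namespace DG

theorem GLoc_res_bij (ι : R ⟶ E) (L : DG E) (k : ℤ) : Function.Bijective ((resHom ι L).H k) :=
  (resHom ι L).qiso_iff.1 ((resHom ι L).qiso_of_bijective Function.bijective_id) k

theorem GLoc_pow_smul {a b : E.obj 0} (h : a - b ∈ E.bdry) {M : DG E} {k : ℤ} (n : ℕ)
    (ξ : M.H k) : a ^ n • ξ = b ^ n • ξ := by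
  induction n with
  | zero => rw [pow_zero, pow_zero]
  | succ n ih =>
    rw [pow_succ', pow_succ', mul_smul, mul_smul, ih, ← sub_eq_zero, ← sub_smul]
    exact bdry_smul_H h _

/-- Change of the element that is inverted, modulo boundaries. -/
theorem GLoc_gen_bdry {K K' : Type} [CommRing K] [CommRing K'] {σ : K →+* E.obj 0}
    {σ' : K' →+* E.obj 0} {f : K} {f' : K'} {c : E.obj 0} (e : σ f - c * σ' f' ∈ E.bdry)
    {M : DG E} {ε : M.H 0} (h : M.Gen (Submonoid.powers f') σ' ε) :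
    M.Gen (Submonoid.powers f) σ ε := by
  intro k
  refine ⟨fun y => ?_, fun x hx => ?_⟩
  · obtain ⟨_, ⟨n, rfl⟩, x, p⟩ := (h k).surj y
    refine ⟨f ^ n, ⟨n, rfl⟩, c ^ n • x, ?_⟩
    rw [act_smul_right, p, map_pow, map_pow, GLoc_pow_smul e, mul_pow, mul_smul]
  · obtain ⟨_, ⟨n, rfl⟩, p⟩ := (h k).inj x hx
    refine ⟨f ^ n, ⟨n, rfl⟩, ?_⟩
    rw [map_pow] at p
    rw [map_pow, GLoc_pow_smul e, mul_pow, mul_smul, p, smul_zero]

/-- A generator over a localisation is a generator of the restriction. -/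
theorem GLoc_gen_res {K : Type} [CommRing K] {S : Submonoid K} {σ : K →+* R.obj 0} {ι : R ⟶ E}
    (hι : (unitHom ι).LocH S σ) {L : DG E} {ε : (L.res ι).H 0}
    (h : L.Gen S ((ι.app 0).comp σ) ((resHom ι L).H 0 ε)) : (L.res ι).Gen S σ ε := by
  intro k
  refine LocIso.of_comp_right ((L.res ι).act_lin k ε σ) ((resHom ι L).H_lin k σ)
    (LocIso.of_bijective (GLoc_res_bij ι L k)) ?_
  have p : ((resHom ι L).H k).comp ((L.res ι).act k ε) =
      (L.act k ((resHom ι L).H 0 ε)).comp ((unitHom ι).H k) :=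
    AddMonoidHom.ext fun ρ => (resHom ι L).H_act k ε ρ
  rw [p]
  exact LocIso.comp ((unitHom ι).H_lin k σ) (L.act_lin k _ _) (hι k) (h k)

/-- The boundaries as an ideal. -/
def GLoc_B (E : SRing) : Ideal (E.obj 0) := annIdeal (RingHom.id _) (one E)

theorem GLoc_mem_B {b : E.obj 0} : b ∈ GLoc_B E ↔ b ∈ E.bdry := smul_one_eq_zero

theorem GLoc_H_one (ι : R ⟶ E) (a : R.obj 0) :
    (unitHom ι).H 0 (a • one R) = ι.app 0 a • one E := by
  rw [Hom.H_smul, unitHom_one]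

theorem GLoc_lift {ι : R ⟶ E} {u : R.obj 0}
    (h : (unitHom ι).LocH (Submonoid.powers u) (RingHom.id _)) (b : E.obj 0) :
    ∃ (n : ℕ) (a : R.obj 0), ι.app 0 a - ι.app 0 u ^ n * b ∈ GLoc_B E := by
  obtain ⟨_, ⟨n, rfl⟩, ρ, p⟩ := (h 0).surj (b • one E)
  obtain ⟨a, rfl⟩ := exists_smul_one ρ
  refine ⟨n, a, GLoc_mem_B.2 (smul_one_eq_zero.1 ?_)⟩
  rw [GLoc_H_one] at p
  rw [sub_smul, p, mul_smul, ← map_pow]
  exact sub_self _

end DG

namespace DG.Hom
variable {φ : R ⟶ R'} {M : DG R} {M' : DG R'} {M'' : DG R''}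

/-- `ε` generates `M` and its image generates `M'`, away from `f`. -/
def GenAt (g : Hom φ M M') (f : R.obj 0) : Prop :=
  ∃ ε : M.H 0, M.Gen (Submonoid.powers f) (RingHom.id _) ε ∧
    M'.Gen (Submonoid.powers f) (φ.app 0) (g.H 0 ε)

theorem lineBaseChange_iff (g : Hom φ M M') : g.LineBaseChange ↔ R.Covers {f | g.GenAt f} := by
  refine ⟨fun h => h.covers, fun h => SRing.Covers.mono h ?_⟩
  rintro f ⟨ε, h1, h2⟩
  obtain ⟨e, he, rfl⟩ := cls_surj ε
  refine ⟨⟨M.toSpan e he, M'.toSpan _ (g.cycle he), fun x => (g.map_smul x e).symm⟩,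
    ((M.toSpan e he).qisoAway_iff f).2 fun k => ?_,
    ((M'.toSpan _ (g.cycle he)).qisoAway_iff _).2 fun k => ?_⟩
  · rw [← act_toSpan]
    exact h1 k
  · rw [← act_toSpan, ← Submonoid.map_powers]
    exact (locIso_map_iff (φ.app 0) _).2 (h2 k)

theorem LineBaseChange.comp {χ : R' ⟶ R''} {ρ : R ⟶ R''} {g : Hom φ M M'} {g' : Hom χ M' M''}
    {g'' : Hom ρ M M''} (h : g.LineBaseChange) (h' : g'.LineBaseChange) (e : φ ≫ χ = ρ)
    (e' : g''.Tri g g') : g''.LineBaseChange := by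
  subst e
  refine (lineBaseChange_iff _).2 (SRing.Covers.mono h.covers ?_)
  rintro f ⟨ε, h1, h2⟩
  refine ⟨ε, h1, ?_⟩
  have p : g'.H 0 (g.H 0 ε) = g''.H 0 ε :=
    H_comp g.cmap g'.cmap g''.cmap (fun x => (e' x).symm) 0 ε
  rw [← p]
  exact h'.gen h2

theorem LineBaseChange.qi {M₁ : DG R} {g : Hom (𝟙 R) M M₁} (h : g.LineBaseChange) : g.QI := by
  refine g.qiso_iff.2 fun k => LocIso.bijective (σ₁ := RingHom.id _)
    (h.locIso k (LocIso.of_bijective ?_))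
  exact (unitHom (𝟙 R)).qiso_iff.1 ((unitHom (𝟙 R)).qiso_of_bijective Function.bijective_id) k

/-- `g` is a base change of line bundles over the open set `D(u)`. -/
def LineAway (g : Hom φ M M') (u : R.obj 0) : Prop :=
  ∃ n : ℕ, u ^ n ∈ Ideal.span ({f | u ∣ f ∧ g.GenAt f} ∪ R.bdry)

/-- Line bundles on the localisations `E`, `E'` at `u`, as modules over `R`, `R'`. -/
theorem LineBaseChange.lineAway {θ : E ⟶ E'} {L : DG E} {L' : DG E'} {g : Hom θ L L'}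
    (h : g.LineBaseChange) {ι : R ⟶ E} {ι' : R' ⟶ E'} (e : φ ≫ ι' = ι ≫ θ) {u : R.obj 0}
    (h₁ : (unitHom ι).LocH (Submonoid.powers u) (RingHom.id _))
    (h₂ : (unitHom ι').LocH (Submonoid.powers u) (φ.app 0)) : (g.resMap e).LineAway u := by
  have he : ∀ a, ι'.app 0 (φ.app 0 a) = θ.app 0 (ι.app 0 a) := fun a =>
    congrArg (fun f => SRing.Hom.app f 0 a) e
  have key : ∀ b ∈ Ideal.span ({f | g.GenAt f} ∪ E.bdry), ∃ n : ℕ,
      ∃ a ∈ Ideal.span ({f | u ∣ f ∧ (g.resMap e).GenAt f} ∪ R.bdry),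
        ι.app 0 a - ι.app 0 u ^ n * b ∈ GLoc_B E := by
    intro b hb
    induction hb using Submodule.span_induction with
    | mem b hb =>
      rcases hb with ⟨ε, h3, h4⟩ | hb
      · obtain ⟨n, a, p⟩ := GLoc_lift h₁ b
        have q : ι.app 0 (u * a) - ι.app 0 u ^ (n + 1) * b ∈ GLoc_B E := by
          have := (GLoc_B E).mul_mem_left (ι.app 0 u) p
          rwa [mul_sub, ← map_mul, ← mul_assoc, ← pow_succ'] at this
        refine ⟨n + 1, u * a, Ideal.subset_span (Or.inl ⟨dvd_mul_right u a, ?_⟩), q⟩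
        obtain ⟨ε, rfl⟩ := (GLoc_res_bij ι L 0).2 ε
        have d := GLoc_pow_dvd (dvd_mul_right u a)
        refine ⟨ε, GLoc_gen_res (fun k => GLoc_dvd ((unitHom ι).H_lin k _) (h₁ k) d)
          (GLoc_gen_bdry (σ' := RingHom.id _) (GLoc_mem_B.1 q) h3),
          GLoc_gen_res (fun k => GLoc_dvd ((unitHom ι').H_lin k _) (h₂ k) d) ?_⟩
        have r : (resHom ι' L').H 0 ((g.resMap e).H 0 ε) = g.H 0 ((resHom ι L).H 0 ε) :=
          H_comm (g.resMap e).cmap (resHom ι' L').cmap (resHom ι L).cmap g.cmap (fun _ => rfl) 0 ε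
        rw [r]
        refine GLoc_gen_bdry (c := θ.app 0 (ι.app 0 u ^ (n + 1))) ?_ h4
        rw [RingHom.comp_apply, he, ← map_mul, ← map_sub]
        exact SRing.map_bdry θ (GLoc_mem_B.1 q)
      · refine ⟨0, 0, zero_mem _, ?_⟩
        rw [map_zero, pow_zero, one_mul, zero_sub]
        exact neg_mem (GLoc_mem_B.2 hb)
    | zero => exact ⟨0, 0, zero_mem _, by simp⟩
    | add b b' _ _ ih ih' =>
      obtain ⟨n, a, ha, p⟩ := ih
      obtain ⟨n', a', ha', p'⟩ := ih'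
      refine ⟨n + n', u ^ n' * a + u ^ n * a',
        add_mem (Ideal.mul_mem_left _ _ ha) (Ideal.mul_mem_left _ _ ha'), ?_⟩
      have := add_mem ((GLoc_B E).mul_mem_left (ι.app 0 u ^ n') p)
        ((GLoc_B E).mul_mem_left (ι.app 0 u ^ n) p')
      convert this using 1
      simp only [map_add, map_mul, map_pow]
      ring
    | smul c b _ ih =>
      obtain ⟨n, a, ha, p⟩ := ih
      obtain ⟨n', a', p'⟩ := GLoc_lift h₁ c
      refine ⟨n + n', a' * a, Ideal.mul_mem_left _ _ ha, ?_⟩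
      have := add_mem ((GLoc_B E).mul_mem_left (ι.app 0 a') p)
        ((GLoc_B E).mul_mem_left (ι.app 0 u ^ n * b) p')
      convert this using 1
      simp only [map_mul, smul_eq_mul]
      ring
  obtain ⟨n, a, ha, p⟩ := key 1 ((Ideal.eq_top_iff_one _).1 ((lineBaseChange_iff g).1 h))
  obtain ⟨_, ⟨m, rfl⟩, q⟩ := (h₁ 0).inj ((a - u ^ n) • one R) (by
    rw [GLoc_H_one, smul_one_eq_zero, map_sub, map_pow]
    rw [mul_one] at p
    exact GLoc_mem_B.1 p)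
  rw [RingHom.id_apply, smul_smul, smul_one_eq_zero] at q
  refine ⟨m + n, ?_⟩
  have := sub_mem (Ideal.mul_mem_left _ (u ^ m) ha) (Ideal.subset_span (Or.inr q))
  convert this using 1
  ring

/-- A base change of line bundles along a further localisation is a localisation. -/
theorem LineBaseChange.locH_res {θ : E ⟶ E'} {L : DG E} {L' : DG E'} {g : Hom θ L L'}
    (h : g.LineBaseChange) {ι : R ⟶ E} {ι' : R ⟶ E'} (e : 𝟙 R ≫ ι' = ι ≫ θ)
    {T : Submonoid (R.obj 0)} (h₁ : (unitHom ι).LocH T (RingHom.id _))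
    (h₂ : (unitHom ι').LocH T (RingHom.id _)) : (g.resMap e).LocH T (RingHom.id _) := by
  have h3 : (unitHom θ).LocH T ((ι.app 0).comp (RingHom.id _)) :=
    LocH.tri_right (h := unitHom ι') (f := unitHom ι) (g := unitHom θ)
      (fun x => by
        change N.map ι' x = N.map θ (N.map ι x)
        rw [N.map_map, ← e, Category.id_comp])
      (by rw [← e, Category.id_comp]) rfl h₂ h₁
  have h4 : g.LocH T ((ι.app 0).comp (RingHom.id _)) := fun k => h.locIso k (h3 k)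
  have h5 : ((resHom ι L).comp g rfl).LocH T (RingHom.id _) :=
    LocH.tri (f := resHom ι L) (g := g) (fun _ => rfl) rfl rfl
      (fun k => LocIso.of_bijective (GLoc_res_bij ι L k)) h4
  exact LocH.tri_left (h := (resHom ι L).comp g rfl) (g := resHom ι' L') (fun _ => rfl) e rfl h5
    fun k => LocIso.of_bijective (GLoc_res_bij ι' L' k)

end DG.Hom

theorem DG.bij_smul_res (ι : R ⟶ E) (L : DG E) {s : R.obj 0} (h : IsUnit (ι.app 0 s)) (k : ℤ) :
    Function.Bijective fun ξ : (L.res ι).H k => s • ξ := by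
  obtain ⟨u, hu⟩ := h
  have h1 := DG.GLoc_res_bij ι L k
  have h2 : Function.Bijective fun η : L.H k => ι.app 0 s • η := by
    rw [← hu]
    exact MulAction.bijective u
  have h3 : ((DG.resHom ι L).H k ∘ fun ξ : (L.res ι).H k => s • ξ) =
      (fun η : L.H k => ι.app 0 s • η) ∘ (DG.resHom ι L).H k :=
    funext fun ξ => (DG.resHom ι L).H_smul s ξ
  rw [← h1.of_comp_iff', h3]
  exact h2.comp h1

namespace Psh
variable {U : Site R} {U' : Site R'} {φ : R ⟶ R'} {P P₁ P₂ : Psh U} {P' : Psh U'}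

theorem GLoc_ρ_lin (hP : P.QC) (S : Nes U.X) (k : ℤ) {K : Type} [CommRing K]
    (σ : K →+* R.obj 0) : Lin σ σ (hP.ρ S k) := fun a ξ => hP.ρ_smul S k (σ a) ξ

theorem GLoc_ρ_one (hP : P.QC) (x : U.X) (k : ℤ) :
    LocIso (Submonoid.powers (U.lab x)) (RingHom.id _) (RingHom.id _) (hP.ρ (Nes.one x) k) :=
  U.cl_one x ▸ hP.ρ_locIso (Nes.one x) k

theorem GLoc_gen_ρ (hP : P.QC) {S : Nes U.X} {K : Type} [CommRing K] {T : Submonoid K}
    {σ : K →+* R.obj 0} (hρ : ∀ k, LocIso T σ σ (hP.ρ S k)) {ε : P.Γ.H 0}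
    (h : (P.Q S).Gen T σ (hP.ρ S 0 ε)) : P.Γ.Gen T σ ε := by
  intro k
  refine LocIso.of_comp_right (P.Γ.act_lin k ε σ) (GLoc_ρ_lin hP S k σ) (hρ k) ?_
  have p : (hP.ρ S k).comp (P.Γ.act k ε) = (P.Q S).act k (hP.ρ S 0 ε) :=
    AddMonoidHom.ext fun a => hP.ρ_act S k ε a
  rw [p]
  exact h k

theorem GLoc_qi {M M' : DG R} (g : DG.Hom (𝟙 R) M M') (h : ∀ x k,
    LocIso (Submonoid.powers (U.lab x)) (RingHom.id _) (RingHom.id _) (g.H k)) : g.QI := by
  refine g.qiso_iff.2 fun k => LocIso.bijective (σ₁ := RingHom.id _) (σ₂ := RingHom.id _)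
    (LocIso.of_cover (fun a ξ => g.H_smul a ξ) U.cov (fun b hb x => DG.bdry_smul_H hb x)
      (fun b hb x => DG.bdry_smul_H hb x) ?_)
  rintro _ ⟨x, rfl⟩
  exact (h x k).mono le_sup_right

theorem Hom.line_Γ (hP : P.QC) (hP' : P'.QC) (a : Site.Hom φ U U') (h : Hom φ a.w P P')
    (l : ∀ x, (h.g (S := Nes.one x) (S' := Nes.one (a.w x))
      (Set.mapsTo_singleton.2 rfl)).LineAway (U.lab x)) : (h.Γ a).LineBaseChange := by
  refine (DG.Hom.lineBaseChange_iff _).2 ((Ideal.eq_top_iff_one _).2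
    (GLoc_one_mem U.cov _ (fun b hb => Ideal.subset_span (Or.inr hb)) ?_))
  rintro _ ⟨x, rfl⟩
  obtain ⟨n, hn⟩ := l x
  refine ⟨_, ⟨n, rfl⟩, Ideal.span_mono (Set.union_subset_union_left _ ?_) hn⟩
  rintro f ⟨hf, ε, h1, h2⟩
  have d := GLoc_pow_dvd hf
  obtain ⟨s, hs, ε₀, p⟩ := (GLoc_ρ_one hP x 0).surj ε
  obtain ⟨_, ht, c, rfl⟩ := d s hs
  rw [RingHom.id_apply] at p
  refine ⟨ε₀, GLoc_gen_ρ hP (fun k => GLoc_dvd (GLoc_ρ_lin hP _ k _) (GLoc_ρ_one hP x k) d)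
    (DG.Gen_of_dvd h1 ht (a := c) (by rw [p, RingHom.id_apply, mul_comm, mul_smul])),
    GLoc_gen_ρ hP' (S := Nes.one (a.w x)) (fun k => GLoc_dvd (GLoc_ρ_lin hP' _ k _) ?_ d)
      (DG.Gen_of_dvd h2 ht (a := φ.app 0 c) ?_)⟩
  · have q := GLoc_ρ_one hP' (a.w x) k
    rw [a.lab, ← Submonoid.map_powers] at q
    exact (locIso_map_iff (φ.app 0) _).1 q
  · rw [hP.ρ_Γ hP' a h (S := Nes.one x) (S' := Nes.one (a.w x)) (Set.mapsTo_singleton.2 rfl), p,
      DG.Hom.H_smul, mul_comm, map_mul, mul_smul]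

theorem Hom.qi_Γ (hP : P.QC) (h₁ : P₁.QC) (h : Hom (𝟙 R) id P P₁)
    (q : ∀ S, (h.g (S := S) (S' := S) fun _ p => p).QI) : (h.Γ (Site.Hom.id U)).QI := by
  refine GLoc_qi (U := U) _ fun x k => LocIso.of_comp_right (fun a ξ => DG.Hom.H_smul _ a ξ)
    (GLoc_ρ_lin h₁ _ k _) (GLoc_ρ_one h₁ x k) ?_
  have p : (h₁.ρ (Nes.one x) k).comp ((h.Γ (Site.Hom.id U)).H k) =
      ((h.g (S := Nes.one x) (S' := Nes.one x) fun _ p => p).H k).comp (hP.ρ (Nes.one x) k) :=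
    AddMonoidHom.ext fun ξ => hP.ρ_Γ h₁ (Site.Hom.id U) h (fun _ p => p) k ξ
  rw [p]
  exact LocIso.comp (GLoc_ρ_lin hP _ k _) (fun a ξ => DG.Hom.H_smul _ a ξ) (GLoc_ρ_one hP x k)
    (LocIso.of_bijective ((DG.Hom.qiso_iff _).1 (q _) k))

theorem Aug.qi_Γ (hP : P.QC) {M : DG R} (a : Aug M P)
    (q : ∀ S, (a.a S).LocH (U.cl S) (RingHom.id _)) : a.Γ.QI := by
  refine GLoc_qi (U := U) _ fun x k => LocIso.of_comp_right (fun a ξ => DG.Hom.H_smul _ a ξ)
    (GLoc_ρ_lin hP _ k _) (GLoc_ρ_one hP x k) ?_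
  have p : (hP.ρ (Nes.one x) k).comp (a.Γ.H k) = (a.a (Nes.one x)).H k :=
    AddMonoidHom.ext fun ξ => hP.ρ_aug a _ k ξ
  rw [p, ← U.cl_one]
  exact q _ k

theorem Pairing.onto_Γ (hP : P.QC) (h₁ : P₁.QC) (h₂ : P₂.QC) (m : Pairing P P₁ P₂)
    (o : ∀ S, (m.m S).OntoH0) : m.Γ.OntoH0 := by
  refine m.Γ.ontoH0_iff.2 fun ζ => ?_
  have hC : ∀ (a : R.obj 0), ∀ c ∈ AddSubgroup.closure {w | ∃ ξ η, w = m.Γ.H0 ξ η},
      a • c ∈ AddSubgroup.closure {w | ∃ ξ η, w = m.Γ.H0 ξ η} := by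
    intro a c hc
    induction hc using AddSubgroup.closure_induction with
    | mem c hc =>
      obtain ⟨ξ, η, rfl⟩ := hc
      exact AddSubgroup.subset_closure ⟨a • ξ, η, (m.Γ.H0_smul_left a ξ η).symm⟩
    | zero => rw [smul_zero]; exact zero_mem _
    | add c c' _ _ ih ih' => rw [smul_add]; exact add_mem ih ih'
    | neg c _ ih => rw [smul_neg]; exact neg_mem ih
  let I : Ideal (R.obj 0) :=
    { carrier := {a | a • ζ ∈ AddSubgroup.closure {w | ∃ ξ η, w = m.Γ.H0 ξ η}}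
      add_mem' := fun {a b} p q => by
        change (a + b) • ζ ∈ AddSubgroup.closure _
        rw [add_smul]; exact add_mem p q
      zero_mem' := by
        change (0 : R.obj 0) • ζ ∈ AddSubgroup.closure _
        rw [zero_smul]; exact zero_mem _
      smul_mem' := fun c a p => by
        change (c * a) • ζ ∈ AddSubgroup.closure _
        rw [mul_smul]; exact hC c _ p }
  have h1 : (1 : R.obj 0) • ζ ∈ AddSubgroup.closure {w | ∃ ξ η, w = m.Γ.H0 ξ η} := by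
    refine GLoc_one_mem U.cov I (fun b hb => ?_) ?_
    · change b • ζ ∈ AddSubgroup.closure _
      rw [DG.bdry_smul_H hb]; exact zero_mem _
    rintro _ ⟨x, rfl⟩
    have key : ∀ w ∈ AddSubgroup.closure {w | ∃ ξ η, w = (m.m (Nes.one x)).H0 ξ η},
        ∃ s ∈ Submonoid.powers (U.lab x),
          ∃ c ∈ AddSubgroup.closure {w | ∃ ξ η, w = m.Γ.H0 ξ η},
            h₂.ρ (Nes.one x) 0 c = s • w := by
      intro w hw
      induction hw using AddSubgroup.closure_induction with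
      | mem w hw =>
        obtain ⟨ξ, η, rfl⟩ := hw
        obtain ⟨s, hs, ξ₀, p⟩ := (GLoc_ρ_one hP x 0).surj ξ
        obtain ⟨t, ht, η₀, q⟩ := (GLoc_ρ_one h₁ x 0).surj η
        refine ⟨s * t, mul_mem hs ht, _, AddSubgroup.subset_closure ⟨ξ₀, η₀, rfl⟩, ?_⟩
        rw [hP.ρ_pair h₁ h₂, p, q, DG.Pairing.H0_smul_left, DG.Pairing.H0_smul_right, mul_smul]
        rfl
      | zero => exact ⟨1, one_mem _, 0, zero_mem _, by rw [map_zero, smul_zero]⟩
      | add w w' _ _ ih ih' =>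
        obtain ⟨s, hs, c, hc, p⟩ := ih
        obtain ⟨t, ht, c', hc', q⟩ := ih'
        refine ⟨s * t, mul_mem hs ht, t • c + s • c', add_mem (hC _ _ hc) (hC _ _ hc'), ?_⟩
        rw [map_add, h₂.ρ_smul, h₂.ρ_smul, p, q, smul_add, smul_smul, smul_smul, mul_comm t s]
      | neg w _ ih =>
        obtain ⟨s, hs, c, hc, p⟩ := ih
        exact ⟨s, hs, -c, neg_mem hc, by rw [map_neg, p, smul_neg]⟩
    obtain ⟨s, hs, c, hc, p⟩ := key _ ((m.m (Nes.one x)).ontoH0_iff.1 (o _) (h₂.ρ _ 0 ζ))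
    obtain ⟨t, ht, q⟩ := (GLoc_ρ_one h₂ x 0).inj (s • ζ - c) (by
      rw [map_sub, h₂.ρ_smul, p, sub_self])
    refine ⟨t * s, mul_mem ht hs, ?_⟩
    change (t * s) • ζ ∈ AddSubgroup.closure _
    rw [RingHom.id_apply, smul_sub, sub_eq_zero] at q
    rw [mul_smul, q]
    exact hC t c hc
  rwa [one_smul] at h1

end Psh

end Pool.Agent.P.MP_932208_ag.Ax
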