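import Pool.Agent.P.MP_932208_ag.Ex.GLocR

/-!
Localisation of dg modules at a set of vertices.
-/

namespace Pool.Agent.P.MP_932208_ag.Ax

open CategoryTheory SRing

variable {A B C D : SRing}

/-- Extension of a ring map to a localisation at a central submonoid. -/
theorem GLocM_ext_ring {K R R' T : Type} [CommRing K] [Ring R] [Ring R'] [Ring T] (ι : K →+* R)
    (τ : R →+* R') (ρ : R →+* T) (U : Submonoid K) (hc : ∀ c a, ι c * a = a * ι c)
    (hc' : ∀ c x, τ (ι c) * x = x * τ (ι c))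
    (hs : ∀ x, ∃ s ∈ U, ∃ a : R, τ a = τ (ι s) * x)
    (hi : ∀ a, τ a = 0 → ∃ s ∈ U, ι s * a = 0) (hu : ∀ s ∈ U, IsUnit (ρ (ι s))) :
    ∃ ρ' : R' →+* T, ∀ a, ρ' (τ a) = ρ a := by
  have cm : ∀ {X : Type} [Ring X] (κ : R →+* X) (s s' : K) (x : X),
      κ (ι s) * (κ (ι s') * x) = κ (ι (s * s')) * x := by
    intro X _ κ s s' x
    rw [← mul_assoc, ← map_mul, ← map_mul]
  have key : ∀ x, ∃ t : T, ∀ s ∈ U, ∀ a : R, τ a = τ (ι s) * x → ρ a = ρ (ι s) * t := by
    intro x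
    obtain ⟨s, hs, a, h⟩ := hs x
    obtain ⟨w, hw⟩ := hu s hs
    refine ⟨(w⁻¹ : Tˣ) * ρ a, fun s' hs' a' h' => ?_⟩
    obtain ⟨m, hm, e⟩ := hi (ι s * a' - ι s' * a) (by
      rw [map_sub, map_mul, map_mul, h, h', cm, cm, mul_comm s, sub_self])
    have h1 := congrArg ρ e
    rw [map_mul, map_zero, (hu m hm).mul_right_eq_zero, map_sub, map_mul, map_mul,
      sub_eq_zero] at h1
    refine (hu s hs).mul_left_cancel ?_
    rw [h1, cm, mul_comm s, ← cm, ← hw, Units.mul_inv_cancel_left]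
  choose t ht using key
  have uniq : ∀ x z, ∀ s ∈ U, ∀ a : R, τ a = τ (ι s) * x → ρ a = ρ (ι s) * z → t x = z :=
    fun x z s hs a h h' => (hu s hs).mul_left_cancel ((ht x s hs a h).symm.trans h')
  have comm : ∀ c x, ρ (ι c) * t x = t x * ρ (ι c) := by
    intro c x
    obtain ⟨s, hs, a, h⟩ := hs x
    have h1 : ρ (ι c) * ρ a = ρ a * ρ (ι c) := by rw [← map_mul, hc, map_mul]
    rw [ht x s hs a h, cm, mul_comm c, ← cm, mul_assoc] at h1
    exact (hu s hs).mul_left_cancel h1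
  have base : ∀ a, t (τ a) = ρ a := fun a => uniq _ _ 1 U.one_mem a (by simp) (by simp)
  refine ⟨⟨⟨⟨t, ?_⟩, fun x y => ?_⟩, ?_, fun x y => ?_⟩, base⟩
  · simpa using base 1
  · obtain ⟨s, hs₁, a, h⟩ := hs x
    obtain ⟨s', hs₂, b, h'⟩ := hs y
    refine uniq _ _ (s * s') (U.mul_mem hs₁ hs₂) (a * b) ?_ ?_
    · rw [map_mul τ, h, h', ← cm, mul_assoc, ← mul_assoc x, ← hc', mul_assoc]
    · rw [map_mul ρ, ht x s hs₁ a h, ht y s' hs₂ b h', ← cm, mul_assoc, ← mul_assoc (t x),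
        ← comm, mul_assoc]
  · simpa using base 0
  · obtain ⟨s, hs₁, a, h⟩ := hs x
    obtain ⟨s', hs₂, b, h'⟩ := hs y
    refine uniq _ _ (s * s') (U.mul_mem hs₁ hs₂) (ι s' * a + ι s * b) ?_ ?_
    · rw [map_add, map_mul τ, map_mul τ, h, h', cm, cm, mul_comm s', mul_add]
    · rw [map_add, map_mul ρ, map_mul ρ, ht x s hs₁ a h, ht y s' hs₂ b h', cm, cm, mul_comm s',
        mul_add]

theorem GLocM_csurj {φ : A ⟶ B} {M : DG A} {M' : DG B} {g : DG.Hom φ M M'}
    {T : Submonoid (A.obj 0)} (h : g.LocC T (RingHom.id _)) (y : M'.V) :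
    ∃ s ∈ T, ∃ x, g.toFun x = N.inc (φ.app 0 s) • y := h.surj y

theorem GLocM_cinj {φ : A ⟶ B} {M : DG A} {M' : DG B} {g : DG.Hom φ M M'}
    {T : Submonoid (A.obj 0)} (h : g.LocC T (RingHom.id _)) (x : M.V) (e : g.toFun x = 0) :
    ∃ s ∈ T, N.inc s • x = 0 := h.inj x e

theorem GLocM_cmk {φ : A ⟶ B} {M : DG A} {M' : DG B} {g : DG.Hom φ M M'}
    {T : Submonoid (A.obj 0)} (h : ∀ y, ∃ s ∈ T, ∃ x, g.toFun x = N.inc (φ.app 0 s) • y)
    (h' : ∀ x, g.toFun x = 0 → ∃ s ∈ T, N.inc s • x = 0) : g.LocC T (RingHom.id _) := ⟨h, h'⟩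

theorem GLocM_Nsurj (S : Set (A.obj 0)) (x : N (A.locS S)) : ∃ s ∈ Submonoid.closure S,
    ∃ a : N A, N.map (A.toLocS S) a = N.inc ((A.toLocS S).app 0 s) * x :=
  GLocM_csurj (SRing.locC_toLocS A S) x

theorem GLocM_Ninj (S : Set (A.obj 0)) (a : N A) (h : N.map (A.toLocS S) a = 0) :
    ∃ s ∈ Submonoid.closure S, N.inc s * a = 0 :=
  GLocM_cinj (SRing.locC_toLocS A S) a h

/-- The underlying module of the localisation. -/
def GLocM_V (E : DG A) (S : Set (A.obj 0)) : Type := LocalizedModule (Submonoid.closure S) E.V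

noncomputable instance GLocM_grp (E : DG A) (S : Set (A.obj 0)) : AddCommGroup (GLocM_V E S) :=
  inferInstanceAs (AddCommGroup (LocalizedModule (Submonoid.closure S) E.V))

noncomputable instance GLocM_mod0 (E : DG A) (S : Set (A.obj 0)) :
    Module (A.obj 0) (GLocM_V E S) :=
  inferInstanceAs (Module (A.obj 0) (LocalizedModule (Submonoid.closure S) E.V))

/-- The map to the localisation. -/
noncomputable def GLocM_mk (E : DG A) (S : Set (A.obj 0)) : E.V →ₗ[A.obj 0] GLocM_V E S :=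
  LocalizedModule.mkLinearMap (Submonoid.closure S) E.V

instance GLocM_isLoc (E : DG A) (S : Set (A.obj 0)) :
    IsLocalizedModule (Submonoid.closure S) (GLocM_mk E S) :=
  inferInstanceAs (IsLocalizedModule (Submonoid.closure S)
    (LocalizedModule.mkLinearMap (Submonoid.closure S) E.V))

section
variable {E : DG A} {S : Set (A.obj 0)}

/-- Localisation of a linear map. -/
noncomputable def GLocM_map (S : Set (A.obj 0)) (g : E.V →ₗ[A.obj 0] E.V) :
    GLocM_V E S →ₗ[A.obj 0] GLocM_V E S :=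
  IsLocalizedModule.map (Submonoid.closure S) (GLocM_mk E S) (GLocM_mk E S) g

theorem GLocM_map_mk (g : E.V →ₗ[A.obj 0] E.V) (m : E.V) :
    GLocM_map S g (GLocM_mk E S m) = GLocM_mk E S (g m) :=
  IsLocalizedModule.map_apply _ _ _ _ _

theorem GLocM_surj (v : GLocM_V E S) :
    ∃ s ∈ Submonoid.closure S, ∃ m : E.V, s • v = GLocM_mk E S m := by
  obtain ⟨⟨m, s, hs⟩, h⟩ := IsLocalizedModule.surj (Submonoid.closure S) (GLocM_mk E S) v
  exact ⟨s, hs, m, h⟩

theorem GLocM_inj {m : E.V} (h : GLocM_mk E S m = 0) :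
    ∃ s ∈ Submonoid.closure S, s • m = 0 := by
  obtain ⟨⟨s, hs⟩, h⟩ := (IsLocalizedModule.eq_zero_iff (Submonoid.closure S) _).1 h
  exact ⟨s, hs, h⟩

theorem GLocM_cancel {s : A.obj 0} (hs : s ∈ Submonoid.closure S) {v w : GLocM_V E S}
    (h : s • v = s • w) : v = w :=
  IsLocalizedModule.smul_injective (GLocM_mk E S) (⟨s, hs⟩ : Submonoid.closure S) h

theorem GLocM_eq (g g' : GLocM_V E S →ₗ[A.obj 0] GLocM_V E S)
    (h : ∀ m, g (GLocM_mk E S m) = g' (GLocM_mk E S m)) (v : GLocM_V E S) : g v = g' v := by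
  obtain ⟨s, hs, m, e⟩ := GLocM_surj v
  exact GLocM_cancel hs (by rw [← map_smul, ← map_smul, e, h])

/-- An additive map that commutes with the vertices is linear over them. -/
def GLocM_lin (g : E.V →+ E.V) (hg : ∀ (a : A.obj 0) x, g (N.inc a • x) = N.inc a • g x) :
    E.V →ₗ[A.obj 0] E.V := ⟨g, hg⟩

/-- Multiplication by a chain. -/
def GLocM_sm (E : DG A) (a : N A) : E.V →ₗ[A.obj 0] E.V :=
  GLocM_lin (DistribSMul.toAddMonoidHom E.V a) fun c x => by
    change a • N.inc c • x = N.inc c • a • x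
    rw [smul_smul, smul_smul, N.inc_comm]

/-- The differential. -/
def GLocM_d (E : DG A) : E.V →ₗ[A.obj 0] E.V := GLocM_lin E.d E.d_inc_smul

/-- The projections. -/
noncomputable def GLocM_pr (E : DG A) (k : ℤ) : E.V →ₗ[A.obj 0] E.V :=
  GLocM_lin (E.proj k) fun a x => by
    have := DG.proj_comm (M := E) (M' := E) (DistribSMul.toAddMonoidHom E.V (N.inc a)) 0
      (fun k x h => by simpa using E.inc_smul_mem a h) k x
    rw [add_zero] at this
    exact this.symm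

/-- The action of `N A` on the localisation. -/
noncomputable def GLocM_rho (E : DG A) (S : Set (A.obj 0)) :
    N A →+* Module.End (A.obj 0) (GLocM_V E S) where
  toFun a := GLocM_map S (GLocM_sm E a)
  map_one' := LinearMap.ext (GLocM_eq _ _ fun m => by
    rw [GLocM_map_mk]
    exact congrArg (GLocM_mk E S) (one_smul _ m))
  map_mul' a b := LinearMap.ext (GLocM_eq _ _ fun m => by
    rw [Module.End.mul_apply, GLocM_map_mk, GLocM_map_mk, GLocM_map_mk]
    exact congrArg (GLocM_mk E S) (mul_smul a b m))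
  map_zero' := LinearMap.ext (GLocM_eq _ _ fun m => by
    rw [GLocM_map_mk, LinearMap.zero_apply, ← map_zero (GLocM_mk E S)]
    exact congrArg (GLocM_mk E S) (zero_smul _ m))
  map_add' a b := LinearMap.ext (GLocM_eq _ _ fun m => by
    rw [LinearMap.add_apply, GLocM_map_mk, GLocM_map_mk, GLocM_map_mk, ← map_add]
    exact congrArg (GLocM_mk E S) (add_smul a b m))

theorem GLocM_rho_mk (a : N A) (m : E.V) :
    GLocM_rho E S a (GLocM_mk E S m) = GLocM_mk E S (a • m) := GLocM_map_mk _ _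

theorem GLocM_rho_inc (c : A.obj 0) :
    GLocM_rho E S (N.inc c) = algebraMap (A.obj 0) (Module.End (A.obj 0) (GLocM_V E S)) c :=
  LinearMap.ext (GLocM_eq _ _ fun m => by
    rw [GLocM_rho_mk, Module.algebraMap_end_apply, ← map_smul]; rfl)

theorem GLocM_exists (E : DG A) (S : Set (A.obj 0)) :
    ∃ ρ' : N (A.locS S) →+* Module.End (A.obj 0) (GLocM_V E S),
      ∀ a, ρ' (N.map (A.toLocS S) a) = GLocM_rho E S a := by
  refine GLocM_ext_ring N.inc (N.map (A.toLocS S)) (GLocM_rho E S) (Submonoid.closure S)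
    N.inc_comm ?_ ?_ (GLocM_Ninj S) ?_
  · intro c x
    rw [N.map_inc, N.inc_comm]
  · intro x
    obtain ⟨s, hs, a, h⟩ := GLocM_Nsurj S x
    exact ⟨s, hs, a, by rw [h, N.map_inc]⟩
  · intro s hs
    rw [GLocM_rho_inc]
    exact IsLocalizedModule.map_units (GLocM_mk E S) (⟨s, hs⟩ : Submonoid.closure S)

/-- The action of the chains of the localised ring on the localisation. -/
noncomputable def GLocM_rho' (E : DG A) (S : Set (A.obj 0)) :
    N (A.locS S) →+* Module.End (A.obj 0) (GLocM_V E S) := (GLocM_exists E S).choose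

noncomputable instance GLocM_mod (E : DG A) (S : Set (A.obj 0)) :
    Module (N (A.locS S)) (GLocM_V E S) :=
  Module.compHom (GLocM_V E S) (GLocM_rho' E S)

theorem GLocM_smul_def (x : N (A.locS S)) (v : GLocM_V E S) : x • v = GLocM_rho' E S x v := rfl

theorem GLocM_map_smul (a : N A) (v : GLocM_V E S) :
    N.map (A.toLocS S) a • v = GLocM_rho E S a v := by
  rw [GLocM_smul_def, GLocM_rho', (GLocM_exists E S).choose_spec]

theorem GLocM_smul_mk (a : N A) (m : E.V) :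
    N.map (A.toLocS S) a • GLocM_mk E S m = GLocM_mk E S (a • m) := by
  rw [GLocM_map_smul, GLocM_rho_mk]

theorem GLocM_inc_smul (c : A.obj 0) (v : GLocM_V E S) :
    N.inc ((A.toLocS S).app 0 c) • v = c • v := by
  rw [← N.map_inc, GLocM_map_smul, GLocM_rho_inc, Module.algebraMap_end_apply]

theorem GLocM_s_smul (s : A.obj 0) (x : N (A.locS S)) (v : GLocM_V E S) :
    s • x • v = (N.inc ((A.toLocS S).app 0 s) * x) • v := by
  rw [mul_smul, GLocM_inc_smul]

theorem GLocM_pr_mk (k : ℤ) (m : E.V) :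
    GLocM_map S (GLocM_pr E k) (GLocM_mk E S m) = GLocM_mk E S (E.proj k m) := GLocM_map_mk _ _

theorem GLocM_d_mk (m : E.V) :
    GLocM_map S (GLocM_d E) (GLocM_mk E S m) = GLocM_mk E S (E.d m) := GLocM_map_mk _ _

/-- The grading of the localisation. -/
noncomputable def GLocM_gr (E : DG A) (S : Set (A.obj 0)) (k : ℤ) : AddSubgroup (GLocM_V E S) :=
  (GLocM_map S (GLocM_pr E k)).toAddMonoidHom.eqLocus (AddMonoidHom.id _)

theorem GLocM_mem_gr {k : ℤ} {v : GLocM_V E S} :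
    v ∈ GLocM_gr E S k ↔ GLocM_map S (GLocM_pr E k) v = v := Iff.rfl

theorem GLocM_mk_mem {k : ℤ} {m : E.V} (h : m ∈ E.gr k) : GLocM_mk E S m ∈ GLocM_gr E S k := by
  rw [GLocM_mem_gr, GLocM_pr_mk, E.proj_of_mem h]

theorem GLocM_mem_of_smul {k : ℤ} {v : GLocM_V E S} {s : A.obj 0} (hs : s ∈ Submonoid.closure S)
    (h : s • v ∈ GLocM_gr E S k) : v ∈ GLocM_gr E S k := by
  rw [GLocM_mem_gr, map_smul] at h
  exact GLocM_cancel hs h

theorem GLocM_surj_gr {k : ℤ} {v : GLocM_V E S} (h : v ∈ GLocM_gr E S k) :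
    ∃ s ∈ Submonoid.closure S, ∃ m : E.V, m ∈ E.gr k ∧ s • v = GLocM_mk E S m := by
  obtain ⟨s, hs, m, e⟩ := GLocM_surj v
  refine ⟨s, hs, E.proj k m, E.proj_mem k m, ?_⟩
  rw [← GLocM_pr_mk, ← e, map_smul, GLocM_mem_gr.1 h]

theorem GLocM_internal (E : DG A) (S : Set (A.obj 0)) : DirectSum.IsInternal (GLocM_gr E S) := by
  refine internal_of_proj _ (fun k => (GLocM_map S (GLocM_pr E k)).toAddMonoidHom)
    (fun k v => ?_) (fun k v h => h) (fun k l v h e => ?_) fun v => ?_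
  · obtain ⟨s, hs, m, e⟩ := GLocM_surj v
    refine GLocM_mem_of_smul hs ?_
    rw [LinearMap.toAddMonoidHom_coe, ← map_smul, e, GLocM_pr_mk]
    exact GLocM_mk_mem (E.proj_mem k m)
  · obtain ⟨s, hs, m, hm, e'⟩ := GLocM_surj_gr h
    refine GLocM_cancel hs ?_
    rw [LinearMap.toAddMonoidHom_coe, ← map_smul, e', GLocM_pr_mk, E.proj_of_ne hm e, map_zero,
      smul_zero]
  · obtain ⟨s, hs, m, e⟩ := GLocM_surj v
    obtain ⟨T, -, hT⟩ := E.exists_sum_proj m
    refine ⟨T, GLocM_cancel hs ?_⟩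
    rw [Finset.smul_sum, e, ← hT, map_sum]
    refine Finset.sum_congr rfl fun k _ => ?_
    rw [LinearMap.toAddMonoidHom_coe, ← map_smul, e, GLocM_pr_mk]

theorem GLocM_surj_deg {k : ℤ} {x : N (A.locS S)} (h : x ∈ N.deg (A.locS S) k) :
    ∃ s ∈ Submonoid.closure S, ∃ a : N A, a ∈ N.deg A k ∧
      N.map (A.toLocS S) a = N.inc ((A.toLocS S).app 0 s) * x := by
  obtain ⟨s, hs, a, e⟩ := GLocM_Nsurj S x
  refine ⟨s, hs, (DG.unit A).proj k a, (DG.unit A).proj_mem k a, ?_⟩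
  have h1 := (DG.unitHom (A.toLocS S)).map_proj k a
  have h2 := (DG.unit (A.locS S)).proj_of_mem
    ((DG.unit (A.locS S)).inc_smul_mem ((A.toLocS S).app 0 s) h)
  exact h1.trans ((congrArg ((DG.unit (A.locS S)).proj k) e).trans h2)

theorem GLocM_smul_mem {n k : ℤ} {x : N (A.locS S)} {v : GLocM_V E S}
    (hx : x ∈ N.deg (A.locS S) n) (hv : v ∈ GLocM_gr E S k) :
    x • v ∈ GLocM_gr E S (n + k) := by
  obtain ⟨i, hi, a, ha, e⟩ := GLocM_surj_deg hx
  obtain ⟨j, hj, m, hm, e'⟩ := GLocM_surj_gr hv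
  refine GLocM_mem_of_smul hi (GLocM_mem_of_smul hj ?_)
  rw [GLocM_s_smul, ← e, GLocM_map_smul, ← map_smul, e', GLocM_rho_mk]
  exact GLocM_mk_mem (E.smul_mem ha hm)

theorem GLocM_d_mem {k : ℤ} {v : GLocM_V E S} (hv : v ∈ GLocM_gr E S (k + 1)) :
    GLocM_map S (GLocM_d E) v ∈ GLocM_gr E S k := by
  obtain ⟨j, hj, m, hm, e'⟩ := GLocM_surj_gr hv
  refine GLocM_mem_of_smul hj ?_
  rw [← map_smul, e', GLocM_d_mk]
  exact GLocM_mk_mem (E.d_mem hm)

theorem GLocM_d_d (v : GLocM_V E S) :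
    GLocM_map S (GLocM_d E) (GLocM_map S (GLocM_d E) v) = 0 := by
  obtain ⟨j, hj, m, e⟩ := GLocM_surj v
  refine GLocM_cancel hj ?_
  rw [← map_smul, ← map_smul, e, GLocM_d_mk, GLocM_d_mk, E.d_d, map_zero, smul_zero]

theorem GLocM_d_smul (x : N (A.locS S)) (v : GLocM_V E S) :
    GLocM_map S (GLocM_d E) (x • v) = N.bd x • v + N.sg x • GLocM_map S (GLocM_d E) v := by
  obtain ⟨i, hi, a, e⟩ := GLocM_Nsurj S x
  obtain ⟨j, hj, m, e'⟩ := GLocM_surj v
  have h1 : N.inc ((A.toLocS S).app 0 i) * N.bd x = N.map (A.toLocS S) (N.bd a) := by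
    rw [N.map_bd, e, N.bd_mul, N.bd_inc, N.sg_inc, zero_mul, zero_add]
  have h2 : N.inc ((A.toLocS S).app 0 i) * N.sg x = N.map (A.toLocS S) (N.sg a) := by
    rw [N.map_sg, e, map_mul, N.sg_inc]
  refine GLocM_cancel hi (GLocM_cancel hj ?_)
  rw [← map_smul, smul_add, GLocM_s_smul, GLocM_s_smul, GLocM_s_smul, h1, h2, ← e,
    GLocM_map_smul, GLocM_map_smul, GLocM_map_smul, smul_add, ← map_smul, ← map_smul, ← map_smul,
    ← map_smul, ← map_smul, e', GLocM_d_mk, GLocM_rho_mk, GLocM_rho_mk, GLocM_rho_mk, GLocM_d_mk,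
    E.d_smul, map_add]

end

/-- The localised dg module. -/
@[reducible] noncomputable def GLocM_loc (E : DG A) (S : Set (A.obj 0)) : DG (A.locS S) where
  V := GLocM_V E S
  gr := GLocM_gr E S
  internal := GLocM_internal E S
  d := (GLocM_map S (GLocM_d E)).toAddMonoidHom
  smul_mem := GLocM_smul_mem
  d_mem := GLocM_d_mem
  d_d := GLocM_d_d
  d_smul := GLocM_d_smul

/-- The map to the localised dg module. -/
noncomputable def GLocM_toLoc (E : DG A) (S : Set (A.obj 0)) :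
    DG.Hom (A.toLocS S) E (GLocM_loc E S) where
  toFun := (GLocM_mk E S).toAddMonoidHom
  map_smul a x := (GLocM_smul_mk a x).symm
  map_gr := GLocM_mk_mem
  map_d x := (GLocM_d_mk x).symm

theorem GLocM_locC (E : DG A) (S : Set (A.obj 0)) :
    (GLocM_toLoc E S).LocC (Submonoid.closure S) (RingHom.id _) := by
  refine GLocM_cmk (fun v => ?_) fun m hm => GLocM_inj hm
  obtain ⟨s, hs, m, e⟩ := GLocM_surj (E := E) (S := S) v
  exact ⟨s, hs, m, e.symm.trans (GLocM_inc_smul _ _).symm⟩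

theorem GLocM_inc_inc (W : DG A) (c c' : A.obj 0) (y : W.V) :
    N.inc c • N.inc c' • y = N.inc (c * c') • y := by
  rw [map_mul, mul_smul]

theorem GLocM_inc_swap (W : DG A) (c : A.obj 0) (a : N A) (y : W.V) :
    a • N.inc c • y = N.inc c • a • y := by
  rw [smul_smul, smul_smul, N.inc_comm]

theorem GLocM_unit_cancel (W : DG A) {c : A.obj 0} (hc : IsUnit c) {y z : W.V}
    (h : N.inc c • y = N.inc c • z) : y = z := by
  obtain ⟨v, hv⟩ := hc.exists_left_inv
  have := congrArg (fun w => N.inc v • w) h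
  simpa only [GLocM_inc_inc, hv, map_one, one_smul] using this

theorem GLocM_unit_zero (W : DG A) {c : A.obj 0} (hc : IsUnit c) {y : W.V}
    (h : N.inc c • y = 0) : y = 0 :=
  GLocM_unit_cancel W hc (h.trans (smul_zero _).symm)

/-- The universal property of a localisation. -/
theorem GLocM_lift {α : A ⟶ B} {γ : B ⟶ C} {β : A ⟶ C} (e : α ≫ γ = β) {M : DG A} {W : DG B}
    {W' : DG C} {T : Submonoid (A.obj 0)} (t : DG.Hom α M W) (ht : t.LocC T (RingHom.id _))
    (hr : (DG.unitHom α).LocC T (RingHom.id _)) (b : DG.Hom β M W')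
    (hu : ∀ s ∈ T, IsUnit (β.app 0 s)) :
    ∃ c : DG.Hom γ W W', ∀ x, c.toFun (t.toFun x) = b.toFun x := by
  have hs : ∀ y, ∃ s ∈ T, ∃ x, t.toFun x = N.inc (α.app 0 s) • y := ht.surj
  have hi : ∀ x, t.toFun x = 0 → ∃ s ∈ T, N.inc s • x = 0 := ht.inj
  have hN : ∀ a : N B, ∃ s ∈ T, ∃ a₀ : N A, N.map α a₀ = N.inc (α.app 0 s) * a :=
    GLocM_csurj hr
  have key : ∀ y, ∃ z : W'.V, ∀ s ∈ T, ∀ x, t.toFun x = N.inc (α.app 0 s) • y →
      b.toFun x = N.inc (β.app 0 s) • z := by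
    intro y
    obtain ⟨s, hs, x, h⟩ := hs y
    obtain ⟨v, hv⟩ := (hu s hs).exists_right_inv
    refine ⟨N.inc v • b.toFun x, fun s' hs' x' h' => ?_⟩
    obtain ⟨m, hm, e'⟩ := hi (N.inc s • x' - N.inc s' • x) (by
      rw [map_sub, t.map_smul0, t.map_smul0, h, h', GLocM_inc_inc, GLocM_inc_inc, mul_comm,
        sub_self])
    have h1 := congrArg b.toFun e'
    rw [b.map_smul0, map_zero] at h1
    have h2 := GLocM_unit_zero W' (hu m hm) h1
    rw [map_sub, b.map_smul0, b.map_smul0, sub_eq_zero] at h2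
    refine GLocM_unit_cancel W' (hu s hs) ?_
    rw [h2, GLocM_inc_inc, GLocM_inc_inc, mul_comm (β.app 0 s), mul_assoc, hv, mul_one]
  choose c hc using key
  have uniq : ∀ y z, ∀ s ∈ T, ∀ x, t.toFun x = N.inc (α.app 0 s) • y →
      b.toFun x = N.inc (β.app 0 s) • z → c y = z :=
    fun y z s hs x h h' => GLocM_unit_cancel W' (hu s hs) ((hc y s hs x h).symm.trans h')
  have base : ∀ x, c (t.toFun x) = b.toFun x := fun x =>
    uniq _ _ 1 T.one_mem x (by simp) (by simp)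
  have hadd : ∀ y y', c (y + y') = c y + c y' := by
    intro y y'
    obtain ⟨s, hs₁, x, h⟩ := hs y
    obtain ⟨s', hs₂, x', h'⟩ := hs y'
    refine uniq _ _ (s * s') (T.mul_mem hs₁ hs₂) (N.inc s' • x + N.inc s • x') ?_ ?_
    · rw [map_add, t.map_smul0, t.map_smul0, h, h', GLocM_inc_inc, GLocM_inc_inc, smul_add,
        map_mul (α.app 0), mul_comm (α.app 0 s')]
    · rw [map_add, b.map_smul0, b.map_smul0, hc y s hs₁ x h, hc y' s' hs₂ x' h', GLocM_inc_inc,
        GLocM_inc_inc, smul_add, map_mul (β.app 0), mul_comm (β.app 0 s')]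
  refine ⟨⟨AddMonoidHom.mk' c hadd, fun a y => ?_, fun {k y} hy => ?_, fun y => ?_⟩, base⟩
  · obtain ⟨s, hs₁, a₀, h⟩ := hN a
    obtain ⟨s', hs₂, x, h'⟩ := hs y
    refine uniq _ _ (s * s') (T.mul_mem hs₁ hs₂) (a₀ • x) ?_ ?_
    · rw [t.map_smul, h, h', mul_smul, GLocM_inc_swap W _ a, GLocM_inc_inc, map_mul (α.app 0)]
    · have e1 : N.map β a₀ = N.inc (β.app 0 s) * N.map γ a := by
        rw [← e, ← N.map_map, h, map_mul, N.map_inc]; rfl
      rw [b.map_smul, e1, hc y s' hs₂ x h', mul_smul, GLocM_inc_swap W' _ (N.map γ a),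
        GLocM_inc_inc, map_mul (β.app 0)]
      rfl
  · obtain ⟨s, hs₁, x, h⟩ := hs y
    have h1 : t.toFun (M.proj k x) = N.inc (α.app 0 s) • y := by
      rw [t.map_proj, h, W.proj_of_mem (W.inc_smul_mem _ hy)]
    obtain ⟨v, hv⟩ := (hu s hs₁).exists_left_inv
    have h2 := W'.inc_smul_mem v (b.map_gr (M.proj_mem k x))
    rw [hc y s hs₁ _ h1, GLocM_inc_inc, hv, map_one, one_smul] at h2
    exact h2
  · obtain ⟨s, hs₁, x, h⟩ := hs y
    refine uniq _ _ s hs₁ (M.d x) ?_ ?_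
    · rw [t.map_d, h, W.d_inc_smul]
    · rw [b.map_d, hc y s hs₁ x h, W'.d_inc_smul]
      rfl

namespace DG

/-- The localisation of a dg module. -/
noncomputable def locS (M : DG A) (S : Set (A.obj 0)) : DG (A.locS S) := GLocM_loc M S

/-- The localisation map. -/
noncomputable def toLocS (M : DG A) (S : Set (A.obj 0)) : Hom (A.toLocS S) M (M.locS S) :=
  GLocM_toLoc M S

theorem locC_toLocS (M : DG A) (S : Set (A.obj 0)) :
    (M.toLocS S).LocC (Submonoid.closure S) (RingHom.id _) := GLocM_locC M S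

variable {φ : A ⟶ B} {M M₁ M₂ M₃ : DG A} {M' : DG B} {M'' : DG C} {S : Set (A.obj 0)}
  {S' : Set (B.obj 0)} {S'' : Set (C.obj 0)}

/-- Functoriality. -/
noncomputable def Hom.locS (g : Hom φ M M') (h : Dv φ S S') :
    Hom (locMapS φ h) (M.locS S) (M'.locS S') :=
  (GLocM_lift (toLocS_nat φ h) (M.toLocS S) (locC_toLocS M S) (SRing.locC_toLocS A S)
    (g.comp (M'.toLocS S') rfl) fun _ hs => h.closure hs).choose

theorem Hom.locS_toLocS (g : Hom φ M M') (h : Dv φ S S') (x : M.V) :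
    (g.locS h).toFun ((M.toLocS S).toFun x) = (M'.toLocS S').toFun (g.toFun x) :=
  (GLocM_lift (toLocS_nat φ h) (M.toLocS S) (locC_toLocS M S) (SRing.locC_toLocS A S)
    (g.comp (M'.toLocS S') rfl) fun _ hs => h.closure hs).choose_spec x

attribute [irreducible] locS toLocS Hom.locS

theorem GLocM_rep (y : (M.locS S).V) : ∃ (u : (A.locS S).obj 0) (x : M.V), IsUnit u ∧
    N.inc u • (M.toLocS S).toFun x = y := by
  obtain ⟨s, hs, x, e⟩ := (locC_toLocS M S).surj y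
  obtain ⟨v, hv⟩ := (isUnit_toLocS hs).exists_left_inv
  refine ⟨v, x, IsUnit.of_mul_eq_one _ hv, ?_⟩
  change (M.toLocS S).toFun x = N.inc ((A.toLocS S).app 0 s) • y at e
  rw [e, GLocM_inc_inc, hv, map_one, one_smul]

theorem GLocM_zero_iff {x : M.V} :
    (M.toLocS S).toFun x = 0 ↔ ∃ s ∈ Submonoid.closure S, N.inc s • x = 0 := by
  refine ⟨(locC_toLocS M S).inj x, fun ⟨s, hs, e⟩ => ?_⟩
  refine GLocM_unit_zero _ (isUnit_toLocS hs) ?_
  rw [← Hom.map_smul0, e, map_zero]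

theorem locS_ext {α β : A.locS S ⟶ B} (a : Hom α (M.locS S) M') (b : Hom β (M.locS S) M')
    (e : α = β) (h : ∀ x, a.toFun ((M.toLocS S).toFun x) = b.toFun ((M.toLocS S).toFun x))
    (y : (M.locS S).V) : a.toFun y = b.toFun y := by
  subst e
  obtain ⟨u, x, -, rfl⟩ := GLocM_rep y
  rw [a.map_smul0, b.map_smul0, h]

theorem Hom.locS_id {φ : A ⟶ A} (g : Hom φ M M) (e : φ = 𝟙 A) (e' : g.IsId) (h : Dv φ S S) :
    (g.locS h).IsId :=
  locS_ext (g.locS h) (Hom.id _) (locMapS_id e h) fun x => by rw [locS_toLocS, e']; rfl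

theorem Hom.locS_tri {χ : B ⟶ C} {ρ : A ⟶ C} (g : Hom φ M M') (g' : Hom χ M' M'')
    (g'' : Hom ρ M M'') (e : φ ≫ χ = ρ) (e' : g''.Tri g g') (h : Dv φ S S') (h' : Dv χ S' S'')
    (h'' : Dv ρ S S'') : (g''.locS h'').Tri (g.locS h) (g'.locS h') :=
  locS_ext (g''.locS h'') ((g.locS h).comp (g'.locS h') (locMapS_comp h h' h'' e)) rfl fun x => by
    change _ = (g'.locS h').toFun ((g.locS h).toFun _)
    rw [locS_toLocS, locS_toLocS, locS_toLocS, e']

theorem Hom.locS_sq {β : B ⟶ D} {γ : A ⟶ C} {δ : C ⟶ D} {W : DG D} {T : Set (D.obj 0)}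
    {a : Hom φ M M'} {b : Hom β M' W} {c : Hom γ M M''} {d : Hom δ M'' W} (e : φ ≫ β = γ ≫ δ)
    (s : a.Sq b c d) (ha : Dv φ S S') (hb : Dv β S' T) (hc : Dv γ S S'') (hd : Dv δ S'' T) :
    (a.locS ha).Sq (b.locS hb) (c.locS hc) (d.locS hd) := fun x =>
  (Hom.locS_tri a b (a.comp b rfl) rfl (fun _ => rfl) ha hb (ha.comp hb rfl) x).symm.trans
    (Hom.locS_tri c d (a.comp b rfl) e.symm s hc hd (ha.comp hb rfl) x)

/-- The localisation of a linear map. -/
noncomputable def Hom.locL (g : Hom (𝟙 A) M₁ M₂) (S : Set (A.obj 0)) :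
    Hom (𝟙 (A.locS S)) (M₁.locS S) (M₂.locS S) :=
  (g.locS (Dv.refl S)).cast (locMapS_id rfl _)

theorem Hom.locL_apply (g : Hom (𝟙 A) M₁ M₂) (S : Set (A.obj 0)) :
    (g.locL S).toFun = (g.locS (Dv.refl S)).toFun := rfl

theorem ShortExact.locL {i : Hom (𝟙 A) M₁ M₂} {p : Hom (𝟙 A) M₂ M₃} (h : ShortExact i p)
    (S : Set (A.obj 0)) : ShortExact (i.locL S) (p.locL S) := by
  have hi : ∀ x, (i.locL S).toFun ((M₁.toLocS S).toFun x) = (M₂.toLocS S).toFun (i.toFun x) :=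
    i.locS_toLocS (Dv.refl S)
  have hp : ∀ x, (p.locL S).toFun ((M₂.toLocS S).toFun x) = (M₃.toLocS S).toFun (p.toFun x) :=
    p.locS_toLocS (Dv.refl S)
  refine ⟨(injective_iff_map_eq_zero _).2 fun y hy => ?_, fun y => ⟨fun hy => ?_, ?_⟩,
    fun y => ?_⟩
  · obtain ⟨u, x, hu, rfl⟩ := GLocM_rep y
    rw [Hom.map_smul0, hi] at hy
    obtain ⟨s, hs, e⟩ := GLocM_zero_iff.1 (GLocM_unit_zero _ hu hy)
    have e' : N.inc s • x = 0 := h.1 (by rw [i.map_smul0, map_zero]; exact e)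
    rw [GLocM_zero_iff.2 ⟨s, hs, e'⟩, smul_zero]
  · obtain ⟨u, x, hu, rfl⟩ := GLocM_rep y
    rw [Hom.map_smul0, hp] at hy
    obtain ⟨s, hs, e⟩ := GLocM_zero_iff.1 (GLocM_unit_zero _ hu hy)
    obtain ⟨w, hw⟩ := (h.2.1 (N.inc s • x)).1 (by rw [p.map_smul0]; exact e)
    obtain ⟨v, hv⟩ := (isUnit_toLocS hs).exists_left_inv
    refine ⟨N.inc (u * v) • (M₁.toLocS S).toFun w, ?_⟩
    rw [Hom.map_smul0, hi, hw, Hom.map_smul0, GLocM_inc_inc, SRing.id_app, mul_assoc, hv, mul_one]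
  · rintro ⟨z, rfl⟩
    obtain ⟨u, x, -, rfl⟩ := GLocM_rep z
    rw [Hom.map_smul0, hi, Hom.map_smul0, hp, h.2.1.apply_apply_eq_zero, map_zero, smul_zero]
  · obtain ⟨u, x, -, rfl⟩ := GLocM_rep y
    obtain ⟨w, rfl⟩ := h.2.2 x
    exact ⟨N.inc u • (M₂.toLocS S).toFun w, by rw [Hom.map_smul0, hp]; rfl⟩

theorem Hom.QIsoAway.locL {g : Hom (𝟙 A) M₁ M₂} {f : A.obj 0} (h : g.QIsoAway f)
    (hf : IsUnit ((A.toLocS S).app 0 f)) : (g.locL S).QI := by
  have hg : g.LocH (Submonoid.closure S ⊔ Submonoid.powers f) (RingHom.id _) := fun k =>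
    ((g.qisoAway_iff f).1 h k).mono le_sup_right
  have h₁ := (locC_toLocS M₁ S).locH.mono (T' := Submonoid.closure S ⊔ Submonoid.powers f)
    le_sup_left
  have h₂ := (locC_toLocS M₂ S).locH.mono (T' := Submonoid.closure S ⊔ Submonoid.powers f)
    le_sup_left
  have hc : (g.comp (M₂.toLocS S) (Category.id_comp _)).LocH
      (Submonoid.closure S ⊔ Submonoid.powers f) (RingHom.id _) :=
    Hom.LocH.tri (fun _ => rfl) (Category.id_comp _) rfl hg h₂
  have hl : (g.locL S).LocH (Submonoid.closure S ⊔ Submonoid.powers f) ((A.toLocS S).app 0) :=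
    Hom.LocH.tri_right (f := M₁.toLocS S)
      (fun x => (g.locS_toLocS (Dv.refl S) x).symm) (Category.comp_id _) rfl hc h₁
  refine hl.qi fun s hs => ?_
  obtain ⟨a, ha, _, ⟨n, rfl⟩, rfl⟩ := Submonoid.mem_sup.1 hs
  rw [map_mul, map_pow]
  exact (isUnit_toLocS ha).mul (hf.pow n)

theorem Acyc.locS (h : M.Acyc) (S : Set (A.obj 0)) : (M.locS S).Acyc := by
  intro k y hy
  obtain ⟨s, hs, ξ, e⟩ := ((locC_toLocS M S).locH k).surj ((M.locS S).cls y hy)
  obtain ⟨x, hx, rfl⟩ := cls_surj ξ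
  rw [(cls_eq_zero hx).2 (h k x hx), map_zero] at e
  obtain ⟨v, hv⟩ := (isUnit_toLocS hs).exists_left_inv
  have e' := congrArg (fun η => v • η) e
  change v • (0 : (M.locS S).H k) = v • (A.toLocS S).app 0 s • (M.locS S).cls y hy at e'
  rw [smul_zero, smul_smul, hv, one_smul] at e'
  exact (cls_eq_zero hy).1 e'.symm

/-- A further localisation is a localisation. -/
theorem locC_locS (M : DG A) {T : Set (A.obj 0)} (h : Dv (𝟙 A) S T) :
    ((Hom.id M).locS h).LocC (Submonoid.closure T) ((A.toLocS S).app 0) := by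
  have hj : ∀ x, ((Hom.id M).locS h).toFun ((M.toLocS S).toFun x) = (M.toLocS T).toFun x :=
    (Hom.id M).locS_toLocS h
  refine ⟨fun y => ?_, fun z hz => ?_⟩
  · obtain ⟨s, hs, x, e⟩ := (locC_toLocS M T).surj y
    refine ⟨s, hs, (M.toLocS S).toFun x, ?_⟩
    rw [hj, e, RingHom.comp_apply, RingHom.comp_apply, locMapS_app]
    rfl
  · obtain ⟨u, x, hu, rfl⟩ := GLocM_rep z
    rw [Hom.map_smul0, hj] at hz
    obtain ⟨s, hs, e⟩ := GLocM_zero_iff.1 (GLocM_unit_zero _ (hu.map _) hz)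
    refine ⟨s, hs, ?_⟩
    rw [smul0, ← GLocM_inc_swap, ← Hom.map_smul0, e, map_zero, smul_zero]

theorem cycle_one_locS (A : SRing) (S : Set (A.obj 0)) :
    ((unit A).locS S).Cycle 0 (((unit A).toLocS S).toFun (1 : N A)) :=
  ((unit A).toLocS S).cycle (by simpa using cycle_inc (1 : A.obj 0))

/-- The structure sheaf of the localisation is the localisation of the structure sheaf. -/
noncomputable def unitLoc (A : SRing) (S : Set (A.obj 0)) :
    Hom (𝟙 _) (unit (A.locS S)) ((unit A).locS S) := toSpan _ _ (cycle_one_locS A S)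

theorem unitLoc_map (a : N A) :
    (unitLoc A S).toFun (N.map (A.toLocS S) a) = ((unit A).toLocS S).toFun a := by
  refine (((unit A).toLocS S).map_smul a (1 : N A)).symm.trans ?_
  rw [smul_eq_mul, mul_one]

theorem unitLoc_bijective (A : SRing) (S : Set (A.obj 0)) :
    Function.Bijective (unitLoc A S).toFun := by
  refine ⟨(injective_iff_map_eq_zero _).2 fun r hr => ?_, fun y => ?_⟩
  · obtain ⟨s, hs, a, e⟩ := GLocM_Nsurj S r
    have h1 : ((unit A).toLocS S).toFun a = 0 := by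
      rw [← unitLoc_map, e, ← smul_eq_mul, Hom.map_smul0, hr, smul_zero]
    obtain ⟨s', hs', e'⟩ := GLocM_zero_iff.1 h1
    have h2 := (unitHom (A.toLocS S)).map_smul0 s' a
    rw [e', map_zero] at h2
    have h3 : N.map (A.toLocS S) a = 0 :=
      GLocM_unit_zero (unit (A.locS S)) (isUnit_toLocS hs') h2.symm
    exact GLocM_unit_zero (unit (A.locS S)) (isUnit_toLocS hs) (e.symm.trans h3)
  · obtain ⟨u, x, -, rfl⟩ := GLocM_rep y
    refine ⟨N.inc u • N.map (A.toLocS S) x, ?_⟩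
    rw [Hom.map_smul0, unitLoc_map]
    rfl

end DG

/-- Localisation of modules over an arrow. -/
@[reducible] noncomputable def GLocM_F {φ : A ⟶ B} {S : Set (A.obj 0)} {S' : Set (B.obj 0)}
    (h' : Dv φ S S') : ArrFun φ (locMapS φ h') where
  obj a := ⟨a.src.locS S, a.tgt.locS S', a.map.locS h'⟩
  map g := ⟨g.s.locL S, g.t.locL S',
    DG.Hom.locS_sq (by rw [Category.comp_id, Category.id_comp]) g.comm h' (Dv.refl S')
      (Dv.refl S) h'⟩
  ses h := ⟨h.1.locL S, h.2.locL S'⟩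

theorem GLocM_unit_sq {φ : A ⟶ B} {S : Set (A.obj 0)} {S' : Set (B.obj 0)} (h' : Dv φ S S') :
    (DG.unitHom (locMapS φ h')).Sq (DG.unitLoc B S') (DG.unitLoc A S)
      ((DG.unitHom φ).locS h') := fun x => by
  change N.map (locMapS φ h') x • ((DG.unit B).toLocS S').toFun (1 : N B) =
    ((DG.unitHom φ).locS h').toFun (x • ((DG.unit A).toLocS S).toFun (1 : N A))
  rw [DG.Hom.map_smul, DG.Hom.locS_toLocS]
  exact congrArg (fun z => N.map (locMapS φ h') x • ((DG.unit B).toLocS S').toFun z)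
    (map_one (N.map φ)).symm

/-- Cellular away from `f` gives cellular after inverting `f`. -/
theorem Arr.Cellular.locS {φ : A ⟶ B} {f : A.obj 0} {l : ℤ} {a : Arr φ} (h : Arr.Cellular f l a)
    {S : Set (A.obj 0)} {S' : Set (B.obj 0)} (hf : f ∈ S) (h' : Dv φ S S') :
    Arr.Cellular 1 l ⟨_, _, a.map.locS h'⟩ := by
  have hu : Arr.Cellular 1 1 ((GLocM_F h').obj (Arr.unit φ)) :=
    .forward (a := Arr.unit (locMapS φ h')) ⟨DG.unitLoc A S, DG.unitLoc B S', GLocM_unit_sq h'⟩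
      ⟨(DG.Hom.qiso_of_bijective _ (DG.unitLoc_bijective A S)),
        (DG.Hom.qiso_of_bijective _ (DG.unitLoc_bijective B S')).of_dvd (one_dvd _)⟩ .unit
  have key := Arr.Cellular.map (GLocM_F h') (f := f) (f' := 1) (fun g hg =>
    ⟨hg.1.locL (isUnit_toLocS (Submonoid.subset_closure hf)),
      (hg.2.locL (h' f hf)).of_dvd (one_dvd _)⟩) hu h
  rw [one_mul] at key
  exact key

end Pool.Agent.P.MP_932208_ag.Ax
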