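import Pool.Agent.P.MP_932208_ag.Ex.Five

/-!
Localisation of a simplicial ring at a set of vertices.
-/

namespace Pool.Agent.P.MP_932208_ag.Ax

open CategoryTheory

variable {A B C : SRing}

section aux
variable {K R₁ R₂ X Y : Type} [CommRing K] [CommRing R₁] [CommRing R₂] [AddCommGroup X]
  [AddCommGroup Y] [Module R₁ X] [Module R₂ Y] {T T' : Submonoid K} {σ₁ : K →+* R₁}
  {σ₂ : K →+* R₂} {g : X →+ Y}

theorem GLocR_bij (l : Lin σ₁ σ₂ g) (h : LocIso T σ₁ σ₂ g)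
    (h₁ : ∀ s ∈ T, Function.Bijective fun x : X => σ₁ s • x)
    (h₂ : ∀ s ∈ T, Function.Bijective fun y : Y => σ₂ s • y) : Function.Bijective g := by
  refine ⟨(injective_iff_map_eq_zero g).2 fun x hx => ?_, fun y => ?_⟩
  · obtain ⟨s, hs, p⟩ := h.inj x hx
    exact (h₁ s hs).1 (p.trans (smul_zero _).symm)
  · obtain ⟨s, hs, x, p⟩ := h.surj y
    obtain ⟨x, rfl⟩ := (h₁ s hs).2 x
    exact ⟨x, (h₂ s hs).1 ((l s x).symm.trans p)⟩

/-- Denominators that are units can be dropped. -/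
theorem GLocR_drop (l : Lin σ₁ σ₂ g) (h : LocIso (T' ⊔ T) σ₁ σ₂ g)
    (h₁ : ∀ s ∈ T', IsUnit (σ₁ s)) (h₂ : ∀ s ∈ T', IsUnit (σ₂ s)) : LocIso T σ₁ σ₂ g := by
  refine ⟨fun y => ?_, fun x hx => ?_⟩
  · obtain ⟨_, hu, x, p⟩ := h.surj y
    obtain ⟨s, hs, t, ht, rfl⟩ := Submonoid.mem_sup.1 hu
    obtain ⟨x, rfl⟩ := (h₁ s hs).smul_bijective.2 x
    rw [map_mul, mul_smul] at p
    exact ⟨t, ht, x, (h₂ s hs).smul_bijective.1 ((l s x).symm.trans p)⟩
  · obtain ⟨_, hu, p⟩ := h.inj x hx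
    obtain ⟨s, hs, t, ht, rfl⟩ := Submonoid.mem_sup.1 hu
    rw [map_mul, mul_smul] at p
    exact ⟨t, ht, (h₁ s hs).smul_bijective.1 (p.trans (smul_zero _).symm)⟩

theorem GLocR_unif {ι : Type} (F : Finset ι) (T : Submonoid K) (P : ι → K → Prop)
    (mono : ∀ i s t, P i s → P i (t * s)) (h : ∀ i, ∃ s ∈ T, P i s) :
    ∃ s ∈ T, ∀ i ∈ F, P i s := by
  classical
  choose e he hP using h
  refine ⟨∏ i ∈ F, e i, prod_mem fun i _ => he i, fun i hi => ?_⟩
  rw [← Finset.prod_erase_mul F e hi]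
  exact mono i _ _ (hP i)

/-- The map out of a localisation. -/
noncomputable def GLocR_lift {M : Submonoid R₁} (g : R₁ →+* R₂) (h : ∀ y ∈ M, IsUnit (g y)) :
    Localization M →+* R₂ :=
  IsLocalization.lift (M := M) (g := g) fun y => h y y.2

theorem GLocR_lift_alg {M : Submonoid R₁} (g : R₁ →+* R₂) (h : ∀ y ∈ M, IsUnit (g y)) (x : R₁) :
    GLocR_lift g h (algebraMap R₁ (Localization M) x) = g x :=
  IsLocalization.lift_eq _ x

theorem GLocR_ext {M : Submonoid R₁} {j k : Localization M →+* R₂}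
    (h : ∀ x, j (algebraMap R₁ (Localization M) x) = k (algebraMap R₁ (Localization M) x))
    (z : Localization M) : j z = k z :=
  RingHom.congr_fun (IsLocalization.ringHom_ext M (RingHom.ext h)) z

end aux

namespace DG.Hom
variable {φ : A ⟶ B} {χ : B ⟶ C} {ρ : A ⟶ C} {M : DG A} {M' : DG B} {M'' : DG C} {K : Type}
  [CommRing K] {T : Submonoid K} {σ : K →+* A.obj 0}

/-- `g` is bijective up to `T` on chains. -/
def LocC (g : Hom φ M M') (T : Submonoid K) (σ : K →+* A.obj 0) : Prop :=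
  LocIso T σ ((φ.app 0).comp σ) g.toFun

/-- `g` is bijective up to `T` on homology. -/
def LocH (g : Hom φ M M') (T : Submonoid K) (σ : K →+* A.obj 0) : Prop :=
  ∀ k, LocIso T σ ((φ.app 0).comp σ) (g.H k)

theorem LocC.locH {g : Hom φ M M'} (h : g.LocC T σ) : g.LocH T σ := by
  have hi : ∀ x, g.toFun x = 0 → ∃ s ∈ T, N.inc (σ s) • x = 0 := h.inj
  have hs : ∀ k y, y ∈ M'.gr k →
      ∃ s ∈ T, ∃ x ∈ M.gr k, g.toFun x = N.inc (φ.app 0 (σ s)) • y := by
    intro k y hy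
    obtain ⟨s, hs, x, p⟩ := h.surj y
    change g.toFun x = N.inc (φ.app 0 (σ s)) • y at p
    exact ⟨s, hs, M.proj k x, M.proj_mem k x, by
      rw [g.map_proj, p, M'.proj_of_mem (M'.inc_smul_mem _ hy)]⟩
  intro k
  refine ⟨fun η => ?_, fun ξ hξ => ?_⟩
  · obtain ⟨y, hy, rfl⟩ := cls_surj η
    obtain ⟨s, hs, x, hx, p⟩ := hs k y hy.1
    obtain ⟨t, ht, q⟩ := hi (M.d x) (by rw [g.map_d, p, M'.d_inc_smul, hy.2, smul_zero])
    have hc : M.Cycle k (N.inc (σ t) • x) := ⟨M.inc_smul_mem _ hx, by rw [M.d_inc_smul, q]⟩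
    refine ⟨t * s, T.mul_mem ht hs, M.cls _ hc, ?_⟩
    rw [g.H_cls, cls_smul]
    refine cls_congr _ _ ?_
    rw [g.map_smul0, p, smul_smul, ← map_mul, ← map_mul, ← map_mul]
    rfl
  · obtain ⟨x, hx, rfl⟩ := cls_surj ξ
    obtain ⟨y, hy, p⟩ := (cls_eq_zero (g.cycle hx)).1 hξ
    obtain ⟨s, hs, w, hw, q⟩ := hs _ y hy
    obtain ⟨t, ht, r⟩ := hi (N.inc (σ s) • x - M.d w) (by
      rw [map_sub, g.map_smul0, g.map_d, q, M'.d_inc_smul, p, sub_self])
    refine ⟨t * s, T.mul_mem ht hs, (cls_eq_zero ((M.Z k).smul_mem _ hx)).2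
      ⟨N.inc (σ t) • w, M.inc_smul_mem _ hw, ?_⟩⟩
    rw [smul_sub, sub_eq_zero, smul_smul, ← map_mul, ← map_mul] at r
    rw [M.d_inc_smul, ← r]
    rfl

theorem LocH.mono {g : Hom φ M M'} (h : g.LocH T σ) {T' : Submonoid K} (e : T ≤ T') :
    g.LocH T' σ := fun k => (h k).mono e

theorem QI.locH {g : Hom φ M M'} (h : g.QI) : g.LocH T σ := fun k =>
  LocIso.of_bijective ((qiso_iff g).1 h k)

variable {f : Hom φ M M'} {g : Hom χ M' M''} {h : Hom ρ M M''} {τ : K →+* B.obj 0}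

theorem GLocR_comp (e : h.Tri f g) (k : ℤ) : h.H k = (g.H k).comp (f.H k) :=
  AddMonoidHom.ext (congrFun (Five_comp e k))

theorem LocH.tri (e : h.Tri f g) (e₀ : φ ≫ χ = ρ) (e₁ : τ = (φ.app 0).comp σ) (hf : f.LocH T σ)
    (hg : g.LocH T τ) : h.LocH T σ := fun k => by
  subst e₀ e₁
  rw [GLocR_comp e]
  exact LocIso.comp (f.H_lin k σ) (g.H_lin k _) (hf k) (hg k)

theorem LocH.tri_left (e : h.Tri f g) (e₀ : φ ≫ χ = ρ) (e₁ : τ = (φ.app 0).comp σ)
    (hh : h.LocH T σ) (hg : g.LocH T τ) : f.LocH T σ := fun k => by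
  subst e₀ e₁
  have := hh k
  rw [GLocR_comp e] at this
  exact LocIso.of_comp_right (f.H_lin k σ) (g.H_lin k _) (hg k) this

theorem LocH.tri_right (e : h.Tri f g) (e₀ : φ ≫ χ = ρ) (e₁ : τ = (φ.app 0).comp σ)
    (hh : h.LocH T σ) (hf : f.LocH T σ) : g.LocH T τ := fun k => by
  subst e₀ e₁
  have := hh k
  rw [GLocR_comp e] at this
  exact LocIso.of_comp_left (f.H_lin k σ) (g.H_lin k _) (hf k) this

theorem GLocR_mk (hs : ∀ y, ∃ s ∈ T, ∃ x, f.toFun x = N.inc (φ.app 0 (σ s)) • y)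
    (hi : ∀ x, f.toFun x = 0 → ∃ s ∈ T, N.inc (σ s) • x = 0) : f.LocC T σ := ⟨hs, hi⟩

theorem GLocR_further {T' : Submonoid K} (e : h.Tri f g) (e₀ : φ ≫ χ = ρ)
    (e₁ : τ = (φ.app 0).comp σ) (hh : h.LocC T σ) (hf : f.LocC T' σ)
    (u : ∀ s ∈ T', IsUnit (τ s)) : g.LocC T τ := by
  subst e₀ e₁
  have l₁ : Lin σ ((φ.app 0).comp σ) f.toFun := fun k x => f.map_smul0 _ x
  have l₂ : Lin ((φ.app 0).comp σ) ((χ.app 0).comp ((φ.app 0).comp σ)) g.toFun :=
    fun k x => g.map_smul0 _ x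
  have e' : h.toFun = g.toFun.comp f.toFun := AddMonoidHom.ext e
  rw [LocC, e'] at hh
  exact GLocR_drop l₂ (LocIso.of_comp_left l₁ l₂ (LocIso.mono hf le_sup_left)
    (LocIso.mono hh le_sup_right)) u fun s hs => (u s hs).map (χ.app 0)

/-- If `T` acts through units. -/
theorem LocH.qi (hf : f.LocH T σ) (u : ∀ s ∈ T, IsUnit (σ s)) : f.QI :=
  (qiso_iff f).2 fun k => GLocR_bij (f.H_lin k σ) (hf k) (fun s hs => (u s hs).smul_bijective)
    fun s hs => ((u s hs).map (φ.app 0)).smul_bijective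

/-- Local-global principle. -/
theorem LocH.of_covers {R : SRing} (ι : R ⟶ A) {T : Submonoid (R.obj 0)} {U : Set (R.obj 0)}
    (hU : R.Covers U) (hf : ∀ u ∈ U, f.LocH (T ⊔ Submonoid.powers u) (ι.app 0)) :
    f.LocH T (ι.app 0) := fun k =>
  LocIso.of_cover (f.H_lin k (ι.app 0)) (SRing.covers_iff.1 hU)
    (fun _ hb x => bdry_smul_H (SRing.map_bdry ι hb) x)
    (fun _ hb y => bdry_smul_H (SRing.map_bdry φ (SRing.map_bdry ι hb)) y) fun u hu => hf u hu k

end DG.Hom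

/-- A local isomorphism between modules on which `T` acts invertibly is bijective. -/
theorem LocIso.bijective_of_unit {K R₁ R₂ X Y : Type} [CommRing K] [CommRing R₁] [CommRing R₂]
    [AddCommGroup X] [AddCommGroup Y] [Module R₁ X] [Module R₂ Y] {T : Submonoid K}
    {σ₁ : K →+* R₁} {σ₂ : K →+* R₂} {g : X →+ Y} (l : Lin σ₁ σ₂ g) (h : LocIso T σ₁ σ₂ g)
    (h₁ : ∀ s ∈ T, Function.Bijective fun x : X => σ₁ s • x)
    (h₂ : ∀ s ∈ T, Function.Bijective fun y : Y => σ₂ s • y) : Function.Bijective g :=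
  GLocR_bij l h h₁ h₂

/-- The degenerate simplices on the monoid generated by `S`. -/
def GLocR_M (A : SRing) (S : Set (A.obj 0)) (n : ℕ) : Submonoid (A.obj n) :=
  (Submonoid.closure S).map (A.map (vert n 0))

theorem GLocR_map_fv (A : SRing) (s : A.obj 0) {k n : ℕ} (θ : Op k n) :
    A.map θ (A.map (vert n 0) s) = A.map (vert k 0) s := A.map_comp _ _ s

theorem GLocR_fv_zero (A : SRing) (s : A.obj 0) : A.map (vert 0 0) s = s := by
  have : (vert 0 0 : Op 0 0) = OrderHom.id := by ext i; simp [vert]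
  rw [this, A.map_id]

theorem GLocR_unit (A : SRing) (S : Set (A.obj 0)) {k n : ℕ} (θ : Op k n) :
    ∀ y ∈ GLocR_M A S n,
      IsUnit ((algebraMap (A.obj k) (Localization (GLocR_M A S k))).comp (A.map θ) y) := by
  rintro _ ⟨s, hs, rfl⟩
  rw [RingHom.comp_apply, GLocR_map_fv]
  exact IsLocalization.map_units (Localization (GLocR_M A S k))
    (⟨_, s, hs, rfl⟩ : GLocR_M A S k)

/-- The simplicial operators of the localisation. -/
noncomputable def GLocR_map (A : SRing) (S : Set (A.obj 0)) {k n : ℕ} (θ : Op k n) :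
    Localization (GLocR_M A S n) →+* Localization (GLocR_M A S k) :=
  GLocR_lift _ (GLocR_unit A S θ)

theorem GLocR_map_alg (A : SRing) (S : Set (A.obj 0)) {k n : ℕ} (θ : Op k n) (x : A.obj n) :
    GLocR_map A S θ (algebraMap _ _ x) = algebraMap _ _ (A.map θ x) :=
  GLocR_lift_alg _ _ x

theorem GLocR_map_id (A : SRing) (S : Set (A.obj 0)) (n : ℕ) (x : Localization (GLocR_M A S n)) :
    GLocR_map A S OrderHom.id x = x :=
  GLocR_ext (k := RingHom.id _) (fun y => by rw [GLocR_map_alg, A.map_id]; rfl) x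

theorem GLocR_map_comp (A : SRing) (S : Set (A.obj 0)) {l k n : ℕ} (θ : Op k n) (η : Op l k)
    (x : Localization (GLocR_M A S n)) :
    GLocR_map A S η (GLocR_map A S θ x) = GLocR_map A S (θ.comp η) x :=
  GLocR_ext (j := (GLocR_map A S η).comp (GLocR_map A S θ))
    (fun y => by rw [RingHom.comp_apply, GLocR_map_alg, GLocR_map_alg, GLocR_map_alg, A.map_comp]) x

namespace SRing

/-- The localisation at the degenerate simplices on `S`. -/
noncomputable def locS (A : SRing) (S : Set (A.obj 0)) : SRing where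
  obj n := Localization (GLocR_M A S n)
  map θ := GLocR_map A S θ
  map_id := GLocR_map_id A S
  map_comp := GLocR_map_comp A S

/-- The localisation map. -/
noncomputable def toLocS (A : SRing) (S : Set (A.obj 0)) : A ⟶ A.locS S where
  app n := algebraMap (A.obj n) (Localization (GLocR_M A S n))
  nat θ x := (GLocR_map_alg A S θ x).symm

/-- `φ` carries `S` to units of the localisation at `S'`. -/
def Dv (φ : A ⟶ B) (S : Set (A.obj 0)) (S' : Set (B.obj 0)) : Prop :=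
  ∀ s ∈ S, IsUnit ((B.toLocS S').app 0 (φ.app 0 s))

variable {S : Set (A.obj 0)} {S' : Set (B.obj 0)} {S'' : Set (C.obj 0)}

theorem GLocR_dv {D : SRing} (ψ : A ⟶ D) (h : ∀ s ∈ S, IsUnit (ψ.app 0 s)) (n : ℕ) :
    ∀ y ∈ GLocR_M A S n, IsUnit (ψ.app n y) := by
  rintro _ ⟨s, hs, rfl⟩
  have : Submonoid.closure S ≤ (IsUnit.submonoid _).comap (ψ.app 0) := Submonoid.closure_le.2 h
  rw [ψ.nat]
  exact IsUnit.map _ (this hs)

theorem GLocR_nat {D : SRing} (ψ : A ⟶ D) (h : ∀ s ∈ S, IsUnit (ψ.app 0 s)) {k n : ℕ} (θ : Op k n)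
    (x : Localization (GLocR_M A S n)) :
    GLocR_lift _ (GLocR_dv ψ h k) (GLocR_map A S θ x) =
      D.map θ (GLocR_lift _ (GLocR_dv ψ h n) x) :=
  GLocR_ext (j := (GLocR_lift _ (GLocR_dv ψ h k)).comp (GLocR_map A S θ))
    (k := (D.map θ).comp (GLocR_lift _ (GLocR_dv ψ h n)))
    (fun y => by
      rw [RingHom.comp_apply, RingHom.comp_apply, GLocR_map_alg, GLocR_lift_alg, GLocR_lift_alg,
        ψ.nat]) x

/-- Functoriality. -/
noncomputable def locMapS (φ : A ⟶ B) (h : Dv φ S S') : A.locS S ⟶ B.locS S' where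
  app n := GLocR_lift _ (GLocR_dv (φ ≫ B.toLocS S') h n)
  nat := GLocR_nat (φ ≫ B.toLocS S') h

theorem toLocS_nat (φ : A ⟶ B) (h : Dv φ S S') :
    A.toLocS S ≫ locMapS φ h = φ ≫ B.toLocS S' :=
  SRing.hom_ext fun n x => GLocR_lift_alg _ (GLocR_dv (φ ≫ B.toLocS S') h n) x

theorem locS_ext {f g : A.locS S ⟶ B} (h : A.toLocS S ≫ f = A.toLocS S ≫ g) : f = g :=
  SRing.hom_ext fun n => GLocR_ext (M := GLocR_M A S n) (j := f.app n) (k := g.app n)
    fun x => congrArg (fun f => SRing.Hom.app f n x) h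

theorem isUnit_toLocS {s : A.obj 0} (hs : s ∈ Submonoid.closure S) :
    IsUnit ((A.toLocS S).app 0 s) :=
  IsLocalization.map_units (Localization (GLocR_M A S 0))
    (⟨s, s, hs, GLocR_fv_zero A s⟩ : GLocR_M A S 0)

theorem GLocR_surj (n : ℕ) (z : (A.locS S).obj n) : ∃ s ∈ Submonoid.closure S, ∃ y : A.obj n,
    (A.toLocS S).app n y = (A.toLocS S).app n (A.map (vert n 0) s) * z := by
  obtain ⟨⟨y, _, s, hs, rfl⟩, hy⟩ :=
    IsLocalization.surj (S := Localization (GLocR_M A S n)) (GLocR_M A S n) z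
  exact ⟨s, hs, y, hy.symm.trans (mul_comm _ _)⟩

theorem GLocR_inj (n : ℕ) (y : A.obj n) (h : (A.toLocS S).app n y = 0) :
    ∃ s ∈ Submonoid.closure S, A.map (vert n 0) s * y = 0 := by
  obtain ⟨⟨_, s, hs, rfl⟩, hm⟩ := (IsLocalization.map_eq_zero_iff (GLocR_M A S n)
    (Localization (GLocR_M A S n)) y).1 h
  exact ⟨s, hs, hm⟩

theorem GLocR_kill {n : ℕ} {y : A.obj n} (s t : A.obj 0) (h : A.map (vert n 0) s * y = 0) :
    A.map (vert n 0) (t * s) * y = 0 := by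
  rw [map_mul, mul_assoc, h, mul_zero]

theorem GLocR_surjN (x : N (A.locS S)) : ∃ s ∈ Submonoid.closure S, ∃ a : N A,
    N.map (A.toLocS S) a = N.inc ((A.toLocS S).app 0 s) * x := by
  obtain ⟨b, hb⟩ := x.2.2
  obtain ⟨s, hs, hM⟩ := GLocR_unif (Finset.range b) (Submonoid.closure S) (fun n s =>
      ∃ y : A.obj n, (A.toLocS S).app n y = (A.toLocS S).app n (A.map (vert n 0) s) * x.1 n)
    (fun n s t ⟨y, hy⟩ => ⟨A.map (vert n 0) t * y, by
      rw [map_mul, hy, map_mul (A.map _), map_mul, mul_assoc]⟩)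
    fun n => GLocR_surj n (x.1 n)
  have hex : ∀ n, ∃ y : A.obj n, (A.toLocS S).app n y =
      (A.toLocS S).app n (A.map (vert n 0) s) * x.1 n ∧ (b ≤ n → y = 0) := by
    intro n
    by_cases hn : n < b
    · obtain ⟨y, hy⟩ := hM n (Finset.mem_range.2 hn)
      exact ⟨y, hy, fun h => absurd hn (not_lt.2 h)⟩
    · exact ⟨0, by rw [hb n (not_lt.1 hn), map_zero, mul_zero], fun _ => rfl⟩
  choose y hy hy0 using hex
  obtain ⟨t, ht, hE⟩ := GLocR_unif (Finset.range b) (Submonoid.closure S)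
    (fun n t => ∀ i : Fin (n + 1), A.map (vert n 0) t * A.map (face i.succ) (y (n + 1)) = 0)
    (fun n s t H i => GLocR_kill s t (H i)) fun n => by
      obtain ⟨t, ht, hE⟩ := GLocR_unif Finset.univ (Submonoid.closure S)
        (fun (i : Fin (n + 1)) t => A.map (vert n 0) t * A.map (face i.succ) (y (n + 1)) = 0)
        (fun i s t H => GLocR_kill s t H) fun i => GLocR_inj n _ (by
          rw [(A.toLocS S).nat, hy, map_mul, x.2.1 n i, mul_zero])
      exact ⟨t, ht, fun i => hE i (Finset.mem_univ i)⟩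
  refine ⟨t * s, mul_mem ht hs, ⟨fun n => A.map (vert n 0) t * y n, fun n i => ?_, b,
    fun n hn => ?_⟩, N.ext' fun n => ?_⟩
  · change A.map _ (A.map (vert (n + 1) 0) t * y (n + 1)) = 0
    rw [map_mul, GLocR_map_fv]
    by_cases hn : n < b
    · exact hE n (Finset.mem_range.2 hn) i
    · rw [hy0 (n + 1) (by omega), map_zero, mul_zero]
  · change A.map (vert n 0) t * y n = 0
    rw [hy0 n hn, mul_zero]
  · rw [N.inc_mul_apply, ← (A.toLocS S).nat]
    change (A.toLocS S).app n (A.map (vert n 0) t * y n) = _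
    rw [map_mul, hy, map_mul (A.map _), map_mul, mul_assoc]

theorem GLocR_injN (a : N A) (h : N.map (A.toLocS S) a = 0) :
    ∃ s ∈ Submonoid.closure S, N.inc s * a = 0 := by
  obtain ⟨b, hb⟩ := a.2.2
  obtain ⟨s, hs, hE⟩ := GLocR_unif (Finset.range b) (Submonoid.closure S)
    (fun n s => A.map (vert n 0) s * a.1 n = 0) (fun n s t H => GLocR_kill s t H) fun n =>
      GLocR_inj n _ (congrArg (fun z : N (A.locS S) => z.1 n) h)
  refine ⟨s, hs, N.ext' fun n => ?_⟩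
  rw [N.inc_mul_apply]
  change _ = 0
  by_cases hn : n < b
  · exact hE n (Finset.mem_range.2 hn)
  · rw [hb n (not_lt.1 hn), mul_zero]

theorem locC_toLocS (A : SRing) (S : Set (A.obj 0)) :
    (DG.unitHom (A.toLocS S)).LocC (Submonoid.closure S) (RingHom.id _) :=
  DG.Hom.GLocR_mk GLocR_surjN GLocR_injN

attribute [irreducible] locS toLocS locMapS

theorem locMapS_app (φ : A ⟶ B) (h : Dv φ S S') (n : ℕ) (a : A.obj n) :
    (locMapS φ h).app n ((A.toLocS S).app n a) = (B.toLocS S').app n (φ.app n a) :=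
  congrArg (fun f => SRing.Hom.app f n a) (toLocS_nat φ h)

theorem Dv.of_mapsTo {φ : A ⟶ B} (h : Set.MapsTo (φ.app 0) S S') : Dv φ S S' :=
  fun _ hs => isUnit_toLocS (Submonoid.subset_closure (h hs))

theorem Dv.of_subset {T : Set (A.obj 0)} (h : S ⊆ T) : Dv (𝟙 A) S T := Dv.of_mapsTo h

theorem Dv.refl (S : Set (A.obj 0)) : Dv (𝟙 A) S S := Dv.of_subset subset_rfl

theorem Dv.comp {φ : A ⟶ B} {χ : B ⟶ C} {ρ : A ⟶ C} (h : Dv φ S S') (h' : Dv χ S' S'')
    (e : φ ≫ χ = ρ) : Dv ρ S S'' := fun s hs => by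
  have := (h s hs).map ((locMapS χ h').app 0)
  rwa [locMapS_app, ← SRing.comp_app φ χ, e] at this

theorem dv_mul (f a : A.obj 0) : Dv (𝟙 A) {f} {f * a} := by
  rintro s rfl
  have := isUnit_toLocS (A := A) (S := {s * a}) (Submonoid.subset_closure rfl)
  rw [map_mul] at this
  exact isUnit_of_mul_isUnit_left this

theorem Dv.closure {φ : A ⟶ B} (h : Dv φ S S') {s : A.obj 0} (hs : s ∈ Submonoid.closure S) :
    IsUnit ((B.toLocS S').app 0 (φ.app 0 s)) := by
  rw [← locMapS_app φ h]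
  exact (isUnit_toLocS hs).map _

theorem locMapS_id {φ : A ⟶ A} (e : φ = 𝟙 A) (h : Dv φ S S) : locMapS φ h = 𝟙 _ :=
  locS_ext (by rw [toLocS_nat, e, Category.id_comp, Category.comp_id])

theorem locMapS_comp {φ : A ⟶ B} {χ : B ⟶ C} {ρ : A ⟶ C} (h : Dv φ S S') (h' : Dv χ S' S'')
    (h'' : Dv ρ S S'') (e : φ ≫ χ = ρ) : locMapS φ h ≫ locMapS χ h' = locMapS ρ h'' :=
  locS_ext (by rw [← Category.assoc, toLocS_nat, Category.assoc, toLocS_nat, toLocS_nat,
    ← Category.assoc, e])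

/-- A further localisation is a localisation. -/
theorem locC_locMapS {T : Set (A.obj 0)} (h : Dv (𝟙 A) S T) :
    (DG.unitHom (locMapS (𝟙 A) h)).LocC (Submonoid.closure T) ((A.toLocS S).app 0) := by
  have e : A.toLocS S ≫ locMapS (𝟙 A) h = A.toLocS T := by rw [toLocS_nat, Category.id_comp]
  refine DG.Hom.GLocR_further (fun x => ?_) e rfl (locC_toLocS A T) (locC_toLocS A S)
    fun s hs => isUnit_toLocS hs
  rw [← e]
  rfl

end SRing

end Pool.Agent.P.MP_932208_ag.Ax
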