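import Pool.Agent.P.MP_932208_ag.Ex.GLoc
import Pool.Agent.P.MP_932208_ag.Ex.GLocM

/-!
Zariski descent for diagrams of dg modules.
-/

namespace Pool.Agent.P.MP_932208_ag.Ax

open CategoryTheory SRing

section chart
variable {R R' E E' : SRing} {φ : R ⟶ R'} {U : Site R} {U' : Site R'}

/-- The labels of `S` as vertices. -/
abbrev Site.lbl (U : Site R) (S : Nes U.X) : Set (R.obj 0) := U.lab '' S.1

theorem Site.Hom.dv (a : Site.Hom φ U U') {S : Nes U.X} {S' : Nes U'.X}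
    (e : Set.MapsTo a.w S.1 S'.1) : Dv φ (U.lbl S) (U'.lbl S') :=
  Dv.of_mapsTo fun _ ⟨x, hx, p⟩ => ⟨a.w x, e hx, p ▸ a.lab x⟩

theorem Site.locH (U : Site R) {S T : Nes U.X} (h : S ≤ T) :
    (DG.unitHom (R.toLocS (U.lbl S))).LocH (U.cl T) (RingHom.id _) :=
  (SRing.locC_toLocS R _).locH.mono (Submonoid.closure_mono (Set.image_mono h))

theorem Site.Hom.lineAway (a : Site.Hom φ U U') (x : U.X) {θ : R.locS (U.lbl (.one x)) ⟶
    R'.locS (U'.lbl (.one (a.w x)))} {L : DG _} {L' : DG _} {g : DG.Hom θ L L'}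
    (h : g.LineBaseChange) (e : φ ≫ R'.toLocS _ = R.toLocS _ ≫ θ) :
    (g.resMap e).LineAway (U.lab x) := by
  refine h.lineAway e (U.cl_one x ▸ U.locH le_rfl) fun k => ?_
  have := U'.locH (le_refl (Nes.one (a.w x))) k
  rw [U'.cl_one, a.lab, ← Submonoid.map_powers, locIso_map_iff] at this
  exact this

theorem DG.unit_ext {θ θ' : E ⟶ E'} {W : DG E'} (a : DG.Hom θ (DG.unit E) W)
    (b : DG.Hom θ' (DG.unit E) W) (e : θ = θ') (h : a.toFun (1 : N E) = b.toFun (1 : N E))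
    (x : N E) : a.toFun x = b.toFun x := by
  subst e
  have := (a.map_smul x (1 : N E)).trans ((congrArg _ h).trans (b.map_smul x (1 : N E)).symm)
  rwa [smul_eq_mul, mul_one] at this

theorem DG.Hom.LocH.toRes {M : DG R} {M' : DG R'} {g : DG.Hom φ M M'} {T : Submonoid (R.obj 0)}
    (h : g.LocH T (RingHom.id _)) : g.toRes.LocH T (RingHom.id _) :=
  DG.Hom.LocH.tri_left (f := g.toRes) (g := DG.resHom φ M') (fun _ => rfl) (Category.id_comp _)
    rfl h (DG.Hom.QI.locH (DG.Hom.qiso_of_bijective _ Function.bijective_id))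

end chart

variable {J J' : Type} [SmallCategory J] [SmallCategory J'] {A : J ⥤ SRing}

theorem Mod.map_tri (M : Mod A) {i j k : J} {ψ : i ⟶ j} {χ : j ⟶ k} {ρ : i ⟶ k} (e : ρ = ψ ≫ χ) :
    (M.map ρ).Tri (M.map ψ) (M.map χ) := fun x => (M.map_congr e x).trans (M.map_comp ψ χ x)

theorem Mod.isLine_twist (γ : Cocycle A) : ((Mod.unit A).twist γ).IsLine := fun _ _ ψ =>
  SRing.covers_of_one ⟨⟨DG.Hom.id _, (DG.Hom.id _).scale (γ.c ψ), fun _ => rfl⟩,
    DG.Hom.qiso_id _ _, by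
      rw [map_one]; exact DG.Hom.QI.scale (DG.Hom.qiso_id _ _) (γ.c ψ).isUnit⟩

/-- A cover of every chart by basic open sets, compatible with the transition maps. -/
structure Sites (A : J ⥤ SRing) where
  obj : ∀ j, Site (A.obj j)
  map : ∀ {i j : J} (ψ : i ⟶ j), Site.Hom (A.map ψ) (obj i) (obj j)
  w_id : ∀ j x, (map (𝟙 j)).w x = x
  w_comp : ∀ {i j k : J} (ψ : i ⟶ j) (χ : j ⟶ k) x, (map (ψ ≫ χ)).w x = (map χ).w ((map ψ).w x)

namespace Sites
variable (U : Sites A)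

/-- The refined charts. -/
structure Ob where
  j : J
  S : Nes (U.obj j).X

instance : SmallCategory U.Ob where
  Hom a b := {ψ : a.j ⟶ b.j // Set.MapsTo (U.map ψ).w a.S.1 b.S.1}
  id a := ⟨𝟙 a.j, fun x hx => by rw [U.w_id]; exact hx⟩
  comp f g := ⟨f.1 ≫ g.1, fun x hx => by rw [U.w_comp]; exact g.2 (f.2 hx)⟩
  id_comp _ := Subtype.ext (Category.id_comp _)
  comp_id _ := Subtype.ext (Category.comp_id _)
  assoc _ _ _ := Subtype.ext (Category.assoc _ _ _)

/-- The projection to the charts. -/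
@[reducible] def pr : U.Ob ⥤ J where
  obj a := a.j
  map f := f.1

/-- An arrow of refined charts. -/
abbrev arr {i j : J} (ψ : i ⟶ j) {S : Nes (U.obj i).X} {S' : Nes (U.obj j).X}
    (e : Set.MapsTo (U.map ψ).w S.1 S'.1) : (⟨i, S⟩ : U.Ob) ⟶ ⟨j, S'⟩ := ⟨ψ, e⟩

/-- An inclusion of open sets. -/
abbrev inc {j : J} {S T : Nes (U.obj j).X} (h : S ≤ T) : (⟨j, S⟩ : U.Ob) ⟶ ⟨j, T⟩ :=
  U.arr (𝟙 j) fun x hx => by rw [U.w_id]; exact h hx

/-- The localised rings. -/
@[reducible] noncomputable def ring : U.Ob ⥤ SRing where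
  obj a := (A.obj a.j).locS ((U.obj a.j).lbl a.S)
  map f := locMapS (A.map f.1) ((U.map f.1).dv f.2)
  map_id a := locMapS_id (A.map_id a.j) _
  map_comp f g := (locMapS_comp _ _ _ (A.map_comp f.1 g.1).symm).symm

/-- The localisation maps. -/
@[reducible] noncomputable def ι : U.pr ⋙ A ⟶ U.ring where
  app a := (A.obj a.j).toLocS _
  naturality _ _ _ := (toLocS_nat _ _).symm

/-- The localised modules. -/
@[reducible] noncomputable def loc (M : Mod A) : Mod U.ring where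
  obj a := (M.obj a.j).locS _
  map f := (M.map f.1).locS ((U.map f.1).dv f.2)
  map_id a := (M.map (𝟙 a.j)).locS_id (A.map_id a.j) (M.map_id a.j) _
  map_comp f g := DG.Hom.locS_tri _ _ _ (A.map_comp f.1 g.1).symm (M.map_comp f.1 g.1) _ _ _

/-- The localised maps. -/
@[reducible] noncomputable def locHom {M M' : Mod A} (g : Mod.Hom (𝟙 A) M M') :
    Mod.Hom (𝟙 U.ring) (U.loc M) (U.loc M') where
  app a := DG.Hom.locL (g.app a.j) _
  nat f := DG.Hom.locS_sq ((𝟙 A : A ⟶ A).naturality f.1) (g.nat f.1) _ (Dv.refl _) (Dv.refl _) _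

/-- The localised cocycle. -/
@[reducible] noncomputable def cocycle (γ : Cocycle A) : Cocycle U.ring where
  c {_ b} f := Units.map ((U.ι.app b).app 0).toMonoidHom (γ.c f.1)
  c_id a := by
    change Units.map _ (γ.c (𝟙 a.j)) = 1
    rw [γ.c_id, map_one]
  c_comp f g := by
    change Units.map _ (γ.c (f.1 ≫ g.1)) = _
    rw [γ.c_comp, map_mul]
    congr 1
    exact Units.ext (locMapS_app _ _ _ _).symm

theorem inc_sq {j : J} {S T : Nes (U.obj j).X} (h : S ≤ T) :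
    𝟙 (A.obj j) ≫ U.ι.app ⟨j, T⟩ = U.ι.app ⟨j, S⟩ ≫ U.ring.map (U.inc h) :=
  (congrArg (· ≫ _) (A.map_id j).symm).trans (U.ι.naturality (U.inc h))

variable {U} (Q : Mod U.ring) {Q' Q'' : Mod U.ring}

/-- The presheaf on a chart. -/
@[reducible] noncomputable def psh (j : J) : Psh (U.obj j) where
  Q S := (Q.obj ⟨j, S⟩).res (U.ι.app ⟨j, S⟩)
  r h := (Q.map (U.inc h)).resMap (U.inc_sq h)
  r_id S := Q.map_id ⟨j, S⟩
  r_comp h h' := Q.map_tri (ψ := U.inc h) (χ := U.inc h') (Subtype.ext (Category.id_comp _).symm)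

/-- The transition maps of presheaves. -/
@[reducible] noncomputable def pshMap {i j : J} (ψ : i ⟶ j) :
    Psh.Hom (A.map ψ) (U.map ψ).w (psh Q i) (psh Q j) where
  g e := (Q.map (U.arr ψ e)).resMap (U.ι.naturality (U.arr ψ e))
  g_r h e _ := Q.map_tri (ψ := U.inc h) (χ := U.arr ψ e) (Subtype.ext (Category.id_comp _).symm)
  r_g e h _ := Q.map_tri (ψ := U.arr ψ e) (χ := U.inc h) (Subtype.ext (Category.comp_id _).symm)

/-- The glued module. -/
@[reducible] noncomputable def glue : Mod A where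
  obj j := (psh Q j).Γ
  map ψ := (pshMap Q ψ).Γ (U.map ψ)
  map_id j := Psh.Hom.Γ_id _ _ (U.w_id j) fun S _ => Q.map_id ⟨j, S⟩
  map_comp ψ χ := Psh.Hom.Γ_tri _ _ _ _ _ _ (U.w_comp ψ χ) fun _ _ _ p p' _ =>
    Q.map_comp (U.arr ψ p) (U.arr χ p')

/-- Quasi-coherent on every chart. -/
def QC : Prop := ∀ j, (psh Q j).QC

variable {Q}

theorem qc_of_line (h : Q.IsLine) : QC Q := fun j =>
  ⟨fun e => (h _ _ (U.inc e)).locH_res (U.inc_sq e) ((U.obj j).locH e) ((U.obj j).locH le_rfl),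
    fun _ k _ hs => DG.bij_smul_res _ _ (isUnit_toLocS hs) k⟩

theorem isLine_glue (h : Q.IsLine) : (glue Q).IsLine := fun i j ψ =>
  Psh.Hom.line_Γ (qc_of_line h i) (qc_of_line h j) _ _ fun x =>
    (U.map ψ).lineAway x (h _ _ (U.arr ψ (S := .one x)
      (S' := .one ((U.map ψ).w x)) fun _ p => congrArg (U.map ψ).w p))
      (toLocS_nat _ _).symm

/-- A map of modules on the refined charts as a map of presheaves. -/
@[reducible] noncomputable def pshHom (g : Mod.Hom (𝟙 U.ring) Q Q') (j : J) :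
    Psh.Hom (𝟙 (A.obj j)) id (psh Q j) (psh Q' j) where
  g {S _} e := ((g.app ⟨j, S⟩).comp (Q'.map (U.inc e)) (Category.id_comp _)).resMap (U.inc_sq e)
  g_r h e _ x := ((psh Q' j).r_comp h e _).trans
    (congrArg (Q'.map (U.inc e)).toFun (g.nat (U.inc h) x).symm)
  r_g e h _ _ := (psh Q' j).r_comp e h _

theorem qi_pshHom {g : Mod.Hom (𝟙 U.ring) Q Q'} (hg : ∀ a, (g.app a).QIsoAway 1) (j : J)
    (S : Nes (U.obj j).X) : ((pshHom g j).g (S := S) (S' := S) fun _ p => p).QI :=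
  DG.Hom.qi_iff'.2 fun k => DG.Hom.qi_iff'.1 (DG.Hom.QI.congr (φ' := U.ring.map (𝟙 _))
    (f' := (g.app ⟨j, S⟩).comp (Q'.map (𝟙 _)) (Category.id_comp _)) (hg ⟨j, S⟩)
    fun x => (Q'.map_id _ _).symm) k

/-- Functoriality of gluing. -/
@[reducible] noncomputable def glueHom (g : Mod.Hom (𝟙 U.ring) Q Q') :
    Mod.Hom (𝟙 A) (glue Q) (glue Q') where
  app j := (pshHom g j).Γ (Site.Hom.id _)
  nat {i j} ψ := Psh.Hom.Γ_sq (U.map ψ) (Site.Hom.id _) (Site.Hom.id _) (U.map ψ) (pshMap Q ψ)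
    (pshHom g j) (pshHom g i) (pshMap Q' ψ) (fun _ => rfl) fun _ _ _ _ pa pb pc pd x =>
      (congrArg (Q'.map (U.inc pb)).toFun (g.nat (U.arr ψ pa) x)).trans
        (((pshMap Q' ψ).r_g pa pb (pa.mono_right pb) _).symm.trans
          ((pshMap Q' ψ).g_r pc pd _ _))

theorem qc_iff (g : Mod.Hom (𝟙 U.ring) Q Q') (hg : ∀ a, (g.app a).QIsoAway 1) : QC Q ↔ QC Q' :=
  forall_congr' fun j => Psh.qc_iff (pshHom g j) (qi_pshHom hg j)

theorem equiv_glue (e : Q.Equiv Q') (h : QC Q) : (glue Q).Equiv (glue Q') :=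
  Mod.Equiv.map glue qc_iff (fun g hg p p' => Mod.Equiv.of_hom (glueHom g) fun j =>
    Psh.Hom.qi_Γ (p j) (p' j) (pshHom g j) (qi_pshHom hg j)) e h

theorem isTensor_glue (h : QC Q) (h' : QC Q') (h'' : QC Q'') (t : Mod.IsTensor Q Q' Q'') :
    Mod.IsTensor (glue Q) (glue Q') (glue Q'') := by
  obtain ⟨L, L', P, m, e, e', e'', o⟩ := t
  have p := (Mod.Equiv.iff qc_iff e).2 h
  have p' := (Mod.Equiv.iff qc_iff e').2 h'
  have p'' := (Mod.Equiv.iff qc_iff e'').2 h''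
  let n : ∀ j, Psh.Pairing (psh L j) (psh L' j) (psh P j) := fun j =>
    ⟨fun S => (m.app ⟨j, S⟩).res _, fun e => m.nat (U.inc e)⟩
  exact ⟨glue L, glue L', glue P, ⟨fun j => (n j).Γ, fun ψ => (n _).Γ_compat (n _) (U.map ψ)
      (pshMap L ψ) (pshMap L' ψ) (pshMap P ψ) fun _ _ e => m.nat (U.arr ψ e)⟩,
    equiv_glue e p, equiv_glue e' p', equiv_glue e'' p'',
    fun j => (n j).onto_Γ (p j) (p' j) (p'' j) fun S => o ⟨j, S⟩⟩

theorem equiv_glue_of_loc {M : Mod A} (h : QC Q) (g : Mod.Hom U.ι (M.restrict U.pr) Q)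
    (hg : ∀ a, (g.app a).LocH ((U.obj a.j).cl a.S) (RingHom.id _)) : M.Equiv (glue Q) := by
  let a : ∀ j, Psh.Aug (M.obj j) (psh Q j) := fun j =>
    ⟨fun S => (g.app ⟨j, S⟩).toRes, fun {_ T} e x =>
      (congrArg (g.app ⟨j, T⟩).toFun (M.map_id j x).symm).trans (g.nat (U.inc e) x)⟩
  exact Mod.Equiv.of_hom ⟨fun j => (a j).Γ, fun ψ => (a _).Γ_nat (a _) (M.map ψ) (U.map ψ)
    (pshMap Q ψ) fun _ _ e => g.nat (U.arr ψ e)⟩ fun j =>
      (a j).qi_Γ (h j) fun S => (hg ⟨j, S⟩).toRes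

theorem equiv_glue_twist (γ : Cocycle A) :
    ((Mod.unit A).twist γ).Equiv (glue ((Mod.unit U.ring).twist (U.cocycle γ))) :=
  equiv_glue_of_loc (qc_of_line (Mod.isLine_twist _))
    ⟨fun a => DG.unitHom (U.ι.app a), fun {a b} f x => by
      change N.map (U.ι.app b) (N.inc (γ.c f.1 : (A.obj b.j).obj 0) * N.map (A.map f.1) x) =
        N.inc ((U.ι.app b).app 0 (γ.c f.1).val) * N.map (U.ring.map f) (N.map (U.ι.app a) x)
      rw [map_mul, N.map_inc, N.map_map, N.map_map]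
      exact congrArg (fun h => _ * N.map h x) (U.ι.naturality f)⟩
    fun a => (U.obj a.j).locH le_rfl

theorem equiv_loc_twist (γ : Cocycle A) :
    ((Mod.unit U.ring).twist (U.cocycle γ)).Equiv (U.loc ((Mod.unit A).twist γ)) :=
  Mod.Equiv.of_hom ⟨fun a => DG.unitLoc _ _, fun {a b} f => DG.unit_ext
    ((((Mod.unit U.ring).twist (U.cocycle γ)).map f).comp (DG.unitLoc _ _) (Category.comp_id _))
    ((DG.unitLoc _ _).comp ((U.loc ((Mod.unit A).twist γ)).map f) (Category.id_comp _)) rfl (by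
      change (DG.unitLoc _ _).toFun
          (N.inc ((U.ι.app b).app 0 (γ.c f.1).val) * N.map (U.ring.map f) 1) =
        ((((Mod.unit A).twist γ).map f.1).locS ((U.map f.1).dv f.2)).toFun
          ((DG.unitLoc _ _).toFun (1 : N _))
      rw [map_one, mul_one, ← N.map_inc, ← (N.map (U.ι.app a)).map_one, DG.unitLoc_map 1]
      refine Eq.trans ?_ (DG.Hom.locS_toLocS _ _ _).symm
      refine (DG.unitLoc_map _).trans (congrArg _ ?_)
      change _ = N.inc (γ.c f.1).val * N.map (A.map f.1) 1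
      rw [map_one, mul_one])⟩
    fun _ => DG.Hom.qiso_of_bijective _ (DG.unitLoc_bijective _ _)

end Sites

end Pool.Agent.P.MP_932208_ag.Ax
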