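import Pool.Agent.P.MP_932208_ag.Ex.GLocR

/-!
Presheaves of dg modules on the basic open sets; the sheaf property of their homology.
-/

namespace Pool.Agent.P.MP_932208_ag.Ax

open CategoryTheory

variable {R R' R'' : SRing}

/-- A family of basic open sets `D(lab x)` that covers `Spec π_0 R`. -/
structure Site (R : SRing) where
  X : Type
  lab : X → R.obj 0
  cov : R.Covers (Set.range lab)

/-- Nonempty sets of labels. -/
abbrev Nes (X : Type) : Type := {S : Set X // S.Nonempty}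

/-- The union. -/
def Nes.un {X : Type} (S T : Nes X) : Nes X := ⟨S.1 ∪ T.1, S.2.inl⟩

theorem Nes.le_un_left {X : Type} (S T : Nes X) : S ≤ S.un T := Set.subset_union_left

theorem Nes.le_un_right {X : Type} (S T : Nes X) : T ≤ S.un T := Set.subset_union_right

/-- One label. -/
def Nes.one {X : Type} (x : X) : Nes X := ⟨{x}, Set.singleton_nonempty x⟩

/-- The monoid generated by a set of labels. -/
def Site.cl (U : Site R) (S : Nes U.X) : Submonoid (R.obj 0) := Submonoid.closure (U.lab '' S.1)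

theorem Site.cl_one (U : Site R) (x : U.X) : U.cl (Nes.one x) = Submonoid.powers (U.lab x) := by
  rw [Site.cl, Nes.one, Set.image_singleton, Submonoid.powers_eq_closure]

variable {U : Site R} {U' : Site R'} {U'' : Site R''}

/-- A presheaf of dg modules. -/
structure Psh (U : Site R) where
  Q : Nes U.X → DG R
  r : ∀ {S T : Nes U.X}, S ≤ T → DG.Hom (𝟙 R) (Q S) (Q T)
  r_id : ∀ S, (r (le_refl S)).IsId
  r_comp : ∀ {S T W : Nes U.X} (h : S ≤ T) (h' : T ≤ W), (r (h.trans h')).Tri (r h) (r h')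

/-- A finite cover by intersections of basic open sets. -/
structure Cv (U : Site R) where
  I : Type
  [fin : Finite I]
  S : I → Nes U.X
  cov : ∀ a : Ideal (R.obj 0), (∀ b ∈ R.bdry, b ∈ a) → (∀ i, ∃ s ∈ U.cl (S i), s ∈ a) → 1 ∈ a

attribute [instance] Cv.fin

/-- The intersection of the members of a tuple. -/
def Cv.un (c : Cv U) {n : ℕ} (τ : Fin (n + 1) → c.I) : Nes U.X :=
  ⟨⋃ a, (c.S (τ a)).1, (c.S (τ 0)).2.mono (Set.subset_iUnion (fun a => (c.S (τ a)).1) 0)⟩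

theorem Cv.le_un (c : Cv U) {n : ℕ} (τ : Fin (n + 1) → c.I) (a : Fin (n + 1)) :
    c.S (τ a) ≤ c.un τ := Set.subset_iUnion (fun a => (c.S (τ a)).1) a

theorem Cv.un_mono (c : Cv U) {k n : ℕ} (τ : Fin (n + 1) → c.I) (θ : Fin (k + 1) → Fin (n + 1)) :
    c.un (τ ∘ θ) ≤ c.un τ := Set.iUnion_subset fun a => c.le_un τ (θ a)

/-- The member `i` as a tuple. -/
abbrev Cv.un₀ (c : Cv U) (i : c.I) : Nes U.X := c.un fun _ : Fin 1 => i

theorem GPsh_fin {ι K : Type} [Finite ι] [CommRing K] (M : Submonoid K) (Q : ι → K → Prop)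
    (hQ : ∀ j a t, Q j t → Q j (a * t)) (h : ∀ j, ∃ t ∈ M, Q j t) : ∃ t ∈ M, ∀ j, Q j t := by
  have := Fintype.ofFinite ι
  choose t ht hq using h
  refine ⟨∏ j, t j, M.prod_mem fun j _ => ht j, fun j => ?_⟩
  obtain ⟨a, e⟩ := Finset.dvd_prod_of_mem t (Finset.mem_univ j)
  rw [e, mul_comm]
  exact hQ j a _ (hq j)

theorem GPsh_ann {ι K : Type} [Finite ι] [CommRing K] (M : Submonoid K) {X : ι → Type}
    [∀ j, AddCommGroup (X j)] [∀ j, Module K (X j)] (x : ∀ j, X j)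
    (h : ∀ j, ∃ t ∈ M, t • x j = 0) : ∃ t ∈ M, ∀ j, t • x j = 0 :=
  GPsh_fin M (fun j t => t • x j = 0) (fun j a t e => by rw [mul_smul, e, smul_zero]) h

theorem GPsh_cl_mono {S T : Nes U.X} (h : S ≤ T) : U.cl S ≤ U.cl T :=
  Submonoid.closure_mono (Set.image_mono h)

theorem GPsh_cl_un {S T W : Nes U.X} (h : W ≤ S.un T) {u : R.obj 0} (hu : u ∈ U.cl W) :
    ∃ s ∈ U.cl S, ∃ t ∈ U.cl T, s * t = u := by
  have h1 := GPsh_cl_mono h hu
  rw [Site.cl, Nes.un, Set.image_union, Submonoid.closure_union] at h1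
  exact Submonoid.mem_sup.1 h1

theorem GPsh_un_le {X : Type} {S T W : Nes X} (h : S ≤ W) (h' : T ≤ W) : S.un T ≤ W :=
  Set.union_subset h h'

theorem GPsh_un₀_le (c : Cv U) (i : c.I) (S : Nes U.X) : S.un (c.un₀ i) ≤ S.un (c.S i) :=
  Set.union_subset_union_right _ (Set.iUnion_subset fun _ => subset_rfl)

theorem GPsh_le_cons (c : Cv U) {n : ℕ} (i : c.I) (τ : Fin (n + 1) → c.I) :
    c.un τ ≤ c.un (Fin.cons i τ : Fin (n + 2) → c.I) :=
  Set.iUnion_subset fun a => c.le_un (Fin.cons i τ : Fin (n + 2) → c.I) a.succ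

theorem GPsh_cons_le (c : Cv U) {n : ℕ} (i : c.I) (τ : Fin (n + 1) → c.I) :
    c.un (Fin.cons i τ : Fin (n + 2) → c.I) ≤ (c.un τ).un (c.S i) :=
  Set.iUnion_subset (Fin.cases (Nes.le_un_right _ _) fun a =>
    (c.le_un τ a).trans (Nes.le_un_left _ _))

namespace Psh

/-- A map of presheaves over the map `w` of labels. -/
structure Hom (φ : R ⟶ R') (w : U.X → U'.X) (P : Psh U) (P' : Psh U') where
  g : ∀ {S : Nes U.X} {S' : Nes U'.X}, Set.MapsTo w S.1 S'.1 → DG.Hom φ (P.Q S) (P'.Q S')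
  g_r : ∀ {S T : Nes U.X} {S' : Nes U'.X} (h : S ≤ T) (e : Set.MapsTo w T.1 S'.1)
    (e' : Set.MapsTo w S.1 S'.1), (g e').Tri (P.r h) (g e)
  r_g : ∀ {S : Nes U.X} {S' T' : Nes U'.X} (e : Set.MapsTo w S.1 S'.1) (h : S' ≤ T')
    (e' : Set.MapsTo w S.1 T'.1), (g e').Tri (g e) (P'.r h)

/-- The identity. -/
@[reducible] def self (P : Psh U) : Hom (𝟙 R) id P P where
  g h := P.r h
  g_r h e _ := P.r_comp h e
  r_g e h _ := P.r_comp e h

/-- A compatible family of maps from `M`. -/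
structure Aug (M : DG R) (P : Psh U) where
  a : ∀ S, DG.Hom (𝟙 R) M (P.Q S)
  a_r : ∀ {S T : Nes U.X} (h : S ≤ T), (a T).Tri (a S) (P.r h)

/-- A pairing of presheaves. -/
structure Pairing (P P₁ P₂ : Psh U) where
  m : ∀ S, DG.Pairing (P.Q S) (P₁.Q S) (P₂.Q S)
  m_r : ∀ {S T : Nes U.X} (h : S ≤ T), (m S).Compat (m T) (P.r h) (P₁.r h) (P₂.r h)

/-- The homology of `P` is quasi-coherent. -/
structure QC (P : Psh U) : Prop where
  loc : ∀ {S T : Nes U.X} (h : S ≤ T), (P.r h).LocH (U.cl T) (RingHom.id _)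
  bij : ∀ S k, ∀ s ∈ U.cl S, Function.Bijective fun ξ : (P.Q S).H k => s • ξ

variable {P P₁ : Psh U}

theorem qc_iff (h : Hom (𝟙 R) id P P₁) (q : ∀ S, (h.g (S := S) (S' := S) fun _ p => p).QI) :
    P.QC ↔ P₁.QC := by
  have hb : ∀ S k (s : R.obj 0), (Function.Bijective fun ξ : (P.Q S).H k => s • ξ) ↔
      Function.Bijective fun ξ : (P₁.Q S).H k => s • ξ := fun S k s => by
    have e := (DG.Hom.qiso_iff _).1 (q S) k
    rw [← e.of_comp_iff', ← Function.Bijective.of_comp_iff _ e]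
    exact iff_of_eq (congrArg _ (funext fun ξ => DG.Hom.H_smul _ s ξ))
  refine ⟨fun hP => ⟨fun {S T} e => ?_, fun S k s hs => (hb S k s).1 (hP.bij S k s hs)⟩,
    fun hP => ⟨fun {S T} e => ?_, fun S k s hs => (hb S k s).2 (hP.bij S k s hs)⟩⟩
  · exact DG.Hom.LocH.tri_right (h.r_g (fun _ p => p) e fun _ p => e p) (Category.id_comp _) rfl
      (DG.Hom.LocH.tri (h.g_r e (fun _ p => p) _) (Category.id_comp _) rfl (hP.loc e) (q T).locH)
      (q S).locH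
  · exact DG.Hom.LocH.tri_left (h.g_r e (fun _ p => p) fun _ p => e p) (Category.id_comp _) rfl
      (DG.Hom.LocH.tri (h.r_g (fun _ p => p) e _) (Category.id_comp _) rfl (q S).locH (hP.loc e))
      (q T).locH

theorem r_H {S T W : Nes U.X} (h : S ≤ T) (h' : T ≤ W) (k : ℤ) (ξ : (P.Q S).H k) :
    (P.r h').H k ((P.r h).H k ξ) = (P.r (h.trans h')).H k ξ :=
  DG.H_comp (P.r h).cmap (P.r h').cmap (P.r (h.trans h')).cmap
    (fun x => (P.r_comp h h' x).symm) k ξ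

theorem GPsh_smul {S T : Nes U.X} (h : S ≤ T) {k : ℤ} (a : R.obj 0) (ξ : (P.Q S).H k) :
    (P.r h).H k (a • ξ) = a • (P.r h).H k ξ := (P.r h).H_smul a ξ

variable (hP : P.QC) (c : Cv U) {k : ℤ}
include hP

theorem QC.GPsh_surj {S T W : Nes U.X} (h : S ≤ W) (hW : W ≤ S.un T) (y : (P.Q W).H k) :
    ∃ t ∈ U.cl T, ∃ x, (P.r h).H k x = t • y := by
  obtain ⟨u, hu, x, e⟩ := (hP.loc h k).surj y
  obtain ⟨s, hs, t, ht, rfl⟩ := GPsh_cl_un hW hu
  obtain ⟨x, rfl⟩ := (hP.bij S k s hs).2 x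
  refine ⟨t, ht, x, (hP.bij W k s (GPsh_cl_mono h hs)).1 ?_⟩
  exact ((GPsh_smul h s x).symm.trans e).trans (mul_smul s t y)

theorem QC.GPsh_inj {S T W : Nes U.X} (h : S ≤ W) (hW : W ≤ S.un T) {x : (P.Q S).H k}
    (e : (P.r h).H k x = 0) : ∃ t ∈ U.cl T, t • x = 0 := by
  obtain ⟨u, hu, e⟩ := (hP.loc h k).inj x e
  obtain ⟨s, hs, t, ht, rfl⟩ := GPsh_cl_un hW hu
  exact ⟨t, ht, (hP.bij S k s hs).1 (((mul_smul s t x).symm.trans e).trans (smul_zero s).symm)⟩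

theorem QC.GPsh_lift {ι : Type} [Finite ι] {S W : ι → Nes U.X} {T : Nes U.X} (h : ∀ j, S j ≤ W j)
    (hW : ∀ j, W j ≤ (S j).un T) (y : ∀ j, (P.Q (W j)).H k) :
    ∃ t ∈ U.cl T, ∃ x : ∀ j, (P.Q (S j)).H k, ∀ j, (P.r (h j)).H k (x j) = t • y j := by
  obtain ⟨t, ht, e⟩ := GPsh_fin (U.cl T) (fun j t => ∃ x, (P.r (h j)).H k x = t • y j)
    (fun j a t ⟨x, e⟩ => ⟨a • x, by rw [GPsh_smul, e, mul_smul]⟩)
    fun j => hP.GPsh_surj (h j) (hW j) (y j)
  choose x hx using e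
  exact ⟨t, ht, x, hx⟩

theorem QC.sep {S : Nes U.X} {η η' : (P.Q S).H k}
    (h : ∀ i, (P.r (S.le_un_left (c.un₀ i))).H k η = (P.r (S.le_un_left (c.un₀ i))).H k η') :
    η = η' := by
  have h1 := c.cov (annIdeal (RingHom.id _) (η - η')) (fun b hb => DG.bdry_smul_H hb _) fun i =>
    hP.GPsh_inj (S.le_un_left (c.un₀ i)) (GPsh_un₀_le c i S) (by rw [map_sub, h i, sub_self])
  exact sub_eq_zero.1 ((one_smul _ _).symm.trans h1)

/-- A family of classes on the members of the cover that agree on the overlaps. -/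
def Fit (P : Psh U) (c : Cv U) {k : ℤ} (ξ : ∀ i, (P.Q (c.un₀ i)).H k) : Prop :=
  ∀ i j T (h : c.un₀ i ≤ T) (h' : c.un₀ j ≤ T), (P.r h).H k (ξ i) = (P.r h').H k (ξ j)

/-- `η` is the restriction of the glued class. -/
def Res (P : Psh U) (c : Cv U) {k : ℤ} (ξ : ∀ i, (P.Q (c.un₀ i)).H k) {S : Nes U.X}
    (η : (P.Q S).H k) : Prop :=
  ∀ i T (h : S ≤ T) (h' : c.un₀ i ≤ T), (P.r h).H k η = (P.r h').H k (ξ i)

theorem QC.glue {ξ : ∀ i, (P.Q (c.un₀ i)).H k} (h : P.Fit c ξ) (S : Nes U.X) :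
    ∃ η : (P.Q S).H k, P.Res c ξ η := by
  let J : Ideal (R.obj 0) :=
    { carrier := {a | ∃ η : (P.Q S).H k, ∀ i T (h₁ : S ≤ T) (h₂ : c.un₀ i ≤ T),
        (P.r h₁).H k η = a • (P.r h₂).H k (ξ i)}
      add_mem' := fun ⟨η, e⟩ ⟨η', e'⟩ => ⟨η + η', fun i T h₁ h₂ => by
        rw [map_add, e i T h₁ h₂, e' i T h₁ h₂, add_smul]⟩
      zero_mem' := ⟨0, fun i T h₁ h₂ => by rw [zero_smul, map_zero]⟩
      smul_mem' := fun a b ⟨η, e⟩ => ⟨a • η, fun i T h₁ h₂ => by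
        rw [GPsh_smul, e i T h₁ h₂, smul_eq_mul, mul_smul]⟩ }
  obtain ⟨η, e⟩ := c.cov J (fun b hb => ⟨0, fun i T h₁ h₂ => by
    rw [DG.bdry_smul_H hb, map_zero]⟩) fun i => by
    obtain ⟨t, ht, x, hx⟩ := hP.GPsh_surj (S.le_un_left (c.un₀ i)) (GPsh_un₀_le c i S)
      ((P.r (S.le_un_right (c.un₀ i))).H k (ξ i))
    obtain ⟨t', ht', e⟩ := GPsh_ann (U.cl (c.S i)) (fun j => (P.r (S.le_un_left (c.un₀ j))).H k x -
      t • (P.r (S.le_un_right (c.un₀ j))).H k (ξ j)) fun j =>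
      hP.GPsh_inj (Nes.le_un_left _ (c.un₀ i)) (GPsh_un₀_le c i _) (by
        have h₁ : S.un (c.un₀ i) ≤ (S.un (c.un₀ j)).un (c.un₀ i) := GPsh_un_le
          ((S.le_un_left _).trans (Nes.le_un_left _ _)) (Nes.le_un_right _ _)
        rw [map_sub, GPsh_smul, r_H, r_H, ← r_H (S.le_un_left (c.un₀ i)) h₁, hx, GPsh_smul, r_H,
          h i j _ _ ((S.le_un_right _).trans (Nes.le_un_left _ _)), sub_self])
    refine ⟨t' * t, mul_mem ht' ht, t' • x, fun j T h₁ h₂ => ?_⟩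
    have h₃ := congrArg ((P.r (GPsh_un_le h₁ h₂)).H k) (e j)
    rw [map_zero, smul_sub, map_sub, sub_eq_zero, smul_smul] at h₃
    simp only [GPsh_smul, r_H] at h₃ ⊢
    exact h₃
  exact ⟨η, fun i T h₁ h₂ => (e i T h₁ h₂).trans (one_smul _ _)⟩

theorem QC.res_surj {S : Nes U.X} (η : (P.Q S).H k) :
    ∃ s ∈ U.cl S, ∃ ξ, P.Fit c ξ ∧ P.Res c ξ (s • η) := by
  obtain ⟨t, ht, x, hx⟩ := hP.GPsh_lift (fun i => (c.un₀ i).le_un_left S) (fun _ => le_rfl)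
    fun i => (P.r ((c.un₀ i).le_un_right S)).H k η
  have hx' : ∀ i T (h₁ : S ≤ T) (h₂ : c.un₀ i ≤ T), (P.r h₂).H k (x i) = t • (P.r h₁).H k η :=
    fun i T h₁ h₂ => by
      rw [← r_H ((c.un₀ i).le_un_left S) (GPsh_un_le h₂ h₁), hx, GPsh_smul, r_H]
  obtain ⟨t', ht', e⟩ := GPsh_ann (U.cl S) (fun p : c.I × c.I =>
    (P.r ((c.un₀ p.1).le_un_left (c.un₀ p.2))).H k (x p.1) -
      (P.r ((c.un₀ p.1).le_un_right (c.un₀ p.2))).H k (x p.2)) fun p =>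
    hP.GPsh_inj (Nes.le_un_left _ S) le_rfl (by
      rw [map_sub, r_H, r_H, hx' _ _ (Nes.le_un_right _ S), hx' _ _ (Nes.le_un_right _ S),
        sub_self])
  refine ⟨t' * t, mul_mem ht' ht, fun i => t' • x i, fun i j T h₁ h₂ => ?_, fun i T h₁ h₂ => ?_⟩
  · have h₃ := congrArg ((P.r (GPsh_un_le h₁ h₂)).H k) (e (i, j))
    rw [map_zero, smul_sub, map_sub, sub_eq_zero] at h₃
    simp only [GPsh_smul, r_H] at h₃ ⊢
    exact h₃
  · rw [GPsh_smul, GPsh_smul, hx' i T h₁ h₂, mul_smul]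

theorem QC.res_inj {S : Nes U.X} {ξ : ∀ i, (P.Q (c.un₀ i)).H k}
    (h : P.Res c ξ (0 : (P.Q S).H k)) : ∃ s ∈ U.cl S, ∀ i, s • ξ i = 0 :=
  GPsh_ann (U.cl S) ξ fun i => hP.GPsh_inj ((c.un₀ i).le_un_left S) le_rfl (by
    rw [← h i _ ((c.un₀ i).le_un_right S), map_zero])

/-- The Cech complex of the homology is exact in positive degree. -/
theorem QC.cocycle {p : ℕ} (ξ : ∀ τ : Fin (p + 2) → c.I, (P.Q (c.un τ)).H k)
    (h : ∀ τ : Fin (p + 3) → c.I, ∑ a : Fin (p + 3), (-1 : ℤ) ^ (a : ℕ) •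
      (P.r (c.un_mono τ a.succAbove)).H k (ξ (τ ∘ a.succAbove)) = 0) :
    ∃ ζ : ∀ τ : Fin (p + 1) → c.I, (P.Q (c.un τ)).H k, ∀ τ : Fin (p + 2) → c.I,
      ∑ a : Fin (p + 2), (-1 : ℤ) ^ (a : ℕ) •
        (P.r (c.un_mono τ a.succAbove)).H k (ζ (τ ∘ a.succAbove)) = ξ τ := by
  let J : Ideal (R.obj 0) :=
    { carrier := {b | ∃ ζ : ∀ τ : Fin (p + 1) → c.I, (P.Q (c.un τ)).H k, ∀ τ : Fin (p + 2) → c.I,
        ∑ a : Fin (p + 2), (-1 : ℤ) ^ (a : ℕ) •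
          (P.r (c.un_mono τ a.succAbove)).H k (ζ (τ ∘ a.succAbove)) = b • ξ τ}
      add_mem' := fun ⟨ζ, e⟩ ⟨ζ', e'⟩ => ⟨fun τ => ζ τ + ζ' τ, fun τ => by
        simp only [map_add, smul_add, Finset.sum_add_distrib, e τ, e' τ, add_smul]⟩
      zero_mem' := ⟨fun _ => 0, fun τ => by
        simp only [map_zero, smul_zero, Finset.sum_const_zero, zero_smul]⟩
      smul_mem' := fun a b ⟨ζ, e⟩ => ⟨fun τ => a • ζ τ, fun τ => by
        rw [smul_eq_mul, mul_smul, ← e τ, Finset.smul_sum]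
        exact Finset.sum_congr rfl fun _ _ => by rw [GPsh_smul, smul_comm]⟩ }
  have hc : ∀ (τ τ' : Fin (p + 2) → c.I) (e : τ = τ') T (h₁ : c.un τ ≤ T) (h₂ : c.un τ' ≤ T),
      (P.r h₁).H k (ξ τ) = (P.r h₂).H k (ξ τ') := by
    rintro τ _ rfl T h₁ h₂
    rfl
  obtain ⟨ζ, e⟩ := c.cov J (fun b hb => ⟨fun _ => 0, fun τ => by
    simp only [map_zero, smul_zero, Finset.sum_const_zero, DG.bdry_smul_H hb]⟩) fun i => by
    obtain ⟨t, ht, ζ, hζ⟩ := hP.GPsh_lift (GPsh_le_cons c (n := p) i) (GPsh_cons_le c i)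
      fun τ => ξ (Fin.cons i τ)
    obtain ⟨t', ht', e⟩ := GPsh_ann (U.cl (c.S i)) (fun τ : Fin (p + 2) → c.I =>
      ∑ a : Fin (p + 2), (-1 : ℤ) ^ (a : ℕ) •
        (P.r (c.un_mono τ a.succAbove)).H k (ζ (τ ∘ a.succAbove)) - t • ξ τ) fun τ =>
      hP.GPsh_inj (GPsh_le_cons c i τ) (GPsh_cons_le c i τ) (by
        have h₁ := h (Fin.cons i τ)
        rw [Fin.sum_univ_succ, hc (Fin.cons i τ ∘ Fin.succAbove 0) τ (funext fun _ => rfl) _ _
          (GPsh_le_cons c i τ), Fin.val_zero, pow_zero, one_smul,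
          add_eq_zero_iff_eq_neg] at h₁
        rw [map_sub, GPsh_smul, h₁, smul_neg, sub_neg_eq_add, map_sum, Finset.smul_sum,
          ← Finset.sum_add_distrib]
        refine Finset.sum_eq_zero fun a _ => ?_
        have h₂ : Fin.cons i τ ∘ a.succ.succAbove = Fin.cons i (τ ∘ a.succAbove) :=
          Fin.cons_comp_succ_succAbove i τ a
        have h₃ := h₂ ▸ c.un_mono (Fin.cons i τ : Fin (p + 3) → c.I) a.succ.succAbove
        rw [map_zsmul, r_H, ← r_H (GPsh_le_cons c i _) h₃, hζ, GPsh_smul, hc _ _ h₂ _ _ h₃,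
          Fin.val_succ, pow_succ, mul_neg_one, neg_smul, smul_neg, smul_comm, add_neg_cancel])
    refine ⟨t' * t, mul_mem ht' ht, fun τ => t' • ζ τ, fun τ => ?_⟩
    have h₁ := e τ
    rw [smul_sub, sub_eq_zero, smul_smul, Finset.smul_sum] at h₁
    rw [← h₁]
    exact Finset.sum_congr rfl fun _ _ => by rw [GPsh_smul, smul_comm]
  exact ⟨ζ, by simpa only [one_smul] using e⟩

end Psh

end Pool.Agent.P.MP_932208_ag.Ax
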