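import Pool.Agent.P.MP_932208_ag.Ex.CylC

/-!
The fibre of a presentation of the structure sheaf: add a cell `0` of degree `-1`.
-/

namespace Pool.Agent.P.MP_932208_ag.Ax

open CategoryTheory

variable {A : SRing}

theorem Plus_ne {P : PD (DG.unit A)} (h : 0 ∉ P.C.S) {s : ℕ} (hs : s ∈ P.C.S) : s ≠ 0 :=
  fun e => h (e ▸ hs)

theorem Plus_d_p (P : PD (DG.unit A)) {s : ℕ} (hs : s ∈ P.C.S) :
    N.bd (P.p s) = ∑ r ∈ P.C.S, P.C.δ s r * P.p r := P.d_p s hs

theorem Plus_hom (P : PD (DG.unit A)) (x : P.C.V) :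
    N.sg (P.hom.toFun x) = ∑ s ∈ P.C.S, N.sg (x.1 s) * N.sg (P.p s) := by
  have e : P.hom.toFun x = ∑ s ∈ P.C.S, x.1 s * P.p s := rfl
  rw [e, map_sum]
  simp only [map_mul]

/-- The fibre of `P → N A`. -/
@[reducible] noncomputable def PD.plus (P : PD (DG.unit A)) (h : 0 ∉ P.C.S) : Cel A where
  S := insert 0 P.C.S
  dg s := if s = 0 then -1 else P.C.dg s
  δ s r := if r = 0 then (if s ∈ P.C.S then N.sg (P.p s) else 0) else P.C.δ s r
  hg := fun s r => by
    by_cases hr : r = 0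
    · rw [if_pos hr, if_pos hr]
      by_cases hs : s ∈ P.C.S
      · rw [if_pos hs, if_neg (Plus_ne h hs), show P.C.dg s - 1 - -1 = P.C.dg s by ring]
        exact N.Hg.sg (P.gr s hs)
      · rw [if_neg hs]
        exact N.hg_zero _ _
    · rw [if_neg hr, if_neg hr]
      by_cases hs : s = 0
      · rw [P.C.supp s r (Or.inl (hs ▸ h))]
        exact N.hg_zero _ _
      · rw [if_neg hs]
        exact P.C.hg s r
  supp := fun s r hsr => by
    simp only [Finset.mem_insert, not_or] at hsr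
    rcases hsr with hs | hr
    · rw [if_neg hs.2, P.C.supp s r (Or.inl hs.2), ite_self]
    · rw [if_neg hr.1, P.C.supp s r (Or.inr hr.2)]
  mc := fun s r => by
    rw [Finset.sum_insert h, if_neg h, P.C.supp 0 r (Or.inl h), ite_self, mul_zero, zero_add]
    by_cases hr : r = 0
    · simp only [if_pos hr]
      rw [Finset.sum_congr rfl fun t ht => by rw [if_neg (Plus_ne h ht), if_pos ht]]
      by_cases hs : s ∈ P.C.S
      · rw [if_pos hs, N.bd_sg, Plus_d_p P hs, map_sum]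
        simp only [map_mul, neg_add_cancel]
      · rw [if_neg hs, map_zero, zero_add]
        exact Finset.sum_eq_zero fun t _ => by rw [P.C.supp s t (Or.inl hs), map_zero, zero_mul]
    · simp only [if_neg hr]
      rw [Finset.sum_congr rfl fun t ht => by rw [if_neg (Plus_ne h ht)]]
      exact P.C.mc s r

theorem PD.plus_mono {P P' : PD (DG.unit A)} (e : P ≤ P') (h : 0 ∉ P.C.S) (h' : 0 ∉ P'.C.S) :
    P.plus h ≤ P'.plus h' := by
  refine ⟨Finset.insert_subset_insert 0 e.1.1, fun s hs => ?_⟩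
  rcases Finset.mem_insert.1 hs with rfl | hs
  · refine ⟨rfl, fun r => ?_⟩
    dsimp only
    rw [if_neg h, if_neg h', P.C.supp 0 r (Or.inl h), P'.C.supp 0 r (Or.inl h')]
  · refine ⟨?_, fun r => ?_⟩
    · dsimp only
      rw [(e.1.2 s hs).1]
    · dsimp only
      rw [if_pos hs, if_pos (e.1.1 hs), e.2 s hs, (e.1.2 s hs).2 r]

theorem Plus_D_zero {P : PD (DG.unit A)} (h : 0 ∉ P.C.S) (x : (P.plus h).V) (u : P.C.V)
    (e : ∀ s, s ≠ 0 → x.1 s = u.1 s) :
    ((P.plus h).D x).1 0 = N.bd (x.1 0) + N.sg (P.hom.toFun u) := by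
  rw [Cel.D_apply, Plus_hom]
  dsimp only
  rw [Finset.sum_insert h, if_pos rfl, if_neg h, mul_zero, zero_add]
  congr 1
  exact Finset.sum_congr rfl fun s hs => by rw [if_pos rfl, if_pos hs, e s (Plus_ne h hs)]

theorem Plus_D_ne {P : PD (DG.unit A)} (h : 0 ∉ P.C.S) (x : (P.plus h).V) (u : P.C.V)
    (e : ∀ s, s ≠ 0 → x.1 s = u.1 s) {r : ℕ} (hr : r ≠ 0) :
    ((P.plus h).D x).1 r = (P.C.D u).1 r := by
  rw [Cel.D_apply, Cel.D_apply]
  dsimp only
  rw [Finset.sum_insert h, if_neg hr, P.C.supp 0 r (Or.inl h), mul_zero, zero_add, e r hr]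
  congr 1
  exact Finset.sum_congr rfl fun s hs => by rw [if_neg hr, e s (Plus_ne h hs)]

theorem PD.acyc_plus {P : PD (DG.unit A)} (hP : P.QI) (h : 0 ∉ P.C.S) :
    (P.plus h).dm.Acyc := by
  intro k x hx
  have hg : ∀ s, N.Hg (k - if s = 0 then -1 else P.C.dg s) (x.1 s) := hx.1
  have hd : (P.plus h).D x = 0 := hx.2
  let z : P.C.V := ⟨fun s => if s = 0 then 0 else x.1 s, fun s hs => by
    by_cases e : s = 0
    · exact if_pos e
    · exact (if_neg e).trans (x.2 s fun p => (Finset.mem_insert.1 p).elim e hs)⟩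
  have ez : ∀ s, s ≠ 0 → x.1 s = z.1 s := fun s hs => (if_neg hs).symm
  have hz : P.C.dm.Cycle (k + 1 - 1) z := by
    refine ⟨fun s => ?_, Subtype.ext (funext fun r => ?_)⟩
    · by_cases e : s = 0
      · rw [show z.1 s = 0 from if_pos e]
        exact N.hg_zero _ _
      · have h1 := hg s
        rw [if_neg e, ez s e] at h1
        rwa [add_sub_cancel_right]
    · by_cases e : r = 0
      · exact (P.C.D z).2 r (e ▸ h)
      · exact (Plus_D_ne h x z ez e).symm.trans (congrArg (fun v => v.1 r) hd)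
  have hy : N.sg (x.1 0) ∈ (DG.unit A).gr (k + 1) := by
    have h1 := hg 0
    rw [if_pos rfl, sub_neg_eq_add] at h1
    exact h1.sg
  have h0 : N.bd (x.1 0) + N.sg (P.hom.toFun z) = 0 :=
    (Plus_D_zero h x z ez).symm.trans (congrArg (fun v => v.1 0) hd)
  have he : (DG.unit A).d (N.sg (x.1 0)) = P.hom.toFun z := by
    change N.bd (N.sg (x.1 0)) = _
    rw [N.bd_sg, eq_neg_of_add_eq_zero_left h0, map_neg, neg_neg, N.sg_sg]
  obtain ⟨u, hu, w, hw, e1, e2⟩ := DG.Hom.QI.lift hP hz hy he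
  let y : (P.plus h).V := ⟨fun s => if s = 0 then N.sg w else u.1 s, fun s hs => by
    simp only [Finset.mem_insert, not_or] at hs
    exact (if_neg hs.1).trans (u.2 s hs.2)⟩
  have ey : ∀ s, s ≠ 0 → y.1 s = u.1 s := fun s hs => if_neg hs
  refine ⟨y, fun s => ?_, Subtype.ext (funext fun r => ?_)⟩
  · by_cases e : s = 0
    · rw [show y.1 s = N.sg w from if_pos e]
      dsimp only
      rw [if_pos e, sub_neg_eq_add]
      exact N.Hg.sg hw
    · rw [ey s e]
      dsimp only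
      rw [if_neg e]
      exact hu s
  · by_cases e : r = 0
    · subst e
      refine (Plus_D_zero h y u ey).trans ?_
      have e3 : P.hom.toFun u = N.sg (x.1 0) + N.bd w := by
        have e4 : P.hom.toFun u - N.sg (x.1 0) = N.bd w := e2
        rw [← e4, add_sub_cancel]
      rw [show y.1 0 = N.sg w from rfl, e3, map_add, N.sg_sg, N.bd_sg]
      abel
    · refine (Plus_D_ne h y u ey e).trans ?_
      rw [ez r e]
      exact congrArg (fun v => v.1 r) e1

theorem PD.ac_plus_diff {P P' : PD (DG.unit A)} (e : P ≤ P') (hP : P.QI) (hP' : P'.QI)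
    (h : 0 ∉ P.C.S) (h' : 0 ∉ P'.C.S) :
    (P'.plus h').Ac ((P'.plus h').S \ (P.plus h).S) :=
  Cel.ac_diff (PD.plus_mono e h h')
    (DG.Hom.qi_of_acyc _ (PD.acyc_plus hP h) (PD.acyc_plus hP' h'))

end Pool.Agent.P.MP_932208_ag.Ax
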