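import Pool.Agent.P.MP_932208_ag.Ex.FamH
import Pool.Agent.P.MP_932208_ag.Ex.Plus

/-!
The families of presentations and the maps between them.
-/

namespace Pool.Agent.P.MP_932208_ag.Ax

open CategoryTheory Classical

variable {A B : SRing} {M M₁ M₂ M₃ : DG A} {M' P₁ P₂ : DG B} {φ : A ⟶ B}

theorem Inst_δ (φ : A ⟶ B) (x : N A) : N.map φ x =
    N.inc ((1 : B.U) : B.obj 0) * N.map φ x * N.inc (((1 : B.U)⁻¹ : B.U) : B.obj 0) := by
  rw [inv_one, Units.val_one, map_one, one_mul, mul_one]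

theorem Inst_cvx (T : Finset ℕ) (P : ℕ → ℕ → Prop) : DR.Cvx T T P :=
  ⟨fun _ => True, fun _ => False, fun _ _ _ _ _ _ => trivial, fun _ _ _ _ h _ => h,
    fun _ => ⟨fun h => ⟨h, trivial, id⟩, fun h => h.1⟩⟩

theorem Inst_new {i : DG.Hom (𝟙 A) M₁ M₂} {q q' : MPD i} (h : q ≤ q') (s : ℕ) :
    s ∈ q'.P₁.C.S \ q.P₁.C.S ↔ s ∈ q'.P₂.C.S \ q.P₂.C.S ∧ s ∈ q'.P₁.C.S := by
  rw [Finset.mem_sdiff, Finset.mem_sdiff]
  exact ⟨fun p => ⟨⟨q'.le.1 p.1, fun e => p.2 (h.2.2 s e p.1)⟩, p.1⟩,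
    fun p => ⟨p.2, fun e => p.1.2 (q.le.1 e)⟩⟩

theorem Inst_ac {i : DG.Hom (𝟙 A) M₁ M₂} {q q' : SPre i} (h : q ≤ q') :
    q'.1.P₂.C.Ac ((q'.1.P₂.C.S \ q.1.P₂.C.S) ∩ q'.1.P₁.C.S) := by
  have e : (q'.1.P₂.C.S \ q.1.P₂.C.S) ∩ q'.1.P₁.C.S = q'.1.P₁.C.S \ q.1.P₁.C.S :=
    Finset.ext fun s => Finset.mem_inter.trans (Inst_new h s).symm
  rw [e]
  exact Cel.Ac.mono q'.1.le Finset.sdiff_subset
    (Cel.ac_diff h.1.1 (PD.qi_incl h.1 q.2.1 q'.2.1))

theorem Inst_ne {S : Finset ℕ} (h : 0 ∉ S) {s : ℕ} (hs : s ∈ S) : s ≠ 0 := fun e => h (e ▸ hs)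

theorem Inst_one (u : A.U) :
    (PD.one (M := DG.unit A) (x := N.inc (u : A.obj 0)) ⟨N.hg_inc _, N.bd_inc _⟩).QI :=
  (PD.qi_one_iff _).2 (DG.Hom.qiso_of_bijective _
    (Units.map (N.inc (A := A)).toMonoidHom u).mulRight_bijective)

/-- Presentations of `M`. -/
@[reducible] noncomputable def famPre (M : DG A) : Fam A where
  Q := Pre M
  con := Pre.con M
  K q := q.1.C
  mono _ _ h := h.1
  mrk _ := ∅
  mrk_le _ _ _ := Iff.rfl
  mrk_cl _ _ _ h := absurd h (Finset.notMem_empty _)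
  base q := q.1.C.S
  base_eq := Or.inl fun _ => rfl
  ac {q q'} h := Cel.ac_diff h.1 (PD.qi_incl h q.2 q'.2)
  ac_base {q q'} h := Cel.ac_diff h.1 (PD.qi_incl h q.2 q'.2)
  ac_mrk _ := by rw [Finset.inter_empty]; exact Cel.ac_empty _

/-- Presentations of `i : M₁ → M₂`. -/
@[reducible] noncomputable def famSes (i : DG.Hom (𝟙 A) M₁ M₂) : Fam A where
  Q := SPre i
  con := SPre.con i
  K q := q.1.P₂.C
  mono _ _ h := h.2.1.1
  mrk q := q.1.P₁.C.S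
  mrk_le h s hs := ⟨fun p => h.1.1.1 p, h.2.2 s hs⟩
  mrk_cl q := Cel.closed_of_le q.1.le
  base q := q.1.P₂.C.S
  base_eq := Or.inl fun _ => rfl
  ac {q q'} h := Cel.ac_diff h.2.1.1 (PD.qi_incl h.2.1 q.2.2 q'.2.2)
  ac_base {q q'} h := Cel.ac_diff h.2.1.1 (PD.qi_incl h.2.1 q.2.2 q'.2.2)
  ac_mrk h := Inst_ac h

/-- Fibres of presentations of the structure sheaf. -/
@[reducible] noncomputable def famAbs (A : SRing) : Fam A where
  Q := Pre0 (DG.unit A)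
  con := Pre0.con _
  K q := q.1.plus q.2.2
  mono q q' h := PD.plus_mono h q.2.2 q'.2.2
  mrk _ := ∅
  mrk_le _ _ _ := Iff.rfl
  mrk_cl _ _ _ h := absurd h (Finset.notMem_empty _)
  base _ := ∅
  base_eq := Or.inr fun _ => rfl
  ac {q q'} h := PD.ac_plus_diff h q.2.1 q'.2.1 q.2.2 q'.2.2
  ac_base {_ q'} _ := by
    rw [Finset.sdiff_empty]; exact Cel.ac_of_acyc (PD.acyc_plus q'.2.1 q'.2.2)
  ac_mrk _ := by rw [Finset.inter_empty]; exact Cel.ac_empty _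

/-- Base change of presentations. -/
@[reducible] noncomputable def bcPre (g : DG.Hom φ M M') (hg : g.Good) :
    Fam.Hom φ (famPre M) (famPre M') where
  f := ⟨fun q => ⟨q.1.map g, hg _ q.2⟩, fun _ _ h => PD.map_mono h g⟩
  l _ := 1
  sub _ := Finset.Subset.refl _
  dg _ _ _ := rfl
  δ _ _ _ _ _ := Inst_δ _ _
  cvx _ := Inst_cvx _ _
  pat _ _ _ _ _ h := h

theorem plain_bcPre (g : DG.Hom φ M M') (hg : g.Good) : (bcPre g hg).Plain :=
  fun _ _ _ => ⟨rfl, fun _ _ => rfl, rfl⟩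

variable {i : DG.Hom (𝟙 A) M₁ M₂} {π : DG.Hom (𝟙 A) M₂ M₃} {i' : DG.Hom (𝟙 B) P₁ P₂}

/-- Base change of presentations of a map. -/
@[reducible] noncomputable def bcSes {a : DG.Hom φ M₁ P₁} {b : DG.Hom φ M₂ P₂} (ha : a.Good)
    (hb : b.Good) (s : i.Sq b a i') : Fam.Hom φ (famSes i) (famSes i') where
  f := ⟨fun q => ⟨q.1.map a b s, ha _ q.2.1, hb _ q.2.2⟩, fun _ _ h => MPD.map_mono h a b s⟩
  l _ := 1
  sub _ := Finset.Subset.refl _
  dg _ _ _ := rfl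
  δ _ _ _ _ _ := Inst_δ _ _
  cvx _ := Inst_cvx _ _
  pat _ _ _ _ _ h := h

theorem plain_bcSes {a : DG.Hom φ M₁ P₁} {b : DG.Hom φ M₂ P₂} (ha : a.Good) (hb : b.Good)
    (s : i.Sq b a i') : (bcSes ha hb s).Plain :=
  fun _ _ _ => ⟨rfl, fun _ _ => rfl, rfl⟩

variable (i) in
/-- Forget the marking. -/
@[reducible] noncomputable def sesMid : Fam.Hom (𝟙 A) (famSes i) (famPre M₂) where
  f := ⟨fun q => ⟨q.1.P₂, q.2.2⟩, fun _ _ h => h.2.1⟩
  l _ := 1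
  sub _ := Finset.Subset.refl _
  dg _ _ _ := rfl
  δ _ _ _ _ _ := Inst_δ (𝟙 A) _
  cvx _ := Inst_cvx _ _
  pat _ _ _ _ _ h := ⟨h.1, fun p => absurd p (Finset.notMem_empty _)⟩

variable (i) in
theorem plain_sesMid : (sesMid i).Plain := fun _ _ _ => ⟨rfl, fun _ _ => rfl, rfl⟩

variable (i) in
/-- The marked subcomplex. -/
@[reducible] noncomputable def sesSub : Fam.Hom (𝟙 A) (famSes i) (famPre M₁) where
  f := ⟨fun q => ⟨q.1.P₁, q.2.1⟩, fun _ _ h => h.1⟩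
  l _ := 1
  sub q := q.1.le.1
  dg q s hs := (q.1.le.2 s hs).1
  δ q s hs r _ := ((q.1.le.2 s hs).2 r).trans (Inst_δ (𝟙 A) _)
  cvx {n} σ := ⟨(· ∈ (σ (Fin.last n)).1.P₁.C.S), fun _ => False, fun _ _ _ _ h p => p.2 h,
    fun _ _ _ _ h _ => h, fun s => (Inst_new (σ.monotone (Fin.zero_le _)) s).trans
      (and_congr_right' (and_iff_left id).symm)⟩
  pat σ _ _ r hr h := ⟨fun a p => (σ.monotone (Fin.le_last a)).2.2 r (h.1 a ((σ a).1.le.1 p))
    (Finset.mem_sdiff.1 hr).1, fun p => absurd p (Finset.notMem_empty _)⟩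

/-- The quotient by the marked subcomplex. -/
@[reducible] noncomputable def sesQuo (h : DG.ShortExact i π) :
    Fam.Hom (𝟙 A) (famSes i) (famPre M₃) where
  f := ⟨fun q => ⟨q.1.quo h, q.1.qi_quo h q.2.1 q.2.2⟩, fun _ _ e => MPD.quo_mono e h⟩
  l _ := 1
  sub _ := Finset.sdiff_subset
  dg _ _ _ := rfl
  δ _ _ hs _ hr :=
    (if_pos ⟨(Finset.mem_sdiff.1 hs).2, (Finset.mem_sdiff.1 hr).2⟩).trans (Inst_δ (𝟙 A) _)
  cvx {n} σ := ⟨fun _ => True, (· ∈ (σ (Fin.last n)).1.P₁.C.S), fun _ _ _ _ _ _ => trivial,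
    fun _ _ _ _ h p => p.2 h, fun s => by
      have h1 : (σ 0).1.P₁.C.S ⊆ (σ (Fin.last n)).1.P₁.C.S := (σ.monotone (Fin.zero_le _)).1.1.1
      have h2 := @h1 s
      change s ∈ ((σ (Fin.last n)).1.P₂.C.S \ (σ (Fin.last n)).1.P₁.C.S) \
        ((σ 0).1.P₂.C.S \ (σ 0).1.P₁.C.S) ↔ s ∈ (σ (Fin.last n)).1.P₂.C.S \ (σ 0).1.P₂.C.S ∧ _
      simp only [Finset.mem_sdiff]
      tauto⟩
  pat σ _ _ r hr h := ⟨fun a p => Finset.mem_sdiff.2 ⟨h.1 a (Finset.mem_sdiff.1 p).1, fun e =>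
    (Finset.mem_sdiff.1 (Finset.mem_sdiff.1 hr).1).2 ((σ.monotone (Fin.le_last a)).1.1.1 e)⟩,
    fun p => absurd p (Finset.notMem_empty _)⟩

theorem good_scale (φ : A ⟶ B) (u : B.U) : ((DG.unitHom φ).scale u).Good := by
  refine DG.Hom.good_of_one (Inst_one 1) ?_
  have e : (PD.one (M := DG.unit A) (x := N.inc ((1 : A.U) : A.obj 0))
      ⟨N.hg_inc _, N.bd_inc _⟩).map ((DG.unitHom φ).scale u) =
      PD.one (M := DG.unit B) (x := N.inc (u : B.obj 0)) ⟨N.hg_inc _, N.bd_inc _⟩ := by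
    refine PD.ext (Cel.ext rfl rfl (funext fun _ => funext fun _ => map_zero _))
      (funext fun _ => ?_)
    change N.inc (u : B.obj 0) * N.map φ (N.inc ((1 : A.U) : A.obj 0)) = _
    rw [Units.val_one, map_one, map_one, mul_one]
  rw [e]
  exact Inst_one u

theorem Inst_abs (φ : A ⟶ B) (u : B.U) (P : PD (DG.unit A)) (h : 0 ∉ P.C.S) (s r : ℕ) :
    ((P.map ((DG.unitHom φ).scale u)).plus h).δ s r =
      N.inc ((if s = 0 then u⁻¹ else 1 : B.U) : B.obj 0) * N.map φ ((P.plus h).δ s r) *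
        N.inc (((if r = 0 then u⁻¹ else 1 : B.U)⁻¹ : B.U) : B.obj 0) := by
  change (if r = 0 then (if s ∈ P.C.S then N.sg (N.inc (u : B.obj 0) * N.map φ (P.p s)) else 0)
    else N.map φ (P.C.δ s r)) = _ * N.map φ (if r = 0 then (if s ∈ P.C.S then N.sg (P.p s) else 0)
    else P.C.δ s r) * _
  by_cases hr : r = 0
  · rw [if_pos hr, if_pos hr, if_pos hr, inv_inv]
    by_cases hs : s ∈ P.C.S
    · rw [if_pos hs, if_pos hs, if_neg (Inst_ne h hs), map_mul, N.sg_inc, N.map_sg, N.inc_comm,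
        Units.val_one, map_one, one_mul]
    · rw [if_neg hs, if_neg hs, map_zero, mul_zero, zero_mul]
  · rw [if_neg hr, if_neg hr, if_neg hr]
    by_cases hs : s = 0
    · rw [P.C.supp s r (Or.inl (hs ▸ h)), map_zero, mul_zero, zero_mul]
    · rw [if_neg hs]
      exact Inst_δ _ _

/-- Base change of fibres, with the generator rescaled by `u`. -/
@[reducible] noncomputable def bcAbs (φ : A ⟶ B) (u : B.U) :
    Fam.Hom φ (famAbs A) (famAbs B) where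
  f := ⟨fun q => ⟨q.1.map ((DG.unitHom φ).scale u), good_scale φ u _ q.2.1, q.2.2⟩,
    fun _ _ h => PD.map_mono h _⟩
  l s := if s = 0 then u⁻¹ else 1
  sub _ := Finset.Subset.refl _
  dg _ _ _ := rfl
  δ q s _ r _ := Inst_abs φ u q.1 q.2.2 s r
  cvx _ := Inst_cvx _ _
  pat _ _ _ _ _ h := h

theorem plain_bcAbs (φ : A ⟶ B) (u : B.U) : (bcAbs φ u).Plain := fun _ _ _ =>
  ⟨rfl, fun _ hs => if_neg fun e => (Finset.mem_sdiff.1 hs).2 (Finset.mem_insert.2 (Or.inl e)), rfl⟩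

variable (A) in
/-- Forget the extra cell. -/
@[reducible] noncomputable def absPre : Fam.Hom (𝟙 A) (famAbs A) (famPre (DG.unit A)) where
  f := ⟨fun q => ⟨q.1, q.2.1⟩, fun _ _ h => h⟩
  l _ := 1
  sub _ := Finset.subset_insert _ _
  dg q _ hs := (if_neg (Inst_ne q.2.2 hs)).symm
  δ q _ _ _ hr := (if_neg (Inst_ne q.2.2 hr)).symm.trans (Inst_δ (𝟙 A) _)
  cvx {n} σ := ⟨fun _ => True, (· ∈ insert 0 (σ 0).1.C.S), fun _ _ _ _ _ _ => trivial,
    fun _ _ _ _ h p => p.1 0 h, fun s => by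
      have h1 := Inst_ne (σ (Fin.last n)).2.2 (s := s)
      change s ∈ (σ (Fin.last n)).1.C.S \ (σ 0).1.C.S ↔
        s ∈ insert 0 (σ (Fin.last n)).1.C.S \ ∅ ∧ _
      simp only [Finset.mem_sdiff, Finset.mem_insert, Finset.notMem_empty]
      tauto⟩
  pat {n} σ _ _ r hr h := ⟨fun a p =>
    (Finset.mem_insert.1 (h.1 a (Finset.mem_insert_of_mem p))).resolve_left
      (Inst_ne (σ (Fin.last n)).2.2 (Finset.mem_sdiff.1 hr).1),
    fun p => absurd p (Finset.notMem_empty _)⟩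

variable (A) in
theorem plain_absPre : (absPre A).Plain := fun q q' _ => by
  refine ⟨Finset.ext fun s => ?_, fun _ _ => rfl, Eq.trans (eps_congr (fun s hs => ?_)
    fun s hs => ?_) eps_insert_zero.symm⟩
  · have h1 := Inst_ne q'.2.2 (s := s)
    change s ∈ q'.1.C.S \ q.1.C.S ↔ s ∈ insert 0 q'.1.C.S \ insert 0 q.1.C.S
    simp only [Finset.mem_sdiff, Finset.mem_insert]
    tauto
  · exact (if_neg (Inst_ne q.2.2 hs)).symm
  · exact (if_neg fun e => (Finset.mem_sdiff.1 hs).2 (Finset.mem_insert.2 (Or.inl e))).symm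

/-- The empty presentation of an acyclic module as a vertex. -/
noncomputable def emptyX (h : M.Acyc) : (famPre M).X 0 0 where
  σ := OrderHom.const _ ⟨PD.empty M, PD.qi_empty h⟩
  φ _ _ := 0
  str := ⟨fun _ _ _ => rfl, fun _ h => absurd (Finset.mem_sdiff.1 h).1 (Finset.notMem_empty _),
    fun _ h => absurd (Finset.mem_sdiff.1 h).1 (Finset.notMem_empty _),
    fun _ h => absurd (Finset.mem_sdiff.1 h).1 (Finset.notMem_empty _),
    fun _ h => absurd (Finset.mem_sdiff.1 h).1 (Finset.notMem_empty _)⟩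

theorem bcPre_emptyX (h : M.Acyc) (h' : M'.Acyc) (g : DG.Hom φ M M') (hg : g.Good) :
    (bcPre g hg).X (emptyX h) = emptyX h' :=
  Fam.X.ext (OrderHom.ext _ _ (funext fun _ => Subtype.ext (PD.ext
      (Cel.ext rfl rfl (funext fun _ => funext fun _ => map_zero _)) (funext fun _ => map_zero _))))
    (funext fun s => funext fun r => ((bcPre g hg).X (emptyX h)).str.out s r
      (Or.inl fun p => absurd (Finset.mem_sdiff.1 p).1 (Finset.notMem_empty _)))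

theorem good_of_acyc (h : M.Acyc) (h' : M'.Acyc) (g : DG.Hom φ M M') : g.Good :=
  DG.Hom.good_of_one (PD.qi_empty h) (DG.Hom.qi_of_acyc _ (Cel.acyc_of_empty _ rfl) h')

end Pool.Agent.P.MP_932208_ag.Ax
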