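import Pool.Agent.P.MP_932208_ag.Ex.Simp1

/-!
Bisimplicial abelian groups: a levelwise surjection that is a weak equivalence on all rows (or on
all columns) is a weak equivalence on the diagonal.
-/

namespace Pool.Agent.P.MP_932208_ag.Ax

/-- A bisimplicial abelian group. -/
structure BAb where
  obj : ℕ → ℕ → Type
  [grp : ∀ n m, AddCommGroup (obj n m)]
  map : ∀ {k n k' m : ℕ}, Op k n → Op k' m → obj n m →+ obj k k'
  map_id : ∀ n m (x : obj n m), map OrderHom.id OrderHom.id x = x
  map_comp : ∀ {n₀ n₁ n₂ m₀ m₁ m₂ : ℕ} (θ : Op n₁ n₀) (η : Op n₂ n₁) (θ' : Op m₁ m₀)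
    (η' : Op m₂ m₁) (x : obj n₀ m₀), map η η' (map θ θ' x) = map (θ.comp η) (θ'.comp η') x

attribute [instance] BAb.grp

namespace BAb

/-- The first index is fixed. -/
@[reducible] def row (X : BAb) (n : ℕ) : SAb where
  obj m := X.obj n m
  map θ := X.map OrderHom.id θ
  map_id := X.map_id n
  map_comp θ η x := X.map_comp OrderHom.id OrderHom.id θ η x

/-- The second index is fixed. -/
@[reducible] def col (X : BAb) (m : ℕ) : SAb where
  obj n := X.obj n m
  map θ := X.map θ OrderHom.id
  map_id n := X.map_id n m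
  map_comp θ η x := X.map_comp θ η OrderHom.id OrderHom.id x

/-- The diagonal. -/
@[reducible] def diag (X : BAb) : SAb where
  obj n := X.obj n n
  map θ := X.map θ θ
  map_id n := X.map_id n n
  map_comp θ η x := X.map_comp θ η θ η x

/-- A map of bisimplicial abelian groups. -/
structure Hom (X Y : BAb) where
  app : ∀ n m, X.obj n m →+ Y.obj n m
  nat : ∀ {k n k' m : ℕ} (θ : Op k n) (θ' : Op k' m) (x : X.obj n m),
    app k k' (X.map θ θ' x) = Y.map θ θ' (app n m x)

variable {X Y : BAb}

/-- The map of rows. -/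
def Hom.row (p : X.Hom Y) (n : ℕ) : (X.row n).Hom (Y.row n) where
  app m := p.app n m
  nat θ := p.nat OrderHom.id θ

/-- The map of columns. -/
def Hom.col (p : X.Hom Y) (m : ℕ) : (X.col m).Hom (Y.col m) where
  app n := p.app n m
  nat θ := p.nat θ OrderHom.id

/-- The map of diagonals. -/
def Hom.diag (p : X.Hom Y) : X.diag.Hom Y.diag where
  app n := p.app n n
  nat θ := p.nat θ θ

/-- The operator `[0] * θ`. -/
def s2_plus {k n : ℕ} (θ : Op k n) : Op (k + 1) (n + 1) :=
  ⟨Fin.cases 0 fun a => (θ a).succ, fun a b hab => by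
    induction a using Fin.cases with
    | zero => exact Fin.zero_le _
    | succ a =>
      induction b using Fin.cases with
      | zero => exact absurd hab (not_le.2 (Fin.succ_pos a))
      | succ b => exact Fin.succ_le_succ_iff.2 (θ.monotone (Fin.succ_le_succ_iff.1 hab))⟩

theorem s2_plus_zero {k n : ℕ} (θ : Op k n) : s2_plus θ 0 = 0 := rfl

theorem s2_plus_succ {k n : ℕ} (θ : Op k n) (a : Fin (k + 1)) :
    s2_plus θ a.succ = (θ a).succ := rfl

theorem s2_plus_id (n : ℕ) : s2_plus (OrderHom.id : Op n n) = OrderHom.id := by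
  refine OrderHom.ext _ _ (funext fun a => ?_)
  induction a using Fin.cases <;> rfl

theorem s2_plus_comp {l k n : ℕ} (θ : Op k n) (η : Op l k) :
    (s2_plus θ).comp (s2_plus η) = s2_plus (θ.comp η) := by
  refine OrderHom.ext _ _ (funext fun a => ?_)
  induction a using Fin.cases <;> rfl

theorem s2_plus_face {k n : ℕ} (θ : Op k n) :
    (s2_plus θ).comp (face 0) = (face 0).comp θ := rfl

theorem s2_degen_face (n : ℕ) : (degen (0 : Fin (n + 1))).comp (face 0) = OrderHom.id := by
  refine OrderHom.ext _ _ (funext fun a => ?_)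
  change Fin.predAbove 0 (Fin.succAbove 0 a) = a
  simp

/-- The operator of the contraction of the decalage. -/
def s2_sig {n : ℕ} (χ : Op n 1) : Op (n + 1) (n + 1) :=
  ⟨Fin.cases 0 fun a => if χ a = 1 then a.succ else 0, fun a b hab => by
    induction a using Fin.cases with
    | zero => exact Fin.zero_le _
    | succ a =>
      induction b using Fin.cases with
      | zero => exact absurd hab (not_le.2 (Fin.succ_pos a))
      | succ b =>
        have h := χ.monotone (Fin.succ_le_succ_iff.1 hab)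
        change (if χ a = 1 then a.succ else 0) ≤ if χ b = 1 then b.succ else 0
        by_cases ha : χ a = 1
        · have hb : χ b = 1 := le_antisymm (Fin.le_last _) (ha ▸ h)
          rw [if_pos ha, if_pos hb]
          exact hab
        · rw [if_neg ha]
          exact Fin.zero_le _⟩

theorem s2_sig_succ {n : ℕ} (χ : Op n 1) (a : Fin (n + 1)) :
    s2_sig χ a.succ = if χ a = 1 then a.succ else 0 := rfl

theorem s2_sig_comp {k n : ℕ} (χ : Op n 1) (θ : Op k n) :
    (s2_sig χ).comp (s2_plus θ) = (s2_plus θ).comp (s2_sig (χ.comp θ)) := by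
  refine OrderHom.ext _ _ (funext fun a => ?_)
  induction a using Fin.cases with
  | zero => rfl
  | succ a =>
    change (if χ (θ a) = 1 then (θ a).succ else 0) =
      s2_plus θ (if χ (θ a) = 1 then a.succ else 0)
    split_ifs <;> rfl

theorem s2_sig_one (n : ℕ) : s2_sig (vert n 1) = OrderHom.id := by
  refine OrderHom.ext _ _ (funext fun a => ?_)
  induction a using Fin.cases <;> rfl

theorem s2_sig_zero (n : ℕ) :
    s2_sig (vert n 0) = (vert 0 (0 : Fin (n + 2))).comp (vert (n + 1) (0 : Fin 1)) := by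
  refine OrderHom.ext _ _ (funext fun a => ?_)
  induction a using Fin.cases <;> rfl

/-- The decalage in the first index. -/
@[reducible] def s2_dec (X : BAb) : BAb where
  obj n m := X.obj (n + 1) m
  map θ θ' := X.map (s2_plus θ) θ'
  map_id n m x := by rw [s2_plus_id, X.map_id]
  map_comp θ η θ' η' x := by rw [X.map_comp, s2_plus_comp]

/-- The zeroth face. -/
def s2_d0 (X : BAb) : X.s2_dec.Hom X where
  app _ _ := X.map (face 0) OrderHom.id
  nat θ θ' x := (X.map_comp (s2_plus θ) (face 0) θ' OrderHom.id x).trans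
    (X.map_comp (face 0) θ OrderHom.id θ' x).symm

theorem s2_d0_surj (X : BAb) (n m : ℕ) : Function.Surjective (X.s2_d0.app n m) := fun x =>
  ⟨X.map (degen 0) OrderHom.id x,
    (X.map_comp (degen 0) (face 0) OrderHom.id OrderHom.id x).trans (by
      rw [s2_degen_face]
      exact X.map_id n m x)⟩

/-- The kernel of a map. -/
@[reducible] def Hom.s2_ker (p : X.Hom Y) : BAb where
  obj n m := (p.app n m).ker
  map θ θ' := AddMonoidHom.mk' (fun x => ⟨X.map θ θ' x.1, by
      rw [AddMonoidHom.mem_ker, p.nat, AddMonoidHom.mem_ker.1 x.2, map_zero]⟩)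
    (fun x y => Subtype.ext (map_add (X.map θ θ') x.1 y.1))
  map_id n m x := Subtype.ext (X.map_id n m x.1)
  map_comp θ η θ' η' x := Subtype.ext (X.map_comp θ η θ' η' x.1)

/-- The transpose. -/
@[reducible] def s2_swap (X : BAb) : BAb where
  obj n m := X.obj m n
  map θ θ' := X.map θ' θ
  map_id n m := X.map_id m n
  map_comp θ η θ' η' := X.map_comp θ' η' θ η

/-- The transpose of a map. -/
def Hom.s2_swap (p : X.Hom Y) : X.s2_swap.Hom Y.s2_swap where
  app n m := p.app m n
  nat θ θ' := p.nat θ' θ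

theorem Hom.s2_ker_row (p : X.Hom Y) (sj : ∀ n m, Function.Surjective (p.app n m))
    (h : ∀ n, (p.row n).WE) (n : ℕ) : (p.s2_ker.row n).Acyc :=
  (SAb.Sub.ac_iff _).1 (((p.row n).we_iff_ker (sj n)).1 (h n))

/-- Projection of the diagonal of the decalage to the zeroth row. -/
def s2_pr (X : BAb) : X.s2_dec.diag.Hom (X.row 0) where
  app n := X.map (vert 0 (0 : Fin (n + 2))) OrderHom.id
  nat θ x := (X.map_comp (s2_plus θ) (vert 0 0) θ OrderHom.id x).trans
    (X.map_comp (vert 0 0) OrderHom.id OrderHom.id θ x).symm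

/-- Inclusion of the zeroth row. -/
def s2_in (X : BAb) : (X.row 0).Hom X.s2_dec.diag where
  app n := X.map (vert (n + 1) (0 : Fin 1)) OrderHom.id
  nat θ x := (X.map_comp OrderHom.id (vert _ 0) θ OrderHom.id x).trans
    (X.map_comp (vert _ 0) (s2_plus θ) OrderHom.id θ x).symm

theorem s2_dec_acyc (X : BAb) (h : (X.row 0).Acyc) : X.s2_dec.diag.Acyc := by
  intro n x hx
  have h1 : X.s2_dec.diag.Bd (X.s2_in.app n (X.s2_pr.app n x)) :=
    (h n _ (hx.map X.s2_pr)).map X.s2_in
  have h2 := SAb.prism (X := X.s2_dec.diag) (Y := X.s2_dec.diag)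
    (fun n χ => X.map (s2_sig χ) OrderHom.id) (fun n i χ x =>
      (X.map_comp (s2_sig χ) (s2_plus (face i)) OrderHom.id (face i) x).trans (by
        rw [s2_sig_comp]
        exact (X.map_comp (s2_plus (face i)) (s2_sig (χ.comp (face i))) (face i)
          OrderHom.id x).symm)) hx
  have e1 : X.map (s2_sig (vert n 0)) OrderHom.id x = X.s2_in.app n (X.s2_pr.app n x) := by
    rw [s2_sig_zero]
    exact (X.map_comp (vert 0 0) (vert (n + 1) 0) OrderHom.id OrderHom.id x).symm
  have e2 : X.map (s2_sig (vert n 1)) OrderHom.id x = x := by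
    rw [s2_sig_one]
    exact X.map_id _ _ x
  have h3 := h1.sub h2
  rwa [e1, e2, sub_sub_cancel] at h3

theorem s2_row_dec (X : BAb) (h : ∀ n, (X.row n).Acyc) (n : ℕ) : (X.s2_d0.row n).WE := by
  have e : X.s2_dec.row n = X.row (n + 1) := by
    unfold row
    simp only [s2_plus_id]
  have h1 : (X.s2_dec.row n).Acyc := e ▸ h (n + 1)
  refine fun m => ⟨fun y hy => ⟨0, (SAb.bd_zero _ m).sph, ?_⟩, fun x hx _ => h1 m x hx⟩
  rw [map_zero, zero_sub]
  exact (h n m y hy).neg

theorem s2_main (r : ℕ) : ∀ X : BAb, (∀ n, (X.row n).Acyc) →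
    ∀ x : X.diag.obj r, X.diag.Sph x → X.diag.Bd x := by
  induction r with
  | zero =>
    intro X h x _
    obtain ⟨y, rfl⟩ := X.s2_d0_surj 0 0 x
    exact (X.s2_dec_acyc (h 0) 0 y trivial).map X.s2_d0.diag
  | succ r ih =>
    intro X h x hx
    obtain ⟨y, hy, rfl⟩ := X.s2_d0.diag.moore_lift (fun n => X.s2_d0_surj n n) hx.moore
    have hK := X.s2_d0.s2_ker_row X.s2_d0_surj (X.s2_row_dec h)
    have hw : X.s2_dec.diag.map (face 0) y ∈ (X.s2_d0.app r r).ker :=
      (X.s2_d0.diag.nat (face 0) y).trans (hx 0)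
    have hs : X.s2_dec.diag.Sph (X.s2_dec.diag.map (face 0) y) :=
      SAb.Bd.sph ⟨y, hy, rfl⟩
    have hs' : X.s2_d0.s2_ker.diag.Sph (n := r) ⟨_, hw⟩ := by
      cases r with
      | zero => trivial
      | succ r => exact fun i => Subtype.ext (hs i)
    obtain ⟨z, hz, hz0⟩ := ih _ hK _ hs'
    have h1 : X.s2_dec.diag.Sph (n := r + 1) (y - z.1) := fun i => by
      rw [map_sub, sub_eq_zero]
      induction i using Fin.cases with
      | zero => exact (congrArg Subtype.val hz0).symm
      | succ i => exact (hy i).trans (congrArg Subtype.val (hz i)).symm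
    have h2 := (X.s2_dec_acyc (h 0) _ _ h1).map X.s2_d0.diag
    have h3 : X.s2_d0.diag.app (r + 1) z.1 = 0 := z.2
    rwa [map_sub, h3, sub_zero] at h2

theorem diag_acyc_of_row (X : BAb) (h : ∀ n, (X.row n).Acyc) : X.diag.Acyc :=
  fun r => s2_main r X h

theorem Hom.diag_we_of_row (p : X.Hom Y) (sj : ∀ n m, Function.Surjective (p.app n m))
    (h : ∀ n, (p.row n).WE) : p.diag.WE :=
  (p.diag.we_iff_ker fun n => sj n n).2
    ((SAb.Sub.ac_iff _).2 (p.s2_ker.diag_acyc_of_row (p.s2_ker_row sj h)))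

theorem Hom.diag_we_of_col (p : X.Hom Y) (sj : ∀ n m, Function.Surjective (p.app n m))
    (h : ∀ m, (p.col m).WE) : p.diag.WE :=
  p.s2_swap.diag_we_of_row (fun n m => sj m n) h

end BAb

end Pool.Agent.P.MP_932208_ag.Ax
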