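import Pool.Agent.P.MP_932208_ag.Ex.Tw
import Pool.Agent.P.MP_932208_ag.Ex.Simp2

/-!
The rows of the twisted bisimplicial module.
-/

namespace Pool.Agent.P.MP_932208_ag.Ax

theorem s3_we_congr {X Y : SAb} {f g : X.Hom Y} (h : ∀ n x, f.app n x = g.app n x)
    (hf : f.WE) : g.WE :=
  SAb.Hom.WE.congr (fun n x _ => by rw [h, sub_self]; exact Y.bd_zero n) hf

theorem s3_seq {T : ℕ → Type} (P : ∀ m, T m → Prop) (R : ∀ m, T m → T (m + 1) → Prop)
    (h0 : ∃ t, P 0 t) (hs : ∀ m t, P m t → ∃ t', P (m + 1) t' ∧ R m t t') :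
    ∃ f : ∀ m, T m, (∀ m, P m (f m)) ∧ ∀ m, R m (f m) (f (m + 1)) := by
  choose g hg using hs
  obtain ⟨t₀, ht₀⟩ := h0
  let f : ∀ m, {t : T m // P m t} := fun m =>
    Nat.rec (motive := fun m => {t : T m // P m t}) ⟨t₀, ht₀⟩
      (fun m t => ⟨g m t.1 t.2, (hg m t.1 t.2).1⟩) m
  exact ⟨fun m => (f m).1, fun m => (f m).2, fun m => (hg m (f m).1 (f m).2).2⟩

/-- Relative lifting of face compatible maps along a trivial fibration. -/
theorem s3_lift {E B W : ℕ → Type} (Em : ∀ {k n : ℕ}, Op k n → E n → E k)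
    (Bm : ∀ {k n : ℕ}, Op k n → B n → B k) (Wm : ∀ {k n : ℕ}, Op k n → W n → W k)
    (Eid : ∀ n (x : E n), Em OrderHom.id x = x)
    (Ec : ∀ {l k n : ℕ} (θ : Op k n) (η : Op l k) (x : E n), Em η (Em θ x) = Em (θ.comp η) x)
    (Bc : ∀ {l k n : ℕ} (θ : Op k n) (η : Op l k) (x : B n), Bm η (Bm θ x) = Bm (θ.comp η) x)
    (Wc : ∀ {l k n : ℕ} (θ : Op k n) (η : Op l k) (x : W n), Wm η (Wm θ x) = Wm (θ.comp η) x)
    (p : ∀ n, E n → B n) (pn : ∀ {k n : ℕ} (θ : Op k n) (x : E n), p k (Em θ x) = Bm θ (p n x))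
    (ext : ∀ (M : ℕ) (y : B M) (x : ∀ k, Bdy k M → E k), (∀ k θ, p k (x k θ) = Bm θ.1 y) →
      (∀ {l k : ℕ} (θ : Bdy k M) (η : Op l k), Em η (x k θ) = x l (θ.comp η)) →
      ∃ z : E M, p M z = y ∧ ∀ k (θ : Bdy k M), Em θ.1 z = x k θ)
    (q : ∀ n, W n → B n) (qn : ∀ {k n : ℕ} (θ : Op k n) (w : W n), q k (Wm θ w) = Bm θ (q n w))
    (S : ∀ n, W n → Prop) (σ : ∀ n, W n → E n)
    (Sf : ∀ n (i : Fin (n + 2)) (w : W (n + 1)), S (n + 1) w → S n (Wm (face i) w) ∧
      Em (face i) (σ (n + 1) w) = σ n (Wm (face i) w))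
    (Sp : ∀ n w, S n w → p n (σ n w) = q n w) :
    ∃ F : ∀ n, W n → E n, (∀ n w, p n (F n w) = q n w) ∧ (∀ n w, S n w → F n w = σ n w) ∧
      ∀ n (i : Fin (n + 2)) (w : W (n + 1)), Em (face i) (F (n + 1) w) = F n (Wm (face i) w) := by
  classical
  obtain ⟨F, hP, hR⟩ := s3_seq (T := fun n => W n → E n)
    (fun n F => (∀ w, p n (F w) = q n w) ∧ (∀ w, S n w → F w = σ n w) ∧
      ∀ (M' : ℕ) (η η' : Op M' n), M' + 1 = n → Function.Injective η → Function.Injective η' →
        ∀ w w', Wm η w = Wm η' w' → Em η (F w) = Em η' (F w'))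
    (fun n F F' => ∀ (i : Fin (n + 2)) (w : W (n + 1)), Em (face i) (F' w) = F (Wm (face i) w))
    (by
      have h : ∀ w : W 0, ∃ z : E 0, p 0 z = q 0 w ∧ (S 0 w → z = σ 0 w) := by
        intro w
        by_cases hw : S 0 w
        · exact ⟨σ 0 w, Sp 0 w hw, fun _ => rfl⟩
        · obtain ⟨z, hz, -⟩ := ext 0 (q 0 w) (fun k θ => (Bdy.isEmpty k).elim θ)
            (fun k θ => (Bdy.isEmpty k).elim θ) (fun θ _ => (Bdy.isEmpty _).elim θ)
          exact ⟨z, hz, fun h => absurd h hw⟩
      choose F hF using h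
      exact ⟨F, fun w => (hF w).1, fun w => (hF w).2, fun M' _ _ h => absurd h (by omega)⟩)
    (by
      rintro m F ⟨hp, hS, hQ⟩
      have h : ∀ w : W (m + 1), ∃ z : E (m + 1), p (m + 1) z = q (m + 1) w ∧
          (S (m + 1) w → z = σ (m + 1) w) ∧
          ∀ i : Fin (m + 2), Em (face i) z = F (Wm (face i) w) := by
        intro w
        by_cases hw : S (m + 1) w
        · exact ⟨σ (m + 1) w, Sp _ w hw, fun _ => rfl,
            fun i => by rw [(Sf m i w hw).2, hS _ (Sf m i w hw).1]⟩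
        · obtain ⟨x, hx, hn⟩ := Bdy.of_faces (obj := E) Em Eid Ec (fun i => F (Wm (face i) w))
            (fun i j η η' hM _ hη hη' he => hQ _ η η' hM hη hη' _ _ (by rw [Wc, Wc, he]))
          obtain ⟨z, hz, hz'⟩ := ext (m + 1) (q (m + 1) w) x
            (fun k θ => by
              obtain ⟨i, η, rfl⟩ := θ.exists_face
              rw [← hn, hx, pn, hp, qn, Bc]
              rfl) hn
          exact ⟨z, hz, fun h => absurd h hw, fun i => (hz' m (Bdy.face i)).trans (hx i)⟩
      choose F' hF' using h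
      refine ⟨F', ⟨fun w => (hF' w).1, fun w => (hF' w).2.1, ?_⟩, fun i w => (hF' w).2.2 i⟩
      intro M' η η' hM hη hη' w w' he
      obtain rfl : M' = m := by omega
      obtain ⟨i, rfl⟩ := exists_eq_face η hη
      obtain ⟨j, rfl⟩ := exists_eq_face η' hη'
      rw [(hF' w).2.2, (hF' w').2.2, he])
  exact ⟨F, fun n => (hP n).1, fun n => (hP n).2.1, hR⟩

theorem s3_vert_ne (n : ℕ) : vert n (1 : Fin 2) ≠ vert n (0 : Fin 2) := fun h => by
  have h1 : (1 : Fin 2) = 0 := congrArg (fun χ : Op n 1 => χ 0) h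
  exact absurd h1 (by decide)

variable {A : SRing}

namespace Tw
variable (T : Tw A)

/-- The twisted bisimplicial module. -/
@[reducible] noncomputable def bab : BAb where
  obj n m := T.X n m →₀ A.obj m
  map := T.tmap
  map_id := T.tmap_id
  map_comp := T.tmap_comp

/-- The free module on a set, levelwise. -/
@[reducible] noncomputable def free (A : SRing) (I : Type) : SAb where
  obj m := I →₀ A.obj m
  map θ := Finsupp.mapRange.addMonoidHom (A.map θ).toAddMonoidHom
  map_id n x := Finsupp.ext fun i => A.map_id n (x i)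
  map_comp θ η x := Finsupp.ext fun i => A.map_comp θ η (x i)

theorem free_sph {I : Type} {m : ℕ} (x : I →₀ A.obj m) :
    (free A I).Sph x ↔ ∀ i, A.ab.Sph (x i) := by
  cases m with
  | zero => exact ⟨fun _ _ => trivial, fun _ => trivial⟩
  | succ m =>
    exact ⟨fun h i j => DFunLike.congr_fun (h j) i, fun h j => Finsupp.ext fun i => h i j⟩

theorem free_bd {I : Type} {m : ℕ} (x : I →₀ A.obj m) :
    (free A I).Bd x ↔ ∀ i, A.ab.Bd (x i) := by
  classical
  refine ⟨fun ⟨z, hz, e⟩ i => ⟨z i, fun j => DFunLike.congr_fun (hz j) i,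
    DFunLike.congr_fun e i⟩, fun h => ?_⟩
  choose z hz e using h
  refine ⟨Finsupp.onFinset x.support (fun i => if i ∈ x.support then z i else 0)
    fun i hi => by_contra fun h => hi (if_neg h), fun j => Finsupp.ext fun i => ?_,
    Finsupp.ext fun i => ?_⟩
  · change A.map (face j.succ) (if i ∈ x.support then z i else 0) = 0
    split_ifs
    · exact hz i j
    · exact map_zero _
  · change A.map (face 0) (if i ∈ x.support then z i else 0) = x i
    split_ifs with hi
    · exact e i
    · rw [Finsupp.notMem_support_iff.1 hi]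
      exact map_zero _

theorem Kan_free_single {I : Type} {k m : ℕ} (θ : Op k m) (i : I) (a : A.obj m) :
    (free A I).map θ (Finsupp.single i a) = Finsupp.single i (A.map θ a) :=
  Finsupp.mapRange_single (hf := map_zero (A.map θ).toAddMonoidHom)

theorem Kan_row_single {n k m : ℕ} (θ : Op k m) (x : T.X n m) (a : A.obj m) :
    T.tmap OrderHom.id θ (Finsupp.single x a) =
      Finsupp.single (T.map OrderHom.id θ x) (A.map θ a) := by
  rw [tmap_single, OrderHom.id_coe, id, T.c_zero, mul_one]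

/-- The augmentation of a row. -/
noncomputable def aug (n : ℕ) : (T.bab.row n).Hom (free A (Fin (n + 1) →o T.Q)) where
  app m := Finsupp.mapDomain.addMonoidHom T.π
  nat θ x := by
    induction x using Finsupp.induction_linear with
    | zero => simp
    | add x y hx hy => rw [map_add, map_add, map_add, map_add, hx, hy]
    | single x a =>
      change Finsupp.mapDomain T.π (T.tmap OrderHom.id θ (Finsupp.single x a)) =
        (free A _).map θ (Finsupp.mapDomain T.π (Finsupp.single x a))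
      rw [Kan_row_single, Finsupp.mapDomain_single, Finsupp.mapDomain_single, Kan_free_single,
        T.π_map, OrderHom.comp_id]

theorem aug_single (n m : ℕ) (x : T.X n m) (a : A.obj m) :
    (T.aug n).app m (Finsupp.single x a) = Finsupp.single (T.π x) a :=
  Finsupp.mapDomain_single

/-- A section of the projection and a homotopy, compatible with faces. -/
theorem Kan_data (n : ℕ) :
    ∃ (s : ∀ m, (Fin (n + 1) →o T.Q) → T.X n m) (H : ∀ m, T.X n m → Op m 1 → T.X n m),
      (∀ m y, T.π (s m y) = y) ∧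
      (∀ m (i : Fin (m + 2)) y, T.map OrderHom.id (face i) (s (m + 1) y) = s m y) ∧
      (∀ m (i : Fin (m + 2)) x χ, T.map OrderHom.id (face i) (H (m + 1) x χ) =
        H m (T.map OrderHom.id (face i) x) (χ.comp (face i))) ∧
      (∀ m x, H m x (vert m 0) = x) ∧ ∀ m x, H m x (vert m 1) = s m (T.π x) := by
  classical
  have Xc : ∀ {l k m : ℕ} (θ : Op k m) (η : Op l k) (x : T.X n m),
      T.map OrderHom.id η (T.map OrderHom.id θ x) = T.map OrderHom.id (θ.comp η) x :=
    fun θ η x => T.map_comp OrderHom.id OrderHom.id θ η x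
  have pn : ∀ {k m : ℕ} (θ : Op k m) (x : T.X n m), T.π (T.map OrderHom.id θ x) = T.π x :=
    fun θ x => T.π_map OrderHom.id θ x
  have hne : ∀ m (_ : Fin (n + 1) →o T.Q), Nonempty (T.X n m) := by
    intro m y
    obtain ⟨z, -⟩ := T.ext n 0 y (fun k θ => (Bdy.isEmpty k).elim θ)
      (fun k θ => (Bdy.isEmpty k).elim θ) (fun θ _ => (Bdy.isEmpty _).elim θ)
    exact ⟨T.map OrderHom.id (vert m 0) z⟩
  obtain ⟨s, ps, -, sf⟩ := s3_lift (E := T.X n) (B := fun _ => Fin (n + 1) →o T.Q)
    (W := fun _ => Fin (n + 1) →o T.Q) (fun θ => T.map OrderHom.id θ) (fun _ y => y)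
    (fun _ y => y) (T.map_id n) Xc (fun _ _ _ => rfl) (fun _ _ _ => rfl) (fun _ => T.π) pn
    (T.ext n) (fun _ y => y) (fun _ _ => rfl) (fun _ _ => False) (fun m y => (hne m y).some)
    (fun _ _ _ hf => hf.elim) (fun _ _ hf => hf.elim)
  obtain ⟨H, -, HS, Hf⟩ := s3_lift (E := T.X n) (B := fun _ => Fin (n + 1) →o T.Q)
    (W := fun m => T.X n m × Op m 1) (fun θ => T.map OrderHom.id θ) (fun _ y => y)
    (fun θ w => (T.map OrderHom.id θ w.1, w.2.comp θ)) (T.map_id n) Xc (fun _ _ _ => rfl)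
    (fun θ η w => Prod.ext (Xc θ η w.1) rfl) (fun _ => T.π) pn (T.ext n) (fun _ w => T.π w.1)
    (fun θ w => pn θ w.1)
    (fun m w => w.2 = vert m 0 ∨ w.2 = vert m 1)
    (fun m w => if w.2 = vert m 0 then w.1 else s m (T.π w.1))
    (by
      rintro m i ⟨x, χ⟩ (hχ | hχ)
      · obtain rfl : χ = vert (m + 1) 0 := hχ
        refine ⟨Or.inl rfl, ?_⟩
        have e : (vert (m + 1) (0 : Fin 2)).comp (face i) = vert m 0 := rfl
        simp only [e, if_true]
      · obtain rfl : χ = vert (m + 1) 1 := hχ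
        refine ⟨Or.inr rfl, ?_⟩
        have e : (vert (m + 1) (1 : Fin 2)).comp (face i) = vert m 1 := rfl
        simp only [e, if_neg (s3_vert_ne _)]
        rw [sf, pn])
    (by
      rintro m ⟨x, χ⟩ _
      by_cases hχ : χ = vert m 0
      · simp only [if_pos hχ]
      · simp only [if_neg hχ]
        exact ps m _)
  refine ⟨s, fun m x χ => H m (x, χ), ps, sf, fun m i x χ => Hf m i (x, χ), fun m x => ?_,
    fun m x => ?_⟩
  · exact (HS m (x, vert m 0) (Or.inl rfl)).trans (if_pos rfl)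
  · exact (HS m (x, vert m 1) (Or.inr rfl)).trans (if_neg (s3_vert_ne _))

theorem Kan_sec {n k m : ℕ} {I : Type} (θ : Op k m) (f : I → T.X n m) (f' : I → T.X n k)
    (hf : ∀ y, T.map OrderHom.id θ (f y) = f' y) (v : I →₀ A.obj m) :
    T.tmap OrderHom.id θ (Finsupp.mapDomain f v) = Finsupp.mapDomain f' ((free A I).map θ v) := by
  induction v using Finsupp.induction_linear with
  | zero => simp
  | add x y hx hy => rw [Finsupp.mapDomain_add, map_add, map_add, Finsupp.mapDomain_add, hx, hy]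
  | single x b =>
    rw [Finsupp.mapDomain_single, Kan_row_single, Kan_free_single, Finsupp.mapDomain_single, hf]

theorem Kan_hty {n k m : ℕ} (θ : Op k m) (f : T.X n m → T.X n m) (f' : T.X n k → T.X n k)
    (hf : ∀ x, T.map OrderHom.id θ (f x) = f' (T.map OrderHom.id θ x)) (v : T.X n m →₀ A.obj m) :
    T.tmap OrderHom.id θ (Finsupp.mapDomain f v) =
      Finsupp.mapDomain f' (T.tmap OrderHom.id θ v) := by
  induction v using Finsupp.induction_linear with
  | zero => simp
  | add x y hx hy => rw [Finsupp.mapDomain_add, map_add, map_add, Finsupp.mapDomain_add, hx, hy]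
  | single x b =>
    rw [Finsupp.mapDomain_single, Kan_row_single, Kan_row_single, Finsupp.mapDomain_single, hf]

/-- The fibres are contractible. -/
theorem we_aug (n : ℕ) : (T.aug n).WE := by
  obtain ⟨s, H, ps, sf, Hf, h₀, h₁⟩ := T.Kan_data n
  refine SAb.Hom.we_of_section _ (fun m => Finsupp.mapDomain.addMonoidHom (s m))
    (fun m i y => T.Kan_sec (face i) (s (m + 1)) (s m) (sf m i) y) (fun m y => ?_)
    fun m x hx => ?_
  · change Finsupp.mapDomain T.π (Finsupp.mapDomain (s m) y) = y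
    rw [← Finsupp.mapDomain_comp, show T.π ∘ s m = id from funext (ps m), Finsupp.mapDomain_id]
  · have key := SAb.prism (X := T.bab.row n) (Y := T.bab.row n)
      (fun m χ => Finsupp.mapDomain.addMonoidHom fun x => H m x χ)
      (fun m i χ v => T.Kan_hty (face i) (fun x => H (m + 1) x χ)
        (fun x => H m x (χ.comp (face i))) (fun x => Hf m i x χ) v) hx
    have e₀ : Finsupp.mapDomain (fun x => H m x (vert m 0)) x = x := by
      rw [show (fun x => H m x (vert m 0)) = id from funext (h₀ m), Finsupp.mapDomain_id]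
    have e₁ : Finsupp.mapDomain (fun x => H m x (vert m 1)) x =
        Finsupp.mapDomain (s m) (Finsupp.mapDomain T.π x) := by
      rw [← Finsupp.mapDomain_comp]
      exact congrArg (fun f => Finsupp.mapDomain f x) (funext (h₁ m))
    have key' : (T.bab.row n).Bd (Finsupp.mapDomain (fun x => H m x (vert m 0)) x -
        Finsupp.mapDomain (fun x => H m x (vert m 1)) x) := key
    rw [e₀, e₁] at key'
    exact key'

end Tw

end Pool.Agent.P.MP_932208_ag.Ax
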