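import Pool.Agent.P.MP_932208_ag.Ex.CotL2
import Pool.Agent.P.MP_932208_ag.Ex.Exact0

/-!
Strictifications: restriction and boundary data (matrix form).
-/

namespace Pool.Agent.P.MP_932208_ag.Ax

open Classical

theorem ph_one_iff {U K : Type} [Zero K] [One K] {i : DecidableEq U} {M : Matrix U U K} :
    M = 1 ↔ ∀ a b, (a = b → M a b = 1) ∧ (a ≠ b → M a b = 0) := by
  constructor
  · rintro rfl a b
    exact ⟨fun h => h ▸ Matrix.one_apply_eq a, fun h => Matrix.one_apply_ne h⟩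
  · intro h
    ext a b
    by_cases e : a = b
    · rw [(h a b).1 e, e, Matrix.one_apply_eq]
    · rw [(h a b).2 e, Matrix.one_apply_ne e]

theorem ph_one {U K : Type} [Zero K] [One K] {i j : DecidableEq U} {M : Matrix U U K}
    (h : M = @OfNat.ofNat _ 1 (@One.toOfNat1 _ (@Matrix.one U K i _ _))) :
    M = @OfNat.ofNat _ 1 (@One.toOfNat1 _ (@Matrix.one U K j _ _)) :=
  ph_one_iff.2 (ph_one_iff.1 h)

theorem ph_mul_tri {U R : Type} [Fintype U] [Ring R] {M M' : Matrix U U R} (π : U → Prop)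
    (h₁ : ∀ w w', π w → ¬ π w' → M w w' = 0) (h₂ : ∀ w w', π w → ¬ π w' → M' w w' = 0)
    (w w' : U) (hw : π w) (hw' : ¬ π w') : (M * M') w w' = 0 := by
  rw [Matrix.mul_apply]
  refine Finset.sum_eq_zero fun x _ => ?_
  by_cases hx : π x
  · rw [h₂ x w' hx hw', mul_zero]
  · rw [h₁ w x hw hx, zero_mul]

section Alg
variable {R : Type} [Ring R] {K : Type} [CommRing K] {Γ : DR R K}

theorem ph_inc_ev {U W : Type} (d : Matrix U W K) : (d.map Γ.inc).map Γ.ev = d := by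
  ext a b; simp [Γ.ev_inc]

theorem DR.sd_eq {U : Type} [Fintype U] {δ φ : Matrix U U R} {d : Matrix U U K}
    (ev1 : φ.map Γ.ev = 1) (st : Γ.dM δ φ = d.map Γ.inc * φ) :
    Γ.sd δ φ = d ∧ Γ.res δ φ = 0 := by
  have h : Γ.sd δ φ = d := by
    rw [DR.sd, st, Matrix.map_mul, ev1, ph_inc_ev, Matrix.mul_one]
  exact ⟨h, by rw [DR.res, h, st, sub_self]⟩

theorem ph_dM_sub {U U' : Type} [Fintype U] [Fintype U'] {e : U' → U}
    (he : Function.Injective e) {δ φ : Matrix U U R}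
    (h₁ : ∀ w x w', x ∉ Set.range e → φ (e w) x = 0 ∨ δ x (e w') = 0) :
    Γ.dM (δ.submatrix e e) (φ.submatrix e e) = (Γ.dM δ φ).submatrix e e := by
  have h := submat_mul he (φ.map Γ.e) δ e e fun w x w' hx => by
    rcases h₁ w x w' hx with h | h <;> simp [h]
  unfold DR.dM
  rw [Matrix.submatrix_add, Pi.add_apply, Pi.add_apply, h]
  rfl

/-- Restriction of a strictification to a subquotient. -/
theorem DR.res_sub {U U' : Type} [Fintype U] [Fintype U'] {e : U' → U}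
    (he : Function.Injective e) {δ φ : Matrix U U R}
    (h₁ : ∀ w x w', x ∉ Set.range e → φ (e w) x = 0 ∨ δ x (e w') = 0)
    (h₂ : ∀ w x w', x ∉ Set.range e → Γ.sd δ φ (e w) x = 0 ∨ φ x (e w') = 0) :
    Γ.sd (δ.submatrix e e) (φ.submatrix e e) = (Γ.sd δ φ).submatrix e e ∧
      Γ.res (δ.submatrix e e) (φ.submatrix e e) = (Γ.res δ φ).submatrix e e := by
  have h : Γ.sd (δ.submatrix e e) (φ.submatrix e e) = (Γ.sd δ φ).submatrix e e := by
    rw [DR.sd, ph_dM_sub he h₁]; rfl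
  refine ⟨h, ?_⟩
  have h' := submat_mul he ((Γ.sd δ φ).map Γ.inc) φ e e fun w x w' hx => by
    rcases h₂ w x w' hx with h | h <;> simp [h]
  rw [DR.res, DR.res, h, ph_dM_sub he h₁, Matrix.submatrix_sub, Pi.sub_apply, Pi.sub_apply, h']
  rfl

theorem ph_dM_tri {U : Type} [Fintype U] {δ φ : Matrix U U R} (π : U → Prop)
    (h₁ : ∀ w w', π w → ¬ π w' → δ w w' = 0) (h₂ : ∀ w w', π w → ¬ π w' → φ w w' = 0)
    (w w' : U) (hw : π w) (hw' : ¬ π w') : Γ.dM δ φ w w' = 0 := by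
  rw [DR.dM, Matrix.add_apply, ph_mul_tri π (fun a b ha hb => by simp [h₂ a b ha hb]) h₁ w w' hw hw']
  simp [h₂ w w' hw hw']

/-- The strict differential preserves every set of cells preserved by `δ` and `φ`. -/
theorem DR.sd_tri {U : Type} [Fintype U] {δ φ : Matrix U U R} (π : U → Prop)
    (h₁ : ∀ w w', π w → ¬ π w' → δ w w' = 0) (h₂ : ∀ w w', π w → ¬ π w' → φ w w' = 0)
    (w w' : U) (hw : π w) (hw' : ¬ π w') : Γ.sd δ φ w w' = 0 := by
  rw [DR.sd, Matrix.map_apply, ph_dM_tri π h₁ h₂ w w' hw hw', map_zero]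

theorem ph_res_tri {U : Type} [Fintype U] {δ φ : Matrix U U R} (π : U → Prop)
    (h₁ : ∀ w w', π w → ¬ π w' → δ w w' = 0) (h₂ : ∀ w w', π w → ¬ π w' → φ w w' = 0)
    (w w' : U) (hw : π w) (hw' : ¬ π w') : Γ.res δ φ w w' = 0 := by
  rw [DR.res, Matrix.sub_apply, ph_dM_tri π h₁ h₂ w w' hw hw', ph_mul_tri π
    (fun a b ha hb => by simp [DR.sd_tri π h₁ h₂ a b ha hb]) h₂ w w' hw hw', sub_zero]

theorem ph_sd_deg {U : Type} [Fintype U] {dg : U → ℤ} {δ φ : Matrix U U R}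
    (hδ : Γ.HM dg dg (-1) δ) (hφ : Γ.HM dg dg 0 φ) (s r : U) (h : dg r + 1 ≠ dg s) :
    Γ.sd δ φ s r = 0 :=
  Γ.ev_pos (by omega) (DR.HM.dM Γ hδ hφ s r)

end Alg

variable {A : SRing} {M : ℕ}

/-- Unipotent matrices with prescribed zeros extend from the boundary. -/
theorem ph_ext {U : Type} {dg : U → ℤ} (Z : U → U → Prop) (hZ : ∀ w, ¬ Z w w)
    (φ : ∀ k, Bdy k M → Matrix U U (N (A.cot k)))
    (hm : ∀ k θ, (dgC A k).HM dg dg 0 (φ k θ)) (ev1 : ∀ k θ, (φ k θ).map (dgC A k).ev = 1)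
    (tri : ∀ k θ w w', Z w w' → φ k θ w w' = 0)
    (nat : ∀ {l k : ℕ} (θ : Bdy k M) (η : Op l k), (φ k θ).map (A.rs η) = φ l (θ.comp η)) :
    ∃ φ' : Matrix U U (N (A.cot M)), (dgC A M).HM dg dg 0 φ' ∧ φ'.map (dgC A M).ev = 1 ∧
      (∀ w w', Z w w' → φ' w w' = 0) ∧ ∀ k (θ : Bdy k M), φ'.map (A.rs θ.1) = φ k θ := by
  have h1 : ∀ k w w', (dgC A k).Hg (dg w + 0 - dg w') ((1 : Matrix U U (N (A.cot k))) w w') :=
    fun k w w' => by
    by_cases e : w = w'
    · rw [e, Matrix.one_apply_eq]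
      exact (dgC A k).hg_cast (dgC A k).hg_one (by omega)
    · rw [Matrix.one_apply_ne e]
      exact (dgC A k).hg_zero _
  have h2 : ∀ w w', Z w w' → ∀ k, (1 : Matrix U U (N (A.cot k))) w w' = 0 := fun w w' p k =>
    Matrix.one_apply_ne fun e => hZ w' (e ▸ p)
  have h3 : ∀ {l k : ℕ} (η : Op l k), (1 : Matrix U U (N (A.cot k))).map (A.rs η) = 1 :=
    fun η => Matrix.map_one _ (map_zero _) (map_one _)
  have h4 : ∀ k, (1 : Matrix U U (N (A.cot k))).map (dgC A k).ev = 1 :=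
    fun k => Matrix.map_one _ (map_zero _) (map_one _)
  obtain ⟨y, hy, ry⟩ := SRing.chain_extend (SRing.Hom.id A) (ι := U × U)
    (fun i => dg i.1 + 0 - dg i.2) (fun i => dg i.1 + 0 - dg i.2 = 0 ∨ Z i.1 i.2)
    (fun _ => False) (fun i => Or.inl) (fun k θ i => (φ k θ - 1) i.1 i.2)
    (fun k θ i => by
      have q := (dgC A k).hg_sub (hm k θ i.1 i.2) (h1 k i.1 i.2)
      refine ⟨q, ?_, False.elim⟩
      rintro (p | p)
      · have e : (φ k θ - 1).map (dgC A k).ev = 0 := by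
          rw [Matrix.map_sub _ (map_sub _), ev1, h4, sub_self]
        have e' := (dgC A k).inc_ev ((dgC A k).hg_cast q p)
        exact e'.symm.trans ((congrArg (dgC A k).inc (congrFun (congrFun e i.1) i.2)).trans
          (map_zero _))
      · rw [Matrix.sub_apply, tri k θ _ _ p, h2 _ _ p, sub_self])
    (fun {l k} θ η i => by
      rw [← nat θ η, ← h3 η, ← Matrix.map_sub _ (map_sub _), Matrix.map_apply])
  refine ⟨Matrix.of (fun w w' => y (w, w')) + 1, fun w w' => (dgC A M).hg_add (hy (w, w')).1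
    (h1 M w w'), ?_, fun w w' p => ?_, fun k θ => ?_⟩
  · have e : (Matrix.of fun w w' => y (w, w')).map (dgC A M).ev = 0 := by
      ext w w'
      by_cases p : dg w + 0 - dg w' = 0
      · exact (congrArg (dgC A M).ev ((hy (w, w')).2.1 (Or.inl p))).trans (map_zero _)
      · exact (dgC A M).ev_pos p (hy (w, w')).1
    rw [Matrix.map_add _ (map_add _), e, h4, zero_add]
  · rw [Matrix.add_apply, h2 _ _ p, add_zero]
    exact (hy (w, w')).2.1 (Or.inr p)
  · rw [Matrix.map_add _ (map_add _), h3, ← eq_sub_iff_add_eq]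
    exact Matrix.ext fun w w' => ry k θ (w, w')

theorem ph_res_bdI {U : Type} [Fintype U] {δ φ' : Matrix U U (N (A.cot M))}
    {φ : ∀ k, Bdy k M → Matrix U U (N (A.cot k))}
    (st : ∀ k (θ : Bdy k M), (dgC A k).res (δ.map (A.rs θ.1)) (φ k θ) = 0)
    (h : ∀ k (θ : Bdy k M), φ'.map (A.rs θ.1) = φ k θ) (w w' : U) :
    (dgC A M).res δ φ' w w' ∈ A.bdI M :=
  (A.mem_bdI M _).2 fun k θ => by
    rw [← Matrix.map_apply (f := A.rs θ.1), ← (A.isHom_rs θ.1).res, h, st, Matrix.zero_apply]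

theorem ph_bd_eq {U : Type} {φ₀ φ₁ : Matrix U U (N (A.cot M))}
    (h : ∀ w w', (φ₁ - φ₀) w w' ∈ A.bdI M) {k : ℕ} (θ : Bdy k M) :
    φ₁.map (A.rs θ.1) = φ₀.map (A.rs θ.1) := by
  refine Matrix.ext fun w w' => ?_
  have := (A.mem_bdI M _).1 (h w w') k θ
  rwa [Matrix.sub_apply, map_sub, sub_eq_zero] at this

end Pool.Agent.P.MP_932208_ag.Ax
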