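import Pool.Agent.P.MP_932208_ag.Ex.Tau
import Pool.Agent.P.MP_932208_ag.Ex.Phi0

/-!
Strictifications of acyclic cell complexes with cells labelled by natural numbers.
-/

namespace Pool.Agent.P.MP_932208_ag.Ax

open Classical

section abstract
variable {R R' K K' : Type} [Ring R] [Ring R'] [CommRing K] [CommRing K']

/-- The block `T × T` of `d` is contractible modulo `J`. -/
def AcN (J : Ideal K) (T : Finset ℕ) (dg : ℕ → ℤ) (d : ℕ → ℕ → K) : Prop :=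
  ∃ h : ℕ → ℕ → K, (∀ s r, dg r ≠ dg s + 1 → h s r = 0) ∧ ∀ s ∈ T, ∀ r ∈ T,
    ∑ t ∈ T, d s t * h t r + ∑ t ∈ T, h s t * d t r - (if s = r then 1 else 0) ∈ J

theorem acN_empty (J : Ideal K) (dg : ℕ → ℤ) (d : ℕ → ℕ → K) : AcN J ∅ dg d :=
  ⟨fun _ _ => 0, fun _ _ _ => rfl, fun s hs => absurd hs (Finset.notMem_empty s)⟩

theorem AcN.congr {J : Ideal K} {T : Finset ℕ} {dg dg' : ℕ → ℤ} {d d' : ℕ → ℕ → K}
    (h : AcN J T dg d) (e : ∀ s ∈ T, dg s = dg' s) (e' : ∀ s ∈ T, ∀ r ∈ T, d s r = d' s r) :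
    AcN J T dg' d' := by
  obtain ⟨h, h1, h2⟩ := h
  refine ⟨fun s r => if s ∈ T ∧ r ∈ T then h s r else 0, fun s r p => ?_, fun s hs r hr => ?_⟩
  · by_cases q : s ∈ T ∧ r ∈ T
    · show (if s ∈ T ∧ r ∈ T then h s r else 0) = 0
      rw [if_pos q]
      exact h1 s r (by rwa [e s q.1, e r q.2])
    · exact if_neg q
  · have a1 : ∑ t ∈ T, d' s t * (if t ∈ T ∧ r ∈ T then h t r else 0) = ∑ t ∈ T, d s t * h t r :=
      Finset.sum_congr rfl fun t ht => by rw [if_pos ⟨ht, hr⟩, e' s hs t ht]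
    have a2 : ∑ t ∈ T, (if s ∈ T ∧ t ∈ T then h s t else 0) * d' t r = ∑ t ∈ T, h s t * d t r :=
      Finset.sum_congr rfl fun t ht => by rw [if_pos ⟨hs, ht⟩, e' t ht r hr]
    rw [a1, a2]
    exact h2 s hs r hr

theorem AcN.map {J : Ideal K} {J' : Ideal K'} {T : Finset ℕ} {dg : ℕ → ℤ} {d : ℕ → ℕ → K}
    (h : AcN J T dg d) (g : K →+* K') (hg : ∀ a ∈ J, g a ∈ J') :
    AcN J' T dg fun s r => g (d s r) := by
  obtain ⟨h, h1, h2⟩ := h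
  refine ⟨fun s r => g (h s r), fun s r p => (congrArg g (h1 s r p)).trans (map_zero g),
    fun s hs r hr => ?_⟩
  have := hg _ (h2 s hs r hr)
  simpa only [map_sub, map_add, map_sum, map_mul, apply_ite g, map_one, map_zero] using this

theorem Str_ex0 {J : Ideal K} {T T' : Finset ℕ} {dg : ℕ → ℤ} {d : ℕ → ℕ → K} (h : AcN J T' dg d)
    (π : ℕ → Prop) (hπ : ∀ s, s ∈ T' ↔ s ∈ T ∧ π s) :
    Ex0 J (dgT T dg) (matT T d) fun r => π r := by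
  obtain ⟨h, h1, h2⟩ := h
  have sb : T' ⊆ T := fun s hs => ((hπ s).1 hs).1
  refine ⟨matT T fun s r => if π s ∧ π r then h s r else 0, fun s r p => ?_, fun s r hs hr => ?_⟩
  · have p' : (if π s ∧ π r then h s r else 0) ≠ 0 := p
    by_cases q : π s ∧ π r
    · rw [if_pos q] at p'
      exact ⟨q.1, q.2, by_contra fun k => p' (h1 s r k)⟩
    · exact absurd (if_neg q) p'
  · have a1 : ∑ t : T, d s t * (if π t ∧ π r then h t r else 0) = ∑ t ∈ T', d s t * h t r := by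
      rw [Finset.sum_coe_sort T fun t => d s t * (if π t ∧ π r then h t r else 0),
        ← Finset.sum_subset sb fun t ht ht' => by
          rw [if_neg fun k => ht' ((hπ t).2 ⟨ht, k.1⟩), mul_zero]]
      exact Finset.sum_congr rfl fun t ht => by rw [if_pos ⟨((hπ t).1 ht).2, hr⟩]
    have a2 : ∑ t : T, (if π s ∧ π t then h s t else 0) * d t r = ∑ t ∈ T', h s t * d t r := by
      rw [Finset.sum_coe_sort T fun t => (if π s ∧ π t then h s t else 0) * d t r,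
        ← Finset.sum_subset sb fun t ht ht' => by
          rw [if_neg fun k => ht' ((hπ t).2 ⟨ht, k.2⟩), zero_mul]]
      exact Finset.sum_congr rfl fun t ht => by rw [if_pos ⟨hs, ((hπ t).1 ht).2⟩]
    have a3 := h2 s ((hπ s).2 ⟨s.2, hs⟩) r ((hπ r).2 ⟨r.2, hr⟩)
    rw [← a1, ← a2] at a3
    rw [Matrix.sub_apply, Matrix.add_apply, Matrix.mul_apply, Matrix.mul_apply]
    convert a3 using 2
    · rfl
    by_cases q : s = r
    · exact ((ph_one_iff.1 rfl s r).1 q).trans (if_pos (congrArg Subtype.val q)).symm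
    · exact ((ph_one_iff.1 rfl s r).2 q).trans (if_neg fun k => q (Subtype.ext k)).symm

namespace DR
variable (Γ : DR R K) {Γ' : DR R' K'}

/-- The differential in the basis `φ`. -/
noncomputable def sdN (T : Finset ℕ) (δ φ : ℕ → ℕ → R) (s r : ℕ) : K :=
  Γ.ev (Γ.d (φ s r) + ∑ t ∈ T, Γ.e (φ s t) * δ t r)

/-- The block `T × T` of `δ` is a twisted differential that respects the preorder `P`. -/
structure IsTw (T : Finset ℕ) (dg : ℕ → ℤ) (δ : ℕ → ℕ → R) (P : ℕ → ℕ → Prop) : Prop where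
  hg : ∀ s ∈ T, ∀ r ∈ T, Γ.Hg (dg s - 1 - dg r) (δ s r)
  mc : ∀ s ∈ T, ∀ r ∈ T, Γ.d (δ s r) + ∑ t ∈ T, Γ.e (δ s t) * δ t r = 0
  pat : ∀ s ∈ T, ∀ r ∈ T, ¬ P s r → δ s r = 0
  refl : ∀ s, P s s
  trans : ∀ s r t, P s r → P r t → P s t

/-- `φ` is a strictification of the block `T × T` of `δ` that respects `P`. -/
structure IsStr (T : Finset ℕ) (dg : ℕ → ℤ) (δ : ℕ → ℕ → R) (P : ℕ → ℕ → Prop)
    (φ : ℕ → ℕ → R) : Prop where
  out : ∀ s r, s ∉ T ∨ r ∉ T → φ s r = 0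
  hg : ∀ s ∈ T, ∀ r ∈ T, Γ.Hg (dg s - dg r) (φ s r)
  ev1 : ∀ s ∈ T, ∀ r ∈ T, Γ.ev (φ s r) = if s = r then 1 else 0
  pat : ∀ s ∈ T, ∀ r ∈ T, ¬ P s r → φ s r = 0
  st : ∀ s ∈ T, ∀ r ∈ T, Γ.d (φ s r) + ∑ t ∈ T, Γ.e (φ s t) * δ t r =
    ∑ t ∈ T, Γ.inc (Γ.sdN T δ φ s t) * φ t r

/-- `T'` is the difference of two `P`-closed subsets of `T`. -/
def Cvx (T T' : Finset ℕ) (P : ℕ → ℕ → Prop) : Prop :=
  ∃ P₁ P₀ : ℕ → Prop, (∀ s ∈ T, ∀ r ∈ T, P₁ s → P s r → P₁ r) ∧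
    (∀ s ∈ T, ∀ r ∈ T, P₀ s → P s r → P₀ r) ∧ ∀ s, s ∈ T' ↔ s ∈ T ∧ P₁ s ∧ ¬ P₀ s

theorem Cvx.subset {T T' : Finset ℕ} {P : ℕ → ℕ → Prop} (h : Cvx T T' P) : T' ⊆ T :=
  let ⟨_, _, _, _, h⟩ := h
  fun s hs => ((h s).1 hs).1

/-- Transport of a matrix: apply `g`, rescale the basis by `l`, cut down to `T'`. -/
noncomputable def trp (Γ' : DR R' K') (T' : Finset ℕ) (l : ℕ → K'ˣ) (g : R →+* R')
    (φ : ℕ → ℕ → R) (s r : ℕ) : R' :=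
  if s ∈ T' ∧ r ∈ T' then Γ'.inc (l s) * g (φ s r) * Γ'.inc ↑(l r)⁻¹ else 0

variable {Γ} {T T' : Finset ℕ} {dg dg' : ℕ → ℤ} {δ φ : ℕ → ℕ → R} {δ' : ℕ → ℕ → R'}
  {P P' : ℕ → ℕ → Prop}

theorem Str_mem (cv : Cvx T T' P) {s r t : ℕ} (hs : s ∈ T') (hr : r ∈ T') (ht : t ∈ T)
    (p : P s t) (q : P t r) : t ∈ T' := by
  obtain ⟨P₁, P₀, h1, h0, h⟩ := cv
  obtain ⟨s1, s2, -⟩ := (h s).1 hs
  obtain ⟨r1, -, r3⟩ := (h r).1 hr
  exact (h t).2 ⟨ht, h1 s s1 t ht s2 p, fun k => r3 (h0 t ht r r1 k q)⟩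

theorem Str_sum (cv : Cvx T T' P) {s r : ℕ} (hs : s ∈ T') (hr : r ∈ T') (a b : ℕ → R)
    (ha : ∀ t ∈ T, ¬ P s t → a t = 0) (hb : ∀ t ∈ T, ¬ P t r → b t = 0) :
    ∑ t ∈ T, a t * b t = ∑ t ∈ T', a t * b t := by
  refine (Finset.sum_subset cv.subset fun t ht ht' => ?_).symm
  by_cases p : P s t
  · rw [hb t ht fun q => ht' (Str_mem cv hs hr ht p q), mul_zero]
  · rw [ha t ht p, zero_mul]

theorem Str_d_conj (a b : K) (x : R) :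
    Γ.d (Γ.inc a * x * Γ.inc b) = Γ.inc a * Γ.d x * Γ.inc b := by
  rw [Γ.d_mul, Γ.d_mul, Γ.d_inc, Γ.d_inc, Γ.e_inc, zero_mul, zero_add, mul_zero, add_zero]

theorem Str_e_conj (a b : K) (x : R) :
    Γ.e (Γ.inc a * x * Γ.inc b) = Γ.inc a * Γ.e x * Γ.inc b := by
  rw [map_mul, map_mul, Γ.e_inc, Γ.e_inc]

theorem Str_mul_conj (a c : K) (u : Kˣ) (x y : R) :
    Γ.inc a * x * Γ.inc ↑u⁻¹ * (Γ.inc u * y * Γ.inc c) = Γ.inc a * (x * y) * Γ.inc c := by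
  have h : Γ.inc ↑u⁻¹ * Γ.inc u = 1 := by rw [← map_mul, Units.inv_mul, map_one]
  calc Γ.inc a * x * Γ.inc ↑u⁻¹ * (Γ.inc u * y * Γ.inc c)
      = Γ.inc a * (x * (Γ.inc ↑u⁻¹ * Γ.inc u) * y) * Γ.inc c := by simp only [mul_assoc]
    _ = _ := by rw [h, mul_one]

theorem Str_trp_apply (l : ℕ → K'ˣ) (g : R →+* R') (φ : ℕ → ℕ → R) {s r : ℕ} (hs : s ∈ T')
    (hr : r ∈ T') : trp Γ' T' l g φ s r = Γ'.inc (l s) * g (φ s r) * Γ'.inc ↑(l r)⁻¹ :=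
  if_pos ⟨hs, hr⟩

theorem Str_dv_trp (hδ : Γ.IsTw T dg δ P) (h : Γ.IsStr T dg δ P φ) {g : R →+* R'}
    {g₀ : K →+* K'} (hg : Γ.IsHom Γ' g g₀) (cv : Cvx T T' P) (l : ℕ → K'ˣ)
    (eδ : ∀ s ∈ T', ∀ r ∈ T', δ' s r = Γ'.inc (l s) * g (δ s r) * Γ'.inc ↑(l r)⁻¹)
    {s r : ℕ} (hs : s ∈ T') (hr : r ∈ T') :
    Γ'.d (trp Γ' T' l g φ s r) + ∑ t ∈ T', Γ'.e (trp Γ' T' l g φ s t) * δ' t r =
      Γ'.inc (l s) * g (Γ.d (φ s r) + ∑ t ∈ T, Γ.e (φ s t) * δ t r) * Γ'.inc ↑(l r)⁻¹ := by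
  rw [Str_sum cv hs hr (fun t => Γ.e (φ s t)) (fun t => δ t r)
      (fun t ht p => by rw [h.pat s (cv.subset hs) t ht p, map_zero])
      (fun t ht p => hδ.pat t ht r (cv.subset hr) p),
    map_add, map_sum, mul_add, add_mul, Finset.mul_sum, Finset.sum_mul, Str_trp_apply l g φ hs hr,
    Str_d_conj, hg.d]
  congr 1
  refine Finset.sum_congr rfl fun t ht => ?_
  rw [Str_trp_apply l g φ hs ht, eδ t ht r hr, Str_e_conj, Str_mul_conj, map_mul, hg.e]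

theorem Str_dM (T : Finset ℕ) (δ φ : ℕ → ℕ → R) (s r : T) :
    Γ.dM (matT T δ) (matT T φ) s r = Γ.d (φ s r) + ∑ t ∈ T, Γ.e (φ s t) * δ t r := by
  rw [← Finset.sum_coe_sort T fun t => Γ.e (φ s t) * δ t r]
  rfl

theorem Str_sd (T : Finset ℕ) (δ φ : ℕ → ℕ → R) :
    Γ.sd (matT T δ) (matT T φ) = matT T (Γ.sdN T δ φ) :=
  Matrix.ext fun s r => congrArg Γ.ev (Str_dM T δ φ s r)

theorem Str_inc_mul (T : Finset ℕ) (d : ℕ → ℕ → K) (φ : ℕ → ℕ → R) (s r : T) :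
    ((matT T d).map Γ.inc * matT T φ) s r = ∑ t ∈ T, Γ.inc (d s t) * φ t r := by
  rw [← Finset.sum_coe_sort T fun t => Γ.inc (d s t) * φ t r]
  rfl

theorem Str_hm_tw (hδ : Γ.IsTw T dg δ P) (hT : T' ⊆ T) :
    Γ.HM (dgT T' dg) (dgT T' dg) (-1) (matT T' δ) := fun s r =>
  Γ.hg_cast (hδ.hg s (hT s.2) r (hT r.2)) (by simp only [dgT]; ring)

theorem Str_hm (h : Γ.IsStr T dg δ P φ) : Γ.HM (dgT T dg) (dgT T dg) 0 (matT T φ) := fun s r =>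
  Γ.hg_cast (h.hg s s.2 r r.2) (by simp only [dgT]; ring)

theorem Str_ev1 {i : DecidableEq T} (h : Γ.IsStr T dg δ P φ) : (matT T φ).map Γ.ev = 1 :=
  ph_one_iff.2 fun s r =>
    ⟨fun e => (h.ev1 s s.2 r r.2).trans (if_pos (congrArg Subtype.val e)),
      fun e => (h.ev1 s s.2 r r.2).trans (if_neg fun k => e (Subtype.ext k))⟩

theorem Str_st (h : Γ.IsStr T dg δ P φ) :
    Γ.dM (matT T δ) (matT T φ) = (matT T (Γ.sdN T δ φ)).map Γ.inc * matT T φ :=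
  Matrix.ext fun s r => by rw [Str_dM, Str_inc_mul, h.st s s.2 r r.2]

theorem Str_res (h : Γ.IsStr T dg δ P φ) : Γ.res (matT T δ) (matT T φ) = 0 := by
  rw [res, Str_sd, Str_st h, sub_self]

theorem Str_mc (hδ : Γ.IsTw T dg δ P) (cv : Cvx T T' P) :
    Γ.dM (matT T' δ) (matT T' δ) = 0 := Matrix.ext fun s r => by
  rw [Str_dM, ← Str_sum cv s.2 r.2 (fun t => Γ.e (δ s t)) (fun t => δ t r)
    (fun t ht p => by rw [hδ.pat s (cv.subset s.2) t ht p, map_zero])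
    (fun t ht p => hδ.pat t ht r (cv.subset r.2) p)]
  exact hδ.mc s (cv.subset s.2) r (cv.subset r.2)

theorem Str_cvx_self (T : Finset ℕ) (P : ℕ → ℕ → Prop) : Cvx T T P :=
  ⟨fun _ => True, fun _ => False, fun _ _ _ _ _ _ => trivial, fun _ _ _ _ h _ => h,
    fun _ => ⟨fun h => ⟨h, trivial, not_false⟩, fun h => h.1⟩⟩

theorem Str_of_mat {i : DecidableEq T} (out : ∀ s r, s ∉ T ∨ r ∉ T → φ s r = 0)
    (hm : Γ.HM (dgT T dg) (dgT T dg) 0 (matT T φ)) (ev1 : (matT T φ).map Γ.ev = 1)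
    (pat : ∀ s r : T, ¬ P s r → matT T φ s r = 0) (st : Γ.res (matT T δ) (matT T φ) = 0) :
    Γ.IsStr T dg δ P φ where
  out := out
  hg s hs r hr := Γ.hg_cast (hm ⟨s, hs⟩ ⟨r, hr⟩) (by simp only [dgT]; ring)
  ev1 s hs r hr := by
    have h := ph_one_iff.1 ev1 ⟨s, hs⟩ ⟨r, hr⟩
    by_cases e : s = r
    · rw [if_pos e]; exact h.1 (Subtype.ext e)
    · rw [if_neg e]; exact h.2 fun k => e (congrArg Subtype.val k)
  pat s hs r hr p := pat ⟨s, hs⟩ ⟨r, hr⟩ p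
  st s hs r hr := by
    have h := congrFun (congrFun (sub_eq_zero.1 st) ⟨s, hs⟩) ⟨r, hr⟩
    rwa [Str_sd, Str_dM, Str_inc_mul] at h

theorem Str_strictify {i : DecidableEq T} (sat : Γ.Sat) {I : TwoSidedIdeal R} (hI : Γ.DI I)
    (hδ : Γ.IsTw T dg δ P)
    (ac : ∀ w ∈ T, AcN Γ.J (T.filter (P w)) dg fun s r => Γ.ev (δ s r)) {φ₀ : Matrix T T R}
    (h₀ : Γ.HM (dgT T dg) (dgT T dg) 0 φ₀) (e₀ : φ₀.map Γ.ev = 1)
    (t₀ : ∀ w w' : T, ¬ P w w' → φ₀ w w' = 0) (resI : ∀ w r, Γ.res (matT T δ) φ₀ w r ∈ I) :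
    ∃ ψ, Γ.IsStr T dg δ P ψ ∧ ∀ w r, (matT T ψ - φ₀) w r ∈ I := by
  have hm := Str_hm_tw hδ (Finset.Subset.refl T)
  have tδ : ∀ w x x' : T, P w x → ¬ P w x' → matT T δ x x' = 0 := fun w x x' p q =>
    hδ.pat x x.2 x' x'.2 fun k => q (hδ.trans _ _ _ p k)
  have tφ : ∀ w x x' : T, P w x → ¬ P w x' → φ₀ x x' = 0 := fun w x x' p q =>
    t₀ x x' fun k => q (hδ.trans _ _ _ p k)
  obtain ⟨φ', d, h₂, e₂, i₂, l₂, s₂⟩ := Γ.strictify sat hI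
    (d₀ := Γ.sd (matT T δ) φ₀) (fun w r : T => P w r) hm
    (Str_mc hδ (Str_cvx_self T P)) h₀ (ph_one e₀) (ph_sd_deg hm h₀)
    (fun w r r' p q => hδ.trans _ _ _ p q)
    (fun w r r' p q => not_not.1 fun k => q (tδ w _ _ p k))
    (fun w r r' p q => not_not.1 fun k => q (tφ w _ _ p k))
    (fun w r r' p q => hδ.trans _ _ _ (not_not.1 fun k => p
      (sd_tri (fun x : T => P w x) (tδ w) (tφ w) _ _ (hδ.refl w) k)) q)
    resI (fun w r p => ph_res_tri (fun x : T => P w x) (tδ w) (tφ w) _ _ (hδ.refl w) p)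
    (fun w => Str_ex0 (ac w w.2) (P w) fun s => Finset.mem_filter)
  obtain ⟨ψ, ψ0, ψ1⟩ : ∃ ψ : ℕ → ℕ → R,
      (∀ s r, s ∉ T ∨ r ∉ T → ψ s r = 0) ∧ matT T ψ = φ' :=
    ⟨fun s r => if h : s ∈ T ∧ r ∈ T then φ' ⟨s, h.1⟩ ⟨r, h.2⟩ else 0,
      fun s r p => dif_neg fun k => p.elim (fun a => a k.1) fun a => a k.2,
      Matrix.ext fun s r => dif_pos ⟨s.2, r.2⟩⟩
  subst ψ1
  exact ⟨ψ, Str_of_mat ψ0 h₂ e₂ (fun s r p => (l₂ s r p).trans (t₀ s r p)) (sd_eq e₂ s₂).2, i₂⟩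

theorem Str_map (T : Finset ℕ) (δ : ℕ → ℕ → R) (g : R → R') :
    (matT T δ).map g = matT T fun s r => g (δ s r) := rfl

theorem Str_isHom_id (Γ : DR R K) : Γ.IsHom Γ (RingHom.id R) (RingHom.id K) :=
  ⟨fun _ => rfl, fun _ => rfl, fun h => h, fun _ => rfl, fun _ => rfl⟩

theorem IsStr.sd_pat (hδ : Γ.IsTw T dg δ P) (h : Γ.IsStr T dg δ P φ) {s r : ℕ} (hs : s ∈ T)
    (hr : r ∈ T) (p : ¬ P s r) : Γ.sdN T δ φ s r = 0 := by
  rw [sdN, h.pat s hs r hr p, map_zero, zero_add, Finset.sum_eq_zero, map_zero]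
  intro t ht
  by_cases q : P s t
  · rw [hδ.pat t ht r hr fun k => p (hδ.trans s t r q k), mul_zero]
  · rw [h.pat s hs t ht q, map_zero, zero_mul]

theorem IsStr.sd_trp (hδ : Γ.IsTw T dg δ P) (h : Γ.IsStr T dg δ P φ) {g : R →+* R'}
    {g₀ : K →+* K'} (hg : Γ.IsHom Γ' g g₀) (cv : Cvx T T' P) (l : ℕ → K'ˣ)
    (eδ : ∀ s ∈ T', ∀ r ∈ T', δ' s r = Γ'.inc (l s) * g (δ s r) * Γ'.inc ↑(l r)⁻¹)
    {s r : ℕ} (hs : s ∈ T') (hr : r ∈ T') :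
    Γ'.sdN T' δ' (trp Γ' T' l g φ) s r = l s * g₀ (Γ.sdN T δ φ s r) * ↑(l r)⁻¹ := by
  rw [sdN, Str_dv_trp hδ h hg cv l eδ hs hr, map_mul, map_mul, Γ'.ev_inc, Γ'.ev_inc, sdN, hg.ev]

theorem IsStr.trp (hδ : Γ.IsTw T dg δ P) (h : Γ.IsStr T dg δ P φ) {g : R →+* R'}
    {g₀ : K →+* K'} (hg : Γ.IsHom Γ' g g₀) (cv : Cvx T T' P) (l : ℕ → K'ˣ)
    (ed : ∀ s ∈ T', dg' s = dg s)
    (eδ : ∀ s ∈ T', ∀ r ∈ T', δ' s r = Γ'.inc (l s) * g (δ s r) * Γ'.inc ↑(l r)⁻¹)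
    (eP : ∀ s ∈ T', ∀ r ∈ T', P s r → P' s r) :
    Γ'.IsStr T' dg' δ' P' (trp Γ' T' l g φ) := by
  refine ⟨fun s r p => if_neg fun k => p.elim (fun a => a k.1) fun a => a k.2,
    fun s hs r hr => ?_, fun s hs r hr => ?_, fun s hs r hr p => ?_, fun s hs r hr => ?_⟩
  · rw [Str_trp_apply l g φ hs hr, ed s hs, ed r hr]
    exact Γ'.hg_cast (Γ'.hg_mul (Γ'.hg_mul (Γ'.hg_inc _)
      (hg.hg (h.hg s (cv.subset hs) r (cv.subset hr)))) (Γ'.hg_inc _)) (by ring)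
  · rw [Str_trp_apply l g φ hs hr, map_mul, map_mul, Γ'.ev_inc, Γ'.ev_inc, ← hg.ev,
      h.ev1 s (cv.subset hs) r (cv.subset hr)]
    by_cases e : s = r
    · rw [if_pos e, if_pos e, map_one, mul_one, e, Units.mul_inv]
    · rw [if_neg e, if_neg e, map_zero, mul_zero, zero_mul]
  · rw [Str_trp_apply l g φ hs hr, h.pat s (cv.subset hs) r (cv.subset hr)
      fun k => p (eP s hs r hr k), map_zero, mul_zero, zero_mul]
  · rw [Str_dv_trp hδ h hg cv l eδ hs hr, h.st s (cv.subset hs) r (cv.subset hr),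
      Str_sum cv hs hr (fun t => Γ.inc (Γ.sdN T δ φ s t)) (fun t => φ t r)
        (fun t ht p => by rw [h.sd_pat hδ (cv.subset hs) ht p, map_zero])
        (fun t ht p => h.pat t ht r (cv.subset hr) p),
      map_sum, Finset.mul_sum, Finset.sum_mul]
    refine Finset.sum_congr rfl fun t ht => ?_
    rw [h.sd_trp hδ hg cv l eδ hs ht, Str_trp_apply l g φ ht hr, map_mul, map_mul, map_mul,
      Str_mul_conj, hg.inc]

/-- The strict differential is exact on every acyclic subquotient. -/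
theorem IsStr.cx (sat : Γ.Sat) (hδ : Γ.IsTw T dg δ P) (h : Γ.IsStr T dg δ P φ) (cv : Cvx T T' P)
    (ac : AcN Γ.J T' dg fun s r => Γ.ev (δ s r)) : CxN T' dg (Γ.sdN T δ φ) := by
  have eδ : ∀ s ∈ T', ∀ r ∈ T', δ s r =
      Γ.inc ((fun _ => 1 : ℕ → Kˣ) s) * RingHom.id R (δ s r) * Γ.inc ↑((fun _ => 1 : ℕ → Kˣ) r)⁻¹ :=
    fun s _ r _ => by simp
  have h1 := h.trp (dg' := dg) (P' := P) hδ (Str_isHom_id Γ) cv (fun _ => 1) (fun _ _ => rfl) eδ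
    fun _ _ _ _ p => p
  have h2 : matT T' (Γ.sdN T' δ (DR.trp Γ T' (fun _ => 1) (RingHom.id R) φ)) =
      matT T' (Γ.sdN T δ φ) := Matrix.ext fun s r =>
    (h.sd_trp hδ (Str_isHom_id Γ) cv (fun _ => 1) eδ s.2 r.2).trans (by simp [matT])
  have h3 := Str_st h1
  rw [h2] at h3
  exact Γ.cx_of_strict sat (Str_hm_tw hδ cv.subset) (Str_mc hδ cv) (Str_hm h1) (Str_ev1 h1) h3
    (Str_ex0 ac (fun _ => True) fun _ => ⟨fun a => ⟨a, trivial⟩, fun a => a.1⟩)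

theorem IsStr.trp_id (h : Γ.IsStr T dg δ P φ) {g : R →+* R} (hg : ∀ x, g x = x) {l : ℕ → Kˣ}
    (hl : ∀ s, l s = 1) : DR.trp Γ T l g φ = φ := by
  funext s r
  by_cases p : s ∈ T ∧ r ∈ T
  · rw [Str_trp_apply l g φ p.1 p.2, hg, hl, hl]
    simp
  · rw [h.out s r (not_and_or.1 p)]
    exact if_neg p

theorem trp_trp {R'' K'' : Type} [Ring R''] [CommRing K''] {Γ'' : DR R'' K''} {T'' : Finset ℕ}
    (hT : T'' ⊆ T') (l : ℕ → K'ˣ) (l' l'' : ℕ → K''ˣ) (g : R →+* R') {g' : R' →+* R''}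
    {g₀' : K' →+* K''} (hg' : Γ'.IsHom Γ'' g' g₀') (g'' : R →+* R'') (e : ∀ x, g'' x = g' (g x))
    (el : ∀ s ∈ T'', l'' s = l' s * Units.map g₀'.toMonoidHom (l s)) (φ : ℕ → ℕ → R) :
    DR.trp Γ'' T'' l' g' (DR.trp Γ' T' l g φ) = DR.trp Γ'' T'' l'' g'' φ := by
  funext s r
  by_cases p : s ∈ T'' ∧ r ∈ T''
  · rw [Str_trp_apply _ _ _ p.1 p.2, Str_trp_apply _ _ _ p.1 p.2,
      Str_trp_apply _ _ _ (hT p.1) (hT p.2), el s p.1, el r p.2, e, map_mul, map_mul, hg'.inc,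
      hg'.inc, mul_inv_rev, Units.val_mul, Units.val_mul, map_mul, map_mul, ← map_inv]
    simp only [mul_assoc]
    rfl
  · exact (if_neg p).trans (if_neg p).symm

end DR

end abstract

/-- Strictifications extend from the boundary of a simplex. -/
theorem str_extend {A : SRing} (sat : A.Sat) {M : ℕ} {T : Finset ℕ} {dg : ℕ → ℤ}
    {δ : ℕ → ℕ → N (A.cot M)} {P : ℕ → ℕ → Prop} (hδ : (dgC A M).IsTw T dg δ P)
    (ac : ∀ w ∈ T, AcN (dgC A M).J (T.filter (P w)) dg fun s r => (dgC A M).ev (δ s r))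
    (φ : ∀ k, Bdy k M → ℕ → ℕ → N (A.cot k))
    (hφ : ∀ k (θ : Bdy k M), (dgC A k).IsStr T dg (fun s r => A.rs θ.1 (δ s r)) P (φ k θ))
    (nat : ∀ {l k : ℕ} (θ : Bdy k M) (η : Op l k) s r,
      A.rs η (φ k θ s r) = φ l (θ.comp η) s r) :
    ∃ φ', (dgC A M).IsStr T dg δ P φ' ∧
      ∀ k (θ : Bdy k M) s r, A.rs θ.1 (φ' s r) = φ k θ s r := by
  obtain ⟨φ₀, h₀, e₀, t₀, r₀⟩ := ph_ext (dg := dgT T dg) (fun w w' : T => ¬ P w w')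
    (fun w p => p (hδ.refl w)) (fun k θ => matT T (φ k θ)) (fun k θ => DR.Str_hm (hφ k θ))
    (fun k θ => DR.Str_ev1 (hφ k θ)) (fun k θ w w' p => (hφ k θ).pat w w.2 w' w'.2 p)
    (fun θ η => Matrix.ext fun s r => nat θ η s r)
  have st : ∀ k (θ : Bdy k M),
      (dgC A k).res ((matT T δ).map (A.rs θ.1)) (matT T (φ k θ)) = 0 := fun k θ => by
    rw [DR.Str_map]
    exact DR.Str_res (hφ k θ)
  obtain ⟨ψ, h1, h2⟩ := DR.Str_strictify (sat.dgC M) (A.di_bdI M) hδ ac h₀ e₀ t₀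
    (ph_res_bdI st r₀)
  refine ⟨ψ, h1, fun k θ s r => ?_⟩
  by_cases p : s ∈ T ∧ r ∈ T
  · exact congrFun (congrFun ((ph_bd_eq h2 θ).trans (r₀ k θ)) ⟨s, p.1⟩) ⟨r, p.2⟩
  · rw [h1.out s r (not_and_or.1 p), map_zero, (hφ k θ).out s r (not_and_or.1 p)]

end Pool.Agent.P.MP_932208_ag.Ax
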