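import Pool.Agent.P.MP_932208_ag.Ex.Cel
import Pool.Agent.P.MP_932208_ag.Ex.Str

/-!
Maps from cell modules lift along quasi-isomorphisms, up to homotopy, coherently.
-/

namespace Pool.Agent.P.MP_932208_ag.Ax

open CategoryTheory

variable {A B : SRing}

theorem Lift_rank (S : Finset ℕ) (dg : ℕ → ℤ) {r s : ℕ} (hr : r ∈ S) (h : dg r < dg s) :
    (S.filter fun t => dg t < dg r).card < (S.filter fun t => dg t < dg s).card := by
  refine Finset.card_lt_card ⟨fun t ht => ?_, fun c => ?_⟩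
  · rw [Finset.mem_filter] at ht ⊢
    exact ⟨ht.1, ht.2.trans h⟩
  · exact lt_irrefl _ (Finset.mem_filter.1 (c (Finset.mem_filter.2 ⟨hr, h⟩))).2

/-- A recursion over the cells by increasing degree has a solution. -/
theorem exists_rec {X : Type} (S : Finset ℕ) (dg : ℕ → ℤ) (T : (ℕ → X) → ℕ → X)
    (hT : ∀ g g' s, s ∈ S → (∀ r ∈ S, dg r < dg s → g r = g' r) → T g s = T g' s) (x₀ : X) :
    ∃ g : ℕ → X, ∀ s ∈ S, g s = T g s := by
  have key : ∀ n, ∀ s ∈ S, (S.filter fun t => dg t < dg s).card < n →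
      T^[n] (fun _ => x₀) s = T (T^[n] fun _ => x₀) s := by
    intro n
    induction n with
    | zero => exact fun s _ h => absurd h (Nat.not_lt_zero _)
    | succ n ih =>
      intro s hs h
      rw [Function.iterate_succ_apply']
      exact hT _ _ s hs fun r hr l => ih r hr (by have := Lift_rank S dg hr l; omega)
  exact ⟨_, fun s hs => key (S.card + 1) s hs (Nat.lt_succ_of_le (Finset.card_filter_le _ _))⟩

/-- Induction over the cells by increasing degree. -/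
theorem cell_induction (S : Finset ℕ) (dg : ℕ → ℤ) {P : ℕ → Prop}
    (h : ∀ s ∈ S, (∀ r ∈ S, dg r < dg s → P r) → P s) : ∀ s ∈ S, P s := by
  have key : ∀ n, ∀ s ∈ S, (S.filter fun t => dg t < dg s).card < n → P s := by
    intro n
    induction n with
    | zero => exact fun s _ h => absurd h (Nat.not_lt_zero _)
    | succ n ih =>
      exact fun s hs l => h s hs fun r hr l' => ih r hr (by have := Lift_rank S dg hr l'; omega)
  exact fun s hs => key _ s hs (Nat.lt_succ_self _)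

theorem Lift_smul {D M : DG A} (u : DG.Hom (𝟙 A) D M) (a : N A) (x : D.V) :
    u.toFun (a • x) = a • u.toFun x := u.map_smul a x

theorem Lift_gr (M : DG A) {n k l : ℤ} {a : N A} {x : M.V} (ha : N.Hg n a) (hx : x ∈ M.gr k)
    (e : l = n + k) : a • x ∈ M.gr l := e ▸ M.smul_mem ha hx

theorem Lift_sum_sum {V : Type} [AddCommGroup V] [Module (N A) V] (S : Finset ℕ) (a : ℕ → N A)
    (b : ℕ → ℕ → N A) (x : ℕ → V) :
    ∑ r ∈ S, a r • ∑ t ∈ S, b r t • x t = ∑ t ∈ S, (∑ r ∈ S, a r * b r t) • x t := by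
  simp only [Finset.smul_sum, Finset.sum_smul, mul_smul]
  exact Finset.sum_comm

/-- `f` lifts `P` along `u`, up to the homotopy `H`. -/
structure IsLift {D M : DG A} (u : DG.Hom (𝟙 A) D M) (P : PD M) (f : ℕ → D.V) (H : ℕ → M.V) :
    Prop where
  f_gr : ∀ s ∈ P.C.S, f s ∈ D.gr (P.C.dg s)
  f_d : ∀ s ∈ P.C.S, D.d (f s) = ∑ r ∈ P.C.S, P.C.δ s r • f r
  H_gr : ∀ s ∈ P.C.S, H s ∈ M.gr (P.C.dg s + 1)
  H_d : ∀ s ∈ P.C.S, u.toFun (f s) - P.p s = M.d (H s) + ∑ r ∈ P.C.S, N.sg (P.C.δ s r) • H r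

namespace IsLift
variable {D M : DG A} {u : DG.Hom (𝟙 A) D M} {P : PD M} {f : ℕ → D.V} {H : ℕ → M.V}
  (h : IsLift u P f H)

/-- The lifted map. -/
@[reducible] def pd : PD D := ⟨P.C, f, h.f_gr, h.f_d⟩

theorem bdry {k : ℤ} {x : P.C.V} (hx : P.C.dm.Cycle k x) :
    M.Bdry k (u.toFun (h.pd.hom.toFun x) - P.hom.toFun x) := by
  refine ⟨∑ s ∈ P.C.S, N.sg (x.1 s) • H s, sum_mem fun s hs =>
    Lift_gr M (N.hg_sg (hx.1 s)) (h.H_gr s hs) (by ring), ?_⟩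
  have e : ∀ r, N.bd (N.sg (x.1 r)) = ∑ s ∈ P.C.S, x.1 s * N.sg (P.C.δ s r) := fun r => by
    have h1 : N.bd (x.1 r) + ∑ s ∈ P.C.S, N.sg (x.1 s) * P.C.δ s r = 0 :=
      congrArg (fun y : P.C.V => y.1 r) hx.2
    rw [N.bd_sg, eq_neg_of_add_eq_zero_left h1, map_neg, neg_neg, map_sum]
    simp only [map_mul, N.sg_sg]
  rw [PD.hom_apply, PD.hom_apply, map_sum, map_sum, ← Finset.sum_sub_distrib]
  simp only [M.d_smul, N.sg_sg, e]
  rw [Finset.sum_add_distrib, ← Lift_sum_sum, ← Finset.sum_add_distrib]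
  refine Finset.sum_congr rfl fun s hs => ?_
  rw [Lift_smul, ← smul_sub, h.H_d s hs, smul_add, add_comm]

theorem qi_iff (hu : u.QI) : h.pd.QI ↔ P.QI := by
  have t : (h.pd.hom.comp u (Category.comp_id _)).Tri h.pd.hom u := fun _ => rfl
  refine ⟨fun p => (DG.Hom.QI.tri t p hu).congr_bdry fun k x hx => h.bdry hx,
    fun p => DG.Hom.QI.tri_left t (DG.Hom.QI.congr_bdry p fun k x hx => ?_) hu⟩
  have := (M.Bd k).neg_mem (h.bdry hx)
  rwa [neg_sub] at this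

include h in
theorem map {φ : A ⟶ B} {D' M' : DG B} {u' : DG.Hom (𝟙 B) D' M'} (a : DG.Hom φ D D')
    (b : DG.Hom φ M M') (s : u.Sq b a u') :
    IsLift u' (P.map b) (fun s => a.toFun (f s)) fun s => b.toFun (H s) where
  f_gr t ht := a.map_gr (h.f_gr t ht)
  f_d t ht := by
    rw [← a.map_d, h.f_d t ht, map_sum]
    exact Finset.sum_congr rfl fun r _ => a.map_smul _ _
  H_gr t ht := b.map_gr (h.H_gr t ht)
  H_d t ht := by
    rw [← s, ← map_sub, h.H_d t ht, map_add, b.map_d, map_sum]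
    refine congrArg _ (Finset.sum_congr rfl fun r _ => ?_)
    rw [b.map_smul, N.map_sg]

end IsLift

section step
variable {D M : DG A} {u : DG.Hom (𝟙 A) D M}

/-- The lifting conditions at one cell. -/
def Lift_At (u : DG.Hom (𝟙 A) D M) (P : PD M) (g : ℕ → D.V × M.V) (s : ℕ) : Prop :=
  (g s).1 ∈ D.gr (P.C.dg s) ∧ D.d (g s).1 = ∑ r ∈ P.C.S, P.C.δ s r • (g r).1 ∧
    (g s).2 ∈ M.gr (P.C.dg s + 1) ∧
    u.toFun (g s).1 - P.p s = M.d (g s).2 + ∑ r ∈ P.C.S, N.sg (P.C.δ s r) • (g r).2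

theorem Lift_isLift {P : PD M} {g : ℕ → D.V × M.V} (h : ∀ s ∈ P.C.S, Lift_At u P g s) :
    IsLift u P (fun s => (g s).1) fun s => (g s).2 :=
  ⟨fun s hs => (h s hs).1, fun s hs => (h s hs).2.1, fun s hs => (h s hs).2.2.1,
    fun s hs => (h s hs).2.2.2⟩

/-- A solution of the lifting step. -/
def Lift_St (u : DG.Hom (𝟙 A) D M) (st : ℤ → D.V → M.V → D.V × M.V) : Prop :=
  ∀ k z y, D.Cycle (k - 1) z → y ∈ M.gr k → M.d y = u.toFun z → (st k z y).1 ∈ D.gr k ∧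
    (st k z y).2 ∈ M.gr (k + 1) ∧ D.d (st k z y).1 = z ∧
    u.toFun (st k z y).1 - y = M.d (st k z y).2

theorem Lift_exists_st (hu : u.QI) : ∃ st, Lift_St u st := by
  have : ∀ k z y, ∃ w : D.V × M.V, D.Cycle (k - 1) z → y ∈ M.gr k → M.d y = u.toFun z →
      w.1 ∈ D.gr k ∧ w.2 ∈ M.gr (k + 1) ∧ D.d w.1 = z ∧ u.toFun w.1 - y = M.d w.2 := by
    intro k z y
    by_cases c : D.Cycle (k - 1) z ∧ y ∈ M.gr k ∧ M.d y = u.toFun z
    · obtain ⟨x, hx, w, hw, e⟩ := hu.lift c.1 c.2.1 c.2.2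
      exact ⟨(x, w), fun _ _ _ => ⟨hx, hw, e⟩⟩
    · exact ⟨0, fun h1 h2 h3 => absurd ⟨h1, h2, h3⟩ c⟩
  choose st h using this
  exact ⟨st, h⟩

/-- The value at the cell `s` computed from the cells below. -/
noncomputable def Lift_T (st : ℤ → D.V → M.V → D.V × M.V) (P : PD M) (g : ℕ → D.V × M.V)
    (s : ℕ) : D.V × M.V :=
  st (P.C.dg s) (∑ r ∈ P.C.S, P.C.δ s r • (g r).1)
    (P.p s + ∑ r ∈ P.C.S, N.sg (P.C.δ s r) • (g r).2)

theorem Lift_sum_le {V : Type} [AddCommGroup V] [Module (N A) V] {C C' : Cel A} (e : C ≤ C')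
    {s : ℕ} (hs : s ∈ C.S) (σ : N A →+* N A) {x x' : ℕ → V}
    (h : ∀ r ∈ C.S, C.dg r < C.dg s → x r = x' r) :
    ∑ r ∈ C.S, σ (C.δ s r) • x r = ∑ r ∈ C'.S, σ (C'.δ s r) • x' r := by
  rw [← Finset.sum_subset e.1 fun r _ hr => by
    rw [Cel.closed_of_le e s r hs hr, map_zero, zero_smul]]
  refine Finset.sum_congr rfl fun r hr => ?_
  rw [← (e.2 s hs).2 r]
  by_cases c : C.δ s r = 0
  · rw [c, map_zero, zero_smul, zero_smul]
  · rw [h r hr (C.lt_of_ne c).2.2]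

theorem Lift_T_mono (st : ℤ → D.V → M.V → D.V × M.V) {P P' : PD M} (e : P ≤ P')
    {g g' : ℕ → D.V × M.V} {s : ℕ} (hs : s ∈ P.C.S)
    (h : ∀ r ∈ P.C.S, P.C.dg r < P.C.dg s → g r = g' r) : Lift_T st P g s = Lift_T st P' g' s := by
  have h1 := Lift_sum_le e.1 hs (RingHom.id _) fun r hr l => congrArg Prod.fst (h r hr l)
  have h2 := Lift_sum_le e.1 hs N.sg fun r hr l => congrArg Prod.snd (h r hr l)
  simp only [RingHom.id_apply] at h1
  rw [Lift_T, Lift_T, h1, h2, (e.1.2 s hs).1, e.2 s hs]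

theorem Lift_step {st : ℤ → D.V → M.V → D.V × M.V} (hst : Lift_St u st) {P : PD M}
    {g : ℕ → D.V × M.V} {s : ℕ} (hs : s ∈ P.C.S) (e : g s = Lift_T st P g s)
    (ih : ∀ r ∈ P.C.S, P.C.dg r < P.C.dg s → Lift_At u P g r) : Lift_At u P g s := by
  have ih' : ∀ r ∈ P.C.S, P.C.δ s r = 0 ∨ Lift_At u P g r := fun r hr =>
    (eq_or_ne _ _).imp_right fun c => ih r hr (P.C.lt_of_ne c).2.2
  have z1 : ∑ r ∈ P.C.S, P.C.δ s r • (g r).1 ∈ D.gr (P.C.dg s - 1) := sum_mem fun r hr => by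
    rcases ih' r hr with c | c
    · rw [c, zero_smul]
      exact zero_mem _
    · exact Lift_gr D (P.C.hg s r) c.1 (by ring)
  have z2 : D.d (∑ r ∈ P.C.S, P.C.δ s r • (g r).1) = 0 := by
    have : ∀ r ∈ P.C.S, D.d (P.C.δ s r • (g r).1) = N.bd (P.C.δ s r) • (g r).1 +
        N.sg (P.C.δ s r) • ∑ t ∈ P.C.S, P.C.δ r t • (g t).1 := fun r hr => by
      rw [D.d_smul]
      rcases ih' r hr with c | c
      · simp only [c, map_zero, zero_smul]
      · rw [c.2.1]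
    rw [map_sum, Finset.sum_congr rfl this, Finset.sum_add_distrib, Lift_sum_sum,
      ← Finset.sum_add_distrib]
    exact Finset.sum_eq_zero fun t _ => by rw [← add_smul, P.C.mc, zero_smul]
  have y1 : P.p s + ∑ r ∈ P.C.S, N.sg (P.C.δ s r) • (g r).2 ∈ M.gr (P.C.dg s) :=
    add_mem (P.gr s hs) (sum_mem fun r hr => by
      rcases ih' r hr with c | c
      · rw [c, map_zero, zero_smul]
        exact zero_mem _
      · exact Lift_gr M (N.hg_sg (P.C.hg s r)) c.2.2.1 (by ring))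
  have y2 : M.d (P.p s + ∑ r ∈ P.C.S, N.sg (P.C.δ s r) • (g r).2) =
      u.toFun (∑ r ∈ P.C.S, P.C.δ s r • (g r).1) := by
    have e1 : ∀ r, N.bd (N.sg (P.C.δ s r)) = ∑ t ∈ P.C.S, P.C.δ s t * N.sg (P.C.δ t r) :=
      fun r => by
        rw [N.bd_sg, eq_neg_of_add_eq_zero_left (P.C.mc s r), map_neg, neg_neg, map_sum]
        simp only [map_mul, N.sg_sg]
    rw [map_add, P.d_p s hs, map_sum, map_sum]
    simp only [M.d_smul, N.sg_sg, e1]
    rw [Finset.sum_add_distrib, ← Lift_sum_sum, ← Finset.sum_add_distrib,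
      ← Finset.sum_add_distrib]
    refine Finset.sum_congr rfl fun r hr => ?_
    rw [Lift_smul]
    rcases ih' r hr with c | c
    · simp only [c, zero_smul, add_zero]
    · rw [← smul_add, ← smul_add, eq_add_of_sub_eq c.2.2.2]
      congr 1
      abel
  obtain ⟨a1, a2, a3, a4⟩ := hst _ _ _ ⟨z1, z2⟩ y1 y2
  rw [Lift_T] at e
  rw [← e] at a1 a2 a3 a4
  refine ⟨a1, a3, a2, ?_⟩
  rw [← a4]
  abel

theorem Lift_rec (st : ℤ → D.V → M.V → D.V × M.V) (P : PD M) :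
    ∃ g, ∀ s ∈ P.C.S, g s = Lift_T st P g s :=
  exists_rec P.C.S P.C.dg (Lift_T st P) (fun _ _ _ hs h => Lift_T_mono st le_rfl hs h) 0

theorem Lift_all {st : ℤ → D.V → M.V → D.V × M.V} (hst : Lift_St u st) {P : PD M}
    {g : ℕ → D.V × M.V} (e : ∀ s ∈ P.C.S, g s = Lift_T st P g s) :
    ∀ s ∈ P.C.S, Lift_At u P g s :=
  cell_induction P.C.S P.C.dg fun s hs ih => Lift_step hst hs (e s hs) ih

end step

theorem exists_lift {D M : DG A} {u : DG.Hom (𝟙 A) D M} (hu : u.QI) (P : PD M) :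
    ∃ f H, IsLift u P f H := by
  obtain ⟨st, hst⟩ := Lift_exists_st hu
  obtain ⟨g, e⟩ := Lift_rec st P
  exact ⟨_, _, Lift_isLift (Lift_all hst e)⟩

/-- Lifts of pairs, compatible with inclusions. -/
theorem exists_lift₂ {D₁ D₂ M₁ M₂ : DG A} {u₁ : DG.Hom (𝟙 A) D₁ M₁} {u₂ : DG.Hom (𝟙 A) D₂ M₂}
    (h₁ : u₁.QI) (h₂ : u₂.QI) {j : DG.Hom (𝟙 A) D₁ D₂} {i : DG.Hom (𝟙 A) M₁ M₂}
    (sq : j.Sq u₂ u₁ i) :
    ∃ (f₁ : MPD i → ℕ → D₁.V) (H₁ : MPD i → ℕ → M₁.V) (f₂ : MPD i → ℕ → D₂.V)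
      (H₂ : MPD i → ℕ → M₂.V), (∀ q, IsLift u₁ q.P₁ (f₁ q) (H₁ q)) ∧
      (∀ q, IsLift u₂ q.P₂ (f₂ q) (H₂ q)) ∧
      (∀ q, ∀ s ∈ q.P₁.C.S, j.toFun (f₁ q s) = f₂ q s ∧ i.toFun (H₁ q s) = H₂ q s) ∧
      ∀ q q', q ≤ q' → (∀ s ∈ q.P₁.C.S, f₁ q s = f₁ q' s ∧ H₁ q s = H₁ q' s) ∧
        ∀ s ∈ q.P₂.C.S, f₂ q s = f₂ q' s ∧ H₂ q s = H₂ q' s := by
  obtain ⟨st₁, hst₁⟩ := Lift_exists_st h₁
  obtain ⟨st₂, hst₂⟩ := Lift_exists_st h₂
  choose g₁ e₁ using fun q : MPD i => Lift_rec st₁ q.P₁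
  have a₁ := fun q => Lift_all hst₁ (e₁ q)
  choose g₂ e₂ using fun q : MPD i => exists_rec q.P₂.C.S q.P₂.C.dg
    (fun g s => if s ∈ q.P₁.C.S then (j.toFun (g₁ q s).1, i.toFun (g₁ q s).2)
      else Lift_T st₂ q.P₂ g s)
    (fun _ _ s hs h => by rw [Lift_T_mono st₂ le_rfl hs h]) 0
  have c₁ : ∀ q : MPD i, ∀ s ∈ q.P₁.C.S, g₂ q s = (j.toFun (g₁ q s).1, i.toFun (g₁ q s).2) :=
    fun q s hs => (e₂ q s (q.le.1 hs)).trans (if_pos hs)
  have c₂ : ∀ q : MPD i, ∀ s ∈ q.P₂.C.S, s ∉ q.P₁.C.S → g₂ q s = Lift_T st₂ q.P₂ (g₂ q) s :=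
    fun q s hs hn => (e₂ q s hs).trans (if_neg hn)
  have m₁ : ∀ q q' : MPD i, q ≤ q' → ∀ s ∈ q.P₁.C.S, g₁ q s = g₁ q' s := fun q q' e =>
    cell_induction q.P₁.C.S q.P₁.C.dg fun s hs ih => by
      rw [e₁ q s hs, e₁ q' s (e.1.1.1 hs)]
      exact Lift_T_mono st₁ e.1 hs ih
  have m₂ : ∀ q q' : MPD i, q ≤ q' → ∀ s ∈ q.P₂.C.S, g₂ q s = g₂ q' s := fun q q' e =>
    cell_induction q.P₂.C.S q.P₂.C.dg fun s hs ih => by
      by_cases c : s ∈ q.P₁.C.S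
      · rw [c₁ q s c, c₁ q' s (e.1.1.1 c), m₁ q q' e s c]
      · rw [c₂ q s hs c, c₂ q' s (e.2.1.1.1 hs) fun p => c (e.2.2 s hs p)]
        exact Lift_T_mono st₂ e.2.1 hs ih
  refine ⟨fun q s => (g₁ q s).1, fun q s => (g₁ q s).2, fun q s => (g₂ q s).1,
    fun q s => (g₂ q s).2, fun q => Lift_isLift (a₁ q), fun q => Lift_isLift
      (cell_induction q.P₂.C.S q.P₂.C.dg fun s hs ih => ?_), fun q s hs => ?_,
    fun q q' e => ⟨fun s hs => ?_, fun s hs => ?_⟩⟩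
  · by_cases c : s ∈ q.P₁.C.S
    · obtain ⟨b1, b2, b3, b4⟩ := a₁ q s c
      have h1 := Lift_sum_le q.le c (RingHom.id _) (x := fun r => j.toFun (g₁ q r).1)
        fun r hr _ => (congrArg Prod.fst (c₁ q r hr)).symm
      have h2 := Lift_sum_le q.le c N.sg (x := fun r => i.toFun (g₁ q r).2)
        fun r hr _ => (congrArg Prod.snd (c₁ q r hr)).symm
      simp only [RingHom.id_apply] at h1
      rw [Lift_At, ← h1, ← h2, c₁ q s c, ← (q.le.2 s c).1, ← q.comm s c]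
      refine ⟨j.map_gr b1, ?_, i.map_gr b3, ?_⟩
      · rw [← j.map_d, b2, map_sum]
        simp only [Lift_smul]
      · rw [sq, ← map_sub, b4, map_add, i.map_d, map_sum]
        simp only [Lift_smul]
    · exact Lift_step hst₂ hs (c₂ q s hs c) ih
  · simp only [c₁ q s hs, and_self]
  · simp only [m₁ q q' e s hs, and_self]
  · simp only [m₂ q q' e s hs, and_self]

namespace Cel

/-- The block `T × T` is contractible over `π_0`. -/
def Ac (C : Cel A) (T : Finset ℕ) : Prop := AcN (dgN A).J T C.dg fun s r => N.ev (C.δ s r)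

theorem Lift_contr {C : Cel A} (h : C.dm.Acyc) :
    ∃ f H, IsLift (DG.Hom.zero (𝟙 A) (DG.zero A) C.dm) (PD.taut C) f H :=
  exists_lift (DG.Hom.qi_of_acyc _ (DG.acyc_zero A) h) _

theorem acyc_map {C : Cel A} (h : C.dm.Acyc) (φ : A ⟶ B) : (C.map φ).dm.Acyc := by
  obtain ⟨f, H, l⟩ := Lift_contr h
  intro k x hx
  have l' := l.map (u' := DG.Hom.zero (𝟙 B) (DG.zero B) (C.map φ).dm)
    (DG.Hom.zero φ (DG.zero A) (DG.zero B)) (C.bc φ) fun _ => map_zero (C.bc φ).toFun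
  have h1 := ((C.map φ).dm.Bd k).neg_mem (l'.bdry hx)
  have h2 : ((PD.taut C).map (C.bc φ)).hom.toFun x = x := by
    rw [PD.hom_apply]
    exact (Finset.sum_congr rfl fun s _ => congrArg _ (C.bc_e φ s)).trans ((C.map φ).sum_e x)
  rw [h2, neg_sub] at h1
  exact (sub_zero x).subst (motive := fun y => (C.map φ).dm.Bdry k y) h1

theorem ac_of_acyc {C : Cel A} (h : C.dm.Acyc) : C.Ac C.S := by
  obtain ⟨f, H, l⟩ := Lift_contr h
  have e : ∀ s ∈ C.S, ∀ r, (if C.dg r = C.dg s + 1 then -N.ev ((H s).1 r) else 0) =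
      -N.ev ((H s).1 r) := fun s hs r => by
    split_ifs with c
    · rfl
    · rw [N.ev_pos (fun p => c (sub_eq_zero.1 p).symm) (l.H_gr s hs r), neg_zero]
  refine ⟨fun s r => if C.dg r = C.dg s + 1 then -N.ev ((H s).1 r) else 0,
    fun s r c => if_neg c, fun s hs r hr => ?_⟩
  have h1 : (0 : C.V) - C.e s = C.D (H s) + ∑ t ∈ C.S, N.sg (C.δ s t) • H t := l.H_d s hs
  have h2 := congrArg (fun y : C.V => N.ev (y.1 r)) h1
  simp only [zero_sub, Submodule.coe_neg, Submodule.coe_add, Submodule.coe_sum,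
    Submodule.coe_smul, Pi.neg_apply, Pi.add_apply, Finset.sum_apply, Pi.smul_apply, smul_eq_mul,
    D_apply, e_apply, map_neg, map_add, map_sum, map_mul, N.ev_sg] at h2
  have h3 : N.ev (if s ∈ C.S ∧ r = s then (1 : N A) else 0) = if s = r then 1 else 0 := by
    by_cases c : s = r
    · rw [if_pos ⟨hs, c.symm⟩, if_pos c, map_one]
    · rw [if_neg fun p => c p.2.symm, if_neg c, map_zero]
  have h4 : N.ev (N.bd ((H s).1 r)) ∈ (dgN A).J := by
    have h5 : N.Hg (C.dg s + 1 - C.dg r) ((H s).1 r) := l.H_gr s hs r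
    by_cases c : C.dg s + 1 - C.dg r = 1
    · exact ⟨_, c ▸ h5, rfl⟩
    · rw [N.ev_pos (fun p => c (sub_eq_zero.1 p)) (N.hg_bd h5)]
      exact zero_mem _
  rw [h3] at h2
  rw [Finset.sum_congr rfl fun t ht => congrArg (N.ev (C.δ s t) * ·) (e t ht r),
    Finset.sum_congr rfl fun t _ => congrArg (· * N.ev (C.δ t r)) (e s hs t)]
  simp only [mul_neg, neg_mul, Finset.sum_neg_distrib]
  convert h4 using 1
  linear_combination h2

theorem ac_empty (C : Cel A) : C.Ac ∅ := acN_empty _ _ _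

theorem Ac.mono {C C' : Cel A} (e : C ≤ C') {T : Finset ℕ} (hT : T ⊆ C.S) (h : C.Ac T) :
    C'.Ac T :=
  AcN.congr h (fun s hs => (e.2 s (hT hs)).1) fun s hs r _ => congrArg N.ev ((e.2 s (hT hs)).2 r)

theorem ac_diff {C C' : Cel A} (e : C ≤ C') (h : (incl e).QI) : C'.Ac (C'.S \ C.S) :=
  AcN.congr (ac_of_acyc ((ses e).qi_left_iff.1 h)) (fun _ _ => rfl) fun _ hs _ hr =>
    congrArg N.ev (if_pos ⟨(Finset.mem_sdiff.1 hs).2, (Finset.mem_sdiff.1 hr).2⟩)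

theorem qi_incl_map {C C' : Cel A} (e : C ≤ C') (h : (incl e).QI) (φ : A ⟶ B) :
    (incl (map_mono e φ)).QI := by
  refine (ses (map_mono e φ)).qi_left_iff.2 ?_
  have := acyc_map ((ses e).qi_left_iff.1 h) φ
  rwa [← diff_map C' C.S (closed_of_le e) φ (closed_of_le (map_mono e φ))] at this

end Cel

namespace PD
variable {M : DG A} {M' : DG B}

theorem qi_incl {P P' : PD M} (e : P ≤ P') (h : P.QI) (h' : P'.QI) : (Cel.incl e.1).QI :=
  DG.Hom.QI.tri_left (hom_incl e) h h'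

theorem qi_map_iff_of_le {P P' : PD M} (e : P ≤ P') (h : P.QI) (h' : P'.QI) {φ : A ⟶ B}
    (g : DG.Hom φ M M') : (P.map g).QI ↔ (P'.map g).QI :=
  ⟨fun p => DG.Hom.QI.tri_right (hom_incl (map_mono e g)) p
      (Cel.qi_incl_map e.1 (qi_incl e h h') φ),
    fun p => DG.Hom.QI.tri (hom_incl (map_mono e g)) (Cel.qi_incl_map e.1 (qi_incl e h h') φ) p⟩

end PD

end Pool.Agent.P.MP_932208_ag.Ax
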