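import Pool.Agent.P.MP_932208_ag.Ex.Piq
import Pool.Agent.P.MP_932208_ag.Ex.Kan

/-!
Every vertex generates the glued module.
-/

namespace Pool.Agent.P.MP_932208_ag.Ax

open CategoryTheory

variable {A : SRing}

namespace Tw
variable (T : Tw A)

/-- The bisimplicial abelian group that is constant in the first direction. -/
@[reducible] def Line_K (A : SRing) : BAb where
  obj _ m := A.obj m
  map _ θ' := (A.map θ').toAddMonoidHom
  map_id _ m := A.map_id m
  map_comp _ _ θ' η' := A.map_comp θ' η'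

/-- The degenerate simplices of a vertex. -/
def Line_deg (v : T.X 0 0) (n m : ℕ) : T.X n m := T.map (vert n 0) (vert m 0) v

theorem Line_c_deg (v : T.X 0 0) (n m : ℕ) (a : Fin (n + 1)) : T.c (T.Line_deg v n m) a = 1 := by
  have h := T.c_map (vert n 0) (vert m 0) v a
  have h1 : T.c v (vert n (0 : Fin 1) a) = 1 := T.c_zero v
  have h2 : T.c v (vert n (0 : Fin 1) 0) = 1 := T.c_zero v
  rw [h1, h2, map_one, one_mul] at h
  exact h.symm

theorem Line_map_deg (v : T.X 0 0) {k n k' m : ℕ} (θ : Op k n) (θ' : Op k' m) :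
    T.map θ θ' (T.Line_deg v n m) = T.Line_deg v k k' :=
  T.map_comp (vert n 0) θ (vert m 0) θ' v

theorem Line_pi_deg (v : T.X 0 0) (n m : ℕ) :
    T.π (T.Line_deg v n m) = OrderHom.const (Fin (n + 1)) (T.π v 0) :=
  T.π_map (vert n 0) (vert m 0) v

/-- The inclusion of the vertex. -/
noncomputable def Line_i (v : T.X 0 0) : (Line_K A).Hom T.bab where
  app n m := Finsupp.singleAddHom (T.Line_deg v n m)
  nat θ θ' a := by
    change Finsupp.single _ (A.map θ' a) = T.tmap θ θ' (Finsupp.single _ a)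
    rw [tmap_single, Line_c_deg, mul_one, Line_map_deg]

theorem Line_row_single {n k m : ℕ} (θ : Op k m) (x : T.X n m) (a : A.obj m) :
    T.tmap OrderHom.id θ (Finsupp.single x a) =
      Finsupp.single (T.map OrderHom.id θ x) (A.map θ a) := by
  have h : T.c x ((OrderHom.id : Op n n) 0) = 1 := T.c_zero x
  rw [tmap_single, h, mul_one]

/-- The sum of the coefficients. -/
noncomputable def Line_sum (n m : ℕ) : (T.X n m →₀ A.obj m) →+ A.obj m :=
  Finsupp.liftAddHom fun _ => AddMonoidHom.id _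

theorem Line_sum_single {n m : ℕ} (x : T.X n m) (a : A.obj m) :
    T.Line_sum n m (Finsupp.single x a) = a := by
  simp [Line_sum]

theorem Line_sum_nat {n k m : ℕ} (θ : Op k m) (x : T.X n m →₀ A.obj m) :
    T.Line_sum n k (T.tmap OrderHom.id θ x) = A.map θ (T.Line_sum n m x) := by
  induction x using Finsupp.induction_linear with
  | zero => simp
  | add x y hx hy => simp only [map_add, hx, hy]
  | single x a => rw [Line_row_single, Line_sum_single, Line_sum_single]

/-- The retraction of a row. -/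
noncomputable def Line_r (n : ℕ) : (T.bab.row n).Hom ((Line_K A).row n) where
  app m := T.Line_sum n m
  nat θ x := T.Line_sum_nat θ x

open Classical in
/-- The class of a simplex, zero if it is not spherical. -/
noncomputable def Line_cl (A : SRing) (q : ℕ) (a : A.obj q) : A.Pq q :=
  if h : A.ab.Sph a then A.pmk q ⟨a, h⟩ else 0

theorem Line_cl_eq {q : ℕ} {a : A.obj q} (h : A.ab.Sph a) : Line_cl A q a = A.pmk q ⟨a, h⟩ :=
  dif_pos h

theorem Line_cl_zero (q : ℕ) : Line_cl A q 0 = 0 :=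
  (Line_cl_eq (A.ab.sph q).zero_mem).trans (map_zero (A.pmk q))

theorem Line_aug_sph {q n : ℕ} (x : (T.bab.row n).sph q) (σ : Fin (n + 1) →o T.Q) :
    A.ab.Sph ((T.aug n).app q x.1 σ) :=
  (free_sph _).1 (SAb.Sph.map (T.aug n) x.2) σ

/-- The homotopy groups of the rows. -/
noncomputable def Line_kap (q n : ℕ) :
    (T.bab.row n).sph q →+ ((Fin (n + 1) →o T.Q) →₀ A.Pq q) :=
  AddMonoidHom.mk' (fun x => Finsupp.mapRange (Line_cl A q) (Line_cl_zero q)
    ((T.aug n).app q x.1)) fun x y => by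
      ext σ
      rw [Finsupp.add_apply, Finsupp.mapRange_apply, Finsupp.mapRange_apply,
        Finsupp.mapRange_apply, Line_cl_eq (T.Line_aug_sph (x + y) σ),
        Line_cl_eq (T.Line_aug_sph x σ), Line_cl_eq (T.Line_aug_sph y σ), ← map_add]
      refine congrArg (A.pmk q) (Subtype.ext ?_)
      exact (congrArg (fun z => z σ) (map_add ((T.aug n).app q) x.1 y.1)).trans
        (Finsupp.add_apply _ _ _)

theorem Line_kap_apply {q n : ℕ} (x : (T.bab.row n).sph q) (σ : Fin (n + 1) →o T.Q) :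
    T.Line_kap q n x σ = A.pmk q ⟨(T.aug n).app q x.1 σ, T.Line_aug_sph x σ⟩ :=
  (Finsupp.mapRange_apply (hf := Line_cl_zero q)).trans (Line_cl_eq _)

theorem Line_kap_single {q n : ℕ} (y : (T.bab.row n).sph q) (x : T.X n q) (a : A.ab.sph q)
    (h : y.1 = Finsupp.single x a.1) :
    T.Line_kap q n y = Finsupp.single (T.π x) (A.pmk q a) := by
  change Finsupp.mapRange (Line_cl A q) (Line_cl_zero q) ((T.aug n).app q y.1) = _
  rw [h, aug_single, Finsupp.mapRange_single, Line_cl_eq a.2]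

theorem Line_kap_ker {q n : ℕ} (x : (T.bab.row n).sph q) :
    T.Line_kap q n x = 0 ↔ (T.bab.row n).Bd x.1 := by
  have h : T.Line_kap q n x = 0 ↔ (free A (Fin (n + 1) →o T.Q)).Bd ((T.aug n).app q x.1) := by
    rw [free_bd, Finsupp.ext_iff]
    refine forall_congr' fun σ => ?_
    rw [Line_kap_apply, Finsupp.zero_apply, SRing.pmk_eq_zero]
  rw [h]
  exact ⟨(T.we_aug n q).2 x.1 x.2, fun hb => hb.map (T.aug n)⟩

theorem Line_sph_single {q n : ℕ} (x : T.X n q) {a : A.obj q} (h : A.ab.Sph a) :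
    (T.bab.row n).Sph (Finsupp.single x a) := by
  cases q with
  | zero => trivial
  | succ q =>
    intro i
    have h1 : A.map (face i) a = 0 := h i
    change T.tmap OrderHom.id (face i) (Finsupp.single x a) = 0
    rw [Line_row_single, h1, Finsupp.single_zero]

/-- The horizontal operators on spherical simplices. -/
noncomputable def Line_hor (q : ℕ) {k n : ℕ} (θ : Op k n) :
    (T.bab.row n).sph q →+ (T.bab.row k).sph q :=
  AddMonoidHom.mk' (fun x => ⟨(T.bab.hor θ).app q x.1, SAb.Sph.map (T.bab.hor θ) x.2⟩)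
    fun x y => Subtype.ext (map_add ((T.bab.hor θ).app q) x.1 y.1)

theorem Line_rep {q k n : ℕ} (θ : Op k n) (w : (Fin (n + 1) →o T.Q) →₀ A.Pq q) :
    ∃ y : (T.bab.row n).sph q, T.Line_kap q n y = w ∧
      T.Line_kap q k (T.Line_hor q θ y) = (T.loc q).nmap θ w := by
  induction w using Finsupp.induction_linear with
  | zero => exact ⟨0, map_zero _, by simp only [map_zero]⟩
  | add w w' hw hw' =>
    obtain ⟨y, hy, hy'⟩ := hw
    obtain ⟨z, hz, hz'⟩ := hw'
    exact ⟨y + z, by rw [map_add, hy, hz], by simp only [map_add, hy', hz']⟩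
  | single σ ξ =>
    obtain ⟨a, rfl⟩ := SRing.pmk_surjective q ξ
    obtain ⟨x₀, hx₀, -⟩ := T.ext n 0 σ (fun k θ => (Bdy.isEmpty k).elim θ)
      (fun k θ => (Bdy.isEmpty k).elim θ) (fun θ _ => (Bdy.isEmpty _).elim θ)
    subst hx₀
    have hπ : T.π (T.map OrderHom.id (vert q 0) x₀) = T.π x₀ := T.π_map _ _ _
    have hc : T.c (T.map OrderHom.id (vert q 0) x₀) (θ 0) =
        A.map (vert q 0) (T.c x₀ (θ 0)) := by
      have h := T.c_map OrderHom.id (vert q 0) x₀ (θ 0)
      have h1 : T.c x₀ ((OrderHom.id : Op n n) 0) = 1 := T.c_zero x₀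
      rw [h1, map_one, one_mul] at h
      exact h.symm
    refine ⟨⟨Finsupp.single (T.map OrderHom.id (vert q 0) x₀) a.1, T.Line_sph_single _ a.2⟩,
      ?_, ?_⟩
    · rw [T.Line_kap_single _ _ a rfl, hπ]
    · rw [LocSys.nmap_single, T.loc_c q x₀ (θ 0) _ rfl rfl, SRing.pact_mk,
        T.Line_kap_single _ (T.map θ OrderHom.id (T.map OrderHom.id (vert q 0) x₀))
          ⟨A.map (vert q 0) (T.c x₀ (θ 0)) * a.1, SRing.sph_mul _ a.2⟩, T.π_map, hπ]
      change T.tmap θ OrderHom.id (Finsupp.single _ a.1) = _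
      rw [tmap_single, A.map_id, hc, mul_comm]

theorem Line_kap_nat {q k n : ℕ} (θ : Op k n) (x : (T.bab.row n).sph q) :
    T.Line_kap q k (T.Line_hor q θ x) = (T.loc q).nmap θ (T.Line_kap q n x) := by
  obtain ⟨y, hy, hy'⟩ := T.Line_rep θ (T.Line_kap q n x)
  have h1 : (T.bab.row n).Bd (x - y).1 := by
    rw [← Line_kap_ker, map_sub, hy, sub_self]
  have h2 : T.Line_kap q k (T.Line_hor q θ (x - y)) = 0 :=
    (T.Line_kap_ker _).2 (h1.map (T.bab.hor θ))
  rw [map_sub, map_sub, sub_eq_zero] at h2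
  rw [h2, hy']

theorem Line_we (v : T.X 0 0) : (T.Line_i v).diag.WE := by
  refine BAb.Hom.diag_we_of_e2 (T.Line_i v) T.Line_r (fun n m a => T.Line_sum_single _ a)
    (fun q => SAb.const (A.Pq q)) (fun q => (T.loc q).nrv) (fun q => (T.loc q).vtx (T.π v 0))
    (fun q n => Finsupp.single_injective _) (fun q => (T.loc q).we_vtx T.con _)
    T.Line_kap (fun q n w => (T.Line_rep OrderHom.id w).imp fun _ h => h.1)
    (fun q n x => T.Line_kap_ker x) (fun q k n θ x => T.Line_kap_nat θ x) fun q n w => ?_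
  have h : ∀ (y : A.obj q) (h : A.ab.Sph y),
      T.Line_kap q n ⟨(T.Line_i v).app n q y, SAb.Sph.map ((T.Line_i v).row n) h⟩ =
        ((T.loc q).vtx (T.π v 0)).app n (A.pmk q ⟨y, h⟩) := fun y h => by
    rw [T.Line_kap_single _ (T.Line_deg v n q) ⟨y, h⟩ rfl, Line_pi_deg, LocSys.vtx_app]
  constructor
  · rintro ⟨ξ, rfl⟩
    obtain ⟨a, rfl⟩ := SRing.pmk_surjective q ξ
    exact ⟨a.1, a.2, h a.1 a.2⟩
  · rintro ⟨y, hy, rfl⟩
    exact ⟨_, (h y hy).symm⟩

theorem we_span (v : T.X 0 0) : (T.sm.span (Finsupp.single v 1)).WE := by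
  refine s3_we_congr (f := (T.Line_i v).diag) (fun n a => ?_) (T.Line_we v)
  change Finsupp.single (T.Line_deg v n n) a =
    a • T.tmap (vert n 0) (vert n 0) (Finsupp.single v 1)
  have h : T.c v (vert n (0 : Fin 1) 0) = 1 := T.c_zero v
  rw [tmap_single, h, mul_one, map_one, Finsupp.smul_single, smul_eq_mul, mul_one]
  rfl

theorem qi_gen (v : T.X 0 0) : (T.dg.toSpan (T.gen v) (T.cycle_gen v)).QI :=
  T.sm.qi_toSpan (T.we_span v)

end Tw

end Pool.Agent.P.MP_932208_ag.Ax
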