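import Pool.Agent.P.MP_932208_ag.Ex.Tw
import Pool.Agent.P.MP_932208_ag.Ex.E2

/-!
Homotopy groups of a simplicial ring and the local systems defined by a cocycle.
-/

namespace Pool.Agent.P.MP_932208_ag.Ax

variable {A : SRing}

namespace SRing

/-- The boundaries among the spherical simplices. -/
def bdG (A : SRing) (q : ℕ) : AddSubgroup (A.ab.sph q) where
  carrier := {x | A.ab.Bd x.1}
  add_mem' hx hy := hx.add hy
  zero_mem' := A.ab.bd_zero q
  neg_mem' hx := hx.neg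

/-- The homotopy group `π_q A`. -/
def Pq (A : SRing) (q : ℕ) : Type := A.ab.sph q ⧸ A.bdG q

instance (q : ℕ) : AddCommGroup (A.Pq q) := inferInstanceAs (AddCommGroup (A.ab.sph q ⧸ A.bdG q))

/-- The class of a spherical simplex. -/
def pmk (A : SRing) (q : ℕ) : A.ab.sph q →+ A.Pq q := QuotientAddGroup.mk' _

theorem pmk_surjective (q : ℕ) : Function.Surjective (A.pmk q) :=
  QuotientAddGroup.mk'_surjective _

theorem pmk_eq_zero {q : ℕ} {x : A.ab.sph q} : A.pmk q x = 0 ↔ A.ab.Bd x.1 :=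
  QuotientAddGroup.eq_zero_iff _

theorem sph_mul {q : ℕ} (a : A.obj q) {x : A.obj q} (h : A.ab.Sph x) : A.ab.Sph (a * x) := by
  cases q with
  | zero => trivial
  | succ n =>
    intro i
    have h1 : A.map (face i) x = 0 := h i
    change A.map (face i) (a * x) = 0
    rw [map_mul, h1, mul_zero]

/-- Multiplication by a degenerate vertex. -/
def Piq_mul (a : A.obj 0) : A.ab.Hom A.ab where
  app n := AddMonoidHom.mulLeft (A.map (vert n 0) a)
  nat {k n} θ x := by
    change A.map (vert k 0) a * A.map θ x = A.map θ (A.map (vert n 0) a * x)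
    rw [map_mul, A.map_comp]
    rfl

/-- The action of the vertices on `π_q A`. -/
noncomputable def pact (q : ℕ) (a : A.obj 0) : A.Pq q →+ A.Pq q :=
  QuotientAddGroup.map (A.bdG q) (A.bdG q)
    (AddMonoidHom.mk' (fun x => ⟨A.map (vert q 0) a * x.1, sph_mul _ x.2⟩)
      fun _ _ => Subtype.ext (mul_add _ _ _))
    fun _ hx => SAb.Bd.map (Piq_mul a) hx

theorem pact_mk {q : ℕ} (a : A.obj 0) (x : A.ab.sph q) :
    pact q a (A.pmk q x) = A.pmk q ⟨A.map (vert q 0) a * x.1, sph_mul _ x.2⟩ := rfl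

theorem pact_one {q : ℕ} (ξ : A.Pq q) : pact q 1 ξ = ξ := by
  obtain ⟨x, rfl⟩ := pmk_surjective q ξ
  rw [pact_mk]
  exact congrArg _ (Subtype.ext (by rw [map_one]; exact one_mul _))

theorem pact_mul {q : ℕ} (a b : A.obj 0) (ξ : A.Pq q) :
    pact q (a * b) ξ = pact q a (pact q b ξ) := by
  obtain ⟨x, rfl⟩ := pmk_surjective q ξ
  rw [pact_mk, pact_mk, pact_mk]
  exact congrArg _ (Subtype.ext (by rw [map_mul]; exact mul_assoc _ _ _))

/-- The two ends of an edge act in the same way. -/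
theorem pact_face {q : ℕ} (p : A.obj 1) (ξ : A.Pq q) :
    pact q (A.map (face 0) p) ξ = pact q (A.map (face 1) p) ξ := by
  obtain ⟨x, rfl⟩ := pmk_surjective q ξ
  have h := SAb.prism (X := A.ab) (Y := A.ab) (fun n χ => AddMonoidHom.mulLeft (A.map χ p))
    (fun n i χ y => by
      change A.map (face i) (A.map χ p * y) = A.map (χ.comp (face i)) p * A.map (face i) y
      rw [map_mul, A.map_comp]) x.2
  rw [pact_mk, pact_mk, eq_comm, ← sub_eq_zero, ← map_sub, pmk_eq_zero]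
  change A.ab.Bd (A.map (vert q 0) (A.map (face 1) p) * x.1 -
    A.map (vert q 0) (A.map (face 0) p) * x.1)
  rw [A.map_comp, A.map_comp]
  exact h

theorem Piq_bij {q : ℕ} {a : A.obj 0} (h : IsUnit a) : Function.Bijective (pact q a) := by
  obtain ⟨u, rfl⟩ := h
  exact Function.bijective_iff_has_inverse.2 ⟨pact q (u⁻¹ : (A.obj 0)ˣ),
    fun ξ => by rw [← pact_mul, Units.inv_mul, pact_one],
    fun ξ => by rw [← pact_mul, Units.mul_inv, pact_one]⟩

attribute [irreducible] pact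

end SRing

namespace Tw
variable (T : Tw A)

theorem Piq_ex {n : ℕ} (σ : Fin (n + 1) →o T.Q) : ∃ x : T.X n 0, T.π x = σ := by
  obtain ⟨z, hz, -⟩ := T.ext n 0 σ (fun k θ => (Bdy.isEmpty k).elim θ)
    (fun k θ => (Bdy.isEmpty k).elim θ) (fun θ _ => (Bdy.isEmpty _).elim θ)
  exact ⟨z, hz⟩

theorem Piq_ind (q : ℕ) {n : ℕ} {x x' : T.X n 0} (h : T.π x = T.π x') (t : Fin (n + 1))
    (ξ : A.Pq q) : SRing.pact q (T.c x t) ξ = SRing.pact q (T.c x' t) ξ := by
  obtain ⟨y, hy, hn⟩ := Bdy.of_faces (obj := T.X n) (fun θ => T.map OrderHom.id θ) (T.map_id n)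
    (fun θ η z => T.map_comp _ _ θ η z) (M := 0) ![x, x']
    (fun _ _ _ _ hM => absurd hM (Nat.succ_ne_zero _))
  obtain ⟨z, -, hz⟩ := T.ext n 1 (T.π x) y (fun k θ => by
    obtain ⟨i, η, rfl⟩ := θ.exists_face
    rw [← hn, hy, T.π_map, OrderHom.comp_id]
    fin_cases i
    · rfl
    · exact h.symm) hn
  have e : ∀ i : Fin 2, A.map (face i) (T.c z t) = T.c (![x, x'] i) t := fun i => by
    have h1 := T.c_map OrderHom.id (face i) z t
    rw [OrderHom.id_coe, id, id, T.c_zero, map_one, one_mul] at h1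
    rw [h1, ← hy i, ← hz 0 (Bdy.face i)]
    rfl
  exact ((congrArg (SRing.pact q · ξ) (e 0)).symm.trans (SRing.pact_face _ ξ)).trans
    (congrArg (SRing.pact q · ξ) (e 1))

/-- An edge of a preorder. -/
def Piq_edge {Q : Type} [Preorder Q] {a b : Q} (h : a ≤ b) : Fin 2 →o Q :=
  ⟨![a, b], Fin.monotone_iff_le_succ.2 fun i => by
    fin_cases i
    exact h⟩

/-- The transport along an edge. -/
noncomputable def Piq_c (q : ℕ) {a b : T.Q} (h : a ≤ b) : A.Pq q →+ A.Pq q :=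
  SRing.pact q (T.c (T.Piq_ex (Piq_edge h)).choose 1)

theorem Piq_c_eq (q : ℕ) {n : ℕ} (x : T.X n 0) {s t : Fin (n + 1)} (hst : s ≤ t) {a b : T.Q}
    (h : a ≤ b) (ha : T.π x s = a) (hb : T.π x t = b) (ξ : A.Pq q) :
    T.Piq_c q h (SRing.pact q (T.c x s) ξ) = SRing.pact q (T.c x t) ξ := by
  have h1 : T.c x t = T.c x s * T.c (T.map (Piq_edge hst) OrderHom.id x) 1 := by
    have h2 := T.c_map (Piq_edge hst) OrderHom.id x 1
    rw [A.map_id, A.map_id] at h2
    exact h2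
  rw [h1, mul_comm, SRing.pact_mul, Piq_c]
  refine T.Piq_ind q ?_ 1 _
  rw [(T.Piq_ex (Piq_edge h)).choose_spec, T.π_map]
  refine OrderHom.ext _ _ (funext fun i => ?_)
  fin_cases i
  · exact ha.symm
  · exact hb.symm

theorem Piq_c_zero (q : ℕ) {n : ℕ} (x : T.X n 0) (t : Fin (n + 1)) {a b : T.Q} (h : a ≤ b)
    (ha : T.π x 0 = a) (hb : T.π x t = b) (ξ : A.Pq q) :
    T.Piq_c q h ξ = SRing.pact q (T.c x t) ξ := by
  rw [← T.Piq_c_eq q x (Fin.zero_le t) h ha hb, T.c_zero, SRing.pact_one]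

/-- The local system on `Q` with fibre `π_q A`. -/
noncomputable def loc (q : ℕ) : LocSys T.Q (A.Pq q) where
  c := T.Piq_c q
  c_refl a ξ := by
    obtain ⟨v, hv⟩ := T.exists_vertex a
    rw [T.Piq_c_zero q v 0 _ hv hv, T.c_zero, SRing.pact_one]
  c_trans {a b e} h h' ξ := by
    obtain ⟨x, hx⟩ := T.Piq_ex (n := 2) ⟨![a, b, e], Fin.monotone_iff_le_succ.2 fun i => by
      fin_cases i
      · exact h
      · exact h'⟩
    have h0 : T.π x 0 = a := by rw [hx]; rfl
    have h1 : T.π x 1 = b := by rw [hx]; rfl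
    have h2 : T.π x 2 = e := by rw [hx]; rfl
    rw [T.Piq_c_zero q x 1 h h0 h1, T.Piq_c_eq q x (by decide) h' h1 h2,
      T.Piq_c_zero q x 2 _ h0 h2]
  bij _ := SRing.Piq_bij (T.c_unit _ _)

theorem loc_c (q : ℕ) {n : ℕ} (x : T.X n 0) (t : Fin (n + 1)) {a b : T.Q} (h : a ≤ b)
    (ha : T.π x 0 = a) (hb : T.π x t = b) (ξ : A.Pq q) :
    (T.loc q).c h ξ = SRing.pact q (T.c x t) ξ :=
  T.Piq_c_zero q x t h ha hb ξ

attribute [irreducible] loc

end Tw

end Pool.Agent.P.MP_932208_ag.Ax
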