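import Pool.Agent.P.MP_932208_ag.Ax.ModL

/-!
Simplicial abelian groups and weak equivalences.
-/

namespace Pool.Agent.P.MP_932208_ag.Ax

/-- A simplicial abelian group. -/
structure SAb where
  obj : ℕ → Type
  [grp : ∀ n, AddCommGroup (obj n)]
  map : ∀ {k n : ℕ}, Op k n → obj n →+ obj k
  map_id : ∀ n (x : obj n), map OrderHom.id x = x
  map_comp : ∀ {l k n : ℕ} (θ : Op k n) (η : Op l k) (x : obj n),
    map η (map θ x) = map (θ.comp η) x

attribute [instance] SAb.grp

/-- A map of simplicial abelian groups. -/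
structure SAb.Hom (X Y : SAb) where
  app : ∀ n, X.obj n →+ Y.obj n
  nat : ∀ {k n : ℕ} (θ : Op k n) (x : X.obj n), app k (X.map θ x) = Y.map θ (app n x)

/-- Moore (normalised) chains: all faces except the zeroth one vanish. -/
def SAb.Moore (X : SAb) : ∀ {n : ℕ}, X.obj n → Prop
  | 0, _ => True
  | n + 1, x => ∀ i : Fin (n + 1), X.map (face i.succ) x = 0

/-- Spherical simplices (cycles of the Moore complex): all faces vanish. -/
def SAb.Sph (X : SAb) : ∀ {n : ℕ}, X.obj n → Prop
  | 0, _ => True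
  | n + 1, x => ∀ i : Fin (n + 2), X.map (face i) x = 0

/-- Boundaries of the Moore complex: zeroth faces of Moore chains. -/
def SAb.Bd (X : SAb) {n : ℕ} (x : X.obj n) : Prop :=
  ∃ z : X.obj (n + 1), X.Moore z ∧ X.map (face 0) z = x

/-- Weak equivalence: bijective on every homotopy group `π_n = Sph / Bd`. -/
def SAb.Hom.WE {X Y : SAb} (f : X.Hom Y) : Prop :=
  ∀ n, (∀ y : Y.obj n, Y.Sph y → ∃ x : X.obj n, X.Sph x ∧ Y.Bd (f.app n x - y)) ∧
    ∀ x : X.obj n, X.Sph x → Y.Bd (f.app n x) → X.Bd x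

/-- The underlying simplicial abelian group. -/
@[reducible] def SRing.ab (A : SRing) : SAb where
  obj := A.obj
  map θ := (A.map θ).toAddMonoidHom
  map_id := A.map_id
  map_comp := A.map_comp

/-- `A` is saturated: a simplex whose class in `π_0 A` is a unit is a unit.  (Every `A` is
naturally weakly equivalent to a saturated one: localise levelwise.) -/
def SRing.Sat (A : SRing) : Prop :=
  ∀ n (a : A.obj n), (∃ b : A.obj 0, A.ab.Bd (A.map (vert 0 0) a * b - 1)) → IsUnit a

/-- Every finite nonempty subset is contractible inside `Q`. -/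
def LocCon (Q : Type) [Preorder Q] : Prop :=
  ∀ Φ : Set Q, Φ.Finite → Φ.Nonempty →
    ∃ (D : Q) (F : Q → Q), MonotoneOn F Φ ∧ ∀ q ∈ Φ, q ≤ F q ∧ D ≤ F q

/-- The underlying map of simplicial abelian groups. -/
def SRing.Hom.ab {A B : SRing} (f : A.Hom B) : A.ab.Hom B.ab where
  app n := (f.app n).toAddMonoidHom
  nat := f.nat

end Pool.Agent.P.MP_932208_ag.Ax
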