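import Pool.Agent.P.MP_932208_ag.Ex.Five
import Pool.Agent.P.MP_932208_ag.Ex.CotL2

/-!
Simplicial modules and their normalised chains as dg modules.
-/

namespace Pool.Agent.P.MP_932208_ag.Ax

open CategoryTheory

variable {A B R : SRing}

/-- A simplicial module. -/
structure SMod (A : SRing) where
  obj : ℕ → Type
  [grp : ∀ n, AddCommGroup (obj n)]
  [mod : ∀ n, Module (A.obj n) (obj n)]
  map : ∀ {k n : ℕ}, Op k n → obj n →+ obj k
  map_smul : ∀ {k n : ℕ} (θ : Op k n) (a : A.obj n) (x : obj n),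
    map θ (a • x) = A.map θ a • map θ x
  map_id : ∀ n (x : obj n), map OrderHom.id x = x
  map_comp : ∀ {l k n : ℕ} (θ : Op k n) (η : Op l k) (x : obj n),
    map η (map θ x) = map (θ.comp η) x

attribute [instance] SMod.grp SMod.mod

/-- The square zero extension of `R` by `M`. -/
def SMod_Sq (R M : Type) : Type := R × M

section sq
variable {R M S M' : Type} [CommRing R] [AddCommGroup M] [Module R M] [CommRing S]
  [AddCommGroup M'] [Module S M']

instance : AddCommGroup (SMod_Sq R M) := inferInstanceAs (AddCommGroup (R × M))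

instance : Mul (SMod_Sq R M) := ⟨fun x y => (x.1 * y.1, x.1 • y.2 + y.1 • x.2)⟩

instance : One (SMod_Sq R M) := ⟨(1, 0)⟩

omit [CommRing R] [AddCommGroup M] [Module R M] in
theorem SMod_ext {x y : SMod_Sq R M} (h₁ : x.1 = y.1) (h₂ : x.2 = y.2) : x = y := Prod.ext h₁ h₂

theorem SMod_mul_comm (x y : SMod_Sq R M) : x * y = y * x :=
  SMod_ext (mul_comm x.1 y.1) (add_comm (x.1 • y.2) (y.1 • x.2))

theorem SMod_mul_add (x y z : SMod_Sq R M) : x * (y + z) = x * y + x * z :=
  SMod_ext (mul_add x.1 y.1 z.1) (by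
    change x.1 • (y.2 + z.2) + (y.1 + z.1) • x.2 =
      (x.1 • y.2 + y.1 • x.2) + (x.1 • z.2 + z.1 • x.2)
    rw [smul_add, add_smul]; abel)

theorem SMod_mul_zero (x : SMod_Sq R M) : x * 0 = 0 :=
  SMod_ext (mul_zero x.1) (by
    change x.1 • (0 : M) + (0 : R) • x.2 = 0
    rw [smul_zero, zero_smul, add_zero])

theorem SMod_mul_one (x : SMod_Sq R M) : x * 1 = x :=
  SMod_ext (mul_one x.1) (by
    change x.1 • (0 : M) + (1 : R) • x.2 = x.2
    rw [smul_zero, one_smul, zero_add])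

theorem SMod_mul_assoc (x y z : SMod_Sq R M) : x * y * z = x * (y * z) :=
  SMod_ext (mul_assoc x.1 y.1 z.1) (by
    change (x.1 * y.1) • z.2 + z.1 • (x.1 • y.2 + y.1 • x.2) =
      x.1 • (y.1 • z.2 + z.1 • y.2) + (y.1 * z.1) • x.2
    rw [smul_add, smul_add, smul_smul, smul_smul, smul_smul, smul_smul, mul_comm z.1 x.1,
      mul_comm z.1 y.1, add_assoc])

theorem SMod_ringAx (R M : Type) [CommRing R] [AddCommGroup M] [Module R M] :
    RingAx (SMod_Sq R M) where
  left_distrib := SMod_mul_add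
  right_distrib x y z := by
    rw [SMod_mul_comm, SMod_mul_add, SMod_mul_comm z x, SMod_mul_comm z y]
  zero_mul x := by rw [SMod_mul_comm, SMod_mul_zero]
  mul_zero := SMod_mul_zero
  mul_assoc := SMod_mul_assoc
  one_mul x := by rw [SMod_mul_comm, SMod_mul_one]
  mul_one := SMod_mul_one

instance : CommRing (SMod_Sq R M) where
  __ := (SMod_ringAx R M).ring
  mul_comm := SMod_mul_comm

/-- The ring map `(a, x) ↦ ρ a + j x`. -/
def SMod_lift (ρ : R →+* S) (j : M →+ S) (h : ∀ a x, j (a • x) = ρ a * j x)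
    (h' : ∀ x y, j x * j y = 0) : SMod_Sq R M →+* S :=
  PresRing.hom (f := fun x : SMod_Sq R M => ρ x.1 + j x.2)
    ⟨by
      change ρ 1 + j 0 = 1
      rw [map_one, map_zero, add_zero],
    fun x y => by
      change ρ (x.1 * y.1) + j (x.1 • y.2 + y.1 • x.2) = (ρ x.1 + j x.2) * (ρ y.1 + j y.2)
      rw [map_mul, map_add, h, h, add_mul, mul_add, mul_add, h', add_zero, add_assoc,
        mul_comm (j x.2)],
    fun x y => by
      change ρ (x.1 + y.1) + j (x.2 + y.2) = (ρ x.1 + j x.2) + (ρ y.1 + j y.2)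
      rw [map_add, map_add]; abel⟩

/-- The ring map `(a, x) ↦ (ρ a, f x)`. -/
def SMod_mapSq (ρ : R →+* S) (f : M →+ M') (h : ∀ a x, f (a • x) = ρ a • f x) :
    SMod_Sq R M →+* SMod_Sq S M' :=
  PresRing.hom (f := fun x : SMod_Sq R M => ((ρ x.1, f x.2) : SMod_Sq S M'))
    ⟨SMod_ext (map_one ρ) (map_zero f),
    fun x y => SMod_ext (map_mul ρ x.1 y.1) (by
      change f (x.1 • y.2 + y.1 • x.2) = ρ x.1 • f y.2 + ρ y.1 • f x.2
      rw [map_add, h, h]),
    fun x y => SMod_ext (map_add ρ x.1 y.1) (map_add f x.2 y.2)⟩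

/-- The ring map `a ↦ (a, 0)`. -/
def SMod_inlSq (R M : Type) [CommRing R] [AddCommGroup M] [Module R M] : R →+* SMod_Sq R M :=
  PresRing.hom (f := fun a : R => ((a, 0) : SMod_Sq R M))
    ⟨rfl,
    fun x y => SMod_ext rfl (by
      change (0 : M) = x • (0 : M) + y • (0 : M)
      rw [smul_zero, smul_zero, add_zero]),
    fun _ _ => SMod_ext rfl (add_zero (0 : M)).symm⟩

/-- The ring map `(a, x) ↦ a`. -/
def SMod_fstSq (R M : Type) [CommRing R] [AddCommGroup M] [Module R M] : SMod_Sq R M →+* R :=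
  PresRing.hom (f := fun x : SMod_Sq R M => x.1) ⟨rfl, fun _ _ => rfl, fun _ _ => rfl⟩

end sq

/-- The simplicial ring `A ⋉ L`. -/
@[reducible] def SMod_E (L : SMod A) : SRing where
  obj n := SMod_Sq (A.obj n) (L.obj n)
  map θ := SMod_mapSq (A.map θ) (L.map θ) (L.map_smul θ)
  map_id n x := SMod_ext (A.map_id n x.1) (L.map_id n x.2)
  map_comp θ η x := SMod_ext (A.map_comp θ η x.1) (L.map_comp θ η x.2)

/-- The inclusion `A → A ⋉ L`. -/
def SMod_inl (L : SMod A) : A ⟶ SMod_E L where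
  app n := SMod_inlSq (A.obj n) (L.obj n)
  nat θ _ := SMod_ext rfl (map_zero (L.map θ)).symm

/-- The projection `A ⋉ L → A`. -/
def SMod_fst (L : SMod A) : SMod_E L ⟶ A where
  app n := SMod_fstSq (A.obj n) (L.obj n)
  nat _ _ := rfl

/-- The kernel of `N (A ⋉ L) → N A`, as a module over `N (A ⋉ L)`. -/
@[reducible] noncomputable def SMod_K (L : SMod A) : DG (SMod_E L) :=
  (DG.unitHom (SMod_fst L)).ker

theorem SMod_K_fst (L : SMod A) (x : (SMod_K L).V) (n : ℕ) : (x.1.1 n).1 = 0 :=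
  congrArg (fun z : N A => z.1 n) x.2

theorem SMod_mem_K (L : SMod A) (x : N (SMod_E L)) (h : ∀ n, (x.1 n).1 = 0) :
    x ∈ (DG.unitHom (SMod_fst L)).kerSub := N.ext' h

theorem SMod_ab_moore_zero (X : SAb) (n : ℕ) : X.Moore (0 : X.obj n) := by
  cases n with
  | zero => trivial
  | succ n => exact fun i => map_zero _

namespace SMod

/-- The underlying simplicial abelian group. -/
@[reducible] def ab (L : SMod A) : SAb where
  obj := L.obj
  map := L.map
  map_id := L.map_id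
  map_comp := L.map_comp

/-- A semilinear map of simplicial modules. -/
structure Hom (φ : A ⟶ B) (L : SMod A) (L' : SMod B) where
  app : ∀ n, L.obj n →+ L'.obj n
  map_smul : ∀ n (a : A.obj n) (x : L.obj n), app n (a • x) = φ.app n a • app n x
  nat : ∀ {k n : ℕ} (θ : Op k n) (x : L.obj n), app k (L.map θ x) = L'.map θ (app n x)

variable (L : SMod A) {L' : SMod B}

/-- The normalised chains of `L`: the kernel of `N (A ⋉ L) → N A`. -/
noncomputable def nc (L : SMod A) : DG A := (SMod_K L).res (SMod_inl L)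

/-- The components of a normalised chain. -/
noncomputable def val (L : SMod A) : L.nc.V →+ ∀ n, L.obj n :=
  AddMonoidHom.mk' (fun (x : (SMod_K L).V) n => (x.1.1 n).2) fun _ _ => rfl

theorem val_injective : Function.Injective L.val := fun x y h =>
  Subtype.ext (N.ext' fun n =>
    SMod_ext ((SMod_K_fst L x n).trans (SMod_K_fst L y n).symm) (congrFun h n))

theorem val_moore (x : L.nc.V) (n : ℕ) : L.ab.Moore (L.val x n) := by
  cases n with
  | zero => trivial
  | succ n => exact fun i => congrArg Prod.snd ((show (SMod_K L).V from x).1.2.1 n i)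

theorem val_bdd (x : L.nc.V) : ∃ b, ∀ n, b ≤ n → L.val x n = 0 := by
  obtain ⟨b, hb⟩ := (show (SMod_K L).V from x).1.2.2
  exact ⟨b, fun n hn => congrArg Prod.snd (hb n hn)⟩

theorem exists_val (y : ∀ n, L.obj n) (h : ∀ n, L.ab.Moore (y n)) (h' : ∃ b, ∀ n, b ≤ n → y n = 0) :
    ∃ x, L.val x = y := by
  obtain ⟨b, hb⟩ := h'
  refine ⟨(⟨⟨fun n => ((0, y n) : SMod_Sq (A.obj n) (L.obj n)), fun n i => ?_, b, fun n hn => ?_⟩,
    SMod_mem_K L _ fun _ => rfl⟩ : (SMod_K L).V), rfl⟩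
  · exact SMod_ext (map_zero (A.map (face i.succ))) (h (n + 1) i)
  · exact SMod_ext rfl (hb n hn)

theorem val_d (x : L.nc.V) (n : ℕ) : L.val (L.nc.d x) n = L.map (face 0) (L.val x (n + 1)) := rfl

theorem mem_gr {k : ℤ} {x : L.nc.V} :
    x ∈ L.nc.gr k ↔ ∀ n : ℕ, (n : ℤ) ≠ k → L.val x n = 0 :=
  ⟨fun h n hn => congrArg Prod.snd (h n hn), fun h n hn => SMod_ext (SMod_K_fst L x n) (h n hn)⟩

/-- The map `A ⋉ L → R`. -/
def SMod_liftHom (L : SMod A) (ι : A ⟶ R) (j : L.ab.Hom R.ab)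
    (h : ∀ n a x, j.app n (a • x) = ι.app n a * j.app n x)
    (h' : ∀ n x y, j.app n x * j.app n y = 0) : SMod_E L ⟶ R where
  app n := SMod_lift (ι.app n) (j.app n) (h n) (h' n)
  nat {k n} θ x := by
    change ι.app k (A.map θ x.1) + j.app k (L.map θ x.2) =
      R.map θ (ι.app n x.1 + j.app n x.2)
    rw [map_add, ι.nat θ]
    exact congrArg _ (j.nat θ x.2)

/-- The action can be computed in every simplicial ring that contains `L` as a square zero
submodule. -/
theorem val_smul (ι : A ⟶ R) (j : L.ab.Hom R.ab)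
    (h : ∀ n a x, j.app n (a • x) = ι.app n a * j.app n x)
    (h' : ∀ n x y, j.app n x * j.app n y = 0) (a : N A) (x : L.nc.V) (z : N R)
    (hz : ∀ n, z.1 n = j.app n (L.val x n)) (n : ℕ) :
    (N.map ι a * z).1 n = j.app n (L.val (a • x) n) := by
  have key : ∀ (y : (SMod_K L).V) (m : ℕ),
      (N.map (L.SMod_liftHom ι j h h') y.1).1 m = j.app m (L.val y m) := fun y m => by
    change ι.app m (y.1.1 m).1 + j.app m (y.1.1 m).2 = j.app m (y.1.1 m).2
    rw [SMod_K_fst, map_zero, zero_add]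
  have e₁ : z = N.map (L.SMod_liftHom ι j h h') (show (SMod_K L).V from x).1 :=
    N.ext' fun m => (hz m).trans (key x m).symm
  have e₂ : N.map ι a = N.map (L.SMod_liftHom ι j h h') (N.map (SMod_inl L) a) :=
    N.ext' fun m => by
      change ι.app m (a.1 m) = ι.app m (a.1 m) + j.app m 0
      rw [map_zero, add_zero]
  rw [e₁, e₂, ← map_mul]
  exact key (a • x : L.nc.V) n

/-- The map `A ⋉ L → B ⋉ L'`. -/
def Hom.SMod_map {φ : A ⟶ B} {L : SMod A} (f : Hom φ L L') : SMod_E L ⟶ SMod_E L' where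
  app n := SMod_mapSq (φ.app n) (f.app n) (f.map_smul n)
  nat θ x := SMod_ext (φ.nat θ x.1) (f.nat θ x.2)

theorem Hom.SMod_sq {φ : A ⟶ B} {L : SMod A} (f : Hom φ L L') :
    φ ≫ SMod_inl L' = SMod_inl L ≫ f.SMod_map :=
  SRing.hom_ext fun n _ => SMod_ext rfl (map_zero (f.app n)).symm

/-- The map of kernels. -/
noncomputable def Hom.SMod_K {φ : A ⟶ B} {L : SMod A} (f : Hom φ L L') :
    DG.Hom f.SMod_map (SMod_K L) (SMod_K L') :=
  (((DG.unitHom (SMod_fst L)).kerIncl.comp (DG.unitHom f.SMod_map)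
    (Category.id_comp _))).codSub _ (DG.unitHom (SMod_fst L')).proj_mem_kerSub
    (DG.unitHom (SMod_fst L')).d_mem_kerSub fun x => SMod_mem_K L' _ fun n => by
      change φ.app n (x.1.1 n).1 = 0
      rw [SMod_K_fst, map_zero]

/-- The map of normalised chains. -/
noncomputable def Hom.nc {φ : A ⟶ B} {L : SMod A} (f : Hom φ L L') : DG.Hom φ L.nc L'.nc :=
  f.SMod_K.resMap f.SMod_sq

theorem Hom.val_nc {φ : A ⟶ B} {L : SMod A} (f : Hom φ L L') (x : L.nc.V) (n : ℕ) :
    L'.val (f.nc.toFun x) n = f.app n (L.val x n) := rfl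

theorem SMod_vtx_mem (L : SMod A) (x : L.obj 0) :
    N.inc (A := SMod_E L) (0, x) ∈ (DG.unitHom (SMod_fst L)).kerSub :=
  SMod_mem_K L _ fun n => by cases n <;> rfl

/-- A vertex as a chain. -/
noncomputable def vtx (L : SMod A) : L.obj 0 →+ L.nc.V :=
  AddMonoidHom.mk' (fun x => (⟨_, L.SMod_vtx_mem x⟩ : (SMod_K L).V)) fun x y =>
    L.val_injective (funext fun n => by
      cases n with
      | zero => rfl
      | succ n => exact (add_zero (0 : L.obj (n + 1))).symm)

theorem val_vtx_zero (x : L.obj 0) : L.val (L.vtx x) 0 = x := rfl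

theorem val_vtx_succ (x : L.obj 0) (n : ℕ) : L.val (L.vtx x) (n + 1) = 0 := rfl

theorem cycle_vtx (x : L.obj 0) : L.nc.Cycle 0 (L.vtx x) :=
  ⟨N.hg_inc (A := SMod_E L) (0, x), Subtype.ext (N.bd_inc (A := SMod_E L) (0, x))⟩

theorem val_smul_vtx (r : N A) (x : L.obj 0) (n : ℕ) :
    L.val (r • L.vtx x) n = r.1 n • L.map (vert n 0) x := by
  have e := congrArg Prod.snd
    (SRing.c2_mul_inc (A := SMod_E L) (N.map (SMod_inl L) r) (0, x) n)
  refine e.trans ?_
  change r.1 n • L.map (vert n 0) x + A.map (vert n 0) 0 • (0 : L.obj n) = _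
  rw [smul_zero, add_zero]

theorem vtx_smul (a : A.obj 0) (x : L.obj 0) : L.vtx (a • x) = N.inc a • L.vtx x :=
  L.val_injective (funext fun n => by
    rw [L.val_smul_vtx]
    cases n with
    | zero =>
      rw [SRing.c2_op00 (vert 0 0), L.map_id]; rfl
    | succ n => exact (zero_smul (A.obj (n + 1)) _).symm)

theorem Hom.nc_vtx {φ : A ⟶ B} {L : SMod A} (f : Hom φ L L') (x : L.obj 0) :
    f.nc.toFun (L.vtx x) = L'.vtx (f.app 0 x) :=
  L'.val_injective (funext fun n => by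
    rw [f.val_nc]
    cases n with
    | zero => rfl
    | succ n => exact map_zero (f.app (n + 1)))

/-- The map `a ↦ a • x`. -/
def span (x : L.obj 0) : A.ab.Hom L.ab where
  app n := (smulAddHom (A.obj n) (L.obj n)).flip (L.map (vert n 0) x)
  nat θ a := ((L.map_smul θ a _).trans (congrArg (A.map θ a • ·) (L.map_comp (vert _ 0) θ x))).symm

theorem span_app (x : L.obj 0) (n : ℕ) (a : A.obj n) :
    (L.span x).app n a = a • L.map (vert n 0) x := rfl

theorem SMod_exists_single {k : ℕ} (y : L.obj k) (hy : L.ab.Moore y) :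
    ∃ x : L.nc.V, x ∈ L.nc.gr k ∧ L.val x k = y := by
  obtain ⟨x, hx⟩ := L.exists_val (Pi.single k y) (fun n => by
    by_cases e : n = k
    · subst e
      rwa [Pi.single_eq_same]
    · rw [Pi.single_eq_of_ne e]
      exact SMod_ab_moore_zero _ _) ⟨k + 1, fun n hn => Pi.single_eq_of_ne (by omega) y⟩
  refine ⟨x, L.mem_gr.2 fun n hn => ?_, ?_⟩
  · rw [hx]
    exact Pi.single_eq_of_ne (fun e => hn (by rw [e])) y
  · rw [hx, Pi.single_eq_same]

theorem SMod_gr_ext {k : ℕ} {x y : L.nc.V} (hx : x ∈ L.nc.gr k) (hy : y ∈ L.nc.gr k)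
    (h : L.val x k = L.val y k) : x = y :=
  L.val_injective (funext fun n => by
    by_cases e : n = k
    · subst e; exact h
    · have : (n : ℤ) ≠ k := fun h => e (by exact_mod_cast h)
      rw [L.mem_gr.1 hx n this, L.mem_gr.1 hy n this])

theorem SMod_eq_zero_of_neg {k : ℤ} (hk : k < 0) {x : L.nc.V} (hx : x ∈ L.nc.gr k) : x = 0 :=
  L.val_injective (funext fun n => by
    rw [L.mem_gr.1 hx n (by omega), map_zero]; rfl)

theorem SMod_sph_of_d {x : L.nc.V} (h : L.nc.d x = 0) (n : ℕ) : L.ab.Sph (L.val x n) := by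
  cases n with
  | zero => trivial
  | succ n =>
    refine SAb.s1_sph_of (L.val_moore x (n + 1)) ?_
    change L.map (face 0) (L.val x (n + 1)) = 0
    rw [← L.val_d, h, map_zero]; rfl

theorem SMod_d_eq_zero {k : ℕ} {x : L.nc.V} (hx : x ∈ L.nc.gr k) (h : L.ab.Sph (L.val x k)) :
    L.nc.d x = 0 :=
  L.val_injective (funext fun n => by
    rw [L.val_d, map_zero]
    by_cases e : n + 1 = k
    · subst e; exact h 0
    · rw [L.mem_gr.1 hx (n + 1) fun h => e (by exact_mod_cast h), map_zero]; rfl)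

theorem SMod_bdry_iff {k : ℕ} {x : L.nc.V} (hx : x ∈ L.nc.gr k) :
    L.nc.Bdry k x ↔ L.ab.Bd (L.val x k) := by
  constructor
  · rintro ⟨y, -, rfl⟩
    exact ⟨L.val y (k + 1), L.val_moore y _, (L.val_d y k).symm⟩
  · rintro ⟨z, hz, e⟩
    obtain ⟨y, hy, e'⟩ := L.SMod_exists_single z hz
    have hy' : y ∈ L.nc.gr ((k : ℤ) + 1) := hy
    refine ⟨y, hy', L.SMod_gr_ext (L.nc.d_mem hy') hx ?_⟩
    rw [L.val_d, e']; exact e

theorem SMod_unit_bdry {k : ℕ} {x : N A} (hx : N.Hg k x) (h : A.ab.Bd (x.1 k)) :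
    (DG.unit A).Bdry k x := by
  obtain ⟨z, hz, e⟩ := h
  have h1 := SRing.c2_hg_succ (SRing.c2_single_hg (k + 1) z hz)
  refine ⟨SRing.c2_single (k + 1) z hz, h1, SRing.c2_hg_ext (SRing.c2_hg_bd h1) hx ?_⟩
  change A.map (face 0) ((SRing.c2_single (k + 1) z hz).1 (k + 1)) = _
  rw [SRing.c2_single_same]; exact e

theorem qi_toSpan {x : L.obj 0} (h : (L.span x).WE) :
    (L.nc.toSpan (L.vtx x) (L.cycle_vtx x)).QI := by
  refine DG.Hom.qi_iff'.2 fun k => ?_
  have hv : ∀ (r : N A) (n : ℕ),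
      L.val ((L.nc.toSpan (L.vtx x) (L.cycle_vtx x)).toFun r) n = (L.span x).app n (r.1 n) :=
    fun r n => L.val_smul_vtx r x n
  rcases lt_or_ge k 0 with hk | hk
  · refine ⟨fun y hy => ⟨0, ⟨zero_mem _, map_zero _⟩, 0, zero_mem _, ?_⟩,
      fun r hr _ => ⟨0, zero_mem _, ?_⟩⟩
    · rw [L.SMod_eq_zero_of_neg hk hy.1, map_zero, map_zero, sub_zero]
    · rw [N.eq_zero_of_neg hk hr.1, map_zero]
  · obtain ⟨k, rfl⟩ := Int.eq_ofNat_of_zero_le hk
    refine ⟨fun y hy => ?_, fun r hr hb => ?_⟩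
    · obtain ⟨a, ha, hb⟩ := (h k).1 (L.val y k) (L.SMod_sph_of_d hy.2 k)
      have hc : (DG.unit A).Cycle k (SRing.c2_single k a ha.moore) :=
        ⟨SRing.c2_single_hg k a _, SRing.c2_bd_single ha⟩
      refine ⟨_, hc, (L.SMod_bdry_iff
        (sub_mem ((L.nc.toSpan (L.vtx x) (L.cycle_vtx x)).map_gr hc.1) hy.1)).2 ?_⟩
      rw [map_sub, Pi.sub_apply, hv, SRing.c2_single_same]
      exact hb
    · have h1 := (L.SMod_bdry_iff
        ((L.nc.toSpan (L.vtx x) (L.cycle_vtx x)).map_gr hr.1)).1 hb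
      rw [hv] at h1
      exact SMod_unit_bdry hr.1 ((h k).2 _ (SRing.c2_sph hr.2 k) h1)

attribute [irreducible] nc val Hom.nc vtx

end SMod

end Pool.Agent.P.MP_932208_ag.Ax
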