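import Pool.Agent.P.MP_932208_ag.Ex.SMod

/-!
Pairings of simplicial modules induce pairings of normalised chains (shuffle product).
-/

namespace Pool.Agent.P.MP_932208_ag.Ax

open CategoryTheory

variable {A B : SRing}

theorem SPair_sgn_hg {p : ℤ} {x : Ch A} (hx : ∀ n : ℕ, (n : ℤ) ≠ p → x n = 0) :
    x.sgn = p.negOnePow • x := by
  ext n
  change (-1) ^ n * x n = (p.negOnePow : ℤ) • x n
  by_cases h : (n : ℤ) = p
  · subst h
    rw [Int.coe_negOnePow_natCast, zsmul_eq_mul]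
    push_cast
    rfl
  · rw [hx n h, mul_zero, smul_zero]

theorem SPair_sz_smul (e : ℤˣ) (x : Ch A) : (e • x).sz = e • x.sz := by
  rcases Int.units_eq_one_or e with rfl | rfl
  · rw [one_smul, one_smul]
  · rw [Units.neg_smul, Units.neg_smul, one_smul, one_smul, Ch.sz_neg]

theorem SPair_smul_mul {R : Type} [Ring R] (e : ℤˣ) (x y : R) : e • x * y = e • (x * y) := by
  rcases Int.units_eq_one_or e with rfl | rfl
  · rw [one_smul, one_smul]
  · rw [Units.neg_smul, Units.neg_smul, one_smul, one_smul, neg_mul]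

theorem SPair_mul_smul {R : Type} [Ring R] (e : ℤˣ) (x y : R) : x * e • y = e • (x * y) := by
  rcases Int.units_eq_one_or e with rfl | rfl
  · rw [one_smul, one_smul]
  · rw [Units.neg_smul, Units.neg_smul, one_smul, one_smul, mul_neg]

theorem SPair_smul_apply (e : ℤˣ) (x : Ch A) (n : ℕ) : (e • x) n = e • x n := rfl

theorem SPair_sh_comm (n : ℕ) : ∀ (A : SRing) (p q : ℤ) (x y : Ch A),
    (∀ n : ℕ, (n : ℤ) ≠ p → x n = 0) → (∀ n : ℕ, (n : ℤ) ≠ q → y n = 0) →
    (x * y) n = (p * q).negOnePow • (y * x) n := by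
  induction n with
  | zero =>
    intro A p q x y hx hy
    rw [Ch.mul_zero_apply, Ch.mul_zero_apply]
    by_cases h : ((0 : ℕ) : ℤ) = p
    · rw [← h, Nat.cast_zero, zero_mul, Int.negOnePow_zero, one_smul, mul_comm]
    · rw [hx 0 h, zero_mul, mul_zero, smul_zero]
  | succ n ih =>
    intro A p q x y hx hy
    have t : ∀ {r : ℤ} {z : Ch A}, (∀ n : ℕ, (n : ℤ) ≠ r → z n = 0) →
        ∀ n : ℕ, (n : ℤ) ≠ r - 1 → z.tail n = 0 := fun h n hn => h (n + 1) (by push_cast; omega)
    have s : ∀ {r : ℤ} {z : Ch A}, (∀ n : ℕ, (n : ℤ) ≠ r → z n = 0) →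
        ∀ n : ℕ, (n : ℤ) ≠ r → z.sz n = 0 := fun h n hn => by
      change A.map _ _ = 0
      rw [h n hn, map_zero]
    have h1 : (x * y) (n + 1) = (x * y).tail n := rfl
    have h2 : (y * x) (n + 1) = (y * x).tail n := rfl
    rw [h1, h2, Ch.tail_mul, Ch.tail_mul, SPair_sgn_hg hx, SPair_sgn_hg hy, SPair_sz_smul,
      SPair_sz_smul, SPair_smul_mul, SPair_smul_mul, Ch.add_apply, Ch.add_apply, SPair_smul_apply,
      SPair_smul_apply, ih _ _ _ _ _ (t hx) (s hy), ih _ _ _ _ _ (s hx) (t hy), smul_add,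
      smul_smul, smul_smul, ← Int.negOnePow_add, ← Int.negOnePow_add]
    have e1 : (p + p * (q - 1)) = p * q := by ring
    have e2 : ((p - 1) * q).negOnePow = (p * q + q).negOnePow := by
      rw [Int.negOnePow_eq_iff]
      exact ⟨-q, by ring⟩
    rw [e1, e2]
    exact add_comm _ _

/-- The shuffle product is graded commutative. -/
theorem N.mul_comm_hg {p q : ℤ} {x y : N A} (hx : N.Hg p x) (hy : N.Hg q y) :
    x * y = (p * q).negOnePow • (y * x) :=
  N.ext' fun n => SPair_sh_comm n A p q x.1 y.1 hx hy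

theorem SPair_sg_hg {p : ℤ} {x : N A} (hx : N.Hg p x) : N.sg x = p.negOnePow • x :=
  Subtype.ext (SPair_sgn_hg hx)

namespace SMod

/-- A bilinear pairing of simplicial modules. -/
structure Pairing (L L' P : SMod A) where
  μ : ∀ n, L.obj n →+ L'.obj n →+ P.obj n
  smul_left : ∀ n (a : A.obj n) x y, μ n (a • x) y = a • μ n x y
  smul_right : ∀ n (a : A.obj n) x y, μ n x (a • y) = a • μ n x y
  nat : ∀ {k n : ℕ} (θ : Op k n) x y, μ k (L.map θ x) (L'.map θ y) = P.map θ (μ n x y)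

variable {L L' P : SMod A} {Q Q' S : SMod B}

section chains
variable {R : SRing} (M : SMod A) (j : M.ab.Hom R.ab)

theorem SPair_nm (x : M.nc.V) : Ch.Nm (A := R) fun n => j.app n (M.val x n) := by
  refine ⟨fun n i => ?_, ?_⟩
  · have h : M.map (face i.succ) (M.val x (n + 1)) = 0 := M.val_moore x (n + 1) i
    have h' := j.nat (face i.succ) (M.val x (n + 1))
    change j.app n (M.map (face i.succ) (M.val x (n + 1))) = R.map (face i.succ) _ at h'
    rw [h, map_zero] at h'
    exact h'.symm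
  · obtain ⟨b, hb⟩ := M.val_bdd x
    exact ⟨b, fun n hn => by
      change j.app n (M.val x n) = 0
      rw [hb n hn, map_zero]⟩

/-- The chain of `R` given by a chain of `M`. -/
noncomputable def SPair_J : M.nc.V →+ N R :=
  AddMonoidHom.mk' (fun x => N.mk (fun n => j.app n (M.val x n)) (SPair_nm M j x)) fun x y =>
    N.ext' fun n => by
      change j.app n (M.val (x + y) n) = j.app n (M.val x n) + j.app n (M.val y n)
      rw [map_add, Pi.add_apply, map_add]

theorem SPair_J_val (x : M.nc.V) (n : ℕ) : (SPair_J M j x).1 n = j.app n (M.val x n) := rfl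

theorem SPair_J_smul (ι : A ⟶ R) (h : ∀ n a x, j.app n (a • x) = ι.app n a * j.app n x)
    (h' : ∀ n x y, j.app n x * j.app n y = 0) (a : N A) (x : M.nc.V) :
    SPair_J M j (a • x) = N.map ι a * SPair_J M j x :=
  N.ext' fun n => (M.val_smul ι j h h' a x (SPair_J M j x) (fun _ => rfl) n).symm

theorem SPair_J_d (x : M.nc.V) : SPair_J M j (M.nc.d x) = N.bd (SPair_J M j x) :=
  N.ext' fun n => by
    rw [SPair_J_val, M.val_d]
    exact j.nat (face 0) (M.val x (n + 1))

theorem SPair_J_hg {k : ℤ} {x : M.nc.V} (hx : x ∈ M.nc.gr k) : N.Hg k (SPair_J M j x) :=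
  fun n hn => by rw [SPair_J_val, M.mem_gr.1 hx n hn, map_zero]

theorem SPair_J_vtx (x : M.obj 0) : SPair_J M j (M.vtx x) = N.inc (j.app 0 x) :=
  N.ext' fun n => by
    rw [SPair_J_val]
    cases n with
    | zero => rw [M.val_vtx_zero]; rfl
    | succ n => rw [M.val_vtx_succ, map_zero]; rfl

theorem SPair_J_units (e : ℤˣ) (x : M.nc.V) : SPair_J M j (e • x) = e • SPair_J M j x := by
  rcases Int.units_eq_one_or e with rfl | rfl
  · rw [one_smul, one_smul]
  · rw [Units.neg_smul, Units.neg_smul, one_smul, one_smul, map_neg]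

variable (hj : ∀ n, Function.Injective (j.app n))
include hj

theorem SPair_J_inj : Function.Injective (SPair_J M j) := fun _ _ e =>
  M.val_injective (funext fun n => hj n (congrArg (fun z : N R => z.1 n) e))

theorem SPair_J_gr {k : ℤ} {x : M.nc.V} (hx : N.Hg k (SPair_J M j x)) : x ∈ M.nc.gr k :=
  M.mem_gr.2 fun n hn => hj n ((hx n hn).trans (map_zero _).symm)

end chains

/-- The carrier of the ring attached to a pairing. -/
def SPair_T (_m : Pairing L L' P) (n : ℕ) : Type := A.obj n × L.obj n × L'.obj n × P.obj n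

/-- An element given by its components. -/
def SPair_mk (m : Pairing L L' P) {n : ℕ} (a : A.obj n) (x : L.obj n) (y : L'.obj n) (z : P.obj n) :
    SPair_T m n := (a, x, y, z)

instance (m : Pairing L L' P) (n : ℕ) : AddCommGroup (SPair_T m n) :=
  inferInstanceAs (AddCommGroup (A.obj n × L.obj n × L'.obj n × P.obj n))

instance (m : Pairing L L' P) (n : ℕ) : Mul (SPair_T m n) :=
  ⟨fun u v => (u.1 * v.1, u.1 • v.2.1 + v.1 • u.2.1, u.1 • v.2.2.1 + v.1 • u.2.2.1,
    u.1 • v.2.2.2 + v.1 • u.2.2.2 + m.μ n u.2.1 v.2.2.1 + m.μ n v.2.1 u.2.2.1)⟩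

instance (m : Pairing L L' P) (n : ℕ) : One (SPair_T m n) := ⟨(1, 0, 0, 0)⟩

section ring
variable {m : Pairing L L' P} {n : ℕ}

theorem SPair_ext (m : Pairing L L' P) {u v : SPair_T m n} (h₁ : u.1 = v.1) (h₂ : u.2.1 = v.2.1)
    (h₃ : u.2.2.1 = v.2.2.1) (h₄ : u.2.2.2 = v.2.2.2) : u = v :=
  Prod.ext h₁ (Prod.ext h₂ (Prod.ext h₃ h₄))

theorem SPair_mul₁ (u v : SPair_T m n) : (u * v).1 = u.1 * v.1 := rfl
theorem SPair_mul₂ (u v : SPair_T m n) : (u * v).2.1 = u.1 • v.2.1 + v.1 • u.2.1 := rfl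
theorem SPair_mul₃ (u v : SPair_T m n) : (u * v).2.2.1 = u.1 • v.2.2.1 + v.1 • u.2.2.1 := rfl
theorem SPair_mul₄ (u v : SPair_T m n) : (u * v).2.2.2 =
    u.1 • v.2.2.2 + v.1 • u.2.2.2 + m.μ n u.2.1 v.2.2.1 + m.μ n v.2.1 u.2.2.1 := rfl
theorem SPair_add₁ (u v : SPair_T m n) : (u + v).1 = u.1 + v.1 := rfl
theorem SPair_add₂ (u v : SPair_T m n) : (u + v).2.1 = u.2.1 + v.2.1 := rfl
theorem SPair_add₃ (u v : SPair_T m n) : (u + v).2.2.1 = u.2.2.1 + v.2.2.1 := rfl
theorem SPair_add₄ (u v : SPair_T m n) : (u + v).2.2.2 = u.2.2.2 + v.2.2.2 := rfl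

theorem SPair_mul_comm (u v : SPair_T m n) : u * v = v * u := by
  refine SPair_ext m ?_ ?_ ?_ ?_
  · rw [SPair_mul₁, SPair_mul₁, mul_comm]
  · rw [SPair_mul₂, SPair_mul₂, add_comm]
  · rw [SPair_mul₃, SPair_mul₃, add_comm]
  · rw [SPair_mul₄, SPair_mul₄]; abel

theorem SPair_mul_add (u v w : SPair_T m n) : u * (v + w) = u * v + u * w := by
  refine SPair_ext m ?_ ?_ ?_ ?_
  · simp only [SPair_mul₁, SPair_add₁, mul_add]
  · simp only [SPair_mul₂, SPair_add₁, SPair_add₂]; module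
  · simp only [SPair_mul₃, SPair_add₁, SPair_add₃]; module
  · simp only [SPair_mul₄, SPair_add₁, SPair_add₂, SPair_add₃, SPair_add₄, map_add,
      AddMonoidHom.add_apply]
    module

theorem SPair_mul_zero (u : SPair_T m n) : u * 0 = 0 := by
  have h := SPair_mul_add u 0 0
  rw [add_zero] at h
  exact left_eq_add.mp h

theorem SPair_mul_assoc (u v w : SPair_T m n) : u * v * w = u * (v * w) := by
  refine SPair_ext m ?_ ?_ ?_ ?_
  · simp only [SPair_mul₁, mul_assoc]
  · simp only [SPair_mul₁, SPair_mul₂]; module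
  · simp only [SPair_mul₁, SPair_mul₃]; module
  · simp only [SPair_mul₁, SPair_mul₂, SPair_mul₃, SPair_mul₄, map_add, AddMonoidHom.add_apply,
      m.smul_left, m.smul_right]
    module

theorem SPair_one_mul (u : SPair_T m n) : 1 * u = u := by
  refine SPair_ext m ?_ ?_ ?_ ?_
  · exact one_mul u.1
  · change (1 : A.obj n) • u.2.1 + u.1 • (0 : L.obj n) = _
    simp
  · change (1 : A.obj n) • u.2.2.1 + u.1 • (0 : L'.obj n) = _
    simp
  · change (1 : A.obj n) • u.2.2.2 + u.1 • (0 : P.obj n) + m.μ n 0 u.2.2.1 + m.μ n u.2.1 0 = _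
    simp

theorem SPair_ringAx (m : Pairing L L' P) (n : ℕ) : RingAx (SPair_T m n) where
  left_distrib := SPair_mul_add
  right_distrib u v w := by
    rw [SPair_mul_comm, SPair_mul_add, SPair_mul_comm w, SPair_mul_comm w]
  zero_mul u := by rw [SPair_mul_comm, SPair_mul_zero]
  mul_zero := SPair_mul_zero
  mul_assoc := SPair_mul_assoc
  one_mul := SPair_one_mul
  mul_one u := by rw [SPair_mul_comm, SPair_one_mul]

instance (m : Pairing L L' P) (n : ℕ) : CommRing (SPair_T m n) :=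
  { (SPair_ringAx m n).ring with mul_comm := SPair_mul_comm }

end ring

/-- The componentwise map of rings. -/
def SPair_rmap {m : Pairing L L' P} {m' : Pairing Q Q' S} {n k : ℕ} (φ : A.obj n →+* B.obj k)
    (f : L.obj n →+ Q.obj k) (f' : L'.obj n →+ Q'.obj k) (g : P.obj n →+ S.obj k)
    (hf : ∀ a x, f (a • x) = φ a • f x) (hf' : ∀ a x, f' (a • x) = φ a • f' x)
    (hg : ∀ a x, g (a • x) = φ a • g x) (h : ∀ x y, g (m.μ n x y) = m'.μ k (f x) (f' y)) :
    SPair_T m n →+* SPair_T m' k where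
  toFun u := SPair_mk m' (φ u.1) (f u.2.1) (f' u.2.2.1) (g u.2.2.2)
  map_one' := SPair_ext m' (map_one φ) (map_zero f) (map_zero f') (map_zero g)
  map_zero' := SPair_ext m' (map_zero φ) (map_zero f) (map_zero f') (map_zero g)
  map_add' _ _ := SPair_ext m' (map_add φ _ _) (map_add f _ _) (map_add f' _ _) (map_add g _ _)
  map_mul' u v := by
    refine SPair_ext m' (map_mul φ _ _) ?_ ?_ ?_
    · change f (u.1 • v.2.1 + v.1 • u.2.1) = φ u.1 • f v.2.1 + φ v.1 • f u.2.1
      rw [map_add, hf, hf]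
    · change f' (u.1 • v.2.2.1 + v.1 • u.2.2.1) = φ u.1 • f' v.2.2.1 + φ v.1 • f' u.2.2.1
      rw [map_add, hf', hf']
    · change g (u.1 • v.2.2.2 + v.1 • u.2.2.2 + m.μ n u.2.1 v.2.2.1 + m.μ n v.2.1 u.2.2.1) =
        φ u.1 • g v.2.2.2 + φ v.1 • g u.2.2.2 + m'.μ k (f u.2.1) (f' v.2.2.1) +
          m'.μ k (f v.2.1) (f' u.2.2.1)
      rw [map_add, map_add, map_add, hg, hg, h, h]

/-- The simplicial ring attached to a pairing. -/
@[reducible] def SPair_R (m : Pairing L L' P) : SRing where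
  obj := SPair_T m
  map θ := SPair_rmap (A.map θ) (L.map θ) (L'.map θ) (P.map θ) (L.map_smul θ) (L'.map_smul θ)
    (P.map_smul θ) fun x y => (m.nat θ x y).symm
  map_id n _ := SPair_ext m (A.map_id n _) (L.map_id n _) (L'.map_id n _) (P.map_id n _)
  map_comp θ η _ :=
    SPair_ext m (A.map_comp θ η _) (L.map_comp θ η _) (L'.map_comp θ η _) (P.map_comp θ η _)

/-- The map of simplicial rings attached to compatible maps. -/
def SPair_hom (m : Pairing L L' P) (m' : Pairing Q Q' S) {φ : A ⟶ B}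
    (f : Hom φ L Q) (f' : Hom φ L' Q') (g : Hom φ P S)
    (h : ∀ n x y, g.app n (m.μ n x y) = m'.μ n (f.app n x) (f'.app n y)) :
    SPair_R m ⟶ SPair_R m' where
  app n := SPair_rmap (φ.app n) (f.app n) (f'.app n) (g.app n) (f.map_smul n) (f'.map_smul n)
    (g.map_smul n) (h n)
  nat θ _ := SPair_ext m' (φ.nat θ _) (f.nat θ _) (f'.nat θ _) (g.nat θ _)

/-- The identity map. -/
def SPair_id (M : SMod A) : Hom (𝟙 A) M M :=
  ⟨fun _ => AddMonoidHom.id _, fun _ _ _ => rfl, fun _ _ => rfl⟩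

/-- The zero map. -/
def SPair_zero (M : SMod A) : Hom (𝟙 A) M M :=
  ⟨fun _ => 0, fun _ _ _ => (smul_zero _).symm, fun _ _ => (map_zero _).symm⟩

section slots
variable (m : Pairing L L' P)

/-- The inclusion of the base ring. -/
def SPair_i : A ⟶ SPair_R m where
  app n :=
    { toFun := fun a => SPair_mk m a 0 0 0
      map_one' := rfl
      map_zero' := rfl
      map_add' := fun _ _ => SPair_ext m rfl (add_zero _).symm (add_zero _).symm (add_zero _).symm
      map_mul' := fun a b => by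
        refine SPair_ext m rfl ?_ ?_ ?_
        · change (0 : L.obj n) = a • 0 + b • 0
          simp
        · change (0 : L'.obj n) = a • 0 + b • 0
          simp
        · change (0 : P.obj n) = a • 0 + b • 0 + m.μ n 0 0 + m.μ n 0 0
          simp }
  nat θ _ := SPair_ext m rfl (map_zero (L.map θ)).symm (map_zero (L'.map θ)).symm
    (map_zero (P.map θ)).symm

/-- The first slot. -/
def SPair_j₁ : L.ab.Hom (SPair_R m).ab where
  app _ := AddMonoidHom.mk' (fun x => SPair_mk m 0 x 0 0) fun _ _ =>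
    SPair_ext m (add_zero _).symm rfl (add_zero _).symm (add_zero _).symm
  nat θ _ := SPair_ext m (map_zero (A.map θ)).symm rfl (map_zero (L'.map θ)).symm
    (map_zero (P.map θ)).symm

/-- The second slot. -/
def SPair_j₂ : L'.ab.Hom (SPair_R m).ab where
  app _ := AddMonoidHom.mk' (fun x => SPair_mk m 0 0 x 0) fun _ _ =>
    SPair_ext m (add_zero _).symm (add_zero _).symm rfl (add_zero _).symm
  nat θ _ := SPair_ext m (map_zero (A.map θ)).symm (map_zero (L.map θ)).symm rfl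
    (map_zero (P.map θ)).symm

/-- The third slot. -/
def SPair_j₃ : P.ab.Hom (SPair_R m).ab where
  app _ := AddMonoidHom.mk' (fun x => SPair_mk m 0 0 0 x) fun _ _ =>
    SPair_ext m (add_zero _).symm (add_zero _).symm (add_zero _).symm rfl
  nat θ _ := SPair_ext m (map_zero (A.map θ)).symm (map_zero (L.map θ)).symm
    (map_zero (L'.map θ)).symm rfl

theorem SPair_mk_mul (n : ℕ) (a a' : A.obj n) (x x' : L.obj n) (y y' : L'.obj n) (z z' : P.obj n) :
    SPair_mk m a x y z * SPair_mk m a' x' y' z' = SPair_mk m (a * a') (a • x' + a' • x)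
      (a • y' + a' • y) (a • z' + a' • z + m.μ n x y' + m.μ n x' y) := rfl

theorem SPair_j₁_smul (n : ℕ) (a : A.obj n) (x : L.obj n) :
    (SPair_j₁ m).app n (a • x) = (SPair_i m).app n a * (SPair_j₁ m).app n x :=
  ((SPair_mk_mul m n a 0 0 x 0 0 0 0).trans (by simp; rfl)).symm

theorem SPair_j₂_smul (n : ℕ) (a : A.obj n) (x : L'.obj n) :
    (SPair_j₂ m).app n (a • x) = (SPair_i m).app n a * (SPair_j₂ m).app n x :=
  ((SPair_mk_mul m n a 0 0 0 0 x 0 0).trans (by simp; rfl)).symm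

theorem SPair_j₃_smul (n : ℕ) (a : A.obj n) (x : P.obj n) :
    (SPair_j₃ m).app n (a • x) = (SPair_i m).app n a * (SPair_j₃ m).app n x :=
  ((SPair_mk_mul m n a 0 0 0 0 0 0 x).trans (by simp; rfl)).symm

theorem SPair_j₁_sq (n : ℕ) (x y : L.obj n) : (SPair_j₁ m).app n x * (SPair_j₁ m).app n y = 0 :=
  (SPair_mk_mul m n 0 0 x y 0 0 0 0).trans (by simp; rfl)

theorem SPair_j₂_sq (n : ℕ) (x y : L'.obj n) : (SPair_j₂ m).app n x * (SPair_j₂ m).app n y = 0 :=
  (SPair_mk_mul m n 0 0 0 0 x y 0 0).trans (by simp; rfl)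

theorem SPair_j₃_sq (n : ℕ) (x y : P.obj n) : (SPair_j₃ m).app n x * (SPair_j₃ m).app n y = 0 :=
  (SPair_mk_mul m n 0 0 0 0 0 0 x y).trans (by simp; rfl)

theorem SPair_j_mul (n : ℕ) (x : L.obj n) (y : L'.obj n) :
    (SPair_j₁ m).app n x * (SPair_j₂ m).app n y = (SPair_j₃ m).app n (m.μ n x y) :=
  (SPair_mk_mul m n 0 0 x 0 0 y 0 0).trans (by simp; rfl)

theorem SPair_j₃_inj (n : ℕ) : Function.Injective ((SPair_j₃ m).app n) := fun _ _ e =>
  congrArg (fun u : SPair_T m n => u.2.2.2) e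

theorem SPair_exists (x : L.nc.V) (y : L'.nc.V) : ∃ w : P.nc.V,
    SPair_J P (SPair_j₃ m) w = SPair_J L (SPair_j₁ m) x * SPair_J L' (SPair_j₂ m) y := by
  set u := SPair_J L (SPair_j₁ m) x * SPair_J L' (SPair_j₂ m) y with hu
  have h₁ : N.map (SPair_hom m m (SPair_id L) (SPair_zero L') (SPair_zero P)
      fun n x _ => (map_zero (m.μ n x)).symm) u = 0 := by
    have : N.map (SPair_hom m m (SPair_id L) (SPair_zero L') (SPair_zero P)
        fun n x _ => (map_zero (m.μ n x)).symm) (SPair_J L' (SPair_j₂ m) y) = 0 :=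
      N.ext' fun n => rfl
    rw [hu, map_mul, this, mul_zero]
  have h₂ : N.map (SPair_hom m m (SPair_zero L) (SPair_id L') (SPair_zero P)
      fun n _ y => (congrArg (fun c : L'.obj n →+ P.obj n => c y) (map_zero (m.μ n))).symm) u = 0 := by
    have : N.map (SPair_hom m m (SPair_zero L) (SPair_id L') (SPair_zero P)
        fun n _ y => (congrArg (fun c : L'.obj n →+ P.obj n => c y) (map_zero (m.μ n))).symm)
          (SPair_J L (SPair_j₁ m) x) = 0 :=
      N.ext' fun n => rfl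
    rw [hu, map_mul, this, zero_mul]
  obtain ⟨w, hw⟩ := P.exists_val (fun n => (u.1 n : SPair_T m n).2.2.2) (fun n => by
      cases n with
      | zero => trivial
      | succ n => exact fun i => congrArg (fun v : SPair_T m n => v.2.2.2) (u.2.1 n i))
    (by
      obtain ⟨b, hb⟩ := u.2.2
      exact ⟨b, fun n hn => congrArg (fun v : SPair_T m n => v.2.2.2) (hb n hn)⟩)
  refine ⟨w, N.ext' fun n => ?_⟩
  rw [SPair_J_val, hw]
  have e₁ := congrArg (fun z : N (SPair_R m) => z.1 n) h₁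
  have e₂ := congrArg (fun z : N (SPair_R m) => z.1 n) h₂
  exact SPair_ext m (congrArg (fun v : SPair_T m n => v.1) e₁).symm
    (congrArg (fun v : SPair_T m n => v.2.1) e₁).symm
    (congrArg (fun v : SPair_T m n => v.2.2.1) e₂).symm rfl

/-- The product of two chains. -/
noncomputable def SPair_mu0 (x : L.nc.V) (y : L'.nc.V) : P.nc.V := (SPair_exists m x y).choose

theorem SPair_mu0_spec (x : L.nc.V) (y : L'.nc.V) : SPair_J P (SPair_j₃ m) (SPair_mu0 m x y) =
    SPair_J L (SPair_j₁ m) x * SPair_J L' (SPair_j₂ m) y := (SPair_exists m x y).choose_spec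

theorem SPair_J₃_inj : Function.Injective (SPair_J P (SPair_j₃ m)) :=
  SPair_J_inj P _ (SPair_j₃_inj m)

/-- The product of two chains as a biadditive map. -/
noncomputable def SPair_mu : L.nc.V →+ L'.nc.V →+ P.nc.V :=
  AddMonoidHom.mk' (fun x => AddMonoidHom.mk' (SPair_mu0 m x) fun y y' => SPair_J₃_inj m (by
      rw [map_add, SPair_mu0_spec, SPair_mu0_spec, SPair_mu0_spec, map_add, mul_add]))
    fun x x' => AddMonoidHom.ext fun y => SPair_J₃_inj m (by
      change SPair_J P _ (SPair_mu0 m (x + x') y) = SPair_J P _ (SPair_mu0 m x y + SPair_mu0 m x' y)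
      rw [map_add, SPair_mu0_spec, SPair_mu0_spec, SPair_mu0_spec, map_add, add_mul])

theorem SPair_mu_spec (x : L.nc.V) (y : L'.nc.V) : SPair_J P (SPair_j₃ m) (SPair_mu m x y) =
    SPair_J L (SPair_j₁ m) x * SPair_J L' (SPair_j₂ m) y := SPair_mu0_spec m x y

theorem SPair_mu_gr {k l : ℤ} {x : L.nc.V} {y : L'.nc.V} (hx : x ∈ L.nc.gr k)
    (hy : y ∈ L'.nc.gr l) : SPair_mu m x y ∈ P.nc.gr (k + l) :=
  SPair_J_gr P _ (SPair_j₃_inj m) (by
    rw [SPair_mu_spec]
    exact (SPair_J_hg L _ hx).mul (SPair_J_hg L' _ hy))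

theorem SPair_mu_left (a : N A) (x : L.nc.V) (y : L'.nc.V) :
    SPair_mu m (a • x) y = a • SPair_mu m x y :=
  SPair_J₃_inj m (by
    rw [SPair_mu_spec, SPair_J_smul P _ _ (SPair_j₃_smul m) (SPair_j₃_sq m), SPair_mu_spec,
      SPair_J_smul L _ _ (SPair_j₁_smul m) (SPair_j₁_sq m), mul_assoc])

theorem SPair_mu_right {n k : ℤ} {a : N A} {x : L.nc.V} (y : L'.nc.V) (ha : N.Hg n a)
    (hx : x ∈ L.nc.gr k) : SPair_mu m x (a • y) = (n * k).negOnePow • a • SPair_mu m x y :=
  SPair_J₃_inj m (by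
    rw [SPair_mu_spec, SPair_J_units, SPair_J_smul P _ _ (SPair_j₃_smul m) (SPair_j₃_sq m),
      SPair_mu_spec, SPair_J_smul L' _ _ (SPair_j₂_smul m) (SPair_j₂_sq m), ← mul_assoc,
      N.mul_comm_hg (SPair_J_hg L _ hx) (ha.map (SPair_i m)), SPair_smul_mul, mul_assoc,
      mul_comm k n])

theorem SPair_mu_d {k : ℤ} {x : L.nc.V} (y : L'.nc.V) (hx : x ∈ L.nc.gr k) :
    P.nc.d (SPair_mu m x y) =
      SPair_mu m (L.nc.d x) y + k.negOnePow • SPair_mu m x (L'.nc.d y) :=
  SPair_J₃_inj m (by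
    rw [SPair_J_d, SPair_mu_spec, N.bd_mul, map_add, SPair_J_units, SPair_mu_spec, SPair_mu_spec,
      SPair_J_d, SPair_J_d, SPair_sg_hg (SPair_J_hg L _ hx), SPair_smul_mul])

end slots

/-- The pairing of normalised chains. -/
noncomputable def Pairing.nc (m : Pairing L L' P) : DG.Pairing L.nc L'.nc P.nc where
  μ := SPair_mu m
  μ_gr hx hy := SPair_mu_gr m hx hy
  smul_left := SPair_mu_left m
  smul_right y ha hx := SPair_mu_right m y ha hx
  leibniz y hx := SPair_mu_d m y hx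

theorem Pairing.nc_vtx (m : Pairing L L' P) (x : L.obj 0) (y : L'.obj 0) :
    m.nc.μ (L.vtx x) (L'.vtx y) = P.vtx (m.μ 0 x y) :=
  SPair_J₃_inj m (by
    change SPair_J P _ (SPair_mu m (L.vtx x) (L'.vtx y)) = _
    rw [SPair_mu_spec, SPair_J_vtx, SPair_J_vtx, SPair_J_vtx, ← map_mul, SPair_j_mul])

theorem Pairing.nc_compat (m : Pairing L L' P) (m' : Pairing Q Q' S) {φ : A ⟶ B}
    (f : Hom φ L Q) (f' : Hom φ L' Q') (g : Hom φ P S)
    (h : ∀ n x y, g.app n (m.μ n x y) = m'.μ n (f.app n x) (f'.app n y)) :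
    m.nc.Compat m'.nc f.nc f'.nc g.nc := fun x y =>
  SPair_J₃_inj m' (by
    change SPair_J S _ (g.nc.toFun (SPair_mu m x y)) =
      SPair_J S _ (SPair_mu m' (f.nc.toFun x) (f'.nc.toFun y))
    have e₁ : SPair_J Q (SPair_j₁ m') (f.nc.toFun x) =
        N.map (SPair_hom m m' f f' g h) (SPair_J L (SPair_j₁ m) x) := N.ext' fun n => by
      rw [SPair_J_val, f.val_nc]
      exact SPair_ext m' (map_zero (φ.app n)).symm rfl (map_zero (f'.app n)).symm
        (map_zero (g.app n)).symm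
    have e₂ : SPair_J Q' (SPair_j₂ m') (f'.nc.toFun y) =
        N.map (SPair_hom m m' f f' g h) (SPair_J L' (SPair_j₂ m) y) := N.ext' fun n => by
      rw [SPair_J_val, f'.val_nc]
      exact SPair_ext m' (map_zero (φ.app n)).symm (map_zero (f.app n)).symm rfl
        (map_zero (g.app n)).symm
    have e₃ : ∀ w, SPair_J S (SPair_j₃ m') (g.nc.toFun w) =
        N.map (SPair_hom m m' f f' g h) (SPair_J P (SPair_j₃ m) w) := fun w => N.ext' fun n => by
      rw [SPair_J_val, g.val_nc]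
      exact SPair_ext m' (map_zero (φ.app n)).symm (map_zero (f.app n)).symm
        (map_zero (f'.app n)).symm rfl
    rw [SPair_mu_spec, e₁, e₂, e₃, SPair_mu_spec, map_mul])

attribute [irreducible] Pairing.nc

end SMod

/-- Restriction of scalars of a pairing. -/
def DG.Pairing.res {L L' P : DG B} (m : DG.Pairing L L' P) (φ : A ⟶ B) :
    DG.Pairing (L.res φ) (L'.res φ) (P.res φ) where
  μ := m.μ
  μ_gr := m.μ_gr
  smul_left a := m.smul_left (N.map φ a)
  smul_right y ha hx := m.smul_right y (N.Hg.map φ ha) hx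
  leibniz := m.leibniz

/-- A pairing that hits a generator is onto on `H_0`. -/
theorem DG.Pairing.ontoH0_of_gen {L L' P : DG A} (m : DG.Pairing L L' P) {x : L.V} {y : L'.V}
    {z : P.V} (hx : L.Cycle 0 x) (hy : L'.Cycle 0 y) (hz : P.Cycle 0 z) (e : m.μ x y = z)
    (h : (P.toSpan z hz).QI) : m.OntoH0 := by
  intro z' hz'
  obtain ⟨r, hr, w, hw, p⟩ := (DG.Hom.qi_iff'.1 h 0).1 z' hz'
  have hrx : L.Cycle 0 (r • x) := by
    refine ⟨by simpa using L.smul_mem hr.1 hx.1, ?_⟩
    have hb : N.bd r = 0 := hr.2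
    rw [L.d_smul, hx.2, hb, zero_smul, smul_zero, add_zero]
  refine ⟨r • z, AddSubgroup.subset_closure ⟨r • x, y, hrx, hy, ?_⟩, -w, neg_mem hw, ?_⟩
  · rw [← e]
    exact (m.smul_left r x y).symm
  · rw [map_neg, p, DG.toSpan_apply, neg_sub]

end Pool.Agent.P.MP_932208_ag.Ax
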