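import Pool.Agent.P.MP_932208_ag.Ex.DR

/-!
Strictification of twisted complexes.
-/

namespace Pool.Agent.P.MP_932208_ag.Ax

open Classical Matrix

variable {R : Type} [Ring R] {K : Type} [CommRing K] (Γ : DR R K) {U W : Type}
  [Fintype U] [Fintype W]

namespace DR

theorem dM_mul {X : Type} (δ : Matrix U U R) (a : Matrix X W R) (φ : Matrix W U R) :
    Γ.dM δ (a * φ) = a.map Γ.d * φ + a.map Γ.e * Γ.dM δ φ := by
  have h1 : (a * φ).map Γ.d = a.map Γ.d * φ + a.map Γ.e * φ.map Γ.d := by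
    ext x r
    simp only [Matrix.map_apply, Matrix.mul_apply, Matrix.add_apply, map_sum, Γ.d_mul,
      Finset.sum_add_distrib]
  unfold dM
  rw [h1, Matrix.map_mul, Matrix.mul_add, Matrix.mul_assoc, add_assoc]

theorem st_dM_add {X : Type} (δ : Matrix U U R) (a b : Matrix X U R) :
    Γ.dM δ (a + b) = Γ.dM δ a + Γ.dM δ b := by
  ext x r
  simp only [dM, Matrix.map_apply, Matrix.mul_apply, Matrix.add_apply, map_add, add_mul,
    Finset.sum_add_distrib]
  abel

theorem dM_dM {X : Type} {δ : Matrix U U R} (mc : Γ.dM δ δ = 0) (φ : Matrix X U R) :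
    Γ.dM δ (Γ.dM δ φ) = 0 := by
  have h : Γ.dM δ φ = φ.map Γ.d + φ.map Γ.e * δ := rfl
  rw [h, st_dM_add, dM_mul, mc, Matrix.mul_zero, add_zero]
  ext x r
  simp only [dM, Matrix.map_apply, Matrix.mul_apply, Matrix.add_apply, Γ.d_d, Γ.d_e, zero_add,
    Matrix.zero_apply, neg_mul, Finset.sum_neg_distrib, add_neg_cancel]

theorem dv_dv {δ : Matrix U U R} (mc : Γ.dM δ δ = 0) (x : U → R) : Γ.dv δ (Γ.dv δ x) = 0 :=
  congrFun (Γ.dM_dM (X := PUnit) mc (Matrix.of fun _ => x)) PUnit.unit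

theorem HM.mul {X : Type} {dX : X → ℤ} {dW : W → ℤ} {dU : U → ℤ} {k l : ℤ} {a : Matrix X W R}
    {b : Matrix W U R} (ha : Γ.HM dX dW k a) (hb : Γ.HM dW dU l b) :
    Γ.HM dX dU (k + l) (a * b) := by
  intro x r
  rw [Matrix.mul_apply]
  exact Γ.hg_sum _ fun w _ => Γ.hg_cast (Γ.hg_mul (ha x w) (hb w r)) (by ring)

theorem st_hv_dv {dU : U → ℤ} {k : ℤ} {δ : Matrix U U R} {x : U → R} (hδ : Γ.HM dU dU (-1) δ)
    (hx : Γ.Hv dU k x) : Γ.Hv dU (k - 1) (Γ.dv δ x) := by
  intro r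
  refine Γ.hg_add (Γ.hg_cast (Γ.hg_d (hx r)) (by ring)) ?_
  exact Γ.hg_sum _ fun s _ => Γ.hg_cast (Γ.hg_mul (Γ.hg_e (hx s)) (hδ s r)) (by ring)

theorem HM.dM {X : Type} {dX : X → ℤ} {dU : U → ℤ} {k : ℤ} {δ : Matrix U U R}
    {φ : Matrix X U R} (hδ : Γ.HM dU dU (-1) δ) (hφ : Γ.HM dX dU k φ) :
    Γ.HM dX dU (k - 1) (Γ.dM δ φ) := by
  intro x r
  exact Γ.hg_cast (Γ.st_hv_dv hδ (hφ x) r) (by ring)

theorem Hv.dv {dU : U → ℤ} {k : ℤ} {δ : Matrix U U R} {x : U → R} (hδ : Γ.HM dU dU (-1) δ)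
    (hx : Γ.Hv dU k x) : Γ.Hv dU (k - 1) (Γ.dv δ x) := Γ.st_hv_dv hδ hx

end DR

theorem st_pow_lower (κ : U → ℤ) {v : Matrix U U R} (hκ : ∀ s r, v s r ≠ 0 → κ r < κ s) (n : ℕ) :
    ∀ s r, (v ^ n) s r ≠ 0 → κ r + n ≤ κ s := by
  induction n with
  | zero =>
    intro s r h
    rw [pow_zero] at h
    by_cases e : s = r
    · simp [e]
    · exact absurd (Matrix.one_apply_ne e) h
  | succ n ih =>
    intro s r h
    rw [pow_succ, Matrix.mul_apply] at h
    obtain ⟨t, -, ht⟩ := Finset.exists_ne_zero_of_sum_ne_zero h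
    have h1 := ih s t (left_ne_zero_of_mul ht)
    have h2 := hκ t r (right_ne_zero_of_mul ht)
    push_cast
    omega

/-- A matrix `1 + ν` with `ν` strictly lowering a weight has an inverse in every subring that
contains it. -/
theorem exists_inv_of_lower (S : Subring (Matrix U U R)) (κ : U → ℤ) {M : Matrix U U R}
    (hM : M ∈ S) (hκ : ∀ s r, (M - 1) s r ≠ 0 → κ r < κ s) :
    ∃ M' ∈ S, M * M' = 1 ∧ M' * M = 1 := by
  have hκ' : ∀ s r, (1 - M) s r ≠ 0 → κ r < κ s := by
    intro s r h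
    refine hκ s r fun e => h ?_
    rw [← neg_sub M 1, Matrix.neg_apply, e, neg_zero]
  obtain ⟨n, hn⟩ : ∃ n : ℕ, ∀ s r, κ s < κ r + n := by
    refine ⟨(∑ s, ∑ r, (κ s - κ r).toNat) + 1, fun s r => ?_⟩
    have h1 : (κ s - κ r).toNat ≤ ∑ r, (κ s - κ r).toNat :=
      Finset.single_le_sum (f := fun r => (κ s - κ r).toNat) (fun _ _ => Nat.zero_le _)
        (Finset.mem_univ r)
    have h2 : ∑ r, (κ s - κ r).toNat ≤ ∑ s, ∑ r, (κ s - κ r).toNat :=
      Finset.single_le_sum (f := fun s => ∑ r, (κ s - κ r).toNat) (fun _ _ => Nat.zero_le _)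
        (Finset.mem_univ s)
    omega
  have hz : (1 - M) ^ n = 0 := by
    ext s r
    by_contra h
    have := st_pow_lower κ hκ' n s r h
    have := hn s r
    omega
  refine ⟨∑ i ∈ Finset.range n, (1 - M) ^ i,
    S.sum_mem fun i _ => S.pow_mem (S.sub_mem S.one_mem hM) i, ?_, ?_⟩
  · have := mul_neg_geom_sum (1 - M) n
    rwa [sub_sub_cancel, hz, sub_zero] at this
  · have := geom_sum_mul_neg (1 - M) n
    rwa [sub_sub_cancel, hz, sub_zero] at this

/-- The inverse of a block diagonal matrix is block diagonal. -/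
theorem st_inv_blocks {L : Type*} (l : U → L) {T T' : Matrix U U K}
    (hT : ∀ s r, l s ≠ l r → T s r = 0) (h : T * T' = 1) (h' : T' * T = 1) :
    ∀ s r, l s ≠ l r → T' s r = 0 := by
  set B : Matrix U U K := Matrix.of fun s r => if l s = l r then T' s r else 0 with hB
  have h1 : T * B = 1 := by
    ext s r
    rw [Matrix.mul_apply]
    by_cases e : l s = l r
    · rw [← h, Matrix.mul_apply]
      refine Finset.sum_congr rfl fun t _ => ?_
      by_cases e' : l s = l t
      · simp only [hB, Matrix.of_apply, if_pos (e'.symm.trans e)]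
      · rw [hT s t e', zero_mul, zero_mul]
    · have : s ≠ r := fun q => e (by rw [q])
      rw [Matrix.one_apply_ne this]
      refine Finset.sum_eq_zero fun t _ => ?_
      by_cases e' : l s = l t
      · have : ¬ l t = l r := fun q => e (e'.trans q)
        simp only [hB, Matrix.of_apply, if_neg this, mul_zero]
      · rw [hT s t e', zero_mul]
  have h2 : T' = B := by
    calc T' = T' * (T * B) := by rw [h1, Matrix.mul_one]
      _ = B := by rw [← Matrix.mul_assoc, h', Matrix.one_mul]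
  intro s r e
  rw [h2]
  simp only [hB, Matrix.of_apply, if_neg e]

namespace DR

/-- A matrix congruent to the identity modulo `J` is invertible. -/
theorem st_inv_of_J (sat : Γ.Sat) {T : Matrix U U K} (hT : ∀ s r, (T - 1) s r ∈ Γ.J) :
    ∃ T' : Matrix U U K, T * T' = 1 ∧ T' * T = 1 := by
  have h1 : T.map (Ideal.Quotient.mk Γ.J) = 1 := by
    ext s r
    have := Ideal.Quotient.eq_zero_iff_mem.2 (hT s r)
    rw [Matrix.sub_apply, map_sub, sub_eq_zero] at this
    rw [Matrix.map_apply, this]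
    by_cases e : s = r
    · subst e; simp
    · simp [Matrix.one_apply_ne e]
  have h2 : Ideal.Quotient.mk Γ.J (T.det - 1) = 0 := by
    rw [map_sub, RingHom.map_det, RingHom.mapMatrix_apply, h1, Matrix.det_one, map_one, sub_self]
  have h3 : IsUnit T.det := by
    have := sat _ (Ideal.Quotient.eq_zero_iff_mem.1 h2)
    rwa [add_sub_cancel] at this
  exact ⟨T⁻¹, Matrix.mul_nonsing_inv T h3, Matrix.nonsing_inv_mul T h3⟩

theorem st_ev_d_mem {k : ℤ} {x : R} (h : Γ.Hg k x) : Γ.ev (Γ.d x) ∈ Γ.J := by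
  by_cases e : k = 1
  · exact ⟨x, e ▸ h, rfl⟩
  · rw [Γ.ev_pos (k := k - 1) (by omega) (Γ.hg_d h)]
    exact Γ.J.zero_mem

theorem st_sd_deg {dg : U → ℤ} {δ φ : Matrix U U R} (hδ : Γ.HM dg dg (-1) δ)
    (hφ : Γ.HM dg dg 0 φ) (s r : U) (e : dg r + 1 ≠ dg s) : Γ.sd δ φ s r = 0 :=
  Γ.ev_pos (k := dg s + (0 - 1) - dg r) (by omega) (HM.dM Γ hδ hφ s r)

theorem st_map_ev_e {X : Type} (φ : Matrix X U R) :
    (φ.map Γ.e).map Γ.ev = φ.map Γ.ev := by
  ext s r
  simp only [Matrix.map_apply, Γ.ev_e]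

theorem st_map_ev_inc {X : Type} (d : Matrix X U K) : (d.map Γ.inc).map Γ.ev = d := by
  ext s r
  simp only [Matrix.map_apply, Γ.ev_inc]

theorem st_sd_mem {dg : U → ℤ} {δ φ : Matrix U U R} (hφ : Γ.HM dg dg 0 φ)
    (ev1 : φ.map Γ.ev = 1) (s r : U) : (Γ.sd δ φ - δ.map Γ.ev) s r ∈ Γ.J := by
  have h : Γ.sd δ φ = (φ.map Γ.d).map Γ.ev + δ.map Γ.ev := by
    unfold sd dM
    rw [Matrix.map_add _ (map_add Γ.ev), Matrix.map_mul, st_map_ev_e, ev1, Matrix.one_mul]
  rw [h, add_sub_cancel_right]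
  exact Γ.st_ev_d_mem (hφ s r)

theorem st_mul_mem {J : Ideal K} {a : Matrix U U K} (ha : ∀ s r, a s r ∈ J) (b : Matrix U U K)
    (s r : U) : (a * b + b * a) s r ∈ J := by
  rw [Matrix.add_apply, Matrix.mul_apply, Matrix.mul_apply]
  exact J.add_mem (J.sum_mem fun t _ => J.mul_mem_right _ (ha s t))
    (J.sum_mem fun t _ => J.mul_mem_left _ (ha t r))

theorem st_dM_inc {X : Type} (δ : Matrix U U R) (a : Matrix X W K) (φ : Matrix W U R) :
    Γ.dM δ (a.map Γ.inc * φ) = a.map Γ.inc * Γ.dM δ φ := by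
  have h1 : (a.map Γ.inc).map Γ.d = 0 := by
    ext s r
    simp only [Matrix.map_apply, Γ.d_inc, Matrix.zero_apply]
  have h2 : (a.map Γ.inc).map Γ.e = a.map Γ.inc := by
    ext s r
    simp only [Matrix.map_apply, Γ.e_inc]
  rw [dM_mul, h1, h2, Matrix.zero_mul, zero_add]

/-- If `φ` is a strictification then the strict differential is an exact complex. -/
theorem cx_of_strict (sat : Γ.Sat) {dg : U → ℤ} {δ φ : Matrix U U R} {d : Matrix U U K}
    (hδ : Γ.HM dg dg (-1) δ) (mc : Γ.dM δ δ = 0) (hφ : Γ.HM dg dg 0 φ) (ev1 : φ.map Γ.ev = 1)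
    (st : Γ.dM δ φ = d.map Γ.inc * φ) (ex : Ex0 Γ.J dg (δ.map Γ.ev) fun _ => True) :
    Cx dg d := by
  have hd : d = Γ.sd δ φ := by
    unfold sd
    rw [st, Matrix.map_mul, st_map_ev_inc, ev1, Matrix.mul_one]
  have hdeg : ∀ s r, dg r + 1 ≠ dg s → d s r = 0 := fun s r e => hd ▸ Γ.st_sd_deg hδ hφ s r e
  have hdd : d * d = 0 := by
    have h := Γ.dM_dM mc φ
    rw [st, st_dM_inc, st] at h
    have h' := congrArg (fun M => Matrix.map M Γ.ev) h
    simp only [Matrix.map_mul, st_map_ev_inc, ev1, Matrix.mul_one] at h'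
    rw [h']
    ext s r
    simp
  obtain ⟨h, hh, hJ⟩ := ex
  have hh' : ∀ s r, dg r ≠ dg s + 1 → h s r = 0 := fun s r e => by
    by_contra q
    exact e (hh s r q).2.2
  have hT : ∀ s r, (d * h + h * d - 1) s r ∈ Γ.J := by
    intro s r
    have e : d * h + h * d - 1 = (δ.map Γ.ev * h + h * δ.map Γ.ev - 1) +
        ((d - δ.map Γ.ev) * h + h * (d - δ.map Γ.ev)) := by
      rw [Matrix.sub_mul, Matrix.mul_sub]; abel
    rw [e, Matrix.add_apply]
    exact Γ.J.add_mem (hJ s r trivial trivial)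
      (st_mul_mem (fun s r => hd ▸ Γ.st_sd_mem hφ ev1 s r) h s r)
  obtain ⟨T', h1, h2⟩ := Γ.st_inv_of_J sat hT
  have hT0 : ∀ s r, dg s ≠ dg r → (d * h + h * d) s r = 0 := by
    intro s r e
    rw [Matrix.add_apply, Matrix.mul_apply, Matrix.mul_apply, ← Finset.sum_add_distrib]
    refine Finset.sum_eq_zero fun t _ => ?_
    have a1 : d s t * h t r = 0 := by
      by_cases q : dg t + 1 = dg s
      · rw [hh' t r (by omega), mul_zero]
      · rw [hdeg s t q, zero_mul]
    have a2 : h s t * d t r = 0 := by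
      by_cases q : dg t = dg s + 1
      · rw [hdeg t r (by omega), mul_zero]
      · rw [hh' s t q, zero_mul]
    rw [a1, a2, add_zero]
  have hT'0 := st_inv_blocks dg hT0 h1 h2
  have hc : T' * d = d * T' := by
    have c : (d * h + h * d) * d = d * (d * h + h * d) := by
      rw [Matrix.add_mul, Matrix.mul_add, Matrix.mul_assoc h d d, hdd, ← Matrix.mul_assoc d d h,
        hdd, Matrix.mul_zero, Matrix.zero_mul, add_zero, zero_add, Matrix.mul_assoc]
    calc T' * d = T' * d * ((d * h + h * d) * T') := by rw [h1, Matrix.mul_one]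
      _ = T' * (d * (d * h + h * d)) * T' := by simp only [Matrix.mul_assoc]
      _ = d * T' := by rw [← c, ← Matrix.mul_assoc T', h2, Matrix.one_mul]
  refine ⟨hdeg, hdd, h * T', fun s r e => ?_, ?_⟩
  · rw [Matrix.mul_apply]
    refine Finset.sum_eq_zero fun t _ => ?_
    by_cases q : dg t = dg s + 1
    · rw [hT'0 t r (by omega), mul_zero]
    · rw [hh' s t q, zero_mul]
  · rw [Matrix.mul_assoc h, hc, ← Matrix.mul_assoc, ← Matrix.mul_assoc, ← Matrix.add_mul, h1]

theorem st_dv_vecMul (δ : Matrix U U R) (a : W → R) (φ : Matrix W U R) :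
    Γ.dv δ (a ᵥ* φ) = (fun s => Γ.d (a s)) ᵥ* φ + (fun s => Γ.e (a s)) ᵥ* Γ.dM δ φ :=
  congrFun (Γ.dM_mul (X := PUnit) δ (Matrix.of fun _ => a) φ) PUnit.unit

theorem st_dv_sub (δ : Matrix U U R) (a b : U → R) :
    Γ.dv δ (a - b) = Γ.dv δ a - Γ.dv δ b := by
  funext r
  simp only [dv, Pi.sub_apply, map_sub, sub_mul, Finset.sum_sub_distrib]
  abel

theorem st_hv_vecMul {dW : W → ℤ} {dU : U → ℤ} {k l : ℤ} {a : W → R} {φ : Matrix W U R}
    (ha : Γ.Hv dW k a) (hφ : Γ.HM dW dU l φ) : Γ.Hv dU (k + l) (a ᵥ* φ) := by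
  intro r
  exact Γ.hg_sum _ fun w _ => Γ.hg_cast (Γ.hg_mul (ha w) (hφ w r)) (by ring)

theorem st_vecMul_apply (a : W → R) (φ : Matrix W U R) (r : U) :
    (a ᵥ* φ) r = ∑ w, a w * φ w r := rfl

/-- The row `w` of `φ` is strict as soon as its differential has coefficients in `K`. -/
theorem st_res_row {δ φ : Matrix U U R} (ev1 : φ.map Γ.ev = 1) {w : U} {c : U → K}
    (h : Γ.dv δ (φ w) = (fun r => Γ.inc (c r)) ᵥ* φ) : Γ.res δ φ w = 0 := by
  have h1 : Γ.sd δ φ w = c := by
    funext r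
    have : Γ.sd δ φ w r = Γ.ev (Γ.dv δ (φ w) r) := rfl
    rw [this, h, st_vecMul_apply, map_sum]
    have e : ∀ t, Γ.ev (Γ.inc (c t) * φ t r) = c t * (1 : Matrix U U K) t r := fun t => by
      rw [map_mul, Γ.ev_inc, ← ev1, Matrix.map_apply]
    simp only [e]
    exact congrFun (Matrix.vecMul_one c) r
  funext r
  have : Γ.res δ φ w r = Γ.dv δ (φ w) r - ∑ t, Γ.inc (Γ.sd δ φ w t) * φ t r := rfl
  rw [this, h, h1, st_vecMul_apply, sub_self, Pi.zero_apply]

theorem st_row_of_res {δ φ : Matrix U U R} {w : U} (h : Γ.res δ φ w = 0) :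
    Γ.dM δ φ w = (fun r => Γ.inc (Γ.sd δ φ w r)) ᵥ* φ := by
  funext r
  have : Γ.res δ φ w r = Γ.dM δ φ w r - ∑ t, Γ.inc (Γ.sd δ φ w t) * φ t r := rfl
  rw [h, Pi.zero_apply] at this
  rw [st_vecMul_apply]
  exact sub_eq_zero.1 this.symm

theorem st_vecMul_strict {dg : U → ℤ} {δ φ : Matrix U U R} {q : ℤ}
    (strict : ∀ r, dg r < q → Γ.res δ φ r = 0) {a : U → R} (ha : ∀ r, ¬ dg r < q → a r = 0) :
    a ᵥ* Γ.dM δ φ = (a ᵥ* (Γ.sd δ φ).map Γ.inc) ᵥ* φ := by
  rw [Matrix.vecMul_vecMul]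
  funext r
  rw [st_vecMul_apply, st_vecMul_apply]
  refine Finset.sum_congr rfl fun t _ => ?_
  by_cases e : dg t < q
  · rw [Γ.st_row_of_res (strict t e)]
    rfl
  · rw [ha t e, zero_mul, zero_mul]

theorem st_sd_sq {dg : U → ℤ} {δ φ : Matrix U U R} {q : ℤ} (hδ : Γ.HM dg dg (-1) δ)
    (mc : Γ.dM δ δ = 0) (hφ : Γ.HM dg dg 0 φ) (ev1 : φ.map Γ.ev = 1)
    (strict : ∀ r, dg r < q → Γ.res δ φ r = 0) (s : U) (hs : dg s < q) (r : U) :
    (Γ.sd δ φ * Γ.sd δ φ) s r = 0 := by
  have h := congrFun (Γ.dM_dM mc φ) s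
  rw [dM_apply, Γ.st_row_of_res (strict s hs), st_dv_vecMul] at h
  simp only [Γ.d_inc, Γ.e_inc] at h
  rw [Γ.st_vecMul_strict strict (fun t e => by
    rw [Γ.st_sd_deg hδ hφ s t (by omega), map_zero]), ← Matrix.add_vecMul] at h
  have h' := congrArg Γ.ev (congrFun h r)
  rw [st_vecMul_apply, map_sum] at h'
  have e : ∀ t, Γ.ev ((((fun _ => (0 : R)) +
      (fun t => Γ.inc (Γ.sd δ φ s t)) ᵥ* (Γ.sd δ φ).map Γ.inc : U → R) t) * φ t r) =
      (Γ.sd δ φ * Γ.sd δ φ) s t * (1 : Matrix U U K) t r := fun t => by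
    rw [map_mul, ← ev1, Matrix.map_apply, Pi.add_apply, zero_add, st_vecMul_apply, map_sum,
      Matrix.mul_apply]
    simp only [map_mul, Γ.ev_inc, Matrix.map_apply]
  simp only [e] at h'
  rw [← Matrix.mul_apply, Matrix.mul_one] at h'
  simpa using h'

/-- Solving `b d = c` for a cycle `c` of the strict part of the complex. -/
theorem st_solve (sat : Γ.Sat) {dg : U → ℤ} {δ₀ d : Matrix U U K} (π : U → Prop) (q : ℤ)
    (hdeg : ∀ s r, dg r + 1 ≠ dg s → d s r = 0) (hπ : ∀ s r, π s → ¬ π r → d s r = 0)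
    (hJ : ∀ s r, (d - δ₀) s r ∈ Γ.J) (hdd : ∀ s, dg s < q → ∀ r, (d * d) s r = 0)
    (ex : Ex0 Γ.J dg δ₀ π) :
    ∃ g : Matrix U U K, (∀ s r, g s r ≠ 0 → π r ∧ dg r = dg s + 1) ∧
      ∀ c : U → R, (∀ r, ¬ (π r ∧ dg r + 1 < q) → c r = 0) → c ᵥ* d.map Γ.inc = 0 →
        (c ᵥ* g.map Γ.inc) ᵥ* d.map Γ.inc = c := by
  obtain ⟨h, hh, hJ'⟩ := ex
  have hh' : ∀ s r, ¬ (π s ∧ π r ∧ dg r = dg s + 1) → h s r = 0 := fun s r e => by
    by_contra p
    exact e (hh s r p)
  set A : U → Prop := fun r => π r ∧ dg r + 1 < q with hA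
  set T : Matrix U U K :=
    Matrix.of fun s r => if A s then (d * h + h * d) s r else (1 : Matrix U U K) s r with hT
  have T0 : ∀ s r, π s → ¬ (π r ∧ dg s = dg r) → (d * h + h * d) s r = 0 := by
    intro s r ps e
    rw [Matrix.add_apply, Matrix.mul_apply, Matrix.mul_apply, ← Finset.sum_add_distrib]
    refine Finset.sum_eq_zero fun t _ => ?_
    have a1 : d s t * h t r = 0 := by
      by_cases p : dg t + 1 = dg s
      · rw [hh' t r (fun p' => e ⟨p'.2.1, by omega⟩), mul_zero]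
      · rw [hdeg s t p, zero_mul]
    have a2 : h s t * d t r = 0 := by
      by_cases p : π s ∧ π t ∧ dg t = dg s + 1
      · by_cases p' : π r
        · rw [hdeg t r (fun p'' => e ⟨p', by omega⟩), mul_zero]
        · rw [hπ t r p.2.1 p', mul_zero]
      · rw [hh' s t p, zero_mul]
    rw [a1, a2, add_zero]
  have hTJ : ∀ s r, (T - 1) s r ∈ Γ.J := by
    intro s r
    by_cases as : A s
    · have e0 : (T - 1) s r = (d * h + h * d - 1) s r := by
        simp only [hT, Matrix.sub_apply, Matrix.of_apply, if_pos as]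
      rw [e0]
      by_cases pr : π r
      · have e : d * h + h * d - 1 = (δ₀ * h + h * δ₀ - 1) + ((d - δ₀) * h + h * (d - δ₀)) := by
          rw [Matrix.sub_mul, Matrix.mul_sub]; abel
        rw [e, Matrix.add_apply]
        exact Γ.J.add_mem (hJ' s r as.1 pr) (st_mul_mem hJ h s r)
      · have : s ≠ r := fun p => pr (p ▸ as.1)
        rw [Matrix.sub_apply, T0 s r as.1 (fun p => pr p.1), Matrix.one_apply_ne this, sub_zero]
        exact Γ.J.zero_mem
    · have e0 : (T - 1) s r = 0 := by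
        simp only [hT, Matrix.sub_apply, Matrix.of_apply, if_neg as, sub_self]
      rw [e0]
      exact Γ.J.zero_mem
  obtain ⟨T', h1, h2⟩ := Γ.st_inv_of_J sat hTJ
  have hTb : ∀ s r, (dg s, A s) ≠ (dg r, A r) → T s r = 0 := by
    intro s r e
    by_cases as : A s
    · simp only [hT, Matrix.of_apply, if_pos as]
      refine T0 s r as.1 fun p => e ?_
      have ar : A r := ⟨p.1, p.2 ▸ as.2⟩
      rw [p.2, eq_true as, eq_true ar]
    · simp only [hT, Matrix.of_apply, if_neg as]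
      exact Matrix.one_apply_ne fun p => e (by rw [p])
  have hT'b := st_inv_blocks (fun r => (dg r, A r)) hTb h1 h2
  have hcomm : ∀ s, A s → (T * d) s = (d * T) s := by
    intro s as
    funext r
    have e1 : (T * d) s r = ((d * h + h * d) * d) s r := by
      rw [Matrix.mul_apply, Matrix.mul_apply]
      refine Finset.sum_congr rfl fun t _ => ?_
      simp only [hT, Matrix.of_apply, if_pos as]
    have e2 : (d * T) s r = (d * (d * h + h * d)) s r := by
      rw [Matrix.mul_apply, Matrix.mul_apply]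
      refine Finset.sum_congr rfl fun t _ => ?_
      by_cases at' : A t
      · simp only [hT, Matrix.of_apply, if_pos at']
      · have : d s t = 0 := by
          by_cases p : π t
          · exact hdeg s t fun p' => at' ⟨p, by have := as.2; omega⟩
          · exact hπ s t as.1 p
        rw [this, zero_mul, zero_mul]
    have e3 : (h * (d * d)) s r = 0 := by
      rw [Matrix.mul_apply]
      refine Finset.sum_eq_zero fun t _ => ?_
      by_cases p : π s ∧ π t ∧ dg t = dg s + 1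
      · rw [hdd t (by have := as.2; omega) r, mul_zero]
      · rw [hh' s t p, zero_mul]
    have e4 : (d * d * h) s r = 0 := by
      rw [Matrix.mul_apply]
      refine Finset.sum_eq_zero fun t _ => ?_
      rw [hdd s (by have := as.2; omega) t, zero_mul]
    rw [e1, e2, Matrix.add_mul, Matrix.mul_add, Matrix.mul_assoc h d d, ← Matrix.mul_assoc d d h,
      Matrix.add_apply, Matrix.add_apply, e3, e4, add_zero, zero_add, Matrix.mul_assoc]
  refine ⟨T' * h, fun s r p => ?_, fun c hc hcd => ?_⟩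
  · rw [Matrix.mul_apply] at p
    obtain ⟨t, -, ht⟩ := Finset.exists_ne_zero_of_sum_ne_zero p
    have a1 : (dg s, A s) = (dg t, A t) := by
      by_contra p'
      exact left_ne_zero_of_mul ht (hT'b s t p')
    have a2 := hh t r (right_ne_zero_of_mul ht)
    have a3 : dg s = dg t := (Prod.ext_iff.1 a1).1
    exact ⟨a2.2.1, by rw [a2.2.2, a3]⟩
  · set c' : U → R := c ᵥ* T'.map Γ.inc with hc'
    have s1 : ∀ r, ¬ A r → c' r = 0 := by
      intro r ar
      rw [hc', st_vecMul_apply]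
      refine Finset.sum_eq_zero fun t _ => ?_
      by_cases at' : A t
      · have p : (dg t, A t) ≠ (dg r, A r) := fun p => by
          have p' : A t = A r := (Prod.ext_iff.1 p).2
          exact ar (p' ▸ at')
        rw [Matrix.map_apply, hT'b t r p, map_zero, mul_zero]
      · rw [hc t at', zero_mul]
    have s2 : ∀ M M' : Matrix U U K, (∀ s, A s → M s = M' s) →
        c' ᵥ* M.map Γ.inc = c' ᵥ* M'.map Γ.inc := by
      intro M M' e
      funext r
      rw [st_vecMul_apply, st_vecMul_apply]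
      refine Finset.sum_congr rfl fun t _ => ?_
      by_cases at' : A t
      · rw [Matrix.map_apply, Matrix.map_apply, e t at']
      · rw [s1 t at', zero_mul, zero_mul]
    have s3 : c' ᵥ* T.map Γ.inc = c := by
      rw [hc', Matrix.vecMul_vecMul, ← Matrix.map_mul, h2, Matrix.map_one _ (map_zero _) (map_one _),
        Matrix.vecMul_one]
    have s4 : c' ᵥ* d.map Γ.inc = 0 := by
      have e1 : c' ᵥ* (d * T).map Γ.inc = 0 := by
        rw [← s2 _ _ hcomm, Matrix.map_mul, ← Matrix.vecMul_vecMul, s3, hcd]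
      have e2 : d = d * T * T' := by rw [Matrix.mul_assoc, h1, Matrix.mul_one]
      rw [e2, Matrix.map_mul, ← Matrix.vecMul_vecMul, e1, Matrix.zero_vecMul]
    have s5 : c' ᵥ* T.map Γ.inc = c' ᵥ* (d * h + h * d).map Γ.inc :=
      s2 _ _ fun s as => by
        funext r
        simp only [hT, Matrix.of_apply, if_pos as]
    rw [s3, Matrix.map_add _ (map_add Γ.inc), Matrix.vecMul_add, Matrix.map_mul, Matrix.map_mul,
      ← Matrix.vecMul_vecMul, s4, Matrix.zero_vecMul, zero_add, ← Matrix.vecMul_vecMul] at s5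
    rw [Matrix.map_mul, ← Matrix.vecMul_vecMul, ← hc', ← s5]

theorem st_vecMul_mem {I : TwoSidedIdeal R} {a : W → R} (ha : ∀ w, a w ∈ I) (φ : Matrix W U R)
    (r : U) : (a ᵥ* φ) r ∈ I := by
  rw [st_vecMul_apply]
  exact sum_mem fun w _ => I.mul_mem_right _ _ (ha w)

theorem st_e_ne {x : R} (h : Γ.e x = 0) : x = 0 := by rw [← Γ.e_e x, h, map_zero]

/-- One row of a strictification.  The rows of degree `< q` of `φ` are strict, `x` has degree `q`
and `D x = c φ`; then `x` can be corrected so that the coefficients have degree zero. -/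
theorem st_row (sat : Γ.Sat) {I : TwoSidedIdeal R} (hI : Γ.DI I) {dg : U → ℤ}
    {δ φ : Matrix U U R} (π : U → Prop) (q : ℤ) (hδ : Γ.HM dg dg (-1) δ) (mc : Γ.dM δ δ = 0)
    (hφ : Γ.HM dg dg 0 φ) (ev1 : φ.map Γ.ev = 1) {φ' : Matrix U U R} (inv : φ * φ' = 1)
    (hπ : ∀ s r, π s → ¬ π r → Γ.sd δ φ s r = 0)
    (strict : ∀ r, dg r < q → Γ.res δ φ r = 0) (ex : Ex0 Γ.J dg (δ.map Γ.ev) π)
    {x c : U → R} (hc : Γ.Hv dg (q - 1) c) (hx : Γ.dv δ x = c ᵥ* φ)
    (cI : ∀ r, dg r + 1 < q → c r ∈ I) (cπ : ∀ r, dg r + 1 < q → ¬ π r → c r = 0) :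
    ∃ (b : U → R) (a : U → K), Γ.Hv dg q b ∧ (∀ r, b r ∈ I) ∧
      (∀ r, ¬ (π r ∧ dg r < q) → b r = 0) ∧ (∀ r, dg r + 1 ≠ q → a r = 0) ∧
      Γ.dv δ (x - b ᵥ* φ) = (fun r => Γ.inc (a r)) ᵥ* φ := by
  obtain ⟨g, hg, sol⟩ := Γ.st_solve sat π q (Γ.st_sd_deg hδ hφ) hπ (Γ.st_sd_mem hφ ev1)
    (Γ.st_sd_sq hδ mc hφ ev1 strict) ex
  have key : ∀ k : ℕ, ∀ x c : U → R, Γ.Hv dg (q - 1) c → Γ.dv δ x = c ᵥ* φ →
      (∀ r, dg r + 1 < q → c r ∈ I) → (∀ r, dg r + 1 < q → ¬ π r → c r = 0) →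
      (∀ r, dg r + 1 + k < q → c r = 0) →
      ∃ (b : U → R) (a : U → K), Γ.Hv dg q b ∧ (∀ r, b r ∈ I) ∧
        (∀ r, ¬ (π r ∧ dg r < q) → b r = 0) ∧ (∀ r, dg r + 1 ≠ q → a r = 0) ∧
        Γ.dv δ (x - b ᵥ* φ) = (fun r => Γ.inc (a r)) ᵥ* φ := by
    intro k
    induction k with
    | zero =>
      intro x c hc hx _ _ ck
      refine ⟨0, fun r => Γ.ev (c r), fun r => Γ.hg_zero _, fun r => I.zero_mem, fun r _ => rfl,
        fun r e => Γ.ev_pos (k := q - 1 - dg r) (by omega) (hc r), ?_⟩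
      rw [Matrix.zero_vecMul, sub_zero, hx]
      congr 1
      funext r
      show c r = Γ.inc (Γ.ev (c r))
      rcases lt_trichotomy (dg r + 1) q with e | e | e
      · rw [ck r (by simpa using e), map_zero, map_zero]
      · exact (Γ.inc_ev (Γ.hg_cast (hc r) (by omega))).symm
      · rw [Γ.eq_zero (by omega) (hc r), map_zero, map_zero]
    | succ k ih =>
      intro x c hc hx cI cπ ck
      have c0 : ∀ r, ¬ dg r < q → c r = 0 := fun r e => Γ.eq_zero (by omega) (hc r)
      have cyc : (fun s => Γ.d (c s)) + (fun s => Γ.e (c s)) ᵥ* (Γ.sd δ φ).map Γ.inc = 0 := by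
        have h := Γ.dv_dv mc x
        rw [hx, st_dv_vecMul, Γ.st_vecMul_strict strict (fun t e => by rw [c0 t e, map_zero]),
          ← Matrix.add_vecMul] at h
        have h' := congrArg (fun v => v ᵥ* φ') h
        simpa only [Matrix.vecMul_vecMul, inv, Matrix.vecMul_one, Matrix.zero_vecMul] using h'
      set c₁ : U → R := fun r => if dg r + 1 + (k + 1) = q then c r else 0 with hc₁
      have c₁d : c₁ ᵥ* (Γ.sd δ φ).map Γ.inc = 0 := by
        funext r
        rw [st_vecMul_apply, Pi.zero_apply]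
        by_cases e : dg r + 1 + (k + 2) = q
        · have h := congrFun cyc r
          rw [Pi.add_apply, ck r (by push_cast; omega), map_zero, zero_add, st_vecMul_apply,
            Pi.zero_apply] at h
          apply Γ.st_e_ne
          rw [map_sum, ← h]
          refine Finset.sum_congr rfl fun t _ => ?_
          rw [map_mul, Matrix.map_apply, Γ.e_inc]
          by_cases e' : dg r + 1 = dg t
          · simp only [hc₁, if_pos (show dg t + 1 + (k + 1) = q by omega)]
          · rw [Γ.st_sd_deg hδ hφ t r e', map_zero, mul_zero, mul_zero]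
        · refine Finset.sum_eq_zero fun t _ => ?_
          by_cases e' : dg r + 1 = dg t
          · simp only [hc₁, if_neg (show ¬ dg t + 1 + (k + 1) = q by omega), zero_mul]
          · rw [Matrix.map_apply, Γ.st_sd_deg hδ hφ t r e', map_zero, mul_zero]
      have c₁π : ∀ r, ¬ (π r ∧ dg r + 1 < q) → c₁ r = 0 := by
        intro r e
        by_cases e' : dg r + 1 + (k + 1) = q
        · simp only [hc₁, if_pos e']
          exact cπ r (by omega) fun p => e ⟨p, by omega⟩
        · simp only [hc₁, if_neg e']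
      have c₁I : ∀ r, c₁ r ∈ I := by
        intro r
        by_cases e' : dg r + 1 + (k + 1) = q
        · simp only [hc₁, if_pos e']
          exact cI r (by omega)
        · simp only [hc₁, if_neg e']
          exact I.zero_mem
      have c₁h : Γ.Hv dg (q - 1) c₁ := by
        intro r
        by_cases e' : dg r + 1 + (k + 1) = q
        · simp only [hc₁, if_pos e']
          exact hc r
        · simp only [hc₁, if_neg e']
          exact Γ.hg_zero _
      set b₁ : U → R := c₁ ᵥ* g.map Γ.inc with hb₁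
      have b₁d : b₁ ᵥ* (Γ.sd δ φ).map Γ.inc = c₁ := sol c₁ c₁π c₁d
      have b₁s : ∀ r, ¬ (π r ∧ dg r + (k + 1) = q) → b₁ r = 0 := by
        intro r e
        rw [hb₁, st_vecMul_apply]
        refine Finset.sum_eq_zero fun t _ => ?_
        by_cases e' : g t r = 0
        · rw [Matrix.map_apply, e', map_zero, mul_zero]
        · have p := hg t r e'
          have : ¬ dg t + 1 + (k + 1) = q := fun p' => e ⟨p.1, by omega⟩
          simp only [hc₁, if_neg this, zero_mul]
      have b₁h : Γ.Hv dg q b₁ := by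
        have hg' : Γ.HM dg dg 1 (g.map Γ.inc) := by
          intro s r
          by_cases e' : g s r = 0
          · rw [Matrix.map_apply, e', map_zero]
            exact Γ.hg_zero _
          · exact Γ.hg_cast (Γ.hg_inc _) (by have := (hg s r e').2; omega)
        have := Γ.st_hv_vecMul c₁h hg'
        rwa [sub_add_cancel] at this
      have b₁I : ∀ r, b₁ r ∈ I := st_vecMul_mem c₁I _
      set b₂ : U → R := fun r => Γ.e (b₁ r) with hb₂
      have hx' : Γ.dv δ (x - b₂ ᵥ* φ) = (c - c₁ - fun r => Γ.d (b₂ r)) ᵥ* φ := by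
        rw [st_dv_sub, hx, st_dv_vecMul]
        simp only [hb₂, Γ.e_e]
        rw [Γ.st_vecMul_strict strict (a := b₁) (fun t e => b₁s t fun p => e (by omega)), b₁d,
          Matrix.sub_vecMul, Matrix.sub_vecMul]
        abel
      obtain ⟨b, a, h1, h2, h3, h4, h5⟩ := ih (x - b₂ ᵥ* φ) _
        (fun r => Γ.hg_sub (Γ.hg_sub (hc r) (c₁h r))
          (Γ.hg_cast (Γ.hg_d (Γ.hg_e (b₁h r))) (by ring))) hx'
        (fun r e => I.sub_mem (I.sub_mem (cI r e) (c₁I r)) (hI.1 _ (hI.2 _ (b₁I r))))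
        (fun r e p => by
          simp only [cπ r e p, c₁π r (fun p' => p p'.1),
            b₁s r (fun p' => p p'.1), map_zero, sub_zero])
        (fun r e => by
          have e1 : b₁ r = 0 := b₁s r fun p => by omega
          simp only [e1, map_zero, sub_zero]
          by_cases e' : dg r + 1 + (k + 1) = q
          · simp only [hc₁, if_pos e', sub_self]
          · simp only [hc₁, if_neg e', sub_zero]
            exact ck r (by push_cast; omega))
      refine ⟨b₂ + b, a, fun r => Γ.hg_add (Γ.hg_e (b₁h r)) (h1 r),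
        fun r => I.add_mem (hI.2 _ (b₁I r)) (h2 r), fun r e => ?_, h4, ?_⟩
      · have e1 : b₁ r = 0 := b₁s r fun p => e ⟨p.1, by omega⟩
        simp only [Pi.add_apply, hb₂, e1, map_zero, h3 r e, add_zero]
      · rw [Matrix.add_vecMul, ← sub_sub, h5]
  refine key (∑ r, (q - dg r).toNat) x c hc hx cI cπ fun r e => ?_
  have h1 : (q - dg r).toNat ≤ ∑ r, (q - dg r).toNat :=
    Finset.single_le_sum (f := fun r => (q - dg r).toNat) (fun _ _ => Nat.zero_le _)
      (Finset.mem_univ r)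
  omega

end DR

/-- The matrices that preserve the vectors supported on `π`. -/
def stSub (R : Type) [Ring R] (π : U → Prop) : Subring (Matrix U U R) where
  carrier := {M | ∀ r r', π r → ¬ π r' → M r r' = 0}
  mul_mem' := by
    intro a b ha hb r r' p p'
    rw [Matrix.mul_apply]
    refine Finset.sum_eq_zero fun t _ => ?_
    by_cases e : π t
    · rw [hb t r' e p', mul_zero]
    · rw [ha r t p e, zero_mul]
  one_mem' := fun r r' p p' => Matrix.one_apply_ne fun e => p' (e ▸ p)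
  add_mem' := by
    intro a b ha hb r r' p p'
    rw [Matrix.add_apply, ha r r' p p', hb r r' p p', add_zero]
  zero_mem' := fun _ _ _ _ => rfl
  neg_mem' := by
    intro a ha r r' p p'
    rw [Matrix.neg_apply, ha r r' p p', neg_zero]

theorem st_vecMul_supp {π : U → Prop} {a : U → R} {M : Matrix U U R} (hM : M ∈ stSub R π)
    (ha : ∀ r, ¬ π r → a r = 0) (r : U) (p : ¬ π r) : (a ᵥ* M) r = 0 := by
  rw [DR.st_vecMul_apply]
  refine Finset.sum_eq_zero fun t _ => ?_
  by_cases e : π t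
  · rw [hM t r e p, mul_zero]
  · rw [ha t e, zero_mul]

namespace DR

theorem st_lower {dg : U → ℤ} {φ : Matrix U U R} (hφ : Γ.HM dg dg 0 φ) (ev1 : φ.map Γ.ev = 1)
    (s r : U) (h : (φ - 1) s r ≠ 0) : dg r < dg s := by
  by_contra e
  apply h
  rw [Matrix.sub_apply, sub_eq_zero]
  by_cases e' : dg r = dg s
  · have h1 : Γ.ev (φ s r) = (1 : Matrix U U K) s r := by rw [← ev1, Matrix.map_apply]
    rw [← Γ.inc_ev (Γ.hg_cast (hφ s r) (by omega)), h1]
    by_cases p : s = r
    · subst p; simp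
    · simp [Matrix.one_apply_ne p]
  · have p : s ≠ r := fun p => e' (by rw [p])
    rw [Γ.eq_zero (by omega) (hφ s r), Matrix.one_apply_ne p]

theorem st_sd_sub {π : U → Prop} {δ φ : Matrix U U R} (hδ : δ ∈ stSub R π) (hφ : φ ∈ stSub R π)
    (s r : U) (p : π s) (p' : ¬ π r) : Γ.sd δ φ s r = 0 := by
  have h : Γ.sd δ φ s r = Γ.ev (Γ.d (φ s r) + ((fun t => Γ.e (φ s t)) ᵥ* δ) r) := rfl
  rw [h, hφ s r p p', map_zero, zero_add,
    st_vecMul_supp hδ (fun t e => by rw [hφ s t p e, map_zero]) r p', map_zero]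

/-- Relative strictification.  `φ₀` is a strictification modulo the ideal `I`, and a true one
outside the pattern `N`; it can be corrected inside `I` and inside the pattern. -/
theorem strictify (sat : Γ.Sat) {I : TwoSidedIdeal R} (hI : Γ.DI I) {dg : U → ℤ}
    {δ φ₀ : Matrix U U R} {d₀ : Matrix U U K} (N : U → U → Prop)
    (hδ : Γ.HM dg dg (-1) δ) (mc : Γ.dM δ δ = 0) (hφ : Γ.HM dg dg 0 φ₀)
    (ev1 : φ₀.map Γ.ev = 1) (hd : ∀ s r, dg r + 1 ≠ dg s → d₀ s r = 0)
    (tr : ∀ w r r', N w r → N r r' → N w r')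
    (clδ : ∀ w r r', N w r → δ r r' ≠ 0 → N w r') (clφ : ∀ w r r', N w r → φ₀ r r' ≠ 0 → N w r')
    (dn : ∀ w r r', d₀ w r ≠ 0 → N r r' → N w r')
    (resI : ∀ w r, (Γ.dM δ φ₀ - d₀.map Γ.inc * φ₀) w r ∈ I)
    (resN : ∀ w r, ¬ N w r → (Γ.dM δ φ₀ - d₀.map Γ.inc * φ₀) w r = 0)
    (ex : ∀ w, Ex0 Γ.J dg (δ.map Γ.ev) (N w)) :
    ∃ (φ : Matrix U U R) (d : Matrix U U K), Γ.HM dg dg 0 φ ∧ φ.map Γ.ev = 1 ∧
      (∀ w r, (φ - φ₀) w r ∈ I) ∧ (∀ w r, ¬ N w r → φ w r = φ₀ w r) ∧
      Γ.dM δ φ = d.map Γ.inc * φ := by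
  have step : ∀ (q : ℤ) (φ : Matrix U U R), Γ.HM dg dg 0 φ → φ.map Γ.ev = 1 →
      (∀ w r, (φ - φ₀) w r ∈ I) → (∀ w r, ¬ N w r → φ w r = φ₀ w r) →
      (∀ w, dg w < q → Γ.res δ φ w = 0) →
      ∃ φ : Matrix U U R, Γ.HM dg dg 0 φ ∧ φ.map Γ.ev = 1 ∧
        (∀ w r, (φ - φ₀) w r ∈ I) ∧ (∀ w r, ¬ N w r → φ w r = φ₀ w r) ∧
        ∀ w, dg w < q + 1 → Γ.res δ φ w = 0 := by
    intro q φ h1 h2 h3 h4 h5
    have sφ : ∀ w, φ ∈ stSub R (N w) := by
      intro w r r' p p'
      rw [h4 r r' fun e => p' (tr w r r' p e)]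
      by_contra e
      exact p' (clφ w r r' p e)
    have sδ : ∀ w, δ ∈ stSub R (N w) := by
      intro w r r' p p'
      by_contra e
      exact p' (clδ w r r' p e)
    have row : ∀ w, ∃ (b : U → R) (a : U → K), dg w = q → Γ.Hv dg q b ∧ (∀ r, b r ∈ I) ∧
        (∀ r, ¬ (N w r ∧ dg r < q) → b r = 0) ∧ (∀ r, dg r + 1 ≠ q → a r = 0) ∧
        Γ.dv δ (φ₀ w - b ᵥ* φ) = (fun r => Γ.inc (a r)) ᵥ* φ := by
      intro w
      by_cases hw : dg w = q
      swap
      · exact ⟨0, 0, fun e => absurd e hw⟩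
      obtain ⟨φ', m', i1, i2⟩ := exists_inv_of_lower (stSub R (N w)) dg (sφ w) (Γ.st_lower h1 h2)
      let SH : Subring (Matrix U U R) :=
        { carrier := {M | Γ.HM dg dg 0 M}
          mul_mem' := fun ha hb => by simpa using HM.mul Γ ha hb
          one_mem' := fun s r => by
            by_cases e : s = r
            · subst e; simpa using Γ.hg_one
            · rw [Matrix.one_apply_ne e]; exact Γ.hg_zero _
          add_mem' := fun ha hb s r => Γ.hg_add (ha s r) (hb s r)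
          zero_mem' := fun s r => Γ.hg_zero _
          neg_mem' := fun ha s r => Γ.hg_neg (ha s r) }
      obtain ⟨φ'', m'', i1', -⟩ := exists_inv_of_lower SH dg h1 (Γ.st_lower h1 h2)
      have hφ' : Γ.HM dg dg 0 φ' := by
        have : φ' = φ'' := by
          calc φ' = φ' * (φ * φ'') := by rw [i1', Matrix.mul_one]
            _ = φ'' := by rw [← Matrix.mul_assoc, i2, Matrix.one_mul]
        rw [this]
        exact m''
      set z : U → R := (Γ.dM δ φ₀ - d₀.map Γ.inc * φ₀) w -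
        (fun r => Γ.inc (d₀ w r)) ᵥ* (φ - φ₀) with hz
      have zI : ∀ r, z r ∈ I := by
        intro r
        refine I.sub_mem (resI w r) ?_
        rw [st_vecMul_apply]
        exact sum_mem fun t _ => I.mul_mem_left _ _ (h3 t r)
      have zN : ∀ r, ¬ N w r → z r = 0 := by
        intro r p
        rw [hz, Pi.sub_apply, resN w r p, zero_sub, neg_eq_zero, st_vecMul_apply]
        refine Finset.sum_eq_zero fun t _ => ?_
        by_cases e : d₀ w t = 0
        · rw [e, map_zero, zero_mul]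
        · rw [Matrix.sub_apply, h4 t r (fun p' => p (dn w t r e p')), sub_self, mul_zero]
      have hc : Γ.dv δ (φ₀ w) ᵥ* φ' = (fun r => Γ.inc (d₀ w r)) + z ᵥ* φ' := by
        have e : Γ.dv δ (φ₀ w) = (fun r => Γ.inc (d₀ w r)) ᵥ* φ + z := by
          have e' : (Γ.dM δ φ₀ - d₀.map Γ.inc * φ₀) w =
              Γ.dv δ (φ₀ w) - (fun r => Γ.inc (d₀ w r)) ᵥ* φ₀ := rfl
          rw [hz, e', Matrix.vecMul_sub]
          abel
        rw [e, Matrix.add_vecMul, Matrix.vecMul_vecMul, i1, Matrix.vecMul_one]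
      have hx : Γ.Hv dg q (φ₀ w) := by simpa [hw] using hφ w
      obtain ⟨b, a, hb⟩ := Γ.st_row sat hI (N w) q hδ mc h1 h2 i1 (Γ.st_sd_sub (sδ w) (sφ w)) h5
        (ex w) (x := φ₀ w) (c := Γ.dv δ (φ₀ w) ᵥ* φ')
        (by simpa using Γ.st_hv_vecMul (Γ.st_hv_dv hδ hx) hφ')
        (by rw [Matrix.vecMul_vecMul, i2, Matrix.vecMul_one])
        (fun r e => by
          rw [hc, Pi.add_apply, hd w r (by omega), map_zero, zero_add]
          exact st_vecMul_mem zI _ r)
        (fun r e p => by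
          rw [hc, Pi.add_apply, hd w r (by omega), map_zero, zero_add]
          exact st_vecMul_supp m' zN r p)
      exact ⟨b, a, fun _ => hb⟩
    choose b a hb using row
    set φ₁ : Matrix U U R := Matrix.of fun w => if dg w = q then φ₀ w - b w ᵥ* φ else φ w
      with hφ₁
    have r1 : ∀ w, dg w = q → φ₁ w = φ₀ w - b w ᵥ* φ := fun w e => if_pos e
    have r2 : ∀ w, dg w ≠ q → φ₁ w = φ w := fun w e => if_neg e
    have ev2 : φ₁.map Γ.ev = 1 := by
      ext w r
      by_cases e : dg w = q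
      · rw [Matrix.map_apply, r1 w e, Pi.sub_apply, map_sub, ← ev1, Matrix.map_apply,
          st_vecMul_apply, map_sum, sub_eq_self]
        refine Finset.sum_eq_zero fun t _ => ?_
        by_cases e' : dg t < q
        · rw [map_mul, Γ.ev_pos (by omega) ((hb w e).1 t), zero_mul]
        · rw [(hb w e).2.2.1 t (fun p => e' p.2), zero_mul, map_zero]
      · rw [Matrix.map_apply, r2 w e, ← h2, Matrix.map_apply]
    have low : ∀ c : U → K, (∀ r, dg r = q → c r = 0) →
        (fun r => Γ.inc (c r)) ᵥ* φ = (fun r => Γ.inc (c r)) ᵥ* φ₁ := by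
      intro c hc
      funext r
      rw [st_vecMul_apply, st_vecMul_apply]
      refine Finset.sum_congr rfl fun t _ => ?_
      by_cases e : dg t = q
      · rw [hc t e, map_zero, zero_mul, zero_mul]
      · rw [r2 t e]
    refine ⟨φ₁, fun w => ?_, ev2, fun w r => ?_, fun w r p => ?_, fun w hw => ?_⟩
    · by_cases e : dg w = q
      · rw [r1 w e]
        intro r
        refine Γ.hg_sub (hφ w r) ?_
        rw [e]
        exact Γ.st_hv_vecMul (hb w e).1 h1 r
      · rw [r2 w e]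
        exact h1 w
    · rw [Matrix.sub_apply]
      by_cases e : dg w = q
      · rw [r1 w e, Pi.sub_apply, sub_sub_cancel_left]
        exact I.neg_mem (st_vecMul_mem (hb w e).2.1 _ r)
      · rw [r2 w e]
        exact h3 w r
    · by_cases e : dg w = q
      · rw [r1 w e, Pi.sub_apply,
          st_vecMul_supp (sφ w) (fun t p' => (hb w e).2.2.1 t fun p'' => p' p''.1) r p, sub_zero]
      · rw [r2 w e]
        exact h4 w r p
    · by_cases e : dg w = q
      · refine Γ.st_res_row ev2 (c := a w) ?_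
        rw [r1 w e, (hb w e).2.2.2.2]
        exact low _ fun r p => (hb w e).2.2.2.1 r (by omega)
      · refine Γ.st_res_row ev2 (c := Γ.sd δ φ w) ?_
        rw [r2 w e, ← dM_apply, Γ.st_row_of_res (h5 w (by omega))]
        exact low _ fun r p => Γ.st_sd_deg hδ h1 w r (by omega)
  have all : ∀ n : ℕ, ∃ φ : Matrix U U R, Γ.HM dg dg 0 φ ∧ φ.map Γ.ev = 1 ∧
      (∀ w r, (φ - φ₀) w r ∈ I) ∧ (∀ w r, ¬ N w r → φ w r = φ₀ w r) ∧
      ∀ w, dg w < -((∑ r, (-dg r).toNat : ℕ) : ℤ) + n → Γ.res δ φ w = 0 := by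
    intro n
    induction n with
    | zero =>
      refine ⟨φ₀, hφ, ev1, fun w r => by rw [sub_self]; exact I.zero_mem, fun _ _ _ => rfl,
        fun w hw => ?_⟩
      have h1 : (-dg w).toNat ≤ ∑ r, (-dg r).toNat :=
        Finset.single_le_sum (f := fun r => (-dg r).toNat) (fun _ _ => Nat.zero_le _)
          (Finset.mem_univ w)
      omega
    | succ n ih =>
      obtain ⟨φ, h1, h2, h3, h4, h5⟩ := ih
      obtain ⟨φ₁, k1, k2, k3, k4, k5⟩ := step _ φ h1 h2 h3 h4 h5
      exact ⟨φ₁, k1, k2, k3, k4, fun w hw => k5 w (by omega)⟩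
  obtain ⟨φ, h1, h2, h3, h4, h5⟩ := all (∑ r, (-dg r).toNat + ∑ r, (dg r).toNat + 1)
  refine ⟨φ, Γ.sd δ φ, h1, h2, h3, h4, ?_⟩
  ext w r
  have k : (dg w).toNat ≤ ∑ r, (dg r).toNat :=
    Finset.single_le_sum (f := fun r => (dg r).toNat) (fun _ _ => Nat.zero_le _)
      (Finset.mem_univ w)
  rw [Γ.st_row_of_res (h5 w (by omega))]
  rfl

end DR

end Pool.Agent.P.MP_932208_ag.Ax
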