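import Pool.Agent.P.MP_932208_ag.Ex.TorsL

/-!
Torsion of exact complexes whose cells are labelled by natural numbers.
-/

namespace Pool.Agent.P.MP_932208_ag.Ax

variable {K K' : Type} [CommRing K] [CommRing K']

/-- The block `T × T` of an infinite matrix. -/
def matT {R : Type} (T : Finset ℕ) (d : ℕ → ℕ → R) : Matrix T T R := Matrix.of fun s r => d s r

/-- The degrees of the cells in `T`. -/
def dgT (T : Finset ℕ) (dg : ℕ → ℤ) : T → ℤ := fun s => dg s

/-- The block `T × T` of `d` is an exact complex. -/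
def CxN (T : Finset ℕ) (dg : ℕ → ℤ) (d : ℕ → ℕ → K) : Prop := Cx (dgT T dg) (matT T d)

/-- The cells of odd degree. -/
def od (T : Finset ℕ) (dg : ℕ → ℤ) : Finset ℕ := T.filter fun s => Odd (dg s)

/-- The cells of even degree. -/
def ev (T : Finset ℕ) (dg : ℕ → ℤ) : Finset ℕ := T.filter fun s => Even (dg s)

/-- The sign of the shuffle that sorts (`S`, then `T`), separately in odd and even degrees. -/
def eps (dg : ℕ → ℤ) (S T : Finset ℕ) : ℤˣ :=
  ∏ s ∈ S, ∏ t ∈ T, if t < s ∧ (Odd (dg s) ↔ Odd (dg t)) then -1 else 1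

/-- A sign as an element of `K`. -/
abbrev sgK (K : Type) [CommRing K] (e : ℤˣ) : K := ((e : ℤ) : K)

theorem sgK_mul (e e' : ℤˣ) : sgK K (e * e') = sgK K e * sgK K e' := by simp [sgK]

theorem sgK_one : sgK K 1 = 1 := by simp [sgK]

theorem map_sgK (g : K →+* K') (e : ℤˣ) : g (sgK K e) = sgK K' e := map_intCast g _

theorem isUnit_sgK (e : ℤˣ) : IsUnit (sgK K e) := e.isUnit.map (Int.castRingHom K)

section eps
variable {dg dg' : ℕ → ℤ} {S S' T T' : Finset ℕ}

theorem eps_congr (h : ∀ s ∈ S, dg s = dg' s) (h' : ∀ s ∈ T, dg s = dg' s) :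
    eps dg S T = eps dg' S T :=
  Finset.prod_congr rfl fun s hs => Finset.prod_congr rfl fun t ht => by rw [h s hs, h' t ht]

theorem eps_union_left (h : Disjoint S S') : eps dg (S ∪ S') T = eps dg S T * eps dg S' T :=
  Finset.prod_union h

theorem eps_union_right (h : Disjoint T T') : eps dg S (T ∪ T') = eps dg S T * eps dg S T' := by
  unfold eps
  rw [← Finset.prod_mul_distrib]
  exact Finset.prod_congr rfl fun s _ => Finset.prod_union h

theorem eps_empty_right : eps dg S ∅ = 1 := by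
  simp [eps]

theorem eps_insert_zero : eps dg (insert 0 S) T = eps dg S T := by
  unfold eps
  exact Finset.prod_insert_of_eq_one_if_notMem fun _ => by simp

theorem Tau_split {M : Type} [CommMonoid M] (S : Finset ℕ) (dg : ℕ → ℤ) (f : ℕ → M) :
    ∏ s ∈ S, f s = (∏ s ∈ od S dg, f s) * ∏ s ∈ ev S dg, f s := by
  rw [← Finset.prod_filter_mul_prod_filter_not S fun s => Odd (dg s)]
  simp only [Int.not_odd_iff_even]
  rfl

/-- The sign of the shuffle of two sets. -/
def Tau_sh (A B : Finset ℕ) : ℤˣ := ∏ s ∈ A, ∏ t ∈ B, if t < s then -1 else 1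

theorem Tau_eps : eps dg S T = Tau_sh (od S dg) (od T dg) * Tau_sh (ev S dg) (ev T dg) := by
  unfold eps Tau_sh
  rw [Tau_split S dg]
  congr 1
  · refine Finset.prod_congr rfl fun s hs => ?_
    have h1 : Odd (dg s) := (Finset.mem_filter.1 hs).2
    rw [Tau_split T dg, Finset.prod_eq_one (s := ev T dg), mul_one]
    · refine Finset.prod_congr rfl fun t ht => ?_
      have h2 : Odd (dg t) := (Finset.mem_filter.1 ht).2
      simp [h1, h2]
    · intro t ht
      have h2 : ¬ Odd (dg t) := Int.not_odd_iff_even.2 (Finset.mem_filter.1 ht).2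
      simp [h1, h2]
  · refine Finset.prod_congr rfl fun s hs => ?_
    have h1 : ¬ Odd (dg s) := Int.not_odd_iff_even.2 (Finset.mem_filter.1 hs).2
    rw [Tau_split T dg, Finset.prod_eq_one (s := od T dg), one_mul]
    · refine Finset.prod_congr rfl fun t ht => ?_
      have h2 : ¬ Odd (dg t) := Int.not_odd_iff_even.2 (Finset.mem_filter.1 ht).2
      simp [h1, h2]
    · intro t ht
      have h2 : Odd (dg t) := (Finset.mem_filter.1 ht).2
      simp [h1, h2]

theorem Tau_sh_swap {A B : Finset ℕ} (h : Disjoint A B) :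
    Tau_sh A B * Tau_sh B A = (-1) ^ (A.card * B.card) := by
  unfold Tau_sh
  rw [Finset.prod_comm (s := B), ← Finset.prod_mul_distrib, mul_comm A.card, pow_mul,
    ← Finset.prod_const]
  refine Finset.prod_congr rfl fun s hs => ?_
  rw [← Finset.prod_mul_distrib, ← Finset.prod_const]
  refine Finset.prod_congr rfl fun t ht => ?_
  have h1 : s ≠ t := fun e => Finset.disjoint_left.1 h hs (e ▸ ht)
  rcases lt_or_gt_of_ne h1 with h2 | h2
  · simp [h2, h2.not_gt]
  · simp [h2, h2.not_gt]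

theorem eps_swap (h : Disjoint S T) : eps dg S T * eps dg T S =
    (-1) ^ ((od S dg).card * (od T dg).card + (ev S dg).card * (ev T dg).card) := by
  rw [Tau_eps, Tau_eps, mul_mul_mul_comm, pow_add,
    Tau_sh_swap (A := od S dg) (B := od T dg) (Finset.disjoint_filter_filter h),
    Tau_sh_swap (A := ev S dg) (B := ev T dg) (Finset.disjoint_filter_filter h)]

theorem card_od_add_ev : (od S dg).card + (ev S dg).card = S.card := by
  rw [← Finset.card_filter_add_card_filter_not (s := S) fun s => Odd (dg s)]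
  simp only [Int.not_odd_iff_even]
  rfl

theorem ev_union : ev (S ∪ T) dg = ev S dg ∪ ev T dg :=
  Finset.filter_union _ _ _

theorem ev_congr (h : ∀ s ∈ S, dg s = dg' s) : ev S dg = ev S dg' :=
  Finset.filter_congr fun s hs => by rw [h s hs]

end eps

section Gen
open Classical TorsL

/-- The sign of a permutation counts the inversions. -/
theorem Tau_sign {X : Type} [Fintype X] [DecidableEq X] [LinearOrder X] (σ : Equiv.Perm X) :
    Equiv.Perm.sign σ = ∏ x, ∏ x', if x < x' ∧ σ x' < σ x then -1 else 1 := by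
  let φ : Fin (Fintype.card X) ≃o X := monoEquivOfFin X rfl
  rw [← Equiv.Perm.sign_permCongr φ.toEquiv.symm σ, Equiv.Perm.sign_eq_prod_prod_Ioi,
    ← Equiv.prod_comp φ.toEquiv]
  refine Finset.prod_congr rfl fun i _ => ?_
  rw [← Equiv.prod_comp φ.toEquiv, ← Finset.prod_subset (Finset.subset_univ (Finset.Ioi i))]
  · refine Finset.prod_congr rfl fun j hj => ?_
    have h1 : i < j := Finset.mem_Ioi.1 hj
    have h2 : φ.toEquiv i < φ.toEquiv j := φ.strictMono h1
    have h3 : φ.toEquiv.symm.permCongr σ i < φ.toEquiv.symm.permCongr σ j ↔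
        σ (φ.toEquiv i) < σ (φ.toEquiv j) := φ.symm.lt_iff_lt
    have h4 : σ (φ.toEquiv i) ≠ σ (φ.toEquiv j) := σ.injective.ne h2.ne
    rcases lt_or_gt_of_ne h4 with h5 | h5
    · rw [if_pos (h3.2 h5), if_neg fun k => h5.not_gt k.2]
    · rw [if_neg fun k => h5.not_gt (h3.1 k), if_pos ⟨h2, h5⟩]
  · intro j _ hj
    exact if_neg fun k => hj (Finset.mem_Ioi.2 (φ.lt_iff_lt.1 k.1))

theorem Tau_det {X Y : Type} [Fintype X] [DecidableEq X] [LinearOrder X] [LinearOrder Y]
    (β : X ≃o Y) (β' : X ≃ Y) (M : X → Y → K) :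
    Matrix.det (Matrix.of fun o o' => M o (β o')) =
      sgK K (∏ x, ∏ x', if x < x' ∧ β' x' < β' x then -1 else 1) *
        Matrix.det (Matrix.of fun o o' => M o (β' o')) := by
  have h1 := Matrix.det_permute' (β'.trans β.toEquiv.symm) (Matrix.of fun o o' => M o (β o'))
  have h2 : (Matrix.of fun o o' => M o (β o')).submatrix id (β'.trans β.toEquiv.symm) =
      Matrix.of fun o o' => M o (β' o') := by
    ext o o'
    simp
  have h3 : Equiv.Perm.sign (β'.trans β.toEquiv.symm) =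
      ∏ x, ∏ x', if x < x' ∧ β' x' < β' x then -1 else 1 := by
    rw [Tau_sign]
    refine Finset.prod_congr rfl fun x _ => Finset.prod_congr rfl fun x' _ => ?_
    exact if_congr (and_congr Iff.rfl β.symm.lt_iff_lt) rfl rfl
  rw [← h2, h1, h3, ← mul_assoc, ← sgK_mul, Int.units_mul_self, sgK_one, one_mul]

variable {U U₁ U₂ : Type} [Fintype U] [Fintype U₁] [Fintype U₂]

theorem Tau_sum (p : U → Prop) [DecidablePred p] (f : U → K) (h : ∀ s, ¬ p s → f s = 0) :
    ∑ s, f s = ∑ s : {s // p s}, f s.1 := by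
  rw [← Fintype.sum_subtype_add_sum_subtype p f, add_eq_left]
  exact Finset.sum_eq_zero fun s _ => h _ s.2

theorem Tau_card [Nontrivial K] {dg : U → ℤ} {d : Matrix U U K} (hd : Cx dg d) :
    Fintype.card (Od dg) = Fintype.card (Ev dg) := by
  obtain ⟨h1, h2, h, hh⟩ := hd
  have e1 : d * h * d = d := by
    have := congrArg (· * d) hh.2
    simpa only [add_mul, mul_assoc, h2, mul_zero, add_zero, one_mul] using this
  have e2 : h * h * d = d * h * h := by
    have : h * (d * h + h * d) = (d * h + h * d) * h := by rw [hh.2, mul_one, one_mul]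
    rw [mul_add, add_mul, ← mul_assoc, ← mul_assoc, add_comm] at this
    exact add_right_cancel this
  have e3 : (d + h * d * h) * (d + h * d * h) = 1 := by
    have : (d + h * d * h) * (d + h * d * h) =
        d * d + (d * h * d) * h + h * (d * h * d) + h * d * (h * h * d) * h := by noncomm_ring
    rw [this, e1, e2, h2, zero_add, hh.2,
      show h * d * (d * h * h) * h = h * (d * d) * (h * h * h) by noncomm_ring, h2]
    simp
  have hz : Z (fun x y => y + 1 = x ∨ y = x + 1) dg dg (d + h * d * h) :=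
    Z.add (Z.mono (R := fun x y => y + 1 = x) h1 fun _ _ => Or.inl)
      (((contr_z hh).mul (S := fun x y => y + 1 = x) (P := fun x y => y = x) h1
        fun x y z h1 h2 => by omega).mul (contr_z hh) fun x y z h1 h2 => by omega)
  generalize d + h * d * h = M at e3 hz
  refine Matrix.square_of_invertible (Matrix.of fun (o : Od dg) (e : Ev dg) => M o.1 e.1)
    (Matrix.of fun (e : Ev dg) (o : Od dg) => M e.1 o.1) ?_ ?_
  · ext o o'
    have := congrFun (congrFun e3 o.1) o'.1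
    rw [Matrix.mul_apply, Tau_sum fun s => Even (dg s)] at this
    · simpa [Matrix.mul_apply, Matrix.one_apply, Subtype.ext_iff] using this
    · intro s hs
      have ho := o.2
      rw [hz _ _ (by simp only [Int.odd_iff, Int.even_iff] at ho hs; omega), zero_mul]
  · ext o o'
    have := congrFun (congrFun e3 o.1) o'.1
    rw [Matrix.mul_apply, Tau_sum fun s => Odd (dg s)] at this
    · simpa [Matrix.mul_apply, Matrix.one_apply, Subtype.ext_iff] using this
    · intro s hs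
      have ho := o.2
      rw [hz _ _ (by simp only [Int.odd_iff, Int.even_iff] at ho hs; omega), zero_mul]

theorem Tau_conj {dg : U → ℤ} (β : Od dg ≃ Ev dg) {d : Matrix U U K} (hd : Cx dg d)
    (l : U → Kˣ) : tors β (Matrix.of fun s r => l s * d s r * ↑(l r)⁻¹) =
      (∏ s : Od dg, (l s : K)) * (∏ s : Ev dg, (↑(l s)⁻¹ : K)) * tors β d := by
  have hm : ∀ A B : Matrix U U K, (Matrix.of fun s r => l s * A s r * ↑(l r)⁻¹ : Matrix U U K) *
      (Matrix.of fun s r => l s * B s r * ↑(l r)⁻¹ : Matrix U U K) =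
      Matrix.of fun s r => l s * (A * B) s r * ↑(l r)⁻¹ := by
    intro A B
    ext s r
    simp only [Matrix.mul_apply, Matrix.of_apply, Finset.mul_sum, Finset.sum_mul]
    refine Finset.sum_congr rfl fun t _ => ?_
    linear_combination (l s * A s t * B t r * ↑(l r)⁻¹ : K) * (l t).inv_mul
  have hc : Contr dg (Matrix.of fun s r => l s * d s r * ↑(l r)⁻¹ : Matrix U U K)
      (Matrix.of fun s r => l s * ctr dg d s r * ↑(l r)⁻¹) := by
    refine ⟨fun s r h => by simp [hd.contr.1 s r h], ?_⟩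
    rw [hm, hm]
    ext s r
    have := congrFun (congrFun hd.contr.2 s) r
    rw [Matrix.add_apply] at this
    rw [Matrix.add_apply, Matrix.of_apply, Matrix.of_apply, ← add_mul, ← mul_add, this]
    by_cases h : s = r
    · subst h
      simp
    · simp [Matrix.one_apply_ne h]
  have hd' : Cx dg (Matrix.of fun s r => l s * d s r * ↑(l r)⁻¹ : Matrix U U K) := by
    refine ⟨fun s r h => by simp [hd.1 s r h], ?_, _, hc⟩
    rw [hm, hd.2.1]
    ext s r
    simp
  rw [tors_eq β hd' hc, tors, ← Equiv.prod_comp β fun s : Ev dg => (↑(l s)⁻¹ : K)]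
  unfold detb
  rw [mul_assoc, ← Matrix.det_mul_row, ← Matrix.det_mul_column]
  congr 1
  ext o o'
  simp only [Matrix.of_apply, Matrix.add_apply]
  ring

/-- The cells with a degree condition in a disjoint union. -/
noncomputable def Tau_sumSub (e : U₁ ⊕ U₂ ≃ U) {dg₁ : U₁ → ℤ} {dg₂ : U₂ → ℤ} {dg : U → ℤ}
    (h₁ : ∀ s, dg (e (Sum.inl s)) = dg₁ s) (h₂ : ∀ s, dg (e (Sum.inr s)) = dg₂ s) (p : ℤ → Prop) :
    {s // p (dg₁ s)} ⊕ {s // p (dg₂ s)} ≃ {s // p (dg s)} :=
  Equiv.ofBijective (Sum.elim (fun o => ⟨e (Sum.inl o.1), (h₁ _).symm ▸ o.2⟩)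
    fun o => ⟨e (Sum.inr o.1), (h₂ _).symm ▸ o.2⟩) (by
    constructor
    · rintro (s | s) (r | r) h <;> simpa [Subtype.ext_iff] using h
    · rintro ⟨s, hs⟩
      obtain ⟨s | s, rfl⟩ := e.surjective s
      · exact ⟨Sum.inl ⟨s, h₁ s ▸ hs⟩, rfl⟩
      · exact ⟨Sum.inr ⟨s, h₂ s ▸ hs⟩, rfl⟩)

theorem Tau_blk {e : U₁ ⊕ U₂ ≃ U} {dg₁ : U₁ → ℤ} {dg₂ : U₂ → ℤ} {dg : U → ℤ}
    (β₁ : Od dg₁ ≃ Ev dg₁) (β₂ : Od dg₂ ≃ Ev dg₂) (β' : Od dg ≃ Ev dg)
    (fO : Od dg₁ ⊕ Od dg₂ ≃ Od dg) (k1 : ∀ a, (β' (fO (Sum.inl a))).1 = e (Sum.inl (β₁ a).1))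
    (k2 : ∀ a, (β' (fO (Sum.inr a))).1 = e (Sum.inr (β₂ a).1))
    (k3 : ∀ a, (fO (Sum.inl a)).1 = e (Sum.inl a.1))
    (k4 : ∀ a, (fO (Sum.inr a)).1 = e (Sum.inr a.1))
    (A : Matrix U₁ U₁ K) (C : Matrix U₂ U₁ K) (D : Matrix U₂ U₂ K) :
    detb β' (blk e A C D) = detb β₁ A * detb β₂ D := by
  unfold detb
  rw [← Matrix.det_submatrix_equiv_self fO]
  have : (Matrix.of fun o o' : Od dg => blk e A C D o.1 (β' o').1).submatrix fO fO =
      Matrix.fromBlocks (Matrix.of fun o o' : Od dg₁ => A o.1 (β₁ o').1) 0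
        (Matrix.of fun (o : Od dg₂) (o' : Od dg₁) => C o.1 (β₁ o').1)
        (Matrix.of fun o o' : Od dg₂ => D o.1 (β₂ o').1) := by
    ext (s | s) (r | r) <;> simp [k1, k2, k3, k4, blk_apply]
  rw [this, Matrix.det_fromBlocks_zero₁₂]

theorem Tau_ite {a b c d : Prop} [Decidable a] [Decidable b] [Decidable (c ∧ b)]
    [Decidable (a ∧ d)] (h : c ↔ ¬ a) (h' : d ↔ ¬ b) :
    ((if c ∧ b then -1 else 1) * if a ∧ d then -1 else 1 : ℤˣ) =
      (if a then -1 else 1) * if b then -1 else 1 := by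
  by_cases ha : a <;> by_cases hb : b <;> simp [h, h', ha, hb]

variable [LinearOrder U] [LinearOrder U₁] [LinearOrder U₂]

/-- The increasing bijection. -/
noncomputable def Tau_beta {dg : U → ℤ} (h : Fintype.card (Od dg) = Fintype.card (Ev dg)) :
    Od dg ≃o Ev dg := (monoEquivOfFin (Od dg) h).symm.trans (monoEquivOfFin (Ev dg) rfl)

/-- The torsion for ordered cells. -/
noncomputable def Tau_u (dg : U → ℤ) (d : Matrix U U K) : K :=
  if h : Fintype.card (Od dg) = Fintype.card (Ev dg) then tors (Tau_beta h).toEquiv d else 0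

theorem Tau_u_map {dg : U → ℤ} {d : Matrix U U K} (hd : Cx dg d) (g : K →+* K') :
    g (Tau_u dg d) = Tau_u dg (d.map g) := by
  unfold Tau_u
  split_ifs
  · exact map_tors _ hd g
  · exact map_zero g

theorem Tau_u_unit {dg : U → ℤ} {d : Matrix U U K} (hd : Cx dg d) : IsUnit (Tau_u dg d) := by
  nontriviality K
  rw [Tau_u, dif_pos (Tau_card hd)]
  exact isUnit_tors _ hd

theorem Tau_u_empty [IsEmpty U] (dg : U → ℤ) (d : Matrix U U K) : Tau_u dg d = 1 := by
  rw [Tau_u, dif_pos (by simp)]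
  unfold tors detb
  convert Matrix.det_isEmpty
  infer_instance

theorem Tau_u_conj {dg : U → ℤ} {d : Matrix U U K} (hd : Cx dg d) (l : U → Kˣ) :
    Tau_u dg (Matrix.of fun s r => l s * d s r * ↑(l r)⁻¹) =
      (∏ s : Od dg, (l s : K)) * (∏ s : Ev dg, (↑(l s)⁻¹ : K)) * Tau_u dg d := by
  unfold Tau_u
  split_ifs
  · exact Tau_conj _ hd l
  · exact (mul_zero _).symm

theorem Tau_u_blocks (e : U₁ ⊕ U₂ ≃ U) {dg₁ : U₁ → ℤ} {dg₂ : U₂ → ℤ} {dg : U → ℤ}
    (h₁ : ∀ s, dg (e (Sum.inl s)) = dg₁ s) (h₂ : ∀ s, dg (e (Sum.inr s)) = dg₂ s)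
    (m₁ : ∀ s r, e (Sum.inl s) < e (Sum.inl r) ↔ s < r)
    (m₂ : ∀ s r, e (Sum.inr s) < e (Sum.inr r) ↔ s < r) {d : Matrix U U K} (hd : Cx dg d)
    (htri : ∀ s r, d (e (Sum.inl s)) (e (Sum.inr r)) = 0)
    (hd₁ : Cx dg₁ (d.submatrix (e ∘ Sum.inl) (e ∘ Sum.inl)))
    (hd₂ : Cx dg₂ (d.submatrix (e ∘ Sum.inr) (e ∘ Sum.inr))) :
    Tau_u dg d = sgK K
      ((∏ a : Od dg₁, ∏ b : Od dg₂, if e (Sum.inr b.1) < e (Sum.inl a.1) then -1 else 1) *
        ∏ a : Ev dg₁, ∏ b : Ev dg₂, if e (Sum.inr b.1) < e (Sum.inl a.1) then -1 else 1) *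
      Tau_u dg₁ (d.submatrix (e ∘ Sum.inl) (e ∘ Sum.inl)) *
      Tau_u dg₂ (d.submatrix (e ∘ Sum.inr) (e ∘ Sum.inr)) := by
  nontriviality K
  rw [Tau_u, Tau_u, Tau_u, dif_pos (Tau_card hd), dif_pos (Tau_card hd₁), dif_pos (Tau_card hd₂)]
  generalize Tau_beta (Tau_card hd) = β
  generalize Tau_beta (Tau_card hd₁) = β₁
  generalize Tau_beta (Tau_card hd₂) = β₂
  obtain ⟨z, hz⟩ := contr_blk h₁ h₂ hd.1 hd.2.1 htri hd₁.contr hd₂.contr
  rw [tors_eq _ hd hz]
  nth_rw 1 [eq_blk e htri]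
  rw [blk_add]
  unfold tors
  generalize d.submatrix (e ∘ Sum.inl) (e ∘ Sum.inl) + _ = A
  generalize d.submatrix (e ∘ Sum.inr) (e ∘ Sum.inr) + _ = D
  generalize d.submatrix (e ∘ Sum.inr) (e ∘ Sum.inl) + _ = C
  let fO : Od dg₁ ⊕ Od dg₂ ≃ Od dg := Tau_sumSub e h₁ h₂ Odd
  let fE : Ev dg₁ ⊕ Ev dg₂ ≃ Ev dg := Tau_sumSub e h₁ h₂ Even
  let β' : Od dg ≃ Ev dg := fO.symm.trans ((β₁.toEquiv.sumCongr β₂.toEquiv).trans fE)
  have k1 : ∀ a, (β' (fO (Sum.inl a))).1 = e (Sum.inl (β₁ a).1) := fun a => by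
    simp only [β', Equiv.trans_apply, Equiv.symm_apply_apply]
    rfl
  have k2 : ∀ a, (β' (fO (Sum.inr a))).1 = e (Sum.inr (β₂ a).1) := fun a => by
    simp only [β', Equiv.trans_apply, Equiv.symm_apply_apply]
    rfl
  have k3 : ∀ a, (fO (Sum.inl a)).1 = e (Sum.inl a.1) := fun _ => rfl
  have k4 : ∀ a, (fO (Sum.inr a)).1 = e (Sum.inr a.1) := fun _ => rfl
  have hne : ∀ a b, e (Sum.inl a) < e (Sum.inr b) ↔ ¬ e (Sum.inr b) < e (Sum.inl a) :=
    fun a b => ⟨fun h => h.not_gt, fun h => lt_of_le_of_ne (not_lt.1 h) (by simp)⟩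
  have k5 : detb β.toEquiv (blk e A C D) =
      sgK K (∏ x, ∏ x', if x < x' ∧ β' x' < β' x then -1 else 1) * detb β' (blk e A C D) :=
    @Tau_det K _ _ _ _ (_) _ _ β β' fun o r => blk e A C D o.1 r.1
  rw [k5, Tau_blk β₁.toEquiv β₂.toEquiv β' fO k1 k2 k3 k4, mul_assoc]
  congr 2
  · rw [← Equiv.prod_comp fO]
    simp only [← Equiv.prod_comp fO fun x' => if _ < x' ∧ β' x' < _ then (-1 : ℤˣ) else 1,
      Fintype.prod_sum_type, Finset.prod_mul_distrib]
    rw [Finset.prod_eq_one (f := fun x => ∏ x', if fO (Sum.inl x) < fO (Sum.inl x') ∧ _ then _ else _),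
      Finset.prod_eq_one (f := fun x => ∏ x', if fO (Sum.inr x) < fO (Sum.inr x') ∧ _ then _ else _),
      one_mul, mul_one, Finset.prod_comm (f := fun x x' => if fO (Sum.inr x) < fO (Sum.inl x') ∧ _
        then _ else _), ← Equiv.prod_comp β₁.toEquiv, ← Finset.prod_mul_distrib,
      ← Finset.prod_mul_distrib]
    · refine Finset.prod_congr rfl fun a _ => ?_
      rw [← Equiv.prod_comp β₂.toEquiv, ← Finset.prod_mul_distrib, ← Finset.prod_mul_distrib]
      refine Finset.prod_congr rfl fun b _ => ?_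
      simp only [← Subtype.coe_lt_coe, k1, k2, k3, k4]
      exact (mul_comm _ _).trans (Tau_ite (hne _ _) (hne _ _))
    · intro a _
      refine Finset.prod_eq_one fun b _ => if_neg fun k => ?_
      simp only [← Subtype.coe_lt_coe, k2, k4, m₂] at k
      exact k.2.not_gt (β₂.strictMono k.1)
    · intro a _
      refine Finset.prod_eq_one fun b _ => if_neg fun k => ?_
      simp only [← Subtype.coe_lt_coe, k1, k3, m₁] at k
      exact k.2.not_gt (β₁.strictMono k.1)

end Gen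

/-- The cells of `T` with a degree condition. -/
def Tau_eqv (T : Finset ℕ) (dg : ℕ → ℤ) (p : ℤ → Prop) [DecidablePred p] :
    {s : T // p (dgT T dg s)} ≃ (T.filter fun s => p (dg s)) where
  toFun s := ⟨s.1.1, Finset.mem_filter.2 ⟨s.1.2, s.2⟩⟩
  invFun s := ⟨⟨s.1, (Finset.mem_filter.1 s.2).1⟩, (Finset.mem_filter.1 s.2).2⟩
  left_inv _ := rfl
  right_inv _ := rfl

theorem Tau_prod {M : Type} [CommMonoid M] (T : Finset ℕ) (dg : ℕ → ℤ) (p : ℤ → Prop)
    [DecidablePred p] (f : ℕ → M) :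
    ∏ s : {s : T // p (dgT T dg s)}, f s.1.1 = ∏ s ∈ T.filter fun s => p (dg s), f s := by
  rw [← Finset.prod_coe_sort (T.filter fun s => p (dg s)), ← Equiv.prod_comp (Tau_eqv T dg p)]
  rfl

/-- The torsion: the determinant of `d + h` from the odd to the even cells of `T`, both in
increasing order (zero if their numbers differ). -/
noncomputable def tau (T : Finset ℕ) (dg : ℕ → ℤ) (d : ℕ → ℕ → K) : K :=
  Tau_u (dgT T dg) (matT T d)

variable {T T₁ T₂ : Finset ℕ} {dg dg' : ℕ → ℤ} {d d' : ℕ → ℕ → K}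

theorem CxN.congr (h : CxN T dg d) (e : ∀ s ∈ T, dg s = dg' s)
    (e' : ∀ s ∈ T, ∀ r ∈ T, d s r = d' s r) : CxN T dg' d' := by
  have h1 : dgT T dg' = dgT T dg := funext fun s => (e s s.2).symm
  have h2 : matT T d' = matT T d := Matrix.ext fun s r => (e' s s.2 r r.2).symm
  unfold CxN
  rw [h1, h2]
  exact h

theorem tau_congr (e : ∀ s ∈ T, dg s = dg' s) (e' : ∀ s ∈ T, ∀ r ∈ T, d s r = d' s r) :
    tau T dg d = tau T dg' d' := by
  have h1 : dgT T dg' = dgT T dg := funext fun s => (e s s.2).symm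
  have h2 : matT T d' = matT T d := Matrix.ext fun s r => (e' s s.2 r r.2).symm
  unfold tau
  rw [h1, h2]

theorem CxN.map (h : CxN T dg d) (g : K →+* K') : CxN T dg fun s r => g (d s r) :=
  Cx.map h g

theorem map_tau (h : CxN T dg d) (g : K →+* K') :
    g (tau T dg d) = tau T dg fun s r => g (d s r) :=
  Tau_u_map h g

theorem CxN.card_eq [Nontrivial K] (h : CxN T dg d) : (od T dg).card = (ev T dg).card := by
  have h1 := Tau_card h
  rw [Fintype.card_congr (Tau_eqv T dg Odd), Fintype.card_congr (Tau_eqv T dg Even),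
    Fintype.card_coe, Fintype.card_coe] at h1
  exact h1

theorem isUnit_tau (h : CxN T dg d) : IsUnit (tau T dg d) :=
  Tau_u_unit h

theorem tau_empty : tau ∅ dg d = 1 :=
  Tau_u_empty _ _

/-- Multiplicativity: `T₁` spans a subcomplex. -/
theorem tau_union (hd : Disjoint T₁ T₂) (h : CxN (T₁ ∪ T₂) dg d) (h₁ : CxN T₁ dg d)
    (h₂ : CxN T₂ dg d) (tri : ∀ s ∈ T₁, ∀ r ∈ T₂, d s r = 0) :
    tau (T₁ ∪ T₂) dg d = sgK K (eps dg T₁ T₂) * tau T₁ dg d * tau T₂ dg d := by
  have h1 := Tau_u_blocks (Equiv.Finset.union T₁ T₂ hd) (dg := dgT (T₁ ∪ T₂) dg)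
    (dg₁ := dgT T₁ dg) (dg₂ := dgT T₂ dg) (fun _ => rfl) (fun _ => rfl) (fun _ _ => Iff.rfl)
    (fun _ _ => Iff.rfl) h (fun s r => tri s s.2 r r.2) h₁ h₂
  refine h1.trans ?_
  rw [Tau_eps]
  unfold Tau_sh od ev
  rw [← Tau_prod T₁ dg Odd, ← Tau_prod T₁ dg Even]
  simp only [← Tau_prod T₂ dg Odd, ← Tau_prod T₂ dg Even]
  rfl

/-- Rescaling of the basis. -/
theorem tau_conj (h : CxN T dg d) (l : ℕ → Kˣ) :
    (tau T dg fun s r => l s * d s r * ↑(l r)⁻¹) =
      (∏ s ∈ od T dg, (l s : K)) * (∏ s ∈ ev T dg, (↑(l s)⁻¹ : K)) * tau T dg d := by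
  unfold od ev
  rw [← Tau_prod T dg Odd fun s => (l s : K), ← Tau_prod T dg Even fun s => (↑(l s)⁻¹ : K)]
  exact Tau_u_conj h fun s => l s

attribute [irreducible] tau

end Pool.Agent.P.MP_932208_ag.Ax
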