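import Mathlib

/-!
Reidemeister torsion of a based exact complex of free modules over a commutative ring.
Matrices act on row vectors: the row `s` of `d` is the boundary of the basis element `s`.
-/

namespace Pool.Agent.P.MP_932208_ag.Ax

open Classical

/-- Basis elements of odd degree. -/
abbrev Od {U : Type} (dg : U → ℤ) : Type := {s : U // Odd (dg s)}

/-- Basis elements of even degree. -/
abbrev Ev {U : Type} (dg : U → ℤ) : Type := {s : U // Even (dg s)}

variable {U U₁ U₂ : Type} [Fintype U] [Fintype U₁] [Fintype U₂] {K : Type} [CommRing K]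

/-- The determinant of the (odd rows, even columns) part of `M`, relative to a bijection `β`
between the odd and the even basis elements. -/
noncomputable def detb {dg : U → ℤ} (β : Od dg ≃ Ev dg) (M : Matrix U U K) : K :=
  Matrix.det (Matrix.of fun o o' : Od dg => M o.1 (β o').1)

/-- `h` is a contraction of the based complex `d`: it raises the degree by one and
`d h + h d = 1`. -/
def Contr (dg : U → ℤ) (d h : Matrix U U K) : Prop :=
  (∀ s r, dg r ≠ dg s + 1 → h s r = 0) ∧ d * h + h * d = 1

/-- `d` is an exact based complex: it lowers the degree by one, squares to zero and has a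
contraction. -/
def Cx (dg : U → ℤ) (d : Matrix U U K) : Prop :=
  (∀ s r, dg r + 1 ≠ dg s → d s r = 0) ∧ d * d = 0 ∧ ∃ h, Contr dg d h

/-- A chosen contraction of `d` (if there is one). -/
noncomputable def ctr (dg : U → ℤ) (d : Matrix U U K) : Matrix U U K :=
  Classical.epsilon (Contr dg d)

/-- The permutation matrix of the bijection `β` from odd to even basis elements. -/
noncomputable def permM (K : Type) [CommRing K] {dg : U → ℤ} (β : Od dg ≃ Ev dg) :
    Matrix U U K :=
  Matrix.of fun s r => if ∃ h : Odd (dg s), (β ⟨s, h⟩).1 = r then 1 else 0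

/-- Let `U = U₁ ⊔ U₂` (through `e`), let `β₁`, `β` pair the odd and even elements of `U₁`, `U`, and
let `d` be an exact complex on `U₂`.  The transition scalar is the determinant of
`β₁ ⊕ (d + h) : odd → even` relative to `β`, with `h` a contraction of `d`: it compares the
generator `β₁` of `det U₁`, times the canonical trivialisation of the determinant of the exact
complex `U₂`, with the generator `β` of `det U`. -/
noncomputable def relTors (e : U₁ ⊕ U₂ ≃ U) {dg₁ : U₁ → ℤ} (dg₂ : U₂ → ℤ) {dg : U → ℤ}
    (β₁ : Od dg₁ ≃ Ev dg₁) (β : Od dg ≃ Ev dg) (d : Matrix U₂ U₂ K) : K :=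
  detb β (Matrix.reindex e e (Matrix.fromBlocks (permM K β₁) 0 0 (d + ctr dg₂ d)))

end Pool.Agent.P.MP_932208_ag.Ax
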