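import Pool.Agent.P.MP_932208_ag.Ex.TorsD

/-!
Basic properties of the torsion.
-/

namespace Pool.Agent.P.MP_932208_ag.Ax

open Classical

variable {U U₁ U₂ : Type} [Fintype U] [Fintype U₁] [Fintype U₂] {K K' : Type} [CommRing K]
  [CommRing K']

namespace TorsL

section Supp
variable {X Y T : Type} {a : X → ℤ} {b : Y → ℤ} {c : T → ℤ}

/-- `M` is supported on pairs of degrees related by `R`. -/
def Z (R : ℤ → ℤ → Prop) (a : X → ℤ) (b : Y → ℤ) (M : Matrix X Y K) : Prop :=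
  ∀ s r, ¬ R (a s) (b r) → M s r = 0

theorem Z.mul [Fintype Y] {R S P : ℤ → ℤ → Prop} {M : Matrix X Y K} {N : Matrix Y T K}
    (hM : Z R a b M) (hN : Z S b c N) (h : ∀ x y z, R x y → S y z → P x z) :
    Z P a c (M * N) := by
  intro s r hp
  rw [Matrix.mul_apply]
  refine Finset.sum_eq_zero fun t _ => ?_
  by_cases h1 : R (a s) (b t)
  · rw [hN t r fun h2 => hp (h _ _ _ h1 h2), mul_zero]
  · rw [hM s t h1, zero_mul]

theorem Z.mono {R P : ℤ → ℤ → Prop} {M : Matrix X Y K} (hM : Z R a b M)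
    (h : ∀ x y, R x y → P x y) : Z P a b M := fun s r hp => hM s r fun h1 => hp (h _ _ h1)

theorem Z.add {R : ℤ → ℤ → Prop} {M N : Matrix X Y K} (hM : Z R a b M) (hN : Z R a b N) :
    Z R a b (M + N) := fun s r hp => by rw [Matrix.add_apply, hM s r hp, hN s r hp, add_zero]

theorem Z.neg {R : ℤ → ℤ → Prop} {M : Matrix X Y K} (hM : Z R a b M) :
    Z R a b (-M) := fun s r hp => by rw [Matrix.neg_apply, hM s r hp, neg_zero]

theorem Z.sub {R : ℤ → ℤ → Prop} {M N : Matrix X Y K} (hM : Z R a b M) (hN : Z R a b N) :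
    Z R a b (M - N) := fun s r hp => by rw [Matrix.sub_apply, hM s r hp, hN s r hp, sub_zero]

theorem Z.zero (R : ℤ → ℤ → Prop) : Z R a b (0 : Matrix X Y K) := fun _ _ _ => rfl

theorem Z.one [DecidableEq X] {R : ℤ → ℤ → Prop} (h : ∀ x, R x x) :
    Z R a a (1 : Matrix X X K) :=
  fun _ _ hp => Matrix.one_apply_ne fun e => hp (e ▸ h _)

/-- Unitriangular matrices have determinant one. -/
theorem det_uni [Fintype X] [DecidableEq X] {N : Matrix X X K}
    (h : ∀ s r, ¬ a s < a r → N s r = (1 : Matrix X X K) s r) : N.det = 1 := by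
  have hb : N.BlockTriangular a := fun s r hl => by
    rw [h s r (by omega)]
    exact Matrix.one_apply_ne fun e => by rw [e] at hl; omega
  rw [hb.det]
  refine Finset.prod_eq_one fun k _ => ?_
  have : N.toSquareBlock a k = 1 := by
    ext s r
    have h1 := h s.1 r.1 (by rw [s.2, r.2]; omega)
    simp only [Matrix.toSquareBlock_def, Matrix.of_apply, h1, Matrix.one_apply, Subtype.ext_iff]
  rw [this, Matrix.det_one]

end Supp

theorem ring_id {R : Type*} [Ring R] {d h k : R} (e1 : d * d = 0) (e2 : d * h + h * d = 1)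
    (e3 : d * (h + k) + (h + k) * d = 1) : (d + h) * (1 + h * k) * (d + (h + k)) =
      1 + ((h + k) * (h + k) + h * k + h * k * ((h + k) * (h + k)) +
        (h * (h * k) - h * k * (h + k)) * (d + (h + k))) := by
  have e4 : k * d = -(d * k) := by
    have : d * h + h * d + (d * k + k * d) = d * h + h * d := by
      rw [show d * h + h * d + (d * k + k * d) = d * (h + k) + (h + k) * d by noncomm_ring, e3, e2]
    exact eq_neg_of_add_eq_zero_right (add_eq_left.1 this)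
  have e5 : d * (h * k) = h * k * d + k := by
    have : d * (h * k) = (d * h + h * d) * k + h * -(d * k) := by noncomm_ring
    rw [this, e2, ← e4, one_mul, mul_assoc, add_comm]
  have e6 : (d + h) * (1 + h * k) =
      (1 + h * k) * (d + (h + k)) + (h * (h * k) - h * k * (h + k)) := by
    rw [add_mul, mul_add d, e5]
    noncomm_ring
  have e7 : (d + (h + k)) * (d + (h + k)) = 1 + (h + k) * (h + k) := by
    rw [← e3, show (d + (h + k)) * (d + (h + k)) =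
      d * d + (d * (h + k) + (h + k) * d + (h + k) * (h + k)) by noncomm_ring, e1, zero_add]
  rw [e6, add_mul, mul_assoc, e7]
  noncomm_ring

variable {dg : U → ℤ} {dg₁ : U₁ → ℤ} {dg₂ : U₂ → ℤ}

theorem sum_split (β : Od dg ≃ Ev dg) (f : U → K) :
    ∑ s, f s = ∑ o : Od dg, f o.1 + ∑ o : Od dg, f (β o).1 := by
  rw [← Fintype.sum_subtype_add_sum_subtype (fun s => Odd (dg s)) f]
  congr 1
  rw [Equiv.sum_comp β fun x : Ev dg => f x.1]
  exact Equiv.sum_comp (Equiv.subtypeEquivRight fun s => Int.not_odd_iff_even)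
    fun x : Ev dg => f x.1

/-- Determinant of the odd part. -/
noncomputable def doo (dg : U → ℤ) (M : Matrix U U K) : K :=
  Matrix.det (Matrix.of fun o o' : Od dg => M o.1 o'.1)

theorem detb_congr (β : Od dg ≃ Ev dg) {M N : Matrix U U K}
    (h : ∀ s r, Even (dg r) → M s r = N s r) : detb β M = detb β N := by
  unfold detb
  congr 1
  ext o o'
  exact h _ _ (β o').2

theorem map_detb (β : Od dg ≃ Ev dg) (M : Matrix U U K) (g : K →+* K') :
    g (detb β M) = detb β (M.map g) := by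
  unfold detb
  rw [RingHom.map_det]
  rfl

theorem detb_mul_left (β : Od dg ≃ Ev dg) {L : Matrix U U K} (M : Matrix U U K)
    (hL : Z (fun x y => ¬ (Odd x ∧ Even y)) dg dg L) :
    detb β (L * M) = doo dg L * detb β M := by
  unfold detb doo
  rw [← Matrix.det_mul]
  congr 1
  ext o o'
  simp only [Matrix.of_apply, Matrix.mul_apply]
  rw [sum_split β, add_eq_left]
  exact Finset.sum_eq_zero fun t _ => by rw [hL _ _ fun h => h ⟨o.2, (β t).2⟩, zero_mul]

theorem key (β : Od dg ≃ Ev dg) {M L M' : Matrix U U K}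
    (hM : Z (fun x y => ¬ (Odd x ∧ Odd y)) dg dg M)
    (hL : Z (fun x y => ¬ (Even x ∧ Odd y)) dg dg L)
    (hL1 : ∀ s r, ¬ dg s < dg r → L s r = (1 : Matrix U U K) s r)
    (h : ∀ s r, Odd (dg s) → Odd (dg r) → ¬ dg s < dg r →
      (M * L * M') s r = (1 : Matrix U U K) s r) :
    detb β M * Matrix.det (Matrix.of fun o o' : Od dg => M' (β o).1 o'.1) = 1 := by
  have h1 : Matrix.det (Matrix.of fun o o' : Od dg => L (β o).1 (β o').1) = 1 :=
    det_uni (a := fun o : Od dg => dg (β o).1) fun s r hl => by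
      simp only [Matrix.of_apply, hL1 _ _ hl, Matrix.one_apply, ← Subtype.ext_iff,
        β.apply_eq_iff_eq]
  have h2 : doo dg (M * L * M') = 1 :=
    det_uni (a := fun o : Od dg => dg o.1) fun s r hl => by
      simp only [Matrix.of_apply, h _ _ s.2 r.2 hl, Matrix.one_apply, ← Subtype.ext_iff]
  rw [← h2, ← mul_one (detb β M), ← h1]
  unfold detb doo
  rw [← Matrix.det_mul, ← Matrix.det_mul]
  congr 1
  ext o o'
  simp only [Matrix.of_apply]
  rw [Matrix.mul_apply, Matrix.mul_apply, sum_split β]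
  have h3 : ∀ t : U, (M * L) o.1 t = ∑ x : Od dg, M o.1 (β x).1 * L (β x).1 t := fun t => by
    rw [Matrix.mul_apply, sum_split β, add_eq_right]
    exact Finset.sum_eq_zero fun x _ => by rw [hM _ _ fun h => h ⟨o.2, x.2⟩, zero_mul]
  have h4 : ∑ t : Od dg, (M * L) o.1 t.1 * M' t.1 o'.1 = 0 :=
    Finset.sum_eq_zero fun t _ => by
      rw [h3, Finset.sum_eq_zero fun x _ => by rw [hL _ _ fun h => h ⟨(β x).2, t.2⟩, mul_zero],
        zero_mul]
  rw [h4, zero_add]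
  refine Finset.sum_congr rfl fun t _ => ?_
  rw [h3, Matrix.mul_apply]
  rfl

omit [Fintype U] in
theorem one_add_apply {w : Matrix U U K} (hw : Z (· < ·) dg dg w) (s r : U) (h : ¬ dg s < dg r) :
    (1 + w) s r = (1 : Matrix U U K) s r := by rw [Matrix.add_apply, hw s r h, add_zero]

theorem cx_z {d : Matrix U U K} (hd : Cx dg d) : Z (fun x y => y + 1 = x) dg dg d := hd.1

theorem contr_z {d h : Matrix U U K} (hh : Contr dg d h) : Z (fun x y => y = x + 1) dg dg h := hh.1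

theorem z_add {d h : Matrix U U K} (hd : Cx dg d) (hh : Contr dg d h) :
    Z (fun x y => ¬ (Odd x ∧ Odd y)) dg dg (d + h) :=
  ((cx_z hd).mono fun x y h => by simp only [Int.odd_iff]; omega).add
    ((contr_z hh).mono fun x y h => by simp only [Int.odd_iff]; omega)

/-- Two contractions are related by unipotent matrices. -/
theorem two_contr {d h h' : Matrix U U K} (hd : Cx dg d) (hh : Contr dg d h)
    (hh' : Contr dg d h') : ∃ w v : Matrix U U K, Z (· < ·) dg dg w ∧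
      Z (fun x y => ¬ (Even x ∧ Odd y)) dg dg (1 + w) ∧
      Z (· < ·) dg dg v ∧ (d + h) * (1 + w) * (d + h') = 1 + v := by
  obtain ⟨k, rfl⟩ : ∃ k, h' = h + k := ⟨h' - h, by abel⟩
  have hk : Z (fun x y => y = x + 1) dg dg k := by
    simpa only [add_sub_cancel_left] using (contr_z hh').sub (contr_z hh)
  have hw : Z (fun x y => y = x + 2) dg dg (h * k) :=
    (contr_z hh).mul hk fun x y z h1 h2 => by omega
  have hz : Z (fun x y => y = x + 3) dg dg (h * (h * k) - h * k * (h + k)) :=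
    ((contr_z hh).mul hw fun x y z h1 h2 => by omega).sub
      (hw.mul (contr_z hh') fun x y z h1 h2 => by omega)
  have h2 : Z (· < ·) dg dg ((h + k) * (h + k)) :=
    (contr_z hh').mul (contr_z hh') fun x y z h1 h2 => by omega
  have hw' : Z (· < ·) dg dg (h * k) := hw.mono fun x y h => by omega
  exact ⟨_, _, hw', (Z.one fun x => by simp only [Int.odd_iff, Int.even_iff]; omega).add
      (hw.mono fun x y h => by simp only [Int.odd_iff, Int.even_iff]; omega), ((h2.add hw').add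
      (hw'.mul h2 fun x y z h1 h2 => by omega)).add (hz.mul (S := fun x y => x ≤ y + 1)
      (((cx_z hd).mono fun x y h => by omega).add ((contr_z hh').mono fun x y h => by omega))
      fun x y z h1 h2 => by omega), ring_id hd.2.1 hh.2 hh'.2⟩

theorem tors_key (β : Od dg ≃ Ev dg) {d h h' : Matrix U U K} (hd : Cx dg d) (hh : Contr dg d h)
    (hh' : Contr dg d h') :
    detb β (d + h) * Matrix.det (Matrix.of fun o o' : Od dg => (d + h') (β o).1 o'.1) = 1 := by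
  obtain ⟨w, v, h1, h2, h3, h4⟩ := two_contr hd hh hh'
  exact key β (z_add hd hh) h2 (one_add_apply h1) fun s r _ _ hl => by
    rw [h4, one_add_apply h3 s r hl]

theorem cancel {x y z : K} (h : x * z = 1) (h' : y * z = 1) : x = y := by
  rw [← mul_one x, ← h', mul_left_comm, h, mul_one]

theorem contr_map {d h : Matrix U U K} (hh : Contr dg d h) (g : K →+* K') :
    Contr dg (d.map g) (h.map g) := by
  refine ⟨fun s r hs => by rw [Matrix.map_apply, hh.1 s r hs, map_zero], ?_⟩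
  have := congrArg g.mapMatrix hh.2
  rwa [map_add, map_mul, map_mul, map_one] at this

/-- Lower block triangular matrices. -/
def blk (e : U₁ ⊕ U₂ ≃ U) (A : Matrix U₁ U₁ K) (C : Matrix U₂ U₁ K) (D : Matrix U₂ U₂ K) :
    Matrix U U K := Matrix.reindex e e (Matrix.fromBlocks A 0 C D)

section Blk
variable (e : U₁ ⊕ U₂ ≃ U) (A A' : Matrix U₁ U₁ K) (C C' : Matrix U₂ U₁ K) (D D' : Matrix U₂ U₂ K)

omit [Fintype U] [Fintype U₁] [Fintype U₂] in
theorem blk_apply (s r : U₁ ⊕ U₂) : blk e A C D (e s) (e r) = Matrix.fromBlocks A 0 C D s r := by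
  simp [blk]

theorem blk_mul : blk e A C D * blk e A' C' D' = blk e (A * A') (C * A' + D * C') (D * D') := by
  simp only [blk, Matrix.reindex_apply, Matrix.submatrix_mul_equiv, Matrix.fromBlocks_multiply,
    Matrix.mul_zero, Matrix.zero_mul, add_zero, zero_add]

omit [Fintype U] [Fintype U₁] [Fintype U₂] [CommRing K] in
theorem blk_ext {M N : Matrix U U K} (h : ∀ s r, M (e s) (e r) = N (e s) (e r)) : M = N := by
  ext s r
  obtain ⟨s, rfl⟩ := e.surjective s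
  obtain ⟨r, rfl⟩ := e.surjective r
  exact h s r

omit [Fintype U] [Fintype U₁] [Fintype U₂] in
theorem blk_add : blk e A C D + blk e A' C' D' = blk e (A + A') (C + C') (D + D') :=
  blk_ext e fun s r => by
    rw [Matrix.add_apply, blk_apply, blk_apply, blk_apply]
    rcases s with s | s <;> rcases r with r | r <;> simp

omit [Fintype U] [Fintype U₁] [Fintype U₂] in
theorem blk_one : blk e (1 : Matrix U₁ U₁ K) 0 1 = 1 :=
  blk_ext e fun s r => by
    rw [blk_apply]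
    rcases s with s | s <;> rcases r with r | r <;> simp [Matrix.one_apply]

omit [Fintype U] [Fintype U₁] [Fintype U₂] in
theorem blk_map (g : K →+* K') :
    (blk e A C D).map g = blk e (A.map g) (C.map g) (D.map g) :=
  blk_ext e fun s r => by
    rw [Matrix.map_apply, blk_apply, blk_apply]
    rcases s with s | s <;> rcases r with r | r <;> simp

omit [Fintype U] [Fintype U₁] [Fintype U₂] in
theorem eq_blk {d : Matrix U U K} (htri : ∀ s r, d (e (Sum.inl s)) (e (Sum.inr r)) = 0) :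
    d = blk e (d.submatrix (e ∘ Sum.inl) (e ∘ Sum.inl)) (d.submatrix (e ∘ Sum.inr) (e ∘ Sum.inl))
      (d.submatrix (e ∘ Sum.inr) (e ∘ Sum.inr)) :=
  blk_ext e fun s r => by
    rw [blk_apply]
    rcases s with s | s <;> rcases r with r | r <;> simp [htri]

variable {e A C D}

omit [Fintype U] [Fintype U₁] [Fintype U₂] in
theorem blk_z (h₁ : ∀ s, dg (e (Sum.inl s)) = dg₁ s) (h₂ : ∀ s, dg (e (Sum.inr s)) = dg₂ s)
    {R : ℤ → ℤ → Prop} (hA : Z R dg₁ dg₁ A) (hC : Z R dg₂ dg₁ C) (hD : Z R dg₂ dg₂ D) :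
    Z R dg dg (blk e A C D) := by
  intro s r h
  obtain ⟨s, rfl⟩ := e.surjective s
  obtain ⟨r, rfl⟩ := e.surjective r
  rw [blk_apply]
  rcases s with s | s <;> rcases r with r | r <;> simp only [h₁, h₂] at h
  · exact hA s r h
  · rfl
  · exact hC s r h
  · exact hD s r h

theorem doo_blk (h₁ : ∀ s, dg (e (Sum.inl s)) = dg₁ s) (h₂ : ∀ s, dg (e (Sum.inr s)) = dg₂ s) :
    doo dg (blk e A C 1) = doo dg₁ A := by
  let f : Od dg₁ ⊕ Od dg₂ → Od dg := Sum.elim (fun o => ⟨e (Sum.inl o.1), (h₁ _).symm ▸ o.2⟩)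
    fun o => ⟨e (Sum.inr o.1), (h₂ _).symm ▸ o.2⟩
  have hf : Function.Bijective f := by
    constructor
    · rintro (s | s) (r | r) h <;> simpa [f, Subtype.ext_iff] using h
    · rintro ⟨s, hs⟩
      obtain ⟨s | s, rfl⟩ := e.surjective s
      · exact ⟨Sum.inl ⟨s, h₁ s ▸ hs⟩, rfl⟩
      · exact ⟨Sum.inr ⟨s, h₂ s ▸ hs⟩, rfl⟩
  unfold doo
  rw [← Matrix.det_submatrix_equiv_self (Equiv.ofBijective f hf)]
  have : (Matrix.of fun o o' : Od dg => blk e A C 1 o.1 o'.1).submatrix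
      (Equiv.ofBijective f hf) (Equiv.ofBijective f hf) =
      Matrix.fromBlocks (Matrix.of fun o o' : Od dg₁ => A o.1 o'.1) 0
        (Matrix.of fun (o : Od dg₂) (o' : Od dg₁) => C o.1 o'.1) 1 := by
    ext (s | s) (r | r) <;> simp [f, blk_apply, Matrix.one_apply, Subtype.ext_iff]
  rw [this, Matrix.det_fromBlocks_zero₁₂, Matrix.det_one, mul_one]

end Blk

omit [Fintype U] in
theorem permM_odd (β : Od dg ≃ Ev dg) (o : Od dg) (r : U) :
    permM K β o.1 r = if (β o).1 = r then 1 else 0 := by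
  simp [permM, o.2]

omit [Fintype U] in
theorem permM_z (β : Od dg ≃ Ev dg) : Z (fun x y => Odd x ∧ Even y) dg dg (permM K β) := by
  intro s r h
  simp only [permM, Matrix.of_apply]
  exact if_neg fun ⟨h1, h2⟩ => h ⟨h1, h2 ▸ (β ⟨s, h1⟩).2⟩

omit [Fintype U] in
theorem permM_zt (β : Od dg ≃ Ev dg) :
    Z (fun x y => Even x ∧ Odd y) dg dg (permM K β).transpose :=
  fun s r h => permM_z β r s fun h1 => h h1.symm

theorem mul_permM_t {X : Type} (β : Od dg ≃ Ev dg) (A : Matrix X U K) (s : X) (o : Od dg) :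
    (A * (permM K β).transpose) s o.1 = A s (β o).1 := by
  simp [Matrix.mul_apply, permM_odd]

theorem mul_permM {X : Type} (β : Od dg ≃ Ev dg) (A : Matrix X U K) (s : X) (o : Od dg) :
    (A * permM K β) s (β o).1 = A s o.1 := by
  rw [Matrix.mul_apply, Finset.sum_eq_single o.1]
  · simp [permM_odd]
  · intro t _ ht
    simp only [permM, Matrix.of_apply]
    rw [if_neg, mul_zero]
    rintro ⟨h1, h2⟩
    exact ht (congrArg Subtype.val (β.injective (Subtype.ext h2)))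
  · simp

theorem mul_tp {X : Type} (β : Od dg ≃ Ev dg) (A : Matrix X U K) (s : X) {r : U}
    (hr : Even (dg r)) : (A * (permM K β).transpose * permM K β) s r = A s r := by
  obtain ⟨o, ho⟩ := β.surjective ⟨r, hr⟩
  obtain rfl : (β o).1 = r := congrArg Subtype.val ho
  rw [mul_permM, mul_permM_t]

omit [Fintype U] in
theorem permM_map (β : Od dg ≃ Ev dg) (g : K →+* K') : (permM K β).map g = permM K' β := by
  ext s r
  simp only [permM, Matrix.map_apply, Matrix.of_apply]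
  split_ifs <;> simp

/-- The determinant of a block triangular matrix. -/
theorem detb_blk {e : U₁ ⊕ U₂ ≃ U} (h₁ : ∀ s, dg (e (Sum.inl s)) = dg₁ s)
    (h₂ : ∀ s, dg (e (Sum.inr s)) = dg₂ s) (β₁ : Od dg₁ ≃ Ev dg₁) (β : Od dg ≃ Ev dg)
    (A : Matrix U₁ U₁ K) (C : Matrix U₂ U₁ K) (D : Matrix U₂ U₂ K) :
    detb β (blk e A C D) = detb β₁ A * detb β (blk e (permM K β₁) 0 D) := by
  have h0 : ∀ x y z : ℤ, True → Even y ∧ Odd z → ¬ (Odd x ∧ Even z) := fun x y z _ h => by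
    simp only [Int.odd_iff, Int.even_iff] at h ⊢
    omega
  have h3 : Z (fun x y => ¬ (Odd x ∧ Even y)) dg dg
      (blk e (A * (permM K β₁).transpose) (C * (permM K β₁).transpose) 1) :=
    blk_z h₁ h₂ (Z.mul (fun _ _ h => (h trivial).elim) (permM_zt β₁) h0)
      (Z.mul (fun _ _ h => (h trivial).elim) (permM_zt β₁) h0)
      (Z.one fun x => by simp only [Int.odd_iff, Int.even_iff]; omega)
  have h4 : doo dg₁ (A * (permM K β₁).transpose) = detb β₁ A := by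
    simp only [doo, detb, mul_permM_t]
  rw [← h4, ← doo_blk (C := C * (permM K β₁).transpose) h₁ h₂, ← detb_mul_left β _ h3, blk_mul]
  refine detb_congr β fun s r hr => ?_
  obtain ⟨s, rfl⟩ := e.surjective s
  obtain ⟨r, rfl⟩ := e.surjective r
  rw [blk_apply, blk_apply]
  rcases s with s | s <;> rcases r with r | r <;> simp only [h₁, h₂] at hr
  · simp [mul_tp β₁ _ _ hr]
  · simp
  · simp [mul_tp β₁ _ _ hr]
  · simp

theorem rel_key {e : U₁ ⊕ U₂ ≃ U} (h₁ : ∀ s, dg (e (Sum.inl s)) = dg₁ s)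
    (h₂ : ∀ s, dg (e (Sum.inr s)) = dg₂ s) (β₁ : Od dg₁ ≃ Ev dg₁) (β : Od dg ≃ Ev dg)
    {d h h' : Matrix U₂ U₂ K} (hd : Cx dg₂ d) (hh : Contr dg₂ d h) (hh' : Contr dg₂ d h') :
    detb β (blk e (permM K β₁) 0 (d + h)) * Matrix.det (Matrix.of fun o o' : Od dg =>
      blk e (permM K β₁).transpose 0 (d + h') (β o).1 o'.1) = 1 := by
  obtain ⟨w, v, h1, h2, h3, h4⟩ := two_contr hd hh hh'
  refine key β (L := blk e 1 0 (1 + w)) (blk_z h₁ h₂ ((permM_z β₁).mono fun x y h => by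
    simp only [Int.odd_iff, Int.even_iff] at h ⊢; omega) (Z.zero _) (z_add hd hh))
    (blk_z h₁ h₂ (Z.one fun x => by simp only [Int.odd_iff, Int.even_iff]; omega) (Z.zero _) h2)
    (fun s r hl => ?_) fun s r hs hr hl => ?_
  · have h5 := blk_add e 1 0 0 0 1 w
    rw [add_zero, add_zero, blk_one] at h5
    rw [← h5]
    exact one_add_apply (blk_z h₁ h₂ (Z.zero _) (Z.zero _) h1) s r hl
  · rw [blk_mul, blk_mul, h4, ← blk_one e]
    obtain ⟨s, rfl⟩ := e.surjective s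
    obtain ⟨r, rfl⟩ := e.surjective r
    rw [blk_apply, blk_apply]
    rcases s with s | s <;> rcases r with r | r <;> simp only [h₁, h₂] at hs hr hl
    · have h5 := mul_permM_t β₁ (permM K β₁) s ⟨r, hr⟩
      have h6 := permM_odd (K := K) β₁ ⟨s, hs⟩ (β₁ ⟨r, hr⟩).1
      simp only [← Subtype.ext_iff, β₁.apply_eq_iff_eq, Subtype.mk.injEq] at h6
      simp only [Matrix.fromBlocks_apply₁₁, Matrix.mul_one, h5, h6, Matrix.one_apply]
    · rfl
    · simp
    · exact one_add_apply h3 s r hl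

/-- A block triangular contraction. -/
theorem contr_blk {e : U₁ ⊕ U₂ ≃ U} (h₁ : ∀ s, dg (e (Sum.inl s)) = dg₁ s)
    (h₂ : ∀ s, dg (e (Sum.inr s)) = dg₂ s) {d : Matrix U U K}
    (hg : ∀ s r, dg r + 1 ≠ dg s → d s r = 0) (hdd : d * d = 0)
    (htri : ∀ s r, d (e (Sum.inl s)) (e (Sum.inr r)) = 0) {k₁ : Matrix U₁ U₁ K}
    {k₂ : Matrix U₂ U₂ K} (hk₁ : Contr dg₁ (d.submatrix (e ∘ Sum.inl) (e ∘ Sum.inl)) k₁)
    (hk₂ : Contr dg₂ (d.submatrix (e ∘ Sum.inr) (e ∘ Sum.inr)) k₂) :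
    ∃ z, Contr dg d (blk e k₁ z k₂) := by
  have hc : Z (fun x y => y + 1 = x) dg₂ dg₁ (d.submatrix (e ∘ Sum.inr) (e ∘ Sum.inl)) :=
    fun s r h => hg _ _ (by simpa only [Function.comp, h₁, h₂] using h)
  have hd := eq_blk e htri
  generalize d.submatrix (e ∘ Sum.inl) (e ∘ Sum.inl) = d₁ at hd hk₁
  generalize d.submatrix (e ∘ Sum.inr) (e ∘ Sum.inr) = d₂ at hd hk₂
  generalize d.submatrix (e ∘ Sum.inr) (e ∘ Sum.inl) = c at hd hc
  subst hd
  have h3 : c * d₁ + d₂ * c = 0 := by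
    ext s r
    have := congrFun (congrFun hdd (e (Sum.inr s))) (e (Sum.inl r))
    rwa [blk_mul, blk_apply] at this
  have hx : Z (fun x y => y = x) dg₂ dg₁ (c * k₁ + k₂ * c) :=
    (hc.mul (contr_z hk₁) fun x y z h1 h2 => by omega).add
      ((contr_z hk₂).mul hc fun x y z h1 h2 => by omega)
  refine ⟨-(k₂ * (c * k₁ + k₂ * c)), blk_z (R := fun x y => y = x + 1) h₁ h₂ (contr_z hk₁)
    ((contr_z hk₂).mul hx fun x y z h1 h2 => by omega).neg (contr_z hk₂), ?_⟩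
  have h4 : (c * k₁ + k₂ * c) * d₁ = d₂ * (c * k₁ + k₂ * c) := by
    have h5 : c * d₁ = -(d₂ * c) := eq_neg_of_add_eq_zero_left h3
    have h6 : d₂ * c = -(c * d₁) := eq_neg_of_add_eq_zero_right h3
    have h7 : c * (d₁ * k₁ + k₁ * d₁) = (d₂ * k₂ + k₂ * d₂) * c := by
      rw [hk₁.2, hk₂.2, Matrix.mul_one, Matrix.one_mul]
    rw [Matrix.add_mul, Matrix.mul_add, Matrix.mul_assoc k₂, h5, ← Matrix.mul_assoc d₂ c, h6]
    rw [Matrix.mul_add, Matrix.add_mul, Matrix.mul_assoc k₂, h6] at h7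
    simp only [Matrix.mul_neg, Matrix.neg_mul, Matrix.mul_assoc, neg_neg] at h7 ⊢
    rw [← sub_eq_zero] at h7 ⊢
    rw [← h7]
    abel
  have h5 : c * k₁ + d₂ * -(k₂ * (c * k₁ + k₂ * c)) +
      (-(k₂ * (c * k₁ + k₂ * c)) * d₁ + k₂ * c) = 0 := by
    have h6 : (d₂ * k₂ + k₂ * d₂) * (c * k₁ + k₂ * c) = c * k₁ + k₂ * c := by
      rw [hk₂.2, Matrix.one_mul]
    rw [Matrix.neg_mul, Matrix.mul_assoc k₂, h4, Matrix.mul_neg]
    rw [Matrix.add_mul, Matrix.mul_assoc, Matrix.mul_assoc] at h6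
    rw [← sub_eq_zero] at h6
    rw [← neg_eq_zero, ← h6]
    abel
  rw [blk_mul, blk_mul, blk_add, hk₁.2, hk₂.2, h5, blk_one]

end TorsL

open TorsL

/-- The absolute torsion of an exact based complex. -/
noncomputable def tors {dg : U → ℤ} (β : Od dg ≃ Ev dg) (d : Matrix U U K) : K :=
  detb β (d + ctr dg d)

theorem Cx.contr {dg : U → ℤ} {d : Matrix U U K} (hd : Cx dg d) : Contr dg d (ctr dg d) :=
  Classical.epsilon_spec hd.2.2

theorem Cx.map {dg : U → ℤ} {d : Matrix U U K} (hd : Cx dg d) (g : K →+* K') :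
    Cx dg (d.map g) := by
  refine ⟨fun s r hs => by rw [Matrix.map_apply, hd.1 s r hs, map_zero], ?_,
    _, contr_map hd.contr g⟩
  have := congrArg g.mapMatrix hd.2.1
  rwa [map_mul, map_zero] at this

/-- Independence of the contraction. -/
theorem tors_eq {dg : U → ℤ} (β : Od dg ≃ Ev dg) {d h : Matrix U U K} (hd : Cx dg d)
    (hh : Contr dg d h) : tors β d = detb β (d + h) := by
  exact cancel (tors_key β hd hd.contr hh) (tors_key β hd hh hh)

theorem isUnit_tors {dg : U → ℤ} (β : Od dg ≃ Ev dg) {d : Matrix U U K} (hd : Cx dg d) :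
    IsUnit (tors β d) := by
  exact IsUnit.of_mul_eq_one _ (tors_key β hd hd.contr hd.contr)

theorem map_tors {dg : U → ℤ} (β : Od dg ≃ Ev dg) {d : Matrix U U K} (hd : Cx dg d)
    (g : K →+* K') : g (tors β d) = tors β (d.map g) := by
  rw [tors_eq β (hd.map g) (contr_map hd.contr g), tors, map_detb, Matrix.map_add _ (map_add g)]

/-- Independence of the contraction, relative form. -/
theorem relTors_eq (e : U₁ ⊕ U₂ ≃ U) {dg₁ : U₁ → ℤ} {dg₂ : U₂ → ℤ} {dg : U → ℤ}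
    (h₁ : ∀ s, dg (e (Sum.inl s)) = dg₁ s) (h₂ : ∀ s, dg (e (Sum.inr s)) = dg₂ s)
    (β₁ : Od dg₁ ≃ Ev dg₁) (β : Od dg ≃ Ev dg) {d h : Matrix U₂ U₂ K} (hd : Cx dg₂ d)
    (hh : Contr dg₂ d h) : relTors e dg₂ β₁ β d =
      detb β (Matrix.reindex e e (Matrix.fromBlocks (permM K β₁) 0 0 (d + h))) := by
  exact cancel (rel_key h₁ h₂ β₁ β hd hd.contr hh) (rel_key h₁ h₂ β₁ β hd hh hh)

theorem map_relTors (e : U₁ ⊕ U₂ ≃ U) {dg₁ : U₁ → ℤ} {dg₂ : U₂ → ℤ} {dg : U → ℤ}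
    (h₁ : ∀ s, dg (e (Sum.inl s)) = dg₁ s) (h₂ : ∀ s, dg (e (Sum.inr s)) = dg₂ s)
    (β₁ : Od dg₁ ≃ Ev dg₁) (β : Od dg ≃ Ev dg) {d : Matrix U₂ U₂ K} (hd : Cx dg₂ d)
    (g : K →+* K') : g (relTors e dg₂ β₁ β d) = relTors e dg₂ β₁ β (d.map g) := by
  rw [relTors_eq e h₁ h₂ β₁ β (hd.map g) (contr_map hd.contr g), relTors, map_detb]
  congr 1
  refine (blk_map e _ 0 _ g).trans ?_
  rw [permM_map, Matrix.map_add _ (map_add g), Matrix.map_zero _ (map_zero g)]
  rfl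

theorem relTors_empty [IsEmpty U₂] (e : U ⊕ U₂ ≃ U) (he : ∀ s, e (Sum.inl s) = s)
    (dg₂ : U₂ → ℤ) {dg : U → ℤ} (β : Od dg ≃ Ev dg) (d : Matrix U₂ U₂ K) :
    relTors e dg₂ β β d = 1 := by
  have h : (Matrix.of fun o o' : Od dg => blk e (permM K β) 0 (d + ctr dg₂ d) o.1 (β o').1) = 1 := by
    ext o o'
    rw [Matrix.of_apply, ← he o.1, ← he (β o').1, blk_apply, Matrix.fromBlocks_apply₁₁, permM_odd]
    simp only [← Subtype.ext_iff, β.apply_eq_iff_eq, Matrix.one_apply]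
  exact (congrArg Matrix.det h).trans Matrix.det_one

/-- An extension of exact complexes is exact. -/
theorem Cx.of_blocks (e : U₁ ⊕ U₂ ≃ U) {dg₁ : U₁ → ℤ} {dg₂ : U₂ → ℤ} {dg : U → ℤ}
    (h₁ : ∀ s, dg (e (Sum.inl s)) = dg₁ s) (h₂ : ∀ s, dg (e (Sum.inr s)) = dg₂ s)
    {d : Matrix U U K} (hg : ∀ s r, dg r + 1 ≠ dg s → d s r = 0) (hdd : d * d = 0)
    (htri : ∀ s r, d (e (Sum.inl s)) (e (Sum.inr r)) = 0)
    (hd₁ : Cx dg₁ (d.submatrix (e ∘ Sum.inl) (e ∘ Sum.inl)))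
    (hd₂ : Cx dg₂ (d.submatrix (e ∘ Sum.inr) (e ∘ Sum.inr))) : Cx dg d := by
  obtain ⟨z, hz⟩ := contr_blk h₁ h₂ hg hdd htri hd₁.contr hd₂.contr
  exact ⟨hg, hdd, _, hz⟩

/-- Multiplicativity of the torsion for a subcomplex. -/
theorem tors_blocks (e : U₁ ⊕ U₂ ≃ U) {dg₁ : U₁ → ℤ} {dg₂ : U₂ → ℤ} {dg : U → ℤ}
    (h₁ : ∀ s, dg (e (Sum.inl s)) = dg₁ s) (h₂ : ∀ s, dg (e (Sum.inr s)) = dg₂ s)
    (β₁ : Od dg₁ ≃ Ev dg₁) (β : Od dg ≃ Ev dg) {d : Matrix U U K} (hd : Cx dg d)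
    (htri : ∀ s r, d (e (Sum.inl s)) (e (Sum.inr r)) = 0)
    (hd₁ : Cx dg₁ (d.submatrix (e ∘ Sum.inl) (e ∘ Sum.inl)))
    (hd₂ : Cx dg₂ (d.submatrix (e ∘ Sum.inr) (e ∘ Sum.inr))) :
    tors β d = tors β₁ (d.submatrix (e ∘ Sum.inl) (e ∘ Sum.inl)) *
      relTors e dg₂ β₁ β (d.submatrix (e ∘ Sum.inr) (e ∘ Sum.inr)) := by
  obtain ⟨z, hz⟩ := contr_blk h₁ h₂ hd.1 hd.2.1 htri hd₁.contr hd₂.contr
  rw [tors_eq β hd hz]
  nth_rw 1 [eq_blk e htri]
  rw [blk_add, detb_blk h₁ h₂ β₁ β]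
  rfl

/-- The cocycle identity for the transition scalars of `U₀ ⊆ U₁ ⊆ U`. -/
theorem relTors_trans {U₀ W₁ W₂ W : Type} [Fintype U₀] [Fintype W₁] [Fintype W₂] [Fintype W]
    (e₁ : U₀ ⊕ W₁ ≃ U₁) (e₂ : U₁ ⊕ W₂ ≃ U) (e : U₀ ⊕ W ≃ U) (w : W₁ ⊕ W₂ ≃ W)
    {dg₀ : U₀ → ℤ} {dg₁ : U₁ → ℤ} {dg : U → ℤ} {dw₁ : W₁ → ℤ} {dw₂ : W₂ → ℤ} {dw : W → ℤ}
    (h₀₁ : ∀ s, dg₁ (e₁ (Sum.inl s)) = dg₀ s) (hw₁ : ∀ s, dg₁ (e₁ (Sum.inr s)) = dw₁ s)
    (h₁₂ : ∀ s, dg (e₂ (Sum.inl s)) = dg₁ s) (hw₂ : ∀ s, dg (e₂ (Sum.inr s)) = dw₂ s)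
    (hw : ∀ s, dg (e (Sum.inr s)) = dw s)
    (c₀ : ∀ s, e (Sum.inl s) = e₂ (Sum.inl (e₁ (Sum.inl s))))
    (c₁ : ∀ s, e (Sum.inr (w (Sum.inl s))) = e₂ (Sum.inl (e₁ (Sum.inr s))))
    (c₂ : ∀ s, e (Sum.inr (w (Sum.inr s))) = e₂ (Sum.inr s))
    (β₀ : Od dg₀ ≃ Ev dg₀) (β₁ : Od dg₁ ≃ Ev dg₁) (β : Od dg ≃ Ev dg) {d : Matrix W W K}
    (hd : Cx dw d) (htri : ∀ s r, d (w (Sum.inl s)) (w (Sum.inr r)) = 0)
    (hd₁ : Cx dw₁ (d.submatrix (w ∘ Sum.inl) (w ∘ Sum.inl)))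
    (hd₂ : Cx dw₂ (d.submatrix (w ∘ Sum.inr) (w ∘ Sum.inr))) :
    relTors e dw β₀ β d = relTors e₁ dw₁ β₀ β₁ (d.submatrix (w ∘ Sum.inl) (w ∘ Sum.inl)) *
      relTors e₂ dw₂ β₁ β (d.submatrix (w ∘ Sum.inr) (w ∘ Sum.inr)) := by
  have g₀ : ∀ s, dg (e (Sum.inl s)) = dg₀ s := fun s => by rw [c₀, h₁₂, h₀₁]
  have g₁ : ∀ s, dw (w (Sum.inl s)) = dw₁ s := fun s => by rw [← hw, c₁, h₁₂, hw₁]
  have g₂ : ∀ s, dw (w (Sum.inr s)) = dw₂ s := fun s => by rw [← hw, c₂, hw₂]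
  obtain ⟨z, hz⟩ := contr_blk g₁ g₂ hd.1 hd.2.1 htri hd₁.contr hd₂.contr
  rw [relTors_eq e g₀ hw β₀ β hd hz]
  nth_rw 1 [eq_blk w htri]
  rw [blk_add]
  unfold relTors
  generalize d.submatrix (w ∘ Sum.inl) (w ∘ Sum.inl) + _ = A
  generalize d.submatrix (w ∘ Sum.inr) (w ∘ Sum.inr) + _ = D
  generalize d.submatrix (w ∘ Sum.inr) (w ∘ Sum.inl) + _ = C
  change detb β (blk e (permM K β₀) 0 (blk w A C D)) =
    detb β₁ (blk e₁ (permM K β₀) 0 A) * detb β (blk e₂ (permM K β₁) 0 D)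
  rw [← detb_blk h₁₂ hw₂ β₁ β _ (Matrix.of fun s r => Sum.elim (fun _ => 0) (C s) (e₁.symm r))]
  congr 1
  refine blk_ext e₂ fun s r => ?_
  rw [blk_apply]
  rcases s with s | s <;> rcases r with r | r
  · obtain ⟨s | s, rfl⟩ := e₁.surjective s <;> obtain ⟨r | r, rfl⟩ := e₁.surjective r <;>
      simp [← c₀, ← c₁, blk_apply]
  · obtain ⟨s | s, rfl⟩ := e₁.surjective s <;> simp [← c₀, ← c₁, ← c₂, blk_apply]
  · obtain ⟨r | r, rfl⟩ := e₁.surjective r <;> simp [← c₀, ← c₁, ← c₂, blk_apply]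
  · simp [← c₂, blk_apply]

end Pool.Agent.P.MP_932208_ag.Ax
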