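import Pool.Agent.P.MP_932208_ag.Ex.Line
import Pool.Agent.P.MP_932208_ag.Ex.Sat

/-!
Diagrams of glued line bundles.
-/

namespace Pool.Agent.P.MP_932208_ag.Ax

open CategoryTheory

section chart
variable {A B : SRing}

theorem TwD_qi_res {φ : A ⟶ B} (hφ : (DG.unitHom φ).QI) (M : DG B) {e : M.V} (he : M.Cycle 0 e)
    (hq : (M.toSpan e he).QI) : ((M.res φ).toSpan e he).QI :=
  DG.Hom.QI.tri_left (h := (DG.unitHom φ).comp (M.toSpan e he) (Category.comp_id _))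
    (g := DG.resHom φ M) (fun _ => rfl) (DG.Hom.QI.tri (fun _ => rfl) hφ hq)
    ((DG.resHom φ M).qiso_of_bijective Function.bijective_id)

theorem TwD_qi_unit (M : DG B) {e e' : M.V} (he : M.Cycle 0 e) (he' : M.Cycle 0 e')
    (hq : (M.toSpan e he).QI) {c : B.obj 0} (hc : IsUnit c) (p : e' = N.inc c • e) :
    (M.toSpan e' he').QI :=
  (hq.scale hc).congr fun r => by
    rw [DG.Hom.scale_apply, DG.toSpan_apply, DG.toSpan_apply, p, smul_smul, smul_smul,
      N.inc_comm]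

/-- The glued module over `A^sat` as a module over `A`. -/
noncomputable def Tw.D (T : Tw A.sat) : DG A := T.dg.res A.toSat

/-- The generator given by a vertex. -/
noncomputable def Tw.genD (T : Tw A.sat) (v : T.X 0 0) : T.D.V := T.gen v

theorem Tw.cycle_genD (T : Tw A.sat) (v : T.X 0 0) : T.D.Cycle 0 (T.genD v) := T.cycle_gen v

theorem Tw.qi_genD (T : Tw A.sat) (v : T.X 0 0) :
    (T.D.toSpan (T.genD v) (T.cycle_genD v)).QI :=
  TwD_qi_res A.qi_toSat T.dg (T.cycle_gen v) (T.qi_gen v)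

variable {φ : A ⟶ B} {T : Tw A.sat} {T' : Tw B.sat}

/-- The map of glued modules. -/
noncomputable def Tw.Hom.D (h : Tw.Hom (SRing.satMap φ) T T') : DG.Hom φ T.D T'.D :=
  h.dg.resMap (SRing.toSat_nat φ)

theorem Tw.Hom.qi_span (h : Tw.Hom (SRing.satMap φ) T T') (v : T.X 0 0) :
    (T'.D.toSpan _ (h.D.cycle (T.cycle_genD v))).QI :=
  TwD_qi_res B.qi_toSat T'.dg (h.dg.cycle (T.cycle_gen v))
    (TwD_qi_unit T'.dg (T'.cycle_gen (h.f v)) _ (T'.qi_gen (h.f v)) (h.unit v) (h.dg_gen v))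

theorem Tw.Hom.line (h : Tw.Hom (SRing.satMap φ) T T') (q : T.Q) : h.D.LineBaseChange := by
  obtain ⟨v, -⟩ := T.exists_vertex q
  exact h.D.lineBaseChange_of_cycle (T.cycle_genD v) (T.qi_genD v) (h.qi_span v)

theorem Tw.Hom.qi_D {T T' : Tw A.sat} (h : Tw.Hom (SRing.satMap (𝟙 A)) T T') (q : T.Q) :
    h.D.QI := by
  obtain ⟨v, -⟩ := T.exists_vertex q
  refine DG.Hom.QI.tri_right (fun r => ?_) (h.qi_span v) (T.qi_genD v)
  rw [DG.toSpan_apply, DG.toSpan_apply, h.D.map_smul, N.map_id]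

theorem Tw.Hom.D_genD (h : Tw.Hom (SRing.satMap φ) T T') (v : T.X 0 0) {u : B.obj 0}
    (e : h.μ v = B.toSat.app 0 u) : h.D.toFun (T.genD v) = N.inc u • T'.genD (h.f v) := by
  refine (h.dg_gen v).trans ?_
  rw [e, ← N.map_inc]
  rfl

end chart

variable {J : Type} [SmallCategory J] {A B : J ⥤ SRing}

/-- A diagram of cocycles. -/
structure TwD (A : J ⥤ SRing) where
  obj : ∀ j, Tw (A.obj j).sat
  map : ∀ {i j : J} (ψ : i ⟶ j), Tw.Hom (SRing.satMap (A.map ψ)) (obj i) (obj j)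
  pt : ∀ j, (obj j).Q
  f_id : ∀ j n (x : (obj j).X n n), (map (𝟙 j)).f x = x
  μ_id : ∀ j n (x : (obj j).X n n), (map (𝟙 j)).μ x = 1
  f_comp : ∀ {i j k : J} (ψ : i ⟶ j) (χ : j ⟶ k) n (x : (obj i).X n n),
    (map (ψ ≫ χ)).f x = (map χ).f ((map ψ).f x)
  μ_comp : ∀ {i j k : J} (ψ : i ⟶ j) (χ : j ⟶ k) n (x : (obj i).X n n), (map (ψ ≫ χ)).μ x =
    (SRing.satMap (A.map χ)).app n ((map ψ).μ x) * (map χ).μ ((map ψ).f x)

namespace TwD

/-- The glued line bundle. -/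
@[reducible] noncomputable def mod (T : TwD A) : Mod A where
  obj j := (T.obj j).D
  map ψ := (T.map ψ).D
  map_id j := (T.map (𝟙 j)).dg_id (by rw [A.map_id, SRing.satMap_id]) (T.f_id j) (T.μ_id j)
  map_comp ψ χ := (T.map ψ).dg_tri (T.map χ) (T.map (ψ ≫ χ))
    (by rw [A.map_comp, SRing.satMap_comp]) (T.f_comp ψ χ) (T.μ_comp ψ χ)

theorem isLine (T : TwD A) : T.mod.IsLine := fun i _ ψ => (T.map ψ).line (T.pt i)

/-- A map of diagrams of cocycles. -/
structure Hom (η : A ⟶ B) (T : TwD A) (T' : TwD B) where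
  app : ∀ j, Tw.Hom (SRing.satMap (η.app j)) (T.obj j) (T'.obj j)
  f_nat : ∀ {i j : J} (ψ : i ⟶ j) n (x : (T.obj i).X n n),
    (app j).f ((T.map ψ).f x) = (T'.map ψ).f ((app i).f x)
  μ_nat : ∀ {i j : J} (ψ : i ⟶ j) n (x : (T.obj i).X n n),
    (SRing.satMap (η.app j)).app n ((T.map ψ).μ x) * (app j).μ ((T.map ψ).f x) =
      (SRing.satMap (B.map ψ)).app n ((app i).μ x) * (T'.map ψ).μ ((app i).f x)

/-- The map of line bundles. -/
@[reducible] noncomputable def Hom.mod {η : A ⟶ B} {T : TwD A} {T' : TwD B} (h : Hom η T T') :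
    Mod.Hom η T.mod T'.mod where
  app j := (h.app j).D
  nat ψ := (T.map ψ).dg_sq (h.app _) (h.app _) (T'.map ψ)
    (by rw [← SRing.satMap_comp, ← SRing.satMap_comp, η.naturality]) (h.f_nat ψ) (h.μ_nat ψ)

theorem Hom.line {η : A ⟶ B} {T : TwD A} {T' : TwD B} (h : Hom η T T') (j : J) :
    (h.mod.app j).LineBaseChange := (h.app j).line (T.pt j)

theorem Hom.equiv {T T' : TwD A} (h : Hom (𝟙 A) T T') : T.mod.Equiv T'.mod :=
  Mod.Equiv.of_hom h.mod fun j => Tw.Hom.qi_D (h.app j) (T.pt j)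

/-- The product. -/
@[reducible] noncomputable def prod (T T' : TwD A) : TwD A where
  obj j := (T.obj j).prod (T'.obj j)
  map ψ := (T.map ψ).prod (T'.map ψ)
  pt j := (T.pt j, T'.pt j)
  f_id j n x := Prod.ext (T.f_id j n x.1) (T'.f_id j n x.2)
  μ_id j n x := by
    change _ * _ = _
    rw [T.μ_id, T'.μ_id, mul_one]
  f_comp ψ χ n x := Prod.ext (T.f_comp ψ χ n x.1) (T'.f_comp ψ χ n x.2)
  μ_comp ψ χ n x := by
    change _ * _ = _ * (_ * _)
    rw [T.μ_comp, T'.μ_comp, map_mul]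
    ring

theorem isTensor (T T' : TwD A) : Mod.IsTensor T.mod T'.mod (T.prod T').mod := by
  refine ⟨_, _, _, ⟨fun j => ((T.obj j).pair (T'.obj j)).res _,
    fun ψ => Tw.pair_compat (T.map ψ) (T'.map ψ)⟩, .refl _, .refl _, .refl _, fun j => ?_⟩
  obtain ⟨v, -⟩ := (T.obj j).exists_vertex (T.pt j)
  obtain ⟨w, -⟩ := (T'.obj j).exists_vertex (T'.pt j)
  exact DG.Pairing.ontoH0_of_gen _ ((T.obj j).cycle_genD v) ((T'.obj j).cycle_genD w)
    (((T.obj j).prod (T'.obj j)).cycle_genD (v, w)) (Tw.pair_gen _ _ v w)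
    (((T.obj j).prod (T'.obj j)).qi_genD (v, w))

/-- A family of vertices that is natural up to the cocycle `γ` trivialises the bundle. -/
theorem equiv_of_vertex (T : TwD A) (γ : Cocycle A) (v : ∀ j, (T.obj j).X 0 0)
    (h : ∀ {i j : J} (ψ : i ⟶ j), (T.map ψ).f (v i) = v j)
    (h' : ∀ {i j : J} (ψ : i ⟶ j), (T.map ψ).μ (v i) = (A.obj j).toSat.app 0 (γ.c ψ)) :
    ((Mod.unit A).twist γ).Equiv T.mod := by
  refine Mod.Equiv.of_hom ⟨fun j => (T.obj j).D.toSpan ((T.obj j).genD (v j))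
    ((T.obj j).cycle_genD (v j)), fun {i j} ψ x => ?_⟩ fun j => (T.obj j).qi_genD (v j)
  change (N.inc (γ.c ψ : (A.obj j).obj 0) * N.map (A.map ψ) x) • (T.obj j).genD (v j) =
    (T.map ψ).D.toFun (x • (T.obj i).genD (v i))
  rw [DG.Hom.map_smul, (T.map ψ).D_genD (v i) (h' ψ), h, smul_smul, N.inc_comm]

/-- The point, twisted by a cocycle. -/
@[reducible] noncomputable def point (γ : Cocycle A) : TwD A where
  obj j := Tw.pt _
  map {_ j} ψ := Tw.ptHom _ (Units.map ((A.obj j).toSat.app 0).toMonoidHom (γ.c ψ))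
  pt _ := ()
  f_id _ _ _ := rfl
  μ_id j n _ := by
    change (A.obj j).sat.map (vert n 0) ((A.obj j).toSat.app 0 (γ.c (𝟙 j) : (A.obj j).obj 0)) = 1
    rw [γ.c_id, Units.val_one, map_one, map_one]
  f_comp _ _ _ _ := rfl
  μ_comp {i j k} ψ χ n _ := by
    change (A.obj k).sat.map (vert n 0) ((A.obj k).toSat.app 0 (γ.c (ψ ≫ χ) : (A.obj k).obj 0)) =
      (SRing.satMap (A.map χ)).app n
          ((A.obj j).sat.map (vert n 0) ((A.obj j).toSat.app 0 (γ.c ψ : (A.obj j).obj 0))) *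
        (A.obj k).sat.map (vert n 0) ((A.obj k).toSat.app 0 (γ.c χ : (A.obj k).obj 0))
    have e : (SRing.satMap (A.map χ)).app 0 ((A.obj j).toSat.app 0 (γ.c ψ : (A.obj j).obj 0)) =
        (A.obj k).toSat.app 0 ((A.map χ).app 0 (γ.c ψ : (A.obj j).obj 0)) := by
      rw [← SRing.comp_app, ← SRing.toSat_nat, SRing.comp_app]
    rw [(SRing.satMap (A.map χ)).nat, e, ← map_mul, ← map_mul, γ.c_comp, mul_comm]
    rfl

theorem equiv_point (γ : Cocycle A) : ((Mod.unit A).twist γ).Equiv (point γ).mod :=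
  (point γ).equiv_of_vertex γ (fun _ => ()) (fun _ => rfl) fun _ => SRing.c2_map00 _ _ _

end TwD

end Pool.Agent.P.MP_932208_ag.Ax
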